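import Pool.Agent.H45.ChainDefs

set_option autoImplicit false

namespace Pool.Agent.H45.Chain

open MeasureTheory ProbabilityTheory

open Classical in
/-- Simple random walk on a graph: jump to a uniformly chosen neighbour (a vertex without
neighbours, or with infinitely many, does not move). -/
noncomputable def srw {V : Type} [MeasurableSpace V] [Countable V] [MeasurableSingletonClass V]
    (G : SimpleGraph V) : Kernel V V :=
  Kernel.ofFunOfCountable fun v =>
    if (G.neighborSet v).Finite ∧ (G.neighborSet v).Nonempty then uniformOn (G.neighborSet v)
    else Measure.dirac v

instance {V : Type} [MeasurableSpace V] [Countable V] [MeasurableSingletonClass V]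
    (G : SimpleGraph V) : IsMarkovKernel (srw G) :=
  ⟨fun v => by
    simp only [srw, Kernel.ofFunOfCountable, Kernel.coe_mk]
    split_ifs with h
    · exact isProbabilityMeasure_uniformOn h.1 h.2
    · infer_instance⟩

end Pool.Agent.H45.Chain
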