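import Pool.Agent.H45.ChainDefs

set_option autoImplicit false

namespace Pool.Agent.H45.Chain

open MeasureTheory ProbabilityTheory Finset Preorder
open scoped ENNReal

variable {V : Type} [MeasurableSpace V]

instance instProb (K : Kernel V V) [IsMarkovKernel K] (u : V) :
    IsProbabilityMeasure (pathLaw K u) := by
  unfold pathLaw; infer_instance

/-- point cylinder -/
def cyl (n : ℕ) (y : ℕ → V) : Set (ℕ → V) := {x | ∀ i ≤ n, x i = y i}

omit [MeasurableSpace V] in
lemma cyl_eq (n : ℕ) (y : ℕ → V) :
    cyl n y = frestrictLe (π := fun _ => V) n ⁻¹' {frestrictLe n y} := by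
  ext x
  simp only [cyl, Set.mem_ofPred_eq, Set.mem_preimage, Set.mem_singleton_iff, funext_iff,
    frestrictLe_apply]
  exact ⟨fun h i => h i (mem_Iic.1 i.2), fun h i hi => h ⟨i, mem_Iic.2 hi⟩⟩

lemma measurableSet_cyl [MeasurableSingletonClass V] (n : ℕ) (y : ℕ → V) :
    MeasurableSet (cyl n y) := by
  rw [cyl_eq]
  exact measurable_frestrictLe n (measurableSet_singleton _)

lemma pathLaw_cyl [MeasurableSingletonClass V] [DecidableEq V] (K : Kernel V V) [IsMarkovKernel K]
    (u : V) (n : ℕ) (y : ℕ → V) :
    pathLaw K u (cyl n y) =
      (if y 0 = u then 1 else 0) * ∏ i ∈ range n, K (y i) {y (i + 1)} := by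
  induction n with
  | zero =>
    rw [cyl_eq, ← Measure.map_apply (measurable_frestrictLe 0) (measurableSet_singleton _),
      pathLaw, Kernel.trajMeasure, Measure.map_comp _ _ (by fun_prop),
      Kernel.traj_map_frestrictLe, Kernel.partialTraj_self, Measure.id_comp,
      Measure.map_dirac' (by fun_prop), Measure.dirac_apply' _ (measurableSet_singleton _)]
    simp only [range_zero, prod_empty, mul_one, Set.indicator, Set.mem_singleton_iff,
      Pi.one_apply]
    congr 1
    simp only [funext_iff, frestrictLe_apply, eq_iff_iff]
    constructor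
    · intro h
      exact (h ⟨0, mem_Iic.2 le_rfl⟩).symm
    · intro h i
      have : i.1 = 0 := by have := mem_Iic.1 i.2; omega
      rw [this, h]
      obtain ⟨i, hi⟩ := i
      simp only at this
      subst this
      rfl
  | succ n ih =>
    have e : cyl (n + 1) y = (fun x : ℕ → V => (frestrictLe (π := fun _ => V) n x, x (n + 1))) ⁻¹'
        ({frestrictLe n y} ×ˢ {y (n + 1)}) := by
      ext x
      have := Set.ext_iff.1 (cyl_eq n y) x
      simp only [Set.mem_preimage, Set.mem_singleton_iff] at this
      simp only [Set.mem_preimage, Set.mem_prod, Set.mem_singleton_iff, ← this, cyl,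
        Set.mem_ofPred_eq]
      constructor
      · intro h
        exact ⟨fun i hi => h i (by omega), h _ le_rfl⟩
      · rintro ⟨h1, h2⟩ i hi
        rcases Nat.lt_or_eq_of_le hi with h | rfl
        · exact h1 i (by omega)
        · exact h2
    rw [e, ← Measure.map_apply (by fun_prop)
      ((measurableSet_singleton _).prod (measurableSet_singleton _)), pathLaw,
      ← Kernel.map_frestrictLe_trajMeasure_compProd_eq_map_trajMeasure,
      Measure.compProd_apply_prod (measurableSet_singleton _) (measurableSet_singleton _),
      lintegral_singleton' (Kernel.measurable_coe _ (measurableSet_singleton _)),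
      Measure.map_apply (measurable_frestrictLe n) (measurableSet_singleton _), ← cyl_eq,
      ← pathLaw, ih, prod_range_succ, Kernel.comap_apply, frestrictLe_apply]
    ring

lemma ext_cyl [Countable V] [MeasurableSingletonClass V] [Nonempty V] (μ ν : Measure (ℕ → V))
    [IsFiniteMeasure μ] (h : ∀ n y, μ (cyl n y) = ν (cyl n y)) : μ = ν := by
  have h1 : ∀ n, μ.map (frestrictLe (π := fun _ => V) n) = ν.map (frestrictLe n) := by
    intro n
    refine Measure.ext_of_singleton fun z => ?_
    classical
    have hz : z = frestrictLe (π := fun _ => V) n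
        (fun i => if hi : i ≤ n then z ⟨i, mem_Iic.2 hi⟩ else Classical.arbitrary V) := by
      funext i
      simp [frestrictLe_apply, mem_Iic.1 i.2]
    rw [Measure.map_apply (measurable_frestrictLe n) (measurableSet_singleton _),
      Measure.map_apply (measurable_frestrictLe n) (measurableSet_singleton _), hz, ← cyl_eq, h]
  have h2 : ∀ I : Finset ℕ, μ.map (I.restrict (π := fun _ => V)) = ν.map I.restrict := by
    intro I
    have hI : I ⊆ Iic (I.sup id) := fun i hi => mem_Iic.2 (le_sup (f := id) hi)
    have e : I.restrict (π := fun _ => V) = Finset.restrict₂ hI ∘ frestrictLe (I.sup id) := rfl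
    rw [e, ← Measure.map_map (measurable_restrict₂ hI) (measurable_frestrictLe _),
      ← Measure.map_map (measurable_restrict₂ hI) (measurable_frestrictLe _), h1]
  exact IsProjectiveLimit.unique (P := fun I : Finset ℕ => μ.map (I.restrict (π := fun _ => V)))
    (fun _ => rfl) (fun I => (h2 I).symm)

/-- prepend a state to a path -/
def cons (u : V) (x : ℕ → V) : ℕ → V
  | 0 => u
  | n + 1 => x n

omit [MeasurableSpace V] in
@[simp] lemma cons_zero (u : V) (x : ℕ → V) : cons u x 0 = u := rfl
omit [MeasurableSpace V] in
@[simp] lemma cons_succ (u : V) (x : ℕ → V) (n : ℕ) : cons u x (n + 1) = x n := rfl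

lemma measurable_cons (u : V) : Measurable (cons u) := by
  refine measurable_pi_lambda _ fun n => ?_
  cases n with
  | zero => exact measurable_const
  | succ n => exact measurable_pi_apply n

lemma tsum_kernel [Countable V] [MeasurableSingletonClass V] (K : Kernel V V) [IsMarkovKernel K]
    (u : V) : ∑' w, K u {w} = 1 := by
  rw [← measure_iUnion (fun a b hab => by simpa [Function.onFun] using hab)
    (fun _ => measurableSet_singleton _)]
  simp [Set.iUnion_of_singleton]

lemma pathLaw_first_step [Countable V] [MeasurableSingletonClass V] (K : Kernel V V)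
    [IsMarkovKernel K] (u : V) :
    pathLaw K u = Measure.sum fun w => K u {w} • (pathLaw K w).map (cons u) := by
  classical
  have : Nonempty V := ⟨u⟩
  refine ext_cyl _ _ fun n y => ?_
  rw [Measure.sum_apply _ (measurableSet_cyl n y), pathLaw_cyl]
  simp only [Measure.smul_apply, smul_eq_mul,
    Measure.map_apply (measurable_cons u) (measurableSet_cyl n y)]
  by_cases h0 : y 0 = u
  · cases n with
    | zero =>
      have : cons u ⁻¹' cyl 0 y = Set.univ := by
        ext x
        simp [cyl, h0]
      simp [this, h0, tsum_kernel]
    | succ n =>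
      have : cons u ⁻¹' cyl (n + 1) y = cyl n (fun i => y (i + 1)) := by
        ext x
        simp only [cyl, Set.mem_preimage, Set.mem_ofPred_eq]
        constructor
        · intro h i hi
          exact h (i + 1) (by omega)
        · intro h i hi
          cases i with
          | zero => exact h0.symm
          | succ i => exact h i (by omega)
      simp only [this, pathLaw_cyl, h0, if_true, one_mul]
      rw [tsum_eq_single (y 1) (fun w hw => by simp [Ne.symm hw]), prod_range_succ', h0]
      simp [mul_comm]
  · have : cons u ⁻¹' cyl n y = ∅ := by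
      ext x
      simp only [cyl, Set.mem_preimage, Set.mem_ofPred_eq, Set.mem_empty_iff_false, iff_false]
      intro h
      exact h0 (h 0 (Nat.zero_le _)).symm
    simp [this, h0]

lemma lintegral_first_step [Countable V] [MeasurableSingletonClass V] (K : Kernel V V)
    [IsMarkovKernel K] (u : V) (F : (ℕ → V) → ℝ≥0∞) (hF : Measurable F) :
    ∫⁻ x, F x ∂pathLaw K u = ∑' w, K u {w} * ∫⁻ x, F (cons u x) ∂pathLaw K w := by
  rw [pathLaw_first_step K u, lintegral_sum_measure]
  refine tsum_congr fun w => ?_
  rw [lintegral_smul_measure, lintegral_map hF (measurable_cons u), smul_eq_mul]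

lemma measure_first_step [Countable V] [MeasurableSingletonClass V] (K : Kernel V V)
    [IsMarkovKernel K] (u : V) (A : Set (ℕ → V)) (hA : MeasurableSet A) :
    pathLaw K u A = ∑' w, K u {w} * pathLaw K w (cons u ⁻¹' A) := by
  rw [pathLaw_first_step K u, Measure.sum_apply _ hA]
  refine tsum_congr fun w => ?_
  rw [Measure.smul_apply, Measure.map_apply (measurable_cons u) hA, smul_eq_mul]

end Pool.Agent.H45.Chain
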