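import Mathlib

set_option autoImplicit false

namespace Pool.Agent.H45.AR

open MeasureTheory

/-- Position `X_n = ω 0 * ω 1 * ... * ω (n-1)` of the walk with increments `ω`. -/
def walk {G : Type} [Group G] (ω : ℕ → G) (n : ℕ) : G := ((List.range n).map ω).prod

/-- The subsemigroup `S_n` generated by `X_n, X_{n+1}, ...`. -/
def tailSemigroup {G : Type} [Group G] (ω : ℕ → G) (n : ℕ) : Subsemigroup G :=
  Subsemigroup.closure (Set.range fun k : ℕ => walk ω (n + k))

/-- `(G, μ)` is algebraically recurrent: for i.i.d. increments of law `μ` and every `n ≥ 1`,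
almost surely `S_n = G`. The group carries the discrete sigma-algebra. -/
def IsARPair {G : Type} [Group G] (μ : PMF G) : Prop :=
  letI : MeasurableSpace G := ⊤
  ∀ n : ℕ, 1 ≤ n →
    ∀ᵐ ω ∂(Measure.infinitePi fun _ : ℕ => μ.toMeasure), tailSemigroup ω n = ⊤

/-- `μ` is symmetric and its support generates `G` as a group. -/
def Admissible {G : Type} [Group G] (μ : PMF G) : Prop :=
  (∀ g : G, μ g⁻¹ = μ g) ∧ Subgroup.closure μ.support = ⊤

/-- `G` is algebraically recurrent: `(G, μ)` is so for every admissible `μ`. -/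
def IsAR (G : Type) [Group G] : Prop :=
  ∀ μ : PMF G, Admissible μ → IsARPair μ

end Pool.Agent.H45.AR
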