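import Pool.Agent.H45.ARNon

set_option autoImplicit false
set_option maxHeartbeats 400000

namespace Pool.Agent.H45.AR

open MeasureTheory Finset Filter Topology

lemma hs_congr {ι : Type} {f g : ι → ℝ} {a : ℝ} (h : HasSum f a) (e : ∀ x, g x = f x) :
    HasSum g a := by
  rwa [show g = f from funext e]

section liou
variable {G : Type} [Group G]

lemma propagate {w : G → ℝ} (hw0 : ∀ h, 0 ≤ w h) (hw1 : HasSum w 1) {F : G → ℝ} {m : ℝ}
    (hm : ∀ y, F y ≤ m) {x : G} (hx : HasSum (fun h => w h * F (x * h)) (F x)) (g : G) :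
    w g * (m - F (x * g)) ≤ m - F x := by
  have h1 : HasSum (fun h => w h * (m - F (x * h))) (m - F x) := by
    have := (hw1.mul_right m).sub hx
    simp only [one_mul] at this
    refine hs_congr this fun h => ?_
    ring
  exact le_hasSum h1 g fun h _ => mul_nonneg (hw0 h) (sub_nonneg.2 (hm _))

omit [Group G] in
lemma w_le_one {w : G → ℝ} (hw0 : ∀ h, 0 ≤ w h) (hw1 : HasSum w 1) (g : G) : w g ≤ 1 :=
  le_hasSum hw1 g fun h _ => hw0 h

lemma telescope {w : G → ℝ} (hw0 : ∀ h, 0 ≤ w h) (hw1 : HasSum w 1) {f D : G → ℝ} {M δ : ℝ}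
    (hf : ∀ x, |f x| ≤ M) (hD : ∀ x, HasSum (fun h => w h * D (x * h)) (D x))
    (hδ : ∀ y, D y ≤ δ) (A : Set G) (g : G) (hg : 0 < w g) (hA : ∀ x ∈ A, x * g ∈ A)
    (hDA : ∀ x ∈ A, D x = f (x * g) - f x) (hnear : ∀ ε > 0, ∃ y ∈ A, δ - ε < D y) : δ ≤ 0 := by
  have h1 : ∀ L : ℕ, ∀ ε > 0, ∃ y ∈ A, ∀ k ≤ L, δ - ε < D (y * g ^ k) := by
    intro L
    induction L with
    | zero =>
      intro ε hε
      obtain ⟨y, hy, h⟩ := hnear ε hε
      exact ⟨y, hy, fun k hk => by obtain rfl : k = 0 := by omega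
                                   simpa using h⟩
    | succ L ih =>
      intro ε hε
      obtain ⟨y, hy, h⟩ := ih (w g * ε) (by positivity)
      refine ⟨y, hy, fun k hk => ?_⟩
      cases k with
      | zero =>
        have := h 0 (Nat.zero_le _)
        have := w_le_one hw0 hw1 g
        nlinarith
      | succ k =>
        have h2 := h k (by omega)
        have h3 := propagate hw0 hw1 hδ (hD (y * g ^ k)) g
        rw [pow_succ, ← mul_assoc]
        have : w g * (δ - D (y * g ^ k * g)) < w g * ε := by linarith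
        have := lt_of_mul_lt_mul_left this hg.le
        linarith
  by_contra hpos
  push Not at hpos
  obtain ⟨L, hL⟩ := exists_nat_gt (2 * M / (δ / 2))
  obtain ⟨y, hy, h⟩ := h1 L (δ / 2) (by positivity)
  have h2 : ∀ k ≤ L, y * g ^ k ∈ A ∧ k * (δ / 2) ≤ f (y * g ^ k) - f y := by
    intro k
    induction k with
    | zero => simpa using hy
    | succ k ih =>
      intro hk
      obtain ⟨h3, h4⟩ := ih (by omega)
      have h5 := h k (by omega)
      rw [hDA _ h3] at h5
      rw [pow_succ, ← mul_assoc]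
      refine ⟨hA _ h3, ?_⟩
      push_cast
      linarith
  have h3 := (h2 L le_rfl).2
  have h4 := abs_le.1 (hf (y * g ^ L))
  have h5 := abs_le.1 (hf y)
  rw [div_lt_iff₀ (by positivity)] at hL
  linarith

lemma near_level {w : G → ℝ} (hw0 : ∀ h, 0 ≤ w h) (hw1 : HasSum w 1) (hws : ∀ h, w h⁻¹ = w h)
    (p : G → ℤ) (hp : ∀ x y, p (x * y) = p x + p y) (hpw : ∀ h, w h ≠ 0 → |p h| ≤ 1)
    (t : G) (ht : p t = 1) (hwt : 0 < w t) {D : G → ℝ} {δ : ℝ}
    (hD : ∀ x, HasSum (fun h => w h * D (x * h)) (D x)) (hδ : ∀ y, D y ≤ δ)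
    (hnear : ∀ ε > 0, ∃ y, δ - ε < D y) (i : ℤ) :
    ∀ ε > 0, ∃ y, p y = i ∧ δ - ε < D y := by
  have hp1 : p 1 = 0 := by have := hp 1 1; simp at this; exact this
  have hpi : ∀ x, p x⁻¹ = -p x := fun x => by have := hp x x⁻¹; simp [hp1] at this; omega
  have hs0 : HasSum (fun h => w h * (p h : ℝ)) 0 := by
    have hs : Summable fun h => w h * (p h : ℝ) := by
      refine Summable.of_norm_bounded hw1.summable fun h => ?_
      by_cases e : w h = 0
      · simp [e]
      · rw [norm_mul, Real.norm_of_nonneg (hw0 h)]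
        have : ‖(p h : ℝ)‖ ≤ 1 := by
          rw [Real.norm_eq_abs]; exact_mod_cast hpw h e
        nlinarith [hw0 h]
    have h1 := hs.hasSum
    have h2 := (Equiv.inv G).hasSum_iff.2 h1
    have h3 : HasSum (fun h => w h * (p h : ℝ)) (-∑' h, w h * (p h : ℝ)) := by
      refine hs_congr (h2.neg) fun h => ?_
      simp [hws, hpi]
    have := h1.unique h3
    have h4 : ∑' h, w h * (p h : ℝ) = 0 := by linarith
    rwa [h4] at h1
  have habs : ∀ x, p x ≠ i →
      HasSum (fun h => w h * |(p (x * h) : ℝ) - i|) |(p x : ℝ) - i| := by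
    intro x hx
    rcases lt_or_gt_of_ne hx with h | h
    · have := (hw1.mul_right |(p x : ℝ) - i|).sub hs0
      simp only [one_mul, sub_zero] at this
      refine hs_congr (this) fun g => ?_
      by_cases e : w g = 0
      · simp [e]
      · have h1 := abs_le.1 (hpw g e)
        have h2 : ((p (x * g) : ℝ) - i) ≤ 0 := by
          rw [hp]; exact_mod_cast (by omega : p x + p g - i ≤ 0)
        have h3 : ((p x : ℝ) - i) ≤ 0 := by exact_mod_cast (by omega : p x - i ≤ 0)
        rw [abs_of_nonpos h2, abs_of_nonpos h3, hp]; push_cast; ring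
    · have := (hw1.mul_right |(p x : ℝ) - i|).add hs0
      simp only [one_mul, add_zero] at this
      refine hs_congr (this) fun g => ?_
      by_cases e : w g = 0
      · simp [e]
      · have h1 := abs_le.1 (hpw g e)
        have h2 : 0 ≤ ((p (x * g) : ℝ) - i) := by
          rw [hp]; exact_mod_cast (by omega : 0 ≤ p x + p g - i)
        have h3 : 0 ≤ ((p x : ℝ) - i) := by exact_mod_cast (by omega : 0 ≤ p x - i)
        rw [abs_of_nonneg h2, abs_of_nonneg h3, hp]; push_cast; ring
  intro θ hθ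
  obtain ⟨x0, hx0⟩ := hnear (θ / 3) (by positivity)
  obtain ⟨η, hη, hη2⟩ : ∃ η : ℝ, 0 < η ∧ η * |(p x0 : ℝ) - i| ≤ θ / 3 := by
    refine ⟨θ / 3 / (|(p x0 : ℝ) - i| + 1), by positivity, ?_⟩
    rw [div_mul_eq_mul_div, div_le_iff₀ (by positivity)]
    nlinarith
  set W : G → ℝ := fun x => D x - η * |(p x : ℝ) - i| with hW
  have hWD : ∀ x, W x ≤ D x := fun x => by
    have : 0 ≤ η * |(p x : ℝ) - i| := by positivity
    simp only [hW]; linarith
  have hbdd : BddAbove (Set.range W) := ⟨δ, by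
    rintro _ ⟨x, rfl⟩; exact (hWD x).trans (hδ x)⟩
  set m := ⨆ x, W x with hm
  have hWm : ∀ x, W x ≤ m := fun x => le_ciSup hbdd x
  have hWh : ∀ x, p x ≠ i → HasSum (fun h => w h * W (x * h)) (W x) := by
    intro x hx
    refine hs_congr ((hD x).sub ((habs x hx).mul_left η)) fun g => ?_
    simp only [hW]; ring
  have key : ∀ d : ℕ, (∀ ε > 0, ∃ x, |p x - i| ≤ d ∧ m - ε < W x) →
      ∀ ε > 0, ∃ x, p x = i ∧ m - ε < W x := by
    intro d
    induction d with
    | zero =>
      intro h ε hε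
      obtain ⟨x, h1, h2⟩ := h ε hε
      have := abs_le.1 h1
      exact ⟨x, by omega, h2⟩
    | succ d ih =>
      intro h
      refine ih fun ε hε => ?_
      obtain ⟨x, h1, h2⟩ := h (w t * ε) (by positivity)
      have h3 := abs_le.1 h1
      push_cast at h3
      by_cases h4 : |p x - i| ≤ d
      · have := w_le_one hw0 hw1 t
        exact ⟨x, h4, by nlinarith⟩
      · rw [abs_le] at h4
        have h5 : ∀ g, w g = w t → m - ε < W (x * g) := by
          intro g hg
          have h6 := propagate hw0 hw1 hWm (hWh x (by omega)) g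
          rw [hg] at h6
          have : w t * (m - W (x * g)) < w t * ε := by linarith
          have := lt_of_mul_lt_mul_left this hwt.le
          linarith
        by_cases h7 : p x < i
        · exact ⟨x * t, by rw [hp, ht, abs_le]; omega, h5 t rfl⟩
        · exact ⟨x * t⁻¹, by rw [hp, hpi, ht, abs_le]; omega, h5 _ (hws t)⟩
  obtain ⟨d, hd⟩ := exists_nat_ge ((δ - m + 1) / η)
  obtain ⟨y, hy1, hy2⟩ := key d (fun ε hε => by
    obtain ⟨x, hx⟩ := exists_lt_of_lt_ciSup (show m - min ε 1 < ⨆ x, W x from by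
      have : 0 < min ε 1 := by positivity
      linarith)
    refine ⟨x, ?_, by linarith [min_le_left ε 1]⟩
    have h1 : η * |(p x : ℝ) - i| ≤ δ - m + 1 := by
      have := hδ x
      have := min_le_right ε 1
      simp only [hW] at hx
      linarith
    rw [div_le_iff₀ hη] at hd
    have h2 : |(p x : ℝ) - i| ≤ d := le_of_mul_le_mul_left (by linarith) hη
    exact_mod_cast h2) (θ / 3) (by positivity)
  refine ⟨y, hy1, ?_⟩
  have h1 := hWm x0
  have h2 := hWD y
  simp only [hW] at h1
  linarith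

lemma sup_near {D : G → ℝ} {M : ℝ} (hD : ∀ x, D x ≤ M) :
    ∃ δ, (∀ y, D y ≤ δ) ∧ ∀ ε > 0, ∃ y, δ - ε < D y := by
  have hbdd : BddAbove (Set.range D) := ⟨M, by rintro _ ⟨x, rfl⟩; exact hD x⟩
  exact ⟨⨆ x, D x, fun y => le_ciSup hbdd y, fun ε hε => exists_lt_of_lt_ciSup (by linarith)⟩

theorem liouville {w : G → ℝ} (hw0 : ∀ h, 0 ≤ w h) (hw1 : HasSum w 1) (hws : ∀ h, w h⁻¹ = w h)
    (p : G → ℤ) (hp : ∀ x y, p (x * y) = p x + p y) (hpw : ∀ h, w h ≠ 0 → |p h| ≤ 1)
    (a t : G) (ha : p a = 0) (ht : p t = 1) (hwa : 0 < w a) (hwt : 0 < w t)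
    (hgen : Subgroup.closure {a, t} = ⊤)
    (hcomm : ∀ x, t ^ p x * a * (t ^ p x)⁻¹ * x = x * a)
    (f : G → ℝ) (M : ℝ) (hf : ∀ x, |f x| ≤ M)
    (hh : ∀ x, HasSum (fun h => w h * f (x * h)) (f x)) (x y : G) : f x = f y := by
  have h1 : ∀ f : G → ℝ, (∀ x, |f x| ≤ M) → (∀ x, HasSum (fun h => w h * f (x * h)) (f x)) →
      ∀ (i : ℤ) x, f (t ^ i * a * (t ^ i)⁻¹ * x) - f x ≤ 0 := by
    intro f hf hh i
    obtain ⟨δ, hδ, hnear⟩ := sup_near (D := fun x => f (t ^ i * a * (t ^ i)⁻¹ * x) - f x)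
      (M := 2 * M) fun x => by
        have := abs_le.1 (hf (t ^ i * a * (t ^ i)⁻¹ * x))
        have := abs_le.1 (hf x)
        linarith
    have hD : ∀ x, HasSum (fun h => w h * (f (t ^ i * a * (t ^ i)⁻¹ * (x * h)) - f (x * h)))
        (f (t ^ i * a * (t ^ i)⁻¹ * x) - f x) := by
      intro x
      refine hs_congr ((hh (t ^ i * a * (t ^ i)⁻¹ * x)).sub (hh x)) fun g => ?_
      rw [mul_sub, mul_assoc _ x g]
    have := telescope hw0 hw1 hf hD hδ {x | p x = i} a hwa
      (fun x hx => by simpa [hp, ha] using hx)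
      (fun x hx => by rw [← hcomm x, hx])
      (near_level hw0 hw1 hws p hp hpw t ht hwt hD hδ hnear i)
    exact fun x => (hδ x).trans this
  have h2 : ∀ (i : ℤ) x, f (t ^ i * a * (t ^ i)⁻¹ * x) = f x := by
    intro i x
    have e1 := h1 f hf hh i x
    have e2 := h1 (fun x => -f x) (fun x => by simpa using hf x)
      (fun x => by simpa using (hh x).neg) i x
    linarith
  have hp1 : p 1 = 0 := by have := hp 1 1; simp at this; exact this
  have hpi : ∀ x, p x⁻¹ = -p x := fun x => by have := hp x x⁻¹; simp [hp1] at this; omega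
  let H : Subgroup G :=
    { carrier := {h | ∀ x, f (h * x) = f x}
      mul_mem' := fun {u v} hu hv x => by rw [mul_assoc, hu, hv]
      one_mem' := fun x => by rw [one_mul]
      inv_mem' := fun {u} hu x => by rw [← hu (u⁻¹ * x), mul_inv_cancel_left] }
  have h3 : ∀ x, x * (t ^ p x)⁻¹ ∈ H := by
    intro x
    have hx : x ∈ Subgroup.closure {a, t} := hgen ▸ Subgroup.mem_top x
    induction hx using Subgroup.closure_induction_right with
    | one => simp [hp1]
    | mul_right x _ g hg ih =>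
      rcases hg with rfl | rfl
      · have := H.mul_mem ih (h2 (p x))
        rw [hp, ha, add_zero]
        convert this using 1
        group
      · rw [hp, ht]
        convert ih using 1
        group
    | mul_inv_cancel x _ g hg ih =>
      rcases hg with rfl | rfl
      · have := H.mul_mem ih (H.inv_mem (h2 (p x)))
        rw [hp, hpi, ha, neg_zero, add_zero]
        convert this using 1
        group
      · rw [hp, hpi, ht]
        convert ih using 1
        group
  have h4 : ∀ x y, p x = p y → f x = f y := by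
    intro x y e
    have e1 := h3 x (t ^ p x)
    have e2 := h3 y (t ^ p y)
    rw [inv_mul_cancel_right] at e1 e2
    rw [e1, e2, e]
  have h5 : ∀ f : G → ℝ, (∀ x, |f x| ≤ M) → (∀ x, HasSum (fun h => w h * f (x * h)) (f x)) →
      (∀ x y, p x = p y → f x = f y) → ∀ x, f (x * t) - f x ≤ 0 := by
    intro f hf hh h4
    obtain ⟨δ, hδ, hnear⟩ := sup_near (D := fun x => f (x * t) - f x)
      (M := 2 * M) fun x => by
        have := abs_le.1 (hf (x * t))
        have := abs_le.1 (hf x)
        linarith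
    have hD : ∀ x, HasSum (fun h => w h * (f (x * h * t) - f (x * h))) (f (x * t) - f x) := by
      intro x
      refine hs_congr ((hh (x * t)).sub (hh x)) fun g => ?_
      rw [mul_sub, h4 (x * g * t) (x * t * g) (by simp only [hp]; ring)]
    have := telescope hw0 hw1 hf hD hδ Set.univ t hwt (fun _ _ => trivial) (fun _ _ => rfl)
      (fun ε hε => by obtain ⟨y, hy⟩ := hnear ε hε; exact ⟨y, trivial, hy⟩)
    exact fun x => (hδ x).trans this
  have h6 : ∀ x, f (x * t) = f x := by
    intro x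
    have e1 := h5 f hf hh h4 x
    have e2 := h5 (fun x => -f x) (fun x => by simpa using hf x)
      (fun x => by simpa using (hh x).neg) (fun x y e => by rw [h4 x y e]) x
    linarith
  have h7 : ∀ x, f x = f 1 := by
    intro x
    have hx : x ∈ Subgroup.closure {a, t} := hgen ▸ Subgroup.mem_top x
    induction hx using Subgroup.closure_induction_right with
    | one => rfl
    | mul_right x _ g hg ih =>
      rcases hg with rfl | rfl
      · rw [← ih]; exact h4 _ _ (by simp [hp, ha])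
      · rw [h6, ih]
    | mul_inv_cancel x _ g hg ih =>
      rcases hg with rfl | rfl
      · rw [← ih]; exact h4 _ _ (by simp [hp, hpi, ha])
      · rw [← h6, inv_mul_cancel_right, ih]
  rw [h7 x, h7 y]

end liou

/-- a model of the wreath product of the integers with themselves -/
noncomputable def Wr : Subgroup Big := Subgroup.closure {Big.a, Big.t}

def Wr.a : Wr := ⟨Big.a, Subgroup.subset_closure (by simp)⟩
def Wr.t : Wr := ⟨Big.t, Subgroup.subset_closure (by simp)⟩

lemma Wr.gen : Subgroup.closure {Wr.a, Wr.t} = ⊤ := by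
  have := Subgroup.closure_closure_coe_preimage (k := ({Big.a, Big.t} : Set Big))
  rw [eq_top_iff]
  refine this.symm.le.trans (Subgroup.closure_mono ?_)
  rintro ⟨x, hx⟩ (rfl | rfl)
  · left; rfl
  · right; rfl

instance : Countable Wr := by
  have : Function.Surjective (FreeGroup.lift (![Wr.a, Wr.t] : Fin 2 → Wr)) := by
    rw [← MonoidHom.range_eq_top, FreeGroup.range_lift_eq_closure, ← Wr.gen]
    congr 1
    simp [Set.pair_comm]
  exact this.countable

lemma Big.t_zpow (i : ℤ) : Big.t ^ i = ⟨fun _ => 0, i⟩ := by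
  induction i with
  | zero => rfl
  | succ n ih => rw [zpow_add_one, ih]; ext l <;> simp [Big.t]
  | pred n ih => rw [zpow_sub_one, ih]; ext l <;> simp [Big.t, sub_eq_add_neg]

lemma Wr.comm (x : Wr) : Wr.t ^ x.1.k * Wr.a * (Wr.t ^ x.1.k)⁻¹ * x = x * Wr.a := by
  apply Subtype.ext
  simp only [Subgroup.coe_mul, Subgroup.coe_inv, Subgroup.coe_zpow, Wr.t, Wr.a, Big.t_zpow]
  ext l
  · simp [Big.a, add_comm]
  · simp [Big.a]

theorem Wr.liouville {w : Wr → ℝ} (hw0 : ∀ h, 0 ≤ w h) (hw1 : HasSum w 1)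
    (hws : ∀ h, w h⁻¹ = w h) (hpw : ∀ h, w h ≠ 0 → |h.1.k| ≤ 1) (hwa : 0 < w Wr.a)
    (hwt : 0 < w Wr.t) (f : Wr → ℝ) (M : ℝ) (hf : ∀ x, |f x| ≤ M)
    (hh : ∀ x, HasSum (fun h => w h * f (x * h)) (f x)) (x y : Wr) : f x = f y :=
  AR.liouville hw0 hw1 hws (fun x => x.1.k) (fun _ _ => rfl) hpw Wr.a Wr.t rfl rfl hwa hwt
    Wr.gen Wr.comm f M hf hh x y

end Pool.Agent.H45.AR
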