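import Pool.Agent.H45.ARLiou

set_option autoImplicit false
set_option maxHeartbeats 400000

namespace Pool.Agent.H45.AR

open MeasureTheory Finset Filter Topology

theorem not_isAR_free : ¬ IsAR (FreeGroup (Fin 2)) := by
  refine not_isAR_of_two_gen (FreeGroup.lift (![Big.a, Big.t] : Fin 2 → Big)) (FreeGroup.of 0)
    (FreeGroup.of 1) (by simp) (by simp) ?_
  rw [← FreeGroup.closure_range_of]
  congr 1
  ext x
  simp [Fin.exists_fin_two, eq_comm]

theorem not_isAR_Wr : ¬ IsAR Wr :=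
  not_isAR_of_two_gen Wr.subtype Wr.a Wr.t rfl rfl Wr.gen

lemma closure_single {ι : Type} {G : Type} [Group G] (ψ : Multiplicative (ι →₀ ℤ) →* G)
    (hψ : Function.Surjective ψ) :
    Subgroup.closure (Set.range fun i => ψ (Multiplicative.ofAdd (Finsupp.single i 1))) = ⊤ := by
  rw [eq_top_iff]
  intro x _
  obtain ⟨y, rfl⟩ := hψ x
  obtain ⟨y, rfl⟩ := Multiplicative.ofAdd.surjective y
  induction y using Finsupp.induction_linear with
  | zero => simp
  | add f g hf hg =>
    rw [ofAdd_add, map_mul]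
    exact Subgroup.mul_mem _ (hf trivial) (hg trivial)
  | single i z =>
    have : Finsupp.single i z = z • Finsupp.single i (1 : ℤ) := by simp
    rw [this, ofAdd_zsmul, map_zpow]
    exact Subgroup.zpow_mem _ (Subgroup.subset_closure (Set.mem_range_self i)) _

theorem not_isAR_sum (ι : Type) (e : ℕ ≃ ι) : ¬ IsAR (Multiplicative (ι →₀ ℤ)) := by
  classical
  intro h
  let Φ : (ι →₀ ℤ) →+ (ℕ → ℤ) :=
    { toFun := fun x j => x (e j), map_zero' := rfl, map_add' := fun _ _ => rfl }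
  refine not_AR_lex (fun j => Multiplicative.ofAdd (Finsupp.single (e j) 1))
    Φ.toMultiplicative (fun j => ?_) (h _ (admissible_law p8 p8_ne _ ?_))
  · change Multiplicative.ofAdd (Φ _) = _
    congr 1
    funext i
    simp [Φ, Finsupp.single_apply, Pi.single_apply, eq_comm]
  · rw [← closure_single (MonoidHom.id _) Function.surjective_id,
      ← e.surjective.range_comp]
    rfl

theorem isAR_of_sign {G : Type} [Group G] [Countable G] (σ : G →* ℤˣ) (hσ : ∃ r, σ r ≠ 1)
    (hinv : ∀ r, σ r ≠ 1 → r * r = 1) : IsAR G := by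
  rintro μ ⟨-, hgen⟩ n -
  let _ : MeasurableSpace G := ⊤
  filter_upwards [ae_appears_all μ n] with ω hω
  refine tail_eq_top ω n _ hgen ?_ hω
  have h1 : ∃ g ∈ μ.support, σ g ≠ 1 := by
    by_contra hcon
    push Not at hcon
    have : Subgroup.closure μ.support ≤ σ.ker := (Subgroup.closure_le _).2 hcon
    obtain ⟨r, hr⟩ := hσ
    exact hr (this (hgen ▸ Subgroup.mem_top r))
  obtain ⟨g, hg, hg1⟩ := h1
  obtain ⟨k, hk, rfl⟩ := hω g hg
  have h2 : ∃ r ∈ tailSemigroup ω n, σ r ≠ 1 := by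
    by_cases e : σ (walk ω k) = 1
    · exact ⟨_, walk_mem ω (hk.trans (Nat.le_succ k)), by rwa [walk_succ, map_mul, e, one_mul]⟩
    · exact ⟨_, walk_mem ω hk, e⟩
  obtain ⟨r, hr, hr1⟩ := h2
  intro j hj
  by_cases e : σ (walk ω j) = 1
  · have h3 := hinv (r * walk ω j) (by rwa [map_mul, e, mul_one])
    have : (walk ω j)⁻¹ = r * walk ω j * r := by
      rw [inv_eq_iff_mul_eq_one, ← mul_left_inj (walk ω j), one_mul, mul_assoc, mul_assoc (_ * _),
        h3, mul_one]
    rw [this]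
    exact Subsemigroup.mul_mem _ (Subsemigroup.mul_mem _ hr (walk_mem ω hj)) hr
  · rw [inv_eq_of_mul_eq_one_right (hinv _ e)]
    exact walk_mem ω hj

/-- generalized dihedral group of the free abelian group of countable rank -/
@[ext] structure Dih where
  v : ℕ →₀ ℤ
  s : ℤˣ

noncomputable instance : Mul Dih := ⟨fun x y => ⟨x.v + x.s • y.v, x.s * y.s⟩⟩
noncomputable instance : One Dih := ⟨⟨0, 1⟩⟩
noncomputable instance : Inv Dih := ⟨fun x => ⟨-(x.s⁻¹ • x.v), x.s⁻¹⟩⟩

@[simp] lemma Dih.mul_v (x y : Dih) : (x * y).v = x.v + x.s • y.v := rfl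
@[simp] lemma Dih.mul_s (x y : Dih) : (x * y).s = x.s * y.s := rfl
@[simp] lemma Dih.one_v : (1 : Dih).v = 0 := rfl
@[simp] lemma Dih.one_s : (1 : Dih).s = 1 := rfl
@[simp] lemma Dih.inv_v (x : Dih) : (x⁻¹).v = -(x.s⁻¹ • x.v) := rfl
@[simp] lemma Dih.inv_s (x : Dih) : (x⁻¹).s = x.s⁻¹ := rfl

noncomputable instance : Group Dih := Group.ofLeftAxioms
  (fun x y z => by
    refine Dih.ext ?_ ?_
    · simp only [Dih.mul_v, Dih.mul_s, smul_add, mul_smul, add_assoc]
    · simp [mul_assoc])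
  (fun x => by refine Dih.ext ?_ ?_ <;> simp)
  (fun x => by refine Dih.ext ?_ ?_ <;> simp)

instance : Countable Dih :=
  (show Function.Injective (fun x : Dih => (x.v, x.s)) from fun x y h => by
    simp only [Prod.mk.injEq] at h
    exact Dih.ext h.1 h.2).countable

noncomputable def Dih.σ : Dih →* ℤˣ where
  toFun x := x.s
  map_one' := rfl
  map_mul' _ _ := rfl

theorem isAR_Dih : IsAR Dih := by
  refine isAR_of_sign Dih.σ ⟨⟨0, -1⟩, by simp [Dih.σ]⟩ fun r hr => ?_
  have : r.s = -1 := (Int.units_eq_one_or r.s).resolve_left hr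
  refine Dih.ext ?_ ?_ <;> simp [this]

theorem not_isAR_ker : ¬ IsAR Dih.σ.ker := by
  classical
  intro h
  let ψ : Multiplicative (ℕ →₀ ℤ) →* Dih.σ.ker :=
    { toFun := fun x => ⟨⟨x.toAdd, 1⟩, rfl⟩
      map_one' := rfl
      map_mul' := fun x y => Subtype.ext (Dih.ext (by simp) (by simp)) }
  have hψ : Function.Surjective ψ := fun x =>
    ⟨Multiplicative.ofAdd x.1.v, Subtype.ext (Dih.ext rfl (x.2 : x.1.s = 1).symm)⟩
  let Φ : Dih.σ.ker →* Multiplicative (ℕ → ℤ) :=
    { toFun := fun x => Multiplicative.ofAdd fun j => x.1.v j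
      map_one' := rfl
      map_mul' := fun x y => by
        rw [← ofAdd_add]
        congr 1
        funext j
        have hx : x.1.s = 1 := x.2
        simp [hx] }
  refine not_AR_lex (fun j => ψ (Multiplicative.ofAdd (Finsupp.single j 1))) Φ (fun j => ?_)
    (h _ (admissible_law p8 p8_ne _ (closure_single ψ hψ)))
  change Multiplicative.ofAdd _ = _
  congr 1
  funext i
  simp [ψ, Finsupp.single_apply, Pi.single_apply, eq_comm]

open Classical in
theorem Wr_srw : ∃ S : Finset Wr, (1 : Wr) ∉ S ∧ (∀ s ∈ S, s⁻¹ ∈ S) ∧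
    Subgroup.closure (S : Set Wr) = ⊤ ∧
    ∀ f : Wr → ℝ, (∃ M, ∀ g, |f g| ≤ M) → (∀ g, f g = (∑ s ∈ S, f (g * s)) / S.card) →
      ∀ g h, f g = f h := by
  have ha : Wr.a ≠ 1 := fun h => by
    have := congrArg (fun x : Wr => x.1.b 1) h
    simp [Wr.a, Big.a] at this
  have ht : Wr.t ≠ 1 := fun h => by
    have := congrArg (fun x : Wr => x.1.k) h
    simp [Wr.t, Big.t] at this
  set S : Finset Wr := {Wr.a, Wr.a⁻¹, Wr.t, Wr.t⁻¹} with hS
  have hsym : ∀ s, s⁻¹ ∈ S ↔ s ∈ S := by
    intro s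
    simp only [hS, mem_insert, mem_singleton, inv_eq_iff_eq_inv, inv_inv]
    tauto
  have hc : (0 : ℝ) < S.card := by
    exact_mod_cast card_pos.2 ⟨Wr.a, by simp [hS]⟩
  refine ⟨S, ?_, fun s hs => (hsym s).2 hs, ?_, ?_⟩
  · simp [hS, ha.symm, ht.symm, ha, ht]
  · rw [eq_top_iff, ← Wr.gen]
    refine Subgroup.closure_mono ?_
    rintro _ (rfl | rfl) <;> simp [hS]
  · rintro f ⟨M, hM⟩ hf
    refine Wr.liouville (w := fun h => if h ∈ S then (S.card : ℝ)⁻¹ else 0)
      (fun h => by split_ifs; exacts [(inv_pos.2 hc).le, le_rfl]) ?_ (fun h => if_congr (hsym h) rfl rfl) ?_ (by simp [hS])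
      (by simp [hS]) f M hM fun x => ?_
    · have := hasSum_sum_of_ne_finset_zero (L := .unconditional _) (s := S)
        (f := fun h => if h ∈ S then (S.card : ℝ)⁻¹ else 0) (fun b hb => if_neg hb)
      rwa [sum_congr rfl (fun b hb => if_pos hb), sum_const, nsmul_eq_mul,
        mul_inv_cancel₀ hc.ne'] at this
    · intro h hh
      have : h ∈ S := by by_contra e; exact hh (if_neg e)
      simp only [hS, mem_insert, mem_singleton] at this
      rcases this with rfl | rfl | rfl | rfl <;> simp [Wr.a, Wr.t, Big.a, Big.t]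
    · have := hasSum_sum_of_ne_finset_zero (L := .unconditional _) (s := S)
        (f := fun h => (if h ∈ S then (S.card : ℝ)⁻¹ else 0) * f (x * h))
        (fun b hb => by rw [if_neg hb, zero_mul])
      rwa [sum_congr rfl (fun b hb => by rw [if_pos hb]), ← mul_sum, ← div_eq_inv_mul,
        ← hf x] at this

theorem Wr_pair : ∃ μ : PMF Wr, Admissible μ ∧
    (∀ f : Wr → ℝ, (∃ M, ∀ g, |f g| ≤ M) → (∀ g, f g = ∑' h, (μ h).toReal * f (g * h)) →
      ∀ g h, f g = f h) ∧ ¬ IsARPair μ := by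
  obtain ⟨g, h0, h1, h2⟩ := exists_steps Wr.subtype Wr.a Wr.t rfl rfl
  have hadm : Admissible ((law p8).map (st g)) := by
    refine admissible_law p8 p8_ne g ?_
    rw [eq_top_iff, ← Wr.gen]
    refine Subgroup.closure_mono ?_
    rintro _ (rfl | rfl)
    · exact ⟨1, h1⟩
    · exact ⟨0, h0⟩
  refine ⟨_, hadm, ?_, not_AR_aff Wr.subtype g (by rw [h0]; rfl) (by rw [h1]; rfl) h2⟩
  set μ := (law p8).map (st g) with hμ
  have hpos : ∀ j, 0 < (μ (g j)).toReal := fun j => by
    refine ENNReal.toReal_pos ?_ (μ.apply_ne_top _)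
    rw [← PMF.mem_support_iff, hμ, PMF.support_map]
    exact ⟨(j, true), by simp [law_apply, p8_ne j], rfl⟩
  have hw1 : HasSum (fun h => (μ h).toReal) 1 := by
    have := ENNReal.hasSum_toReal μ.tsum_coe_ne_top
    rwa [← ENNReal.tsum_toReal_eq μ.apply_ne_top, μ.tsum_coe, ENNReal.toReal_one] at this
  rintro f ⟨M, hM⟩ hf
  refine Wr.liouville (w := fun h => (μ h).toReal) (fun h => by positivity) hw1
    (fun h => by rw [hadm.1]) ?_ (h1 ▸ hpos 1) (h0 ▸ hpos 0) f M hM fun x => ?_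
  · intro h hh
    have : h ∈ μ.support := fun e => hh (by rw [e]; rfl)
    rw [hμ, PMF.support_map] at this
    obtain ⟨⟨j, b⟩, -, rfl⟩ := this
    have : |(g j).1.k| ≤ 1 := by
      rcases (show j = 0 ∨ j = 1 ∨ 2 ≤ j by omega) with rfl | rfl | e
      · simp [h0, Wr.t, Big.t]
      · simp [h1, Wr.a, Big.a]
      · have := h2 j e
        simp only [Subgroup.subtype_apply] at this
        simp [this]
    cases b <;> simpa [st] using this
  · rw [hf x]
    refine (Summable.of_norm_bounded (hw1.summable.mul_right M) fun h => ?_).hasSum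
    rw [norm_mul, Real.norm_of_nonneg ENNReal.toReal_nonneg]
    exact mul_le_mul_of_nonneg_left (hM _) ENNReal.toReal_nonneg

end Pool.Agent.H45.AR
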