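import Pool.Agent.H45.ARProb

set_option autoImplicit false
set_option maxHeartbeats 400000

namespace Pool.Agent.H45.AR

open MeasureTheory Finset Filter Topology Polynomial

/-- lexicographic criterion -/
theorem not_AR_lex {G : Type} [Group G] (g : ℕ → G) (Φ : G →* Multiplicative (ℕ → ℤ))
    (hΦ : ∀ j, Φ (g j) = Multiplicative.ofAdd (Pi.single j 1)) :
    ¬ IsARPair ((law p8).map (st g)) := by
  intro h
  obtain ⟨ξ, htop, hgood⟩ := exists_good_walk g h
  let sg : Bool → ℤ := fun b => if b then 1 else -1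
  let P : Subsemigroup G :=
    { carrier := {x | ∃ j, 0 < sg (firstSign ξ j) * (Φ x).toAdd j ∧ ∀ i, j < i → (Φ x).toAdd i = 0}
      mul_mem' := by
        rintro x y ⟨j, h1, h2⟩ ⟨k, h3, h4⟩
        refine ⟨max j k, ?_, fun i hi => ?_⟩
        · rw [map_mul, toAdd_mul, Pi.add_apply, mul_add]
          rcases lt_trichotomy j k with e | rfl | e
          · rw [max_eq_right e.le, h2 k e]; simpa using h3
          · rw [max_self]; exact add_pos h1 h3
          · rw [max_eq_left e.le, h4 j e]; simpa using h1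
        · rw [map_mul, toAdd_mul, Pi.add_apply, h2 i (lt_of_le_of_lt (le_max_left _ _) hi),
            h4 i (lt_of_le_of_lt (le_max_right _ _) hi), add_zero] }
  have hw : ∀ n i, (Φ (walk (fun k => st g (ξ k)) n)).toAdd i =
      ∑ m ∈ range n, if (ξ m).1 = i then sg (ξ m).2 else 0 := by
    intro n i
    induction n with
    | zero => simp
    | succ n ih =>
      rw [walk_succ, map_mul, toAdd_mul, Pi.add_apply, ih, sum_range_succ]
      congr 1
      rcases e : (ξ n).2 <;> simp [st, e, hΦ, sg, Pi.single_apply, eq_comm, apply_ite]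
  have hle := tail_le (fun k => st g (ξ k)) 1 P fun n hn => by
    obtain ⟨m, hm, h1, -, -, h2⟩ := hgood n hn
    refine ⟨(ξ m).1, ?_, fun i hi => ?_⟩
    · rw [hw, sum_eq_single m, h2, if_pos rfl]
      · cases (ξ m).2 <;> simp [sg]
      · intro i hi him
        rw [if_neg (h1 i (mem_range.1 hi) him).ne]
      · intro hh; exact absurd (mem_range.2 hm) hh
    · rw [hw]
      refine sum_eq_zero fun k hk => if_neg ?_
      by_cases e : k = m
      · rw [e]; exact hi.ne
      · exact ((h1 k (mem_range.1 hk) e).trans hi).ne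
  rw [htop] at hle
  obtain ⟨j, h1, -⟩ := hle (Subsemigroup.mem_top (1 : G))
  simp at h1

/-- families of affine maps `x ↦ l ^ k * x + b l` -/
@[ext] structure Big where
  b : ℝˣ → ℝ
  k : ℤ

noncomputable instance : Mul Big := ⟨fun x y => ⟨fun l => x.b l + (l : ℝ) ^ x.k * y.b l, x.k + y.k⟩⟩
instance : One Big := ⟨⟨0, 0⟩⟩
noncomputable instance : Inv Big := ⟨fun x => ⟨fun l => -((l : ℝ) ^ (-x.k) * x.b l), -x.k⟩⟩

@[simp] lemma Big.mul_b (x y : Big) (l : ℝˣ) :
    (x * y).b l = x.b l + (l : ℝ) ^ x.k * y.b l := rfl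
@[simp] lemma Big.mul_k (x y : Big) : (x * y).k = x.k + y.k := rfl
@[simp] lemma Big.one_b (l : ℝˣ) : (1 : Big).b l = 0 := rfl
@[simp] lemma Big.one_k : (1 : Big).k = 0 := rfl
@[simp] lemma Big.inv_b (x : Big) (l : ℝˣ) : (x⁻¹).b l = -((l : ℝ) ^ (-x.k) * x.b l) := rfl
@[simp] lemma Big.inv_k (x : Big) : (x⁻¹).k = -x.k := rfl

noncomputable instance : Group Big := Group.ofLeftAxioms
  (fun x y z => by
    ext l
    · simp only [Big.mul_b, Big.mul_k, zpow_add₀ l.ne_zero]; ring
    · simp [add_assoc])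
  (fun x => by ext l <;> simp)
  (fun x => by ext l <;> simp)

def Big.a : Big := ⟨fun _ => 1, 0⟩
def Big.t : Big := ⟨fun _ => 0, 1⟩

lemma exists_poly {G : Type} [Group G] (Φ : G →* Big) (a t : G) (ha : Φ a = Big.a)
    (ht : Φ t = Big.t) (p : ℤ[X]) :
    ∃ g : G, Φ g = ⟨fun l => aeval (l : ℝ) p, 0⟩ := by
  have hz : ∀ z : ℤ, Φ (a ^ z) = ⟨fun _ => z, 0⟩ := by
    intro z
    induction z with
    | zero => rw [zpow_zero, map_one]; ext l <;> simp
    | succ n ih => rw [zpow_add_one, map_mul, ih, ha]; ext l <;> simp [Big.a]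
    | pred n ih => rw [zpow_sub_one, map_mul, ih, map_inv, ha]; ext l <;> simp [Big.a, sub_eq_add_neg]
  induction p using Polynomial.induction_on with
  | C z => exact ⟨a ^ z, by rw [hz]; ext l <;> simp⟩
  | add p q hp hq =>
    obtain ⟨x, hx⟩ := hp
    obtain ⟨y, hy⟩ := hq
    exact ⟨x * y, by rw [map_mul, hx, hy]; ext l <;> simp⟩
  | monomial n z ih =>
    obtain ⟨x, hx⟩ := ih
    refine ⟨t * x * t⁻¹, ?_⟩
    rw [map_mul, map_mul, map_inv, hx, ht]
    ext l
    · simp [Big.t]; ring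
    · simp [Big.t]

noncomputable def cheb : ℕ → ℤ[X]
  | 0 => X
  | j + 1 => cheb j ^ 2 - 6

lemma aeval_cheb (x : ℝ) (j : ℕ) : aeval x (cheb j) = (fun y : ℝ => y ^ 2 - 6)^[j] x := by
  induction j with
  | zero => simp [cheb]
  | succ j ih =>
    rw [cheb, Function.iterate_succ_apply', ← ih, map_sub, map_pow]
    congr 1
    exact map_ofNat _ 6

lemma exists_signs (N : ℕ) : ∀ s : ℕ → Bool, ∃ x : ℝ, ∀ j ≤ N,
    1 ≤ (if s j then 1 else -1) * (fun y : ℝ => y ^ 2 - 6)^[j] x ∧
    (if s j then 1 else -1) * (fun y : ℝ => y ^ 2 - 6)^[j] x ≤ 3 := by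
  induction N with
  | zero =>
    intro s
    refine ⟨if s 0 then 1 else -1, fun j hj => ?_⟩
    obtain rfl : j = 0 := by omega
    cases s 0 <;> simp
  | succ N ih =>
    intro s
    obtain ⟨y, hy⟩ := ih fun j => s (j + 1)
    have h0 := hy 0 (Nat.zero_le _)
    simp only [Function.iterate_zero, id] at h0
    have hy3 : -3 ≤ y ∧ y ≤ 3 := by
      split_ifs at h0 <;> constructor <;> linarith [h0.1, h0.2]
    refine ⟨(if s 0 then 1 else -1) * √(y + 6), fun j hj => ?_⟩
    cases j with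
    | zero =>
      have h1 : 1 ≤ √(y + 6) := Real.one_le_sqrt.2 (by linarith)
      have h2 : √(y + 6) ≤ 3 := Real.sqrt_le_iff.2 ⟨by norm_num, by linarith⟩
      cases s 0 <;> simp [h1, h2]
    | succ j =>
      have : ((if s 0 then 1 else -1) * √(y + 6)) ^ 2 - 6 = y := by
        have := Real.sq_sqrt (show 0 ≤ y + 6 by linarith)
        cases s 0 <;> simp [this]
      rw [Function.iterate_succ_apply]
      simp only [this]
      exact hy j (by omega)

noncomputable def wt : ℕ → ℕ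
  | 0 => 1
  | j + 1 => cap (j + 1) * 9 ^ cap (j + 1) * 3 * wt j + wt j

lemma wt_mono : Monotone wt := monotone_nat_of_le_succ fun j => by simp [wt]

lemma wt_pos (j : ℕ) : 1 ≤ wt j := wt_mono (Nat.zero_le j)

/-- affine criterion -/
theorem not_AR_aff {G : Type} [Group G] (Φ : G →* Big) (g : ℕ → G) (h0 : Φ (g 0) = Big.t)
    (h1 : Φ (g 1) = Big.a)
    (h2 : ∀ j, 2 ≤ j → Φ (g j) = ⟨fun l => wt j * aeval (l : ℝ) (cheb j), 0⟩) :
    ¬ IsARPair ((law p8).map (st g)) := by
  intro h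
  obtain ⟨ξ, htop, hgood⟩ := exists_good_walk g h
  let s : ℕ → Bool := fun j => if j = 0 then true else firstSign ξ j
  choose x hx using fun N => exists_signs N s
  have hx1 : ∀ N, 1 ≤ x N ∧ x N ≤ 3 := fun N => by simpa [s] using hx N 0 (Nat.zero_le _)
  let l : ℕ → ℝˣ := fun N => Units.mk0 (x N) (by have := (hx1 N).1; positivity)
  have hl : ∀ N, (l N : ℝ) = x N := fun N => rfl
  let P : Subsemigroup G :=
    { carrier := {y | ∀ᶠ N in atTop, 0 < (Φ y).b (l N)}
      mul_mem' := by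
        intro y z hy hz
        filter_upwards [hy, hz] with N h3 h4
        rw [map_mul, Big.mul_b, hl]
        have := (hx1 N).1
        positivity }
  set ω := fun k => st g (ξ k) with hω
  have hk1 : ∀ m, |(Φ (ω m)).k| ≤ 1 := by
    intro m
    have : |(Φ (g (ξ m).1)).k| ≤ 1 := by
      rcases (show (ξ m).1 = 0 ∨ (ξ m).1 = 1 ∨ 2 ≤ (ξ m).1 by omega) with e | e | e
      · simp [e, h0, Big.t]
      · simp [e, h1, Big.a]
      · simp [h2 _ e]
    simp only [hω, st]
    split_ifs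
    · exact this
    · rwa [map_inv, Big.inv_k, abs_neg]
  have hk : ∀ n : ℕ, |(Φ (walk ω n)).k| ≤ n := by
    intro n
    induction n with
    | zero => simp
    | succ n ih =>
      rw [walk_succ, map_mul, Big.mul_k]
      have := abs_add_le (Φ (walk ω n)).k (Φ (ω n)).k
      have := hk1 n
      push_cast; linarith
  have hb : ∀ n N, (Φ (walk ω n)).b (l N) =
      ∑ m ∈ range n, x N ^ (Φ (walk ω m)).k * (Φ (ω m)).b (l N) := by
    intro n N
    induction n with
    | zero => simp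
    | succ n ih => rw [walk_succ, map_mul, Big.mul_b, ih, sum_range_succ, hl]
  have hsm : ∀ m N, (ξ m).1 ≤ N → |(Φ (ω m)).b (l N)| ≤ 3 * wt (ξ m).1 := by
    intro m N hN
    have hw : (1 : ℝ) ≤ wt (ξ m).1 := by exact_mod_cast wt_pos _
    rcases (show (ξ m).1 = 0 ∨ (ξ m).1 = 1 ∨ 2 ≤ (ξ m).1 by omega) with e | e | e
    · simp only [hω, st]; split_ifs <;> simp [e, h0, Big.t]
    · simp only [hω, st]; split_ifs <;> simp [e, h1, Big.a] <;> rw [e] at hw <;> linarith
    · have h5 := hx N _ hN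
      rw [← aeval_cheb] at h5
      have h6 : |aeval (x N) (cheb (ξ m).1)| ≤ 3 := by
        rw [abs_le]; split_ifs at h5 <;> constructor <;> linarith [h5.1, h5.2]
      have h7 : |(wt (ξ m).1 : ℝ) * aeval (x N) (cheb (ξ m).1)| ≤ 3 * wt (ξ m).1 := by
        rw [abs_mul, abs_of_nonneg (by positivity), mul_comm]
        gcongr
      simp only [hω, st]; split_ifs <;> simpa [h2 _ e, hl] using h7
  have hle := tail_le ω 1 P fun n hn => by
    obtain ⟨m, hm, h3, h4, h5, h6⟩ := hgood n hn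
    filter_upwards [eventually_ge_atTop (ξ m).1] with N hN
    obtain ⟨j, hj⟩ : ∃ j, (ξ m).1 = j + 1 := ⟨(ξ m).1 - 1, by omega⟩
    have hpow : ∀ i < n, ((3 : ℝ) ^ n)⁻¹ ≤ x N ^ (Φ (walk ω i)).k ∧
        x N ^ (Φ (walk ω i)).k ≤ 3 ^ n := by
      intro i hi
      have h7 := abs_le.1 (hk i)
      have h8 : x N ^ n ≤ 3 ^ n := pow_le_pow_left₀ (by linarith [(hx1 N).1]) (hx1 N).2 n
      constructor
      · calc ((3 : ℝ) ^ n)⁻¹ ≤ (x N ^ n)⁻¹ := by
              have := (hx1 N).1
              gcongr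
          _ = x N ^ (-(n : ℤ)) := by simp
          _ ≤ _ := zpow_le_zpow_right₀ (hx1 N).1 (by omega)
      · calc x N ^ (Φ (walk ω i)).k ≤ x N ^ (n : ℤ) := zpow_le_zpow_right₀ (hx1 N).1 (by omega)
          _ ≤ _ := by simpa using h8
    have htopb : (wt (j + 1) : ℝ) ≤ (Φ (ω m)).b (l N) := by
      have h7 := (hx N _ hN).1
      rw [← aeval_cheb] at h7
      have h8 : s (ξ m).1 = (ξ m).2 := by simp only [s]; rw [if_neg (by omega), h6]
      rw [h8] at h7
      have hw : (0 : ℝ) ≤ wt (ξ m).1 := by positivity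
      rw [← hj]
      simp only [hω, st]
      split_ifs at h7 ⊢ <;> simp [h2 _ h4, hl] <;> nlinarith
    have hrest : ∀ i ∈ (range n).erase m, -(3 ^ n * (3 * wt j) : ℝ) ≤
        x N ^ (Φ (walk ω i)).k * (Φ (ω i)).b (l N) := by
      intro i hi
      have hi1 := mem_range.1 (mem_of_mem_erase hi)
      have h7 := h3 i hi1 (ne_of_mem_erase hi)
      have h8 := hsm i N (by omega)
      have h9 : (wt (ξ i).1 : ℝ) ≤ wt j := by exact_mod_cast wt_mono (by omega)
      have h10 := hpow i hi1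
      have h11 : 0 < x N ^ (Φ (walk ω i)).k := lt_of_lt_of_le (by positivity) h10.1
      refine neg_le_of_abs_le ?_
      rw [abs_mul, abs_of_pos h11]
      exact mul_le_mul h10.2 (by linarith) (abs_nonneg _) (by positivity)
    rw [hb, ← add_sum_erase _ _ (mem_range.2 hm)]
    have h7 := card_nsmul_le_sum _ _ _ hrest
    rw [card_erase_of_mem (mem_range.2 hm), card_range, nsmul_eq_mul] at h7
    have h8 : ((3 : ℝ) ^ n)⁻¹ * wt (j + 1) ≤ x N ^ (Φ (walk ω m)).k * (Φ (ω m)).b (l N) :=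
      mul_le_mul (hpow m hm).1 htopb (by positivity)
        (le_trans (by positivity) (hpow m hm).1)
    have h9 : ((n - 1 : ℕ) : ℝ) * (3 ^ n * (3 * wt j)) < ((3 : ℝ) ^ n)⁻¹ * wt (j + 1) := by
      rw [lt_inv_mul_iff₀ (by positivity)]
      have h10 : 3 ^ n * ((n - 1) * (3 ^ n * (3 * wt j))) < wt (j + 1) := by
        rw [hj] at h5
        have h11 : 9 ^ n ≤ 9 ^ cap (j + 1) := Nat.pow_le_pow_right (by norm_num) h5
        have h12 := wt_pos j
        calc 3 ^ n * ((n - 1) * (3 ^ n * (3 * wt j))) = (n - 1) * (3 ^ n * 3 ^ n) * 3 * wt j := by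
              ring
          _ = (n - 1) * 9 ^ n * 3 * wt j := by rw [← mul_pow]; norm_num
          _ ≤ cap (j + 1) * 9 ^ cap (j + 1) * 3 * wt j := by gcongr; omega
          _ < wt (j + 1) := by rw [wt]; omega
      exact_mod_cast h10
    linarith
  rw [htop] at hle
  obtain ⟨N, hN⟩ := Eventually.exists (hle (Subsemigroup.mem_top (1 : G)))
  simp at hN

/-- the step sequence in a group with a map onto the wreath product -/
lemma exists_steps {G : Type} [Group G] (Φ : G →* Big) (a t : G) (ha : Φ a = Big.a)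
    (ht : Φ t = Big.t) : ∃ g : ℕ → G, g 0 = t ∧ g 1 = a ∧
      ∀ j, 2 ≤ j → Φ (g j) = ⟨fun l => wt j * aeval (l : ℝ) (cheb j), 0⟩ := by
  choose f hf using exists_poly Φ a t ha ht
  refine ⟨fun j => if j = 0 then t else if j = 1 then a else f ((wt j : ℤ[X]) * cheb j),
    by simp, by simp, fun j hj => ?_⟩
  simp only
  rw [if_neg (by omega), if_neg (by omega), hf]
  simp

theorem not_isAR_of_two_gen {G : Type} [Group G] (Φ : G →* Big) (a t : G) (ha : Φ a = Big.a)
    (ht : Φ t = Big.t) (hgen : Subgroup.closure {a, t} = ⊤) : ¬ IsAR G := by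
  obtain ⟨g, h0, h1, h2⟩ := exists_steps Φ a t ha ht
  refine fun h => not_AR_aff Φ g (by rw [h0, ht]) (by rw [h1, ha]) h2
    (h _ (admissible_law p8 p8_ne g ?_))
  rw [eq_top_iff, ← hgen]
  refine Subgroup.closure_mono ?_
  rintro _ (rfl | rfl)
  · exact ⟨1, h1⟩
  · exact ⟨0, h0⟩

end Pool.Agent.H45.AR
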