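import Pool.Agent.H45.ARMain

set_option autoImplicit false
set_option maxHeartbeats 400000

namespace Pool.Agent.H45.AR

open MeasureTheory Finset Filter Topology
open scoped ENNReal

def nrm (d : ℕ) (y : ℕ →₀ ℤ) : ℤ := ∑ a ∈ range (d + 1), |y a|

lemma nrm_nonneg (d : ℕ) (y : ℕ →₀ ℤ) : 0 ≤ nrm d y := sum_nonneg fun _ _ => abs_nonneg _

lemma nrm_add (d : ℕ) (y z : ℕ →₀ ℤ) : nrm d (y + z) ≤ nrm d y + nrm d z := by
  rw [nrm, nrm, nrm, ← sum_add_distrib]
  exact sum_le_sum fun a _ => abs_add_le _ _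

lemma nrm_single (d a : ℕ) (z : ℤ) : nrm d (Finsupp.single a z) ≤ |z| := by
  simp only [nrm, Finsupp.single_apply, apply_ite abs, abs_zero, sum_ite_eq]
  split_ifs <;> simp

lemma nrm_add_single (d a : ℕ) (ha : a ≤ d) (y : ℕ →₀ ℤ) (z : ℤ) :
    nrm d (y + Finsupp.single a z) = nrm d y - |y a| + |y a + z| := by
  have hm : a ∈ range (d + 1) := mem_range.2 (by omega)
  rw [nrm, nrm, ← add_sum_erase _ _ hm, ← add_sum_erase _ _ hm,
    sum_congr rfl (g := fun b => |y b|) fun b hb => by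
      rw [Finsupp.add_apply, Finsupp.single_eq_of_ne (ne_of_mem_erase hb), add_zero]]
  simp only [Finsupp.add_apply, Finsupp.single_eq_same]
  ring

lemma descent (S : Set (ℕ →₀ ℤ)) (hS : ∀ x ∈ S, ∀ y ∈ S, x + y ∈ S) (d : ℕ)
    (hv : ∀ a ≤ d, ∀ σ : Bool, ∃ (K : ℕ) (η : ℕ →₀ ℤ), (∀ b, d < b → η b = 0) ∧ nrm d η < K ∧
      η + Finsupp.single a (if σ then (K : ℤ) else -K) ∈ S)
    (x : ℕ →₀ ℤ) (hx : x ∈ S) (hxd : ∀ b, d < b → x b = 0) : -x ∈ S := by
  choose! K η h1 h2 h3 using hv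
  set M : ℕ := ∑ a ∈ range (d + 1), (K a true + K a false) with hM
  have hK : ∀ a ≤ d, ∀ σ, K a σ ≤ M := by
    intro a ha σ
    have := single_le_sum (f := fun a => K a true + K a false) (fun _ _ => Nat.zero_le _)
      (mem_range.2 (show a < d + 1 by omega))
    cases σ <;> omega
  have hT : ∀ s t : ℕ →₀ ℤ, (s ∈ S ∨ s = 0) → (t ∈ S ∨ t = 0) → (s + t ∈ S ∨ s + t = 0) := by
    rintro s t (hs | rfl) (ht | rfl)
    · exact Or.inl (hS _ hs _ ht)
    · simp [hs]
    · simp [ht]
    · simp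
  have red : ∀ (m : ℕ) (y : ℕ →₀ ℤ), (∀ b, d < b → y b = 0) → nrm d y < m →
      ∃ z : ℕ →₀ ℤ, (z - y ∈ S ∨ z - y = 0) ∧ (∀ b, d < b → z b = 0) ∧ ∀ a, |z a| ≤ M := by
    intro m
    induction m with
    | zero => intro y _ h; have := nrm_nonneg d y; omega
    | succ m ih =>
      intro y hy hm
      by_cases h : ∀ a, |y a| ≤ M
      · exact ⟨y, Or.inr (sub_self y), hy, h⟩
      · push Not at h
        obtain ⟨a, ha⟩ := h
        have had : a ≤ d := by
          by_contra hc
          rw [hy a (by omega)] at ha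
          simp at ha
          omega
        set σ : Bool := decide (y a < 0) with hσ
        set v := η a σ + Finsupp.single a (if σ then (K a σ : ℤ) else -K a σ) with hv
        have hKM : (K a σ : ℤ) ≤ M := by exact_mod_cast hK a had σ
        obtain ⟨z, hz1, hz2⟩ := ih (y + v) (fun b hb => by
          rw [Finsupp.add_apply, hy b hb, hv, Finsupp.add_apply, h1 a had σ b hb,
            Finsupp.single_eq_of_ne (by omega)]
          simp) (by
          have e1 : y + v = (y + Finsupp.single a (if σ then (K a σ : ℤ) else -K a σ)) + η a σ := by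
            rw [hv]; abel
          have e2 := nrm_add d (y + Finsupp.single a (if σ then (K a σ : ℤ) else -K a σ)) (η a σ)
          rw [nrm_add_single d a had] at e2
          have e3 := h2 a had σ
          have e4 : |y a + (if σ then (K a σ : ℤ) else -K a σ)| = |y a| - K a σ := by
            by_cases hs : y a < 0
            · rw [abs_of_neg hs] at ha ⊢
              rw [if_pos (by simp [hσ, hs]), abs_of_nonpos (by omega)]; ring
            · rw [abs_of_nonneg (not_lt.1 hs)] at ha ⊢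
              rw [if_neg (by simp [hσ, hs]), abs_of_nonneg (by omega)]; ring
          rw [e1]
          push_cast at hm
          omega)
        refine ⟨z, ?_, hz2⟩
        have := hT _ _ hz1 (Or.inl (h3 a had σ))
        rwa [show z - (y + v) + v = z - y by abel] at this
  choose! r hr1 hr2 hr3 using fun y hy => red (nrm d y + 1).toNat y hy
    (by have := nrm_nonneg d y; omega)
  let y : ℕ → ℕ →₀ ℤ := fun i => (fun z => r (z + x))^[i] 0
  have hy : ∀ i, y (i + 1) = r (y i + x) := fun i => Function.iterate_succ_apply' _ _ _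
  have hys : ∀ i b, d < b → y i b = 0 := by
    intro i
    induction i with
    | zero => intro b _; rfl
    | succ i ih => rw [hy]; exact hr2 _ fun b hb => by simp [ih b hb, hxd b hb]
  have hys' : ∀ i b, d < b → (y i + x) b = 0 := fun i b hb => by simp [hys i b hb, hxd b hb]
  have hfin : Set.Finite {z : ℕ →₀ ℤ | (∀ b, d < b → z b = 0) ∧ ∀ a, |z a| ≤ M} := by
    refine Set.Finite.of_finite_image (f := fun z (a : Fin (d + 1)) => z a)
      ((Set.Finite.pi' fun _ : Fin (d + 1) => Set.finite_Icc (-(M : ℤ)) M).subset ?_) ?_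
    · rintro _ ⟨z, hz, rfl⟩ a
      exact abs_le.1 (hz.2 a)
    · intro z hz z' hz' e
      ext a
      by_cases ha : d < a
      · rw [hz.1 a ha, hz'.1 a ha]
      · exact congrFun e ⟨a, by omega⟩
  obtain ⟨i, j, hij, e⟩ := hfin.exists_lt_map_eq_of_forall_mem (f := fun i => y (i + 1))
    fun i => (⟨hys _, by rw [hy]; exact hr3 _ (hys' i)⟩ : _ ∧ _)
  have inv : ∀ m i, y (i + m + 1) - y i - x ∈ S ∨ y (i + m + 1) - y i - x = 0 := by
    intro m i
    induction m with
    | zero => rw [add_zero, hy, sub_sub]; exact hr1 _ (hys' i)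
    | succ m ih =>
      have := hT _ _ (hT _ _ (hr1 _ (hys' (i + m + 1))) (Or.inl hx)) ih
      rw [← add_assoc, hy (i + m + 1)]
      rwa [show r (y (i + m + 1) + x) - (y (i + m + 1) + x) + x + (y (i + m + 1) - y i - x) =
        r (y (i + m + 1) + x) - y i - x by abel] at this
  have := inv (j - i - 1) (i + 1)
  rw [show i + 1 + (j - i - 1) + 1 = j + 1 by omega, ← e, sub_self, zero_sub] at this
  rcases this with h | h
  · exact h
  · rw [h, ← neg_eq_zero.1 h]; exact hx

/-- the first step of level `l` exists and has sign `σ` -/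
def Fst (l : ℕ) (σ : Bool) : Set (ℕ → ℕ × Bool) :=
  {ξ | ∃ t, ξ t = (l, σ) ∧ ∀ s < t, (ξ s).1 ≠ l}

lemma measurableSet_Fst (l : ℕ) (σ : Bool) : MeasurableSet (Fst l σ) := by
  have : Fst l σ = ⋃ t, ((fun ξ : ℕ → ℕ × Bool => ξ t) ⁻¹' {(l, σ)} ∩
      ⋂ s ∈ Set.Iio t, (fun ξ : ℕ → ℕ × Bool => ξ s) ⁻¹' {x | x.1 ≠ l}) := by
    ext ξ; simp [Fst]
  rw [this]
  exact MeasurableSet.iUnion fun t => (measurable_pi_apply t .of_discrete).inter
    (MeasurableSet.biInter (Set.to_countable _) fun s _ => measurable_pi_apply s .of_discrete)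

def flipL (l : ℕ) (x : ℕ × Bool) : ℕ × Bool := (x.1, if x.1 = l then !x.2 else x.2)

lemma flipL_invol (l : ℕ) : Function.Involutive (flipL l) := by
  rintro ⟨j, b⟩
  by_cases h : j = l <;> simp [flipL, h]

lemma law_flipL (p : PMF ℕ) (l : ℕ) : (law p).map (flipL l) = law p := by
  ext x
  rw [PMF.map_apply, tsum_eq_single (flipL l x)]
  · rw [if_pos (flipL_invol l x).symm]; rfl
  · intro y hy
    rw [if_neg]
    rintro rfl
    exact hy (flipL_invol l y).symm

lemma measure_Fst (p : PMF ℕ) (σ : Bool) (F : Finset ℕ) :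
    iid (law p) (⋂ l ∈ F, Fst l σ) ≤ (1 / 2) ^ F.card := by
  induction F using Finset.induction_on with
  | empty => simp
  | insert l F hl ih =>
    have hm : MeasurableSet (⋂ l ∈ F, Fst l σ) :=
      F.measurableSet_biInter fun l _ => measurableSet_Fst l σ
    have hT : Measurable fun (ξ : ℕ → ℕ × Bool) k => flipL l (ξ k) :=
      measurable_pi_lambda _ fun k =>
        (Measurable.of_discrete (f := flipL l)).comp (measurable_pi_apply k)
    have e1 := iid_map (law p) (flipL l)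
    rw [law_flipL] at e1
    have e2 : iid (law p) (Fst l σ ∩ ⋂ l ∈ F, Fst l σ) =
        iid (law p) (Fst l (!σ) ∩ ⋂ l ∈ F, Fst l σ) := by
      conv_lhs => rw [iid, ← e1, Measure.map_apply hT ((measurableSet_Fst l σ).inter hm)]
      congr 1
      ext ξ
      simp only [Set.mem_preimage, Set.mem_inter_iff, Set.mem_iInter, Fst, Set.mem_ofPred_eq,
        flipL, Prod.ext_iff]
      refine and_congr (exists_congr fun t => and_congr_left' (and_congr_right fun h => ?_))
        (forall₂_congr fun j hj => exists_congr fun t =>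
          and_congr_left' (and_congr_right fun h => ?_))
      · rw [if_pos h]; cases (ξ t).2 <;> cases σ <;> simp
      · rw [if_neg (by rintro rfl; exact hl (h ▸ hj))]
    have e3 : Disjoint (Fst l σ ∩ ⋂ l ∈ F, Fst l σ) (Fst l (!σ) ∩ ⋂ l ∈ F, Fst l σ) := by
      rw [Set.disjoint_left]
      rintro ξ ⟨⟨t, h1, h2⟩, -⟩ ⟨⟨t', h3, h4⟩, -⟩
      rcases lt_trichotomy t t' with h | rfl | h
      · exact h4 t h (by rw [h1])
      · rw [h1] at h3; cases σ <;> simp at h3
      · exact h2 t' h (by rw [h3])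
    have e4 := measure_union (μ := iid (law p)) e3 ((measurableSet_Fst l (!σ)).inter hm)
    have e5 : iid (law p) ((Fst l σ ∩ ⋂ l ∈ F, Fst l σ) ∪ (Fst l (!σ) ∩ ⋂ l ∈ F, Fst l σ)) ≤
        (1 / 2) ^ F.card :=
      (measure_mono (Set.union_subset Set.inter_subset_right Set.inter_subset_right)).trans ih
    rw [e4, ← e2, ← two_mul] at e5
    rw [set_biInter_insert, card_insert_of_notMem hl, pow_succ', one_div,
      ← ENNReal.mul_le_iff_le_inv (by simp) (by simp), ← one_div]
    exact e5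

lemma ae_notMem {Ω : Type} [MeasurableSpace Ω] (μ : Measure Ω) (s : ℕ → Set Ω) (f : ℕ → ℝ)
    (h0 : ∀ i, 0 ≤ f i) (hf : Summable f) (h : ∀ i, μ (s i) ≤ ENNReal.ofReal (f i)) :
    ∀ᵐ x ∂μ, ∀ᶠ n in atTop, x ∉ s n := by
  refine ae_eventually_notMem (ne_top_of_le_ne_top ?_ (ENNReal.tsum_le_tsum h))
  rw [← ENNReal.ofReal_tsum_of_nonneg h0 hf]
  exact ENNReal.ofReal_ne_top

noncomputable def QS (l : ℕ) : ℝ := (1 / 2) ^ (l ^ 2)

lemma QS_anti : Antitone QS := fun a b h =>
  pow_le_pow_of_le_one (by norm_num) (by norm_num) (Nat.pow_le_pow_left h 2)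

lemma QS_zero : QS 0 = 1 := by simp [QS]

lemma QS_lim : Tendsto QS atTop (𝓝 0) :=
  (tendsto_pow_atTop_nhds_zero_of_lt_one (by norm_num) (by norm_num)).comp
    (tendsto_pow_atTop (by norm_num))

noncomputable def pS : PMF ℕ := tailP QS QS_anti QS_zero QS_lim

lemma QS_succ (l : ℕ) : QS (l + 1) = QS l * (1 / 2) ^ (2 * l + 1) := by
  rw [QS, QS, ← pow_add]; congr 1; ring

lemma QS_diff (l : ℕ) : QS l / 2 ≤ QS l - QS (l + 1) := by
  rw [QS_succ]
  have h1 : (1 / 2 : ℝ) ^ (2 * l + 1) ≤ (1 / 2) ^ 1 :=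
    pow_le_pow_of_le_one (by norm_num) (by norm_num) (by omega)
  have h2 : 0 < QS l := by unfold QS; positivity
  nlinarith

lemma pS_ne (l : ℕ) : pS l ≠ 0 := by
  rw [pS, tailP_apply, Ne, ENNReal.ofReal_eq_zero, not_le]
  have h2 : 0 < QS l := by unfold QS; positivity
  linarith [QS_diff l]

def NS (l : ℕ) : ℕ := 2 ^ (l ^ 2 + l)

lemma NS_QS (l : ℕ) : (NS l : ℝ) * QS l = 2 ^ l := by
  simp only [NS, QS]
  push_cast
  rw [pow_add, mul_right_comm, ← mul_pow]
  norm_num

lemma ae_A : ∀ᵐ ξ ∂iid (law pS), ∀ᶠ l in atTop, ∃ k < NS l, (ξ k).1 = l := by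
  have := ae_notMem (iid (law pS))
    (fun l => {ξ | ∀ k ∈ range (NS l), ξ k ∈ {x : ℕ × Bool | x.1 ∈ ({l}ᶜ : Set ℕ)}})
    (fun l => 2 * (1 / 2) ^ l) (fun _ => by positivity) (summable_geometric_two.mul_left 2)
    fun l => by
      have h2 : 0 < QS l := by unfold QS; positivity
      have h3 := QS_diff l
      have h4 : QS l - QS (l + 1) ≤ 1 := by
        have := QS_anti (Nat.zero_le l)
        have : 0 < QS (l + 1) := by unfold QS; positivity
        rw [QS_zero] at *
        linarith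
      rw [iid_forall, law_level, prob_compl_eq_one_sub .of_discrete,
        PMF.toMeasure_apply_singleton _ _ .of_discrete, pS, tailP_apply, ← ENNReal.ofReal_one,
        ← ENNReal.ofReal_sub _ (by linarith), ← ENNReal.ofReal_pow (by linarith), card_range]
      refine ENNReal.ofReal_le_ofReal ?_
      set q := QS l - QS (l + 1)
      have h5 : 1 + NS l * q ≤ (1 + q) ^ NS l := one_add_mul_le_pow (by linarith) _
      have h6 : (1 - q) ^ NS l * (1 + q) ^ NS l ≤ 1 := by
        rw [← mul_pow]; exact pow_le_one₀ (by nlinarith) (by nlinarith)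
      have h7 : 0 ≤ (1 - q) ^ NS l := pow_nonneg (by linarith) _
      have h8 : (2 : ℝ) ^ l / 2 ≤ NS l * q := by
        rw [← NS_QS, mul_div_assoc]; gcongr
      have h9 : (1 - q) ^ NS l * (2 ^ l / 2) ≤ 1 := by nlinarith
      rw [one_div, inv_pow, ← div_eq_mul_inv, le_div_iff₀ (by positivity)]
      linarith
  filter_upwards [this] with ξ h
  filter_upwards [h] with l hl
  simpa using hl

lemma ae_B : ∀ᵐ ξ ∂iid (law pS), ∀ᶠ l in atTop, ∀ k < NS l, (ξ k).1 ≤ l := by
  have := ae_notMem (iid (law pS))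
    (fun l => ⋃ k ∈ range (NS l), {ξ | ξ k ∈ {x : ℕ × Bool | x.1 ∈ Set.Ici (l + 1)}})
    (fun l => (1 / 2) ^ l) (fun _ => by positivity) summable_geometric_two
    fun l => by
      refine (measure_biUnion_finset_le _ _).trans ?_
      simp only [iid_eval, law_level, pS, tailP_Ici, sum_const, card_range, nsmul_eq_mul]
      rw [← ENNReal.ofReal_natCast, ← ENNReal.ofReal_mul (by positivity), QS_succ, ← mul_assoc,
        NS_QS]
      refine ENNReal.ofReal_le_ofReal ?_
      rw [show 2 * l + 1 = l + (l + 1) by ring, pow_add, ← mul_assoc, ← mul_pow]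
      norm_num
      exact pow_le_pow_of_le_one (by norm_num) (by norm_num) (by omega)
  filter_upwards [this] with ξ h
  filter_upwards [h] with l hl
  simpa using hl

def lev (d a i : ℕ) : ℕ := 2 * ((d + 1) * (d ^ 3 + i) + a) + 1

lemma ae_C : ∀ᵐ ξ ∂iid (law pS), ∀ᶠ d in atTop, ∀ a ≤ d, ∀ σ : Bool, ∃ i ≤ d,
    ξ ∉ Fst (lev d a i) σ := by
  have hs : Summable fun d : ℕ => ((d + 1 : ℕ) : ℝ) * (2 * (1 / 2) ^ (d + 1)) := by
    have := (summable_nat_add_iff 1).2
      ((summable_pow_mul_geometric_of_norm_lt_one (R := ℝ) 1 (r := 1 / 2)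
        (by norm_num)).mul_left 2)
    refine this.congr fun d => ?_
    ring
  have := ae_notMem (iid (law pS))
    (fun d => ⋃ a ∈ range (d + 1), ⋃ σ ∈ (univ : Finset Bool),
      ⋂ l ∈ (range (d + 1)).image (lev d a), Fst l σ)
    _ (fun _ => by positivity) hs
    fun d => by
      refine (measure_biUnion_finset_le _ _).trans ?_
      refine (sum_le_card_nsmul _ _ (2 * (1 / 2) ^ (d + 1)) fun a _ => ?_).trans (le_of_eq ?_)
      · refine (measure_biUnion_finset_le _ _).trans ?_
        refine (sum_le_card_nsmul _ _ ((1 / 2) ^ (d + 1)) fun σ _ => ?_).trans (by simp)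
        refine (measure_Fst pS σ _).trans (le_of_eq ?_)
        rw [card_image_of_injective _ fun i j h => ?_, card_range]
        simp only [lev] at h
        have : (d + 1) * (d ^ 3 + i) = (d + 1) * (d ^ 3 + j) := by omega
        have := Nat.eq_of_mul_eq_mul_left (Nat.succ_pos d) this
        omega
      · rw [card_range, nsmul_eq_mul, ENNReal.ofReal_mul (by positivity), ENNReal.ofReal_natCast,
          ENNReal.ofReal_mul (by positivity), ENNReal.ofReal_pow (by positivity),
          ENNReal.ofReal_div_of_pos (by norm_num)]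
        simp
  filter_upwards [this] with ξ h
  filter_upwards [h] with l hl
  simpa [Nat.lt_succ_iff] using hl

def KS : ℕ → ℕ
  | 0 => 1
  | l + 1 => NS (l + 1) * KS l + KS l

lemma KS_mono : Monotone KS := monotone_nat_of_le_succ fun j => by simp [KS]

lemma KS_pos (j : ℕ) : 1 ≤ KS j := KS_mono (Nat.zero_le j)

def coef (l : ℕ) : ℕ := if l % 2 = 0 then 1 else KS l

lemma coef_le (l : ℕ) : coef l ≤ KS l := by
  unfold coef; split_ifs; exacts [KS_pos l, le_rfl]

def crd (l : ℕ) : ℕ := (l / 2) % (Nat.sqrt (Nat.sqrt (l / 2)) + 1)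

lemma sqrt_lt_of (d a i : ℕ) (ha : a ≤ d) (hi : i ≤ d) (m : ℕ)
    (hm : m ≤ (d + 1) * (d ^ 3 + i) + a) : Nat.sqrt (Nat.sqrt m) < d + 1 := by
  rw [Nat.sqrt_lt', Nat.sqrt_lt']
  calc m ≤ (d + 1) * (d ^ 3 + d) + d := hm.trans (by gcongr)
    _ < ((d + 1) ^ 2) ^ 2 := by nlinarith [Nat.zero_le (d ^ 3), Nat.zero_le (d ^ 2)]

lemma crd_le (d a i : ℕ) (ha : a ≤ d) (hi : i ≤ d) (l : ℕ) (hl : l ≤ lev d a i) : crd l ≤ d := by
  have h1 := sqrt_lt_of d a i ha hi (l / 2) (by simp only [lev] at hl; omega)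
  have h2 := Nat.mod_lt (l / 2) (show 0 < Nat.sqrt (Nat.sqrt (l / 2)) + 1 by omega)
  unfold crd
  omega

lemma crd_eq (d a i : ℕ) (ha : a ≤ d) (hi : i ≤ d) (l : ℕ)
    (hl : l / 2 = (d + 1) * (d ^ 3 + i) + a) : crd l = a := by
  have h1 := sqrt_lt_of d a i ha hi _ le_rfl
  have h2 : d ≤ Nat.sqrt (Nat.sqrt ((d + 1) * (d ^ 3 + i) + a)) := by
    rw [Nat.le_sqrt', Nat.le_sqrt']
    nlinarith [Nat.zero_le (d ^ 3), Nat.zero_le (d * i)]
  rw [crd, hl, show Nat.sqrt (Nat.sqrt ((d + 1) * (d ^ 3 + i) + a)) = d by omega,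
    Nat.mul_add_mod, Nat.mod_eq_of_lt (by omega)]

noncomputable def gS (l : ℕ) : Multiplicative (ℕ →₀ ℤ) :=
  Multiplicative.ofAdd (Finsupp.single (crd l) (coef l))

lemma gS_gen : Subgroup.closure (Set.range gS) = ⊤ := by
  rw [eq_top_iff, ← closure_single (MonoidHom.id _) Function.surjective_id]
  refine Subgroup.closure_mono ?_
  rintro _ ⟨a, rfl⟩
  refine ⟨2 * ((a + 1) * (a ^ 3 + 0) + a), ?_⟩
  rw [gS, crd_eq a a 0 le_rfl (Nat.zero_le _) _ (by omega), coef, if_pos (by omega)]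
  rfl

lemma toAdd_st (x : ℕ × Bool) : (st gS x).toAdd =
    Finsupp.single (crd x.1) (if x.2 then (coef x.1 : ℤ) else -coef x.1) := by
  unfold st gS
  split_ifs <;> simp

lemma walk_bound (ξ : ℕ → ℕ × Bool) (d : ℕ) (K : ℕ) (t : ℕ)
    (h : ∀ s < t, crd (ξ s).1 ≤ d ∧ coef (ξ s).1 ≤ K) :
    (∀ b, d < b → (walk (fun k => st gS (ξ k)) t).toAdd b = 0) ∧
      nrm d (walk (fun k => st gS (ξ k)) t).toAdd ≤ t * K := by
  induction t with
  | zero => simp [nrm]
  | succ t ih =>
    obtain ⟨h1, h2⟩ := ih fun s hs => h s (by omega)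
    obtain ⟨h3, h4⟩ := h t (by omega)
    rw [walk_succ, toAdd_mul, toAdd_st]
    refine ⟨fun b hb => ?_, (nrm_add _ _ _).trans ?_⟩
    · rw [Finsupp.add_apply, h1 b hb, Finsupp.single_eq_of_ne (by omega), add_zero]
    · have h5 := nrm_single d (crd (ξ t).1) (if (ξ t).2 then (coef (ξ t).1 : ℤ) else -coef (ξ t).1)
      have h6 : |if (ξ t).2 then (coef (ξ t).1 : ℤ) else -coef (ξ t).1| ≤ K := by
        split_ifs <;> simpa using h4
      push_cast
      linarith

lemma ae_inv : ∀ᵐ ξ ∂iid (law pS), ∀ n k, n ≤ k →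
    (walk (fun k => st gS (ξ k)) k)⁻¹ ∈ tailSemigroup (fun k => st gS (ξ k)) n := by
  filter_upwards [ae_A, ae_B, ae_C] with ξ hA hB hC n k hnk
  obtain ⟨l0, hl0⟩ := eventually_atTop.1 (hA.and hB)
  obtain ⟨d, hd1, hd2, hd3⟩ : ∃ d, (∀ a ≤ d, ∀ σ : Bool, ∃ i ≤ d, ξ ∉ Fst (lev d a i) σ) ∧
      l0 ≤ d ∧ ∑ s ∈ range k, (ξ s).1 < d :=
    (hC.and ((eventually_ge_atTop l0).and (eventually_gt_atTop _))).exists
  have hlt : ∀ s < k, (ξ s).1 < d := fun s hs =>
    (single_le_sum (f := fun s => (ξ s).1) (fun _ _ => Nat.zero_le _) (mem_range.2 hs)).trans_lt hd3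
  set ω := fun k => st gS (ξ k) with hω
  refine descent {y | Multiplicative.ofAdd y ∈ tailSemigroup ω n}
    (fun x hx y hy => (tailSemigroup ω n).mul_mem (show Multiplicative.ofAdd x ∈ _ from hx)
      (show Multiplicative.ofAdd y ∈ _ from hy)) d (fun a ha σ => ?_) (walk ω k).toAdd
    (walk_mem ω hnk) (walk_bound ξ d (KS d) k fun s hs => ⟨?_, ?_⟩).1
  · obtain ⟨i, hi, hF⟩ := hd1 a ha (!σ)
    have hdl : d ≤ lev d a i := by
      have : d ≤ d ^ 3 := Nat.le_self_pow (by norm_num) d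
      simp only [lev]
      nlinarith [Nat.zero_le (d * (d ^ 3 + i))]
    obtain ⟨hA', hB'⟩ := hl0 _ (hd2.trans hdl)
    have hex : ∃ t, (ξ t).1 = lev d a i := hA'.imp fun _ h => h.2
    set t := Nat.find hex with ht
    have ht1 : (ξ t).1 = lev d a i := Nat.find_spec hex
    have ht2 : ∀ s < t, (ξ s).1 ≠ lev d a i := fun s hs => Nat.find_min hex hs
    have ht3 : t < NS (lev d a i) := by
      obtain ⟨k', h1, h2⟩ := hA'
      exact (Nat.find_min' hex h2).trans_lt h1
    have ht4 : (ξ t).2 = σ := by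
      by_contra hc
      exact hF ⟨t, Prod.ext ht1 (by cases σ <;> simpa using hc), ht2⟩
    have ht5 : k ≤ t := by
      by_contra hc
      have := hlt t (by omega)
      omega
    obtain ⟨j, hj⟩ : ∃ j, lev d a i = j + 1 := ⟨_, rfl⟩
    have hw := walk_bound ξ d (KS j) t fun s hs => by
      have h1 := hB' s (by omega)
      have h2 := ht2 s hs
      exact ⟨crd_le d a i ha hi _ h1, (coef_le _).trans (KS_mono (by omega))⟩
    refine ⟨KS (j + 1), (walk ω t).toAdd, hw.1, hw.2.trans_lt ?_, ?_⟩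
    · have := KS_pos j
      rw [hj] at ht3
      have : t * KS j < KS (j + 1) := by rw [KS]; nlinarith
      exact_mod_cast this
    · have := walk_mem ω (show n ≤ t + 1 by omega)
      rw [walk_succ] at this
      have e : (ω t).toAdd = Finsupp.single a (if σ then (KS (j + 1) : ℤ) else -KS (j + 1)) := by
        have hc : coef (lev d a i) = KS (j + 1) := by
          rw [coef, if_neg (by simp only [lev]; omega), hj]
        rw [hω, toAdd_st, ht1, ht4, crd_eq d a i ha hi _ (by simp only [lev]; omega), hc]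
      rw [← e]
      exact this
  · exact ((Nat.mod_le _ _).trans (Nat.div_le_self _ _)).trans (hlt s hs).le
  · exact (coef_le _).trans (KS_mono (hlt s hs).le)

lemma mem_tail_iff {G : Type} [Group G] (ω : ℕ → G) (n : ℕ) (x : G) :
    x ∈ tailSemigroup ω n ↔
      ∃ l : List ℕ, l ≠ [] ∧ (l.map fun k => walk ω (n + k)).prod = x := by
  constructor
  · intro hx
    induction hx using Subsemigroup.closure_induction with
    | mem x hx =>
      obtain ⟨k, rfl⟩ := hx
      exact ⟨[k], by simp, by simp⟩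
    | mul x y _ _ hx hy =>
      obtain ⟨l, h1, rfl⟩ := hx
      obtain ⟨l', h2, rfl⟩ := hy
      exact ⟨l ++ l', by simp [h1], by simp⟩
  · rintro ⟨l, hl, rfl⟩
    induction l with
    | nil => exact absurd rfl hl
    | cons k l ih =>
      by_cases h : l = []
      · subst h; simpa using walk_mem ω (Nat.le_add_right n k)
      · rw [List.map_cons, List.prod_cons]
        exact Subsemigroup.mul_mem _ (walk_mem ω (Nat.le_add_right n k)) (ih h)

lemma measurable_walk {G : Type} [Group G] [Countable G] [MeasurableSpace G]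
    [DiscreteMeasurableSpace G] (n : ℕ) : Measurable fun ω : ℕ → G => walk ω n := by
  induction n with
  | zero => exact measurable_const
  | succ n ih => simp only [walk_succ]; exact ih.mul (measurable_pi_apply n)

lemma measurableSet_top {G : Type} [Group G] [Countable G] [MeasurableSpace G]
    [DiscreteMeasurableSpace G] (n : ℕ) :
    MeasurableSet {ω : ℕ → G | tailSemigroup ω n = ⊤} := by
  have h1 : ∀ l : List ℕ, Measurable fun ω : ℕ → G => (l.map fun k => walk ω (n + k)).prod := by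
    intro l
    induction l with
    | nil => exact measurable_const
    | cons k l ih => simp only [List.map_cons, List.prod_cons]; exact (measurable_walk _).mul ih
  have : {ω : ℕ → G | tailSemigroup ω n = ⊤} = ⋂ x : G, ⋃ l : List ℕ, ⋃ _ : l ≠ [],
      (fun ω : ℕ → G => (l.map fun k => walk ω (n + k)).prod) ⁻¹' {x} := by
    ext ω
    simp only [Set.mem_ofPred_eq, Subsemigroup.eq_top_iff', mem_tail_iff, Set.mem_iInter,
      Set.mem_iUnion, Set.mem_preimage, Set.mem_singleton_iff, exists_prop]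
  rw [this]
  exact MeasurableSet.iInter fun x => MeasurableSet.iUnion fun l => MeasurableSet.iUnion fun _ =>
    h1 l .of_discrete

instance instCountableMult : Countable (Multiplicative (ℕ →₀ ℤ)) :=
  inferInstanceAs (Countable (ℕ →₀ ℤ))

theorem AR_pS [MeasurableSpace (Multiplicative (ℕ →₀ ℤ))]
    [DiscreteMeasurableSpace (Multiplicative (ℕ →₀ ℤ))] (n : ℕ) :
    ∀ᵐ ω ∂(Measure.infinitePi fun _ : ℕ => ((law pS).map (st gS)).toMeasure),
      tailSemigroup ω n = ⊤ := by
  have hT : Measurable fun (ξ : ℕ → ℕ × Bool) k => st gS (ξ k) :=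
    measurable_pi_lambda _ fun k =>
      (Measurable.of_discrete (f := st gS)).comp (measurable_pi_apply k)
  rw [← iid_map, ae_map_iff hT.aemeasurable (measurableSet_top n)]
  filter_upwards [ae_inv, ae_appears_all (law pS) n] with ξ h1 h2
  refine tail_eq_top _ n _ gS_gen (h1 n) ?_
  rintro _ ⟨j, rfl⟩
  obtain ⟨k, hk, e⟩ := h2 (j, true) (by simp [law_apply, pS_ne j])
  exact ⟨k, hk, by rw [e]; rfl⟩

theorem depends_on_measure : ∃ μ ν : PMF (Multiplicative (ℕ →₀ ℤ)), Admissible μ ∧ Admissible ν ∧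
    (letI : MeasurableSpace (Multiplicative (ℕ →₀ ℤ)) := ⊤
      ∀ n : ℕ, ∀ᵐ ω ∂(Measure.infinitePi fun _ : ℕ => μ.toMeasure), tailSemigroup ω n = ⊤) ∧
    ¬ IsARPair ν := by
  have h := not_isAR_sum ℕ (Equiv.refl ℕ)
  simp only [IsAR, not_forall] at h
  obtain ⟨ν, h1, h2⟩ := h
  let _ : MeasurableSpace (Multiplicative (ℕ →₀ ℤ)) := ⊤
  exact ⟨_, ν, admissible_law pS pS_ne gS gS_gen, h1, fun n => AR_pS n, h2⟩

end Pool.Agent.H45.AR
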