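import Pool.Agent.H45.ARDefs

set_option autoImplicit false
set_option maxHeartbeats 400000

namespace Pool.Agent.H45.AR

open MeasureTheory Finset Filter Topology
open scoped ENNReal

section walk
variable {G : Type} [Group G]

@[simp] lemma walk_zero (ω : ℕ → G) : walk ω 0 = 1 := rfl

lemma walk_succ (ω : ℕ → G) (n : ℕ) : walk ω (n + 1) = walk ω n * ω n := by
  simp [walk, List.range_succ]

lemma walk_mem (ω : ℕ → G) {n k : ℕ} (h : n ≤ k) : walk ω k ∈ tailSemigroup ω n :=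
  Subsemigroup.subset_closure ⟨k - n, by simp [Nat.add_sub_cancel' h]⟩

lemma tail_le (ω : ℕ → G) (n : ℕ) (P : Subsemigroup G) (h : ∀ k, n ≤ k → walk ω k ∈ P) :
    tailSemigroup ω n ≤ P := by
  refine Subsemigroup.closure_le.2 ?_
  rintro _ ⟨k, rfl⟩
  exact h _ (Nat.le_add_right _ _)

lemma tail_eq_top (ω : ℕ → G) (n : ℕ) (A : Set G) (hA : Subgroup.closure A = ⊤)
    (h1 : ∀ k, n ≤ k → (walk ω k)⁻¹ ∈ tailSemigroup ω n)
    (h2 : ∀ g ∈ A, ∃ k, n ≤ k ∧ ω k = g) : tailSemigroup ω n = ⊤ := by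
  have hinv : ∀ x ∈ tailSemigroup ω n, x⁻¹ ∈ tailSemigroup ω n := by
    intro x hx
    induction hx using Subsemigroup.closure_induction with
    | mem x hx =>
      obtain ⟨k, rfl⟩ := hx
      exact h1 _ (Nat.le_add_right _ _)
    | mul x y _ _ hx hy => rw [mul_inv_rev]; exact Subsemigroup.mul_mem _ hy hx
  let H : Subgroup G :=
    { carrier := tailSemigroup ω n
      mul_mem' := fun ha hb => Subsemigroup.mul_mem _ ha hb
      one_mem' := by
        have := Subsemigroup.mul_mem _ (walk_mem ω (le_refl n)) (h1 n le_rfl)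
        simpa using this
      inv_mem' := fun ha => hinv _ ha }
  have : Subgroup.closure A ≤ H := by
    refine (Subgroup.closure_le _).2 fun g hg => ?_
    obtain ⟨k, hk, rfl⟩ := h2 g hg
    have := Subsemigroup.mul_mem _ (h1 k hk) (walk_mem ω (hk.trans (Nat.le_succ k)))
    rw [walk_succ, inv_mul_cancel_left] at this
    exact this
  rw [hA] at this
  exact top_unique fun x _ => this (Subgroup.mem_top x)

end walk

section iid
variable {I : Type} [MeasurableSpace I] [DiscreteMeasurableSpace I]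

/-- product measure -/
noncomputable abbrev iid (p : PMF I) : Measure (ℕ → I) :=
  Measure.infinitePi fun _ : ℕ => p.toMeasure

lemma iid_forall (p : PMF I) (s : Finset ℕ) (A : Set I) :
    iid p {ω | ∀ k ∈ s, ω k ∈ A} = p.toMeasure A ^ s.card := by
  have : {ω : ℕ → I | ∀ k ∈ s, ω k ∈ A} = Set.pi s fun _ => A := by ext; simp
  rw [this, Measure.infinitePi_pi _ fun _ _ => .of_discrete, prod_const]

lemma iid_eval (p : PMF I) (k : ℕ) (A : Set I) : iid p {ω | ω k ∈ A} = p.toMeasure A := by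
  simpa using iid_forall p {k} A

lemma ae_appears (p : PMF I) (n : ℕ) (g : I) (hg : g ∈ p.support) :
    ∀ᵐ ω ∂iid p, ∃ k, n ≤ k ∧ ω k = g := by
  rw [ae_iff]
  have hlt : p.toMeasure {g}ᶜ < 1 := by
    rw [prob_compl_eq_one_sub .of_discrete, PMF.toMeasure_apply_singleton _ _ .of_discrete]
    exact ENNReal.sub_lt_self ENNReal.one_ne_top one_ne_zero hg
  refine le_antisymm (ge_of_tendsto' (ENNReal.tendsto_pow_atTop_nhds_zero_of_lt_one hlt)
    fun m => ?_) zero_le
  have := iid_forall p (Ico n (n + m)) {g}ᶜ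
  rw [Nat.card_Ico, Nat.add_sub_cancel_left] at this
  rw [← this]
  refine measure_mono fun ω hω k hk => ?_
  exact fun e => hω ⟨k, (mem_Ico.1 hk).1, e⟩

lemma ae_appears_all [Countable I] (p : PMF I) (n : ℕ) :
    ∀ᵐ ω ∂iid p, ∀ g ∈ p.support, ∃ k, n ≤ k ∧ ω k = g := by
  rw [ae_all_iff]
  intro g
  by_cases hg : g ∈ p.support
  · filter_upwards [ae_appears p n g hg] with ω h _ using h
  · exact Eventually.of_forall fun ω h => absurd h hg

lemma iid_map {J : Type} [MeasurableSpace J] (p : PMF I) (f : I → J) :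
    (iid p).map (fun ω k => f (ω k)) = Measure.infinitePi fun _ : ℕ => (p.map f).toMeasure := by
  rw [Measure.infinitePi_map_pi _ (f := fun _ => f) fun _ => .of_discrete]
  simp only [PMF.toMeasure_map _ _ (show Measurable f from .of_discrete)]

lemma exists_of_ae {Ω : Type} [MeasurableSpace Ω] (μ : Measure Ω) [IsProbabilityMeasure μ]
    (B : Set Ω) (hB : μ B < 1) (P : Ω → Prop) (hP : ∀ᵐ ω ∂μ, P ω) : ∃ ω, ω ∉ B ∧ P ω := by
  by_contra hcon
  push Not at hcon
  have : μ Set.univ ≤ μ B := measure_mono_ae (by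
    filter_upwards [hP] with ω h _
    by_contra hb
    exact hcon ω hb h)
  rw [measure_univ] at this
  exact absurd hB (not_lt.2 this)

end iid

/-- level with a fair sign -/
noncomputable def law (p : PMF ℕ) : PMF (ℕ × Bool) :=
  ⟨fun x => p x.1 / 2, by
    have : ∑' x : ℕ × Bool, p x.1 / 2 = 1 := by
      rw [ENNReal.tsum_prod']
      simp only [tsum_bool, ENNReal.add_halves, p.tsum_coe]
    exact this ▸ ENNReal.summable.hasSum⟩

lemma law_apply (p : PMF ℕ) (x : ℕ × Bool) : law p x = p x.1 / 2 := rfl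

lemma law_level (p : PMF ℕ) (A : Set ℕ) :
    (law p).toMeasure {x | x.1 ∈ A} = p.toMeasure A := by
  rw [PMF.toMeasure_apply_eq_tsum, PMF.toMeasure_apply_eq_tsum, ENNReal.tsum_prod']
  refine tsum_congr fun j => ?_
  by_cases h : j ∈ A <;> simp [h, law_apply, Set.indicator]
  rw [ENNReal.mul_div_cancel (by simp) (by simp)]

/-- signed step -/
def st {G : Type} [Group G] (g : ℕ → G) (x : ℕ × Bool) : G := if x.2 then g x.1 else (g x.1)⁻¹

def flip : ℕ × Bool ≃ ℕ × Bool := Equiv.prodCongr (Equiv.refl ℕ) Equiv.boolNot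

lemma admissible_law {G : Type} [Group G] (p : PMF ℕ) (hp : ∀ j, p j ≠ 0) (g : ℕ → G)
    (hg : Subgroup.closure (Set.range g) = ⊤) : Admissible ((law p).map (st g)) := by
  classical
  constructor
  · intro h
    rw [PMF.map_apply, PMF.map_apply, ← flip.tsum_eq]
    refine tsum_congr fun ⟨j, b⟩ => ?_
    cases b <;> simp [flip, st, law_apply, inv_eq_iff_eq_inv]
  · rw [eq_top_iff, ← hg]
    refine Subgroup.closure_mono ?_
    rintro _ ⟨j, rfl⟩
    rw [PMF.support_map]
    exact ⟨(j, true), by simp [law_apply, hp j], rfl⟩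

/-- distribution on levels with tail function `Q` -/
noncomputable def tailP (Q : ℕ → ℝ) (hQ : Antitone Q) (h0 : Q 0 = 1)
    (hlim : Tendsto Q atTop (𝓝 0)) : PMF ℕ :=
  ⟨fun j => ENNReal.ofReal (Q j - Q (j + 1)), by
    have hn : ∀ j, 0 ≤ Q j - Q (j + 1) := fun j => sub_nonneg.2 (hQ (Nat.le_succ j))
    have hs : HasSum (fun j => Q j - Q (j + 1)) 1 := by
      rw [hasSum_iff_tendsto_nat_of_nonneg hn]
      simp only [sum_range_sub', h0]
      simpa using hlim.const_sub 1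
    have : ∑' j, ENNReal.ofReal (Q j - Q (j + 1)) = 1 := by
      rw [← ENNReal.ofReal_tsum_of_nonneg hn hs.summable, hs.tsum_eq, ENNReal.ofReal_one]
    exact this ▸ ENNReal.summable.hasSum⟩

lemma tailP_apply (Q : ℕ → ℝ) (hQ : Antitone Q) (h0 : Q 0 = 1)
    (hlim : Tendsto Q atTop (𝓝 0)) (j : ℕ) :
    tailP Q hQ h0 hlim j = ENNReal.ofReal (Q j - Q (j + 1)) := rfl

lemma tailP_Iio (Q : ℕ → ℝ) (hQ : Antitone Q) (h0 : Q 0 = 1)
    (hlim : Tendsto Q atTop (𝓝 0)) (j : ℕ) :
    (tailP Q hQ h0 hlim).toMeasure (Set.Iio j) = ENNReal.ofReal (1 - Q j) := by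
  rw [← Finset.coe_range, PMF.toMeasure_apply_finset]
  simp only [tailP_apply]
  rw [← ENNReal.ofReal_sum_of_nonneg fun i _ => sub_nonneg.2 (hQ (Nat.le_succ i)),
    sum_range_sub', h0]

lemma tailP_Ici (Q : ℕ → ℝ) (hQ : Antitone Q) (h0 : Q 0 = 1)
    (hlim : Tendsto Q atTop (𝓝 0)) (j : ℕ) :
    (tailP Q hQ h0 hlim).toMeasure (Set.Ici j) = ENNReal.ofReal (Q j) := by
  rw [← Set.compl_Iio, prob_compl_eq_one_sub .of_discrete, tailP_Iio, ← ENNReal.ofReal_one,
    ← ENNReal.ofReal_sub _ (by have := hQ (Nat.zero_le j); linarith)]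
  simp

/-- a tie for the running maximum of the levels -/
def tie (j m k : ℕ) : Set (ℕ → ℕ × Bool) :=
  {ξ | (ξ m).1 = j ∧ (ξ (m + k + 1)).1 = j ∧ ∀ i < m + k + 1, i ≠ m → (ξ i).1 < j}

lemma measure_tie (p : PMF ℕ) (j m k : ℕ) :
    iid (law p) (tie j m k) = p j ^ 2 * p.toMeasure (Set.Iio j) ^ m *
      p.toMeasure (Set.Iio j) ^ k := by
  classical
  have : tie j m k = Set.pi (range (m + k + 2) : Finset ℕ) fun i =>
      {x : ℕ × Bool | x.1 ∈ if i = m ∨ i = m + k + 1 then {j} else Set.Iio j} := by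
    ext ξ
    simp only [tie, Set.mem_ofPred_eq, Set.mem_pi, mem_coe, mem_range]
    constructor
    · rintro ⟨h1, h2, h3⟩ i hi
      split_ifs with h
      · rcases h with rfl | rfl
        · exact h1
        · exact h2
      · exact h3 i (by omega) (by omega)
    · intro h
      refine ⟨by simpa using h m (by omega), by simpa using h (m + k + 1) (by omega),
        fun i hi him => ?_⟩
      have := h i (by omega)
      rwa [if_neg (by omega)] at this
  rw [this, Measure.infinitePi_pi _ fun _ _ => .of_discrete]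
  simp only [law_level]
  rw [show m + k + 2 = m + 1 + k + 1 by omega, prod_range_succ, prod_range_add, prod_range_succ,
    prod_congr rfl (g := fun _ => p.toMeasure (Set.Iio j))
      (fun i hi => by rw [if_neg (by have := mem_range.1 hi; omega)]),
    prod_congr (s₂ := range k) rfl (g := fun _ => p.toMeasure (Set.Iio j))
      (fun i hi => by rw [if_neg (by have := mem_range.1 hi; omega)]),
    if_pos (Or.inl rfl), if_pos (Or.inr (by omega)),
    PMF.toMeasure_apply_singleton _ _ .of_discrete]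
  simp only [prod_const, card_range]
  ring

lemma measure_ties (p : PMF ℕ) :
    iid (law p) (⋃ j, ⋃ m, ⋃ k, tie j m k) ≤
      ∑' j, (p j * (1 - p.toMeasure (Set.Iio j))⁻¹) ^ 2 := by
  refine (measure_iUnion_le _).trans (ENNReal.tsum_le_tsum fun j => ?_)
  refine (measure_iUnion_le _).trans ?_
  refine (ENNReal.tsum_le_tsum fun m => measure_iUnion_le _).trans (le_of_eq ?_)
  simp only [measure_tie, ENNReal.tsum_mul_left, ENNReal.tsum_mul_right, ENNReal.tsum_geometric]
  ring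

lemma exists_top (ξ : ℕ → ℕ × Bool) (h : ξ ∉ ⋃ j, ⋃ m, ⋃ k, tie j m k) (n : ℕ) (hn : 1 ≤ n) :
    ∃ m < n, ∀ i < n, i ≠ m → (ξ i).1 < (ξ m).1 := by
  induction n, hn using Nat.le_induction with
  | base => exact ⟨0, by omega, fun i hi h => by omega⟩
  | succ n _ ih =>
    obtain ⟨m, hm, h1⟩ := ih
    rcases lt_trichotomy (ξ n).1 (ξ m).1 with h2 | h2 | h2
    · refine ⟨m, by omega, fun i hi him => ?_⟩
      rcases Nat.lt_succ_iff_lt_or_eq.1 hi with h3 | rfl
      · exact h1 i h3 him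
      · exact h2
    · exfalso
      apply h
      simp only [Set.mem_iUnion]
      refine ⟨(ξ m).1, m, n - m - 1, rfl, ?_, ?_⟩
      · rw [show m + (n - m - 1) + 1 = n by omega, h2]
      · rw [show m + (n - m - 1) + 1 = n by omega]; exact h1
    · refine ⟨n, by omega, fun i hi him => ?_⟩
      by_cases h3 : i = m
      · rw [h3]; exact h2
      · exact (h1 i (by omega) h3).trans h2

open Classical in
/-- sign of the first step of level `j` -/
noncomputable def firstSign (ξ : ℕ → ℕ × Bool) (j : ℕ) : Bool :=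
  if h : ∃ k, (ξ k).1 = j then (ξ (Nat.find h)).2 else true

lemma firstSign_eq (ξ : ℕ → ℕ × Bool) (m : ℕ) (h : ∀ i < m, (ξ i).1 ≠ (ξ m).1) :
    firstSign ξ (ξ m).1 = (ξ m).2 := by
  classical
  have hex : ∃ k, (ξ k).1 = (ξ m).1 := ⟨m, rfl⟩
  rw [firstSign, dif_pos hex]
  have : Nat.find hex = m := (Nat.find_eq_iff hex).2 ⟨rfl, h⟩
  rw [this]

noncomputable def Q8 (j : ℕ) : ℝ := 8 / (j + 8)

lemma Q8_pos (j : ℕ) : 0 < Q8 j := by unfold Q8; positivity

lemma Q8_anti : Antitone Q8 := fun a b h => by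
  unfold Q8
  have : (a : ℝ) ≤ b := by exact_mod_cast h
  gcongr

lemma Q8_zero : Q8 0 = 1 := by simp [Q8]

lemma Q8_lim : Tendsto Q8 atTop (𝓝 0) :=
  tendsto_const_nhds.div_atTop (tendsto_atTop_add_const_right _ _ tendsto_natCast_atTop_atTop)

noncomputable def p8 : PMF ℕ := tailP Q8 Q8_anti Q8_zero Q8_lim

lemma p8_ne (j : ℕ) : p8 j ≠ 0 := by
  rw [p8, tailP_apply, Ne, ENNReal.ofReal_eq_zero, not_le]
  unfold Q8
  push_cast
  rw [sub_pos]
  gcongr
  linarith

lemma p8_ties : iid (law p8) (⋃ j, ⋃ m, ⋃ k, tie j m k) ≤ ENNReal.ofReal (1 / 8) := by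
  refine (measure_ties p8).trans ?_
  have : ∀ j, (p8 j * (1 - p8.toMeasure (Set.Iio j))⁻¹) ^ 2 ≤ ENNReal.ofReal (1 / 8) * p8 j := by
    intro j
    rw [← prob_compl_eq_one_sub .of_discrete, Set.compl_Iio, p8, tailP_Ici, tailP_apply,
      ← ENNReal.ofReal_inv_of_pos (Q8_pos j), ← ENNReal.ofReal_mul' (inv_pos.2 (Q8_pos j)).le,
      ← ENNReal.ofReal_pow (mul_nonneg (sub_nonneg.2 (Q8_anti (Nat.le_succ j)))
        (inv_pos.2 (Q8_pos j)).le), ← ENNReal.ofReal_mul (by norm_num)]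
    refine ENNReal.ofReal_le_ofReal ?_
    have e1 : Q8 j - Q8 (j + 1) = 8 / ((j + 8) * (j + 9)) := by
      unfold Q8; push_cast; field_simp; ring
    have e2 : (Q8 j - Q8 (j + 1)) * (Q8 j)⁻¹ = 1 / (j + 9) := by
      rw [e1]; unfold Q8; field_simp
    rw [e2, e1, div_pow, div_mul_div_comm, div_le_div_iff₀ (by positivity) (by positivity)]
    have : (0 : ℝ) ≤ j := by positivity
    nlinarith
  refine (ENNReal.tsum_le_tsum this).trans ?_
  rw [ENNReal.tsum_mul_left, p8.tsum_coe, mul_one]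

lemma exists_cap (j : ℕ) : ∃ N : ℕ, (1 - Q8 (j + 1)) ^ N < 1 / 8 * (1 / 2) ^ j :=
  exists_pow_lt_of_lt_one (by positivity) (by have := Q8_pos (j + 1); linarith)

/-- time cap for level `j` -/
noncomputable def cap (j : ℕ) : ℕ := (exists_cap j).choose

lemma p8_caps : iid (law p8) (⋃ j, {ξ | ∀ k ∈ range (cap j), ξ k ∈ {x : ℕ × Bool |
    x.1 ∈ Set.Iio (j + 1)}}) ≤ ENNReal.ofReal (1 / 4) := by
  refine (measure_iUnion_le _).trans ?_
  have hs : HasSum (fun j : ℕ => (1 / 8 : ℝ) * (1 / 2) ^ j) (1 / 4) := by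
    have := hasSum_geometric_two.mul_left (1 / 8 : ℝ)
    norm_num at this ⊢
    exact this
  rw [← hs.tsum_eq, ENNReal.ofReal_tsum_of_nonneg (fun _ => by positivity) hs.summable]
  refine ENNReal.tsum_le_tsum fun j => ?_
  have h1 : 0 ≤ 1 - Q8 (j + 1) := by
    have := Q8_anti (Nat.zero_le (j + 1)); rw [Q8_zero] at this; linarith
  rw [iid_forall, law_level, p8, tailP_Iio, card_range, ← ENNReal.ofReal_pow h1]
  exact ENNReal.ofReal_le_ofReal (exists_cap j).choose_spec.le

/-- with positive probability the running maximum of the levels is always unique, at least 2,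
and reached before the time cap -/
lemma exists_good (P : (ℕ → ℕ × Bool) → Prop) (hP : ∀ᵐ ξ ∂iid (law p8), P ξ) :
    ∃ ξ, P ξ ∧ ∀ n, 1 ≤ n → ∃ m < n, (∀ i < n, i ≠ m → (ξ i).1 < (ξ m).1) ∧ 2 ≤ (ξ m).1 ∧
      n ≤ cap (ξ m).1 ∧ firstSign ξ (ξ m).1 = (ξ m).2 := by
  obtain ⟨ξ, hξ, h⟩ := exists_of_ae (iid (law p8))
    ((⋃ j, ⋃ m, ⋃ k, tie j m k) ∪ (⋃ j, {ξ | ∀ k ∈ range (cap j), ξ k ∈ {x : ℕ × Bool |
      x.1 ∈ Set.Iio (j + 1)}}) ∪ {ξ | ξ 0 ∈ {x : ℕ × Bool | x.1 ∈ Set.Iio 2}}) (by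
      refine ((measure_union_le _ _).trans (add_le_add ((measure_union_le _ _).trans
        (add_le_add p8_ties p8_caps)) le_rfl)).trans_lt ?_
      rw [iid_eval, law_level, p8, tailP_Iio, ← ENNReal.ofReal_add (by norm_num) (by norm_num),
        ← ENNReal.ofReal_add (by norm_num) (by norm_num [Q8]), ENNReal.ofReal_lt_one]
      norm_num [Q8]) P hP
  simp only [Set.mem_union, not_or] at hξ
  obtain ⟨⟨h1, h2⟩, h3⟩ := hξ
  refine ⟨ξ, h, fun n hn => ?_⟩
  obtain ⟨m, hm, h4⟩ := exists_top ξ h1 n hn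
  have hle : ∀ i < n, (ξ i).1 ≤ (ξ m).1 := fun i hi => by
    by_cases e : i = m
    · rw [e]
    · exact (h4 i hi e).le
  refine ⟨m, hm, h4, ?_, ?_, firstSign_eq ξ m fun i hi => (h4 i (by omega) (by omega)).ne⟩
  · simp only [Set.mem_ofPred_eq, Set.mem_Iio, not_lt] at h3
    exact h3.trans (hle 0 (by omega))
  · by_contra hc
    apply h2
    refine Set.mem_iUnion.2 ⟨(ξ m).1, fun k hk => ?_⟩
    have := hle k (by have := mem_range.1 hk; omega)
    simp only [Set.mem_ofPred_eq, Set.mem_Iio]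
    omega

/-- transfer of an almost sure property to the level-sign model -/
lemma exists_good_walk {G : Type} [Group G] (g : ℕ → G)
    (h : IsARPair ((law p8).map (st g))) :
    ∃ ξ : ℕ → ℕ × Bool, tailSemigroup (fun k => st g (ξ k)) 1 = ⊤ ∧
      ∀ n, 1 ≤ n → ∃ m < n, (∀ i < n, i ≠ m → (ξ i).1 < (ξ m).1) ∧ 2 ≤ (ξ m).1 ∧
      n ≤ cap (ξ m).1 ∧ firstSign ξ (ξ m).1 = (ξ m).2 := by
  let _ : MeasurableSpace G := ⊤
  have h1 := h 1 le_rfl
  rw [← iid_map] at h1
  exact exists_good _ (ae_of_ae_map (measurable_pi_lambda _ fun k =>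
    (Measurable.of_discrete (f := st g)).comp (measurable_pi_apply k)).aemeasurable h1)

end Pool.Agent.H45.AR
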