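import Mathlib

/-! Completely monotone functions on the Boolean lattice `(Finset ι, ∪)`. -/

open Finset MeasureTheory

namespace Pool.Agent.H45.CM

variable {ι : Type} [DecidableEq ι]

def D (i : ι) (f : Finset ι → ℝ) : Finset ι → ℝ := fun I => f I - f (insert i I)

def CM : ℕ → (Finset ι → ℝ) → Prop
  | 0, f => ∀ I, 0 ≤ f I
  | k + 1, f => (∀ I, 0 ≤ f I) ∧ ∀ i, CM k (D i f)

lemma CM.nonneg : ∀ {k} {f : Finset ι → ℝ}, CM k f → ∀ I, 0 ≤ f I
  | 0, _, h => h
  | _ + 1, _, h => h.1

lemma CM.pred : ∀ {k} {f : Finset ι → ℝ}, CM (k + 1) f → CM k f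
  | 0, _, h => h.1
  | _ + 1, _, h => ⟨h.1, fun i => (h.2 i).pred⟩

lemma CM.add : ∀ {k} {f g : Finset ι → ℝ}, CM k f → CM k g → CM k fun I => f I + g I
  | 0, _, _, h, h' => fun I => add_nonneg (h I) (h' I)
  | k + 1, f, g, h, h' => ⟨fun I => add_nonneg (h.1 I) (h'.1 I), fun i => by
      have : D i (fun I => f I + g I) = fun I => D i f I + D i g I := by
        funext I; simp only [D]; ring
      rw [this]; exact (h.2 i).add (h'.2 i)⟩

lemma CM.shift (j : ι) : ∀ {k} {f : Finset ι → ℝ}, CM k f → CM k fun I => f (insert j I)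
  | 0, _, h => fun _ => h _
  | k + 1, f, h => ⟨fun _ => h.1 _, fun i => by
      have : D i (fun I => f (insert j I)) = fun I => D i f (insert j I) := by
        funext I; simp only [D, insert_comm]
      rw [this]; exact (h.2 i).shift j⟩

lemma CM.mul : ∀ {k} {f g : Finset ι → ℝ}, CM k f → CM k g → CM k fun I => f I * g I
  | 0, _, _, h, h' => fun I => mul_nonneg (h I) (h' I)
  | k + 1, f, g, h, h' => ⟨fun I => mul_nonneg (h.1 I) (h'.1 I), fun i => by
      have : D i (fun I => f I * g I) =
          fun I => D i f I * g I + f (insert i I) * D i g I := by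
        funext I; simp only [D]; ring
      rw [this]; exact ((h.2 i).mul h'.pred).add ((h.pred.shift i).mul (h'.2 i))⟩

lemma CM.const {c : ℝ} (hc : 0 ≤ c) : ∀ k, CM k fun _ : Finset ι => c
  | 0 => fun _ => hc
  | k + 1 => ⟨fun _ => hc, fun i => by
      have : D i (fun _ : Finset ι => c) = fun _ => 0 := by funext I; simp [D]
      rw [this]; exact CM.const le_rfl k⟩

lemma CM.inv {u : Finset ι → ℝ} (hu : ∀ I, 0 < u I)
    (h : ∀ k i, CM k fun I => u (insert i I) - u I) : ∀ k, CM k fun I => (u I)⁻¹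
  | 0 => fun I => (inv_pos.2 (hu I)).le
  | k + 1 => ⟨fun I => (inv_pos.2 (hu I)).le, fun i => by
      have : D i (fun I => (u I)⁻¹) =
          fun I => (u (insert i I) - u I) * (u I)⁻¹ * (u (insert i I))⁻¹ := by
        funext I; simp only [D]
        have := (hu I).ne'
        have := (hu (insert i I)).ne'
        field_simp
      rw [this]; exact ((h k i).mul (CM.inv hu h k)).mul ((CM.inv hu h k).shift i)⟩

lemma CM.integral {Ω : Type*} [MeasurableSpace Ω] (μ : Measure Ω) :
    ∀ {k} {F : Ω → Finset ι → ℝ}, (∀ I, Integrable (fun ω => F ω I) μ) → (∀ ω, CM k (F ω)) →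
      CM k fun I => ∫ ω, F ω I ∂μ
  | 0, _, _, h => fun I => integral_nonneg fun ω => h ω I
  | k + 1, F, hi, h => ⟨fun I => integral_nonneg fun ω => (h ω).1 I, fun i => by
      have : D i (fun I => ∫ ω, F ω I ∂μ) = fun I => ∫ ω, D i (F ω) I ∂μ := by
        funext I; simp only [D]; rw [integral_sub (hi _) (hi _)]
      rw [this]
      exact CM.integral μ (fun I => (hi _).sub (hi _)) fun ω => (h ω).2 i⟩

/-- A function that each insertion either keeps or kills. -/
lemma CM.ind {f : Finset ι → ℝ} (h0 : ∀ I, 0 ≤ f I)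
    (h : ∀ i, (∀ I, f (insert i I) = f I) ∨ ∀ I, f (insert i I) = 0) : ∀ k, CM k f
  | 0 => h0
  | k + 1 => ⟨h0, fun i => by
      rcases h i with h' | h'
      · have : D i f = fun _ => 0 := by funext I; simp [D, h']
        rw [this]; exact CM.const le_rfl k
      · have : D i f = f := by funext I; simp [D, h']
        rw [this]; exact CM.ind h0 h k⟩

lemma CM.pos {g : Finset ι → ℝ} {b : ι → ℝ} (h : ∀ i I, g (insert i I) = max (g I) (b i)) :
    ∀ k a, CM k fun I => max (a - g I) 0
  | 0, _ => fun _ => le_max_right _ _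
  | k + 1, a => ⟨fun _ => le_max_right _ _, fun i => by
      have : D i (fun I => max (a - g I) 0) = fun I => max (min a (b i) - g I) 0 := by
        funext I; simp only [D, h, max_def, min_def]
        split_ifs <;> linarith
      rw [this]; exact CM.pos h k _⟩

lemma CM.maxitive {g : Finset ι → ℝ} {b : ι → ℝ} (h : ∀ i I, g (insert i I) = max (g I) (b i))
    (k : ℕ) (i : ι) : CM k fun I => g (insert i I) - g I := by
  have : (fun I => g (insert i I) - g I) = fun I => max (b i - g I) 0 := by
    funext I; simp only [h, max_def]; split_ifs <;> linarith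
  rw [this]; exact CM.pos h k _

lemma CM.alt (J : Finset ι) : ∀ {f : Finset ι → ℝ}, CM J.card f →
    0 ≤ ∑ K ∈ J.powerset, (-1 : ℝ) ^ K.card * f K := by
  induction J using Finset.induction_on with
  | empty => intro f h; simpa using h ∅
  | insert j J hj ih =>
    intro f h
    rw [card_insert_of_notMem hj] at h
    rw [sum_powerset_insert hj, ← sum_add_distrib]
    refine (ih (h.2 j)).trans_eq (sum_congr rfl fun K hK => ?_)
    rw [card_insert_of_notMem (fun h => hj (mem_powerset.1 hK h)), D]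
    ring

/-- If `1 - v = t / u` with `t` completely monotone and `u > 0` completely alternating, then
`v` satisfies the alternation inequality. -/
lemma alternating [Fintype ι] [Nonempty ι] {t u v : Finset ι → ℝ} (ht : ∀ k, CM k t)
    (hu : ∀ I, 0 < u I) (h : ∀ k i, CM k fun I => u (insert i I) - u I)
    (hv : ∀ I, v I = 1 - t I * (u I)⁻¹) :
    v ∅ ≤ ∑ I ∈ univ.filter (fun I : Finset ι => I.Nonempty), (-1 : ℝ) ^ (I.card + 1) * v I := by
  have h1 := CM.alt univ ((ht _).mul (CM.inv hu h _))
  have h2 : ∑ K ∈ (univ : Finset ι).powerset, (-1 : ℝ) ^ K.card = 0 := by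
    exact_mod_cast sum_powerset_neg_one_pow_card_of_nonempty (univ_nonempty (α := ι))
  have h3 : ∑ K ∈ (univ : Finset ι).powerset, (-1 : ℝ) ^ K.card * v K ≤ 0 := by
    simp only [hv, mul_sub, mul_one, sum_sub_distrib, h2]; linarith
  have h4 : (univ : Finset ι).powerset = insert ∅ (univ.filter fun I : Finset ι => I.Nonempty) := by
    ext I; simp [eq_empty_or_nonempty]
  rw [h4, sum_insert (by simp)] at h3
  simp only [pow_succ, mul_neg, mul_one, neg_mul, sum_neg_distrib]
  simp only [card_empty, pow_zero, one_mul] at h3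
  linarith

variable {E : Type*}

/-- The family `B ∅ = ⋂ A i`, `B I = ⋃_{i ∈ I} A i`. -/
def B (A : ι → Set E) (I : Finset ι) : Set E := (⋂ i, A i) ∪ ⋃ i ∈ I, A i

lemma B_empty (A : ι → Set E) : B A ∅ = ⋂ i, A i := by simp [B]

lemma B_insert (A : ι → Set E) (i : ι) (I : Finset ι) : B A (insert i I) = B A I ∪ A i := by
  simp only [B, Finset.set_biUnion_insert]; ac_rfl

lemma B_nonempty (A : ι → Set E) {I : Finset ι} (h : I.Nonempty) : B A I = ⋃ i ∈ I, A i := by
  obtain ⟨i, hi⟩ := h
  exact Set.union_eq_right.2 ((Set.iInter_subset _ i).trans (Set.subset_biUnion_of_mem hi))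

lemma sSup_union {L : E → ℝ} (hL : ∀ x, 0 ≤ L x) {S T : Set E} (hS : BddAbove (L '' S))
    (hT : BddAbove (L '' T)) : sSup (L '' (S ∪ T)) = max (sSup (L '' S)) (sSup (L '' T)) := by
  have h0 : ∀ U : Set E, 0 ≤ sSup (L '' U) := fun U =>
    Real.sSup_nonneg (by rintro _ ⟨x, -, rfl⟩; exact hL x)
  rcases S.eq_empty_or_nonempty with rfl | hS'
  · simp [h0]
  rcases T.eq_empty_or_nonempty with rfl | hT'
  · simp [h0]
  rw [Set.image_union, csSup_union hS (hS'.image _) hT (hT'.image _)]

end Pool.Agent.H45.CM
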