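import Pool.Agent.H45.Recur

set_option autoImplicit false
set_option maxHeartbeats 400000

namespace Pool.Agent.H45.Chain

open MeasureTheory ProbabilityTheory Finset Filter Topology
open scoped ENNReal

abbrev CV : Type := (ℕ × ℕ) × ℕ

def lv (v : CV) : ℕ := v.1.1 + v.1.2

def par (v : CV) : CV := if v.1.1 = 0 then ((0, v.1.2 + 1), v.2 / 2) else ((0, lv v), v.2)

def rk (v : CV) : ℕ := if v.1.1 = 0 then v.1.2 + 1 else 0

lemma rk_lt (v : CV) : rk v < rk (par v) := by
  unfold par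
  split_ifs with h <;> simp [rk, h]

/-- canopy tree with `n` extra leaves at each vertex of level `n` -/
def CG : SimpleGraph CV := SimpleGraph.fromRel fun y z => par y = z

lemma CG_adj (y z : CV) : CG.Adj y z ↔ par y = z ∨ par z = y := by
  rw [CG, SimpleGraph.fromRel_adj, and_iff_right_iff_imp]
  rintro (h | h) rfl <;> exact absurd (rk_lt y) (by rw [h]; exact lt_irrefl _)

lemma adj_par (v : CV) : CG.Adj v (par v) := (CG_adj _ _).2 (Or.inl rfl)

lemma adj_spine (n : ℕ) : CG.Adj ((0, n), 0) ((0, n + 1), 0) :=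
  (CG_adj _ _).2 (Or.inl (by simp [par]))

lemma CG_connected : CG.Connected := by
  have h1 : ∀ n, CG.Reachable ((0, n), 0) ((0, 0), 0) := by
    intro n
    induction n with
    | zero => rfl
    | succ n ih => exact (adj_spine n).symm.reachable.trans ih
  have h2 : ∀ i n, CG.Reachable ((0, n), i) ((0, 0), 0) := by
    intro i
    induction i using Nat.strong_induction_on with
    | _ i ih =>
      intro n
      rcases Nat.eq_zero_or_pos i with rfl | h
      · exact h1 n
      · exact (adj_par ((0, n), i)).reachable.trans (ih (i / 2) (by omega) (n + 1))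
  have h3 : ∀ v, CG.Reachable v ((0, 0), 0) := by
    intro v
    refine (adj_par v).reachable.trans ?_
    unfold par
    split_ifs <;> exact h2 _ _
  exact ⟨fun u v => (h3 u).trans (h3 v).symm⟩

def nbrs (v : CV) : Finset CV :=
  insert (par v) (insert ((0, lv v - 1), 2 * v.2) (insert ((0, lv v - 1), 2 * v.2 + 1)
    ((range (lv v)).image fun j => ((j + 1, lv v - (j + 1)), v.2))))

lemma nbr_sub (v : CV) : CG.neighborSet v ⊆ nbrs v := by
  rintro ⟨⟨j, r⟩, i⟩ hw
  rcases (CG_adj _ _).1 hw with h | rfl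
  · simp [nbrs, h]
  · simp only [nbrs, coe_insert, coe_image, coe_range, Set.mem_insert_iff, Set.mem_image,
      Set.mem_Iio, Prod.mk.injEq]
    right
    by_cases h : j = 0
    · subst h
      simp only [par, lv, if_true, true_and]
      omega
    · right; right
      simp only [par, lv, h, if_false]
      exact ⟨j - 1, by omega, ⟨by omega, by omega⟩, trivial⟩

lemma CG_finite (v : CV) : (CG.neighborSet v).Finite := (nbrs v).finite_toSet.subset (nbr_sub v)

lemma CG_degree (v : CV) : (CG.neighborSet v).ncard ≤ lv v + 3 := by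
  refine (Set.ncard_le_ncard (nbr_sub v) (finite_toSet _)).trans ?_
  rw [Set.ncard_coe_finset]
  refine (card_insert_le _ _).trans (Nat.succ_le_succ ((card_insert_le _ _).trans
    (Nat.succ_le_succ ((card_insert_le _ _).trans (Nat.succ_le_succ ?_)))))
  exact card_image_le.trans (card_range _).le

def sig (a : ℕ) (v : CV) : CV := (v.1, v.2 ^^^ (a / 2 ^ lv v))

lemma sig_invol (a : ℕ) : Function.Involutive (sig a) := by
  rintro ⟨t, i⟩
  simp [sig, lv]

lemma par_sig (a : ℕ) (v : CV) : par (sig a v) = sig a (par v) := by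
  obtain ⟨⟨j, r⟩, i⟩ := v
  by_cases h : j = 0
  · simp [par, sig, lv, h, Nat.xor_div_two, Nat.div_div_eq_div_mul, pow_succ]
  · simp [par, sig, lv, h]

def sigIso (a : ℕ) : CG ≃g CG where
  toEquiv := (sig_invol a).toPerm
  map_rel_iff' := by
    intro y z
    simp only [Function.Involutive.coe_toPerm, CG_adj, par_sig, (sig_invol a).injective.eq_iff]

lemma tsum_div (g : ℕ → ℝ≥0∞) (k : ℕ) [NeZero k] : ∑' a, g (a / k) = k * ∑' i, g i := by
  rw [← (Nat.divModEquiv k).symm.tsum_eq, ENNReal.tsum_prod', ← ENNReal.tsum_mul_left]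
  refine tsum_congr fun i => ?_
  have : ∀ r : Fin k, (Nat.divModEquiv k).symm (i, r) / k = i := fun r =>
    congrArg Prod.fst ((Nat.divModEquiv k).apply_symm_apply (i, r))
  simp only [this]
  simp

lemma hasSum_geo (q : ℝ) (h0 : 0 ≤ q) (h1 : q < 1) :
    HasSum (fun v : CV => if v.2 = 0 then q ^ lv v else 0) ((1 - q)⁻¹ * (1 - q)⁻¹) := by
  have hg := hasSum_geometric_of_lt_one h0 h1
  have h2 := hg.mul hg (hg.summable.mul_of_nonneg hg.summable (fun _ => by positivity)
    fun _ => by positivity)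
  have hinj : Function.Injective fun t : ℕ × ℕ => ((t, 0) : CV) := fun a b h => congrArg Prod.fst h
  rw [← hinj.hasSum_iff]
  · simpa [Function.comp_def, lv, pow_add] using h2
  · rintro ⟨t, i⟩ h
    rw [if_neg]
    rintro rfl
    exact h ⟨t, rfl⟩

noncomputable def wtC (v : CV) : ℝ := (if v.2 = 0 then (1 / 2) ^ lv v else 0) / 4

lemma wtC_nonneg (v : CV) : 0 ≤ wtC v := by unfold wtC; positivity

noncomputable def rootLaw : PMF CV :=
  ⟨fun v => ENNReal.ofReal (wtC v), by
    have hs : HasSum wtC 1 := by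
      have := (hasSum_geo (1 / 2) (by norm_num) (by norm_num)).div_const 4
      norm_num at this
      exact this
    have : ∑' v, ENNReal.ofReal (wtC v) = 1 := by
      rw [← ENNReal.ofReal_tsum_of_nonneg wtC_nonneg hs.summable, hs.tsum_eq, ENNReal.ofReal_one]
    exact this ▸ ENNReal.summable.hasSum⟩

lemma rootLaw_apply (v : CV) : rootLaw v = ENNReal.ofReal (wtC v) := rfl

lemma tsum_root (g : CV → ℝ≥0∞) :
    ∑' v, rootLaw v * g v = ∑' t : ℕ × ℕ, 4⁻¹ * ((2 ^ (t.1 + t.2))⁻¹ * g (t, 0)) := by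
  rw [ENNReal.tsum_prod']
  refine tsum_congr fun t => ?_
  rw [tsum_eq_single 0 fun i hi => by simp [rootLaw_apply, wtC, hi], ← mul_assoc]
  congr 1
  rw [rootLaw_apply, wtC, if_pos rfl, ENNReal.ofReal_div_of_pos (by norm_num),
    ENNReal.ofReal_pow (by norm_num), ENNReal.ofReal_div_of_pos (by norm_num), ENNReal.inv_pow]
  simp [lv, div_eq_mul_inv, mul_comm]

lemma CG_unimodular : Unimodular CG rootLaw := by
  intro f hf
  have key : ∀ s t : ℕ × ℕ, (2 ^ (s.1 + s.2) : ℝ≥0∞)⁻¹ * ∑' i, f CV CG (s, 0) (t, i) =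
      (2 ^ (t.1 + t.2))⁻¹ * ∑' i, f CV CG (s, i) (t, 0) := by
    intro s t
    have e1 := tsum_div (fun i => f CV CG (s, 0) (t, i)) (2 ^ (t.1 + t.2))
    have e2 := tsum_div (fun i => f CV CG (s, i) (t, 0)) (2 ^ (s.1 + s.2))
    have e3 : ∀ a, f CV CG (s, 0) (t, a / 2 ^ (t.1 + t.2)) =
        f CV CG (s, a / 2 ^ (s.1 + s.2)) (t, 0) := by
      intro a
      rw [← hf _ _ _ _ (sigIso a)]
      change f CV CG (sig a _) (sig a _) = _
      simp [sig, lv]
    simp only [e3] at e1
    rw [e1] at e2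
    push_cast at e2
    have h1 : ∀ n : ℕ, (2 ^ n : ℝ≥0∞) ≠ 0 := fun n => by simp
    have h2 : ∀ n : ℕ, (2 ^ n : ℝ≥0∞) ≠ ⊤ := fun n => by simp
    rw [← (ENNReal.mul_right_inj (h1 (s.1 + s.2)) (h2 _)), ENNReal.mul_inv_cancel_left (h1 _) (h2 _),
      mul_left_comm, ← e2, ENNReal.inv_mul_cancel_left (h1 _) (h2 _)]
  rw [tsum_root, tsum_root]
  simp only [ENNReal.tsum_prod' (f := fun y : CV => f CV CG _ y),
    ENNReal.tsum_prod' (f := fun y : CV => f CV CG y _), ← ENNReal.tsum_mul_left (a := (2 ^ _)⁻¹)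
      (f := fun t : ℕ × ℕ => ∑' i : ℕ, _), key, ENNReal.tsum_mul_left (a := 4⁻¹)]
  rw [ENNReal.tsum_comm]

lemma CG_tail (n : ℕ) : rootLaw.toMeasure {v | n ≤ (CG.neighborSet v).ncard} ≤
    ENNReal.ofReal (14 * Real.exp (-(Real.log (3 / 2)) * n)) := by
  have hs := (hasSum_geo (3 / 4) (by norm_num) (by norm_num)).mul_left
    ((3 / 2) ^ 3 / 4 * (2 / 3) ^ n)
  refine le_trans ?_ (ENNReal.ofReal_le_ofReal (show (3 / 2 : ℝ) ^ 3 / 4 * (2 / 3) ^ n *
    ((1 - 3 / 4)⁻¹ * (1 - 3 / 4)⁻¹) ≤ _ from ?_))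
  · rw [PMF.toMeasure_apply_eq_tsum, ← hs.tsum_eq,
      ENNReal.ofReal_tsum_of_nonneg (fun _ => by positivity) hs.summable]
    refine ENNReal.tsum_le_tsum fun v => ?_
    by_cases hv : v ∈ {v | n ≤ (CG.neighborSet v).ncard}
    · rw [Set.indicator_of_mem hv, rootLaw_apply]
      refine ENNReal.ofReal_le_ofReal ?_
      have h1 : n ≤ lv v + 3 := le_trans hv (CG_degree v)
      have h2 : (3 / 2 : ℝ) ^ n ≤ (3 / 2) ^ (lv v + 3) := pow_le_pow_right₀ (by norm_num) h1
      have h3 : (2 / 3 : ℝ) ^ n * (3 / 2) ^ n = 1 := by rw [← mul_pow]; norm_num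
      unfold wtC
      split_ifs
      · rw [show (3 / 4 : ℝ) = 1 / 2 * (3 / 2) by norm_num, mul_pow]
        rw [pow_add] at h2
        have h4 : (0 : ℝ) < (2 / 3) ^ n := by positivity
        have h5 : (0 : ℝ) < (1 / 2) ^ lv v := by positivity
        have h6 := mul_le_mul_of_nonneg_left h2 h4.le
        nlinarith
      · simp
    · rw [Set.indicator_of_notMem hv]; exact zero_le
  · rw [mul_comm (-_), Real.exp_nat_mul, Real.exp_neg, Real.exp_log (by norm_num)]
    have h4 : (0 : ℝ) < (2 / 3) ^ n := by positivity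
    norm_num
    linarith

def leaf (m j : ℕ) : CV := ((j + 1, m - j), 0)

lemma leaf_adj (m j j' : ℕ) (hj : j ≤ m) (hj' : j' ≤ m + 1) :
    (graphPow CG 3).Adj (leaf m j) (leaf (m + 1) j') := by
  refine (SimpleGraph.fromRel_adj _ _ _).2 ⟨?_, Or.inl ?_⟩
  · simp only [leaf, ne_eq, Prod.mk.injEq]; omega
  · have h1 : CG.Adj (leaf m j) ((0, m + 1), 0) :=
      (CG_adj _ _).2 (Or.inl (by simp [par, leaf, lv]; omega))
    have h2 : CG.Adj ((0, m + 1), 0) ((0, m + 2), 0) := adj_spine _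
    have h3 : CG.Adj ((0, m + 2), 0) (leaf (m + 1) j') :=
      (CG_adj _ _).2 (Or.inr (by simp [par, leaf, lv]; omega))
    exact SimpleGraph.Walk.edist_le (.cons h1 (.cons h2 (.cons h3 .nil)))

theorem cube_transient : returnProb (graphPow CG 3) (leaf 0 0) < 1 := by
  refine lt_of_le_of_ne prob_le_one fun hrec => ?_
  obtain ⟨w, B, h1, h2, h3⟩ := energy_small _ (finite_pow CG CG_finite 3)
    (fun v => ⟨par v, (SimpleGraph.fromRel_adj _ _ _).2 ⟨(adj_par v).ne, Or.inl
      ((SimpleGraph.Walk.edist_le (.cons (adj_par v) .nil)).trans (by norm_num))⟩⟩)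
    _ hrec (1 / 2) (by norm_num)
  set M := B.sup lv with hM
  have h4 := h3 (((range M).sigma fun m => range (m + 1) ×ˢ range (m + 2)).image
    fun p => (leaf p.1 p.2.1, leaf (p.1 + 1) p.2.2)) (by
      intro p hp
      simp only [mem_image, mem_sigma, mem_range, mem_product] at hp
      obtain ⟨q, hq, rfl⟩ := hp
      exact leaf_adj _ _ _ (by omega) (by omega))
  rw [sum_image (by
    rintro ⟨m, j, k⟩ hp ⟨m', j', k'⟩ hp' e
    simp only [coe_sigma, Set.mem_sigma_iff, mem_coe, mem_range, mem_product, leaf,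
      Prod.mk.injEq] at hp hp' e
    obtain rfl : m = m' := by omega
    obtain rfl : j = j' := by omega
    obtain rfl : k = k' := by omega
    rfl), sum_sigma] at h4
  set A : ℕ → ℝ := fun m => (∑ j ∈ range (m + 1), w (leaf m j)) / (m + 1) with hA
  have h5 : ∀ m : ℕ, A m - A (m + 1) ≤ (1 / ((m : ℝ) + 1) - 1 / ((m + 1 : ℕ) + 1)) / 2 +
      (∑ p ∈ range (m + 1) ×ˢ range (m + 2), (w (leaf m p.1) - w (leaf (m + 1) p.2)) ^ 2) / 2 := by
    intro m
    set θ : ℝ := 1 / ((m + 1) * (m + 2)) with hθ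
    have e1 : A m - A (m + 1) =
        ∑ p ∈ range (m + 1) ×ˢ range (m + 2), θ * (w (leaf m p.1) - w (leaf (m + 1) p.2)) := by
      rw [← mul_sum, sum_sub_distrib, sum_product, sum_product_right]
      simp only [sum_const, card_range, nsmul_eq_mul, ← mul_sum, hA, hθ]
      push_cast
      field_simp
      ring
    have e2 : (1 / ((m : ℝ) + 1) - 1 / ((m + 1 : ℕ) + 1)) =
        ∑ _p ∈ range (m + 1) ×ˢ range (m + 2), θ ^ 2 := by
      rw [sum_const, card_product, card_range, card_range, nsmul_eq_mul, hθ]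
      push_cast
      field_simp
      ring
    rw [e1, e2, ← add_div, ← sum_add_distrib, sum_div]
    exact sum_le_sum fun p _ => by nlinarith [sq_nonneg (θ - (w (leaf m p.1) - w (leaf (m + 1) p.2)))]
  have h6 := sum_le_sum fun m (_ : m ∈ range M) => h5 m
  rw [sum_range_sub', sum_add_distrib, ← sum_div, ← sum_div,
    sum_range_sub' (fun m : ℕ => 1 / ((m : ℝ) + 1))] at h6
  have h7 : A 0 = 1 := by simp [hA, h1]
  have h8 : A M = 0 := by
    simp only [hA]
    rw [sum_eq_zero fun j hj => h2 _ fun hb => ?_, zero_div]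
    have := le_sup (f := lv) hb
    have := mem_range.1 hj
    simp only [lv, leaf] at *
    omega
  have h9 : (0 : ℝ) < 1 / ((M : ℝ) + 1) := by positivity
  rw [h7, h8] at h6
  simp only at h4
  rw [Nat.cast_zero, zero_add, div_one] at h6
  linarith

end Pool.Agent.H45.Chain
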