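import Mathlib

set_option autoImplicit false

namespace Pool.Agent.H45.Chain

open MeasureTheory ProbabilityTheory Finset

/-- Law of the trajectory `(X 0, X 1, ...)` of the time-homogeneous Markov chain with transition
kernel `K` started at `u` (Ionescu-Tulcea construction of Mathlib). -/
noncomputable def pathLaw {V : Type} [MeasurableSpace V] (K : Kernel V V) [IsMarkovKernel K]
    (u : V) : Measure (ℕ → V) :=
  Kernel.trajMeasure (X := fun _ => V) (Measure.dirac u)
    (fun n => K.comap (fun x : (Π _ : Iic n, V) => x ⟨n, mem_Iic.2 le_rfl⟩)
      (measurable_pi_apply _))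

end Pool.Agent.H45.Chain
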