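import Mathlib

/-! First-coordinate decomposition of an i.i.d. sequence. -/

open MeasureTheory Set
open scoped ENNReal

namespace Pool.Agent.H45.Cons

variable {α : Type*} [MeasurableSpace α] (μ : Measure α) [IsProbabilityMeasure μ]

noncomputable def iid : Measure (ℕ → α) := Measure.infinitePi fun _ : ℕ => μ

instance : IsProbabilityMeasure (iid μ) := by unfold iid; infer_instance

def cons {α : Type*} (a : α) (u : ℕ → α) : ℕ → α
  | 0 => a
  | n + 1 => u n

lemma measurable_cons : Measurable fun p : α × (ℕ → α) => cons p.1 p.2 := by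
  refine measurable_pi_lambda _ fun n => ?_
  cases n with
  | zero => exact measurable_fst
  | succ n => exact (measurable_pi_apply n).comp measurable_snd

lemma map_cons : (μ.prod (iid μ)).map (fun p : α × (ℕ → α) => cons p.1 p.2) = iid μ := by
  classical
  unfold iid
  refine Measure.eq_infinitePi _ fun s t ht => ?_
  rw [Measure.map_apply measurable_cons (MeasurableSet.pi s.countable_toSet fun i _ => ht i)]
  have e : (fun p : α × (ℕ → α) => cons p.1 p.2) ⁻¹' (Set.pi (s : Set ℕ) t) =
      (if 0 ∈ s then t 0 else univ) ×ˢ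
        (Set.pi ((s.preimage Nat.succ Nat.succ_injective.injOn : Finset ℕ) : Set ℕ)
          fun i => t (i + 1)) := by
    ext ⟨a, u⟩
    simp only [mem_preimage, Set.mem_pi, Finset.mem_coe, mem_prod, Finset.mem_preimage]
    constructor
    · intro h
      refine ⟨?_, fun i hi => h (i + 1) hi⟩
      split_ifs with h0
      · exact h 0 h0
      · trivial
    · rintro ⟨h1, h2⟩ i hi
      cases i with
      | zero => rw [if_pos hi] at h1; exact h1
      | succ i => exact h2 i hi
  rw [e, Measure.prod_prod, Measure.infinitePi_pi _ fun i _ => ht (i + 1)]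
  have e2 : ∏ i ∈ s.preimage Nat.succ Nat.succ_injective.injOn, μ (t (i + 1)) =
      ∏ i ∈ s.erase 0, μ (t i) := by
    refine Finset.prod_bij (fun i _ => i + 1) ?_ ?_ ?_ ?_
    · intro i hi
      simpa using hi
    · intro i _ j _ h
      omega
    · intro j hj
      rw [Finset.mem_erase] at hj
      obtain ⟨i, rfl⟩ := Nat.exists_eq_succ_of_ne_zero hj.1
      exact ⟨i, by simpa using hj.2, rfl⟩
    · intro i _; rfl
  rw [e2]
  split_ifs with h0
  · exact Finset.mul_prod_erase s (fun i => μ (t i)) h0
  · rw [Finset.erase_eq_of_notMem h0]; simp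

lemma lintegral_cons (f : (ℕ → α) → ℝ≥0∞) (hf : Measurable f) :
    ∫⁻ u, f u ∂iid μ = ∫⁻ a, ∫⁻ u, f (cons a u) ∂iid μ ∂μ := by
  conv_lhs => rw [← map_cons μ]
  rw [lintegral_map hf measurable_cons]
  exact lintegral_prod (fun p : α × (ℕ → α) => f (cons p.1 p.2))
    (hf.comp measurable_cons).aemeasurable

lemma ae_cons {P : (ℕ → α) → Prop} (h : ∀ᵐ u ∂iid μ, P u) :
    ∀ᵐ a ∂μ, ∀ᵐ u ∂iid μ, P (cons a u) := by
  rw [← map_cons μ] at h
  exact Measure.ae_ae_of_ae_prod (ae_of_ae_map measurable_cons.aemeasurable h)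

end Pool.Agent.H45.Cons
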