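import Pool.Agent.H45.CocDefs
import Pool.Agent.H45.Cons

set_option linter.unusedSectionVars false
set_option maxHeartbeats 400000

open MeasureTheory Filter Topology Pool.Agent.H45.Cons
open scoped ENNReal

namespace Pool.Agent.H45.Coc

variable {G : Type} [Group G]

lemma X_cons (g : G) (ω : ℕ → G) : ∀ t, X (t + 1) (cons g ω) = g * X t ω
  | 0 => by simp [X, cons]
  | t + 1 => by rw [X, X_cons g ω t, X, mul_assoc]; rfl

lemma X_add (ω : ℕ → G) (t : ℕ) : ∀ k, X (t + k) ω = X t ω * X k fun n => ω (t + n)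
  | 0 => by simp [X]
  | k + 1 => by rw [← add_assoc, X, X_add ω t k, X, mul_assoc]

variable [TopologicalSpace G] [IsTopologicalGroup G] [MeasurableSpace G] [BorelSpace G]
  {W : Type} [NormedAddCommGroup W] [NormedSpace ℝ W] [FiniteDimensional ℝ W]
  {b : G → W} {π : G → W →L[ℝ] W}

structure Data (b : G → W) (π : G → W →L[ℝ] W) : Prop where
  cont : Continuous b
  one : b 1 = 0
  span : Submodule.span ℝ (Set.range b) = ⊤
  coc : ∀ g y, π g (b y) = b (g * y) - b g

namespace Data
variable (h : Data b π)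
include h

lemma ext {A B : W →L[ℝ] W} (e : ∀ y, A (b y) = B (b y)) : A = B :=
  ContinuousLinearMap.coe_injective (LinearMap.ext_on_range h.span e)

lemma mul (g g' : G) : π (g * g') = π g * π g' :=
  h.ext fun y => by simp [h.coc, mul_assoc]

lemma pone : π 1 = 1 := h.ext fun y => by simp [h.coc, h.one]

lemma pcont : Continuous π := by
  refine continuous_clm_apply.2 fun w => ?_
  have hw : w ∈ Submodule.span ℝ (Set.range b) := h.span ▸ trivial
  induction hw using Submodule.span_induction with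
  | mem x hx =>
    obtain ⟨y, rfl⟩ := hx
    simp only [h.coc]
    exact (h.cont.comp (continuous_mul_const y)).sub h.cont
  | zero => simpa using continuous_const
  | add x y _ _ hx hy => simp only [map_add]; exact hx.add hy
  | smul a x _ hx => simp only [map_smul]; exact hx.const_smul a

variable (μ : Measure G) [IsProbabilityMeasure μ]

lemma top (ha : Adapted μ) (hs : Symm μ) (S : Submodule ℝ W)
    (hS : ∀ k, ∀ᵐ ω ∂iid μ, b (X k ω) ∈ S) : S = ⊤ := by
  classical
  have hex : ∃ n, ∃ S' : Submodule ℝ W, S' ≤ S ∧ (∀ k, ∀ᵐ ω ∂iid μ, b (X k ω) ∈ S') ∧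
      Module.finrank ℝ S' = n := ⟨_, S, le_rfl, hS, rfl⟩
  obtain ⟨S₀, h1, h2, h3⟩ := Nat.find_spec hex
  have hmin : ∀ T : Submodule ℝ W, (∀ k, ∀ᵐ ω ∂iid μ, b (X k ω) ∈ T) → S₀ ≤ T := fun T hT => by
    refine inf_eq_left.1 (Submodule.eq_of_le_of_finrank_le inf_le_left ?_)
    rw [h3]
    exact Nat.find_min' hex ⟨_, inf_le_left.trans h1, fun k => (h2 k).and (hT k), rfl⟩
  have hae : ∀ᵐ g ∂μ, b g ∈ S₀ ∧ ∀ w ∈ S₀, π g w ∈ S₀ := by
    filter_upwards [ae_all_iff.2 fun k => ae_cons μ (h2 (k + 1))] with g hg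
    have hb : b g ∈ S₀ := by
      obtain ⟨ω, hω⟩ := (hg 0).exists
      simpa [X, cons] using hω
    refine ⟨hb, hmin (S₀.comap (π g : W →ₗ[ℝ] W)) fun k => (hg k).mono fun ω hω => ?_⟩
    rw [X_cons] at hω
    simpa [h.coc] using S₀.sub_mem hω hb
  have hcl : IsClosed {g | b g ∈ S₀ ∧ ∀ w ∈ S₀, π g w ∈ S₀} := by
    refine (S₀.closed_of_finiteDimensional.preimage h.cont).inter ?_
    change IsClosed {g | ∀ w ∈ S₀, π g w ∈ S₀}
    simp only [Set.ofPred_forall]
    exact isClosed_iInter fun w => isClosed_iInter fun _ =>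
      S₀.closed_of_finiteDimensional.preimage (h.pcont.clm_apply continuous_const)
  set A := {g | b g ∈ S₀ ∧ ∀ w ∈ S₀, π g w ∈ S₀} with hA
  have hmul : ∀ g g', g ∈ A → g' ∈ A → g * g' ∈ A := fun g g' hg hg' =>
    ⟨by simpa [h.coc] using S₀.add_mem (hg.2 _ hg'.1) hg.1,
      fun w hw => by simpa [h.mul] using hg.2 _ (hg'.2 w hw)⟩
  let H : Subgroup G :=
    { carrier := A ∩ A⁻¹
      one_mem' := by simp [hA, h.one, h.pone]
      mul_mem' := fun {g g'} hg hg' => ⟨hmul _ _ hg.1 hg'.1, by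
        rw [Set.mem_inv, mul_inv_rev]; exact hmul _ _ hg'.2 hg.2⟩
      inv_mem' := fun {g} hg => ⟨hg.2, by simpa using hg.1⟩ }
  have hH : H = ⊤ := by
    by_contra hne
    have h4 := ha H (hcl.inter hcl.inv) hne
    have h5 : μ A = 1 := (prob_compl_eq_zero_iff hcl.measurableSet).1 hae
    have h6 : ∀ᵐ g ∂μ, g ∈ A⁻¹ := (prob_compl_eq_zero_iff hcl.inv.measurableSet).2
      (by rw [← hs _ hcl.measurableSet, h5])
    exact h4.ne ((prob_compl_eq_zero_iff (hcl.inter hcl.inv).measurableSet).1 (hae.and h6))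
  refine top_le_iff.1 (le_trans ?_ h1)
  rw [← h.span, Submodule.span_le]
  rintro _ ⟨g, rfl⟩
  exact (show g ∈ H from hH ▸ trivial).1.1

end Data

section
variable [MeasurableSpace W] [BorelSpace W]

noncomputable local instance : MeasurableSpace (W →L[ℝ] W) := borel _
local instance : BorelSpace (W →L[ℝ] W) := ⟨rfl⟩

lemma Data.mπ (h : Data b π) : ∀ t, Measurable fun ω : ℕ → G => π (X t ω)
  | 0 => by simp only [X]; exact measurable_const
  | t + 1 => by
    simp only [X, h.mul]
    exact (h.mπ t).mul (h.pcont.measurable.comp (measurable_pi_apply t))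

lemma mapp : Measurable fun p : (W →L[ℝ] W) × W => p.1 p.2 :=
  (continuous_fst.clm_apply continuous_snd).measurable

lemma Data.mb (h : Data b π) : ∀ t, Measurable fun ω : ℕ → G => b (X t ω)
  | 0 => by simp only [X]; exact measurable_const
  | t + 1 => by
    have : ∀ ω : ℕ → G, b (X (t + 1) ω) = π (X t ω) (b (ω t)) + b (X t ω) := fun ω => by
      simp [h.coc, X]
    simp only [this]
    exact (mapp.comp ((h.mπ t).prodMk (h.cont.measurable.comp (measurable_pi_apply t)))).add
      (h.mb t)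

noncomputable def Ψ (b : G → W) (A : W →L[ℝ] W) (ω : ℕ → G) : ℝ≥0∞ :=
  ⨆ k, min 1 ‖A (b (X k ω))‖ₑ

lemma Data.mΨ (h : Data b π) : Measurable fun p : (W →L[ℝ] W) × (ℕ → G) => Ψ b p.1 p.2 :=
  Measurable.iSup fun k => measurable_const.min
    (mapp.comp (measurable_fst.prodMk ((h.mb k).comp measurable_snd))).enorm

lemma Data.mΨ' (h : Data b π) (A : W →L[ℝ] W) (t : ℕ) :
    Measurable fun ω : ℕ → G => Ψ b (A * π (X t ω)) (fun n => ω (t + n)) :=
  h.mΨ.comp (f := fun ω : ℕ → G => (A * π (X t ω), fun n => ω (t + n)))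
    ((measurable_const.mul (h.mπ t)).prodMk (measurable_pi_lambda _ fun _ => measurable_pi_apply _))

variable (μ : Measure G) [IsProbabilityMeasure μ]

lemma Data.split (h : Data b π) : ∀ (t : ℕ) (A : W →L[ℝ] W),
    ∫⁻ ω, Ψ b (A * π (X t ω)) (fun n => ω (t + n)) ∂iid μ =
      ∫⁻ ω, ∫⁻ ω', Ψ b (A * π (X t ω)) ω' ∂iid μ ∂iid μ
  | 0, A => by simp [X]
  | t + 1, A => by
    have hm : Measurable fun ω : ℕ → G => ∫⁻ ω', Ψ b (A * π (X (t + 1) ω)) ω' ∂iid μ :=
      h.mΨ.lintegral_prod_right'.comp (f := fun ω : ℕ → G => A * π (X (t + 1) ω))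
        (measurable_const.mul (h.mπ _))
    rw [lintegral_cons μ _ (h.mΨ' A _), lintegral_cons μ _ hm]
    refine lintegral_congr fun g => ?_
    simp only [X_cons, h.mul, ← mul_assoc, ← h.split t]
    refine lintegral_congr fun ω => ?_
    congr 1; funext n; rw [add_right_comm]; rfl

lemma Data.lower (h : Data b π) (ha : Adapted μ) (hs : Symm μ) [Nontrivial W] {δ : ℝ}
    (hδ : 0 < δ) : ∃ c : ℝ≥0∞, 0 < c ∧ ∀ A : W →L[ℝ] W, δ ≤ ‖A‖ → c ≤ ∫⁻ ω, Ψ b A ω ∂iid μ := by
  by_contra hc
  push Not at hc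
  choose A hA hN using fun n : ℕ => hc ((n : ℝ≥0∞)⁻¹) (by simp)
  have hpos : ∀ n, 0 < ‖A n‖ := fun n => hδ.trans_le (hA n)
  obtain ⟨B, hB, φ, hφ, hlim⟩ := (isCompact_sphere (0 : W →L[ℝ] W) δ).tendsto_subseq
    (x := fun n => (δ / ‖A n‖) • A n) fun n => by
      simp [norm_smul, abs_of_pos hδ, (hpos n).ne']
  have hker : ∀ k, ∀ᵐ ω ∂iid μ, b (X k ω) ∈ LinearMap.ker (B : W →ₗ[ℝ] W) := fun k => by
    have hm : ∀ C : W →L[ℝ] W, Measurable fun ω : ℕ → G => min 1 ‖C (b (X k ω))‖ₑ := fun C =>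
      measurable_const.min (C.continuous.measurable.comp (h.mb k)).enorm
    have h1 := tendsto_lintegral_of_dominated_convergence (μ := iid μ) (fun _ => 1)
      (F := fun n ω => min 1 ‖((δ / ‖A (φ n)‖) • A (φ n)) (b (X k ω))‖ₑ)
      (f := fun ω => min 1 ‖B (b (X k ω))‖ₑ) (fun n => hm _)
      (fun n => .of_forall fun ω => min_le_left _ _) (by simp) (.of_forall fun ω =>
        tendsto_const_nhds.min (((continuous_id.clm_apply continuous_const).tendsto B).comp
          hlim).enorm)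
    have h2 : ∫⁻ ω, min 1 ‖B (b (X k ω))‖ₑ ∂iid μ ≤ 0 := by
      refine le_of_tendsto_of_tendsto' h1 (ENNReal.tendsto_inv_nat_nhds_zero.comp
        hφ.tendsto_atTop) fun n => le_trans (lintegral_mono fun ω => ?_) (hN (φ n)).le
      refine le_iSup_of_le k (min_le_min_left _ ?_)
      rw [smul_apply, enorm_smul]
      refine mul_le_of_le_one_left' ?_
      rw [Real.enorm_eq_ofReal (div_pos hδ (hpos _)).le, ENNReal.ofReal_le_one]
      exact div_le_one_of_le₀ (hA _) (norm_nonneg _)
    filter_upwards [(lintegral_eq_zero_iff (hm B)).1 (le_zero_iff.1 h2)] with ω hω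
    simpa using hω
  have := LinearMap.ker_eq_top.1 (h.top μ ha hs _ hker)
  have hB0 : B = 0 := ContinuousLinearMap.coe_injective this
  simp [hB0, hδ.ne] at hB

lemma Data.half (h : Data b π) (hs : Symm μ) (t : ℕ) :
    1 ≤ 2 * iid μ {ω | 1 ≤ |(π (X t ω)).det|} := by
  have hm : Measurable fun ω : ℕ → G => |(π (X t ω)).det| :=
    (ContinuousLinearMap.continuous_det.measurable.comp (h.mπ t)).abs
  have hinv : (iid μ).map (fun ω n => (ω n)⁻¹) = iid μ := by
    have : μ.map (fun g => g⁻¹) = μ := Measure.ext fun A hA => by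
      rw [Measure.map_apply measurable_inv hA, hs A hA]; rfl
    unfold iid
    rw [Measure.infinitePi_map_pi _ fun _ => measurable_inv]
    simp only [this]
  have hdet : ∀ g g', (π (g * g')).det = (π g).det * (π g').det := fun g g' => by
    rw [h.mul]; exact LinearMap.det.map_mul _ _
  have h1 : (π 1).det = 1 := by rw [h.pone]; exact LinearMap.det.map_one
  have hd : ∀ (ω : ℕ → G) t, (π (X t ω)).det * (π (X t fun n => (ω n)⁻¹)).det = 1 := by
    intro ω t
    induction t with
    | zero => simp [X, h1]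
    | succ t ih =>
      have := hdet (ω t) (ω t)⁻¹
      rw [mul_inv_cancel, h1] at this
      simp only [X, hdet]
      linear_combination ((π (ω t)).det * (π (ω t)⁻¹).det) * ih - this
  have hS := measurableSet_le (measurable_const (a := (1 : ℝ))) hm
  rw [two_mul]
  nth_rewrite 2 [← hinv]
  rw [Measure.map_apply (by fun_prop) hS, ← measure_univ (μ := iid μ)]
  refine (measure_mono fun ω _ => ?_).trans (measure_union_le _ _)
  by_contra hc
  simp only [Set.mem_union, Set.mem_ofPred_eq, Set.mem_preimage, not_or, not_le] at hc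
  have := congrArg abs (hd ω t)
  rw [abs_mul, abs_one] at this
  nlinarith [abs_nonneg (π (X t ω)).det, abs_nonneg (π (X t fun n => (ω n)⁻¹)).det]

theorem Data.zero (h : Data b π) (ha : Adapted μ) (hs : Symm μ)
    (hc : ∀ᵐ ω ∂iid μ, CauchySeq fun t => b (X t ω)) : Subsingleton W := by
  by_contra hW
  have := not_subsingleton_iff_nontrivial.1 hW
  have hdet : ∀ᶠ A in 𝓝 (0 : W →L[ℝ] W), |A.det| < 1 :=
    ContinuousLinearMap.continuous_det.abs.continuousAt.eventually_lt continuousAt_const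
      (by simp [ContinuousLinearMap.det])
  obtain ⟨δ, hδ, hd⟩ := Metric.eventually_nhds_iff.1 hdet
  obtain ⟨c, hc0, hcA⟩ := h.lower μ ha hs hδ
  have h1 := tendsto_lintegral_of_dominated_convergence (μ := iid μ) (fun _ => 1)
    (F := fun t ω => Ψ b (1 * π (X t ω)) fun n => ω (t + n)) (f := fun _ => 0)
    (fun t => h.mΨ' 1 t)
    (fun t => .of_forall fun ω => iSup_le fun k => min_le_left _ _) (by simp)
    (hc.mono fun ω hω => by
      refine ENNReal.tendsto_nhds_zero.2 fun ε hε => ?_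
      obtain ⟨r, hr, hrε⟩ := ENNReal.lt_iff_exists_real_btwn.1 hε
      obtain ⟨N, hN⟩ := Metric.cauchySeq_iff.1 hω r (ENNReal.ofReal_pos.1 hrε.1)
      filter_upwards [eventually_ge_atTop N] with t ht
      refine iSup_le fun k => (min_le_right _ _).trans (le_trans ?_ hrε.2.le)
      rw [one_mul, h.coc, ← X_add, ← ofReal_norm, ← dist_eq_norm]
      exact ENNReal.ofReal_le_ofReal (hN _ (by omega) _ ht).le)
  simp only [h.split μ] at h1
  simp only [one_mul, lintegral_zero] at h1
  have h2 : c * 2⁻¹ ≤ 0 := ge_of_tendsto' h1 fun t => by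
    have hS : MeasurableSet {ω : ℕ → G | 1 ≤ |(π (X t ω)).det|} := measurableSet_le measurable_const
      (ContinuousLinearMap.continuous_det.measurable.comp (h.mπ t)).abs
    calc c * 2⁻¹ ≤ c * iid μ {ω | 1 ≤ |(π (X t ω)).det|} := by
          gcongr
          rw [← one_div]
          exact ENNReal.div_le_of_le_mul' (h.half μ hs t)
      _ ≤ _ := by
          rw [← lintegral_indicator_const hS]
          refine lintegral_mono fun ω => ?_
          by_cases hω : ω ∈ {ω : ℕ → G | 1 ≤ |(π (X t ω)).det|}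
          · rw [Set.indicator_of_mem hω]
            exact hcA _ (not_lt.1 fun h' => absurd (hd (by simpa using h')) (not_lt.2 hω))
          · rw [Set.indicator_of_notMem hω]; exact zero_le
  simp [hc0.ne'] at h2

end

theorem const (μ : Measure G) [IsProbabilityMeasure μ] (ha : Adapted μ) (hs : Symm μ) (f : G → ℝ)
    (hf : Continuous f) (hc : ConvRW μ f) [FiniteDimensional ℝ (orbitSpan f)] (y : G) :
    f y = f 1 := by
  have hV : ∀ h ∈ orbitSpan f, Continuous h ∧ (∀ g, (fun x => h (g * x)) ∈ orbitSpan f) ∧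
      ∀ᵐ ω ∂iid μ, ∃ l, Tendsto (fun t => h (X t ω)) atTop (𝓝 l) := by
    intro h hh
    induction hh using Submodule.span_induction with
    | mem x hx =>
      obtain ⟨γ, rfl⟩ := hx
      exact ⟨hf.comp (continuous_const_mul _), fun g =>
        Submodule.subset_span ⟨g⁻¹ * γ, by simp [mul_assoc]⟩,
        hc γ⁻¹⟩
    | zero => exact ⟨continuous_const, fun _ => Submodule.zero_mem _,
        .of_forall fun _ => ⟨_, tendsto_const_nhds⟩⟩
    | add x y _ _ hx hy => exact ⟨hx.1.add hy.1, fun g =>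
        Submodule.add_mem _ (hx.2.1 g) (hy.2.1 g), (hx.2.2.and hy.2.2).mono
          fun ω ⟨⟨_, h⟩, _, h'⟩ => ⟨_, h.add h'⟩⟩
    | smul a x _ hx => exact ⟨hx.1.const_smul a, fun g => Submodule.smul_mem _ a (hx.2.1 g),
        hx.2.2.mono fun ω ⟨_, h⟩ => ⟨_, h.const_smul a⟩⟩
  set d := Module.finrank ℝ (orbitSpan f)
  set β := Module.finBasis ℝ (orbitSpan f)
  set e : G → Fin d → ℝ := fun g i => (β i).1 g with he
  have hrep : ∀ (v : orbitSpan f) x, v.1 x = ∑ i, β.repr v i * e x i := fun v x => by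
    have := congrFun (congrArg Subtype.val (β.sum_repr v)) x
    rw [Submodule.coe_sum, Finset.sum_apply] at this
    exact this.symm
  set T : G → (Fin d → ℝ) →ₗ[ℝ] (Fin d → ℝ) := fun g =>
    Matrix.toLin' (Matrix.of fun j i => β.repr ⟨_, (hV _ (β j).2).2.1 g⟩ i) with hT
  have hTe : ∀ g x, T g (e x) = e (g * x) := fun g x => by
    funext j
    simpa [hT, Matrix.mulVec, dotProduct] using (hrep ⟨_, (hV _ (β j).2).2.1 g⟩ x).symm
  set W := Submodule.span ℝ (Set.range fun x => e x - e 1) with hW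
  have hmem : ∀ x, e x - e 1 ∈ W := fun x => Submodule.subset_span ⟨x, rfl⟩
  have hinv : ∀ g, ∀ w ∈ W, T g w ∈ W := fun g => by
    change W ≤ W.comap (T g)
    rw [hW, Submodule.span_le]
    rintro _ ⟨x, rfl⟩
    simpa [hTe] using W.sub_mem (hmem (g * x)) (hmem g)
  have hec : Continuous e := continuous_pi fun i => (hV _ (β i).2).1
  have hD : Data (fun x => (⟨e x - e 1, hmem x⟩ : W))
      (fun g => LinearMap.toContinuousLinearMap ((T g).restrict (hinv g))) :=
    ⟨(hec.sub continuous_const).subtype_mk _, by simp,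
      (Submodule.span_range_subtype_eq_top_iff W hmem).2 rfl,
      fun g x => Subtype.ext (by simp [hTe])⟩
  have := hD.zero μ ha hs (by
    filter_upwards [ae_all_iff.2 fun i => (hV _ (β i).2).2.2] with ω hω
    choose l hl using hω
    have h1 := Metric.cauchySeq_iff.1 ((tendsto_pi_nhds.2 hl).sub_const (e 1)).cauchySeq
    exact Metric.cauchySeq_iff.2 h1)
  have h0 : e y = e 1 := sub_eq_zero.1 (congrArg Subtype.val
    (Subsingleton.elim (⟨_, hmem y⟩ : W) 0))
  have hf' : f ∈ orbitSpan f := Submodule.subset_span ⟨1, by simp⟩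
  exact (hrep ⟨f, hf'⟩ y).trans (h0 ▸ (hrep ⟨f, hf'⟩ 1).symm)

end Pool.Agent.H45.Coc
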