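import Mathlib

/-! Random walks on topological groups. -/

open MeasureTheory Filter Topology

namespace Pool.Agent.H45.Coc

variable {G : Type} [Group G]

/-- The walk `X₀ = 1`, `X_{t+1} = X_t U_{t+1}` with increments `ω 0, ω 1, …`. -/
def X : ℕ → (ℕ → G) → G
  | 0, _ => 1
  | t + 1, ω => X t ω * ω t

variable [TopologicalSpace G] [MeasurableSpace G]

/-- `μ(H) < 1` for every proper closed subgroup `H`. -/
def Adapted (μ : Measure G) : Prop := ∀ H : Subgroup G, IsClosed (H : Set G) → H ≠ ⊤ → μ H < 1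

/-- `μ(A) = μ(A⁻¹)`. -/
def Symm (μ : Measure G) : Prop := ∀ A, MeasurableSet A → μ A = μ A⁻¹

/-- `f` converges along `μ`-random walks (i.i.d. increments of law `μ`). -/
def ConvRW (μ : Measure G) (f : G → ℝ) : Prop :=
  ∀ x, ∀ᵐ ω ∂(Measure.infinitePi fun _ : ℕ => μ), ∃ l, Tendsto (fun t => f (x * X t ω)) atTop (𝓝 l)

/-- The span of the orbit `γ.f = f(γ⁻¹ ·)`. -/
def orbitSpan (f : G → ℝ) : Submodule ℝ (G → ℝ) :=
  Submodule.span ℝ (Set.range fun γ : G => fun x => f (γ⁻¹ * x))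

end Pool.Agent.H45.Coc
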