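import Mathlib

/-! Two-outcome processes driven by iid uniform variables. -/

set_option maxHeartbeats 400000

open MeasureTheory Set
open scoped ENNReal

namespace Pool.Agent.H45.Coin

/-- uniform law on the unit interval -/
noncomputable def unif : Measure ℝ := volume.restrict (Icc (0 : ℝ) 1)

instance : IsProbabilityMeasure unif := ⟨by simp [unif]⟩

/-- iid uniforms -/
noncomputable def iidU : Measure (ℕ → ℝ) := Measure.infinitePi fun _ : ℕ => unif

instance : IsProbabilityMeasure iidU := by unfold iidU; infer_instance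

/-- prepend -/
def cons (a : ℝ) (u : ℕ → ℝ) : ℕ → ℝ
  | 0 => a
  | n + 1 => u n

lemma measurable_cons : Measurable fun p : ℝ × (ℕ → ℝ) => cons p.1 p.2 := by
  refine measurable_pi_lambda _ fun n => ?_
  cases n with
  | zero => exact measurable_fst
  | succ n => exact (measurable_pi_apply n).comp measurable_snd

lemma map_cons : (unif.prod iidU).map (fun p : ℝ × (ℕ → ℝ) => cons p.1 p.2) = iidU := by
  classical
  unfold iidU
  refine Measure.eq_infinitePi _ fun s t ht => ?_
  rw [Measure.map_apply measurable_cons (MeasurableSet.pi s.countable_toSet fun i _ => ht i)]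
  have e : (fun p : ℝ × (ℕ → ℝ) => cons p.1 p.2) ⁻¹' (Set.pi (s : Set ℕ) t) =
      (if 0 ∈ s then t 0 else univ) ×ˢ
        (Set.pi ((s.preimage Nat.succ Nat.succ_injective.injOn : Finset ℕ) : Set ℕ)
          fun i => t (i + 1)) := by
    ext ⟨a, u⟩
    simp only [mem_preimage, Set.mem_pi, Finset.mem_coe, mem_prod, Finset.mem_preimage]
    constructor
    · intro h
      refine ⟨?_, fun i hi => h (i + 1) hi⟩
      split_ifs with h0
      · exact h 0 h0
      · trivial
    · rintro ⟨h1, h2⟩ i hi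
      cases i with
      | zero => rw [if_pos hi] at h1; exact h1
      | succ i => exact h2 i hi
  rw [e, Measure.prod_prod, Measure.infinitePi_pi _ fun i _ => ht (i + 1)]
  have e2 : ∏ i ∈ s.preimage Nat.succ Nat.succ_injective.injOn, unif (t (i + 1)) =
      ∏ i ∈ s.erase 0, unif (t i) := by
    refine Finset.prod_bij (fun i _ => i + 1) ?_ ?_ ?_ ?_
    · intro i hi
      simpa using hi
    · intro i _ j _ h
      omega
    · intro j hj
      rw [Finset.mem_erase] at hj
      obtain ⟨i, rfl⟩ := Nat.exists_eq_succ_of_ne_zero hj.1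
      exact ⟨i, by simpa using hj.2, rfl⟩
    · intro i _; rfl
  rw [e2]
  split_ifs with h0
  · exact Finset.mul_prod_erase s (fun i => unif (t i)) h0
  · rw [Finset.erase_eq_of_notMem h0]; simp

lemma lintegral_cons (f : (ℕ → ℝ) → ℝ≥0∞) (hf : Measurable f) :
    ∫⁻ u, f u ∂iidU = ∫⁻ a, ∫⁻ u, f (cons a u) ∂iidU ∂unif := by
  conv_lhs => rw [← map_cons]
  rw [lintegral_map hf measurable_cons]
  exact lintegral_prod (fun p : ℝ × (ℕ → ℝ) => f (cons p.1 p.2))
    (hf.comp measurable_cons).aemeasurable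

lemma unif_Iio (p : ℝ) (_h0 : 0 ≤ p) (h1 : p ≤ 1) : unif (Iio p) = ENNReal.ofReal p := by
  rw [unif, Measure.restrict_apply measurableSet_Iio]
  have : Iio p ∩ Icc (0 : ℝ) 1 = Ico 0 p := by
    ext x
    simp only [mem_inter_iff, mem_Iio, mem_Icc, mem_Ico]
    constructor
    · rintro ⟨a, b, _⟩; exact ⟨b, a⟩
    · rintro ⟨a, b⟩; exact ⟨b, a, by linarith⟩
  rw [this]; simp

lemma unif_Ici (p : ℝ) (h0 : 0 ≤ p) (_h1 : p ≤ 1) : unif (Iio p)ᶜ = ENNReal.ofReal (1 - p) := by
  rw [unif, Measure.restrict_apply measurableSet_Iio.compl]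
  have : (Iio p)ᶜ ∩ Icc (0 : ℝ) 1 = Icc p 1 := by
    ext x
    simp only [mem_inter_iff, mem_compl_iff, mem_Iio, mem_Icc, not_lt]
    constructor
    · rintro ⟨a, _, c⟩; exact ⟨a, c⟩
    · rintro ⟨a, b⟩; exact ⟨a, by linarith, b⟩
  rw [this]; simp

lemma ae_mem : ∀ᵐ u ∂iidU, ∀ n, 0 ≤ u n ∧ u n < 1 := by
  rw [ae_all_iff]
  intro n
  have h : ∀ᵐ a ∂unif, 0 ≤ a ∧ a < 1 := by
    have h1 : ∀ᵐ a ∂unif, a ∈ Icc (0 : ℝ) 1 := ae_restrict_mem measurableSet_Icc
    have h2 : ∀ᵐ a ∂unif, a ≠ 1 := by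
      rw [ae_iff]
      have : {a : ℝ | ¬a ≠ 1} = {1} := by ext; simp
      rw [this, unif, Measure.restrict_apply (measurableSet_singleton _)]
      exact measure_mono_null inter_subset_left (by simp)
    filter_upwards [h1, h2] with a ha hb
    exact ⟨ha.1, lt_of_le_of_ne ha.2 hb⟩
  exact (measurePreserving_eval_infinitePi (fun _ : ℕ => unif) n).quasiMeasurePreserving.ae h

variable {S : Type} (p : S → ℝ) (R L : S → S)

/-- the process -/
noncomputable def run (s : S) (u : ℕ → ℝ) : ℕ → S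
  | 0 => s
  | n + 1 => if u n < p (run s u n) then R (run s u n) else L (run s u n)

lemma run_cons (s : S) (a : ℝ) (u : ℕ → ℝ) (n : ℕ) :
    run p R L s (cons a u) (n + 1) = run p R L (if a < p s then R s else L s) u n := by
  induction n with
  | zero => rfl
  | succ n ih =>
    rw [run, ih]
    rfl

lemma cons_eta (u : ℕ → ℝ) : u = cons (u 0) fun n => u (n + 1) := by
  funext n; cases n <;> rfl

lemma measurable_run (n : ℕ) : ∀ (s : S) (f : S → ℝ≥0∞),
    Measurable fun u => f (run p R L s u n) := by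
  induction n with
  | zero => intro s f; exact (measurable_const : Measurable fun _ : ℕ → ℝ => f s)
  | succ n ih =>
    intro s f
    have e : (fun u => f (run p R L s u (n + 1))) = fun u : ℕ → ℝ =>
        if u 0 < p s then f (run p R L (R s) (fun k => u (k + 1)) n)
        else f (run p R L (L s) (fun k => u (k + 1)) n) := by
      funext u
      conv_lhs => rw [cons_eta u, run_cons]
      split_ifs <;> rfl
    rw [e]
    have hs : Measurable fun (u : ℕ → ℝ) (k : ℕ) => u (k + 1) :=
      measurable_pi_lambda _ fun k => measurable_pi_apply _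
    exact Measurable.ite (measurableSet_lt (measurable_pi_apply 0) measurable_const)
      ((ih _ f).comp hs) ((ih _ f).comp hs)

lemma lintegral_run (hp : ∀ s, 0 ≤ p s ∧ p s ≤ 1) (s : S) (f : S → ℝ≥0∞) (n : ℕ) :
    ∫⁻ u, f (run p R L s u (n + 1)) ∂iidU =
      ENNReal.ofReal (p s) * ∫⁻ u, f (run p R L (R s) u n) ∂iidU +
      ENNReal.ofReal (1 - p s) * ∫⁻ u, f (run p R L (L s) u n) ∂iidU := by
  rw [lintegral_cons _ (measurable_run p R L _ s f)]
  simp only [run_cons]
  have e : (fun a => ∫⁻ u, f (run p R L (if a < p s then R s else L s) u n) ∂iidU) = fun a =>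
      (Iio (p s)).indicator (fun _ => ∫⁻ u, f (run p R L (R s) u n) ∂iidU) a +
      (Iio (p s))ᶜ.indicator (fun _ => ∫⁻ u, f (run p R L (L s) u n) ∂iidU) a := by
    funext a
    by_cases h : a < p s
    · simp [h, indicator, not_le.2 h]
    · simp [h, indicator]
  rw [e, lintegral_add_left (measurable_const.indicator measurableSet_Iio),
    lintegral_indicator_const measurableSet_Iio,
    lintegral_indicator_const measurableSet_Iio.compl, unif_Iio _ (hp s).1 (hp s).2,
    unif_Ici _ (hp s).1 (hp s).2, mul_comm, mul_comm (ENNReal.ofReal (1 - p s))]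

lemma super (hp : ∀ s, 0 ≤ p s ∧ p s ≤ 1) (φ ψ : S → ℝ≥0∞)
    (h : ∀ s, ENNReal.ofReal (p s) * (φ (R s) + ψ (R s)) +
      ENNReal.ofReal (1 - p s) * (φ (L s) + ψ (L s)) ≤ φ s) (n : ℕ) :
    ∀ s, ∑ k ∈ Finset.range n, ∫⁻ u, ψ (run p R L s u (k + 1)) ∂iidU ≤ φ s := by
  induction n with
  | zero => intro s; simp
  | succ n ih =>
    intro s
    rw [Finset.sum_range_succ']
    simp only [lintegral_run p R L hp s ψ]
    rw [Finset.sum_add_distrib, ← Finset.mul_sum, ← Finset.mul_sum]
    refine le_trans ?_ (h s)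
    have h1 := ih (R s)
    have h2 := ih (L s)
    have r0 : ∀ (t : S) (u : ℕ → ℝ), run p R L t u 0 = t := fun _ _ => rfl
    simp only [r0, lintegral_const, measure_univ, mul_one]
    calc _ ≤ ENNReal.ofReal (p s) * φ (R s) + ENNReal.ofReal (1 - p s) * φ (L s) +
          (ENNReal.ofReal (p s) * ψ (R s) + ENNReal.ofReal (1 - p s) * ψ (L s)) := by
          gcongr
      _ = _ := by ring

lemma hit_le (hp : ∀ s, 0 ≤ p s ∧ p s ≤ 1) (φ : S → ℝ≥0∞) (A : Set S)
    (h : ∀ s, ENNReal.ofReal (p s) * (φ (R s) + A.indicator 1 (R s)) +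
      ENNReal.ofReal (1 - p s) * (φ (L s) + A.indicator 1 (L s)) ≤ φ s) (s : S) :
    iidU {u | ∃ k, run p R L s u (k + 1) ∈ A} ≤ φ s := by
  have e : {u | ∃ k, run p R L s u (k + 1) ∈ A} = ⋃ k, {u | run p R L s u (k + 1) ∈ A} := by
    ext; simp
  rw [e]
  refine (measure_iUnion_le _).trans ?_
  rw [ENNReal.tsum_eq_iSup_nat]
  refine iSup_le fun n => le_trans (Finset.sum_le_sum fun k _ => ?_) (super p R L hp φ _ h n s)
  have hm := measurable_run p R L (k + 1) s (A.indicator 1)
  have hs : {u | run p R L s u (k + 1) ∈ A} =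
      (fun u => A.indicator (1 : S → ℝ≥0∞) (run p R L s u (k + 1))) ⁻¹' {1} := by
    ext u
    by_cases hu : run p R L s u (k + 1) ∈ A <;> simp [hu]
  have hM : MeasurableSet {u | run p R L s u (k + 1) ∈ A} := by
    rw [hs]; exact hm (measurableSet_singleton _)
  rw [← lintegral_indicator_one hM]
  exact le_of_eq rfl

end Pool.Agent.H45.Coin
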