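import Mathlib

set_option maxHeartbeats 400000

open SimpleGraph

namespace Pool.Agent.H45.ConnDec

variable {V : Type} (enc : V → ℕ)

def mk (l : List (V × V)) : SimpleGraph V := fromEdgeSet {e | ∃ p ∈ l, e = s(p.1, p.2)}

def stp (S : ℕ) (e : V × V) : ℕ :=
  if S.testBit (enc e.1) || S.testBit (enc e.2) then S ||| (2 ^ enc e.1 ||| 2 ^ enc e.2) else S

def pass (l : List (V × V)) (S : ℕ) : ℕ := l.foldl (stp enc) S

def reach (n : ℕ) (l : List (V × V)) (v : V) : ℕ := (pass enc l)^[n] (2 ^ enc v)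

variable {enc}

lemma mk_adj {l : List (V × V)} {u w : V} :
    (mk l).Adj u w ↔ ((u, w) ∈ l ∨ (w, u) ∈ l) ∧ u ≠ w := by
  simp only [mk, fromEdgeSet_adj, Set.mem_ofPred_eq]
  refine and_congr_left fun _ => ⟨?_, ?_⟩
  · rintro ⟨p, hp, h⟩
    rcases Sym2.eq_iff.1 h with ⟨rfl, rfl⟩ | ⟨rfl, rfl⟩
    exacts [.inl hp, .inr hp]
  · rintro (h | h)
    exacts [⟨_, h, rfl⟩, ⟨_, h, Sym2.eq_swap⟩]

lemma stp_mono {S i : ℕ} (e : V × V) (h : S.testBit i) : (stp enc S e).testBit i := by
  unfold stp; split_ifs <;> simp [h]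

lemma pass_mono (l : List (V × V)) {S i : ℕ} (h : S.testBit i) : (pass enc l S).testBit i := by
  induction l generalizing S with
  | nil => exact h
  | cons e l ih => exact ih (stp_mono e h)

lemma pass_adj (l : List (V × V)) {S : ℕ} {u w : V} (h : S.testBit (enc u))
    (ha : (u, w) ∈ l ∨ (w, u) ∈ l) : (pass enc l S).testBit (enc w) := by
  induction l generalizing S with
  | nil => simp at ha
  | cons e l ih =>
    by_cases h1 : (u, w) ∈ l ∨ (w, u) ∈ l
    · exact ih (stp_mono e h) h1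
    · refine pass_mono l (S := stp enc S e) ?_
      have : e = (u, w) ∨ e = (w, u) := by simp only [List.mem_cons] at ha; tauto
      rcases this with rfl | rfl <;> simp [stp, h]

lemma pass_sound (hi : enc.Injective) (G : SimpleGraph V) (v : V) (l : List (V × V))
    (hl : ∀ e ∈ l, G.Reachable e.1 e.2) {S : ℕ} (h : ∀ u, S.testBit (enc u) → G.Reachable v u) :
    ∀ u, (pass enc l S).testBit (enc u) → G.Reachable v u := by
  induction l generalizing S with
  | nil => exact h
  | cons e l ih =>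
    refine ih (fun e he => hl e (by simp [he])) fun u hu => ?_
    have he := hl e (by simp)
    unfold stp at hu
    split_ifs at hu with hc
    · have h1 : G.Reachable v e.1 := by
        rcases Bool.or_eq_true_iff.1 hc with h1 | h1
        exacts [h _ h1, (h _ h1).trans he.symm]
      simp only [Nat.testBit_or, Nat.testBit_two_pow, Bool.or_eq_true, decide_eq_true_eq] at hu
      rcases hu with hu | hu | hu
      exacts [h _ hu, hi hu ▸ h1, hi hu ▸ h1.trans he]
    · exact h _ hu

theorem reach_iff [Fintype V] (hi : enc.Injective) {n : ℕ} (hn : Fintype.card V ≤ n + 1)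
    (l : List (V × V)) (v u : V) : (reach enc n l v).testBit (enc u) ↔ (mk l).Reachable v u := by
  classical
  constructor
  · revert u
    unfold reach
    clear hn
    induction n with
    | zero => intro u hu; simp only [Function.iterate_zero, id, Nat.testBit_two_pow,
        decide_eq_true_eq] at hu; exact hi hu ▸ .refl _
    | succ n ih =>
      rw [Function.iterate_succ_apply']
      refine pass_sound hi _ v l (fun e he => ?_) ih
      by_cases h : e.1 = e.2
      · exact h ▸ .refl _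
      · exact Adj.reachable (mk_adj.2 ⟨.inl he, h⟩)
  · intro h
    obtain ⟨p, hp⟩ := h.exists_isPath
    have h1 : ∀ {a b : V} (p : (mk l).Walk a b) (S : ℕ), S.testBit (enc a) →
        ((pass enc l)^[p.length] S).testBit (enc b) := by
      intro a b p
      induction p with
      | nil => exact fun _ h => h
      | cons h p ih => exact fun S hS => ih _ (pass_adj l hS (mk_adj.1 h).1)
    have h2 : ∀ k S i, Nat.testBit S i → ((pass enc l)^[k] S).testBit i := by
      intro k
      induction k with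
      | zero => exact fun _ _ h => h
      | succ k ih => exact fun S i h => ih _ _ (pass_mono l h)
    obtain ⟨k, rfl⟩ : ∃ k, n = k + p.length := ⟨n - p.length, by have := hp.length_lt; omega⟩
    unfold reach
    rw [Function.iterate_add_apply]
    exact h2 _ _ _ (h1 p _ (by simp))

theorem conn_iff [Fintype V] (hi : enc.Injective) {n : ℕ} (hn : Fintype.card V ≤ n + 1)
    (l : List (V × V)) (v : V) :
    (mk l).Connected ↔ ∀ u, (reach enc n l v).testBit (enc u) := by
  simp only [reach_iff hi hn]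
  have : Nonempty V := ⟨v⟩
  exact ⟨fun h u => h v u, fun h => ⟨fun a b => (h a).symm.trans (h b)⟩⟩

/-- a list of oriented edges without loops, repeats or opposite pairs -/
def Ok (l : List (V × V)) : Prop := l.Nodup ∧ ∀ p ∈ l, p.1 ≠ p.2 ∧ (p.2, p.1) ∉ l

lemma Ok.sub {l l' : List (V × V)} (h : Ok l) (hs : l'.Sublist l) : Ok l' :=
  ⟨h.1.sublist hs, fun p hp => ⟨(h.2 p (hs.subset hp)).1, fun h' => (h.2 p (hs.subset hp)).2 (hs.subset h')⟩⟩

lemma Ok.adj {l l' : List (V × V)} (h : Ok l) (hs : l'.Sublist l) {p : V × V} (hp : p ∈ l) :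
    (mk l').Adj p.1 p.2 ↔ p ∈ l' := by
  rw [mk_adj]
  exact ⟨fun h' => h'.1.resolve_right fun h'' => (h.2 p hp).2 (hs.subset h''),
    fun h' => ⟨.inl h', (h.2 p hp).1⟩⟩

lemma Ok.ncard {l : List (V × V)} (h : Ok l) : (mk l).edgeSet.ncard = l.length := by
  classical
  have : (mk l).edgeSet = ((l.map fun p => s(p.1, p.2)).toFinset : Set _) := by
    ext e
    simp only [mk, edgeSet_fromEdgeSet, Set.mem_sdiff, Set.mem_ofPred_eq, List.coe_toFinset,
      List.mem_map, Sym2.mem_diagSet]
    exact ⟨fun ⟨⟨p, hp, he⟩, _⟩ => ⟨p, hp, he.symm⟩,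
      fun ⟨p, hp, he⟩ => ⟨⟨p, hp, he.symm⟩, by simpa [← he] using (h.2 p hp).1⟩⟩
  rw [this, Set.ncard_coe_finset, List.toFinset_card_of_nodup, List.length_map]
  refine h.1.map_on fun p hp q hq he => ?_
  rcases Sym2.eq_iff.1 he with ⟨h1, h2⟩ | ⟨h1, h2⟩
  · exact Prod.ext h1 h2
  · exact absurd (show (p.2, p.1) ∈ l by rwa [h1, h2]) (h.2 p hp).2

lemma surj {l : List (V × V)} {H : SimpleGraph V} (hH : H ≤ mk l) :
    ∃ l', l'.Sublist l ∧ mk l' = H := by
  classical
  refine ⟨l.filter fun p => H.Adj p.1 p.2, List.filter_sublist, ?_⟩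
  ext u w
  simp only [mk_adj, List.mem_filter, decide_eq_true_eq]
  refine ⟨fun h => h.1.elim (·.2) (·.2.symm), fun h => ⟨?_, h.ne⟩⟩
  exact (mk_adj.1 (hH h)).1.imp (⟨·, h⟩) (⟨·, h.symm⟩)

theorem Ok.count {l : List (V × V)} (h : Ok l) (j : ℕ) (Q : SimpleGraph V → Prop)
    (q : List (V × V) → Bool) (hq : ∀ l', l'.Sublist l → (Q (mk l') ↔ q l')) :
    {H | H ≤ mk l ∧ H.edgeSet.ncard = j ∧ Q H}.ncard = (l.sublistsLen j).countP q := by
  classical
  have : {H | H ≤ mk l ∧ H.edgeSet.ncard = j ∧ Q H} =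
      ((((l.sublistsLen j).filter q).map mk).toFinset : Set _) := by
    ext H
    simp only [Set.mem_ofPred_eq, List.coe_toFinset, List.mem_map, List.mem_filter,
      List.mem_sublistsLen]
    constructor
    · rintro ⟨h1, h2, h3⟩
      obtain ⟨l', hs, rfl⟩ := surj h1
      exact ⟨l', ⟨⟨hs, by rw [← h2, (h.sub hs).ncard]⟩, (hq _ hs).1 h3⟩, rfl⟩
    · rintro ⟨l', ⟨⟨hs, h2⟩, h3⟩, rfl⟩
      refine ⟨fun u w h' => ?_, by rw [(h.sub hs).ncard, h2], (hq _ hs).2 h3⟩
      rw [mk_adj] at h' ⊢
      exact ⟨h'.1.imp (hs.subset ·) (hs.subset ·), h'.2⟩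
  rw [this, Set.ncard_coe_finset, List.toFinset_card_of_nodup, List.length_map,
    List.countP_eq_length_filter]
  refine ((List.nodup_sublistsLen j h.1).filter _).map_on fun a ha b hb he => ?_
  have ha := (List.mem_sublistsLen.1 (List.mem_filter.1 ha).1).1
  have hb := (List.mem_sublistsLen.1 (List.mem_filter.1 hb).1).1
  refine (List.Nodup.perm_iff_eq_of_sublist h.1 ha hb).1 ((List.perm_ext_iff_of_nodup (h.1.sublist ha) (h.1.sublist hb)).2
    fun p => ⟨fun hp => ?_, fun hp => ?_⟩)
  · rwa [← h.adj hb (ha.subset hp), ← he, h.adj ha (ha.subset hp)]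
  · rwa [← h.adj ha (hb.subset hp), he, h.adj hb (hb.subset hp)]

end Pool.Agent.H45.ConnDec
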