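import Pool.Agent.H45.ConnDec

set_option maxHeartbeats 400000

open SimpleGraph Classical

namespace Pool.Agent.H45.ConnDec

noncomputable def frc (S : ℕ) (f : ℕ → ℕ) : ℕ :=
  @Nat.rec (fun _ => ℕ) (f 0) (fun n _ => f (Nat.succ n)) S

noncomputable def ps (l : List ℕ) : ℕ → ℕ :=
  @List.rec ℕ (fun _ => ℕ → ℕ) (fun S => S) (fun m _ ih S => @Bool.rec (fun _ => ℕ)
    (frc (Nat.lor S m) ih) (ih S) (Nat.beq (Nat.land S m) 0)) l

noncomputable def it (l : List ℕ) (k : ℕ) : ℕ → ℕ :=
  @Nat.rec (fun _ => ℕ → ℕ) (fun S => S) (fun _ ih S => frc (ps l S) fun S' =>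
    @Bool.rec (fun _ => ℕ) (ih S') S (Nat.beq S' S)) k

noncomputable def cnt (c : List ℕ → Bool) (t : List ℕ) : ℕ → List ℕ → ℕ :=
  @List.rec ℕ (fun _ => ℕ → List ℕ → ℕ)
    (fun j acc => @Bool.rec (fun _ => ℕ) 0 (@Bool.rec (fun _ => ℕ) 0 1 (c acc)) (Nat.beq j 0))
    (fun m _ ih j acc => @Nat.rec (fun _ => ℕ) (ih 0 acc)
      (fun j' _ => Nat.add (ih (Nat.succ j') acc) (ih j' (m :: acc))) j) t

lemma frc_eq (S : ℕ) (f : ℕ → ℕ) : frc S f = f S := by cases S <;> rfl

variable {V : Type} (enc : V → ℕ)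

def mask (e : V × V) : ℕ := 2 ^ enc e.1 ||| 2 ^ enc e.2

lemma ps_eq (l : List (V × V)) (S : ℕ) : ps (l.map (mask enc)) S = pass enc l S := by
  induction l generalizing S with
  | nil => rfl
  | cons e l ih =>
    change @Bool.rec (fun _ => ℕ) (frc (S ||| mask enc e) (ps (l.map (mask enc))))
      (ps (l.map (mask enc)) S) (Nat.beq (S &&& mask enc e) 0) = pass enc l (stp enc S e)
    have : Nat.beq (S &&& mask enc e) 0 = !(S.testBit (enc e.1) || S.testBit (enc e.2)) := by
      rw [Bool.eq_iff_iff, Nat.beq_eq, mask, Nat.and_or_distrib_left, Nat.or_eq_zero_iff,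
        Nat.and_two_pow, Nat.and_two_pow]
      cases S.testBit (enc e.1) <;> cases S.testBit (enc e.2) <;> simp
    rw [this, frc_eq, ih, ih, stp]
    cases (S.testBit (enc e.1) || S.testBit (enc e.2)) <;> rfl

lemma it_eq (l : List ℕ) (k S : ℕ) : it l k S = (ps l)^[k] S := by
  induction k generalizing S with
  | zero => rfl
  | succ k ih =>
    change frc (ps l S) (fun S' => @Bool.rec (fun _ => ℕ) (it l k S') S (Nat.beq S' S)) = _
    rw [frc_eq]
    cases h : Nat.beq (ps l S) S
    · exact ih _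
    · exact (Function.iterate_fixed (Nat.eq_of_beq_eq_true h) _).symm

lemma it_reach (n : ℕ) (l : List (V × V)) (v : V) :
    it (l.map (mask enc)) n (2 ^ enc v) = reach enc n l v := by
  rw [it_eq, reach, funext (ps_eq enc l)]

lemma reach_bits (n : ℕ) (l : List (V × V)) (v : V) (i : ℕ) (h : (reach enc n l v).testBit i) :
    ∃ u, enc u = i := by
  have h1 : ∀ (l : List (V × V)) S, (∀ i, Nat.testBit S i → ∃ u, enc u = i) →
      ∀ i, (pass enc l S).testBit i → ∃ u, enc u = i := by
    intro l
    induction l with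
    | nil => exact fun _ h => h
    | cons e l ih =>
      refine fun S h => ih _ fun i hi => ?_
      unfold stp at hi
      split_ifs at hi
      · simp only [Nat.testBit_or, Nat.testBit_two_pow, Bool.or_eq_true, decide_eq_true_eq] at hi
        rcases hi with hi | hi | hi
        exacts [h _ hi, ⟨_, hi⟩, ⟨_, hi⟩]
      · exact h _ hi
  exact Function.Iterate.rec (f := pass enc l) (fun S => ∀ i, Nat.testBit S i → ∃ u, enc u = i)
    (fun i hi => ⟨v, by simpa [Nat.testBit_two_pow] using hi⟩) (h1 l) n i h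

variable {enc}

lemma conn_iff' [Fintype V] (hi : enc.Injective) {n : ℕ} (hn : Fintype.card V = n + 1)
    (hb : ∀ u, enc u < n + 1) (l : List (V × V)) (v : V) :
    (mk l).Connected ↔ Nat.beq (it (l.map (mask enc)) n (2 ^ enc v)) (2 ^ (n + 1) - 1) := by
  rw [conn_iff hi hn.le l v, it_reach, Nat.beq_eq]
  refine ⟨fun H => Nat.eq_of_testBit_eq fun i => ?_, fun H u => by simpa [H] using hb u⟩
  rw [Nat.testBit_two_pow_sub_one, Bool.eq_iff_iff, decide_eq_true_eq]
  refine ⟨fun h => ?_, fun h => ?_⟩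
  · obtain ⟨u, rfl⟩ := reach_bits enc n l v i h
    exact hb u
  · have : Function.Bijective fun u => (⟨enc u, hb u⟩ : Fin (n + 1)) :=
      (Fintype.bijective_iff_injective_and_card _).2
        ⟨fun a b h => hi (congrArg Fin.val h), by simp [hn]⟩
    obtain ⟨u, hu⟩ := this.2 ⟨i, h⟩
    have hu' : enc u = i := congrArg Fin.val hu
    exact hu' ▸ H u

lemma mk_congr {l l' : List (V × V)} (h : ∀ p, p ∈ l ↔ p ∈ l') : mk l = mk l' := by
  simp only [mk, h]

lemma cnt_eq (Q : SimpleGraph V → Prop) (c : List ℕ → Bool)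
    (hc : ∀ l, Q (mk l) ↔ c (l.map (mask enc))) (t : List (V × V)) (j : ℕ) (acc : List (V × V)) :
    cnt c (t.map (mask enc)) j (acc.map (mask enc)) =
      (t.sublistsLen j).countP fun l => decide (Q (mk (acc ++ l))) := by
  induction t generalizing j acc with
  | nil =>
    cases j
    · change @Bool.rec (fun _ => ℕ) 0 1 (c (acc.map (mask enc))) = _
      have := hc acc
      cases h : c (acc.map (mask enc)) <;> simp_all
    · simp only [List.sublistsLen_succ_nil]; rfl
  | cons e t ih =>
    cases j with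
    | zero =>
      change cnt c (t.map (mask enc)) 0 (acc.map (mask enc)) = _
      simpa using ih 0 acc
    | succ j =>
      change cnt c (t.map (mask enc)) (j + 1) (acc.map (mask enc)) +
        cnt c (t.map (mask enc)) j ((e :: acc).map (mask enc)) = _
      rw [ih, ih, List.sublistsLen_succ_cons, List.countP_append, List.countP_map]
      congr 2
      funext l
      simp only [Function.comp]
      rw [mk_congr (l' := acc ++ e :: l) fun p => by simp [or_left_comm]]

end Pool.Agent.H45.ConnDec
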