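import Pool.Agent.H45.HitDefs
import Pool.Agent.H45.SRWDefs

set_option autoImplicit false

namespace Pool.Agent.H45.Chain

open MeasureTheory ProbabilityTheory
open scoped ENNReal

variable {V : Type} [MeasurableSpace V]

/-- Largest expected hitting time. -/
noncomputable def maxHit (K : Kernel V V) [IsMarkovKernel K] : ℝ≥0∞ :=
  ⨆ u, ⨆ v, hitTime K u v

/-- Largest expected cover time of a single walk. -/
noncomputable def maxCover (K : Kernel V V) [IsMarkovKernel K] : ℝ≥0∞ :=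
  ⨆ u, ∫⁻ x, ⨅ (t : ℕ) (_ : ∀ v, ∃ s ≤ t, x s = v), (t : ℝ≥0∞) ∂pathLaw K u

/-- Expected cover time of `k` independent walks started at `us 0, ..., us (k-1)`. -/
noncomputable def jointCover (K : Kernel V V) [IsMarkovKernel K] {k : ℕ} (us : Fin k → V) : ℝ≥0∞ :=
  ∫⁻ xs, ⨅ (t : ℕ) (_ : ∀ v, ∃ i, ∃ s ≤ t, xs i s = v), (t : ℝ≥0∞)
    ∂Measure.pi (fun i => pathLaw K (us i))

end Pool.Agent.H45.Chain
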