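import Pool.Agent.H45.Hit
import Pool.Agent.H45.CoverDefs

set_option autoImplicit false
set_option maxHeartbeats 400000

namespace Pool.Agent.H45.Chain

open MeasureTheory ProbabilityTheory Finset Filter Topology
open scoped ENNReal

variable {V : Type} [MeasurableSpace V]

/-- averaging operator -/
noncomputable def Pr [Fintype V] (K : Kernel V V) (f : V → ℝ) (w : V) : ℝ :=
  ∑ w', (K w {w'}).toReal * f w'

lemma srw_apply [Countable V] [MeasurableSingletonClass V] [DecidableEq V] (G : SimpleGraph V)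
    (v : V) [Fintype (G.neighborSet v)] (h : 0 < G.degree v) (w : V) :
    srw G v {w} = if w ∈ G.neighborFinset v then (G.degree v : ℝ≥0∞)⁻¹ else 0 := by
  have h1 : (G.neighborSet v).Nonempty := by
    obtain ⟨x, hx⟩ := (G.degree_pos_iff_exists_adj v).1 h
    exact ⟨x, hx⟩
  simp only [srw, Kernel.ofFunOfCountable, Kernel.coe_mk]
  rw [if_pos ⟨Set.toFinite _, h1⟩, ← G.coe_neighborFinset, ← coe_singleton,
    uniformOn_apply_finset, SimpleGraph.card_neighborFinset_eq_degree]
  split_ifs with hw
  · simp [hw]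
  · simp [hw]

lemma Pr_srw [Fintype V] [MeasurableSingletonClass V] [DecidableEq V] (G : SimpleGraph V)
    [DecidableRel G.Adj] (v : V) (h : 0 < G.degree v) (f : V → ℝ) :
    Pr (srw G) f v = (∑ w, if G.Adj v w then f w else 0) / G.degree v := by
  rw [Pr, sum_div]
  refine sum_congr rfl fun w _ => ?_
  rw [srw_apply G v h]
  simp only [SimpleGraph.mem_neighborFinset]
  split_ifs
  · simp [div_eq_inv_mul]
  · simp

lemma toReal_step [Fintype V] (K : Kernel V V) [IsMarkovKernel K] (w : V) (g : V → ℝ≥0∞)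
    (hg : ∀ w, g w ≠ ⊤) :
    (∑' w', K w {w'} * g w').toReal = Pr K (fun w' => (g w').toReal) w := by
  rw [tsum_fintype, ENNReal.toReal_sum fun w' _ => ENNReal.mul_ne_top (measure_ne_top _ _) (hg _)]
  simp only [ENNReal.toReal_mul, Pr]

lemma Pr_mono [Fintype V] (K : Kernel V V) {f g : V → ℝ} (h : ∀ w, f w ≤ g w) (w : V) :
    Pr K f w ≤ Pr K g w :=
  sum_le_sum fun _ _ => mul_le_mul_of_nonneg_left (h _) ENNReal.toReal_nonneg

lemma Pr_add [Fintype V] (K : Kernel V V) (f g : V → ℝ) (w : V) :
    Pr K (fun x => f x + g x) w = Pr K f w + Pr K g w := by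
  simp only [Pr, mul_add, sum_add_distrib]

lemma Pr_mul [Fintype V] (K : Kernel V V) (c : ℝ) (f : V → ℝ) (w : V) :
    Pr K (fun x => c * f x) w = c * Pr K f w := by
  simp only [Pr, mul_sum, mul_left_comm]

lemma Pr_sum [Fintype V] (K : Kernel V V) (s : Finset ℕ) (f : ℕ → V → ℝ) (w : V) :
    Pr K (fun x => ∑ t ∈ s, f t x) w = ∑ t ∈ s, Pr K (f t) w := by
  simp only [Pr, mul_sum]
  exact sum_comm

lemma hitTime_le_of [Fintype V] [MeasurableSingletonClass V] (K : Kernel V V) [IsMarkovKernel K]
    (v : V) (f : V → ℝ) (h0 : ∀ w, 0 ≤ f w) (hf : ∀ w, w ≠ v → 1 + Pr K f w ≤ f w) (w : V) :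
    hitTime K w v ≤ ENNReal.ofReal (f w) := by
  have : ∀ N w, ∑ t ∈ range N, (pathLaw K w (avoid v t)).toReal ≤ f w := by
    intro N
    induction N with
    | zero => simpa using h0
    | succ N ih =>
      intro w
      by_cases h : w = v
      · subst h; simpa [avoid_self] using h0 w
      · rw [sum_range_succ', avoid_zero K w v h]
        simp only [avoid_succ K w v h, toReal_step K w _ fun _ => measure_ne_top _ _]
        rw [← Pr_sum]
        have := Pr_mono K ih w
        have := hf w h
        simp only [ENNReal.toReal_one]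
        linarith
  rw [hitTime_eq, ENNReal.tsum_eq_iSup_nat]
  refine iSup_le fun N => ?_
  rw [← ENNReal.ofReal_toReal (ENNReal.sum_ne_top.2 fun t _ => measure_ne_top _ _),
    ENNReal.toReal_sum fun t _ => measure_ne_top _ _]
  exact ENNReal.ofReal_le_ofReal (this N w)

/-- some vertex of `A` is not visited up to time `t` -/
def unc (A : Finset V) (t : ℕ) : Set (ℕ → V) := ⋃ v ∈ A, avoid v t

lemma measurableSet_unc [MeasurableSingletonClass V] (A : Finset V) (t : ℕ) :
    MeasurableSet (unc A t) := A.measurableSet_biUnion fun v _ => measurableSet_avoid v t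

lemma unc_zero [Countable V] [MeasurableSingletonClass V] [DecidableEq V] (K : Kernel V V)
    [IsMarkovKernel K] (A : Finset V) (w : V) (h : (A.erase w).Nonempty) :
    pathLaw K w (unc A 0) = 1 := by
  rw [measure_first_step K w _ (measurableSet_unc A 0)]
  have : cons w ⁻¹' unc A 0 = Set.univ := by
    obtain ⟨v, hv⟩ := h
    refine Set.eq_univ_of_forall fun x => ?_
    simp only [unc, avoid, Set.mem_preimage, Set.mem_iUnion, Set.mem_ofPred_eq, nonpos_iff_eq_zero,
      forall_eq, cons_zero]
    exact ⟨v, mem_of_mem_erase hv, (ne_of_mem_erase hv).symm⟩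
  simp [this, tsum_kernel]

lemma unc_succ [Countable V] [MeasurableSingletonClass V] [DecidableEq V] (K : Kernel V V)
    [IsMarkovKernel K] (A : Finset V) (w : V) (t : ℕ) :
    pathLaw K w (unc A (t + 1)) = ∑' w', K w {w'} * pathLaw K w' (unc (A.erase w) t) := by
  rw [measure_first_step K w _ (measurableSet_unc A _)]
  have : cons w ⁻¹' unc A (t + 1) = unc (A.erase w) t := by
    ext x
    simp only [unc, avoid, Set.mem_preimage, Set.mem_iUnion, Set.mem_ofPred_eq, mem_erase,
      exists_prop]
    refine exists_congr fun v => ⟨fun ⟨h1, h2⟩ => ⟨⟨(h2 0 (Nat.zero_le _)).symm, h1⟩,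
      fun s hs => h2 (s + 1) (by omega)⟩, fun ⟨⟨h1, h2⟩, h3⟩ => ⟨h2, fun s hs => ?_⟩⟩
    cases s with
    | zero => exact h1.symm
    | succ s => exact h3 s (by omega)
  rw [this]

lemma cover_eq [Fintype V] [MeasurableSingletonClass V] (K : Kernel V V) [IsMarkovKernel K]
    (u : V) : ∫⁻ x, ⨅ (t : ℕ) (_ : ∀ v, ∃ s ≤ t, x s = v), (t : ℝ≥0∞) ∂pathLaw K u =
      ∑' t, pathLaw K u (unc univ t) := by
  classical
  have e : ∀ x : ℕ → V, ⨅ (t : ℕ) (_ : ∀ v, ∃ s ≤ t, x s = v), (t : ℝ≥0∞) =
      ∑' t, (unc univ t).indicator 1 x := by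
    intro x
    rw [iInf_eq_tsum]
    refine tsum_congr fun t => ?_
    simp only [Set.indicator, unc, avoid, Set.mem_iUnion, Set.mem_ofPred_eq, Pi.one_apply,
      mem_univ, exists_const, not_forall, not_exists, not_and]
    congr 1
    exact propext ⟨fun h => h t le_rfl, fun ⟨v, h⟩ s hs => ⟨v, fun r hr => h r (hr.trans hs)⟩⟩
  simp only [e]
  rw [lintegral_tsum fun t => (measurable_one.indicator (measurableSet_unc _ t)).aemeasurable]
  exact tsum_congr fun t => lintegral_indicator_one (measurableSet_unc _ t)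

lemma maxCover_ne_top [Fintype V] [MeasurableSingletonClass V] (K : Kernel V V)
    [IsMarkovKernel K] (h : maxHit K ≠ ⊤) : maxCover K ≠ ⊤ := by
  refine ne_top_of_le_ne_top (b := ∑ _v : V, maxHit K) (ENNReal.sum_ne_top.2 fun _ _ => h)
    (iSup_le fun u => ?_)
  rw [cover_eq]
  refine (ENNReal.tsum_le_tsum fun t => measure_biUnion_finset_le _ _).trans ?_
  rw [Summable.tsum_finsetSum (fun _ _ => ENNReal.summable)]
  refine sum_le_sum fun v _ => ?_
  rw [← hitTime_eq]
  exact le_iSup₂_of_le u v le_rfl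

lemma le_maxCover [Fintype V] [MeasurableSingletonClass V] [DecidableEq V] (K : Kernel V V)
    [IsMarkovKernel K] (g : V → Finset V → ℝ)
    (h0 : ∀ w A, A.erase w = ∅ → g w A ≤ 0)
    (h1 : ∀ w A, g w A ≤ 1 + Pr K (fun w' => g w' (A.erase w)) w) (u : V) :
    ENNReal.ofReal (g u univ) ≤ maxCover K := by
  obtain ⟨M, hM⟩ : ∃ M : ℝ, ∀ w A, g w A ≤ M := by
    obtain ⟨M, hM⟩ := (Set.finite_range fun p : V × Finset V => g p.1 p.2).bddAbove
    exact ⟨M, fun w A => hM ⟨(w, A), rfl⟩⟩
  have key : ∀ N w A, g w A ≤ ∑ t ∈ range N, (pathLaw K w (unc A t)).toReal +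
      max M 0 * (pathLaw K w (unc A N)).toReal := by
    intro N
    induction N with
    | zero =>
      intro w A
      rcases (A.erase w).eq_empty_or_nonempty with h | h
      · exact (h0 w A h).trans (by positivity)
      · simpa [unc_zero K A w h] using Or.inl (hM w A)
    | succ N ih =>
      intro w A
      rcases (A.erase w).eq_empty_or_nonempty with h | h
      · exact (h0 w A h).trans (by positivity)
      · rw [sum_range_succ', unc_zero K A w h]
        simp only [unc_succ K A w, toReal_step K w _ fun _ => measure_ne_top _ _]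
        rw [← Pr_sum, ← Pr_mul]
        have e1 := Pr_mono K (fun w' => ih w' (A.erase w)) w
        rw [Pr_add] at e1
        have := h1 w A
        simp only [ENNReal.toReal_one]
        linarith
  refine le_trans ?_ (le_iSup _ u)
  rw [cover_eq]
  by_cases htop : ∑' t, pathLaw K u (unc univ t) = ⊤
  · simp [htop]
  have hs := ENNReal.summable_toReal htop
  rw [← ENNReal.ofReal_toReal htop, ENNReal.tsum_toReal_eq fun _ => measure_ne_top _ _]
  refine ENNReal.ofReal_le_ofReal ?_
  have := hs.hasSum.tendsto_sum_nat.add (hs.tendsto_atTop_zero.const_mul (max M 0))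
  rw [mul_zero, add_zero] at this
  exact ge_of_tendsto' this fun N => key N u univ

omit [MeasurableSpace V] in
lemma avoid_anti (v : V) {s t : ℕ} (h : s ≤ t) : avoid v t ⊆ avoid v s :=
  fun _ hx r hr => hx r (hr.trans h)

lemma markov_avoid [MeasurableSingletonClass V] (K : Kernel V V) [IsMarkovKernel K] (u v : V)
    (t : ℕ) : t * pathLaw K u (avoid v t) ≤ hitTime K u v := by
  rw [hitTime_eq]
  refine le_trans ?_ (ENNReal.sum_le_tsum (range t))
  have := card_nsmul_le_sum (range t) (fun s => pathLaw K u (avoid v s)) _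
    fun s hs => measure_mono (avoid_anti v (mem_range.1 hs).le)
  rwa [card_range, nsmul_eq_mul] at this

lemma jointCover_le [Fintype V] [MeasurableSingletonClass V] (K : Kernel V V) [IsMarkovKernel K]
    (k : ℕ) (u : V) (t0 : ℕ) :
    jointCover K (fun _ : Fin (k + 1) => u) ≤
      t0 + ∑ v, pathLaw K u (avoid v t0) ^ k * hitTime K u v := by
  classical
  have hm : ∀ t, MeasurableSet (⋃ v ∈ (univ : Finset V),
      Set.pi Set.univ fun _ : Fin (k + 1) => avoid v t) := fun t =>
    Finset.measurableSet_biUnion _ fun v _ => MeasurableSet.univ_pi fun _ => measurableSet_avoid v t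
  have e : ∀ xs : Fin (k + 1) → ℕ → V,
      ⨅ (t : ℕ) (_ : ∀ v, ∃ i, ∃ s ≤ t, xs i s = v), (t : ℝ≥0∞) =
      ∑' t, (⋃ v ∈ (univ : Finset V),
        Set.pi Set.univ fun _ : Fin (k + 1) => avoid v t).indicator 1 xs := by
    intro xs
    rw [iInf_eq_tsum]
    refine tsum_congr fun t => ?_
    simp only [Set.indicator, avoid, Set.mem_iUnion, Set.mem_ofPred_eq, Pi.one_apply,
      mem_univ, exists_const, not_forall, not_exists, not_and, Set.mem_pi, Set.mem_univ,
      forall_true_left]
    congr 1
    exact propext ⟨fun h => h t le_rfl, fun ⟨v, h⟩ s hs => ⟨v, fun i r hr => h i r (hr.trans hs)⟩⟩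
  simp only [jointCover, e]
  rw [lintegral_tsum fun t => (measurable_one.indicator (hm t)).aemeasurable]
  simp only [lintegral_indicator_one (hm _)]
  rw [← Summable.sum_add_tsum_nat_add' (k := t0) ENNReal.summable]
  refine add_le_add ?_ ?_
  · refine (sum_le_card_nsmul _ _ 1 fun t _ => prob_le_one).trans (by simp)
  · refine (ENNReal.tsum_le_tsum fun t => measure_biUnion_finset_le _ _).trans ?_
    rw [Summable.tsum_finsetSum (fun _ _ => ENNReal.summable)]
    refine sum_le_sum fun v _ => ?_
    rw [hitTime_eq, ← ENNReal.tsum_mul_left]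
    refine ENNReal.tsum_le_tsum fun t => ?_
    rw [Measure.pi_pi, prod_const, card_univ, Fintype.card_fin, pow_succ]
    gcongr
    · exact avoid_anti v (Nat.le_add_left _ _)
    · exact avoid_anti v (Nat.le_add_right _ _)

end Pool.Agent.H45.Chain
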