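import Mathlib

set_option maxHeartbeats 400000

open Classical

namespace Pool.Agent.H45.Cyc

variable {K : Type} (t : ℝ)

noncomputable def br (n : ℕ) : ℝ := ∑ i ∈ Finset.range n, t ^ i

@[simp] lemma br_zero : br t 0 = 0 := by simp [br]
@[simp] lemma br_one : br t 1 = 1 := by simp [br]
lemma br_add (m n : ℕ) : br t (m + n) = br t m + t ^ m * br t n := by
  simp [br, Finset.sum_range_add, Finset.mul_sum, pow_add]
lemma br_pow (n : ℕ) : t ^ n = 1 - (1 - t) * br t n := by
  have := mul_neg_geom_sum t n; simp only [br]; linarith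
variable {t} in
lemma br_pos (ht : 0 < t) {n : ℕ} (hn : n ≠ 0) : 0 < br t n :=
  Finset.sum_pos (fun _ _ => by positivity) (by simpa using hn)
variable {t} in
lemma br_nonneg (ht : 0 < t) (n : ℕ) : 0 ≤ br t n := Finset.sum_nonneg fun _ _ => by positivity

noncomputable def D : (List K → ℝ) → List K → ℝ
  | _, [] => 0
  | φ, a :: w => t ^ w.length * φ w + D (fun w' => φ (a :: w')) w

variable {t} in
lemma D_congr : ∀ {w : List K} {φ ψ : List K → ℝ},
    (∀ w', w'.length + 1 = w.length → φ w' = ψ w') → D t φ w = D t ψ w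
  | [], _, _, _ => rfl
  | a :: w, _, _, h => by
    rw [D, D, h w rfl, D_congr fun w' hw => h (a :: w') (by simp [hw])]

lemma D_add : ∀ (w : List K) (φ ψ : List K → ℝ),
    D t (fun w' => φ w' + ψ w') w = D t φ w + D t ψ w
  | [], _, _ => by simp [D]
  | a :: w, _, _ => by rw [D, D, D, D_add w]; ring

lemma D_mul (c : ℝ) : ∀ (w : List K) (φ : List K → ℝ), D t (fun w' => c * φ w') w = c * D t φ w
  | [], _ => by simp [D]
  | a :: w, _ => by rw [D, D, D_mul c w]; ring

@[simp] lemma D_zero (w : List K) : D t (fun _ => 0) w = 0 := by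
  simpa using D_mul t 0 w fun _ => 0

lemma D_sub (w : List K) (φ ψ : List K → ℝ) :
    D t (fun w' => φ w' - ψ w') w = D t φ w - D t ψ w := by
  have := D_add t w φ fun w' => -1 * ψ w'
  rw [D_mul] at this
  simpa [sub_eq_add_neg] using this

lemma D_sum {ι : Type} (s : Finset ι) (w : List K) (φ : ι → List K → ℝ) :
    D t (fun w' => ∑ i ∈ s, φ i w') w = ∑ i ∈ s, D t (φ i) w := by
  induction s using Finset.induction_on with
  | empty => simp
  | insert i s h ih => simp only [Finset.sum_insert h, D_add, ih]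

lemma D_append : ∀ (u v : List K) (φ : List K → ℝ), D t φ (u ++ v) =
    t ^ v.length * D t (fun u' => φ (u' ++ v)) u + D t (fun v' => φ (u ++ v')) v
  | [], _, _ => by simp [D]
  | a :: u, v, φ => by
    rw [List.cons_append, D, D, D_append u v]; simp [pow_add]; ring

variable {t} in
lemma D_nonneg (ht : 0 < t) : ∀ (w : List K) {φ : List K → ℝ}, (∀ w, 0 ≤ φ w) → 0 ≤ D t φ w
  | [], _, _ => le_rfl
  | a :: w, _, h => add_nonneg (mul_nonneg (by positivity) (h _)) (D_nonneg ht w fun _ => h _)

lemma D_map (σ : K → K) : ∀ (w : List K) (φ : List K → ℝ),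
    D t φ (w.map σ) = D t (fun w' => φ (w'.map σ)) w
  | [], _ => rfl
  | a :: w, φ => by rw [List.map_cons, D, D, D_map σ w]; simp

noncomputable def Sp : (List K → K → List K → ℝ) → List K → ℝ
  | _, [] => 0
  | ψ, a :: w => ψ [] a w + Sp (fun l c r => ψ (a :: l) c r) w

lemma Sp_congr : ∀ {w : List K} {φ ψ : List K → K → List K → ℝ},
    (∀ l c r, w = l ++ c :: r → φ l c r = ψ l c r) → Sp φ w = Sp ψ w
  | [], _, _, _ => rfl
  | a :: w, _, _, h => by
    rw [Sp, Sp, h [] a w rfl, Sp_congr fun l c r hw => h (a :: l) c r (by simp [hw])]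

lemma Sp_add : ∀ (w : List K) (φ ψ : List K → K → List K → ℝ),
    Sp (fun l c r => φ l c r + ψ l c r) w = Sp φ w + Sp ψ w
  | [], _, _ => by simp [Sp]
  | a :: w, _, _ => by rw [Sp, Sp, Sp, Sp_add w]; ring

lemma Sp_mul (x : ℝ) : ∀ (w : List K) (φ : List K → K → List K → ℝ),
    Sp (fun l c r => x * φ l c r) w = x * Sp φ w
  | [], _ => by simp [Sp]
  | a :: w, _ => by rw [Sp, Sp, Sp_mul x w]; ring

@[simp] lemma Sp_zero (w : List K) : Sp (fun _ _ _ => 0) w = 0 := by
  simpa using Sp_mul 0 w fun _ _ _ => 0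

lemma Sp_sub (w : List K) (φ ψ : List K → K → List K → ℝ) :
    Sp (fun l c r => φ l c r - ψ l c r) w = Sp φ w - Sp ψ w := by
  have := Sp_add w φ fun l c r => -1 * ψ l c r
  rw [Sp_mul] at this
  simpa [sub_eq_add_neg] using this

lemma Sp_sum {ι : Type} (s : Finset ι) (w : List K) (φ : ι → List K → K → List K → ℝ) :
    Sp (fun l c r => ∑ i ∈ s, φ i l c r) w = ∑ i ∈ s, Sp (φ i) w := by
  induction s using Finset.induction_on with
  | empty => simp
  | insert i s h ih => simp only [Finset.sum_insert h, Sp_add, ih]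

lemma Sp_snoc : ∀ (u : List K) (d : K) (ψ : List K → K → List K → ℝ),
    Sp ψ (u ++ [d]) = Sp (fun l c r => ψ l c (r ++ [d])) u + ψ u d []
  | [], _, _ => by simp [Sp]
  | a :: u, d, ψ => by rw [List.cons_append, Sp, Sp, Sp_snoc u]; ring

lemma Sp_assoc : ∀ (x : List K) (ψ : List K → K → List K → K → List K → ℝ),
    Sp (fun v c y => Sp (fun l d r => ψ l d r c y) v) x =
      Sp (fun l d y' => Sp (fun r c y => ψ l d r c y) y') x
  | [], _ => rfl
  | a :: x, ψ => by
    simp only [Sp, Sp_add, zero_add]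
    rw [Sp_assoc x fun l d r c y => ψ (a :: l) d r c y]

lemma Sp_nonneg : ∀ (w : List K) {φ : List K → K → List K → ℝ}, (∀ l c r, 0 ≤ φ l c r) →
    0 ≤ Sp φ w
  | [], _, _ => le_rfl
  | _ :: w, _, h => add_nonneg (h _ _ _) (Sp_nonneg w fun _ _ _ => h _ _ _)

lemma Sp_map (σ : K → K) : ∀ (w : List K) (φ : List K → K → List K → ℝ),
    Sp φ (w.map σ) = Sp (fun l c r => φ (l.map σ) (σ c) (r.map σ)) w
  | [], _ => rfl
  | a :: w, φ => by rw [List.map_cons, Sp, Sp, Sp_map σ w]; simp

lemma D_Sp : ∀ (w : List K) (ψ : List K → K → List K → ℝ), D t (Sp ψ) w =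
    Sp (fun l c r => t ^ (r.length + 1) * D t (fun l' => ψ l' c r) l +
      D t (fun r' => ψ l c r') r) w
  | [], _ => rfl
  | a :: w, ψ => by
    simp only [D, Sp, D_add, mul_zero, zero_add]
    rw [D_Sp w fun l c r => ψ (a :: l) c r, ← Sp_mul, add_left_comm, ← Sp_add]
    congr 1
    refine Sp_congr fun l c r h => ?_
    simp [h, pow_add]; ring

abbrev E (K : Type) := K ⊕ Bool
abbrev L : E K := .inr false
abbrev R : E K := .inr true

def pr : E K → List K → E K → Prop
  | a, [], b => a ≠ b
  | a, c :: w, b => a ≠ .inl c ∧ pr (.inl c) w b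

lemma pr_append : ∀ (a : E K) (l : List K) (c : K) (r : List K) (b : E K),
    pr a (l ++ c :: r) b ↔ pr a l (.inl c) ∧ pr (.inl c) r b
  | _, [], _, _, _ => Iff.rfl
  | a, d :: l, c, r, b => by simp [pr, pr_append _ l, and_assoc]

noncomputable def Gn : ℕ → E K → List K → E K → ℝ
  | 0, a, _, b => if a = b then 0 else 1
  | n + 1, a, w, b => if pr a w b then D t (fun w' => Gn n a w' b) w / br t (n + 1) else 0

noncomputable def G (a : E K) (w : List K) (b : E K) : ℝ := Gn t w.length a w b

lemma G_nil (a b : E K) : G t a [] b = if a = b then 0 else 1 := rfl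

variable {t} (ht : 0 < t)

lemma G_zero {a b : E K} : ∀ {w : List K}, ¬pr a w b → G t a w b = 0
  | [], h => by simpa [pr, G_nil] using h
  | _ :: _, h => if_neg h

include ht in
lemma G_rec {a b : E K} : ∀ {w : List K}, pr a w b →
    D t (fun w' => G t a w' b) w = br t w.length * G t a w b
  | [], _ => by simp [D]
  | c :: w, h => by
    rw [G, List.length_cons, Gn, if_pos h, mul_div_cancel₀ _ (br_pos ht (by simp)).ne']
    exact D_congr fun w' hw => by rw [G, show w'.length = w.length by simpa using hw]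

lemma G_self (a : E K) (w : List K) : G t a w a = 0 := by
  have : ∀ n w, Gn t n a w a = 0 := by
    intro n; induction n with
    | zero => simp [Gn]
    | succ n ih => simp [Gn, ih]
  exact this _ _

include ht in
lemma G_nonneg (a : E K) (w : List K) (b : E K) : 0 ≤ G t a w b := by
  have : ∀ n w, 0 ≤ Gn t n a w b := by
    intro n; induction n with
    | zero => intro w; unfold Gn; split_ifs <;> simp
    | succ n ih =>
      intro w; unfold Gn; split_ifs
      exacts [div_nonneg (D_nonneg ht _ ih) (br_nonneg ht _), le_rfl]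
  exact this _ _

lemma G_map {σ : K → K} (hσ : σ.Injective) (a : E K) (w : List K) (b : E K) :
    G t (a.map σ id) (w.map σ) (b.map σ id) = G t a w b := by
  have hi : (Sum.map σ (id : Bool → Bool)).Injective := hσ.sumMap Function.injective_id
  have h1 : ∀ (w : List K) (a : E K), pr (a.map σ id) (w.map σ) (b.map σ id) ↔ pr a w b := by
    intro w; induction w with
    | nil => intro a; exact hi.ne_iff
    | cons c w ih => intro a; exact and_congr (hi.ne_iff (y := .inl c)) (ih (.inl c))
  have : ∀ n (w : List K), Gn t n (a.map σ id) (w.map σ) (b.map σ id) = Gn t n a w b := by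
    intro n; induction n with
    | zero => intro w; simp only [Gn, hi.eq_iff]
    | succ n ih => intro w; simp only [Gn, h1, D_map, ih]
  rw [G, List.length_map, this, G]

noncomputable def SG (t : ℝ) (κ : ℕ → K → ℕ → ℝ) (a : E K) (w : List K) (b : E K) : ℝ :=
  Sp (fun l c r => κ l.length c r.length * (G t a l (.inl c) * G t (.inl c) r b)) w

lemma SG_zero {κ} {a b : E K} {w : List K} (h : ¬pr a w b) : SG t κ a w b = 0 :=
  (Sp_congr fun l c r hw => by
    rw [hw, pr_append, not_and_or] at h
    rcases h with h | h <;> simp [G_zero h]).trans (Sp_zero w)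

include ht in
lemma D_SG {κ} {a b : E K} {w : List K} (h : pr a w b) : D t (fun w' => SG t κ a w' b) w =
    SG t (fun l c r => t ^ (r + 1) * κ (l - 1) c r * br t l + κ l c (r - 1) * br t r) a w b := by
  refine (D_Sp t w _).trans (Sp_congr fun l c r hw => ?_)
  rw [hw, pr_append] at h
  rw [D_congr (w := l) (ψ := fun l' => (κ (l.length - 1) c r.length * G t (.inl c) r b) *
      G t a l' (.inl c)) fun l' hl => by rw [← hl]; simp; ring,
    D_congr (w := r) (ψ := fun r' => (κ l.length c (r.length - 1) * G t a l (.inl c)) *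
      G t (.inl c) r' b) fun r' hr => by rw [← hr]; simp; ring,
    D_mul, D_mul, G_rec ht h.1, G_rec ht h.2]
  ring

lemma SG_lin {κ κ₁ κ₂ : ℕ → K → ℕ → ℝ} {x x₁ x₂ : ℝ} {a b : E K} {w : List K}
    (h : ∀ l c r, w = l ++ c :: r → x * κ l.length c r.length =
      x₁ * κ₁ l.length c r.length + x₂ * κ₂ l.length c r.length) :
    x * SG t κ a w b = x₁ * SG t κ₁ a w b + x₂ * SG t κ₂ a w b := by
  simp only [SG, ← Sp_mul, ← Sp_add]
  exact Sp_congr fun l c r hw => by rw [← mul_assoc, h l c r hw]; ring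

lemma SG_lin₁ {κ κ₁ : ℕ → K → ℕ → ℝ} {x : ℝ} {a b : E K} {w : List K}
    (h : ∀ l c r, w = l ++ c :: r → x * κ l.length c r.length = κ₁ l.length c r.length) :
    x * SG t κ a w b = SG t κ₁ a w b :=
  (SG_lin (x₁ := 1) (x₂ := 0) (κ₁ := κ₁) (κ₂ := κ₁) fun l c r e => by simp [h l c r e]).trans
    (by simp)

include ht in
/-- Decomposition according to the first arrival. -/
lemma I1 {a b : E K} (hab : a ≠ b) : ∀ (n : ℕ) (w : List K), w.length = n →
    SG t (fun l _ _ => t ^ l) a w b = br t n * G t a w b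
  | 0, [], _ => by simp [SG, Sp]
  | 1, [c], _ => by
    by_cases h : pr a [c] b
    · have := G_rec ht h
      simp only [pr] at h
      simp [D, G_nil, hab] at this
      simp [SG, Sp, G_nil, h.1, h.2, ← this]
    · simp [SG_zero h, G_zero h]
  | n + 2, w, hw => by
    by_cases h : pr a w b
    · refine mul_left_cancel₀ (br_pos ht n.succ_ne_zero).ne' ?_
      rw [← hw, ← G_rec ht h, ← D_mul, ← D_congr fun w' h' => I1 hab (n + 1) w' (by omega),
        D_SG ht h]
      refine SG_lin₁ fun l c r e => ?_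
      have : n + 1 = r.length + l.length := by simp [e] at hw; omega
      rw [Nat.succ_eq_add_one, this, br_add]
      cases l with
      | nil => simp
      | cons d l => simp [pow_succ]; ring
    · simp [SG_zero h, G_zero h]

end Pool.Agent.H45.Cyc
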