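import Pool.Agent.H45.Cyc1

set_option maxHeartbeats 400000

open Classical

namespace Pool.Agent.H45.Cyc

variable {K : Type} {t : ℝ} (ht : 0 < t)

noncomputable def dl (a b : E K) : ℝ := if a = b then 1 else 0

lemma pr_R {b : E K} : ∀ {u : List K} {a : E K}, a ≠ R → pr a u b → pr a u R
  | [], _, h, _ => h
  | _ :: _, _, _, h => ⟨h.1, pr_R (by simp) h.2⟩

lemma pr_L {a b : E K} (hb : b ≠ L) : ∀ {v : List K}, pr a v b → pr L v b
  | [], _ => hb.symm
  | _ :: _, h => ⟨by simp, h.2⟩

noncomputable def ΛR (t : ℝ) (J : ℕ) (a : E K) (u : List K) (b : E K) : ℝ :=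
  (1 - dl a b) * G t a u R - SG t (fun _ c m => dl b (.inl c) / br t (m + 1 + J)) a u R

noncomputable def ΛL (t : ℝ) (I : ℕ) (a : E K) (v : List K) (b : E K) : ℝ :=
  (1 - dl a b) * G t L v b -
    SG t (fun l c _ => dl a (.inl c) * t ^ (l + I) / br t (l + 1 + I)) L v b

lemma SG_lin' {κ κ₁ κ₂ : ℕ → K → ℕ → ℝ} {x x₂ : ℝ} {a b : E K} {w : List K}
    (h : ∀ l c r, w = l ++ c :: r → x * κ l.length c r.length =
      κ₁ l.length c r.length + x₂ * κ₂ l.length c r.length) :
    x * SG t κ a w b = SG t κ₁ a w b + x₂ * SG t κ₂ a w b :=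
  (SG_lin (x₁ := 1) (κ₁ := κ₁) (κ₂ := κ₂) fun l c r e => by rw [one_mul, h l c r e]).trans
    (by rw [one_mul])

include ht

lemma ΛR_rec {J a u} {b : E K} (h : pr a u R) : br t (J + 1 + u.length) * ΛR t (J + 1) a u b =
    t ^ (J + 1) * D t (fun u' => ΛR t (J + 1) a u' b) u + br t (J + 1) * ΛR t J a u b := by
  simp only [ΛR]
  rw [D_sub, D_mul, G_rec ht h, D_SG ht h, mul_sub, mul_sub, mul_sub, sub_add_sub_comm]
  refine congrArg₂ _ (by rw [br_add]; ring) (SG_lin fun l c r e => ?_)
  have h1 := (br_pos ht (n := r.length + 1 + J) (by omega)).ne'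
  have h2 := (br_pos ht (n := r.length + 1 + (J + 1)) (by omega)).ne'
  have e1 : J + 1 + u.length = r.length + 1 + (J + 1) + l.length := by simp [e]; omega
  have e2 : br t (r.length + 1 + J) = br t (J + 1) + t ^ (J + 1) * br t r.length := by
    rw [← br_add]; congr 1; omega
  rw [e1, br_add]
  have : dl b (.inl c) / br t (r.length - 1 + 1 + (J + 1)) * br t r.length =
      dl b (.inl c) / br t (r.length + 1 + J) * br t r.length := by
    cases r with
    | nil => simp
    | cons => simp [add_assoc, add_comm]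
  rw [this]
  field_simp
  rw [e2]; ring

lemma ΛL_rec {I v} {a b : E K} (h : pr L v b) : br t (v.length + (I + 1)) * ΛL t (I + 1) a v b =
    D t (fun v' => ΛL t (I + 1) a v' b) v + t ^ v.length * br t (I + 1) * ΛL t I a v b := by
  simp only [ΛL]
  rw [D_sub, D_mul, G_rec ht h, D_SG ht h, mul_sub, mul_sub, sub_add_sub_comm]
  refine congrArg₂ _ (by rw [br_add]; ring) (SG_lin' fun l c r e => ?_)
  have h1 := (br_pos ht (n := l.length + 1 + I) (by omega)).ne'
  have h2 := (br_pos ht (n := l.length + 1 + (I + 1)) (by omega)).ne'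
  have e1 : v.length = r.length + 1 + l.length := by simp [e]; omega
  have e2 : br t (l.length + 1 + I) = br t l.length + t ^ l.length * br t (I + 1) := by
    rw [← br_add]; congr 1; omega
  have : t ^ (r.length + 1) * (dl a (.inl c) * t ^ (l.length - 1 + (I + 1)) /
      br t (l.length - 1 + 1 + (I + 1))) * br t l.length = t ^ (r.length + 1) * (dl a (.inl c) *
        t ^ (l.length + I) / br t (l.length + 1 + I)) * br t l.length := by
    cases l with
    | nil => simp
    | cons => simp [add_comm, add_left_comm]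
  rw [this, show v.length + (I + 1) = r.length + (l.length + 1 + (I + 1)) by omega, br_add, e1]
  field_simp
  rw [e2]; ring

lemma L1R {a b : E K} (ha : a ≠ R) : ∀ (n : ℕ) (u : List K), u.length = n →
    G t a u b = ΛR t 0 a u b
  | 0, [], _ => by simp [ΛR, SG, Sp, G_nil, ha, dl]; split_ifs <;> simp
  | n + 1, u, hu => by
    by_cases h : pr a u R
    swap
    · simp [ΛR, SG_zero h, G_zero h, G_zero fun h' => h (pr_R ha h')]
    obtain ⟨l, d, rfl⟩ : ∃ l d, u = l ++ [d] := by
      rcases u.eq_nil_or_concat' with rfl | h; exacts [by simp at hu, h]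
    have h1 : br t (n + 1) * G t a (l ++ [d]) b =
        D t (fun u' => G t a u' b) (l ++ [d]) - dl b (.inl d) * G t a l b := by
      by_cases hb : b = .inl d
      · subst hb
        have : ∀ l', G t a (l' ++ [d]) (.inl d) = 0 := fun l' => G_zero (by simp [pr_append, pr])
        simp [D_append, this, D, dl]
      · rw [G_rec ht ((pr_append a l d [] b).2 ⟨((pr_append ..).1 h).1, Ne.symm hb⟩), hu]; simp [dl, hb]
    refine mul_left_cancel₀ (br_pos ht n.succ_ne_zero).ne' (h1.trans ?_)
    rw [D_congr fun w' hw => L1R ha n w' (by omega)]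
    simp only [ΛR]
    have : 1 * SG t (fun _ c m => if m = 0 then dl b (.inl c) else 0) a (l ++ [d]) R =
        dl b (.inl d) * G t a l b := by
      simp only [SG, Sp_snoc]; by_cases hb : b = .inl d <;> simp [G_nil, dl, hb]
    rw [D_sub, D_mul, G_rec ht h, D_SG ht h, mul_sub, sub_sub, ← this, hu]
    refine congrArg₂ _ (by ring) (SG_lin' fun l' c r e => ?_).symm
    have h2 := (br_pos ht (n := r.length + 1) (by omega)).ne'
    have e1 : n.succ = r.length + 1 + l'.length := by
      rw [e] at hu; simp at hu; omega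
    rw [e1, br_add]
    cases r with
    | nil => simp; ring
    | cons c' r =>
      have h3 := (br_pos ht (n := r.length + 1) (by omega)).ne'
      simp at h2 ⊢; field_simp; ring

lemma L1L {a b : E K} (hb : b ≠ L) : ∀ (n : ℕ) (v : List K), v.length = n →
    G t a v b = ΛL t 0 a v b
  | 0, [], _ => by simp [ΛL, SG, Sp, G_nil, hb.symm, dl]; split_ifs <;> simp
  | n + 1, d :: r, hu => by
    by_cases h : pr L (d :: r) b
    swap
    · simp [ΛL, SG_zero h, G_zero h, G_zero fun h' => h (pr_L hb h')]
    have h1 : br t (n + 1) * G t a (d :: r) b = D t (fun u' => G t a u' b) (d :: r) -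
        dl a (.inl d) * t ^ r.length * G t a r b := by
      by_cases ha : a = .inl d
      · subst ha
        have : ∀ r', G t (.inl d) (d :: r') b = 0 := fun l' => G_zero (by simp [pr])
        simp [this, D, dl]
      · rw [G_rec ht (show pr a (d :: r) b from ⟨ha, h.2⟩), hu]; simp [dl, ha]
    refine mul_left_cancel₀ (br_pos ht n.succ_ne_zero).ne' (h1.trans ?_)
    rw [D_congr fun w' hw => L1L hb n w' (by omega)]
    simp only [ΛL]
    have : 1 * SG t (fun l c m => if l = 0 then dl a (.inl c) * t ^ m else 0) L (d :: r) b =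
        dl a (.inl d) * t ^ r.length * G t a r b := by
      simp only [SG, Sp]; by_cases ha : a = .inl d <;> simp [G_nil, dl, ha]
    rw [D_sub, D_mul, G_rec ht h, D_SG ht h, mul_sub, sub_sub, ← this, hu]
    refine congrArg₂ _ (by ring) (SG_lin' fun l c r' e => ?_).symm
    have h2 := (br_pos ht (n := l.length + 1) (by omega)).ne'
    have e1 : n.succ = r'.length + (l.length + 1) := by
      rw [e] at hu; simp at hu; omega
    rw [e1, br_add]
    cases l with
    | nil => simp; ring
    | cons c' l =>
      have h3 := (br_pos ht (n := l.length + 1) (by omega)).ne'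
      simp at h2 ⊢; field_simp; ring

variable [Fintype K]

noncomputable def ind (a : E K) : ℝ := ∑ x : K, dl a (.inl x)

omit ht in
@[simp] lemma ind_inl (x : K) : ind (.inl x : E K) = 1 := by simp [ind, dl]
omit ht in
@[simp] lemma ind_inr (x : Bool) : ind (.inr x : E K) = 0 := by simp [ind, dl]

omit ht [Fintype K] in
lemma left_data {a b : E K} {u : List K} (h : pr a u R) : ∃ y : E K,
    (∀ x, pr a u (.inl x) ↔ y ≠ .inl x) ∧ (u = [] ∧ y = a ∨ u ≠ [] ∧ ∃ z, y = .inl z) ∧
    ∀ x w, y = .inl x → D t (fun u' => G t a (u' ++ x :: w) b) u =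
      (if u = [] then 0 else 1) * G t a (u ++ w) b := by
  rcases u.eq_nil_or_concat' with rfl | ⟨l, d, rfl⟩
  · exact ⟨a, fun _ => Iff.rfl, by simp, by simp [D]⟩
  refine ⟨.inl d, fun x => by simp [pr_append, pr, ((pr_append ..).1 h).1], by simp, ?_⟩
  rintro x w ⟨⟩
  have : ∀ l', G t a (l' ++ d :: d :: w) b = 0 := fun l' => G_zero (by simp [pr_append, pr])
  simp [D_append, D, this]

omit ht [Fintype K] in
lemma right_data {a b : E K} {v : List K} (h : pr L v b) : ∃ y : E K,
    (∀ x, pr (.inl x) v b ↔ y ≠ .inl x) ∧ (v = [] ∧ y = b ∨ v ≠ [] ∧ ∃ z, y = .inl z) ∧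
    ∀ x w, y = .inl x → (pr a (w ++ v) b → pr a w (.inl x)) ∧
      t * D t (fun v' => G t a (w ++ x :: v') b) v =
        (if v = [] then 0 else 1) * t ^ v.length * G t a (w ++ v) b := by
  cases v with
  | nil => exact ⟨b, fun _ => ne_comm, by simp, by rintro x w rfl; simp [D]⟩
  | cons d r =>
    refine ⟨.inl d, fun x => by simp [pr, h.2, eq_comm], by simp, ?_⟩
    rintro x w ⟨⟩
    have : ∀ r', G t a (w ++ d :: d :: r') b = 0 := fun l' => G_zero (by simp [pr_append, pr])
    exact ⟨fun h => ((pr_append ..).1 h).1, by simp [D, this]; ring⟩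

variable (hq : (Fintype.card K : ℝ) * t = (1 + t) ^ 2)
include hq

lemma sum_rec {a b : E K} {u v : List K} (h1 : pr a u R) (h2 : pr L v b) :
    br t (u.length + v.length + 1) * ∑ x, G t a (u ++ x :: v) b =
      t ^ (v.length + 1) * D t (fun u' => ∑ x, G t a (u' ++ x :: v) b) u +
      D t (fun v' => ∑ x, G t a (u ++ x :: v') b) v +
      ((if u = [] then t ^ v.length * (t + 1 - ind a) else 0) +
        if v = [] then 1 / t + 1 - ind b else 0) * G t a (u ++ v) b := by
  obtain ⟨y, a1, a2, a3⟩ := left_data (t := t) (b := b) h1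
  obtain ⟨z, b1, b2, b3⟩ := right_data (t := t) (a := a) h2
  have key : ∀ x, t * (br t (u.length + v.length + 1) * G t a (u ++ x :: v) b) =
      t ^ (v.length + 2) * D t (fun u' => G t a (u' ++ x :: v) b) u +
      t * D t (fun v' => G t a (u ++ x :: v') b) v + t ^ v.length * G t a (u ++ v) b *
      (t - dl y (.inl x) * (t + (if u = [] then 0 else 1) * t ^ 2) -
        dl z (.inl x) * (t + if v = [] then 0 else 1)) := fun x => by
    by_cases hy : y = .inl x
    · have h0 : ∀ v', G t a (u ++ x :: v') b = 0 := fun v' => G_zero fun h =>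
        (a1 x).1 ((pr_append ..).1 h).1 hy
      rw [a3 x v hy]
      by_cases hz : z = .inl x
      · simp [h0, G_zero fun h => (a1 x).1 ((b3 x u hz).1 h) hy]
      · simp [h0, dl, hy, hz]; split_ifs <;> ring
    by_cases hz : z = .inl x
    · have h0 : ∀ u', G t a (u' ++ x :: v) b = 0 := fun v' => G_zero fun h =>
        (b1 x).1 ((pr_append ..).1 h).2 hz
      rw [(b3 x u hz).2]
      simp [h0, dl, hy, hz]
    have := G_rec ht ((pr_append ..).2 ⟨(a1 x).2 hy, (b1 x).2 hz⟩)
    simp only [D_append, D, List.length_append, List.length_cons, ← add_assoc] at this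
    rw [← this]; simp [dl, hy, hz]; ring
  refine mul_left_cancel₀ ht.ne' ?_
  simp only [Finset.mul_sum, key, D_sum, Finset.sum_add_distrib, mul_add t, ← mul_assoc,
    ← pow_succ']
  congr 1
  simp only [← Finset.mul_sum, Finset.sum_sub_distrib, ← Finset.sum_mul, Finset.sum_const,
    Finset.card_univ, nsmul_eq_mul, hq]
  change _ * (_ - ind y * _ - ind z * _) = _
  rcases a2 with ⟨rfl, rfl⟩ | ⟨hu, y, rfl⟩ <;> rcases b2 with ⟨rfl, rfl⟩ | ⟨hv, z, rfl⟩ <;>
    simp only [*, if_true, if_false, ind_inl, List.length_nil] <;> field_simp <;> ring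

lemma L2 {a b : E K} (ha : a ≠ R) (hb : b ≠ L) : ∀ (n : ℕ) (u v : List K),
    u.length + v.length = n → ∑ x, G t a (u ++ x :: v) b =
      (1 / t + 1 - ind b) * G t L v b / br t (v.length + 1) * ΛR t (v.length + 1) a u b +
      (t + 1 - ind a) * t ^ u.length * G t a u R / br t (u.length + 1) *
        ΛL t (u.length + 1) a v b := by
  intro n
  induction n using Nat.strong_induction_on with | _ n ih => ?_
  intro u v hn
  by_cases h1 : pr a u R
  swap
  · have : ∀ x, G t a (u ++ x :: v) b = 0 := fun x => G_zero fun h =>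
      h1 (pr_R ha ((pr_append ..).1 h).1)
    simp [this, ΛR, G_zero h1, SG_zero h1]
  by_cases h2 : pr L v b
  swap
  · have : ∀ x, G t a (u ++ x :: v) b = 0 := fun x => G_zero fun h =>
      h2 (pr_L hb ((pr_append ..).1 h).2)
    simp [this, ΛL, G_zero h2, SG_zero h2]
  refine mul_left_cancel₀ (br_pos ht (n := u.length + v.length + 1) (by simp)).ne' ?_
  rw [sum_rec ht hq h1 h2, D_congr (w := u) (ψ := fun u' => (1 / t + 1 - ind b) * G t L v b /
      br t (v.length + 1) * ΛR t (v.length + 1) a u' b + (t + 1 - ind a) * t ^ (u.length - 1) /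
      br t u.length * ΛL t u.length a v b * G t a u' R) fun u' hu => by
        rw [ih _ (by omega) u' v rfl, ← hu]; simp; ring,
    D_congr (w := v) (ψ := fun v' => (1 / t + 1 - ind b) / br t v.length * ΛR t v.length a u b *
      G t L v' b + (t + 1 - ind a) * t ^ u.length * G t a u R / br t (u.length + 1) *
        ΛL t (u.length + 1) a v' b) fun v' hv => by
        rw [ih _ (by omega) u v' rfl, ← hv]; ring,
    D_add, D_add, D_mul, D_mul, D_mul, D_mul, G_rec ht h1, G_rec ht h2]
  have e1 := ΛR_rec ht (J := v.length) (b := b) h1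
  have e2 := ΛL_rec ht (I := u.length) (a := a) h2
  rw [show v.length + 1 + u.length = u.length + v.length + 1 by omega] at e1
  rw [show v.length + (u.length + 1) = u.length + v.length + 1 by omega] at e2
  have h3 := (br_pos ht (n := v.length + 1) (by simp)).ne'
  have h4 := (br_pos ht (n := u.length + 1) (by simp)).ne'
  have A : t ^ (v.length + 1) * ((t + 1 - ind a) * t ^ (u.length - 1) / br t u.length *
      ΛL t u.length a v b * (br t u.length * G t a u R)) + (if u = [] then t ^ v.length *
      (t + 1 - ind a) else 0) * G t a (u ++ v) b =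
      (t + 1 - ind a) * t ^ (u.length + v.length) * G t a u R * ΛL t u.length a v b := by
    cases u with
    | nil => simp [L1L ht hb _ v rfl, G_nil, ha, mul_comm]
    | cons => simp at h4 ⊢; field_simp [(br_pos ht (Nat.succ_ne_zero _)).ne']; ring
  have B : (1 / t + 1 - ind b) / br t v.length * ΛR t v.length a u b *
      (br t v.length * G t L v b) + (if v = [] then 1 / t + 1 - ind b else 0) *
      G t a (u ++ v) b = (1 / t + 1 - ind b) * G t L v b * ΛR t v.length a u b := by
    cases v with
    | nil => simp [L1R ht ha _ u rfl, G_nil, hb.symm]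
    | cons => simp at h3 ⊢; field_simp [(br_pos ht (Nat.succ_ne_zero _)).ne']
  have e3 : br t (v.length + 1) / br t (v.length + 1) = 1 := div_self h3
  have e4 : br t (u.length + 1) / br t (u.length + 1) = 1 := div_self h4
  linear_combination A + B - (1 / t + 1 - ind b) * G t L v b / br t (v.length + 1) * e1 -
    (t + 1 - ind a) * t ^ u.length * G t a u R / br t (u.length + 1) * e2 -
    (1 / t + 1 - ind b) * G t L v b * ΛR t v.length a u b * e3 -
    (t + 1 - ind a) * t ^ (u.length + v.length) * G t a u R * ΛL t u.length a v b * e4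

end Pool.Agent.H45.Cyc
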