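import Pool.Agent.H45.Cyc2

set_option maxHeartbeats 400000

open Classical

namespace Pool.Agent.H45.Cyc

variable {K : Type} {t : ℝ} (ht : 0 < t)

noncomputable def Ch (t : ℝ) : (ℕ → K → List K → ℝ) → K → List K → List K → ℝ
  | F, a, l, [] => F 0 a l
  | F, a, l, d :: y => Ch t F a (l ++ [d]) y +
      G t (.inl a) l (.inl d) * Ch t (fun k => F (k + 1)) d [] y

lemma Ch_add : ∀ (y : List K) (F F' : ℕ → K → List K → ℝ) (a l),
    Ch t (fun k e u => F k e u + F' k e u) a l y = Ch t F a l y + Ch t F' a l y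
  | [], _, _, _, _ => rfl
  | d :: y, _, _, _, _ => by rw [Ch, Ch, Ch, Ch_add y, Ch_add y]; ring

lemma Ch_mul (x : ℝ) : ∀ (y : List K) (F : ℕ → K → List K → ℝ) (a l),
    Ch t (fun k e u => x * F k e u) a l y = x * Ch t F a l y
  | [], _, _, _ => rfl
  | d :: y, _, _, _ => by rw [Ch, Ch, Ch_mul x y, Ch_mul x y]; ring

@[simp] lemma Ch_zero (y : List K) (a l) : Ch t (fun _ _ _ => 0) a l y = 0 := by
  simpa using Ch_mul (t := t) 0 y (fun _ _ _ => 0) a l

lemma Ch_sub (y : List K) (F F' : ℕ → K → List K → ℝ) (a l) :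
    Ch t (fun k e u => F k e u - F' k e u) a l y = Ch t F a l y - Ch t F' a l y := by
  have := Ch_add (t := t) y F (fun k e u => -1 * F' k e u) a l
  rw [Ch_mul] at this
  simpa [sub_eq_add_neg] using this

lemma Ch_sum {ι : Type} (s : Finset ι) (y : List K) (F : ι → ℕ → K → List K → ℝ) (a l) :
    Ch t (fun k e u => ∑ i ∈ s, F i k e u) a l y = ∑ i ∈ s, Ch t (F i) a l y := by
  induction s using Finset.induction_on with
  | empty => simp
  | insert i s h ih => simp only [Finset.sum_insert h, Ch_add, ih]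

lemma Ch_Sp (y : List K) (a l) : ∀ (v : List K) (F : List K → K → List K → ℕ → K → List K → ℝ),
    Ch t (fun k e u => Sp (fun l' d r => F l' d r k e u) v) a l y =
      Sp (fun l' d r => Ch t (F l' d r) a l y) v
  | [], _ => Ch_zero ..
  | c :: v, F => by simp only [Sp, Ch_add, Ch_Sp y a l v]

lemma Ch_first : ∀ (y : List K) (F : ℕ → K → List K → ℝ) (a l), Ch t F a l y = F 0 a (l ++ y) +
    Sp (fun r c y' => G t (.inl a) (l ++ r) (.inl c) * Ch t (fun k => F (k + 1)) c [] y') y
  | [], _, _, _ => by simp [Ch, Sp]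
  | d :: y, _, _, _ => by rw [Ch, Ch_first y, Sp]; simp; ring

lemma Ch_snoc (d : K) : ∀ (y : List K) (F : ℕ → K → List K → ℝ) (a l), Ch t F a l (y ++ [d]) =
    Ch t (fun k e u => F k e (u ++ [d]) + G t (.inl e) u (.inl d) * F (k + 1) d []) a l y
  | [], _, _, _ => rfl
  | c :: y, _, _, _ => by rw [List.cons_append, Ch, Ch, Ch_snoc d y, Ch_snoc d y]

noncomputable def ι (k : ℕ) : ℝ := if k = 0 then 0 else 1

lemma Ch_first' (y : List K) (F : ℕ → K → List K → ℝ) (a) :
    Ch t (fun k e u => ι k * F k e u) a [] y =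
      Sp (fun r c y' => G t (.inl a) r (.inl c) * Ch t (fun k => F (k + 1)) c [] y') y := by
  rw [Ch_first]; simp [ι]

lemma Ch_last : ∀ (y : List K) (ψ : ℕ → K → List K → ℝ) (a l),
    Ch t (fun k e u => Sp (fun l' c r => G t (.inl e) l' (.inl c) * ψ (k + 1) c r) u) a l y =
      Ch t (fun k e u => ι k * ψ k e u) a l y +
        Sp (fun l' c r => G t (.inl a) l' (.inl c) * ψ 1 c (r ++ y)) l
  | [], _, _, _ => by simp [Ch, ι]
  | d :: y, ψ, a, l => by
    rw [Ch, Ch, Ch_last y, Ch_last y fun k => ψ (k + 1), Sp_snoc, Ch_first',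
      Ch_first y (a := d)]
    simp [ι, Sp]; ring

lemma Ch_congr {F F' : ℕ → K → List K → ℝ} {a : K} {y : List K} (h0 : ∀ u, F 0 a u = F' 0 a u)
    (h1 : ∀ e ≠ a, ∀ u, F 1 e u = F' 1 e u) (h2 : ∀ k e u, F (k + 2) e u = F' (k + 2) e u) :
    Ch t F a [] y = Ch t F' a [] y := by
  rw [Ch_first, Ch_first _ F', h0]
  refine congrArg _ (Sp_congr fun r c y' _ => ?_)
  by_cases h : c = a
  · simp [h, G_self]
  · rw [Ch_first, Ch_first _ fun k => F' (k + 1), zero_add, h1 c h,
      show (fun k => F (k + 1 + 1)) = fun k => F' (k + 1 + 1) from funext₃ h2]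

include ht in
lemma Ch_nonneg : ∀ (y : List K) {F : ℕ → K → List K → ℝ}, (∀ k e u, 0 ≤ F k e u) → ∀ a l,
    0 ≤ Ch t F a l y
  | [], _, h, _, _ => h ..
  | _ :: y, _, h, _, _ => add_nonneg (Ch_nonneg y h ..)
    (mul_nonneg (G_nonneg ht ..) (Ch_nonneg y (fun _ => h _) ..))

lemma Ch_map {σ : K → K} (hσ : σ.Injective) : ∀ (y : List K) (F : ℕ → K → List K → ℝ) (a l),
    Ch t F (σ a) (List.map σ l) (y.map σ) = Ch t (fun k e u => F k (σ e) (u.map σ)) a l y
  | [], _, _, _ => rfl
  | d :: y, F, a, l => by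
    rw [List.map_cons, Ch, Ch, ← Ch_map hσ y, ← Ch_map hσ y (fun k => F (k + 1)),
      ← G_map hσ (.inl a)]
    simp

noncomputable def Φ (t : ℝ) (b : ℕ → ℝ) (x : List K) : ℝ :=
  Sp (fun v c y => Ch t (fun k e u => b (k + 1) * G t (.inl e) (u ++ v) (.inl c)) c [] y) x

variable {b : ℕ → ℝ}

lemma Φ_cons (a : K) (x : List K) : Φ t b (a :: x) = Sp (fun v c y => Ch t (fun k e u =>
    b (k + 1) * G t (.inl e) (u ++ a :: v) (.inl c) +
    b (k + 2) * (G t (.inl e) u (.inl a) * G t (.inl a) v (.inl c))) c [] y) x := by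
  rw [Φ, Sp, Ch_first, G_self, mul_zero, zero_add, add_comm, ← Sp_add]
  refine Sp_congr fun v c y _ => ?_
  rw [Ch_add, ← Ch_mul]
  congr 2; funext k e u; simp; ring

lemma Φ_rot (a : K) (x : List K) : Φ t b (x ++ [a]) = Φ t b (a :: x) := by
  rw [Φ_cons, Φ, Sp_snoc, Ch, G_self, mul_zero, add_zero]
  refine Sp_congr fun v c y _ => ?_
  rw [Ch_snoc]
  congr 1; funext k e u; simp; ring

lemma Φ_rotate (x : List K) : ∀ n, Φ t b (x.rotate n) = Φ t b x
  | 0 => by simp
  | n + 1 => by
    rw [← Φ_rotate x n, ← List.rotate_rotate]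
    cases x.rotate n with
    | nil => simp
    | cons a y => simp [Φ_rot]

lemma Φ_dup (a : K) (x : List K) : Φ t b (a :: a :: x) = 0 := by
  rw [Φ_cons, Sp]
  have h1 : ∀ e u v c, G t e (u ++ a :: a :: v) c = 0 := fun _ _ _ _ =>
    G_zero (by simp [pr_append, pr])
  have h2 : ∀ e u, G t e (u ++ [a]) (.inl a) = 0 := fun _ _ => G_zero (by simp [pr_append, pr])
  have h3 : ∀ v c, G t (.inl a) (a :: v) c = 0 := fun _ _ => G_zero (by simp [pr])
  simp [h1, h2, h3, G_self]

include ht in
lemma Φ_nonneg (hb : ∀ k, 0 ≤ b k) (x : List K) : 0 ≤ Φ t b x :=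
  Sp_nonneg _ fun _ _ _ => Ch_nonneg ht _ (fun _ _ _ => mul_nonneg (hb _) (G_nonneg ht ..)) ..

lemma Φ_map {σ : K → K} (hσ : σ.Injective) (x : List K) : Φ t b (x.map σ) = Φ t b x := by
  rw [Φ, Sp_map]
  refine Sp_congr fun v c y _ => (Ch_map hσ y _ c []).trans ?_
  congr 1; funext k e u
  rw [← List.map_append, ← G_map hσ (.inl e)]; rfl

variable [Fintype K] (hq : (Fintype.card K : ℝ) * t = (1 + t) ^ 2)
include ht hq

lemma marg (hb : ∀ k, b (k + 4) = (Fintype.card K - 4) * (b (k + 3) + b (k + 2))) (x : List K) :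
    ∑ a, Φ t b (a :: x) = Sp (fun v c y => G t L v (.inl c) * Ch t (fun k e u =>
      (if k = 0 then (Fintype.card K - 1) * b 2 else (Fintype.card K - 4) * b (k + 1) +
        (Fintype.card K - 2) * b (k + 2)) * G t (.inl e) u R) c [] y) x := by
  set q : ℝ := (Fintype.card K : ℝ) with hqd
  let X : List K → K → ℕ → K → ℕ → ℝ := fun v c k e i =>
    b (k + 2) * (∑ a, G t (.inl a) v (.inl c) - G t (.inl e) v (.inl c)) + b (k + 1) *
      (1 / t * G t L v (.inl c) / br t (v.length + 1) * (1 - dl (.inl e) (.inl c)) +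
        t * t ^ i / br t (i + 1) * ΛL t (i + 1) (.inl e) v (.inl c))
  let Y : List K → K → ℕ → K → ℕ → ℝ := fun v c k e i =>
    b (k + 1) * G t (.inl e) v (.inl c) / br t (i + 1) + b k * (1 / t * G t L v (.inl c) /
      br t (v.length + 1) * (dl (.inl e) (.inl c) / br t (i + 1 + (v.length + 1))))
  let A : ℕ → K → ℕ → K → ℕ → ℝ := fun j c k e i =>
    b (k + 2) * (q - 1 - (1 - dl (.inl e) (.inl c))) + b (k + 1) * (1 - dl (.inl e) (.inl c)) *
      (1 / t / br t (j + 1) + t * t ^ i / br t (i + 1)) - ι k * (b (k + 1) *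
        (1 - dl (.inl e) (.inl c)) / br t (i + 1) + b k * (1 / t / br t (j + 1) *
          (dl (.inl e) (.inl c) / br t (i + 1 + (j + 1)))))
  let B : ℕ → K → ℕ → K → ℕ → ℝ := fun j c k e i =>
    b (k + 1) * t ^ j / br t (j + 1) * (1 - dl (.inl e) (.inl c)) + b k * (t * t ^ i / br t (i + 1) *
      (dl (.inl e) (.inl c) * t ^ (j + (i + 1)) / br t (j + 1 + (i + 1)))) -
      ι (k - 1) * b k * (dl (.inl e) (.inl c) * t ^ j / br t (j + 1)) / br t (i + 1)
  have hdl : ∀ (e : K) (φ : K → ℝ), ∑ a, dl (.inl e) (.inl a) * φ a = φ e := by simp [dl]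
  have hdl' : ∀ (e : K) (φ : K → ℝ), ∑ a, dl (.inl a) (.inl e) * φ a = φ e := by simp [dl]
  have s1 : ∀ v c k e u, ∑ a, (b (k + 1) * G t (.inl e) (u ++ a :: v) (.inl c) +
      b (k + 2) * (G t (.inl e) u (.inl a) * G t (.inl a) v (.inl c))) =
      G t (.inl e) u R * X v c k e u.length -
        SG t (fun _ d m => Y v c (k + 1) d m) (.inl e) u R := fun v c k e u => by
    have : ∑ a, G t (.inl e) u (.inl a) * G t (.inl a) v (.inl c) = G t (.inl e) u R *
        (∑ a, G t (.inl a) v (.inl c) - G t (.inl e) v (.inl c)) -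
          SG t (fun _ d m => G t (.inl d) v (.inl c) / br t (m + 1)) (.inl e) u R := by
      simp only [L1R ht (a := .inl e) (b := .inl _) (by simp) _ u rfl, ΛR, SG, sub_mul,
        Finset.sum_sub_distrib, mul_comm (Sp _ _), ← Sp_mul, ← Sp_sum, one_mul, mul_assoc, hdl,
        ← Finset.mul_sum, mul_sub]
      refine congrArg _ (Sp_congr fun l d r _ => (Finset.sum_congr rfl fun a _ => ?_).trans
        (hdl' d fun a => G t (.inl a) v (.inl c) / br t (r.length + 1) *
          (G t (.inl e) l (.inl d) * G t (.inl d) r R)))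
      ring
    rw [Finset.sum_add_distrib, ← Finset.mul_sum, ← Finset.mul_sum, this,
      L2 ht hq (by simp) (by simp) _ u v rfl, ΛR, ← one_mul (SG t (fun _ d m => Y _ _ _ d m) ..),
      SG_lin (x₁ := b (k + 2)) (x₂ := b (k + 1) * (1 / t * G t L v (.inl c) / br t (v.length + 1)))
        (κ₁ := fun _ d m => G t (.inl d) v (.inl c) / br t (m + 1))
        (κ₂ := fun _ d m => dl (.inl c) (.inl d) / br t (m + 1 + (v.length + 1)))
        fun l d r _ => by simp only [Y, dl, eq_comm]; ring]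
    simp only [X, ind_inl]; ring
  have s2 : ∀ v c k e i, X v c k e i - ι k * Y v c k e i = G t L v (.inl c) * A v.length c k e i -
      SG t (fun l d _ => B l d (k + 1) e i) L v (.inl c) := fun v c k e i => by
    have : ∑ a, G t (.inl a) v (.inl c) = (q - 1) * G t L v (.inl c) -
        SG t (fun l _ _ => t ^ l / br t (l + 1)) L v (.inl c) := by
      simp only [L1L ht (a := .inl _) (b := .inl c) (by simp) _ v rfl, ΛL, SG, sub_mul,
        Finset.sum_sub_distrib, ← Sp_sum, one_mul, hdl' c fun _ => G t L v (.inl c),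
        Finset.sum_const, Finset.card_univ, nsmul_eq_mul]
      refine congrArg _ (Sp_congr fun l d r _ => (Finset.sum_congr rfl fun a _ => ?_).trans
        (hdl' d fun a => t ^ l.length / br t (l.length + 1) *
          (G t L l (.inl d) * G t (.inl d) r (.inl c))))
      ring
    simp only [X, Y, A, B, this, L1L ht (a := .inl e) (b := .inl c) (by simp) _ v rfl, ΛL, SG]
    rw [Sp_congr (w := v) (φ := fun l d r => (_ + _ - _) * _) (ψ := fun l d r =>
      b (k + 2) * (t ^ l.length / br t (l.length + 1) *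
        (G t L l (.inl d) * G t (.inl d) r (.inl c))) +
      (-b (k + 2) - ι k * b (k + 1) / br t (i + 1)) * (dl (.inl e) (.inl d) * t ^ (l.length + 0) /
        br t (l.length + 1 + 0) * (G t L l (.inl d) * G t (.inl d) r (.inl c))) +
      (b (k + 1) * (t * t ^ i / br t (i + 1))) * (dl (.inl e) (.inl d) * t ^ (l.length + (i + 1)) /
        br t (l.length + 1 + (i + 1)) * (G t L l (.inl d) * G t (.inl d) r (.inl c))))
      fun l d r _ => by simp only [Nat.add_sub_cancel]; ring, Sp_add, Sp_add, Sp_mul, Sp_mul, Sp_mul]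
    ring
  have s3 : ∀ v c y, ∑ a, Ch t (fun k e u => b (k + 1) * G t (.inl e) (u ++ a :: v) (.inl c) +
      b (k + 2) * (G t (.inl e) u (.inl a) * G t (.inl a) v (.inl c))) c [] y =
      G t L v (.inl c) * Ch t (fun k e u => A v.length c k e u.length * G t (.inl e) u R) c [] y -
      Sp (fun l d r => G t L l (.inl d) * (G t (.inl d) r (.inl c) * Ch t (fun k e u =>
        B l.length d (k + 1) e u.length * G t (.inl e) u R) c [] y)) v := fun v c y => by
    have := Ch_last (t := t) y (fun k d r => Y v c k d r.length * G t (.inl d) r R) c []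
    simp only [Sp, add_zero, mul_left_comm (G t _ _ _) (Y ..)] at this
    simp only [← Ch_sum, s1, Ch_sub, SG, this, ← Ch_mul, ← Ch_Sp]
    simp only [← Ch_sub]
    congr 1; funext k e u
    have := s2 v c k e u.length
    rw [Sp_congr (w := v) (ψ := fun l d r => G t (.inl e) u R * (B l.length d (k + 1) e u.length *
      (G t L l (.inl d) * G t (.inl d) r (.inl c)))) fun l d r _ => by ring, Sp_mul]
    simp only [SG] at this
    linear_combination G t (.inl e) u R * this
  simp only [Φ_cons, ← Sp_sum, s3, Sp_sub]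
  rw [Sp_assoc x fun l d r c y => G t L l (.inl d) * (G t (.inl d) r (.inl c) * Ch t (fun k e u =>
    B l.length d (k + 1) e u.length * G t (.inl e) u R) c [] y), ← Sp_sub]
  refine Sp_congr fun v c y _ => ?_
  rw [Sp_mul, ← Ch_first' y fun k e u => B v.length c k e u.length * G t (.inl e) u R, ← mul_sub,
    ← Ch_sub]
  have h1 : ∀ n, br t (n + 1) ≠ 0 := fun n => (br_pos ht (by simp)).ne'
  have hq' : q = (1 + t) ^ 2 / t := by rw [← hq]; field_simp
  have hne : ∀ k e (u : List K), e ≠ c → A v.length c (k + 1) e u.length * G t (.inl e) u R -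
      ι (k + 1) * (B v.length c (k + 1) e u.length * G t (.inl e) u R) =
      ((q - 4) * b (k + 1 + 1) + (q - 2) * b (k + 1 + 2)) * G t (.inl e) u R := fun k e u h => by
    have e1 := br_pow t (u.length + 1)
    have e2 := br_pow t (v.length + 1)
    have e3 : t ^ v.length = (1 - (1 - t) * br t (v.length + 1)) / t := by
      rw [← e2]; field_simp; ring
    rw [pow_succ'] at e1
    simp only [A, B, dl, ι, Sum.inl.injEq, h, if_false, Nat.succ_ne_zero, e1, e3, hq']
    field_simp [h1]; ring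
  refine congrArg _ (Ch_congr (fun u => by simp [A, ι, dl, mul_comm]) (fun e h u => hne 0 e u h)
    fun k e u => ?_)
  by_cases h : e = c
  swap
  · exact hne (k + 1) e u h
  have e1 := br_pow t (u.length + 1)
  have e2 := br_pow t (v.length + 1)
  have e3 : t ^ v.length = (1 - (1 - t) * br t (v.length + 1)) / t := by
    rw [← e2]; field_simp; ring
  have e4 : br t (v.length + 1 + (u.length + 1)) = br t (u.length + 1 + (v.length + 1)) := by
    rw [add_comm]
  have e5 := (br_pos ht (n := u.length + 1 + (v.length + 1)) (by simp)).ne'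
  have e6 := br_add t (u.length + 1) (v.length + 1)
  rw [e1] at e6
  simp only [A, B, dl, ι, h, if_true, if_false, Nat.succ_ne_zero, pow_add t v.length, ← pow_succ',
    e1, e3, e4, add_assoc k, hb k, hq', Nat.add_succ_sub_one]
  norm_num
  field_simp [h1]
  rw [e6]; ring

end Pool.Agent.H45.Cyc
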