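import Pool.Agent.H45.Cyc3

set_option maxHeartbeats 400000

open Classical

namespace Pool.Agent.H45.Cyc

variable {K : Type} {t : ℝ} (ht : 0 < t)
include ht

lemma RC : ∀ (n : ℕ) (a : K) (y : List K), y.length = n →
    Ch t (fun k e u => ((1 - t) / t) ^ k * G t (.inl e) u R) a [] y =
      G t (.inl a) y R / t ^ n := by
  intro n
  induction n using Nat.strong_induction_on with | _ n ih => ?_
  intro a y hy
  rw [Ch_first, Sp_congr (w := y) (ψ := fun r c y' => (1 - t) / t ^ n * (t ^ r.length *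
    (G t (.inl a) r (.inl c) * G t (.inl c) y' R))) fun r c y' e => ?_, Sp_mul]
  · have := I1 ht (a := .inl a) (b := R) (by simp) n y hy
    rw [SG] at this
    rw [this, ← mul_assoc, div_mul_eq_mul_div, show (1 - t) * br t n = 1 - t ^ n by
      rw [br_pow]; ring]
    field_simp; simp; ring
  · have hn : n = r.length + y'.length + 1 := by simp [← hy, e, add_assoc]
    simp only [pow_succ', mul_assoc, Ch_mul, ih y'.length (by omega) c y' rfl, hn, pow_add]
    field_simp; simp; ring

lemma LC (φ : K → List K → ℝ) (x : List K) :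
    Sp (fun v c y => G t L v (.inl c) * Ch t (fun k e u => (t - 1) ^ k * φ e u) c [] y) x =
      Sp (fun v c y => t ^ v.length * (G t L v (.inl c) * φ c y)) x := by
  rw [Sp_congr (w := x) (ψ := fun v c y => t ^ v.length * G t L v (.inl c) *
      Ch t (fun k e u => (t - 1) ^ k * φ e u) c [] y - Sp (fun l d r => t ^ l.length *
      G t L l (.inl d) * ((t - 1) * (G t (.inl d) r (.inl c) *
        Ch t (fun k e u => (t - 1) ^ k * φ e u) c [] y))) v) fun v c y _ => ?_, Sp_sub,
    Sp_assoc x fun l d r c y => t ^ l.length * G t L l (.inl d) * ((t - 1) *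
      (G t (.inl d) r (.inl c) * Ch t (fun k e u => (t - 1) ^ k * φ e u) c [] y)), ← Sp_sub]
  · refine Sp_congr fun v c y _ => ?_
    rw [Sp_mul, Sp_mul, Ch_first]
    simp only [pow_succ', mul_assoc, Ch_mul, mul_left_comm _ (t - 1), Sp_mul, List.nil_append]
    ring
  · have := I1 ht (a := L) (b := .inl c) (by simp) _ v rfl
    rw [Sp_congr (w := v) (ψ := fun l d r => (t - 1) * Ch t (fun k e u => (t - 1) ^ k * φ e u) c [] y
      * (t ^ l.length * (G t L l (.inl d) * G t (.inl d) r (.inl c)))) fun _ _ _ _ => by ring,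
      Sp_mul, ← SG.eq_1 t (fun l _ _ => t ^ l), this, br_pow t v.length]
    ring

variable [Fintype K]

lemma marg_lt (hq : (Fintype.card K : ℝ) * t = (1 + t) ^ 2) (x : List K) :
    ∑ a, Φ t (fun m => ((1 - t) / t) ^ m - (t - 1) ^ m) (a :: x) = (1 - t ^ 2) * (1 - t) *
      br t x.length * (1 / t ^ (x.length + 2) - 1) * G t L x R := by
  have hq' : (Fintype.card K : ℝ) = (1 + t) ^ 2 / t := by rw [← hq]; field_simp
  rw [marg ht hq (fun k => by simp only [hq', pow_add]; field_simp; ring),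
    Sp_congr (w := x) (ψ := fun v c y => (1 - t ^ 2) * (1 - t) / t ^ (x.length + 2) *
      (t ^ v.length * (G t L v (.inl c) * G t (.inl c) y R)) + (1 - t ^ 2) * (t - 1) *
      (G t L v (.inl c) * Ch t (fun k e u => (t - 1) ^ k * G t (.inl e) u R) c [] y))
      fun v c y e => ?_, Sp_add, Sp_mul, Sp_mul, LC ht,
      ← SG.eq_1 t (fun l _ _ => t ^ l), I1 ht (by simp) _ x rfl]
  · ring
  have := Ch_add (t := t) y (fun k e u => (1 - t ^ 2) * (1 - t) / t ^ 3 * (((1 - t) / t) ^ k *
    G t (.inl e) u R)) (fun k e u => (1 - t ^ 2) * (t - 1) * ((t - 1) ^ k * G t (.inl e) u R)) c []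
  rw [Ch_mul, Ch_mul, RC ht _ c y rfl] at this
  rw [show x.length + 2 = v.length + y.length + 3 by simp [e]; omega]
  refine (congrArg _ ((congrArg (Ch t · c [] y) ?_).trans this)).trans ?_
  · funext k e u
    rw [hq']
    split_ifs with h
    · subst h; field_simp; ring
    · simp only [pow_add]; field_simp; ring
  · field_simp; ring

omit ht in
lemma marg_one (hq : Fintype.card K = 4) (x : List K) :
    ∑ a, Φ 1 (fun m => if m = 2 ∨ m = 3 then 1 else 0) (a :: x) =
      x.length * (x.length + 2) * G 1 L x R := by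
  have hI : ∀ {a b : E K} (_ : a ≠ b) (w : List K), Sp (fun l c r => G 1 a l (.inl c) *
      G 1 (.inl c) r b) w = w.length * G 1 a w b := fun h w => by
    simpa [SG, br] using I1 one_pos h _ w rfl
  have h1 := Sp_assoc x fun l d r c y => G 1 L l (.inl d) * G 1 (.inl d) r (.inl c) *
    G 1 (.inl c) y R
  simp only [mul_comm _ (G 1 _ _ R), Sp_mul, hI (a := L) (b := .inl _) (by simp)] at h1
  simp only [mul_comm (G 1 _ _ R), mul_assoc, Sp_mul, hI (a := .inl _) (b := R) (by simp)] at h1
  have h2 : Sp (fun v c y => v.length * (G 1 L v (.inl c) * G 1 (.inl c) y R) +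
      G 1 L v (.inl c) * (y.length * G 1 (.inl c) y R)) x = (x.length - 1) * (x.length *
      G 1 L x R) := by
    rw [← hI (by simp), ← Sp_mul]
    exact Sp_congr fun v c y e => by simp [e]; ring
  rw [Sp_add, h1] at h2
  rw [marg one_pos (by simp [hq]; norm_num) (by simp [hq]),
    Sp_congr (w := x) (ψ := fun v c y => 3 * (G 1 L v (.inl c) * G 1 (.inl c) y R) +
      2 * (G 1 L v (.inl c) * (y.length * G 1 (.inl c) y R))) fun v c y e => ?_, Sp_add, Sp_mul,
      Sp_mul, hI (by simp)]
  · linear_combination h2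
  rw [Ch_first, ← hI (by simp), Sp_congr (w := y) (ψ := fun r d y' => 2 * (G 1 (.inl c) r (.inl d) *
    G 1 (.inl d) y' R)) fun r d y' _ => ?_, Sp_mul]
  · simp [hq]; ring
  · rw [Ch_first]; simp [hq]; ring

omit ht in
lemma exists_Φ (hq : 4 ≤ Fintype.card K) : ∃ (t : ℝ) (b : ℕ → ℝ), 0 < t ∧
    (Fintype.card K : ℝ) * t = (1 + t) ^ 2 ∧ (∀ k, 0 ≤ b k) ∧ ∀ N ≠ 0, ∃ C > 0,
      ∀ x : List K, x.length = N → ∑ a, Φ t b (a :: x) = C * G t L x R := by
  rcases hq.eq_or_lt with h | h
  · refine ⟨1, _, one_pos, by rw [← h]; norm_num, fun k => by positivity, fun N hN =>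
      ⟨N * (N + 2), by positivity, fun x hx => hx ▸ marg_one h.symm x⟩⟩
  have h5 : (5 : ℝ) ≤ Fintype.card K := by exact_mod_cast h
  set q : ℝ := (Fintype.card K : ℝ) with hq'
  have hs := Real.sq_sqrt (show 0 ≤ q ^ 2 - 4 * q by nlinarith)
  have h1 : √(q ^ 2 - 4 * q) < q - 2 := (Real.sqrt_lt' (by linarith)).2 (by linarith)
  have h2 : q - 4 < √(q ^ 2 - 4 * q) := Real.lt_sqrt_of_sq_lt (by linarith)
  set t := (q - 2 - √(q ^ 2 - 4 * q)) / 2 with htd
  have h0 : 0 < t := by linarith
  have h3 : t < 1 := by linarith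
  have h4 : q * t = (1 + t) ^ 2 := by rw [htd]; linarith
  refine ⟨t, _, h0, h4, fun k => sub_nonneg.2 ((le_abs_self _).trans ?_), fun N hN =>
    ⟨_, ?_, fun x hx => hx ▸ marg_lt h0 h4 x⟩⟩
  · rw [abs_pow, abs_sub_comm, abs_of_pos (by linarith)]
    exact pow_le_pow_left₀ (by linarith) (le_div_self (by linarith) h0 h3.le) _
  · have := pow_lt_one₀ h0.le h3 (n := 2) (by simp)
    have := one_lt_one_div (pow_pos h0 _) (pow_lt_one₀ h0.le h3 (n := N + 2) (by simp))
    exact mul_pos (mul_pos (mul_pos (by linarith) (by linarith)) (br_pos h0 hN)) (by linarith)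

noncomputable def p (t : ℝ) (w : List K) : ℝ :=
  G t L w R / (br t (w.length + 1) * ((1 + t) / t) ^ w.length)

omit ht [Fintype K] in
lemma p_nil : p t ([] : List K) = 1 := by simp [p, G_nil]

lemma p_sum (hq : (Fintype.card K : ℝ) * t = (1 + t) ^ 2) (u v : List K) :
    ∑ x, p t (u ++ x :: v) = p t u * p t v := by
  have h1 : ∀ n, br t (n + 1) ≠ 0 := fun n => (br_pos ht (by simp)).ne'
  have e := br_add t (u.length + 1) (v.length + 1)
  simp only [p, List.length_append, List.length_cons, ← Finset.sum_div,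
    L2 ht hq (a := L) (b := R) (by simp) (by simp) _ u v rfl]
  rw [show u.length + (v.length + 1) + 1 = u.length + 1 + (v.length + 1) by omega]
  have := (br_pos ht (n := u.length + 1 + (v.length + 1)) (by simp)).ne'
  simp [ΛR, ΛL, SG, dl, pow_add]
  field_simp [h1]
  rw [e]; ring

end Pool.Agent.H45.Cyc
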