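import Pool.Agent.H45.Cyc4

set_option maxHeartbeats 400000

open Classical MeasureTheory ProbabilityTheory

namespace Pool.Agent.H45.Cyc

variable {K : Type} [Fintype K]

lemma sum_cons {n : ℕ} (F : (Fin (n + 1) → K) → ℝ) :
    ∑ x, F x = ∑ a, ∑ x : Fin n → K, F (Fin.cons a x) := by
  rw [← (Fin.consEquiv fun _ => K).sum_comp, Fintype.sum_prod_type]; rfl

omit [Fintype K] in
lemma dep_cons {n : ℕ} {A : Set (Fin (n + 1))} {f : (Fin (n + 1) → K) → ℝ} (hf : DependsOn f A)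
    (a : K) : DependsOn (fun x : Fin n → K => f (Fin.cons a x)) (Fin.succ ⁻¹' A) :=
  fun _ _ h => hf fun i hi => by cases i using Fin.cases; exacts [rfl, h _ hi]

omit [Fintype K] in
lemma dep_cons' {n : ℕ} {A : Set (Fin (n + 1))} {f : (Fin (n + 1) → K) → ℝ} (hf : DependsOn f A)
    (h : 0 ∉ A) (a₀ a : K) (x : Fin n → K) : f (Fin.cons a x) = f (Fin.cons a₀ x) :=
  hf fun i hi => by cases i using Fin.cases; exacts [absurd hi h, rfl]

variable {P : List K → ℝ} (h0 : P [] = 1) (h1 : ∀ u v, ∑ x, P (u ++ x :: v) = P u * P v) (a₀ : K)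

include h0 h1 a₀ in
lemma path_ind : ∀ (N : ℕ) (A B : Set (Fin N)) (f g : (Fin N → K) → ℝ) (u : List K),
    (∀ a ∈ A, ∀ b ∈ B, a.1 ≠ b.1 ∧ a.1 + 1 ≠ b.1 ∧ b.1 + 1 ≠ a.1) → DependsOn f A → DependsOn g B →
    (∀ i ∈ B, i.1 ≠ 0) → ∑ x, P (u ++ List.ofFn x) * (f x * g x) =
      (∑ x, P (u ++ List.ofFn x) * f x) * ∑ x, P (List.ofFn x) * g x
  | 0, _, _, _, _, _, _, _, _, _ => by simp [h0, mul_assoc]
  | N + 1, A, B, f, g, u, hs, hf, hg, hB => by
    have hB' : 0 ∉ B := fun h => hB 0 h rfl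
    have hs' : ∀ a ∈ Fin.succ ⁻¹' A, ∀ b ∈ Fin.succ ⁻¹' B,
        a.1 ≠ b.1 ∧ a.1 + 1 ≠ b.1 ∧ b.1 + 1 ≠ a.1 := fun a ha b hb => by
      simpa using hs _ ha _ hb
    have h2 : ∀ v, ∑ x, P (x :: v) = P v := fun v => by simpa [h0] using h1 [] v
    simp only [sum_cons, List.ofFn_cons, dep_cons' hg hB' a₀]
    rw [Finset.sum_comm (f := fun a x => P (a :: _) * _)]
    simp only [← Finset.sum_mul, h2]
    by_cases hA : 0 ∈ A
    · rw [Finset.sum_mul]
      refine Finset.sum_congr rfl fun a _ => ?_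
      simpa using path_ind N _ _ _ _ (u ++ [a]) hs' (dep_cons hf a) (dep_cons hg a₀)
        fun i hi h => (hs 0 hA _ hi).2.1 (by simp [h])
    simp only [dep_cons' hf hA a₀]
    rw [Finset.sum_comm, Finset.sum_comm (f := fun a x => P (u ++ a :: _) * _)]
    simp only [← Finset.sum_mul, h1, mul_assoc, ← Finset.mul_sum]
    congr 1
    by_cases h : ∀ i ∈ Fin.succ ⁻¹' B, i.1 ≠ 0
    · exact path_ind N _ _ _ _ [] hs' (dep_cons hf a₀) (dep_cons hg a₀) h
    · push Not at h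
      obtain ⟨j, hj, hj0⟩ := h
      have := path_ind N _ _ _ _ [] (fun b hb a ha => by have := hs' a ha b hb; omega)
        (dep_cons hg a₀) (dep_cons hf a₀) fun i hi h => (hs' i hi j hj).1 (by omega)
      simpa [mul_comm] using this

include h0 h1 in
lemma path_sum : ∀ N : ℕ, ∑ x : Fin N → K, P (List.ofFn x) = 1
  | 0 => by simp [h0]
  | N + 1 => by
    have h2 : ∀ v, ∑ x, P (x :: v) = P v := fun v => by simpa [h0] using h1 [] v
    simp only [sum_cons, List.ofFn_cons]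
    rw [Finset.sum_comm]
    simp only [h2, path_sum N]

def near {n : ℕ} (a b : Fin (n + 2)) : Prop := a = b ∨ a + 1 = b ∨ b + 1 = a

structure Good {n : ℕ} (w : (Fin (n + 2) → K) → ℝ) (rel : Fin (n + 2) → Fin (n + 2) → Prop) :
    Prop where
  nonneg : ∀ x, 0 ≤ w x
  sum : ∑ x, w x = 1
  proper : ∀ x i, x i = x (i + 1) → w x = 0
  symm : ∀ (σ : Equiv.Perm K) x, w (σ ∘ x) = w x
  ind : ∀ (A B : Set (Fin (n + 2))) (f g : (Fin (n + 2) → K) → ℝ), (∀ a ∈ A, ∀ b ∈ B, ¬rel a b) →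
    DependsOn f A → DependsOn g B → ∑ x, w x * (f x * g x) = (∑ x, w x * f x) * ∑ x, w x * g x

omit [Fintype K] in
lemma ofFn_rot {n : ℕ} (x : Fin (n + 1) → K) (c : Fin (n + 1)) :
    List.ofFn (fun i => x (i + c)) = (List.ofFn x).rotate c := by
  refine List.ext_getElem (by simp) fun i _ _ => ?_
  simp only [List.getElem_rotate, List.getElem_ofFn, List.length_ofFn]
  rfl

lemma good_one (hq : 4 ≤ Fintype.card K) (n : ℕ) :
    ∃ w : (Fin (n + 2) → K) → ℝ, Good w near := by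
  obtain ⟨t, b, ht, hq', hb, H⟩ := exists_Φ hq
  obtain ⟨C, hC, H⟩ := H (n + 1) (by simp)
  obtain ⟨a₀⟩ : Nonempty K := Fintype.card_pos_iff.1 (by omega)
  have hZ := br_pos ht (n := n + 2) (by simp)
  let w : (Fin (n + 2) → K) → ℝ := fun x =>
    Φ t b (List.ofFn x) / (C * (br t (n + 2) * ((1 + t) / t) ^ (n + 1)))
  have w1 : ∀ x : Fin (n + 1) → K, ∑ a, w (Fin.cons a x) = p t (List.ofFn x) := fun x => by
    simp only [w, List.ofFn_cons, ← Finset.sum_div, H _ (List.length_ofFn (f := x)), p,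
      List.length_ofFn, mul_div_mul_left _ _ hC.ne']
  have w2 : ∀ x c, w (fun i => x (i + c)) = w x := fun x c => by simp only [w, ofFn_rot, Φ_rotate]
  have w3 : ∑ x, w x = 1 := by
    rw [sum_cons, Finset.sum_comm]; simp only [w1, path_sum p_nil (p_sum ht hq')]
  have w4 : ∀ (A B : Set (Fin (n + 2))) (f g : (Fin (n + 2) → K) → ℝ),
      (∀ a ∈ A, ∀ b ∈ B, ¬near a b) → DependsOn f A → DependsOn g B → 0 ∉ A → 0 ∉ B →
      ∑ x, w x * (f x * g x) = (∑ x, w x * f x) * ∑ x, w x * g x := by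
    intro A B f g hs hf hg hA hB
    have : ∀ F : (Fin (n + 1) → K) → ℝ, ∑ a, ∑ x, w (Fin.cons a x) * F x =
        ∑ x, p t (List.ofFn x) * F x := fun F => by
      rw [Finset.sum_comm]; simp only [← Finset.sum_mul, w1]
    simp only [sum_cons (n := n + 1), dep_cons' hf hA a₀, dep_cons' hg hB a₀, this]
    have hs' : ∀ a ∈ Fin.succ ⁻¹' A, ∀ b ∈ Fin.succ ⁻¹' B,
        a.1 ≠ b.1 ∧ a.1 + 1 ≠ b.1 ∧ b.1 + 1 ≠ a.1 := fun a ha b hb => by
      have e : ∀ a b : Fin (n + 1), a.1 + 1 = b.1 → a.succ + 1 = b.succ := fun a b h =>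
        Fin.ext (by rw [Fin.val_add_one_of_lt' (by simp; omega)]; simp [h])
      exact ⟨fun h => hs _ ha _ hb (.inl (by rw [Fin.ext h])),
        fun h => hs _ ha _ hb (.inr (.inl (e _ _ h))), fun h => hs _ ha _ hb (.inr (.inr (e _ _ h)))⟩
    by_cases h : ∀ i ∈ Fin.succ ⁻¹' B, i.1 ≠ 0
    · exact path_ind p_nil (p_sum ht hq') a₀ _ _ _ _ _ [] hs' (dep_cons hf a₀) (dep_cons hg a₀) h
    · push Not at h
      obtain ⟨j, hj, hj0⟩ := h
      have := path_ind p_nil (p_sum ht hq') a₀ _ _ _ _ _ []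
        (fun b hb a ha => by have := hs' a ha b hb; omega)
        (dep_cons hg a₀) (dep_cons hf a₀) fun i hi h => (hs' i hi j hj).1 (by omega)
      simpa [mul_comm] using this
  refine ⟨w, fun x => div_nonneg (Φ_nonneg ht hb _) (by positivity), w3, fun x i h => ?_,
    fun σ x => by simp only [w, ← List.map_ofFn, Φ_map σ.injective], fun A B f g hs hf hg => ?_⟩
  · rw [← w2 x i]
    simp only [w, List.ofFn_succ (n := n + 1), List.ofFn_succ (n := n), zero_add, Fin.succ_zero_eq_one,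
      add_comm 1 i, ← h, Φ_dup, zero_div]
  by_cases hc : ∃ c, c ∉ A ∧ c ∉ B
  · obtain ⟨c, hA, hB⟩ := hc
    let T : (Fin (n + 2) → K) ≃ (Fin (n + 2) → K) := (Equiv.addRight c).arrowCongr (.refl K)
    have hw : ∀ y, w (T y) = w y := fun y => w2 y (-c)
    have hd : ∀ {A f}, DependsOn (α := fun _ => K) (β := ℝ) f A →
        DependsOn (fun y => f (T y)) {j | j + c ∈ A} := fun hf _ _ h => hf fun i hi =>
          h _ (by simpa using hi)
    rw [← T.sum_comp, ← T.sum_comp fun x => w x * f x, ← T.sum_comp fun x => w x * g x]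
    simp only [hw]
    refine w4 {j | j + c ∈ A} {j | j + c ∈ B} _ _ (fun a ha b hb h => hs _ ha _ hb ?_) (hd hf)
      (hd hg) (by simpa) (by simpa)
    rcases h with rfl | rfl | rfl
    exacts [.inl rfl, .inr (.inl (add_right_comm ..)), .inr (.inr (add_right_comm ..))]
  push Not at hc
  have hA : ∀ i, i ∈ A ↔ 0 ∈ A := by
    refine Fin.induction Iff.rfl fun i ih => Iff.trans ⟨fun h => ?_, fun h => ?_⟩ ih
    · by_contra h'; exact hs _ h _ (hc _ h') (.inr (.inr Fin.coeSucc_eq_succ))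
    · by_contra h'; exact hs _ h _ (hc _ h') (.inr (.inl Fin.coeSucc_eq_succ))
  by_cases h : 0 ∈ A
  · have : ∀ x, g x = g fun _ => a₀ := fun x => hg fun i hi =>
      absurd (.inl rfl) (hs i ((hA i).2 h) i hi)
    simp only [this, ← mul_assoc, ← Finset.sum_mul, w3, one_mul]
  · have : ∀ x, f x = f fun _ => a₀ := fun x => hf fun i hi => absurd ((hA i).1 hi) h
    simp only [this, mul_left_comm (w _), ← Finset.mul_sum, ← Finset.sum_mul, w3, one_mul]

lemma prod_ind (a₀ : K) : ∀ (n : ℕ) (A B : Set (Fin n)) (f g : (Fin n → K) → ℝ)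
    (κ κ₁ κ₂ : Fin n → K → ℝ), Disjoint A B → DependsOn f A → DependsOn g B →
    (∀ i, ∑ a, κ i a = 1) → (∀ i, ∑ a, κ₁ i a = 1) → (∀ i, ∑ a, κ₂ i a = 1) →
    (∀ i ∈ A, κ₁ i = κ i) → (∀ i ∈ B, κ₂ i = κ i) → ∑ y : Fin n → K, (∏ i, κ i (y i)) * (f y * g y) =
      (∑ y : Fin n → K, (∏ i, κ₁ i (y i)) * f y) * ∑ y : Fin n → K, (∏ i, κ₂ i (y i)) * g y
  | 0, _, _, _, _, _, _, _, _, _, _, _, _, _, _, _ => by simp
  | n + 1, A, B, f, g, κ, κ₁, κ₂, hd, hf, hg, s, s₁, s₂, e₁, e₂ => by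
    have ih := fun a a' => prod_ind a₀ n _ _ _ _ (fun i => κ i.succ) (fun i => κ₁ i.succ)
      (fun i => κ₂ i.succ) (hd.preimage Fin.succ) (dep_cons hf a) (dep_cons hg a') (fun _ => s _)
      (fun _ => s₁ _) (fun _ => s₂ _) (fun _ => e₁ _) fun _ => e₂ _
    simp only [sum_cons, Fin.prod_univ_succ, Fin.cons_zero, Fin.cons_succ, mul_assoc,
      ← Finset.mul_sum, ih]
    by_cases hA : 0 ∈ A
    · simp only [dep_cons' hg (hd.notMem_of_mem_left hA) a₀, ← Finset.sum_mul, s₂, e₁ 0 hA,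
        ← mul_assoc, one_mul]
    · simp only [dep_cons' hf hA a₀, mul_left_comm (κ 0 _), ← Finset.sum_mul, s₁, one_mul,
        ← Finset.mul_sum]
      by_cases hB : 0 ∈ B
      · rw [e₂ 0 hB]
      · simp only [dep_cons' hg hB a₀, ← Finset.sum_mul, s, s₂]

def κ6 (l c r : Option (Fin 3)) (y : Fin 3) : ℕ :=
  if c = some y then 6 else if c ≠ none ∨ l = some y ∨ r = some y then 0 else
    6 / (Finset.univ.filter fun z => l ≠ some z ∧ r ≠ some z).card

lemma κ6_sum : ∀ l c r, ∑ y, κ6 l c r y = 6 := by decide +kernel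
lemma κ6_prop : ∀ l c r r' y, κ6 l c r y ≠ 0 → κ6 c r r' y ≠ 0 → c = r := by decide +kernel
lemma κ6_symm : ∀ (σ : Equiv.Perm (Fin 3)) l c r y,
    κ6 (σ.optionCongr l) (σ.optionCongr c) (σ.optionCongr r) (σ y) = κ6 l c r y := by
  decide +kernel

lemma good_three (n : ℕ) : ∃ w : (Fin (n + 2) → Fin 3) → ℝ,
    Good w fun a b => ∃ a' b', near a a' ∧ near a' b' ∧ near b' b := by
  obtain ⟨w, hw⟩ := good_one (K := Option (Fin 3)) (by simp) n
  let κ : (Fin (n + 2) → Option (Fin 3)) → Fin (n + 2) → Fin 3 → ℝ := fun x i y =>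
    κ6 (x (i - 1)) (x i) (x (i + 1)) y / 6
  have hκ : ∀ x i, ∑ y, κ x i y = 1 := fun x i => by
    simp only [κ, ← Finset.sum_div, ← Nat.cast_sum, κ6_sum]; norm_num
  have h1 : ∀ x, ∑ y : Fin (n + 2) → Fin 3, ∏ i, κ x i (y i) = 1 := fun x => by
    rw [← Fintype.piFinset_univ, ← Finset.prod_univ_sum]; simp [hκ]
  have h2 : ∀ F : (Fin (n + 2) → Fin 3) → ℝ, ∑ y, (∑ x, w x * ∏ i, κ x i (y i)) * F y =
      ∑ x, w x * ∑ y, (∏ i, κ x i (y i)) * F y := fun F => by
    simp only [Finset.sum_mul, Finset.mul_sum, mul_assoc]; exact Finset.sum_comm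
  have h3 : ∀ {A f}, DependsOn (α := fun _ => Fin 3) (β := ℝ) f A → DependsOn
      (fun x => ∑ y, (∏ i, κ x i (y i)) * f y) {i | ∃ a ∈ A, near a i} := by
    intro A f hf x x' h
    have := prod_ind 0 _ A ∅ f (fun _ => 1) (κ x) (κ x') (κ x) (by simp) hf (fun _ _ _ => rfl)
      (hκ x) (hκ x') (hκ x) (fun i hi => ?_) (by simp)
    · simpa [h1] using this
    · simp only [κ, h i ⟨i, hi, .inl rfl⟩, h (i + 1) ⟨i, hi, .inr (.inl rfl)⟩,
        h (i - 1) ⟨i, hi, .inr (.inr (by simp))⟩]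
  refine ⟨fun y => ∑ x, w x * ∏ i, κ x i (y i), fun y => Finset.sum_nonneg fun x _ =>
    mul_nonneg (hw.nonneg x) (Finset.prod_nonneg fun i _ => by positivity), ?_,
    fun y i h => Finset.sum_eq_zero fun x _ => ?_, fun σ y => ?_, fun A B f g hs hf hg => ?_⟩
  · simpa [h1, hw.sum] using h2 fun _ => 1
  · by_contra hc
    obtain ⟨h4, h5⟩ := mul_ne_zero_iff.1 hc
    have h6 := fun i => (Finset.prod_ne_zero_iff.1 h5 i (Finset.mem_univ _))
    refine h4 (hw.proper x i (κ6_prop (x (i - 1)) _ _ (x (i + 1 + 1)) (y i) ?_ ?_))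
    · simpa [κ] using h6 i
    · simpa [κ, h] using h6 (i + 1)
  · rw [← ((Equiv.refl _).arrowCongr σ.optionCongr).sum_comp]
    refine Finset.sum_congr rfl fun x _ => congrArg₂ _ (hw.symm σ.optionCongr x) ?_
    exact Finset.prod_congr rfl fun i _ => congrArg (fun m : ℕ => (m : ℝ) / 6) (κ6_symm σ ..)
  · rw [h2, h2, h2, ← hw.ind _ _ _ _ ?_ (h3 hf) (h3 hg)]
    · refine Finset.sum_congr rfl fun x _ => congrArg _ (prod_ind 0 _ A B f g _ _ _ ?_ hf hg (hκ x)
        (hκ x) (hκ x) (fun _ _ => rfl) fun _ _ => rfl)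
      exact Set.disjoint_left.2 fun a ha hb => hs a ha a hb ⟨a, a, .inl rfl, .inl rfl, .inl rfl⟩
    · rintro a' ⟨a, ha, h⟩ b' ⟨b, hb, h'⟩ h''
      exact hs a ha b hb ⟨a', b', h, h'', by unfold near at *; tauto⟩

lemma near_dist {n : ℕ} {a b : Fin (n + 2)} (h : near a b) :
    (SimpleGraph.cycleGraph (n + 2)).dist a b ≤ 1 := by
  rcases h with rfl | rfl | rfl
  · simp
  all_goals exact (SimpleGraph.dist_eq_one_iff_adj.2 (by simp [SimpleGraph.cycleGraph_adj])).le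

lemma to_measure {n q k : ℕ} {w : (Fin (n + 2) → Fin q) → ℝ} {rel} (hw : Good w rel)
    (hk : ∀ a b, rel a b → (SimpleGraph.cycleGraph (n + 2)).dist a b ≤ k) :
    ∃ μ : Measure (Fin (n + 2) → Fin q), IsProbabilityMeasure μ ∧
      (∀ᵐ x ∂μ, ∀ i j, (SimpleGraph.cycleGraph (n + 2)).Adj i j → x i ≠ x j) ∧
      (∀ σ : Equiv.Perm (Fin q), μ.map (fun x : Fin (n + 2) → Fin q => σ ∘ x) = μ) ∧
      ∀ A B : Set (Fin (n + 2)),
        (∀ a ∈ A, ∀ b ∈ B, k < (SimpleGraph.cycleGraph (n + 2)).dist a b) →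
        IndepFun (fun x : Fin (n + 2) → Fin q => fun a : A => x a)
          (fun x : Fin (n + 2) → Fin q => fun b : B => x b) μ := by
  let μ := (PMF.ofFintype (fun x => ENNReal.ofReal (w x)) (by
    rw [← ENNReal.ofReal_sum_of_nonneg fun x _ => hw.nonneg x, hw.sum]; simp)).toMeasure
  have hμ : ∀ s, μ s = ENNReal.ofReal (∑ x, w x * if x ∈ s then 1 else 0) := fun s => by
    rw [PMF.toMeasure_apply_fintype, ENNReal.ofReal_sum_of_nonneg fun x _ =>
      mul_nonneg (hw.nonneg x) (by positivity)]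
    exact Finset.sum_congr rfl fun x _ => by by_cases h : x ∈ s <;> simp [h]
  refine ⟨μ, inferInstance, ?_, fun σ => Measure.ext fun s hs => ?_, fun A B hs => ?_⟩
  · rw [ae_iff, hμ, Finset.sum_eq_zero fun x _ => ?_, ENNReal.ofReal_zero]
    split_ifs with h
    · simp only [Set.mem_ofPred_eq, not_forall, not_not, SimpleGraph.cycleGraph_adj,
        sub_eq_iff_eq_add'] at h
      obtain ⟨i, j, rfl | rfl, h⟩ := h
      · rw [hw.proper x j h.symm, zero_mul]
      · rw [hw.proper x i h, zero_mul]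
    · simp
  · rw [Measure.map_apply (measurable_of_finite _) hs, hμ, hμ]
    exact congrArg ENNReal.ofReal (Fintype.sum_equiv ((Equiv.refl _).arrowCongr σ) _ _
      fun x => congrArg₂ (· * ·) (hw.symm σ x).symm rfl)
  · refine indepFun_iff_measure_inter_preimage_eq_mul.2 fun s t _ _ => ?_
    rw [hμ, hμ, hμ, ← ENNReal.ofReal_mul (Finset.sum_nonneg fun x _ =>
      mul_nonneg (hw.nonneg x) (by positivity)), ← hw.ind A B _ _
        (fun a ha b hb h => (hs a ha b hb).not_ge (hk a b h))]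
    · exact congrArg _ (Finset.sum_congr rfl fun x _ => by simp [← ite_and, and_comm])
    · exact fun x y h => by
        simp only [Set.mem_preimage, show (fun a : A => x a) = fun a : A => y a from
          funext fun a => h _ a.2]
    · exact fun x y h => by
        simp only [Set.mem_preimage, show (fun a : B => x a) = fun a : B => y a from
          funext fun a => h _ a.2]

end Pool.Agent.H45.Cyc
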