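import Mathlib

/-! Events depending on disjoint finite sets of coordinates are independent. -/

open MeasureTheory ProbabilityTheory

namespace Pool.Agent.H45.Dep

variable {ι α : Type} [MeasurableSpace α] [MeasurableSingletonClass α] [Countable α]

def Dep (S : Finset ι) (A : Set (ι → α)) : Prop :=
  ∀ ω ω' : ι → α, (∀ i ∈ S, ω i = ω' i) → ω ∈ A → ω' ∈ A

omit [MeasurableSpace α] [MeasurableSingletonClass α] [Countable α] in
lemma Dep.eq {S : Finset ι} {A : Set (ι → α)} (h : Dep S A) :
    A = (fun ω (i : S) => ω i) ⁻¹' ((fun ω (i : S) => ω i) '' A) := by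
  ext ω
  refine ⟨fun hω => ⟨ω, hω, rfl⟩, fun ⟨ω', h1, h2⟩ => h ω' ω (fun i hi => congrFun h2 ⟨i, hi⟩) h1⟩

lemma Dep.meas {S : Finset ι} {A : Set (ι → α)} (h : Dep S A) : MeasurableSet A := by
  rw [h.eq]
  exact (Set.to_countable _).measurableSet.preimage (by fun_prop)

lemma Dep.inter (μ : ι → Measure α) [∀ i, IsProbabilityMeasure (μ i)] {S T : Finset ι}
    {A B : Set (ι → α)} (hA : Dep S A) (hB : Dep T B) (h : Disjoint S T) :
    Measure.infinitePi μ (A ∩ B) = Measure.infinitePi μ A * Measure.infinitePi μ B := by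
  have := (iIndepFun_infinitePi (P := μ) (X := fun _ => id) fun _ => measurable_id).indepFun_finset
    S T h (fun i => by fun_prop)
  rw [hA.eq, hB.eq]
  exact this.measure_inter_preimage_eq_mul _ _ (Set.to_countable _).measurableSet
    (Set.to_countable _).measurableSet

end Pool.Agent.H45.Dep
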