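import Mathlib

open MeasureTheory ProbabilityTheory Filter Topology Finset

namespace Pool.Agent.H45.DepG

/-- `G` is a `d`-dependent random graph with edge probability `p` -/
def IsDep {V Ω : Type} [MeasurableSpace Ω] (μ : Measure Ω) (G : Ω → SimpleGraph V) (p : ℝ) (d : ℕ) :
    Prop :=
  IsProbabilityMeasure μ ∧ (∀ e, MeasurableSet {ω | e ∈ (G ω).edgeSet}) ∧
    (∀ e, ¬ e.IsDiag → μ.real {ω | e ∈ (G ω).edgeSet} = p) ∧
    ∃ D : SimpleGraph {e : Sym2 V // ¬ e.IsDiag}, (∀ e, (D.neighborSet e).ncard ≤ d) ∧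
      ∀ e, IndepFun (fun ω => e.1 ∈ (G ω).edgeSet)
        (fun ω (f : {f // f ≠ e ∧ ¬ D.Adj e f}) => f.1.1 ∈ (G ω).edgeSet) μ

variable {V C : Type} [Fintype V] [Fintype C]

/-- independent coins -/
noncomputable def coins (C : Type) [Fintype C] (p : ℝ) : Measure (C → Prop) :=
  Measure.pi fun _ => ENNReal.ofReal p • Measure.dirac True + ENNReal.ofReal (1 - p) • Measure.dirac False

/-- one coin for each class of edges -/
def cg (cl : Sym2 V → C) (ω : C → Prop) : SimpleGraph V := .fromEdgeSet {e | ω (cl e)}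

lemma prob {p : ℝ} (hp : p ∈ Set.Icc (0 : ℝ) 1) : IsProbabilityMeasure
    (ENNReal.ofReal p • Measure.dirac True + ENNReal.ofReal (1 - p) • Measure.dirac False) :=
  ⟨by simp [← ENNReal.ofReal_add hp.1 (sub_nonneg.2 hp.2)]⟩

lemma model (cl : Sym2 V → C) {p : ℝ} (hp : p ∈ Set.Icc (0 : ℝ) 1) {d : ℕ}
    (h : ∀ c, {e | ¬ e.IsDiag ∧ cl e = c}.ncard ≤ d + 1) : IsDep (coins C p) (cg cl) p d := by
  classical
  have := prob hp
  have ed : ∀ e : {e : Sym2 V // ¬ e.IsDiag}, (fun ω => e.1 ∈ (cg cl ω).edgeSet) = fun ω => ω (cl e.1) :=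
    fun e => by ext ω; simp [cg, e.2]
  refine ⟨by unfold coins; infer_instance, fun e => .of_discrete, fun e he => ?_,
    ⟨fun e f => e ≠ f ∧ cl e.1 = cl f.1, ⟨fun _ _ h => ⟨h.1.symm, h.2.symm⟩⟩, ⟨fun _ h => h.1 rfl⟩⟩,
    fun e => ?_, fun e => ?_⟩
  · have := (measurePreserving_eval (fun _ : C => ENNReal.ofReal p • Measure.dirac True +
      ENNReal.ofReal (1 - p) • Measure.dirac False) (cl e)).measure_preimage (s := {True})
      (measurableSet_singleton _).nullMeasurableSet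
    rw [show {ω | e ∈ (cg cl ω).edgeSet} = {ω | ω (cl e)} from ed ⟨e, he⟩, measureReal_def, coins]
    simp only [Set.preimage, Set.mem_singleton_iff, eq_iff_iff, iff_true, Function.eval] at this
    simp [this, hp.1]
  · have := Set.ncard_le_ncard_of_injOn (s := insert e {f | e ≠ f ∧ cl e.1 = cl f.1}) Subtype.val
      (t := {f | ¬ f.IsDiag ∧ cl f = cl e.1}) (by rintro f (rfl | hf); exacts [⟨f.2, rfl⟩, ⟨f.2, hf.2.symm⟩])
      Subtype.val_injective.injOn
    rw [Set.ncard_insert_of_notMem (by simp)] at this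
    exact Nat.le_of_add_le_add_right (this.trans (h _))
  · have := ((iIndepFun_pi (X := fun _ : C => id) (μ := fun _ : C => ENNReal.ofReal p • Measure.dirac True +
      ENNReal.ofReal (1 - p) • Measure.dirac False) fun _ => aemeasurable_id).indepFun_finset {cl e.1}
      (univ.erase (cl e.1)) (by simp) fun _ => .of_discrete).comp (φ := fun x => x ⟨_, mem_singleton_self _⟩)
      (ψ := fun x (f : {f // f ≠ e ∧ ¬ (e ≠ f ∧ cl e.1 = cl f.1)}) =>
        x ⟨cl f.1.1, by simpa using fun h => f.2.2 ⟨f.2.1.symm, h.symm⟩⟩) .of_discrete .of_discrete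
    convert this using 1
    · exact ed e
    · ext ω f; exact iff_of_eq (congrFun (ed f.1) ω)
    · rfl

lemma miss {p : ℝ} (hp : p ∈ Set.Icc (0 : ℝ) 1) (F : Finset C) :
    (coins C p).real {ω | ∀ c ∈ F, ¬ ω c} ≤ Real.exp (-(p * #F)) := by
  classical
  have := prob hp
  have : {ω : C → Prop | ∀ c ∈ F, ¬ ω c} = Set.pi F fun _ => {False} := by ext; simp
  rw [this, measureReal_def, coins, Measure.pi_pi_finset]
  simp only [prod_const, ENNReal.toReal_pow]
  rw [show -(p * #F) = #F * -p by ring, Real.exp_nat_mul]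
  gcongr
  simpa [sub_nonneg.2 hp.2] using Real.one_sub_le_exp_neg p

end Pool.Agent.H45.DepG
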