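import Pool.Agent.H45.DepG

open MeasureTheory ProbabilityTheory Filter Topology Finset

namespace Pool.Agent.H45.DepG

variable {n d : ℕ} {Ω : Type} [MeasurableSpace Ω] {μ : Measure Ω} {G : Ω → SimpleGraph (Fin n)} {p : ℝ}

lemma IsDep.mono (h : IsDep μ G p d) {d' : ℕ} (hd : d ≤ d') : IsDep μ G p d' :=
  let ⟨a, b, c, D, e, f⟩ := h; ⟨a, b, c, D, fun x => (e x).trans hd, f⟩

lemma IsDep.le (h : IsDep μ G p d) (hp : 0 ≤ p) (a b : Fin n) : μ.real {ω | (G ω).Adj a b} ≤ p := by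
  by_cases e : a = b
  · simp [e, hp]
  · exact (h.2.2.1 s(a, b) e).le

lemma IsDep.edge (h : IsDep μ G p d) (hp : 0 ≤ p) : μ.real {ω | ∃ a b, (G ω).Adj a b} ≤ n ^ 2 * p := by
  have := h.1
  simp only [Set.ofPred_exists]
  grw [measureReal_iUnion_fintype_le, sum_le_card_nsmul _ _ (n * p) fun a _ => by
    grw [measureReal_iUnion_fintype_le, sum_le_card_nsmul _ _ p fun b _ => h.le hp a b]; simp]
  simp [sq, mul_assoc]

lemma IsDep.pair (h : IsDep μ G p d) : ∃ D : SimpleGraph {e : Sym2 (Fin n) // ¬ e.IsDiag},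
    (∀ e, (D.neighborSet e).ncard ≤ d) ∧ ∀ e f, f ≠ e → ¬ D.Adj e f →
      IndepFun (fun ω => e.1 ∈ (G ω).edgeSet) (fun ω => f.1 ∈ (G ω).edgeSet) μ :=
  let ⟨_, _, _, D, a, b⟩ := h
  ⟨D, a, fun e f h1 h2 => ((b e).comp measurable_id
    (measurable_pi_apply (⟨f, h1, h2⟩ : {f // f ≠ e ∧ ¬ D.Adj e f})) :)⟩

lemma IsDep.path (h : IsDep μ G p 0) :
    μ.real {ω | ∃ a b c, a ≠ c ∧ (G ω).Adj a b ∧ (G ω).Adj b c} ≤ n ^ 3 * p ^ 2 := by
  have := h.1
  obtain ⟨D, h1, h2⟩ := h.pair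
  have key : ∀ a b c, μ.real {ω | a ≠ c ∧ (G ω).Adj a b ∧ (G ω).Adj b c} ≤ p ^ 2 := fun a b c => by
    by_cases e : a ≠ c ∧ a ≠ b ∧ b ≠ c
    · have := (h2 ⟨s(a, b), e.2.1⟩ ⟨s(b, c), e.2.2⟩ (by simp; tauto) fun H => by
        have := h1 ⟨s(a, b), e.2.1⟩
        rw [nonpos_iff_eq_zero, Set.ncard_eq_zero] at this
        exact this.subset H).measure_inter_preimage_eq_mul {True} {True} .of_discrete .of_discrete
      rw [sq, ← h.2.2.1 s(a, b) e.2.1]
      nth_rw 2 [h.2.2.1 s(a, b) e.2.1]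
      rw [← h.2.2.1 s(b, c) e.2.2]
      simp only [measureReal_def, ← ENNReal.toReal_mul]
      simp only [Set.preimage, Set.mem_singleton_iff, eq_iff_iff, iff_true] at this
      rw [← this]
      exact ENNReal.toReal_mono (by simp) (measure_mono fun _ h => h.2)
    · exact (measureReal_mono (s₂ := ∅) fun ω (h : _ ∧ _) => e ⟨h.1, h.2.1.ne, h.2.2.ne⟩).trans
        (by simp [sq_nonneg])
  simp only [Set.ofPred_exists]
  grw [measureReal_iUnion_fintype_le, sum_le_card_nsmul _ _ (n * (n * p ^ 2)) fun a _ => by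
    grw [measureReal_iUnion_fintype_le, sum_le_card_nsmul _ _ (n * p ^ 2) fun b _ => by
      grw [measureReal_iUnion_fintype_le, sum_le_card_nsmul _ _ _ fun c _ => key a b c]; simp]; simp]
  simp; ring_nf; rfl

lemma IsDep.count (h : IsDep μ G p d) (hp : 0 ≤ p) {t : ℝ} (ht : 0 < t) :
    μ.real {ω | t ≤ (G ω).edgeSet.ncard} ≤ n ^ 2 * p / t ∧
    (2 ≤ n → 8 * t ≤ n ^ 2 * p → μ.real {ω | (G ω).edgeSet.ncard < t} ≤ 16 * (d + 1) / (n ^ 2 * p)) := by
  classical
  have := h.1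
  let Y := fun (e : {e : Sym2 (Fin n) // ¬ e.IsDiag}) ω => if e.1 ∈ (G ω).edgeSet then (1 : ℝ) else 0
  have Y' : ∀ e, Y e = {ω | e.1 ∈ (G ω).edgeSet}.indicator 1 := fun e => by ext; simp [Y, Set.indicator]
  have m2 : ∀ e, MemLp (Y e) 2 μ := fun e => Y' e ▸ memLp_indicator_const 2 (h.2.1 _) 1 (.inr (by simp))
  have EY : ∀ e, μ[Y e] = p := fun e => by rw [Y', integral_indicator_one (h.2.1 _), h.2.2.1 _ e.2]
  have X : ∀ ω, ((G ω).edgeSet.ncard : ℝ) = ∑ e, Y e ω := fun ω => by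
    rw [sum_boole, ← Set.ncard_coe_finset, ← Set.ncard_image_of_injective _ Subtype.val_injective]
    congr 2; ext e; simpa using fun h => (G ω).not_isDiag_of_mem_edgeSet h
  set N : ℝ := ((Fintype.card {e : Sym2 (Fin n) // ¬ e.IsDiag} : ℕ) : ℝ) with hN
  have hN' : N = n * (n - 1) / 2 := by
    rw [hN, Sym2.card_subtype_not_diag, Nat.cast_choose_two, Fintype.card_fin]
  have EX : ∫ ω, ∑ e, Y e ω ∂μ = N * p := by
    rw [integral_finsetSum _ fun e _ => (m2 e).integrable one_le_two]; simp [EY, hN]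
  simp only [X]
  refine ⟨?_, fun hn H => ?_⟩
  · rw [le_div_iff₀' ht]
    refine (mul_meas_ge_le_integral_of_nonneg (.of_forall fun ω => sum_nonneg fun e _ => by positivity)
      (integrable_finsetSum _ fun e _ => (m2 e).integrable one_le_two) t).trans ?_
    rw [EX, hN']; gcongr; nlinarith [Nat.cast_nonneg (α := ℝ) n]
  obtain ⟨D, h1, h2⟩ := h.pair
  have hn : (2 : ℝ) ≤ n := by exact_mod_cast hn
  have N4 : n ^ 2 * p ≤ 4 * (N * p) := by rw [← mul_assoc, hN']; gcongr; nlinarith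
  have V : Var[fun ω => ∑ e, Y e ω; μ] ≤ N * p * (d + 1) := by
    rw [variance_fun_sum m2, hN, mul_assoc, ← card_univ, ← nsmul_eq_mul]
    refine sum_le_card_nsmul _ _ _ fun e _ => ?_
    have I : ∀ f, f ≠ e → ¬ D.Adj e f → IndepFun (Y e) (Y f) μ := fun f a b => by
      convert (h2 e f a b).comp (φ := fun x => if x then (1 : ℝ) else 0)
        (ψ := fun x => if x then (1 : ℝ) else 0) .of_discrete .of_discrete <;> ext <;> simp [Y]
    rw [← sum_subset (subset_univ (insert e (D.neighborFinset e))) fun f _ hf =>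
      (I f (by simp_all) (by simp_all)).covariance_eq_zero (m2 e) (m2 f)]
    refine (sum_le_card_nsmul _ _ p fun f _ => ?_).trans ?_
    · rw [covariance_eq_sub (m2 e) (m2 f), EY, EY]
      have := integral_mono ((m2 e).integrable_mul (m2 f)) ((m2 e).integrable one_le_two) fun ω => by
        simp only [Y, Pi.mul_apply]; split_ifs <;> simp
      nlinarith [EY e]
    · have := (card_insert_le e _).trans (Nat.add_le_add_right ((Set.ncard_eq_toFinset_card' _).ge.trans
        (h1 e)) 1)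
      rw [nsmul_eq_mul, mul_comm]; gcongr; exact_mod_cast this
  have c0 : 0 < N * p / 2 := by linarith
  have := meas_ge_le_variance_div_sq (memLp_finsetSum univ fun e _ => m2 e) c0
  refine le_trans (ENNReal.toReal_le_of_le_ofReal (div_nonneg (variance_nonneg _ _) (sq_nonneg _))
    (le_trans (measure_mono fun ω h => ?_) this)) ?_
  · simp only [EX, Set.mem_ofPred_eq] at h ⊢; rw [le_abs]; right; linarith
  · rw [div_le_div_iff₀ (by positivity) (by linarith)]
    grw [V, N4]; exact le_of_eq (by ring)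

/-- consecutive edges at the smaller endpoint are grouped `k` at a time -/
def blk (n k : ℕ) (e : Sym2 (Fin n)) : Fin n × Fin (n / k + 1) :=
  (e.inf, ⟨e.sup / k, Nat.lt_succ_of_le (Nat.div_le_div_right e.sup.2.le)⟩)

lemma blk_dep {k : ℕ} (hp : p ∈ Set.Icc (0 : ℝ) 1) : IsDep (coins _ p) (cg (blk n (k + 1))) p k :=
  model _ hp fun c => (Set.ncard_le_ncard_of_injOn (fun e => (e.sup : ℕ) % (k + 1))
    (t := Set.Iio (k + 1)) (fun _ _ => Nat.mod_lt _ k.succ_pos) fun e h f h' H => by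
      have := h.2.trans h'.2.symm
      simp only [blk, Prod.mk.injEq, Fin.mk.injEq] at this
      exact Sym2.inf_eq_inf_and_sup_eq_sup.1 ⟨this.1, Fin.ext (Nat.ext_div_mod this.2 H)⟩).trans (by simp)

lemma blk_edge {k : ℕ} (hp : p ∈ Set.Icc (0 : ℝ) 1) (hk : k + 1 ≤ n) :
    (coins _ p).real {ω | ∃ a b, (cg (blk n (k + 1)) ω).Adj a b} ≤ 2 * (n ^ 2 * p / (k + 1)) := by
  have := (blk_dep (n := n) (k := k) hp).1
  have pr := prob hp
  refine le_trans (measureReal_mono (s₂ := ⋃ c, {ω | ω c}) fun ω ⟨a, b, h⟩ =>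
    Set.mem_iUnion.2 ⟨blk n (k + 1) s(a, b), h.1⟩) ?_
  grw [measureReal_iUnion_fintype_le, sum_le_card_nsmul _ _ p fun c _ => ?_]
  · have : ((n / (k + 1) : ℕ) : ℝ) ≤ n / (k + 1) := by exact_mod_cast Nat.cast_div_le
    have : (1 : ℝ) ≤ n / (k + 1) := by rw [one_le_div (by positivity)]; exact_mod_cast hk
    have := hp.1
    simp only [card_univ, Fintype.card_prod, Fintype.card_fin, nsmul_eq_mul]
    rw [show (2 * (n ^ 2 * p / (k + 1)) : ℝ) = n * (n / (k + 1) + n / (k + 1)) * p by ring]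
    push_cast; gcongr
  · have := (measurePreserving_eval (fun _ : Fin n × Fin (n / (k + 1) + 1) => ENNReal.ofReal p •
      Measure.dirac True + ENNReal.ofReal (1 - p) • Measure.dirac False) c).measure_preimage (s := {True})
      (measurableSet_singleton _).nullMeasurableSet
    simp only [Set.preimage, Set.mem_singleton_iff, eq_iff_iff, iff_true, Function.eval] at this
    simp [measureReal_def, coins, this, hp.1]

lemma blk_path (hp : p ∈ Set.Icc (0 : ℝ) 1) (hn : 8 ≤ n) : (coins _ p).real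
    {ω | ¬ ∃ a b c, a ≠ c ∧ (cg (blk n 2) ω).Adj a b ∧ (cg (blk n 2) ω).Adj b c} ≤
      Real.exp (-(n ^ 2 * p / 64)) := by
  have := (blk_dep (n := n) (k := 1) hp).1
  let F := univ.image fun x : Fin (n / 4) × Fin (n / 4) =>
    ((⟨x.1, by omega⟩, ⟨n / 4 + x.2, by omega⟩) : Fin n × Fin (n / 2 + 1))
  refine le_trans (measureReal_mono (s₂ := {ω | ∀ c ∈ F, ¬ ω c}) fun ω h c hc H => h ?_)
    ((miss hp _).trans ?_)
  swap
  · rw [card_image_of_injective _ fun x y h => by simpa [Prod.ext_iff, Fin.ext_iff] using h]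
    have : (n : ℝ) ≤ 8 * (n / 4 : ℕ) := by exact_mod_cast (by omega : n ≤ 8 * (n / 4))
    have := mul_le_mul_of_nonneg_right (pow_le_pow_left₀ (by positivity) this 2) hp.1
    simp only [card_univ, Fintype.card_prod, Fintype.card_fin]
    gcongr; push_cast; linarith
  · obtain ⟨⟨x, y⟩, -, rfl⟩ := mem_image.1 hc
    have k : ∀ j (hj : j < n), j / 2 = n / 4 + y → (cg (blk n 2) ω).Adj ⟨x, by omega⟩ ⟨j, hj⟩ :=
      fun j hj e => by
        have : (⟨x, by omega⟩ : Fin n) < ⟨j, hj⟩ := by simp only [Fin.lt_def]; omega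
        exact ⟨by simpa [blk, this.le, e], this.ne⟩
    exact ⟨_, _, _, by simp [Fin.ext_iff], (k (2 * (n / 4 + y)) (by omega) (by omega)).symm,
      k (2 * (n / 4 + y) + 1) (by omega) (by omega)⟩

end Pool.Agent.H45.DepG
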