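import Pool.Agent.H45.Coin

/-! Quenched return bound for an excited walk with two cookies. -/

set_option maxHeartbeats 400000

open MeasureTheory Set
open scoped ENNReal Classical

namespace Pool.Agent.H45.ERW

open Coin

/-- states: position and numbers of departures -/
abbrev St := ℤ × (ℤ → ℕ)

def R (s : St) : St := (s.1 + 1, Function.update s.2 s.1 (s.2 s.1 + 1))
def L (s : St) : St := (s.1 - 1, Function.update s.2 s.1 (s.2 s.1 + 1))
def pr (e : ℤ → ℕ → ℝ) (s : St) : ℝ := e s.1 (s.2 s.1 + 1)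

noncomputable def st (e : ℤ → ℕ → ℝ) (u : ℕ → ℝ) (n : ℕ) : St := run (pr e) R L (0, 0) u n

lemma st_succ (e : ℤ → ℕ → ℝ) (u : ℕ → ℝ) (n : ℕ) :
    st e u (n + 1) = if u n < pr e (st e u n) then R (st e u n) else L (st e u n) := rfl

lemma st_dep_succ (e : ℤ → ℕ → ℝ) (u : ℕ → ℝ) (n : ℕ) :
    (st e u (n + 1)).2 = Function.update (st e u n).2 (st e u n).1 ((st e u n).2 (st e u n).1 + 1) := by
  rw [st_succ]; split_ifs <;> rfl

lemma st_dep (e : ℤ → ℕ → ℝ) (u : ℕ → ℝ) (n : ℕ) (y : ℤ) :
    (st e u n).2 y = ((Finset.range n).filter fun m => (st e u m).1 = y).card := by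
  induction n with
  | zero => rfl
  | succ n ih =>
    rw [st_dep_succ, Finset.range_add_one, Finset.filter_insert]
    by_cases h : (st e u n).1 = y
    · rw [if_pos h, Finset.card_insert_of_notMem (by simp), ← ih, h, Function.update_self]
    · rw [if_neg h, Function.update_of_ne (Ne.symm h), ih]

lemma st_pos_succ (e : ℤ → ℕ → ℝ) (u : ℕ → ℝ) (n : ℕ) :
    (st e u (n + 1)).1 = (st e u n).1 + if u n < e (st e u n).1
      ((Finset.range (n + 1)).filter fun m => (st e u m).1 = (st e u n).1).card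
      then (1 : ℤ) else -1 := by
  have h : ((Finset.range (n + 1)).filter fun m => (st e u m).1 = (st e u n).1).card =
      (st e u n).2 (st e u n).1 + 1 := by
    rw [← st_dep, st_dep_succ, Function.update_self]
  rw [h, st_succ, pr]
  split_ifs <;> rfl

variable (E : ℤ → Prop) (d : ℤ → ℕ)

/-- the cookie stacks -/
noncomputable def ck (b : Prop) (k : ℕ) (i : ℕ) : ℝ :=
  if b then 1 / 2 else if i = 1 then 1 else if i = 2 then (k : ℝ) / 2 else 1 / 2

noncomputable def env (y : ℤ) (i : ℕ) : ℝ := ck (E y) (d y) i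

lemma ck_mem (b : Prop) (k : ℕ) (hk : k ≤ 2) (i : ℕ) : 0 ≤ ck b k i ∧ ck b k i ≤ 1 := by
  have : (k : ℝ) ≤ 2 := by exact_mod_cast hk
  unfold ck
  split_ifs
  · norm_num
  · norm_num
  · exact ⟨by positivity, by linarith⟩
  · norm_num

def Inv (s : St) : Prop := ∃ h : ℤ, 0 ≤ h ∧ s.1 ≤ h ∧ (∀ y, h < y → s.2 y = 0) ∧
  (∀ y, 0 ≤ y → y < h → 1 ≤ s.2 y) ∧ (∀ y, 0 ≤ y → s.1 < y → y < h → 2 ≤ s.2 y) ∧
  (E h ∨ (s.1 = h ∧ s.2 h = 0))

lemma inv_st (u : ℕ → ℝ) (hu : ∀ n, 0 ≤ u n ∧ u n < 1) (n : ℕ) : Inv E (st (env E d) u n) := by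
  induction n with
  | zero => exact ⟨0, le_rfl, le_rfl, fun _ _ => rfl, fun _ _ _ => by omega,
      fun _ _ _ _ => by omega, Or.inr ⟨rfl, rfl⟩⟩
  | succ n ih =>
    rw [st_succ]
    generalize st (env E d) u n = s at ih
    obtain ⟨x, dep⟩ := s
    obtain ⟨h, h0, h1, h2, h3, h4, h5⟩ := ih
    simp only at h1 h2 h3 h4 h5
    have up : ∀ y, dep y ≤ Function.update dep x (dep x + 1) y := fun y => by
      by_cases hy : y = x
      · subst hy; simp
      · simp [hy]
    split_ifs with hc
    · by_cases hx : x = h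
      · subst hx
        refine ⟨x + 1, by omega, le_rfl, fun y hy => ?_, fun y a b => ?_, fun y _ a b => ?_,
          Or.inr ⟨rfl, ?_⟩⟩
        · simp only [R]
          rw [Function.update_of_ne (by omega), h2 y (by omega)]
        · simp only [R]
          by_cases hy : y = x
          · subst hy; simp
          · exact (h3 y a (by omega)).trans (up y)
        · simp only [R] at a; omega
        · simp only [R]
          rw [Function.update_of_ne (by omega), h2 _ (by omega)]
      · refine ⟨h, h0, by simp only [R]; omega, fun y hy => ?_, fun y a b => (h3 y a b).trans (up y),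
          fun y a b c => (h4 y a (by simp only [R] at b; omega) c).trans (up y), ?_⟩
        · simp only [R]
          rw [Function.update_of_ne (by omega), h2 y hy]
        · exact Or.inl (h5.resolve_right fun h => hx h.1)
    · have hE : E h := by
        by_contra hE
        obtain ⟨a, b⟩ := h5.resolve_left hE
        subst a
        apply hc
        simp [pr, env, ck, hE, b, (hu n).2]
      refine ⟨h, h0, by simp only [L]; omega, fun y hy => ?_, fun y a b => (h3 y a b).trans (up y),
          fun y a b c => ?_, Or.inl hE⟩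
      · simp only [L]
        rw [Function.update_of_ne (by omega), h2 y hy]
      · simp only [L] at b ⊢
        by_cases hy : y = x
        · subst hy
          have := h3 y a c
          simp; omega
        · exact (h4 y a (by omega) c).trans (up y)

/-- the target set for a maximum `z` -/
def tgt (z : ℤ) : Set St := {s | s.1 = 0 ∧ s.2 0 = 1 ∧ s.2 (-1) = 0 ∧ s.2 (z + 1) = 0 ∧
  ∀ y, 1 ≤ y → y < z → 2 ≤ s.2 y}

lemma first_return (hE : ¬E 0) (u : ℕ → ℝ) (hu : ∀ n, 0 ≤ u n ∧ u n < 1)
    (h : ∃ k, (st (env E d) u (k + 1)).1 = 0) :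
    ∃ z : ℕ, 1 ≤ z ∧ E z ∧ ∃ k, st (env E d) u (k + 1) ∈ tgt z := by
  set k := Nat.find h with hk
  have hk0 := Nat.find_spec h
  rw [← hk] at hk0
  have hmin : ∀ m < k, (st (env E d) u (m + 1)).1 ≠ 0 := fun m hm => Nat.find_min h hm
  have s1 : st (env E d) u 1 = R (0, 0) := by
    rw [st_succ, if_pos]
    · rfl
    · show u 0 < env E d 0 1
      simp [env, ck, hE, (hu 0).2]
  have key : ∀ m ≤ k, 0 ≤ (st (env E d) u (m + 1)).1 ∧ (st (env E d) u (m + 1)).2 0 = 1 ∧
      (st (env E d) u (m + 1)).2 (-1) = 0 := by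
    intro m
    induction m with
    | zero => intro _; rw [s1]; simp [R]
    | succ m ih =>
      intro hm
      obtain ⟨a, b, c⟩ := ih (by omega)
      have := hmin m (by omega)
      refine ⟨?_, ?_, ?_⟩
      · rw [st_succ]; split_ifs <;> simp only [R, L] <;> omega
      · rw [st_dep_succ, Function.update_of_ne (by omega), b]
      · rw [st_dep_succ, Function.update_of_ne (by omega), c]
  obtain ⟨_, b, c⟩ := key k le_rfl
  obtain ⟨z, h0, h1, h2, h3, h4, h5⟩ := inv_st E d u hu (k + 1)
  have hEz : E z := by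
    rcases h5 with h5 | ⟨h5, h6⟩
    · exact h5
    · rw [← h5, hk0, b] at h6; omega
  have hz : z ≠ 0 := fun h => hE (h ▸ hEz)
  obtain ⟨z, rfl⟩ := Int.eq_ofNat_of_zero_le h0
  exact ⟨z, by omega, hEz, k, hk0, b, c, h2 _ (by omega), fun y a b => h4 y (by omega) (by omega) b⟩

section Mart

variable (z : ℤ)

noncomputable def ca (y : ℤ) : ℝ := ((z : ℝ) - y) / ((z : ℝ) - y + 1)
noncomputable def cb (y : ℤ) : ℝ := ((z : ℝ) - y + 2) / ((z : ℝ) - y + 1)

lemma ca_pos {y : ℤ} (h : y < z) : 0 < ca z y := by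
  have : (y : ℝ) < z := by exact_mod_cast h
  exact div_pos (by linarith) (by linarith)

lemma ca_nonneg {y : ℤ} (h : y ≤ z) : 0 ≤ ca z y := by
  have : (y : ℝ) ≤ z := by exact_mod_cast h
  exact div_nonneg (by linarith) (by linarith)

lemma cb_ge {y : ℤ} (h : y ≤ z) : 1 ≤ cb z y := by
  have : (y : ℝ) ≤ z := by exact_mod_cast h
  rw [cb, le_div_iff₀ (by linarith)]; linarith

lemma ca_add_cb {y : ℤ} (h : y ≤ z) : ca z y + cb z y = 2 := by
  have : (y : ℝ) ≤ z := by exact_mod_cast h
  have h' : (z : ℝ) - y + 1 ≠ 0 := by linarith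
  rw [ca, cb]; field_simp; ring

lemma ca_mul_cb {y : ℤ} (h : y ≤ z) : ca z (y - 1) * cb z y = 1 := by
  have : (y : ℝ) ≤ z := by exact_mod_cast h
  have h' : (z : ℝ) - y + 1 ≠ 0 := by linarith
  have h'' : (z : ℝ) - (y - 1) + 1 ≠ 0 := by linarith
  rw [ca, cb]; push_cast; field_simp; ring

lemma ca_mul_cb_le {y : ℤ} (h : y ≤ z) : ca z y * cb z y ≤ 1 := by
  have := ca_add_cb z h
  nlinarith [sq_nonneg (ca z y - cb z y)]

noncomputable def corr (y : ℤ) (k : ℕ) : ℝ :=
  if E y then 1 else if k = 0 then 1 else if k = 1 then (ca z y)⁻¹ else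
    (ca z y)⁻¹ * if d y = 2 then (ca z y)⁻¹ else if d y = 0 then (cb z y)⁻¹ else 1

lemma corr_pos {y : ℤ} (h : y < z) (k : ℕ) : 0 < corr E d z y k := by
  have h1 := ca_pos z h
  have h2 := cb_ge z h.le
  unfold corr
  split_ifs <;> positivity

lemma corr_ge {y : ℤ} (k : ℕ) (hk : 2 ≤ k) : corr E d z y k = corr E d z y 2 := by
  unfold corr
  rw [if_neg (by omega : ¬k = 0), if_neg (by omega : ¬k = 1)]
  simp

lemma corr_step (hd : ∀ y, d y ≤ 2) {y : ℤ} (h : y < z) (k : ℕ) :
    (env E d y (k + 1) * ca z y + (1 - env E d y (k + 1)) * cb z y) * corr E d z y (k + 1) =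
      corr E d z y k := by
  have h1 := (ca_pos z h).ne'
  have h2 : cb z y ≠ 0 := by have := cb_ge z h.le; linarith
  have h3 := ca_add_cb z h.le
  have h4 : (1 / 2 * ca z y + (1 - 1 / 2) * cb z y) = 1 := by linarith
  by_cases hE : E y
  · simp only [env, ck, corr, if_pos hE, h4, mul_one]
  · rcases k with _ | _ | k
    · simp [env, ck, corr, hE, h1]
    · have := hd y
      rcases (by omega : d y = 0 ∨ d y = 1 ∨ d y = 2) with a | a | a
      · simp [env, ck, corr, hE, a]; field_simp
      · simp only [env, ck, corr, hE, a]; norm_num at h4 ⊢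
        rw [show (1 / 2 * ca z y + 1 / 2 * cb z y) = 1 by linarith]; simp
      · simp [env, ck, corr, hE, a, h1]
    · rw [corr_ge E d z (k + 1 + 1 + 1) (by omega), corr_ge E d z (k + 1 + 1) (by omega)]
      have : env E d y (k + 1 + 1 + 1) = 1 / 2 := by simp [env, ck, hE]
      rw [this, h4, one_mul]

noncomputable def Ap (x : ℤ) : ℝ := ∏ y ∈ Finset.Ico 1 x, ca z y
noncomputable def Cp (dep : ℤ → ℕ) : ℝ :=
  if dep (z + 1) = 0 then ∏ y ∈ Finset.Ico 1 z, corr E d z y (dep y) else 0

lemma Ap_succ {x : ℤ} (h : 1 ≤ x) : Ap z (x + 1) = Ap z x * ca z x := by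
  unfold Ap
  have : Finset.Ico 1 (x + 1) = insert x (Finset.Ico 1 x) := by
    ext y; simp; omega
  rw [this, Finset.prod_insert (by simp), mul_comm]

lemma Ap_zero {x : ℤ} (h1 : 1 ≤ z) (h : z < x) : Ap z x = 0 :=
  Finset.prod_eq_zero (i := z) (by simp; omega) (by simp [ca])

lemma Ap_nonneg (h1 : 1 ≤ z) (x : ℤ) : 0 ≤ Ap z x := by
  by_cases h : z < x
  · rw [Ap_zero z h1 h]
  · exact Finset.prod_nonneg fun y hy => ca_nonneg z (by simp at hy; omega)

lemma Ap_pred {x : ℤ} (h : 1 ≤ x) (hx : x ≤ z) : Ap z (x - 1) ≤ Ap z x * cb z x := by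
  by_cases h1 : x = 1
  · subst h1
    simpa [Ap] using cb_ge z hx
  · have := Ap_succ z (x := x - 1) (by omega)
    rw [sub_add_cancel] at this
    rw [this, mul_assoc, ca_mul_cb z hx, mul_one]

lemma Cp_nonneg (dep : ℤ → ℕ) : 0 ≤ Cp E d z dep := by
  unfold Cp
  split_ifs
  · exact Finset.prod_nonneg fun y hy => (corr_pos E d z (by simp at hy; omega) _).le
  · exact le_rfl

lemma Cp_out (dep : ℤ → ℕ) (x : ℤ) (k : ℕ) (h : x < 1 ∨ x = z) (h1 : 1 ≤ z) :
    Cp E d z (Function.update dep x k) = Cp E d z dep := by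
  unfold Cp
  rw [Function.update_of_ne (by omega)]
  congr 1
  exact Finset.prod_congr rfl fun y hy => by
    rw [Function.update_of_ne (by simp at hy; omega)]

lemma Cp_in (dep : ℤ → ℕ) (x : ℤ) (k : ℕ) (h : 1 ≤ x) (hx : x < z) :
    Cp E d z (Function.update dep x k) * corr E d z x (dep x) = Cp E d z dep * corr E d z x k := by
  unfold Cp
  rw [Function.update_of_ne (by omega)]
  split_ifs
  · have hm : x ∈ Finset.Ico 1 z := by simp; omega
    rw [← Finset.mul_prod_erase _ _ hm, ← Finset.mul_prod_erase _ _ hm, Function.update_self]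
    rw [Finset.prod_congr rfl (g := fun y => corr E d z y (dep y)) fun y hy => by
      rw [Function.update_of_ne (Finset.mem_erase.1 hy).1]]
    ring
  · simp

noncomputable def Phi (s : St) : ℝ := Ap z s.1 * Cp E d z s.2

lemma Phi_nonneg (h1 : 1 ≤ z) (s : St) : 0 ≤ Phi E d z s :=
  mul_nonneg (Ap_nonneg z h1 _) (Cp_nonneg E d z _)

lemma Phi_step (hd : ∀ y, d y ≤ 2) (h1 : 1 ≤ z) (hE : E z) (s : St) (hs : 1 ≤ s.1) :
    pr (env E d) s * Phi E d z (R s) + (1 - pr (env E d) s) * Phi E d z (L s) ≤ Phi E d z s := by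
  obtain ⟨x, dep⟩ := s
  simp only at hs
  have h0 := Phi_nonneg E d z h1 (x, dep)
  have hp := ck_mem (E x) (d x) (hd x) (dep x + 1)
  simp only [Phi, R, L, pr] at h0 ⊢
  rcases (by omega : z + 1 < x ∨ x = z + 1 ∨ x ≤ z) with a | a | a
  · rw [Ap_zero z h1 (by omega : z < x + 1), Ap_zero z h1 (by omega : z < x - 1)]
    simpa using h0
  · subst a
    have : Cp E d z (Function.update dep (z + 1) (dep (z + 1) + 1)) = 0 := by simp [Cp]
    rw [this]; simpa using h0
  · have hA := Ap_nonneg z h1 x
    have hC := Cp_nonneg E d z (Function.update dep x (dep x + 1))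
    have e1 := Ap_succ z hs
    have e2 := Ap_pred z hs a
    set q := env E d x (dep x + 1) with hq
    have hq1 : 0 ≤ 1 - q := by simp only [hq, env]; linarith [hp.2]
    calc _ ≤ q * (Ap z x * ca z x * Cp E d z (Function.update dep x (dep x + 1))) +
          (1 - q) * (Ap z x * cb z x * Cp E d z (Function.update dep x (dep x + 1))) := by
          rw [e1]; gcongr
      _ = Ap z x * ((q * ca z x + (1 - q) * cb z x) *
          Cp E d z (Function.update dep x (dep x + 1))) := by ring
      _ = _ := by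
          congr 1
          rcases a.lt_or_eq with a | a
          · have c1 := corr_step E d z hd a (dep x)
            have c2 := Cp_in E d z dep x (dep x + 1) hs a
            have c3 := corr_pos E d z a (dep x)
            apply mul_right_cancel₀ c3.ne'
            rw [mul_assoc, c2, ← c1, ← hq]; ring
          · subst a
            rw [Cp_out E d x dep x _ (Or.inr rfl) h1]
            have : q = 1 / 2 := by simp [hq, env, ck, hE]
            have h3 := ca_add_cb x le_rfl
            rw [this, show (1 / 2 * ca x x + (1 - 1 / 2) * cb x x) = 1 by linarith, one_mul]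

noncomputable def eps : ℝ := ∏ y ∈ Finset.Ico 1 z, (corr E d z y 2)⁻¹

lemma eps_pos : 0 < eps E d z :=
  Finset.prod_pos fun y hy => inv_pos.2 (corr_pos E d z (by simp at hy; omega) _)

lemma eps_le (hd : ∀ y, d y ≤ 2) (hEd : ∀ y, E y → d y = 0) :
    eps E d z ≤ ∏ y ∈ Finset.Ico 1 z, ca z y ^ d y := by
  refine Finset.prod_le_prod (fun y hy => (inv_pos.2 (corr_pos E d z (by simp at hy; omega) _)).le)
    fun y hy => ?_
  have hy' : y < z := by simp at hy; omega
  by_cases hE : E y
  · simp [corr, hE, hEd y hE]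
  · have := hd y
    rcases (by omega : d y = 0 ∨ d y = 1 ∨ d y = 2) with a | a | a
    · simp only [corr, hE, a]
      simpa [mul_comm] using ca_mul_cb_le z hy'.le
    · simp [corr, hE, a]
    · simp [corr, hE, a, sq]

def act (s : St) : Prop := ((1 ≤ s.1 ∧ s.2 0 ≤ 1) ∨ (s.1 = 0 ∧ s.2 0 = 0)) ∧ s.2 (-1) = 0

noncomputable def phi (s : St) : ℝ≥0∞ :=
  if act s then ENNReal.ofReal (eps E d z * Phi E d z s) else 0

lemma phi_add_le (s : St) :
    phi E d z s + (tgt z).indicator 1 s ≤ ENNReal.ofReal (eps E d z * Phi E d z s) := by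
  by_cases h : s ∈ tgt z
  · obtain ⟨a, b, c, e, f⟩ := h
    have : ¬act s := by unfold act; omega
    rw [phi, if_neg this, indicator_of_mem (show s ∈ tgt z from ⟨a, b, c, e, f⟩), zero_add]
    have : eps E d z * Phi E d z s = 1 := by
      rw [Phi, a, Cp, if_pos e, eps]
      simp only [Ap, show Finset.Ico (1 : ℤ) 0 = ∅ by decide, Finset.prod_empty, one_mul]
      rw [← Finset.prod_mul_distrib]
      refine Finset.prod_eq_one fun y hy => ?_
      simp only [Finset.mem_Ico] at hy
      rw [corr_ge E d z _ (f y hy.1 hy.2)]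
      exact inv_mul_cancel₀ (corr_pos E d z hy.2 _).ne'
    rw [this]; simp
  · rw [indicator_of_notMem h, add_zero, phi]
    split_ifs <;> simp

lemma hit_tgt (hd : ∀ y, d y ≤ 2) (h0 : ¬E 0) (h1 : 1 ≤ z) (hE : E z) :
    iidU {u | ∃ k, st (env E d) u (k + 1) ∈ tgt z} ≤ ENNReal.ofReal (eps E d z) := by
  have hp : ∀ s, 0 ≤ pr (env E d) s ∧ pr (env E d) s ≤ 1 := fun s => ck_mem _ _ (hd _) _
  have he := (eps_pos E d z).le
  refine (hit_le (pr (env E d)) R L hp (phi E d z) (tgt z) (fun s => ?_) (0, 0)).trans ?_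
  · by_cases ha : act s
    · rw [phi.eq_def E d z s, if_pos ha]
      calc _ ≤ ENNReal.ofReal (pr (env E d) s) * ENNReal.ofReal (eps E d z * Phi E d z (R s)) +
          ENNReal.ofReal (1 - pr (env E d) s) * ENNReal.ofReal (eps E d z * Phi E d z (L s)) := by
            gcongr <;> exact phi_add_le E d z _
        _ = ENNReal.ofReal (eps E d z * (pr (env E d) s * Phi E d z (R s) +
            (1 - pr (env E d) s) * Phi E d z (L s))) := by
            have a := Phi_nonneg E d z h1 (R s)
            have b := Phi_nonneg E d z h1 (L s)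
            have c := (hp s).1
            have c' : 0 ≤ 1 - pr (env E d) s := by linarith [(hp s).2]
            rw [← ENNReal.ofReal_mul c, ← ENNReal.ofReal_mul c',
              ← ENNReal.ofReal_add (by positivity) (by positivity)]
            congr 1; ring
        _ ≤ _ := by
            refine ENNReal.ofReal_le_ofReal (mul_le_mul_of_nonneg_left ?_ he)
            rcases ha.1 with a | a
            · exact Phi_step E d z hd h1 hE s a.1
            · obtain ⟨x, dep⟩ := s
              obtain ⟨a, b⟩ := a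
              simp only at a b
              subst a
              have : pr (env E d) (0, dep) = 1 := by simp [pr, env, ck, h0, b]
              rw [this]
              simp only [Phi, R, one_mul, sub_self, zero_mul, add_zero]
              rw [Cp_out E d z dep 0 _ (Or.inl (by norm_num)) h1]
              simp [Ap]
    · have key : ∀ x' : ℤ, x' = s.1 + 1 ∨ x' = s.1 - 1 →
          phi E d z (x', Function.update s.2 s.1 (s.2 s.1 + 1)) +
          (tgt z).indicator 1 (x', Function.update s.2 s.1 (s.2 s.1 + 1)) = 0 := by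
        intro x' hx'
        obtain ⟨x, dep⟩ := s
        simp only [act] at ha hx' ⊢
        have b1 : ¬act (x', Function.update dep x (dep x + 1)) := by
          rintro ⟨a, c⟩
          simp only [Function.update_apply] at a c
          by_cases h : x = 0
          · subst h; simp at a c; omega
          · by_cases h' : x = -1
            · subst h'; simp at c
            · rw [if_neg (Ne.symm h)] at a
              rw [if_neg (Ne.symm h')] at c
              omega
        have b2 : (x', Function.update dep x (dep x + 1)) ∉ tgt z := by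
          rintro ⟨a, b, c, -⟩
          simp only [Function.update_apply] at a b c
          split_ifs at b c <;> omega
        rw [phi, if_neg b1, indicator_of_notMem b2, add_zero]
      have k1 := key _ (Or.inl rfl)
      have k2 := key _ (Or.inr rfl)
      simp only [R, L, k1, k2]
      simp
  · have : act (0, 0) := by simp [act]
    rw [phi, if_pos this]
    have : Phi E d z (0, 0) = 1 := by simp [Phi, Ap, Cp, corr]
    rw [this, mul_one]

end Mart

theorem return_le (hd : ∀ y, d y ≤ 2) (hEd : ∀ y, E y → d y = 0) (h0 : ¬E 0) :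
    iidU {u | ∃ k, (st (env E d) u (k + 1)).1 = 0} ≤
      ∑' z : ℕ, if 1 ≤ z ∧ E z then
        ENNReal.ofReal (∏ y ∈ Finset.Ico (1 : ℤ) z, ca z y ^ d y) else 0 := by
  have hsub : {u | ∃ k, (st (env E d) u (k + 1)).1 = 0} ≤ᵐ[iidU]
      (⋃ z : ℕ, {u | (1 ≤ z ∧ E z) ∧ ∃ k, st (env E d) u (k + 1) ∈ tgt z} : Set (ℕ → ℝ)) := by
    filter_upwards [ae_mem] with u hu h
    obtain ⟨z, a, b, c⟩ := first_return E d h0 u hu h
    exact mem_iUnion.2 ⟨z, ⟨a, b⟩, c⟩
  refine (measure_mono_ae hsub).trans ((measure_iUnion_le _).trans (ENNReal.tsum_le_tsum fun z => ?_))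
  split_ifs with h
  · refine (measure_mono fun u hu => hu.2).trans ((hit_tgt E d z hd h0 (by omega) h.2).trans ?_)
    exact ENNReal.ofReal_le_ofReal (eps_le E d z hd hEd)
  · simp [h]

end Pool.Agent.H45.ERW
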