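import Pool.Agent.H45.ERWMeas
import Pool.Agent.H45.ARProb

/-! Barrier stacks: zero speed with total drift three. -/

set_option maxHeartbeats 400000

open MeasureTheory Set Filter ProbabilityTheory
open scoped ENNReal Classical Topology

namespace Pool.Agent.H45.ERW

open Coin AR

noncomputable def stk (c : ℕ × Bool) (i : ℕ) : ℝ :=
  if c.1 = 0 then (if i ≤ 6 then 3 / 4 else 1 / 2) else
  if c.2 then (if i ≤ c.1 then 0 else if i ≤ 2 * c.1 + 3 then 1 else 1 / 2)
  else (if i ≤ c.1 + 3 then 1 else if i ≤ 2 * c.1 + 3 then 0 else 1 / 2)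

lemma stk_mem (c : ℕ × Bool) (i : ℕ) : stk c i ∈ Icc (0 : ℝ) 1 := by
  unfold stk; split_ifs <;> norm_num

lemma sum_blocks (a b : ℕ) (x y : ℝ) :
    HasSum (fun i : ℕ => if i + 1 ≤ a then x else if i + 1 ≤ a + b then y else 0) (a * x + b * y) := by
  have h := hasSum_sum_of_ne_finset_zero (s := Finset.range (a + b))
    (f := fun i : ℕ => if i + 1 ≤ a then x else if i + 1 ≤ a + b then y else 0)
    (L := .unconditional ℕ) fun i hi => by
      simp only [Finset.mem_range, not_lt] at hi
      rw [if_neg (by omega), if_neg (by omega)]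
  have e1 : ∑ i ∈ Finset.range a, (if i + 1 ≤ a then x else if i + 1 ≤ a + b then y else 0) =
      ∑ _i ∈ Finset.range a, x := Finset.sum_congr rfl fun i hi => if_pos (Finset.mem_range.1 hi)
  have e2 : ∑ i ∈ Finset.range b, (if a + i + 1 ≤ a then x else if a + i + 1 ≤ a + b then y else 0) =
      ∑ _i ∈ Finset.range b, y := Finset.sum_congr rfl fun i hi => by
    have := Finset.mem_range.1 hi
    rw [if_neg (by omega), if_pos (by omega)]
  rw [Finset.sum_range_add, e1, e2] at h
  simpa using h

lemma stk_sum (c : ℕ × Bool) : HasSum (fun i => 2 * stk c (i + 1) - 1) 3 := by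
  obtain ⟨j, b⟩ := c
  by_cases hj : j = 0
  · convert sum_blocks 6 0 (1 / 2) 0 using 1
    · funext i; simp only [stk, hj, if_true]; split_ifs <;> first | omega | norm_num
    · norm_num
  · cases b
    · convert sum_blocks (j + 3) j 1 (-1) using 1
      · funext i; simp only [stk, hj, if_false, Bool.false_eq_true]
        split_ifs <;> first | omega | norm_num
      · push_cast; ring
    · convert sum_blocks j (j + 3) (-1) 1 using 1
      · funext i; simp only [stk, hj, if_false, if_true]
        split_ifs <;> first | omega | norm_num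
      · push_cast; ring

def bar (b : Bool) (c : ℕ × Bool) : ℕ := if c.2 = b then c.1 else 0

lemma bar_le (c : ℤ → ℕ × Bool) (u : ℕ → ℝ) (hu : ∀ n, 0 ≤ u n ∧ u n < 1) (n : ℕ) (y : ℤ) :
    (0 ≤ y → y < (st (fun y => stk (c y)) u n).1 →
      bar true (c y) ≤ (st (fun y => stk (c y)) u n).2 y) ∧
    (y ≤ 0 → (st (fun y => stk (c y)) u n).1 < y →
      bar false (c y) ≤ (st (fun y => stk (c y)) u n).2 y) := by
  induction n with
  | zero => exact ⟨fun a b => absurd b (not_lt.2 a), fun a b => absurd b (not_lt.2 a)⟩
  | succ n ih =>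
    have mono : (st (fun y => stk (c y)) u n).2 y ≤ (st (fun y => stk (c y)) u (n + 1)).2 y :=
      dep_mono _ u y (Nat.le_succ n)
    have hd := st_dep_succ (fun y => stk (c y)) u n
    have hs := st_succ (fun y => stk (c y)) u n
    have hu' := hu n
    generalize st (fun y => stk (c y)) u (n + 1) = s' at *
    generalize st (fun y => stk (c y)) u n = s at *
    constructor
    · intro a b
      by_cases h : y < s.1
      · exact (ih.1 a h).trans mono
      · split_ifs at hs with h1
        · have e : s.1 = y := by rw [hs] at b; simp only [R] at b; omega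
          rw [hd, e, Function.update_self]
          rw [pr, e, stk] at h1
          unfold bar
          split_ifs at h1 ⊢ <;> first | omega | linarith
        · rw [hs] at b; simp only [L] at b; omega
    · intro a b
      by_cases h : s.1 < y
      · exact (ih.2 a h).trans mono
      · split_ifs at hs with h1
        · rw [hs] at b; simp only [R] at b; omega
        · have e : s.1 = y := by rw [hs] at b; simp only [L] at b; omega
          rw [hd, e, Function.update_self]
          rw [pr, e, stk] at h1
          unfold bar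
          split_ifs at h1 ⊢ <;> first | omega | exact absurd hu'.2 h1 | simp_all

lemma sum_dep_le (e : ℤ → ℕ → ℝ) (u : ℕ → ℝ) (S : Finset ℤ) (n : ℕ) :
    ∑ y ∈ S, (st e u n).2 y ≤ n := by
  induction n with
  | zero => simp [st, run]
  | succ n ih =>
    rw [st_dep_succ]
    have : ∀ y, Function.update (st e u n).2 (st e u n).1 ((st e u n).2 (st e u n).1 + 1) y =
        (st e u n).2 y + if y = (st e u n).1 then 1 else 0 := fun y => by
      rw [Function.update_apply]; split_ifs with h
      · rw [h]
      · rfl
    simp only [this, Finset.sum_add_distrib, Finset.sum_ite_eq']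
    split_ifs <;> omega

noncomputable def PC : Measure (ℤ → ℕ × Bool) := Measure.infinitePi fun _ => (law p8).toMeasure

instance : IsProbabilityMeasure PC := by unfold PC; infer_instance

lemma slln (b : Bool) (g : ℕ → ℤ) (hg : Function.Injective g) (C : ℕ) :
    ∀ᵐ c ∂PC, ∀ᶠ k in atTop, C * k ≤ ∑ i ∈ Finset.range k, bar b (c (g i)) := by
  obtain ⟨K, hK⟩ := (Real.tendsto_sum_range_one_div_nat_succ_atTop.eventually_gt_atTop
    (12 * (C : ℝ) + 1)).exists
  set f : ℕ × Bool → ℝ := fun c => ∑ j ∈ Finset.range K, ({(j, b)} : Set (ℕ × Bool)).indicator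
    (fun _ => (j : ℝ)) c with hf
  have mf : Measurable f := .of_discrete
  have fle : ∀ c, f c ≤ bar b c := fun c => by
    simp only [hf, indicator, mem_singleton_iff, bar]
    obtain ⟨j, b'⟩ := c
    by_cases hb : b' = b
    · subst hb
      simp only [Prod.mk.injEq, and_true, if_true, Finset.sum_ite_eq]
      split_ifs <;> simp
    · simp [hb]
  have intf : Integrable f (law p8).toMeasure :=
    integrable_finsetSum _ fun j _ => (integrable_const _).indicator .of_discrete
  have hE : (C : ℝ) < ∫ c, f c ∂(law p8).toMeasure := by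
    rw [hf, integral_finsetSum _ fun j _ => (integrable_const _).indicator .of_discrete]
    have : ∀ j ∈ Finset.range K, (1 / ((j : ℝ) + 1) - if j = 0 then 1 else 0) / 12 ≤
        ∫ c, ({(j, b)} : Set (ℕ × Bool)).indicator (fun _ => (j : ℝ)) c ∂(law p8).toMeasure := by
      intro j _
      rw [integral_indicator_const _ .of_discrete, measureReal_def,
        PMF.toMeasure_apply_singleton _ _ .of_discrete, law_apply, p8, tailP_apply,
        ENNReal.toReal_div, ENNReal.toReal_ofReal (sub_nonneg.2 (Q8_anti (Nat.le_succ j)))]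
      simp only [Q8, smul_eq_mul, ENNReal.toReal_ofNat]
      split_ifs with h
      · simp [h]
      · have : (1 : ℝ) ≤ j := by exact_mod_cast Nat.one_le_iff_ne_zero.2 h
        push_cast
        rw [show (8 / ((j : ℝ) + 8) - 8 / (j + 1 + 8)) / 2 * j = 4 * j / ((j + 8) * (j + 9)) by
          field_simp; ring, sub_zero, div_div, div_le_div_iff₀ (by positivity) (by positivity)]
        nlinarith
    refine lt_of_lt_of_le ?_ (Finset.sum_le_sum this)
    rw [← Finset.sum_div, Finset.sum_sub_distrib, Finset.sum_ite_eq']
    split_ifs <;> linarith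
  have hp : ∀ x, MeasurePreserving (fun c : ℤ → ℕ × Bool => c x) PC (law p8).toMeasure := fun x =>
    measurePreserving_eval_infinitePi (fun _ : ℤ => (law p8).toMeasure) x
  have hi : iIndepFun (fun (x : ℤ) (c : ℤ → ℕ × Bool) => f (c x)) PC :=
    iIndepFun_infinitePi (P := fun _ : ℤ => (law p8).toMeasure) (X := fun _ => f) fun _ => mf
  have H := strong_law_ae_real (μ := PC) (fun i c => f (c (g i))) ((hp _).integrable_comp_of_integrable intf)
    (fun i j hij => hi.indepFun (hg.ne hij)) fun i =>
      (IdentDistrib.mk (measurable_pi_apply (g i)).aemeasurable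
        (measurable_pi_apply (g 0)).aemeasurable
        ((hp (g i)).map_eq.trans (hp (g 0)).map_eq.symm)).comp mf
  have e : ∫ c, f (c (g 0)) ∂PC = ∫ c, f c ∂(law p8).toMeasure := by
    rw [← (hp (g 0)).map_eq, integral_map (measurable_pi_apply _).aemeasurable
      mf.aestronglyMeasurable]
  filter_upwards [H] with c hc
  rw [e] at hc
  filter_upwards [hc.eventually_const_lt hE, eventually_gt_atTop 0] with k h1 h2
  rw [lt_div_iff₀ (by exact_mod_cast h2)] at h1
  have := h1.le.trans (Finset.sum_le_sum fun i _ => fle (c (g i)))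
  exact_mod_cast this

theorem zero_speed : ∀ᵐ c ∂PC, ∀ᵐ u ∂iidU,
    Tendsto (fun n : ℕ => ((st (fun y => stk (c y)) u n).1 : ℝ) / n) atTop (𝓝 0) := by
  have h1 := ae_all_iff.2 (slln true (fun i => i) Nat.cast_injective)
  have h2 := ae_all_iff.2 (slln false (fun i => -i) (neg_injective.comp Nat.cast_injective))
  filter_upwards [h1, h2] with c a b
  filter_upwards [ae_mem] with u hu
  rw [Metric.tendsto_atTop]
  intro ε hε
  obtain ⟨C, hC⟩ := exists_nat_gt (1 / ε)
  obtain ⟨k, hk⟩ := eventually_atTop.1 ((a C).and (b C))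
  obtain ⟨N, hN⟩ := exists_nat_gt (k / ε)
  refine ⟨N + 1, fun n hn => ?_⟩
  have hn' : (N : ℝ) + 1 ≤ n := by exact_mod_cast hn
  have hN0 : (0 : ℝ) ≤ N := by positivity
  rw [Real.dist_eq, sub_zero, abs_div, Nat.abs_cast, div_lt_iff₀ (by linarith), ← Int.cast_abs,
    ← Int.natCast_natAbs, Int.cast_natCast]
  rw [div_lt_iff₀ hε] at hC hN
  have hb := bar_le c u hu n
  have hs := fun S => sum_dep_le (fun y => stk (c y)) u S n
  generalize st (fun y => stk (c y)) u n = s at *
  by_cases hx : s.1.natAbs < k
  · have : (s.1.natAbs : ℝ) < k := by exact_mod_cast hx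
    nlinarith
  · have key : C * s.1.natAbs ≤ n := by
      rcases le_total 0 s.1 with h | h
      · refine (hk _ (not_lt.1 hx)).1.trans (le_trans ?_
          (hs ((Finset.range s.1.natAbs).image fun i : ℕ => (i : ℤ))))
        rw [Finset.sum_image fun _ _ _ _ h => Nat.cast_injective h]
        exact Finset.sum_le_sum fun i hi => (hb i).1 (by omega) (by simp at hi; omega)
      · refine (hk _ (not_lt.1 hx)).2.trans (le_trans ?_
          (hs ((Finset.range s.1.natAbs).image fun i : ℕ => (-i : ℤ))))
        rw [Finset.sum_image fun _ _ _ _ h => Nat.cast_injective (neg_injective h)]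
        exact Finset.sum_le_sum fun i hi => (hb (-i)).2 (by omega) (by simp at hi; omega)
    have key' : (C : ℝ) * s.1.natAbs ≤ n := by exact_mod_cast key
    rcases Nat.eq_zero_or_pos s.1.natAbs with h | h
    · rw [h]; simp; nlinarith
    · have : (0 : ℝ) < s.1.natAbs := by exact_mod_cast h
      nlinarith

end Pool.Agent.H45.ERW
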