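import Pool.Agent.H45.ERWOd

/-! An identically piled uniformly elliptic environment with total drift one. -/

set_option maxHeartbeats 400000

open MeasureTheory Set Filter
open scoped ENNReal Classical Topology

namespace Pool.Agent.H45.ERW

open Coin

noncomputable def lev (n : ℕ) : ℕ := Nat.findGreatest (fun i => TT i ^ 2 ≤ n) n

lemma lev_mono : Monotone lev := fun _ _ h =>
  Nat.findGreatest_mono (fun _ hi => le_trans hi h) h

lemma lev_tendsto : Tendsto lev atTop atTop := by
  rw [tendsto_atTop]
  intro i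
  filter_upwards [eventually_ge_atTop i, eventually_ge_atTop (TT i ^ 2)] with n h1 h2
  exact Nat.le_findGreatest h1 h2

noncomputable def tau (n : ℕ) : ℝ := 1 / 2 ^ (2 * lev n + 7)

lemma tau_pos (n : ℕ) : 0 < tau n := by unfold tau; positivity

lemma tau_anti : Antitone tau := fun a b h =>
  one_div_le_one_div_of_le (by positivity)
    (pow_le_pow_right₀ (by norm_num) (by have := lev_mono h; omega))

lemma tau_le (n : ℕ) : tau n ≤ 1 / 2 := by
  refine one_div_le_one_div_of_le (by positivity) ?_
  calc (2 : ℝ) = 2 ^ 1 := by norm_num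
    _ ≤ _ := pow_le_pow_right₀ (by norm_num) (by omega)

lemma tau_tendsto : Tendsto tau atTop (𝓝 0) := by
  have h : Tendsto (fun n => 2 * lev n + 7) atTop atTop :=
    tendsto_atTop_mono (fun n => by omega) lev_tendsto
  have := (tendsto_pow_atTop_nhds_zero_of_lt_one (r := (1 / 2 : ℝ)) (by norm_num)
    (by norm_num)).comp h
  refine this.congr fun n => ?_
  simp [tau]

lemma summable_tau : Summable fun z : ℕ => ((z : ℝ) + 1) ^ (-(1 + tau ((z + 1) ^ 2))) := by
  rw [← summable_nat_add_iff (TT 0)]
  set f : ℕ → ℝ := fun z : ℕ => ((z : ℝ) + 1) ^ (-(1 + tau ((z + 1) ^ 2))) with hf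
  have h0 : ∀ z, 0 ≤ f z := fun z => by simp only [hf]; positivity
  have h1 : ∑' z, ENNReal.ofReal (f (z + TT 0)) ≠ ∞ := by
    refine ne_top_of_le_ne_top (b := ∑' i : ℕ, 2⁻¹ ^ (i + 2)) ?_ ?_
    · simp only [pow_add, ENNReal.tsum_mul_right, ENNReal.tsum_geometric,
        ENNReal.one_sub_inv_two, inv_inv]
      finiteness
    calc _ ≤ ∑' z : ℕ, ∑' i, (if TT i ≤ z + (TT 0 + 1) then
          ENNReal.ofReal (gg i (z + (TT 0 + 1))) else 0) := by
          refine ENNReal.tsum_le_tsum fun z => ?_
          refine le_trans ?_ (ENNReal.le_tsum (lev ((z + TT 0 + 1) ^ 2)))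
          have h1 : TT (lev ((z + TT 0 + 1) ^ 2)) ^ 2 ≤ (z + TT 0 + 1) ^ 2 :=
            Nat.findGreatest_spec (P := fun i => TT i ^ 2 ≤ (z + TT 0 + 1) ^ 2) (Nat.zero_le _)
              (Nat.pow_le_pow_left (by omega) 2)
          rw [if_pos (show _ ≤ z + (TT 0 + 1) from (Nat.pow_le_pow_iff_left (by norm_num)).1 h1)]
          refine ENNReal.ofReal_le_ofReal ?_
          simp only [hf, gg, tau]
          push_cast
          rw [← add_assoc]
          refine le_mul_of_one_le_left (by positivity) (Real.one_le_exp ?_)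
          have := Real.log_nonneg (one_le_pow₀ (show (1 : ℝ) ≤ 2 by norm_num)
            (n := 2 * lev ((z + TT 0 + 1) ^ 2) + 7))
          positivity
      _ ≤ ∑' z : ℕ, ∑' i, (if TT i ≤ z then ENNReal.ofReal (gg i z) else 0) :=
          ENNReal.tsum_comp_le_tsum_of_injective (add_left_injective (TT 0 + 1))
            fun z => ∑' i, (if TT i ≤ z then ENNReal.ofReal (gg i z) else 0)
      _ ≤ _ := by
          rw [ENNReal.tsum_comm]
          exact ENNReal.tsum_le_tsum fun i => (exists_T i).choose_spec.2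
  have := ENNReal.summable_toReal h1
  simpa only [ENNReal.toReal_ofReal (h0 _)] using this

/-- partial sums of the drifts -/
noncomputable def SS (n : ℕ) : ℝ := if n = 0 then 0 else if n = 1 then (1 + tau 2) / 2 else 1 + tau n

/-- the cookies, indexed from one -/
noncomputable def pp (i : ℕ) : ℝ := (1 + (SS i - SS (i - 1))) / 2

lemma SS_nonneg (n : ℕ) : 0 ≤ SS n := by
  have := tau_pos n
  have := tau_pos 2
  unfold SS; split_ifs <;> linarith

lemma SS_ge {n : ℕ} (h : 2 ≤ n) : SS n = 1 + tau n := by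
  rw [SS, if_neg (by omega), if_neg (by omega)]

lemma pp_succ (k : ℕ) : 2 * pp (k + 1) - 1 = SS (k + 1) - SS k := by
  simp only [pp, Nat.add_sub_cancel]; ring

lemma pp_mem (i : ℕ) : 1 / 4 ≤ pp i ∧ pp i ≤ 7 / 8 := by
  have a := tau_pos 2
  have b := tau_le 2
  rcases i with _ | _ | _ | i
  · simp [pp]; norm_num
  · simp only [pp, SS]; norm_num; constructor <;> linarith
  · simp only [pp, SS]; norm_num; constructor <;> linarith
  · have := pp_succ (i + 2)
    rw [SS_ge (by omega), SS_ge (by omega)] at this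
    have c := tau_anti (show i + 2 ≤ i + 2 + 1 by omega)
    have d := tau_le (i + 2)
    have e := tau_pos (i + 2 + 1)
    constructor <;> linarith

lemma sum_pp (n : ℕ) : ∑ i ∈ Finset.range n, (2 * pp (i + 1) - 1) = SS n := by
  simp only [pp_succ]
  rw [Finset.sum_range_sub]; simp [SS]

lemma SS_tendsto : Tendsto SS atTop (𝓝 1) := by
  have := tau_tendsto.const_add 1
  rw [add_zero] at this
  refine this.congr' ?_
  filter_upwards [eventually_ge_atTop 2] with n hn using (SS_ge hn).symm

noncomputable def hh (z : ℕ) (J : ℝ) : ℝ := J * (2 * z + 2 - J)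
noncomputable def da (z : ℕ) (y : ℤ) : ℝ := if y < 0 then 0 else hh z (z - y) / hh z (z - y + 1)
noncomputable def db (z : ℕ) (y : ℤ) : ℝ := if y = 0 then 1 else hh z (z - y + 2) / hh z (z - y + 1)

lemma gc_det (z : ℕ) (y : ℤ) (h1 : 1 ≤ y) (h2 : y ≤ z) (k : ℕ) :
    Real.exp (k / (z + 1) ^ 2 + (1 / (z - y + 1) - 1 / (z + 1 + y)) * SS k) ≤
      gc (fun _ => pp) (da z) (db z) y k := by
  have a1 : (1 : ℝ) ≤ y := by exact_mod_cast h1
  have a2 : (y : ℝ) ≤ z := by exact_mod_cast h2
  induction k with
  | zero => simp [gc, SS]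
  | succ k ih =>
    rw [gc, Finset.prod_range_succ, ← gc]
    set β : ℝ := 1 / (z - y + 1) - 1 / (z + 1 + y) with hβ
    have hH : 0 < hh z (z - y + 1) := mul_pos (by linarith) (by linarith)
    have hN : nz (fun _ => pp) (da z) (db z) y (k + 1) =
        1 - 1 / hh z (z - y + 1) - (SS (k + 1) - SS k) * β := by
      rw [← pp_succ, nz, da, db, if_neg (by omega), if_neg (by omega), hβ]
      have : (z : ℝ) - y + 1 ≠ 0 := by linarith
      have : (z : ℝ) + 1 + y ≠ 0 := by linarith
      have e : hh z (z - y + 1) = (z - y + 1) * (z + 1 + y) := by unfold hh; ring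
      rw [e]
      unfold hh
      field_simp
      ring
    have hpos : 0 < nz (fun _ => pp) (da z) (db z) y (k + 1) := by
      rw [nz, da, db, if_neg (by omega), if_neg (by omega)]
      have := pp_mem (k + 1)
      have b1 : 0 ≤ hh z (z - y) / hh z (z - y + 1) :=
        div_nonneg (mul_nonneg (by linarith) (by linarith)) hH.le
      have b2 : 0 < hh z (z - y + 2) / hh z (z - y + 1) :=
        div_pos (mul_pos (by linarith) (by linarith)) hH
      nlinarith
    have hη : 1 / ((z : ℝ) + 1) ^ 2 ≤ 1 / hh z (z - y + 1) :=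
      one_div_le_one_div_of_le hH (by unfold hh; nlinarith [sq_nonneg (y : ℝ)])
    have h3 : Real.exp (1 / ((z : ℝ) + 1) ^ 2 + (SS (k + 1) - SS k) * β) ≤
        (nz (fun _ => pp) (da z) (db z) y (k + 1))⁻¹ := by
      rw [le_inv_comm₀ (Real.exp_pos _) hpos, ← Real.exp_neg]
      have := Real.add_one_le_exp (-(1 / ((z : ℝ) + 1) ^ 2 + (SS (k + 1) - SS k) * β))
      rw [hN]; linarith
    refine le_trans (le_of_eq ?_) (mul_le_mul ih h3 (Real.exp_pos _).le
      ((Real.exp_pos _).le.trans ih))
    rw [← Real.exp_add]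
    congr 1
    push_cast; ring

theorem transient_det : ∀ᵐ u ∂iidU, Tendsto (fun n => |(st (fun _ => pp) u n).1|) atTop atTop := by
  have he : ∀ (_ : ℤ) i, 0 ≤ pp i ∧ pp i ≤ 1 := fun _ i => by
    have := pp_mem i; constructor <;> linarith
  have ha : ∀ z : ℕ, ∀ y ≤ (z : ℤ), 0 ≤ da z y := fun z y hy => by
    unfold da
    split_ifs with h
    · exact le_rfl
    · have a1 : (0 : ℝ) ≤ y := by exact_mod_cast not_lt.1 h
      have a2 : (y : ℝ) ≤ z := by exact_mod_cast hy
      exact div_nonneg (mul_nonneg (by linarith) (by linarith))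
        (mul_nonneg (by linarith) (by linarith))
  refine transient_tilt (fun _ => pp) he (fun _ i _ => ?_) (fun _ => True) (fun y h => absurd trivial h)
    da db (fun z => Real.exp 4 * ((z : ℝ) + 1) ^ (-(1 + tau ((z + 1) ^ 2)))) (fun z => by positivity)
    (summable_tau.mul_left _) ha (fun z => by simp [da, hh]) (fun z => by simp [db]) (fun z => ?_)
    (fun z y h1 h2 => ?_) (fun z y i _ h1 h2 => ?_) fun z dep _ hq => ?_
  · have := pp_mem i; constructor <;> linarith
  · simp only [da, lt_irrefl, if_false, hh, Int.cast_zero, sub_zero]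
    have : (0 : ℝ) ≤ z := by positivity
    rw [div_lt_one (mul_pos (by linarith) (by linarith))]
    nlinarith
  · have a1 : (1 : ℝ) ≤ y := by exact_mod_cast h1
    have a2 : (y : ℝ) ≤ z := by exact_mod_cast h2
    have b1 : hh z (z - y + 1) ≠ 0 := (mul_pos (by linarith) (by linarith)).ne'
    have b2 : hh z (z - y + 2) ≠ 0 := (mul_pos (by linarith) (by linarith)).ne'
    rw [da, db, if_neg (by omega), if_neg (by omega)]
    push_cast
    rw [show (z : ℝ) - (y - 1) = z - y + 1 by ring, show (z : ℝ) - y + 1 + 1 = z - y + 2 by ring]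
    field_simp
  · have a1 : (0 : ℝ) ≤ y := by exact_mod_cast h1
    have a2 : (y : ℝ) ≤ z := by exact_mod_cast h2
    have b1 := ha z y h2
    have b2 : 0 < db z y := by
      unfold db
      split_ifs with h
      · norm_num
      · have : (1 : ℝ) ≤ y := by exact_mod_cast (show 1 ≤ y by omega)
        exact div_pos (mul_pos (by linarith) (by linarith)) (mul_pos (by linarith) (by linarith))
    have := pp_mem (i + 1)
    rw [nz]
    nlinarith
  · set σ := 1 + tau ((z + 1) ^ 2) with hσ
    have s1 := tau_pos ((z + 1) ^ 2)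
    have s2 := tau_le ((z + 1) ^ 2)
    have hz0 : (0 : ℝ) ≤ z := by positivity
    have key : ∀ y ∈ Finset.Icc (1 : ℤ) z,
        Real.exp (if y < z then σ * (cw (z + 1) y - 1 / (z + 1)) else 0) ≤
          gc (fun _ => pp) (da z) (db z) y (dep y) := by
      intro y hy
      simp only [Finset.mem_Icc] at hy
      refine le_trans (Real.exp_le_exp.2 ?_) (gc_det z y hy.1 hy.2 _)
      have a1 : (1 : ℝ) ≤ y := by exact_mod_cast hy.1
      have a2 : (y : ℝ) ≤ z := by exact_mod_cast hy.2
      have b0 : 1 / ((z : ℝ) + 1 + y) ≤ 1 / (z - y + 1) :=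
        one_div_le_one_div_of_le (by linarith) (by linarith)
      have b1 : 1 / ((z : ℝ) + 1 + y) ≤ 1 / (z + 1) :=
        one_div_le_one_div_of_le (by linarith) (by linarith)
      have b2 : 1 / ((z : ℝ) - y + 1) ≤ 1 := by
        rw [div_le_one (by linarith)]; linarith
      have b3 : 0 ≤ 1 / ((z : ℝ) + 1 + y) := by positivity
      have b4 := SS_nonneg (dep y)
      have b5 : (0 : ℝ) ≤ dep y / (z + 1) ^ 2 := by positivity
      split_ifs with h
      · have c1 := cw_le (z := z + 1) (y := y) (l := z - y + 1) (by omega) (by omega)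
        push_cast at c1
        rw [SS_ge (hq y hy.1 h)]
        have c2 : σ * (cw (z + 1) y - 1 / (z + 1)) ≤ σ * (1 / (z - y + 1) - 1 / (z + 1 + y)) :=
          mul_le_mul_of_nonneg_left (by linarith) (by linarith)
        refine c2.trans ?_
        by_cases hk : dep y ≤ (z + 1) ^ 2
        · have := tau_anti hk
          nlinarith
        · have : (1 : ℝ) ≤ dep y / (z + 1) ^ 2 := by
            rw [le_div_iff₀ (by positivity), one_mul]
            exact_mod_cast (not_le.1 hk).le
          have := tau_pos (dep y)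
          nlinarith
      · nlinarith
    have h2 := Finset.prod_le_prod (fun y _ => (Real.exp_pos _).le) key
    have e1 : (Finset.Icc (1 : ℤ) z).filter (fun y : ℤ => y < z) = Finset.Ico (1 : ℤ) z := by
      ext y; simp; omega
    rw [← Real.exp_sum, ← Finset.sum_filter, e1, ← Finset.mul_sum, Finset.sum_sub_distrib] at h2
    refine le_trans ?_ (mul_le_mul_of_nonneg_left h2 (by positivity))
    rw [Real.rpow_def_of_pos (by linarith), ← Real.exp_add, ← Real.exp_add]
    apply Real.one_le_exp
    have e2 : Real.log (z + 1) - 1 ≤ ∑ y ∈ Finset.Ico (1 : ℤ) z, cw (z + 1) y := by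
      rcases Nat.eq_zero_or_pos z with h | h
      · subst h; simp
      · have h1 := sum_cw (z + 1) (z - 1)
        rw [show (1 : ℤ) + ((z - 1 : ℕ) : ℤ) = z by omega, Nat.cast_sub h] at h1
        push_cast at h1
        rw [h1, show (z : ℝ) + 1 - (z - 1) = 2 by ring]
        have := Real.log_le_sub_one_of_pos (show (0 : ℝ) < 2 by norm_num)
        linarith
    have e3 : ∑ _y ∈ Finset.Ico (1 : ℤ) z, 1 / ((z : ℝ) + 1) ≤ 1 := by
      rw [Finset.sum_const, nsmul_eq_mul, Int.card_Ico, mul_one_div, div_le_one (by linarith)]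
      have : ((z : ℤ) - 1).toNat ≤ z + 1 := by omega
      exact_mod_cast this
    nlinarith

lemma left_le (c l : ℕ) (hc : 1 ≤ c) :
    iidU {u | ∃ k, (st (fun _ => pp) u k).1 ≤ -l ∧ (st (fun _ => pp) u k).2 c = 0 ∧
      (st (fun _ => pp) u k).2 (c + 1) = 0} ≤ ENNReal.ofReal (c / (c + l)) := by
  have hc' : (1 : ℝ) ≤ c := by exact_mod_cast hc
  have hD : (0 : ℝ) < c + l := by positivity
  have hS : ∀ dep : ℤ → ℕ, 0 ≤ ∑ y ∈ Finset.Icc (-l : ℤ) c, SS (dep y) := fun dep =>
    Finset.sum_nonneg fun y _ => SS_nonneg _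
  set φ : St → ℝ := fun s => if s.2 c = 0 ∧ s.2 (c + 1) = 0 ∧ s.1 ≤ c then
    (c - s.1 + ∑ y ∈ Finset.Icc (-l : ℤ) c, SS (s.2 y)) / (c + l) else 0 with hφ
  have h0 : ∀ s, 0 ≤ φ s := fun s => by
    simp only [hφ]
    split_ifs with h
    · have : (s.1 : ℝ) ≤ c := by exact_mod_cast h.2.2
      exact div_nonneg (by linarith [hS s.2]) hD.le
    · exact le_rfl
  have key := max_le_real (pr fun _ => pp) R L (fun s => by
      have := pp_mem (s.2 s.1 + 1); simp only [pr]; constructor <;> linarith) φ h0
    {s | s.1 ≤ -l ∧ s.2 c = 0 ∧ s.2 (c + 1) = 0} (fun s hs => ?_) (fun s hs => ?_) (0, 0)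
  · refine key.trans (le_of_eq ?_)
    simp [hφ, SS]
  · obtain ⟨a, b, d⟩ := hs
    simp only [hφ]
    rw [if_pos ⟨b, d, by omega⟩, le_div_iff₀ hD]
    have : (s.1 : ℝ) ≤ -l := by exact_mod_cast a
    linarith [hS s.2]
  · have h1 := h0 s
    obtain ⟨x, dep⟩ := s
    by_cases hx : dep c = 0 ∧ dep (c + 1) = 0 ∧ x < c
    · have hx2 : -l < x := by
        by_contra h; exact hs ⟨by simpa using h, hx.1, hx.2.1⟩
      have hm : x ∈ Finset.Icc (-l : ℤ) c := by simp; omega
      have e1 : ∑ y ∈ Finset.Icc (-l : ℤ) c, SS (Function.update dep x (dep x + 1) y) =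
          ∑ y ∈ Finset.Icc (-l : ℤ) c, SS (dep y) + (2 * pp (dep x + 1) - 1) := by
        rw [← Finset.add_sum_erase _ _ hm, ← Finset.add_sum_erase _ _ hm, Function.update_self,
          pp_succ]
        rw [Finset.sum_congr rfl (g := fun y => SS (dep y)) fun y hy => by
          rw [Function.update_of_ne (Finset.mem_erase.1 hy).1]]
        ring
      simp only [hφ, R, L, pr, e1]
      rw [Function.update_of_ne (by omega), Function.update_of_ne (by omega),
        if_pos ⟨hx.1, hx.2.1, by omega⟩, if_pos ⟨hx.1, hx.2.1, by omega⟩,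
        if_pos ⟨hx.1, hx.2.1, by omega⟩]
      push_cast
      apply le_of_eq
      field_simp
      ring
    · have k : ∀ x' : ℤ, x' = x + 1 ∨ x' = x - 1 → φ (x', Function.update dep x (dep x + 1)) = 0 := by
        intro x' hx'
        simp only [hφ]
        rw [if_neg]
        rintro ⟨a, b, d⟩
        simp only [Function.update_apply] at a b
        split_ifs at a b <;> omega
      rw [R, L, k _ (Or.inl rfl), k _ (Or.inr rfl)]
      simpa using h1

theorem right_det : ∀ᵐ u ∂iidU, Tendsto (fun n => (st (fun _ => pp) u n).1) atTop atTop := by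
  have h1 : ∀ c : ℕ, ∀ᵐ u ∂iidU, ¬∀ l : ℕ, ∃ k, (st (fun _ => pp) u k).1 ≤ -l ∧
      (st (fun _ => pp) u k).2 (c + 1 : ℕ) = 0 ∧ (st (fun _ => pp) u k).2 ((c + 1 : ℕ) + 1) = 0 := by
    intro c
    rw [ae_iff]
    refine null_of_le (fun l => ENNReal.ofReal ((c + 1 : ℕ) / ((c + 1 : ℕ) + l))) ?_ fun l =>
      le_trans (measure_mono fun u hu => ?_) (left_le (c + 1) l (by omega))
    · have := (tendsto_atTop_add_const_left atTop ((c + 1 : ℕ) : ℝ)
        tendsto_natCast_atTop_atTop).const_div_atTop ((c + 1 : ℕ) : ℝ)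
      simpa using ENNReal.tendsto_ofReal this
    · exact not_not.1 hu l
  filter_upwards [transient_det, ae_all_iff.2 h1] with u ht hl
  set X : ℕ → ℤ := fun n => (st (fun _ => pp) u n).1 with hX
  have step : ∀ n, X (n + 1) = X n + 1 ∨ X (n + 1) = X n - 1 := fun n => by
    simp only [hX, st_succ]
    split_ifs
    · exact Or.inl rfl
    · exact Or.inr rfl
  obtain ⟨N, hN⟩ := eventually_atTop.1 (ht.eventually_ge_atTop 1)
  by_cases hpos : 0 < X N
  · have : ∀ n, N ≤ n → 0 < X n := fun n hn => by
      induction n, hn using Nat.le_induction with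
      | base => exact hpos
      | succ n hn ih =>
        have a := hN (n + 1) (by omega)
        have b := step n
        change 1 ≤ |X (n + 1)| at a
        rcases le_abs.1 a with a | a <;> omega
    refine ht.congr' ?_
    filter_upwards [eventually_ge_atTop N] with n hn using abs_of_pos (this n hn)
  · exfalso
    have hneg : ∀ n, N ≤ n → X n < 0 := fun n hn => by
      induction n, hn using Nat.le_induction with
      | base =>
        have a := hN N le_rfl
        change 1 ≤ |X N| at a
        rcases le_abs.1 a with a | a <;> omega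
      | succ n hn ih =>
        have a := hN (n + 1) (by omega)
        have b := step n
        change 1 ≤ |X (n + 1)| at a
        rcases le_abs.1 a with a | a <;> omega
    have hb : ∀ n, X n ≤ n := fun n => by
      induction n with
      | zero => exact le_of_eq rfl
      | succ n ih => have := step n; push_cast; omega
    have hb2 : ∀ n, X n ≤ N := fun n => by
      by_cases h : N ≤ n
      · have := hneg n h; omega
      · have := hb n; omega
    have hd : ∀ k (y : ℤ), N < y → (st (fun _ => pp) u k).2 y = 0 := fun k y hy => by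
      rw [st_dep, Finset.card_eq_zero, Finset.filter_eq_empty_iff]
      intro m _ h
      have := hb2 m
      change X m = y at h
      omega
    apply hl N
    intro l
    obtain ⟨k, hk, hk2⟩ := ((ht.eventually_ge_atTop l).and (eventually_ge_atTop N)).exists
    refine ⟨k, ?_, hd k _ (by omega), hd k _ (by omega)⟩
    have := hneg k hk2
    change (l : ℤ) ≤ |X k| at hk
    change X k ≤ _
    rw [abs_of_neg this] at hk
    omega

end Pool.Agent.H45.ERW
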