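import Pool.Agent.H45.ERWEst

/-! A hierarchical environment over the 2-adic odometer. -/

set_option maxHeartbeats 400000

open MeasureTheory Set Filter
open scoped ENNReal Classical Topology

namespace Pool.Agent.H45.ERW

open Coin

/-- the odometer group -/
def Od : Type := ℤ_[2]

noncomputable instance : NormedCommRing Od := inferInstanceAs (NormedCommRing ℤ_[2])
instance : CompactSpace Od := inferInstanceAs (CompactSpace ℤ_[2])
noncomputable instance : MeasurableSpace Od := borel Od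
instance : BorelSpace Od := ⟨rfl⟩

noncomputable def mu : Measure Od := Measure.addHaarMeasure ⊤

instance : mu.IsAddHaarMeasure := by unfold mu; infer_instance
instance : IsProbabilityMeasure mu := ⟨by
  have := Measure.addHaarMeasure_self (K₀ := (⊤ : TopologicalSpace.PositiveCompacts Od))
  simpa [mu] using this⟩

noncomputable def red (K : ℕ) : Od →+* ZMod (2 ^ K) := PadicInt.toZModPow (p := 2) K

noncomputable def r (K : ℕ) (x : Od) : ℤ := ((red K x).val : ℤ)

lemma r_nonneg (K : ℕ) (x : Od) : 0 ≤ r K x := Int.natCast_nonneg _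

lemma r_lt (K : ℕ) (x : Od) : r K x < 2 ^ K := by
  have := ZMod.val_lt (red K x)
  unfold r; exact_mod_cast this

lemma r_add (K : ℕ) (x : Od) (y : ℤ) : r K (x + y) = (r K x + y) % 2 ^ K := by
  have : red K (x + y) = ((r K x + y : ℤ) : ZMod (2 ^ K)) := by
    simp [r]
  rw [r, this, ZMod.val_intCast]; simp

lemma r_mod {J K : ℕ} (h : J ≤ K) (x : Od) : r J x = r K x % 2 ^ J := by
  have h1 : (ZMod.cast (red K x) : ZMod (2 ^ J)) = red J x := PadicInt.cast_toZModPow J K h x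
  have : red J x = ((r K x : ℤ) : ZMod (2 ^ J)) := by
    rw [← h1]; simp [r]
  rw [r, this, ZMod.val_intCast]; simp

lemma measurable_r (K : ℕ) : Measurable (r K) := by
  refine measurable_to_countable' fun a => IsOpen.measurableSet ?_
  rw [Metric.isOpen_iff]
  intro x hx
  refine ⟨(2 : ℝ) ^ (-(K : ℤ)), by positivity, fun y hy => ?_⟩
  have h1 : ‖y - x‖ ≤ ((2 : ℕ) : ℝ) ^ (-(K : ℤ)) := by
    rw [Metric.mem_ball, dist_eq_norm] at hy
    exact_mod_cast hy.le
  have h3 := (PadicInt.norm_le_pow_iff_mem_span_pow (p := 2) (y - x : Od) K).1 h1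
  rw [← PadicInt.ker_toZModPow, RingHom.mem_ker] at h3
  have h2 : red K (y - x) = 0 := h3
  rw [map_sub, sub_eq_zero] at h2
  simp only [mem_preimage, mem_singleton_iff, r] at hx ⊢
  rw [h2, hx]

lemma ms (K : ℕ) (P : ℤ → Prop) : MeasurableSet {x | P (r K x)} :=
  measurable_r K (MeasurableSet.of_discrete (s := {a | P a}))

lemma mu_fiber_eq (K : ℕ) (a : ℤ) (h0 : 0 ≤ a) (h1 : a < 2 ^ K) :
    mu {x | r K x = a} = mu {x | r K x = 0} := by
  rw [← measure_preimage_add_right mu ((a : ℤ) : Od) {x | r K x = a}]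
  congr 1
  ext x
  simp only [mem_preimage, mem_ofPred_eq, r_add]
  have a1 := r_nonneg K x
  have a2 := r_lt K x
  constructor
  · intro h
    by_contra hne
    by_cases hc : r K x + a < 2 ^ K
    · rw [Int.emod_eq_of_lt (by omega) hc] at h; omega
    · rw [show r K x + a = (r K x + a - 2 ^ K) + 2 ^ K * 1 by ring, Int.add_mul_emod_self_left,
        Int.emod_eq_of_lt (by omega) (by omega)] at h
      omega
  · intro h; rw [h, zero_add, Int.emod_eq_of_lt h0 h1]

lemma mu_mem_aux (K : ℕ) (S : Finset ℤ) (hS : S ⊆ Finset.Ico 0 (2 ^ K)) :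
    mu {x | r K x ∈ S} = S.card * mu {x | r K x = 0} := by
  have : {x | r K x ∈ S} = ⋃ a ∈ S, {x | r K x = a} := by ext; simp
  rw [this, measure_biUnion_finset, Finset.sum_congr rfl (g := fun _ => mu {x | r K x = 0}),
    Finset.sum_const, nsmul_eq_mul]
  · intro a ha
    have := Finset.mem_Ico.1 (hS ha)
    exact mu_fiber_eq K a this.1 this.2
  · intro a _ b _ hab
    exact Set.disjoint_left.2 fun x h1 h2 => hab (h1.symm.trans h2)
  · intro a _; exact ms K (· = a)

lemma mu_zero (K : ℕ) : mu {x | r K x = 0} = (2 ^ K)⁻¹ := by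
  have h := mu_mem_aux K _ subset_rfl
  have : {x | r K x ∈ Finset.Ico 0 (2 ^ K)} = univ := by
    ext x; simp [r_nonneg, r_lt]
  rw [this, measure_univ, Int.card_Ico, sub_zero,
    show ((2 : ℤ) ^ K).toNat = 2 ^ K by rw [Int.toNat_pow_of_nonneg (by norm_num)]; rfl] at h
  refine ENNReal.eq_inv_of_mul_eq_one_left ?_
  rw [mul_comm, h]; simp

lemma mu_mem (K : ℕ) (S : Finset ℤ) (hS : S ⊆ Finset.Ico 0 (2 ^ K)) :
    mu {x | r K x ∈ S} = S.card * (2 ^ K)⁻¹ := by rw [mu_mem_aux K S hS, mu_zero]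

lemma card_cls (m a : ℤ) (N : ℕ) (ha : 0 ≤ a) (ham : a < m) :
    ((Finset.Ico 0 (m * N)).filter fun t => t % m = a).card = N := by
  have hm : 0 < m := by omega
  conv_rhs => rw [← Finset.card_range N]
  symm
  refine Finset.card_bij (fun t _ => a + m * t) (fun t ht => ?_) (fun t _ t' _ h => ?_) fun s hs => ?_
  · simp only [Finset.mem_range, Finset.mem_filter, Finset.mem_Ico] at ht ⊢
    have : m * (t + 1) ≤ m * N := mul_le_mul_of_nonneg_left (by omega) hm.le
    refine ⟨⟨by positivity, by nlinarith⟩, ?_⟩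
    rw [Int.add_mul_emod_self_left, Int.emod_eq_of_lt ha ham]
  · have : (t : ℤ) = t' := mul_left_cancel₀ hm.ne' (by linarith)
    exact_mod_cast this
  · simp only [Finset.mem_range, Finset.mem_filter, Finset.mem_Ico] at hs ⊢
    obtain ⟨t, ht⟩ := Int.eq_ofNat_of_zero_le (Int.ediv_nonneg hs.1.1 hm.le)
    have e := Int.emod_add_mul_ediv s m
    have : s / m < N := Int.ediv_lt_of_lt_mul hm (by rw [mul_comm]; exact hs.1.2)
    exact ⟨t, by omega, by rw [← ht]; omega⟩

noncomputable def gg (i : ℕ) (z : ℕ) : ℝ :=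
  Real.exp (1 + Real.log (2 ^ (2 * i + 7)) / 2 ^ (2 * i + 7)) * (z : ℝ) ^ (-(1 + 1 / 2 ^ (2 * i + 7) : ℝ))

lemma exists_T (i : ℕ) : ∃ T : ℕ, 2 ^ (2 * i + 7) ≤ T ∧
    ∑' z : ℕ, (if T ≤ z then ENNReal.ofReal (gg i z) else 0) ≤ 2⁻¹ ^ (i + 2) := by
  have hs : Summable (gg i) := by
    refine Summable.mul_left _ (Real.summable_nat_rpow.2 ?_)
    have : (0 : ℝ) < 1 / 2 ^ (2 * i + 7) := by positivity
    linarith
  have h1 : ∑' z, ENNReal.ofReal (gg i z) ≠ ∞ := by
    rw [← ENNReal.ofReal_tsum_of_nonneg (fun n => by unfold gg; positivity) hs]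
    exact ENNReal.ofReal_ne_top
  have h2 := ENNReal.tendsto_sum_nat_add _ h1
  have h3 : (0 : ℝ≥0∞) < 2⁻¹ ^ (i + 2) := ENNReal.pow_pos (by simp) _
  obtain ⟨T, hT, hT'⟩ := ((h2.eventually (ge_mem_nhds h3)).and (eventually_ge_atTop (2 ^ (2 * i + 7)))).exists
  refine ⟨T, hT', le_trans (le_of_eq ?_) hT⟩
  rw [← (add_left_injective T).tsum_eq (f := fun z => if T ≤ z then ENNReal.ofReal (gg i z) else 0)]
  · simp
  · intro z hz
    by_cases h : T ≤ z
    · exact ⟨z - T, by simp; omega⟩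
    · simp [h] at hz

noncomputable def TT (i : ℕ) : ℕ := (exists_T i).choose
noncomputable def NN (i : ℕ) : ℕ := 2 ^ (TT (i + 1) + TT 0)
noncomputable def KK (i : ℕ) : ℕ := 2 * i + 7 + (TT (i + 1) + TT 0)

lemma pow_KK (i : ℕ) : (2 : ℤ) ^ KK i = 2 ^ (2 * i + 7) * (NN i : ℤ) := by
  simp [KK, NN, pow_add]

lemma NN_ge (i : ℕ) : TT (i + 1) + TT 0 < NN i := Nat.lt_two_pow_self

def MA : ℕ → Od → Prop
  | 0, x => r 2 x = 1
  | i + 1, x => r (KK i) x % 2 ^ (2 * i + 7) = 2 ^ (i + 1)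

def MB : ℕ → Od → Prop
  | 0, x => r 2 x = 3
  | i + 1, x => r (KK i) x % 2 ^ (i + 2) = 2 ^ (i + 1) ∧ r (KK i) x < 2 ^ (i + 2) * (NN i : ℤ)

def ZZ (i : ℕ) (x : Od) : Prop := r (KK i) x < 2 * (2 ^ (i + 2) * (NN i : ℤ))

def EE (x : Od) : Prop := r 2 x = 3 ∧ ∀ i, ¬ZZ i x

noncomputable def dd (x : Od) : ℕ := dr (∃ i, MA i x) (∃ i, MB i x)

lemma cls_A {n : ℕ} {x : Od} (h : MA n x) : r (n + 1) x = 2 ^ n := by
  cases n with
  | zero =>
    have := r_mod (show 1 ≤ 2 by norm_num) x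
    simp only [MA] at h
    simp [this, h]
  | succ i =>
    simp only [MA] at h
    rw [r_mod (show i + 1 + 1 ≤ KK i by unfold KK; omega),
      ← Int.emod_emod_of_dvd _ (pow_dvd_pow 2 (show i + 1 + 1 ≤ 2 * i + 7 by omega)), h]
    exact Int.emod_eq_of_lt (by positivity) (pow_lt_pow_right₀ (by norm_num) (by omega))

lemma cls_B {n : ℕ} {x : Od} (h : MB n x) : r (n + 1) x = 2 ^ n := by
  cases n with
  | zero =>
    have := r_mod (show 1 ≤ 2 by norm_num) x
    simp only [MB] at h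
    simp [this, h]
  | succ i =>
    simp only [MB] at h
    rw [r_mod (show i + 1 + 1 ≤ KK i by unfold KK; omega), h.1]

lemma cls_uniq {n k : ℕ} {x : Od} (h : r (n + 1) x = 2 ^ n) (h' : r (k + 1) x = 2 ^ k) : n = k := by
  have key : ∀ n k : ℕ, r (n + 1) x = 2 ^ n → r (k + 1) x = 2 ^ k → ¬n < k := by
    intro n k h h' hlt
    rw [r_mod (show n + 1 ≤ k + 1 by omega), h', Int.emod_eq_zero_of_dvd (pow_dvd_pow 2 hlt)] at h
    exact absurd h (by positivity)
  have := key n k h h'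
  have := key k n h' h
  omega

lemma EE_dd {x : Od} (h : EE x) : dd x = 0 := by
  have hB : MB 0 x := h.1
  have : ¬∃ i, MA i x := by
    rintro ⟨i, hi⟩
    have := cls_uniq (cls_A hi) (cls_B hB)
    subst this
    simp only [MA, MB] at hi hB
    omega
  simp [dd, dr, this, show ∃ i, MB i x from ⟨0, hB⟩]

lemma ms_A (n : ℕ) : MeasurableSet {x | MA n x} := by
  cases n with
  | zero => exact ms 2 (· = 1)
  | succ i => exact ms (KK i) fun t => t % 2 ^ (2 * i + 7) = 2 ^ (i + 1)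

lemma ms_B (n : ℕ) : MeasurableSet {x | MB n x} := by
  cases n with
  | zero => exact ms 2 (· = 3)
  | succ i => exact ms (KK i) fun t => t % 2 ^ (i + 2) = 2 ^ (i + 1) ∧ t < 2 ^ (i + 2) * (NN i : ℤ)

lemma ms_Z (i : ℕ) : MeasurableSet {x | ZZ i x} :=
  ms (KK i) fun t => t < 2 * (2 ^ (i + 2) * (NN i : ℤ))

lemma ms_E : MeasurableSet {x | EE x} := by
  have : {x | EE x} = {x | r 2 x = 3} ∩ ⋂ i, {x | ZZ i x}ᶜ := by ext; simp [EE]
  rw [this]
  exact (ms 2 (· = 3)).inter (MeasurableSet.iInter fun i => (ms_Z i).compl)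

lemma mu_AB (n : ℕ) : mu {x | MA n x} = mu {x | MB n x} := by
  cases n with
  | zero =>
    simp only [MA, MB]
    rw [mu_fiber_eq 2 1 (by norm_num) (by norm_num), mu_fiber_eq 2 3 (by norm_num) (by norm_num)]
  | succ i =>
    have hle : (2 : ℤ) ^ (i + 2) * NN i ≤ 2 ^ KK i := by
      rw [pow_KK]
      exact mul_le_mul_of_nonneg_right (pow_le_pow_right₀ (by norm_num) (by omega)) (by positivity)
    have e1 : {x | MA (i + 1) x} = {x | r (KK i) x ∈ (Finset.Ico 0 (2 ^ (2 * i + 7) * (NN i : ℤ))).filter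
        fun t => t % 2 ^ (2 * i + 7) = 2 ^ (i + 1)} := by
      ext x
      simp [MA, r_nonneg, ← pow_KK, r_lt]
    have e2 : {x | MB (i + 1) x} = {x | r (KK i) x ∈ (Finset.Ico 0 (2 ^ (i + 2) * (NN i : ℤ))).filter
        fun t => t % 2 ^ (i + 2) = 2 ^ (i + 1)} := by
      ext x
      simp [MB, r_nonneg, and_comm]
    rw [e1, e2, mu_mem, mu_mem, card_cls, card_cls]
    · positivity
    · exact pow_lt_pow_right₀ (by norm_num) (by omega)
    · positivity
    · exact pow_lt_pow_right₀ (by norm_num) (by omega)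
    · exact (Finset.filter_subset _ _).trans (Finset.Ico_subset_Ico_right hle)
    · rw [pow_KK]; exact Finset.filter_subset _ _

lemma mu_union : mu {x | ∃ n, MA n x} = mu {x | ∃ n, MB n x} := by
  rw [ofPred_exists, ofPred_exists, measure_iUnion _ ms_A, measure_iUnion _ ms_B]
  · exact tsum_congr mu_AB
  · intro a b hab
    exact Set.disjoint_left.2 fun x h1 h2 => hab (cls_uniq (cls_B h1) (cls_B h2))
  · intro a b hab
    exact Set.disjoint_left.2 fun x h1 h2 => hab (cls_uniq (cls_A h1) (cls_A h2))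

lemma mu_Z (i : ℕ) : mu {x | ZZ i x} = 2⁻¹ ^ (i + 4) := by
  have e : {x | ZZ i x} = {x | r (KK i) x ∈ Finset.Ico 0 (2 * (2 ^ (i + 2) * (NN i : ℤ)))} := by
    ext x; simp [ZZ, r_nonneg]
  have e1 : (2 : ℤ) ^ KK i = 2 ^ (i + 4) * (2 * (2 ^ (i + 2) * (NN i : ℤ))) := by
    rw [pow_KK]; ring
  rw [e, mu_mem, Int.card_Ico, sub_zero]
  · have e2 : (2 * (2 ^ (i + 2) * (NN i : ℤ))).toNat = 2 ^ (i + 3 + (TT (i + 1) + TT 0)) := by
      rw [show (2 * (2 ^ (i + 2) * (NN i : ℤ))) = ((2 ^ (i + 3 + (TT (i + 1) + TT 0)) : ℕ) : ℤ) by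
        simp only [NN]; push_cast; ring, Int.toNat_natCast]
    rw [e2, show KK i = (i + 3 + (TT (i + 1) + TT 0)) + (i + 4) by unfold KK; omega, pow_add (2 : ℝ≥0∞),
      ENNReal.mul_inv (by simp) (by simp), ← mul_assoc]
    push_cast
    rw [ENNReal.mul_inv_cancel (by simp) (by simp), one_mul, ENNReal.inv_pow]
  · refine Finset.Ico_subset_Ico_right ?_
    rw [e1]
    exact le_mul_of_one_le_left (by positivity) (one_le_pow₀ (by norm_num))

lemma mu_E : 0 < mu {x | EE x} := by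
  rw [pos_iff_ne_zero]
  intro h
  have h1 : {x | r 2 x = 3} ⊆ {x | EE x} ∪ ⋃ i, {x | ZZ i x} := by
    intro x hx
    by_cases hz : ∃ i, ZZ i x
    · exact Or.inr (mem_iUnion.2 hz)
    · exact Or.inl ⟨hx, fun i hi => hz ⟨i, hi⟩⟩
  have h2 := (measure_mono (μ := mu) h1).trans ((measure_union_le _ _).trans
    (add_le_add_right (measure_iUnion_le _) _))
  rw [h, zero_add, mu_fiber_eq 2 3 (by norm_num) (by norm_num), mu_zero] at h2
  simp only [mu_Z, pow_add, ENNReal.tsum_mul_right, ENNReal.tsum_geometric,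
    ENNReal.one_sub_inv_two, inv_inv] at h2
  have := ENNReal.toReal_mono (by finiteness) h2
  norm_num at this

lemma bound_z (x : Od) (hx : r (KK 0) x = 0) (z : ℕ) (hz : 1 ≤ z) (hE : EE (x + (z : ℤ))) :
    ∃ i, TT i ≤ z ∧ ∏ y ∈ Finset.Ico (1 : ℤ) z, ca z y ^ dd (x + y) ≤ gg i z := by
  have hex : ∃ i, (z : ℤ) ≤ 2 ^ KK i := ⟨z, by
    have : z < 2 ^ KK z := lt_of_lt_of_le Nat.lt_two_pow_self
      (Nat.pow_le_pow_right (by norm_num) (by unfold KK; omega))
    exact_mod_cast this.le⟩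
  set i0 := Nat.find hex with hi0
  have hz1 : (z : ℤ) ≤ 2 ^ KK i0 := Nat.find_spec hex
  have hT : TT i0 ≤ z := by
    rcases h : i0 with _ | j
    · have := hE.2 0
      by_contra hc
      apply this
      have a := NN_ge 0
      have b := pow_KK 0
      rw [ZZ, r_add, hx, zero_add, Int.emod_eq_of_lt (by omega) (by omega)]
      omega
    · have := Nat.find_min hex (show j < Nat.find hex by omega)
      rw [pow_KK] at this
      have a := NN_ge j
      have : (1 : ℤ) * NN j ≤ 2 ^ (2 * j + 7) * (NN j : ℤ) :=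
        mul_le_mul_of_nonneg_right (one_le_pow₀ (by norm_num)) (by positivity)
      omega
  refine ⟨i0, hT, ?_⟩
  obtain ⟨I, hI, hb⟩ := combine z hz (fun n y => MA n (x + y)) (fun n y => MB n (x + y))
    (fun i j y h1 h2 => cls_uniq (cls_A h1) (cls_A h2)) (i0 + 1)
  refine hb.trans ?_
  obtain ⟨I, rfl⟩ := Nat.exists_eq_succ_of_ne_zero (show I ≠ 0 by omega)
  have hzr : (0 : ℝ) < z := by exact_mod_cast hz
  rw [gg, Real.rpow_def_of_pos hzr, ← Real.exp_add]
  apply Real.exp_le_exp.2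
  rw [Finset.sum_range_succ']
  have b0 := base z (r 2 x) (by have := hE.1; rwa [r_add] at this)
  have lev : ∀ i, ∑ y ∈ (Finset.Ico (1 : ℤ) z).filter (fun y : ℤ => MB (i + 1) (x + y)), cw z y -
      ∑ y ∈ (Finset.Ico (1 : ℤ) z).filter (fun y : ℤ => MA (i + 1) (x + y)), cw z y ≤
      1 / 2 / 2 ^ i - if i = i0 then
        (Real.log z - Real.log (2 ^ (2 * i0 + 7))) / 2 ^ (2 * i0 + 7) else 0 := by
    intro i
    have eB : (Finset.Ico (1 : ℤ) z).filter (fun y : ℤ => MB (i + 1) (x + y)) =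
        (Finset.Ico (1 : ℤ) z).filter
          (Bs (r (KK i) x) (2 ^ (2 * i + 7)) (2 ^ (i + 2)) (NN i) (2 ^ (i + 1))) :=
      Finset.filter_congr fun y _ => by simp only [MB, Bs, r_add, pow_KK]
    have eA : (Finset.Ico (1 : ℤ) z).filter (fun y : ℤ => MA (i + 1) (x + y)) =
        (Finset.Ico (1 : ℤ) z).filter
          (fun y => (r (KK i) x + y) % 2 ^ (2 * i + 7) = 2 ^ (i + 1)) :=
      Finset.filter_congr fun y _ => by
        simp only [MA, r_add, pow_KK]
        rw [Int.emod_emod_of_dvd _ (Dvd.intro _ rfl)]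
    have hN : (0 : ℤ) < NN i := by have := NN_ge i; omega
    have hZ := hE.2 i
    rw [ZZ, r_add, pow_KK, not_lt] at hZ
    have hqm : (2 : ℤ) ^ (i + 2) ≤ 2 ^ (2 * i + 7) := pow_le_pow_right₀ (by norm_num) (by omega)
    have hq : (1 : ℝ) / ((2 ^ (i + 2) : ℤ) : ℝ) ≤ 1 / 2 / 2 ^ i := by
      push_cast
      rw [div_div, pow_add]
      apply one_div_le_one_div_of_le (by positivity)
      have : (0 : ℝ) < 2 ^ i := by positivity
      linarith
    rw [eA, eB]
    split_ifs with h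
    · subst h
      have l1 := level_le' z _ _ _ _ (2 ^ (i0 + 1)) (by positivity) hqm hN hZ (by rwa [← pow_KK])
      have l2 := gain z (r (KK i0) x) (2 ^ (2 * i0 + 7)) (2 ^ (i0 + 1)) (by positivity) (by positivity)
        (pow_lt_pow_right₀ (by norm_num) (by omega)) (by
          have := (exists_T i0).choose_spec.1
          exact_mod_cast this.trans hT)
      push_cast at l2
      linarith
    · have l1 := level_le z _ _ _ _ (2 ^ (i + 1)) (by positivity) hqm hN (by positivity)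
        (pow_lt_pow_right₀ (by norm_num) (by omega)) hZ
      linarith
  have s1 := Finset.sum_le_sum fun i (_ : i ∈ Finset.range I) => lev i
  rw [Finset.sum_sub_distrib (f := fun i => (1 : ℝ) / 2 / 2 ^ i), Finset.sum_ite_eq',
    if_pos (Finset.mem_range.2 (by omega))] at s1
  have s2 : ∑ i ∈ Finset.range I, (1 : ℝ) / 2 / 2 ^ i ≤ 1 := by
    have := (hasSum_geometric_two' 1).summable.sum_le_tsum (Finset.range I) fun i _ => by positivity
    rwa [(hasSum_geometric_two' 1).tsum_eq] at this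
  simp only [MA, MB, r_add] at s1 b0 ⊢
  norm_num at s1 b0 ⊢
  have e : (Real.log z - (2 * i0 + 7) * Real.log 2) / 2 ^ (2 * i0 + 7) =
      Real.log z * (2 ^ (2 * i0 + 7))⁻¹ - (2 * i0 + 7) * Real.log 2 / 2 ^ (2 * i0 + 7) := by ring
  norm_num at s2
  linarith

theorem quenched (x : Od) (hx : r (KK 0) x = 0) :
    iidU {u | ∃ k, (st (env (fun y : ℤ => EE (x + y)) fun y : ℤ => dd (x + y)) u (k + 1)).1 = 0}
      ≤ 2⁻¹ := by
  refine (return_le _ _ (fun y => dr_le _ _) (fun y h => EE_dd h) ?_).trans ?_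
  · intro h
    apply h.2 0
    have := NN_ge 0
    simp only [ZZ, Int.cast_zero, add_zero, hx]
    omega
  calc _ ≤ ∑' z : ℕ, ∑' i, (if TT i ≤ z then ENNReal.ofReal (gg i z) else 0) := by
        refine ENNReal.tsum_le_tsum fun z => ?_
        split_ifs with h
        · obtain ⟨i, h1, h2⟩ := bound_z x hx z h.1 h.2
          refine le_trans ?_ (ENNReal.le_tsum i)
          rw [if_pos h1]
          exact ENNReal.ofReal_le_ofReal h2
        · simp
    _ ≤ ∑' i : ℕ, 2⁻¹ ^ (i + 2) := by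
        rw [ENNReal.tsum_comm]
        exact ENNReal.tsum_le_tsum fun i => (exists_T i).choose_spec.2
    _ = 2⁻¹ := by
        simp only [pow_add, ENNReal.tsum_mul_right, ENNReal.tsum_geometric,
          ENNReal.one_sub_inv_two, inv_inv]
        rw [sq, ← mul_assoc, ENNReal.mul_inv_cancel (by simp) (by simp), one_mul]

end Pool.Agent.H45.ERW
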