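import Pool.Agent.H45.ERW

/-! Deterministic estimates for hierarchical environments. -/

set_option maxHeartbeats 400000

open Finset
open scoped Classical

namespace Pool.Agent.H45.ERW

noncomputable def cw (z y : ℤ) : ℝ := Real.log ((z : ℝ) - y + 1) - Real.log ((z : ℝ) - y)

lemma ca_eq {z y : ℤ} (h : y < z) : ca z y = Real.exp (-cw z y) := by
  have : (y : ℝ) < z := by exact_mod_cast h
  rw [cw, neg_sub, Real.exp_sub, Real.exp_log (by linarith), Real.exp_log (by linarith), ca]

lemma cw_eq {z y : ℤ} (h : y < z) : cw z y = Real.log (1 + 1 / ((z : ℝ) - y)) := by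
  have : (y : ℝ) < z := by exact_mod_cast h
  have h' : (z : ℝ) - y ≠ 0 := by linarith
  rw [cw, ← Real.log_div (by linarith) h']
  congr 1; field_simp

lemma cw_nonneg {z y : ℤ} (h : y < z) : 0 ≤ cw z y := by
  have : (y : ℝ) < z := by exact_mod_cast h
  rw [cw_eq h]
  have : 0 < 1 / ((z : ℝ) - y) := one_div_pos.2 (by linarith)
  exact Real.log_nonneg (by linarith)

lemma cw_mono {z y y' : ℤ} (h : y ≤ y') (h' : y' < z) : cw z y ≤ cw z y' := by
  have a : (y' : ℝ) < z := by exact_mod_cast h'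
  have b : (y : ℝ) ≤ y' := by exact_mod_cast h
  rw [cw_eq h', cw_eq (h.trans_lt h')]
  have : 0 < 1 / ((z : ℝ) - y) := one_div_pos.2 (by linarith)
  have : 1 / ((z : ℝ) - y) ≤ 1 / ((z : ℝ) - y') := one_div_le_one_div_of_le (by linarith) (by linarith)
  exact Real.log_le_log (by linarith) (by linarith)

lemma cw_le {z y l : ℤ} (hl : 0 < l) (h : l ≤ z - y) : cw z y ≤ 1 / l := by
  have a : (l : ℝ) ≤ z - y := by exact_mod_cast h
  have b : (0 : ℝ) < l := by exact_mod_cast hl
  rw [cw_eq (by omega)]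
  have : 0 < 1 / ((z : ℝ) - y) := one_div_pos.2 (by linarith)
  have h2 := Real.log_le_sub_one_of_pos (show 0 < 1 + 1 / ((z : ℝ) - y) by linarith)
  have : 1 / ((z : ℝ) - y) ≤ 1 / l := one_div_le_one_div_of_le b a
  linarith

lemma sum_cw (z : ℤ) (n : ℕ) :
    ∑ y ∈ Ico 1 (1 + (n : ℤ)), cw z y = Real.log z - Real.log ((z : ℝ) - n) := by
  induction n with
  | zero => simp
  | succ n ih =>
    have : Ico (1 : ℤ) (1 + ((n + 1 : ℕ) : ℤ)) = insert (1 + (n : ℤ)) (Ico 1 (1 + (n : ℤ))) := by
      ext y; simp; omega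
    rw [this, sum_insert (by simp), ih, cw]
    push_cast
    rw [show (z : ℝ) - (1 + n) + 1 = z - n by ring, show (z : ℝ) - (1 + n) = z - (n + 1) by ring]
    ring

lemma gain (z c m a : ℤ) (hm : 0 < m) (ha : 0 ≤ a) (ham : a < m) (hz : m ≤ z) :
    (Real.log z - Real.log m) / m ≤ ∑ y ∈ (Ico 1 z).filter (fun y => (c + y) % m = a), cw z y := by
  have hm' : (0 : ℝ) < m := by exact_mod_cast hm
  obtain ⟨n, hn⟩ := Int.eq_ofNat_of_zero_le (show 0 ≤ z - m by omega)
  have h1 := sum_cw z n
  have : (z : ℝ) - n = m := by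
    have : (z : ℝ) - m = n := by exact_mod_cast hn
    linarith
  rw [this] at h1
  rw [div_le_iff₀ hm', ← h1]
  set f : ℤ → ℤ := fun y => y + (a - c - y) % m with hf
  have f1 : ∀ y, y ≤ f y ∧ f y < y + m := fun y => by
    have := Int.emod_nonneg (a - c - y) hm.ne'
    have := Int.emod_lt_of_pos (a - c - y) hm
    simp only [hf]; omega
  have maps : ∀ y ∈ Ico 1 (1 + (n : ℤ)), f y ∈ (Ico 1 z).filter (fun y => (c + y) % m = a) := by
    intro y hy
    have := f1 y
    simp only [mem_Ico, mem_filter] at hy ⊢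
    refine ⟨by omega, ?_⟩
    simp only [hf]
    rw [← add_assoc, Int.add_emod_emod, show c + y + (a - c - y) = a by ring,
      Int.emod_eq_of_lt ha ham]
  rw [← sum_fiberwise_of_maps_to maps, sum_mul]
  refine sum_le_sum fun y' hy' => ?_
  have hy : y' < z := by simp at hy'; omega
  have hc : (((Ico 1 (1 + (n : ℤ))).filter fun y => f y = y').card : ℝ) ≤ m := by
    have : ((Ico 1 (1 + (n : ℤ))).filter fun y => f y = y') ⊆ Ioc (y' - m) y' := by
      intro y hy
      have := f1 y
      simp only [mem_filter, mem_Ioc] at hy ⊢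
      omega
    have h2 := card_le_card this
    rw [Int.card_Ioc] at h2
    have : (((Ico 1 (1 + (n : ℤ))).filter fun y => f y = y').card : ℤ) ≤ m := by omega
    exact_mod_cast this
  calc _ ≤ ∑ _y ∈ (Ico 1 (1 + (n : ℤ))).filter fun y => f y = y', cw z y' :=
        sum_le_sum fun y hy => cw_mono (by have := f1 y; simp at hy; omega) ‹_›
    _ = _ * cw z y' := by rw [sum_const, nsmul_eq_mul]
    _ ≤ _ := by rw [mul_comm]; exact mul_le_mul_of_nonneg_left hc (cw_nonneg hy)

lemma pair_le (z : ℤ) (S T : Finset ℤ) (f : ℤ → ℤ) (hT : ∀ y ∈ T, y < z) (h1 : ∀ y ∈ S, f y ∈ T)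
    (h2 : ∀ y ∈ S, y ≤ f y) (h3 : Set.InjOn f S) : ∑ y ∈ S, cw z y ≤ ∑ y ∈ T, cw z y :=
  calc _ ≤ ∑ y ∈ S, cw z (f y) := sum_le_sum fun y hy => cw_mono (h2 y hy) (hT _ (h1 y hy))
    _ = ∑ y ∈ S.image f, cw z y := (sum_image h3).symm
    _ ≤ _ := sum_le_sum_of_subset_of_nonneg (fun y hy => by
        obtain ⟨x, hx, rfl⟩ := mem_image.1 hy; exact h1 x hx) fun y hy _ => cw_nonneg (hT y hy)

lemma base (z c : ℤ) (hz : (c + z) % 4 = 3) :
    ∑ y ∈ (Ico 1 z).filter (fun y => (c + y) % 4 = 3), cw z y ≤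
      ∑ y ∈ (Ico 1 z).filter (fun y => (c + y) % 4 = 1), cw z y := by
  refine pair_le z _ _ (fun y => y + 2) (fun y hy => by simp at hy; omega) (fun y hy => ?_)
    (fun y _ => by omega) fun a _ b _ h => by simpa using h
  simp only [mem_filter, mem_Ico] at hy ⊢
  omega

section Level

variable (z c m q N a : ℤ) (hq : 0 < q) (hqm : q ≤ m) (hN : 0 < N) (ha : 0 ≤ a) (haq : a < q)
  (hz : 2 * (q * N) ≤ (c + z) % (m * N))

def Bs (c m q N a y : ℤ) : Prop := (c + y) % (m * N) % q = a ∧ (c + y) % (m * N) < q * N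

include hq hqm hN ha haq hz

omit ha haq in
lemma recent : ∑ y ∈ ((Ico 1 z).filter (Bs c m q N a)).filter
    (fun y => z - (c + z) % (m * N) ≤ y), cw z y ≤ 1 / q := by
  have hD : 0 < m * N := mul_pos (by omega) hN
  have hl : 0 < q * N := mul_pos hq hN
  set P := z - (c + z) % (m * N) with hP
  have hr : ∀ y, P ≤ y → y < z → (c + y) % (m * N) = y - P := by
    intro y h1 h2
    have := Int.emod_lt_of_pos (c + z) hD
    have e := Int.emod_add_mul_ediv (c + z) (m * N)
    rw [show c + y = (y - P) + m * N * ((c + z) / (m * N)) by omega, Int.add_mul_emod_self_left,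
      Int.emod_eq_of_lt (by omega) (by omega)]
  set S := ((Ico 1 z).filter (Bs c m q N a)).filter (fun y => P ≤ y) with hS
  have hc : (S.card : ℝ) ≤ N := by
    have : S.card ≤ (Ico 0 N).card := by
      refine card_le_card_of_injOn (fun y => (y - P) / q) (fun y hy => ?_) fun y hy y' hy' h => ?_
      · simp only [hS, coe_filter, mem_filter, mem_Ico, Bs, Set.mem_ofPred_eq] at hy
        rw [hr y hy.2 hy.1.1.2] at hy
        simp only [coe_Ico, Set.mem_Ico]
        exact ⟨Int.ediv_nonneg (by omega) hq.le,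
          Int.ediv_lt_of_lt_mul hq (by rw [mul_comm]; exact hy.1.2.2)⟩
      · simp only [hS, coe_filter, mem_filter, mem_Ico, Bs, Set.mem_ofPred_eq] at hy hy'
        rw [hr y hy.2 hy.1.1.2] at hy
        rw [hr y' hy'.2 hy'.1.1.2] at hy'
        have e1 := Int.emod_add_mul_ediv (y - P) q
        have e2 := Int.emod_add_mul_ediv (y' - P) q
        simp only at h
        rw [h] at e1
        omega
    rw [Int.card_Ico] at this
    have : (S.card : ℤ) ≤ N := by omega
    exact_mod_cast this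
  have hq' : (0 : ℝ) < q := by exact_mod_cast hq
  have hN' : (0 : ℝ) < N := by exact_mod_cast hN
  calc _ ≤ ∑ _y ∈ S, 1 / ((q * N : ℤ) : ℝ) := sum_le_sum fun y hy => by
        simp only [hS, mem_filter, mem_Ico, Bs] at hy
        rw [hr y hy.2 hy.1.1.2] at hy
        exact cw_le hl (by omega)
    _ = S.card * (1 / ((q * N : ℤ) : ℝ)) := by rw [sum_const, nsmul_eq_mul]
    _ ≤ N * (1 / ((q * N : ℤ) : ℝ)) := by gcongr
    _ = 1 / q := by push_cast; field_simp

omit hz in
lemma old : ∑ y ∈ ((Ico 1 z).filter (Bs c m q N a)).filter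
    (fun y => ¬z - (c + z) % (m * N) ≤ y), cw z y ≤
    ∑ y ∈ (Ico 1 z).filter (fun y => (c + y) % m = a), cw z y := by
  have hD : 0 < m * N := mul_pos (by omega) hN
  have facts : ∀ y, Bs c m q N a y → ∃ k t, 0 ≤ t ∧ t < N ∧ c + y = m * N * k + q * t + a ∧
      (c + y) % (m * N) / q = t ∧ (c + y) % (m * N) = q * t + a := by
    intro y hy
    have e1 := Int.emod_add_mul_ediv (c + y) (m * N)
    have e2 := Int.emod_add_mul_ediv ((c + y) % (m * N)) q
    have := Int.emod_nonneg (c + y) hD.ne'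
    obtain ⟨h1, h2⟩ := hy
    exact ⟨(c + y) / (m * N), (c + y) % (m * N) / q, Int.ediv_nonneg this hq.le,
      Int.ediv_lt_of_lt_mul hq (by rw [mul_comm N]; exact h2), by omega, rfl, by omega⟩
  refine pair_le z _ _ (fun y => y - (c + y) % (m * N) + m * ((c + y) % (m * N) / q) + a)
    (fun y hy => by simp at hy; omega) (fun y hy => ?_) (fun y hy => ?_) fun y hy y' hy' h => ?_
  · simp only [mem_filter, mem_Ico] at hy ⊢
    obtain ⟨k, t, t0, t1, e, e1, e2⟩ := facts y hy.1.2
    rw [e1, e2]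
    have e3 := Int.emod_add_mul_ediv (c + z) (m * N)
    have h0 := Int.emod_nonneg (c + z) hD.ne'
    have hk : k < (c + z) / (m * N) := by
      by_contra hk
      have : m * N * ((c + z) / (m * N)) ≤ m * N * k := mul_le_mul_of_nonneg_left (by omega) hD.le
      have : 0 ≤ q * t := mul_nonneg hq.le t0
      omega
    have h4 : m * N * (k + 1) ≤ m * N * ((c + z) / (m * N)) := mul_le_mul_of_nonneg_left hk hD.le
    have h5 : m * (t + 1) ≤ m * N := mul_le_mul_of_nonneg_left t1 (by omega)
    have h6 : q * t ≤ m * t := mul_le_mul_of_nonneg_right hqm t0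
    refine ⟨⟨by omega, by nlinarith⟩, ?_⟩
    rw [show c + (y - (q * t + a) + m * t + a) = a + m * (N * k + t) by linear_combination e,
      Int.add_mul_emod_self_left, Int.emod_eq_of_lt ha (by omega)]
  · simp only [mem_filter, mem_Ico] at hy
    obtain ⟨k, t, t0, t1, e, e1, e2⟩ := facts y hy.1.2
    rw [e1, e2]
    have h6 : q * t ≤ m * t := mul_le_mul_of_nonneg_right hqm t0
    omega
  · simp only [coe_filter, mem_filter, mem_Ico, Set.mem_ofPred_eq] at hy hy'
    obtain ⟨k, t, t0, t1, e, e1, e2⟩ := facts y hy.1.2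
    obtain ⟨k', t', t0', t1', e', e1', e2'⟩ := facts y' hy'.1.2
    simp only at h
    rw [e1, e2, e1', e2'] at h
    have h1 : m * (N * k + t) = m * (N * k' + t') := by linear_combination h - e + e'
    have h2 : N * k + t = N * k' + t' := mul_left_cancel₀ (by omega) h1
    have h3 : t = t' := by
      have := congrArg (· % N) h2
      simp only [Int.mul_add_emod_self_left] at this
      rwa [Int.emod_eq_of_lt t0 t1, Int.emod_eq_of_lt t0' t1'] at this
    subst h3
    have h4 : N * k = N * k' := by omega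
    linear_combination e - e' + m * h4

lemma level_le : ∑ y ∈ (Ico 1 z).filter (Bs c m q N a), cw z y ≤
    1 / q + ∑ y ∈ (Ico 1 z).filter (fun y => (c + y) % m = a), cw z y := by
  rw [← sum_filter_add_sum_filter_not _ (fun y => z - (c + z) % (m * N) ≤ y)]
  exact add_le_add (recent z c m q N a hq hqm hN hz) (old z c m q N a hq hqm hN ha haq)

omit ha haq in
lemma level_le' (hD : z ≤ m * N) : ∑ y ∈ (Ico 1 z).filter (Bs c m q N a), cw z y ≤ 1 / q := by
  rw [← sum_filter_add_sum_filter_not _ (fun y => z - (c + z) % (m * N) ≤ y)]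
  have : ((Ico 1 z).filter (Bs c m q N a)).filter (fun y => ¬z - (c + z) % (m * N) ≤ y) = ∅ := by
    refine filter_eq_empty_iff.2 fun y hy h => ?_
    simp only [mem_filter, mem_Ico, Bs] at hy
    have hD0 : 0 < m * N := mul_pos (by omega) hN
    have hl : 0 < q * N := mul_pos hq hN
    have e := Int.emod_add_mul_ediv (c + z) (m * N)
    have : (c + y) % (m * N) = y - z + (c + z) % (m * N) + m * N := by
      rw [show c + y = (y - z + (c + z) % (m * N) + m * N) + m * N * ((c + z) / (m * N) - 1) by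
        linear_combination -e, Int.add_mul_emod_self_left, Int.emod_eq_of_lt (by omega) (by omega)]
    omega
  rw [this, sum_empty, add_zero]
  exact recent z c m q N a hq hqm hN hz

end Level

/-- the drift from two families of marks -/
noncomputable def dr (a b : Prop) : ℕ := if a then (if b then 1 else 2) else (if b then 0 else 1)

lemma dr_le (a b : Prop) : dr a b ≤ 2 := by unfold dr; split_ifs <;> omega

lemma dr_cast (a b : Prop) : (dr a b : ℝ) = 1 + (if a then 1 else 0) - (if b then 1 else 0) := by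
  unfold dr; split_ifs <;> norm_num

lemma combine (z : ℕ) (hz : 1 ≤ z) (A B : ℕ → ℤ → Prop)
    (hA : ∀ i j y, A i y → A j y → i = j) (i0 : ℕ) :
    ∃ I, i0 < I ∧ ∏ y ∈ Ico (1 : ℤ) z, ca z y ^ dr (∃ i, A i y) (∃ i, B i y) ≤
      Real.exp (-Real.log z + ∑ i ∈ range I, (∑ y ∈ (Ico (1 : ℤ) z).filter (B i), cw z y -
        ∑ y ∈ (Ico (1 : ℤ) z).filter (A i), cw z y)) := by
  obtain ⟨I, hI0, hI⟩ : ∃ I, i0 < I ∧ ∀ y ∈ Ico (1 : ℤ) z, (∃ i, B i y) → ∃ i < I, B i y := by
    set g : ℤ → ℕ := fun y => if h : ∃ i, B i y then h.choose else 0 with hg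
    refine ⟨(Ico (1 : ℤ) z).sup g + i0 + 1, by omega, fun y hy h => ⟨g y, ?_, ?_⟩⟩
    · have := le_sup (f := g) hy
      omega
    · simp only [hg, dif_pos h]; exact h.choose_spec
  refine ⟨I, hI0, ?_⟩
  rw [prod_congr rfl (g := fun y => Real.exp (-(dr (∃ i, A i y) (∃ i, B i y) * cw z y)))
    fun y hy => by rw [ca_eq (by simp at hy; omega), ← Real.exp_nat_mul]; congr 1; ring]
  rw [← Real.exp_sum]
  apply Real.exp_le_exp.2
  have h1 := sum_cw z (z - 1)
  rw [show (1 : ℤ) + ((z - 1 : ℕ) : ℤ) = z by omega, Nat.cast_sub hz] at h1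
  simp only [Int.cast_natCast, Nat.cast_one, sub_sub_cancel, Real.log_one, sub_zero] at h1
  rw [← h1]
  simp only [sum_filter, ← sum_sub_distrib]
  rw [sum_comm, ← sum_neg_distrib, ← sum_add_distrib]
  refine sum_le_sum fun y hy => ?_
  have hw := cw_nonneg (show y < z by simp at hy; omega)
  rw [sum_sub_distrib, dr_cast]
  have ea : ∑ i ∈ range I, (if A i y then cw z y else 0) ≤ (if ∃ i, A i y then 1 else 0) * cw z y := by
    split_ifs with h
    · obtain ⟨j, hj⟩ := h
      rw [← sum_filter, sum_const, nsmul_eq_mul]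
      refine mul_le_mul_of_nonneg_right ?_ hw
      have : ((range I).filter fun i => A i y).card ≤ 1 :=
        card_le_one.2 fun a ha b hb => hA a b y (mem_filter.1 ha).2 (mem_filter.1 hb).2
      exact_mod_cast this
    · push Not at h
      simp [h]
  have eb : (if ∃ i, B i y then 1 else 0) * cw z y ≤ ∑ i ∈ range I, (if B i y then cw z y else 0) := by
    split_ifs with h
    · obtain ⟨j, hj, hB⟩ := hI y hy h
      have := single_le_sum (f := fun i => if B i y then cw z y else 0)
        (fun i _ => by split_ifs <;> simp [hw]) (mem_range.2 hj)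
      simpa [hB] using this
    · rw [zero_mul]
      exact sum_nonneg fun i _ => by split_ifs <;> simp [hw]
  nlinarith

end Pool.Agent.H45.ERW
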