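import Pool.Agent.H45.ERW

/-! General tools for one-dimensional excited walks. -/

set_option maxHeartbeats 400000

open MeasureTheory Set Filter
open scoped ENNReal Classical Topology

namespace Pool.Agent.H45.ERW

open Coin

section Max

variable {S : Type} (p : S → ℝ) (R L : S → S)

lemma run_stop (A : Set S) (s : S) (u : ℕ → ℝ) (n : ℕ) :
    (run p (fun s => if s ∈ A then s else R s) (fun s => if s ∈ A then s else L s) s u n ∈ A) ∨
    ((∀ k ≤ n, run p R L s u k ∉ A) ∧
      run p (fun s => if s ∈ A then s else R s) (fun s => if s ∈ A then s else L s) s u n =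
        run p R L s u n) := by
  induction n with
  | zero =>
    by_cases h : s ∈ A
    · exact Or.inl h
    · exact Or.inr ⟨fun k hk => by rw [Nat.le_zero.1 hk]; exact h, rfl⟩
  | succ n ih =>
    rcases ih with h | ⟨h1, h2⟩
    · left
      rw [run, if_pos h, if_pos h, ite_self]; exact h
    · have e : run p (fun s => if s ∈ A then s else R s) (fun s => if s ∈ A then s else L s) s u
          (n + 1) = run p R L s u (n + 1) := by
        rw [run, h2, if_neg (h1 n le_rfl), if_neg (h1 n le_rfl), run]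
      by_cases h : run p R L s u (n + 1) ∈ A
      · left; rwa [e]
      · refine Or.inr ⟨fun k hk => ?_, e⟩
        rcases hk.lt_or_eq with hk | rfl
        · exact h1 k (by omega)
        · exact h

lemma super_le (hp : ∀ s, 0 ≤ p s ∧ p s ≤ 1) (φ : S → ℝ≥0∞)
    (h : ∀ s, ENNReal.ofReal (p s) * φ (R s) + ENNReal.ofReal (1 - p s) * φ (L s) ≤ φ s) (n : ℕ) :
    ∀ s, ∫⁻ u, φ (run p R L s u n) ∂iidU ≤ φ s := by
  induction n with
  | zero => intro s; simp [run]
  | succ n ih =>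
    intro s
    rw [lintegral_run p R L hp]
    exact le_trans (by gcongr <;> exact ih _) (h s)

lemma max_le (hp : ∀ s, 0 ≤ p s ∧ p s ≤ 1) (φ : S → ℝ≥0∞) (A : Set S) (hA : ∀ s ∈ A, 1 ≤ φ s)
    (h : ∀ s ∉ A, ENNReal.ofReal (p s) * φ (R s) + ENNReal.ofReal (1 - p s) * φ (L s) ≤ φ s)
    (s : S) : iidU {u | ∃ k, run p R L s u k ∈ A} ≤ φ s := by
  have e : {u | ∃ k, run p R L s u k ∈ A} = ⋃ n, {u | ∃ k ≤ n, run p R L s u k ∈ A} := by
    ext u; simp only [mem_ofPred_eq, mem_iUnion]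
    exact ⟨fun ⟨k, hk⟩ => ⟨k, k, le_rfl, hk⟩, fun ⟨_, k, _, hk⟩ => ⟨k, hk⟩⟩
  have hmono : Monotone fun n => {u | ∃ k ≤ n, run p R L s u k ∈ A} :=
    fun a b hab u ⟨k, hk, h⟩ => ⟨k, hk.trans hab, h⟩
  rw [e, hmono.measure_iUnion]
  refine iSup_le fun n => le_trans ?_ (super_le p (fun s => if s ∈ A then s else R s)
    (fun s => if s ∈ A then s else L s) hp φ (fun t => ?_) n s)
  · refine le_trans ?_ (lintegral_mono (f := fun u => A.indicator 1 (run p
      (fun s => if s ∈ A then s else R s) (fun s => if s ∈ A then s else L s) s u n)) fun u => ?_)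
    · have hm := measurable_run p (fun s => if s ∈ A then s else R s)
        (fun s => if s ∈ A then s else L s) n s (A.indicator 1)
      refine le_trans (measure_mono fun u hu => ?_) (meas_ge_le_lintegral_div hm.aemeasurable
        one_ne_zero ENNReal.one_ne_top |>.trans (by simp))
      obtain ⟨k, hk, h⟩ := hu
      rcases run_stop p R L A s u n with h1 | ⟨h1, _⟩
      · simp [h1]
      · exact absurd h (h1 k hk)
    · exact indicator_apply_le fun h => hA _ h
  · by_cases ht : t ∈ A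
    · simp only [if_pos ht]
      rw [← add_mul, ← ENNReal.ofReal_add (hp t).1 (by linarith [(hp t).2])]
      simp
    · simp only [if_neg ht]; exact h t ht

lemma max_le_real (hp : ∀ s, 0 ≤ p s ∧ p s ≤ 1) (φ : S → ℝ) (h0 : ∀ s, 0 ≤ φ s) (A : Set S)
    (hA : ∀ s ∈ A, 1 ≤ φ s) (h : ∀ s ∉ A, p s * φ (R s) + (1 - p s) * φ (L s) ≤ φ s)
    (s : S) : iidU {u | ∃ k, run p R L s u k ∈ A} ≤ ENNReal.ofReal (φ s) := by
  refine max_le p R L hp (fun s => ENNReal.ofReal (φ s)) A (fun s hs => ?_) (fun s hs => ?_) s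
  · simpa using hA s hs
  · have c := (hp s).1
    have c' : 0 ≤ 1 - p s := by linarith [(hp s).2]
    rw [← ENNReal.ofReal_mul c, ← ENNReal.ofReal_mul c',
      ← ENNReal.ofReal_add (mul_nonneg c (h0 _)) (mul_nonneg c' (h0 _))]
    exact ENNReal.ofReal_le_ofReal (h s hs)

end Max

variable (e : ℤ → ℕ → ℝ)

lemma null_of_le {A : Set (ℕ → ℝ)} (f : ℕ → ℝ≥0∞) (hf : Tendsto f atTop (𝓝 0))
    (h : ∀ m, iidU A ≤ f m) : iidU A = 0 :=
  le_antisymm (ge_of_tendsto' hf h) (by simp)

lemma nbr_le (he : ∀ y i, 0 ≤ e y i ∧ e y i ≤ 1)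
    (hk : ∀ y i, 3 ≤ i → 1 / 8 ≤ e y i ∧ e y i ≤ 7 / 8) (y y' : ℤ) (hy : y' = y + 1 ∨ y' = y - 1)
    (c m : ℕ) : iidU {u | ∃ k, m + 2 ≤ (st e u k).2 y ∧ (st e u k).2 y' < c} ≤
      ENNReal.ofReal (2 ^ c * (15 / 16) ^ m) := by
  have key := max_le_real (pr e) R L (fun s => he _ _)
    (fun s => 2 ^ c * (15 / 16) ^ m * ((16 / 15) ^ (s.2 y - 2) *
      (1 / 2) ^ (s.2 y' + if s.1 = y' then 1 else 0))) (fun s => by positivity)
    {s | m + 2 ≤ s.2 y ∧ s.2 y' < c} (fun s hs => ?_) (fun s _ => ?_) (0, 0)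
  · refine key.trans (ENNReal.ofReal_le_ofReal ?_)
    refine mul_le_of_le_one_right (by positivity) ?_
    simp only [Pi.zero_apply, zero_tsub, pow_zero, one_mul]
    exact pow_le_one₀ (by norm_num) (by norm_num)
  · obtain ⟨h1, h2⟩ := hs
    have a : ((16 : ℝ) / 15) ^ m ≤ (16 / 15) ^ (s.2 y - 2) :=
      pow_le_pow_right₀ (by norm_num) (by omega)
    have b : ((1 : ℝ) / 2) ^ c ≤ (1 / 2) ^ (s.2 y' + if s.1 = y' then 1 else 0) :=
      pow_le_pow_of_le_one (by norm_num) (by norm_num) (by split_ifs <;> omega)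
    calc (1 : ℝ) = 2 ^ c * (15 / 16) ^ m * ((16 / 15) ^ m * (1 / 2) ^ c) := by
          rw [show (2 : ℝ) ^ c * (15 / 16) ^ m * ((16 / 15) ^ m * (1 / 2) ^ c) =
            (2 * (1 / 2)) ^ c * (15 / 16 * (16 / 15)) ^ m by rw [mul_pow, mul_pow]; ring]
          norm_num
      _ ≤ _ := by gcongr
  · obtain ⟨x, dep⟩ := s
    have hq := he x (dep x + 1)
    have hk' := hk x (dep x + 1)
    simp only [R, L, pr]
    set q := e x (dep x + 1)
    have hC : (0 : ℝ) < 2 ^ c * (15 / 16) ^ m := by positivity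
    set C := (2 : ℝ) ^ c * (15 / 16) ^ m
    have hyy : y' ≠ y := by omega
    by_cases hx : x = y
    · subst hx
      simp only [Function.update_self, Function.update_of_ne hyy, if_neg hyy.symm, add_zero]
      have hB : (0 : ℝ) < C * ((16 / 15) ^ (dep x - 2) * (1 / 2) ^ dep y') := by positivity
      by_cases h2 : 2 ≤ dep x
      · obtain ⟨k1, k2⟩ := hk' (by omega)
        rw [show dep x + 1 - 2 = dep x - 2 + 1 by omega]
        rcases hy with rfl | rfl
        · rw [if_pos rfl, if_neg (by omega)]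
          simp only [pow_succ, add_zero]
          nlinarith
        · rw [if_neg (by omega), if_pos rfl]
          simp only [pow_succ, add_zero]
          nlinarith
      · rw [show dep x + 1 - 2 = dep x - 2 by omega]
        rcases hy with rfl | rfl
        · rw [if_pos rfl, if_neg (by omega)]
          simp only [pow_succ, add_zero]
          nlinarith [hq.1, hq.2]
        · rw [if_neg (by omega), if_pos rfl]
          simp only [pow_succ, add_zero]
          nlinarith [hq.1, hq.2]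
    · rw [Function.update_of_ne (Ne.symm hx)]
      by_cases hx' : x = y'
      · subst hx'
        simp only [Function.update_self, if_true]
        rw [if_neg (by omega), if_neg (by omega)]
        simp only [add_zero]
        linarith
      · rw [Function.update_of_ne (Ne.symm hx'), if_neg hx', add_zero]
        have hB : (0 : ℝ) < C * ((16 / 15) ^ (dep y - 2) * (1 / 2) ^ dep y') := by positivity
        split_ifs <;> simp only [pow_succ, add_zero] <;> nlinarith [hq.1, hq.2]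

/-- the site is left boundedly often -/
def Fin' (u : ℕ → ℝ) (y : ℤ) : Prop := ∃ c, ∀ k, (st e u k).2 y < c

lemma ae_nbr (he : ∀ y i, 0 ≤ e y i ∧ e y i ≤ 1)
    (hk : ∀ y i, 3 ≤ i → 1 / 8 ≤ e y i ∧ e y i ≤ 7 / 8) (y y' : ℤ) (hy : y' = y + 1 ∨ y' = y - 1) :
    ∀ᵐ u ∂iidU, Fin' e u y' → Fin' e u y := by
  have : ∀ c : ℕ, ∀ᵐ u ∂iidU, (∀ k, (st e u k).2 y' < c) → Fin' e u y := by
    intro c
    rw [ae_iff]
    refine null_of_le (fun m => ENNReal.ofReal (2 ^ c * (15 / 16) ^ m)) ?_ fun m =>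
      le_trans (measure_mono fun u hu => ?_) (nbr_le e he hk y y' hy c m)
    · have := (tendsto_pow_atTop_nhds_zero_of_lt_one (r := (15 / 16 : ℝ)) (by norm_num)
        (by norm_num)).const_mul (2 ^ c)
      simpa using ENNReal.tendsto_ofReal this
    · simp only [Fin', mem_ofPred_eq, Classical.not_imp, not_exists, not_forall, not_lt] at hu ⊢
      obtain ⟨k, hk⟩ := hu.2 (m + 2)
      exact ⟨k, hk, hu.1 k⟩
  filter_upwards [ae_all_iff.2 this] with u hu ⟨c, hc⟩ using hu c hc

lemma dep_mono (u : ℕ → ℝ) (y : ℤ) : Monotone fun k => (st e u k).2 y := by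
  refine monotone_nat_of_le_succ fun k => ?_
  rw [st_dep_succ, Function.update_apply]
  split_ifs with h
  · rw [h]; omega
  · exact le_rfl

lemma Fin'.ev {e : ℤ → ℕ → ℝ} {u : ℕ → ℝ} {y : ℤ} (h : Fin' e u y) :
    ∀ᶠ n in atTop, (st e u n).1 ≠ y := by
  by_contra hc
  simp only [not_eventually, not_not, frequently_atTop] at hc
  obtain ⟨c, hc'⟩ := h
  have : ∀ j : ℕ, ∃ k, j ≤ (st e u k).2 y := by
    intro j
    induction j with
    | zero => exact ⟨0, by simp⟩
    | succ j ih =>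
      obtain ⟨k, hk⟩ := ih
      obtain ⟨n, hn, hn'⟩ := hc k
      refine ⟨n + 1, ?_⟩
      have := dep_mono e u y hn
      rw [st_dep_succ, hn', Function.update_self]
      simp only at this
      omega
  obtain ⟨k, hk⟩ := this c
  exact absurd (hc' k) (by omega)

lemma exists_visit {u : ℕ → ℝ} {y : ℤ} (h : ¬Fin' e u y) (m : ℕ) :
    ∃ k, (st e u k).1 = y ∧ m ≤ (st e u k).2 y := by
  simp only [Fin', not_exists, not_forall, not_lt] at h
  have hex := h (m + 1)
  have h1 := Nat.find_spec hex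
  rcases hj : Nat.find hex with _ | j
  · rw [hj] at h1; simp [st, run] at h1
  · have h2 := Nat.find_min hex (show j < Nat.find hex by omega)
    rw [hj, st_dep_succ, Function.update_apply] at h1
    split_ifs at h1 with h3
    · exact ⟨j, h3.symm, by rw [← h3] at h1; omega⟩
    · omega

theorem transient_of (he : ∀ y i, 0 ≤ e y i ∧ e y i ≤ 1)
    (hk : ∀ y i, 3 ≤ i → 1 / 8 ≤ e y i ∧ e y i ≤ 7 / 8) (f : ℕ → ℝ≥0∞)
    (hf : Tendsto f atTop (𝓝 0))
    (h : ∀ m, iidU {u | ∃ k, (st e u k).1 = 0 ∧ m + 2 ≤ (st e u k).2 0} ≤ f m) :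
    ∀ᵐ u ∂iidU, Tendsto (fun n => |(st e u n).1|) atTop atTop := by
  have h0 : ∀ᵐ u ∂iidU, Fin' e u 0 := by
    rw [ae_iff]
    exact null_of_le f hf fun m => le_trans (measure_mono fun u hu => exists_visit e hu _) (h m)
  have h1 := ae_all_iff.2 fun y : ℤ => ae_nbr e he hk (y + 1) y (Or.inr (by ring))
  have h2 := ae_all_iff.2 fun y : ℤ => ae_nbr e he hk (y - 1) y (Or.inl (by ring))
  filter_upwards [h0, h1, h2] with u a b c
  have all : ∀ y, Fin' e u y := fun y => by
    induction y using Int.induction_on with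
    | zero => exact a
    | succ n ih => exact b _ ih
    | pred n ih => exact c _ ih
  rw [tendsto_atTop]
  intro r
  have := (eventually_all_finset (Finset.Icc (-r) r)).2 fun y _ => (all y).ev
  filter_upwards [this] with n hn
  by_contra hc
  exact hn _ (Finset.mem_Icc.2 (abs_le.1 (not_le.1 hc).le)) rfl

lemma inv_gen (E : ℤ → Prop) (hE1 : ∀ y, ¬E y → e y 1 = 1) (u : ℕ → ℝ)
    (hu : ∀ n, 0 ≤ u n ∧ u n < 1) (n : ℕ) : Inv E (st e u n) := by
  induction n with
  | zero => exact ⟨0, le_rfl, le_rfl, fun _ _ => rfl, fun _ _ _ => by omega,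
      fun _ _ _ _ => by omega, Or.inr ⟨rfl, rfl⟩⟩
  | succ n ih =>
    rw [st_succ]
    generalize st e u n = s at ih
    obtain ⟨x, dep⟩ := s
    obtain ⟨h, h0, h1, h2, h3, h4, h5⟩ := ih
    simp only at h1 h2 h3 h4 h5
    have up : ∀ y, dep y ≤ Function.update dep x (dep x + 1) y := fun y => by
      by_cases hy : y = x
      · subst hy; simp
      · simp [hy]
    split_ifs with hc
    · by_cases hx : x = h
      · subst hx
        refine ⟨x + 1, by omega, le_rfl, fun y hy => ?_, fun y a b => ?_, fun y _ a b => ?_,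
          Or.inr ⟨rfl, ?_⟩⟩
        · simp only [R]
          rw [Function.update_of_ne (by omega), h2 y (by omega)]
        · simp only [R]
          by_cases hy : y = x
          · subst hy; simp
          · exact (h3 y a (by omega)).trans (up y)
        · simp only [R] at a; omega
        · simp only [R]
          rw [Function.update_of_ne (by omega), h2 _ (by omega)]
      · refine ⟨h, h0, by simp only [R]; omega, fun y hy => ?_, fun y a b => (h3 y a b).trans (up y),
          fun y a b c => (h4 y a (by simp only [R] at b; omega) c).trans (up y), ?_⟩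
        · simp only [R]
          rw [Function.update_of_ne (by omega), h2 y hy]
        · exact Or.inl (h5.resolve_right fun h => hx h.1)
    · have hE : E h := by
        by_contra hE
        obtain ⟨a, b⟩ := h5.resolve_left hE
        subst a
        apply hc
        simp [pr, hE1 _ hE, b, (hu n).2]
      refine ⟨h, h0, by simp only [L]; omega, fun y hy => ?_, fun y a b => (h3 y a b).trans (up y),
          fun y a b c => ?_, Or.inl hE⟩
      · simp only [L]
        rw [Function.update_of_ne (by omega), h2 y hy]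
      · simp only [L] at b ⊢
        by_cases hy : y = x
        · subst hy
          have := h3 y a c
          simp; omega
        · exact (h4 y a (by omega) c).trans (up y)

section Tilt

variable (z : ℤ) (a b : ℤ → ℝ)

noncomputable def nz (y : ℤ) (i : ℕ) : ℝ := e y i * a y + (1 - e y i) * b y

noncomputable def gc (y : ℤ) (k : ℕ) : ℝ := ∏ i ∈ Finset.range k, (nz e a b y (i + 1))⁻¹

noncomputable def Psi (s : St) : ℝ := (∏ y ∈ Finset.Ico 0 s.1, a y) *
  if s.2 (z + 1) = 0 then ∏ y ∈ Finset.Icc 0 z, gc e a b y (s.2 y) else 0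

lemma tilt_le (he : ∀ y i, 0 ≤ e y i ∧ e y i ≤ 1) (hz : 0 ≤ z) (ha : ∀ y ≤ z, 0 ≤ a y)
    (haz : a z = 0) (hb0 : b 0 = 1) (hab : ∀ y, 1 ≤ y → y ≤ z → a (y - 1) * b y = 1)
    (hn : ∀ y i, 0 ≤ y → y ≤ z → 0 < nz e a b y (i + 1)) (ε : ℝ) (hε : 0 ≤ ε)
    (Q : (ℤ → ℕ) → Prop) (hQ : ∀ dep, Q dep → 1 ≤ ε * ∏ y ∈ Finset.Icc 0 z, gc e a b y (dep y)) :
    iidU {u | ∃ k, (st e u k).1 = 0 ∧ (st e u k).2 (z + 1) = 0 ∧ Q (st e u k).2} ≤
      ENNReal.ofReal ε := by
  have A0 : ∀ x, z < x → ∏ y ∈ Finset.Ico 0 x, a y = 0 := fun x h =>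
    Finset.prod_eq_zero (i := z) (by simp; omega) haz
  have An : ∀ x, 0 ≤ ∏ y ∈ Finset.Ico 0 x, a y := fun x => by
    by_cases h : z < x
    · rw [A0 x h]
    · exact Finset.prod_nonneg fun y hy => ha y (by simp at hy; omega)
  have As : ∀ x, 0 ≤ x → ∏ y ∈ Finset.Ico 0 (x + 1), a y = (∏ y ∈ Finset.Ico 0 x, a y) * a x := by
    intro x hx
    have : Finset.Ico 0 (x + 1) = insert x (Finset.Ico 0 x) := by
      ext y; simp; omega
    rw [this, Finset.prod_insert (by simp), mul_comm]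
  have Cn : ∀ dep : ℤ → ℕ, 0 ≤ ∏ y ∈ Finset.Icc 0 z, gc e a b y (dep y) := fun dep =>
    Finset.prod_nonneg fun y hy => Finset.prod_nonneg fun i _ =>
      (inv_pos.2 (hn y i (by simp at hy; omega) (by simp at hy; omega))).le
  have Pn : ∀ s, 0 ≤ Psi e z a b s := fun s => mul_nonneg (An _) (by
    split_ifs
    · exact Cn _
    · exact le_rfl)
  have key := max_le_real (pr e) R L (fun s => he _ _) (fun s => ε * Psi e z a b s)
    (fun s => mul_nonneg hε (Pn s)) {s | s.1 = 0 ∧ s.2 (z + 1) = 0 ∧ Q s.2} (fun s hs => ?_)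
    (fun s _ => ?_) (0, 0)
  · refine key.trans (le_of_eq ?_)
    simp [Psi, gc]
  · obtain ⟨h1, h2, h3⟩ := hs
    simpa [Psi, h1, h2] using hQ _ h3
  · suffices pr e s * Psi e z a b (R s) + (1 - pr e s) * Psi e z a b (L s) ≤ Psi e z a b s by
      nlinarith [mul_le_mul_of_nonneg_left this hε]
    have h0 := Pn s
    obtain ⟨x, dep⟩ := s
    simp only [Psi, R, L, pr] at h0 ⊢
    rcases (by omega : z + 1 < x ∨ x = z + 1 ∨ (0 ≤ x ∧ x ≤ z) ∨ x < 0) with h | h | h | h
    · rw [A0 _ (by omega : z < x + 1), A0 _ (by omega : z < x - 1)]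
      simpa using h0
    · subst h
      simpa using h0
    · rw [Function.update_of_ne (by omega)]
      split_ifs
      · have hm : x ∈ Finset.Icc 0 z := by simp; omega
        have e1 : ∏ y ∈ Finset.Icc 0 z, gc e a b y (Function.update dep x (dep x + 1) y) =
            (∏ y ∈ Finset.Icc 0 z, gc e a b y (dep y)) * (nz e a b x (dep x + 1))⁻¹ := by
          rw [← Finset.mul_prod_erase _ _ hm, ← Finset.mul_prod_erase _ _ hm, Function.update_self]
          rw [Finset.prod_congr rfl (g := fun y => gc e a b y (dep y)) fun y hy => by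
            rw [Function.update_of_ne (Finset.mem_erase.1 hy).1]]
          rw [gc, Finset.prod_range_succ, ← gc]; ring
        have e2 : ∏ y ∈ Finset.Ico 0 (x - 1), a y = (∏ y ∈ Finset.Ico 0 x, a y) * b x := by
          by_cases hx : x = 0
          · subst hx; simp [hb0]
          · have := As (x - 1) (by omega)
            rw [sub_add_cancel] at this
            rw [this, mul_assoc, hab x (by omega) h.2, mul_one]
        rw [e1, e2, As x h.1]
        have := (hn x (dep x) h.1 h.2).ne'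
        apply le_of_eq
        calc _ = (∏ y ∈ Finset.Ico 0 x, a y) * (∏ y ∈ Finset.Icc 0 z, gc e a b y (dep y)) *
            (nz e a b x (dep x + 1) * (nz e a b x (dep x + 1))⁻¹) := by rw [nz]; ring
          _ = _ := by rw [mul_inv_cancel₀ this, mul_one]
      · simp
    · rw [Function.update_of_ne (by omega), Finset.Ico_eq_empty (by omega),
        Finset.Ico_eq_empty (by omega), Finset.Ico_eq_empty (by omega)]
      have e1 : ∏ y ∈ Finset.Icc 0 z, gc e a b y (Function.update dep x (dep x + 1) y) =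
          ∏ y ∈ Finset.Icc 0 z, gc e a b y (dep y) := Finset.prod_congr rfl fun y hy => by
        rw [Function.update_of_ne (by simp at hy; omega)]
      rw [e1]
      apply le_of_eq; ring

lemma gc_zero_ge (he : ∀ y i, 0 ≤ e y i ∧ e y i ≤ 1)
    (hk : ∀ y i, 3 ≤ i → 1 / 8 ≤ e y i ∧ e y i ≤ 7 / 8) (hb0 : b 0 = 1) (ha1 : a 0 ≤ 1)
    (hn : ∀ i, 0 < nz e a b 0 (i + 1)) (m k : ℕ) (h : m + 2 ≤ k) :
    1 ≤ (1 - (1 - a 0) / 8) ^ m * gc e a b 0 k := by
  have h1 : ∀ i, 1 ≤ (nz e a b 0 (i + 1))⁻¹ := fun i => by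
    refine (one_le_inv₀ (hn i)).2 ?_
    have := he 0 (i + 1)
    rw [nz, hb0]; nlinarith
  have hg : ∀ k, 0 ≤ gc e a b 0 k := fun k =>
    Finset.prod_nonneg fun i _ => zero_le_one.trans (h1 i)
  have mono : Monotone (gc e a b 0) := monotone_nat_of_le_succ fun k => by
    rw [gc, gc, Finset.prod_range_succ]
    exact le_mul_of_one_le_right (hg k) (h1 k)
  have hl : 0 ≤ 1 - (1 - a 0) / 8 := by
    have := hn 2
    have := hk 0 3 le_rfl
    rw [nz, hb0] at *
    nlinarith
  refine le_trans ?_ (mul_le_mul_of_nonneg_left (mono h) (pow_nonneg hl m))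
  clear h
  induction m with
  | zero => simpa [gc] using mono (Nat.zero_le 2)
  | succ m ih =>
    rw [show m + 1 + 2 = (m + 2) + 1 by ring, gc, Finset.prod_range_succ, ← gc, pow_succ]
    have : 1 ≤ (1 - (1 - a 0) / 8) * (nz e a b 0 (m + 2 + 1))⁻¹ := by
      rw [← div_eq_mul_inv, one_le_div (hn _)]
      have := hk 0 (m + 2 + 1) (by omega)
      rw [nz, hb0]; nlinarith
    nlinarith

end Tilt

lemma tendsto_tsum_pow (ε lam : ℕ → ℝ) (hε : ∀ z, 0 ≤ ε z) (hs : Summable ε)
    (h0 : ∀ z, 0 ≤ lam z) (h1 : ∀ z, lam z < 1) :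
    Tendsto (fun m => ∑' z, ENNReal.ofReal (ε z * lam z ^ m)) atTop (𝓝 0) := by
  have hb : ∀ m z, ε z * lam z ^ m ≤ ε z := fun m z =>
    mul_le_of_le_one_right (hε z) (pow_le_one₀ (h0 z) (h1 z).le)
  have hn : ∀ m z, 0 ≤ ε z * lam z ^ m := fun m z => mul_nonneg (hε z) (pow_nonneg (h0 z) m)
  have := tendsto_tsum_of_dominated_convergence (𝓕 := atTop) (f := fun m z => ε z * lam z ^ m)
    (g := fun _ => 0) hs (fun z => by
      simpa using (tendsto_pow_atTop_nhds_zero_of_lt_one (h0 z) (h1 z)).const_mul (ε z))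
    (Eventually.of_forall fun m z => by rw [Real.norm_of_nonneg (hn m z)]; exact hb m z)
  have h2 := ENNReal.tendsto_ofReal this
  simp only [tsum_zero, ENNReal.ofReal_zero] at h2
  refine h2.congr fun m => ?_
  exact ENNReal.ofReal_tsum_of_nonneg (hn m) (hs.of_nonneg_of_le (hn m) (hb m))

/-- transience from summable tilted bounds -/
theorem transient_tilt (he : ∀ y i, 0 ≤ e y i ∧ e y i ≤ 1)
    (hk : ∀ y i, 3 ≤ i → 1 / 8 ≤ e y i ∧ e y i ≤ 7 / 8) (E : ℤ → Prop)
    (hE1 : ∀ y, ¬E y → e y 1 = 1) (a b : ℕ → ℤ → ℝ) (ε : ℕ → ℝ) (hε : ∀ z, 0 ≤ ε z)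
    (hs : Summable ε) (ha : ∀ z : ℕ, ∀ y ≤ (z : ℤ), 0 ≤ a z y) (haz : ∀ z : ℕ, a z z = 0)
    (hb0 : ∀ z, b z 0 = 1) (ha1 : ∀ z, a z 0 < 1)
    (hab : ∀ (z : ℕ) y, 1 ≤ y → y ≤ (z : ℤ) → a z (y - 1) * b z y = 1)
    (hn : ∀ (z : ℕ) y i, E z → 0 ≤ y → y ≤ (z : ℤ) → 0 < nz e (a z) (b z) y (i + 1))
    (hQ : ∀ (z : ℕ) (dep : ℤ → ℕ), E z → (∀ y, 1 ≤ y → y < (z : ℤ) → 2 ≤ dep y) →
      1 ≤ ε z * ∏ y ∈ Finset.Icc (1 : ℤ) z, gc e (a z) (b z) y (dep y)) :
    ∀ᵐ u ∂iidU, Tendsto (fun n => |(st e u n).1|) atTop atTop := by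
  have hl : ∀ z : ℕ, 0 ≤ 1 - (1 - a z 0) / 8 := fun z => by
    have := ha z 0 (by omega); linarith
  refine transient_of e he hk _ (tendsto_tsum_pow ε (fun z => 1 - (1 - a z 0) / 8) hε hs hl
    fun z => by have := ha1 z; linarith) fun m => ?_
  have hsub : {u | ∃ k, (st e u k).1 = 0 ∧ m + 2 ≤ (st e u k).2 0} ≤ᵐ[iidU]
      (⋃ z : ℕ, {u | E z ∧ ∃ k, (st e u k).1 = 0 ∧ (st e u k).2 (z + 1) = 0 ∧
        (m + 2 ≤ (st e u k).2 0 ∧ ∀ y, 1 ≤ y → y < (z : ℤ) → 2 ≤ (st e u k).2 y)} :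
          Set (ℕ → ℝ)) := by
    filter_upwards [ae_mem] with u hu ⟨k, h1, h2⟩
    obtain ⟨z, h0, -, a2, -, a4, a5⟩ := inv_gen e E hE1 u hu k
    obtain ⟨z, rfl⟩ := Int.eq_ofNat_of_zero_le h0
    refine mem_iUnion.2 ⟨z, ?_, k, h1, a2 _ (by omega), h2, fun y a b => a4 y (by omega) (by omega) b⟩
    refine a5.resolve_right fun ⟨b1, b2⟩ => ?_
    rw [← b1, h1] at b2; omega
  refine (measure_mono_ae hsub).trans ((measure_iUnion_le _).trans (ENNReal.tsum_le_tsum fun z => ?_))
  by_cases hE : E z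
  · refine (measure_mono fun u hu => hu.2).trans (tilt_le e z (a z) (b z) he (by omega) (ha z)
      (haz z) (hb0 z) (hab z) (fun y i => hn z y i hE) _ (mul_nonneg (hε z) (pow_nonneg (hl z) m))
      (fun dep => m + 2 ≤ dep 0 ∧ ∀ y, 1 ≤ y → y < (z : ℤ) → 2 ≤ dep y) fun dep ⟨q1, q2⟩ => ?_)
    have : Finset.Icc (0 : ℤ) z = insert 0 (Finset.Icc (1 : ℤ) z) := by
      ext y; simp; omega
    rw [this, Finset.prod_insert (by simp)]
    have g1 := gc_zero_ge e (a z) (b z) he hk (hb0 z) (ha1 z).le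
      (fun i => hn z 0 i hE le_rfl (by omega)) m _ q1
    have g2 := hQ z dep hE q2
    nlinarith [one_le_mul_of_one_le_of_one_le g1 g2]
  · simp [hE]

end Pool.Agent.H45.ERW
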