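import Pool.Agent.H45.ERWGen

/-! Joint measurability of the excited walk. -/

set_option maxHeartbeats 400000

open MeasureTheory Set Filter
open scoped ENNReal Classical Topology

namespace Pool.Agent.H45.ERW

open Coin

lemma measurable_ev {α : Type} [MeasurableSpace α] {e : α → ℤ → ℕ → ℝ} {x : α → ℤ} {k : α → ℕ}
    (he : Measurable e) (hx : Measurable x) (hk : Measurable k) :
    Measurable fun a => e a (x a) (k a) := by
  have : Measurable fun q : (ℤ → ℕ → ℝ) × (ℤ × ℕ) => q.1 q.2.1 q.2.2 :=
    measurable_from_prod_countable_left fun y =>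
      (measurable_pi_apply y.2).comp (measurable_pi_apply y.1)
  exact this.comp (he.prodMk (hx.prodMk hk))

lemma measurable_st (n : ℕ) : Measurable fun p : (ℤ → ℕ → ℝ) × (ℕ → ℝ) => st p.1 p.2 n := by
  induction n with
  | zero => exact (measurable_const : Measurable fun _ : (ℤ → ℕ → ℝ) × (ℕ → ℝ) => ((0, 0) : St))
  | succ n ih =>
    have hd : Measurable fun s : St => s.2 s.1 :=
      measurable_from_prod_countable_right fun y => measurable_pi_apply y
    have hu : Measurable fun s : St => Function.update s.2 s.1 (s.2 s.1 + 1) := by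
      refine measurable_pi_lambda _ fun y => ?_
      simp only [Function.update_apply]
      exact Measurable.ite (measurableSet_eq_fun measurable_const measurable_fst)
        (hd.add_const 1) ((measurable_pi_apply y).comp measurable_snd)
    have hR : Measurable R := (measurable_fst.add_const 1).prodMk hu
    have hL : Measurable L := (measurable_fst.sub_const 1).prodMk hu
    simp only [st_succ]
    refine Measurable.ite (measurableSet_lt ((measurable_pi_apply n).comp measurable_snd) ?_)
      (hR.comp ih) (hL.comp ih)
    exact measurable_ev measurable_fst ih.fst ((hd.comp ih).add_const 1)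

lemma measurableSet_trans : MeasurableSet {X : ℕ → ℤ | Tendsto (fun n => |X n|) atTop atTop} := by
  have : {X : ℕ → ℤ | Tendsto (fun n => |X n|) atTop atTop} =
      ⋂ r : ℤ, ⋃ N : ℕ, ⋂ n : ℕ, {X | N ≤ n → r ≤ |X n|} := by
    ext X
    simp [tendsto_atTop, eventually_atTop]
  rw [this]
  refine MeasurableSet.iInter fun r => MeasurableSet.iUnion fun N => MeasurableSet.iInter fun n => ?_
  exact (measurable_pi_apply (X := fun _ : ℕ => ℤ) n)
    (MeasurableSet.of_discrete (s := {x : ℤ | N ≤ n → r ≤ |x|}))

lemma measurable_path : Measurable fun (p : (ℤ → ℕ → ℝ) × (ℕ → ℝ)) (n : ℕ) => (st p.1 p.2 n).1 :=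
  measurable_pi_lambda _ fun n => (measurable_st n).fst

end Pool.Agent.H45.ERW
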