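import Pool.Agent.H45.ERWMeas

/-! The sequence of walkers on leftover environments. -/

set_option maxHeartbeats 400000

open MeasureTheory Set Filter
open scoped ENNReal Classical Topology

namespace Pool.Agent.H45.ERW

open Coin

lemma lintegral_update {ι α : Type} [DecidableEq ι] [MeasurableSpace α] (ν : Measure α)
    [IsProbabilityMeasure ν]
    (i : ι) (f : (ι → α) → ℝ≥0∞) (hf : Measurable f) :
    ∫⁻ w, f w ∂(Measure.infinitePi fun _ : ι => ν) =
      ∫⁻ w, ∫⁻ a, f (Function.update w i a) ∂ν ∂(Measure.infinitePi fun _ : ι => ν) := by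
  have hm : Measurable fun p : (ι → α) × α => Function.update p.1 i p.2 := measurable_update'
  have key : ((Measure.infinitePi fun _ : ι => ν).prod ν).map
      (fun p : (ι → α) × α => Function.update p.1 i p.2) = Measure.infinitePi fun _ : ι => ν := by
    refine Measure.eq_infinitePi _ fun s t ht => ?_
    rw [Measure.map_apply hm (MeasurableSet.pi s.countable_toSet fun i _ => ht i)]
    have e : (fun p : (ι → α) × α => Function.update p.1 i p.2) ⁻¹' (Set.pi (s : Set ι) t) =
        (Set.pi ((s.erase i : Finset ι) : Set ι) t) ×ˢ (if i ∈ s then t i else univ) := by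
      ext ⟨w, a⟩
      simp only [mem_preimage, Set.mem_pi, Finset.mem_coe, mem_prod, Finset.mem_erase]
      constructor
      · intro h
        refine ⟨fun j hj => by simpa [Function.update_of_ne hj.1] using h j hj.2, ?_⟩
        split_ifs with h0
        · simpa using h i h0
        · trivial
      · rintro ⟨h1, h2⟩ j hj
        by_cases hji : j = i
        · subst hji; rw [if_pos hj] at h2; simpa using h2
        · rw [Function.update_of_ne hji]; exact h1 j ⟨hji, hj⟩
    rw [e, Measure.prod_prod, Measure.infinitePi_pi _ fun i _ => ht i]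
    split_ifs with h0
    · rw [mul_comm]; exact Finset.mul_prod_erase s (fun i => ν (t i)) h0
    · rw [Finset.erase_eq_of_notMem h0]; simp
  conv_lhs => rw [← key]
  rw [lintegral_map hf hm]
  exact lintegral_prod (fun p : (ι → α) × α => f (Function.update p.1 i p.2))
    (hf.comp hm).aemeasurable

def sh (ω : ℤ → ℕ → ℝ) : ℤ → ℕ → ℝ := fun y i => ω y (i - 1)

noncomputable def wk (ω : ℤ → ℕ → ℝ) (u : ℕ → ℝ) (n : ℕ) : ℤ := (st (sh ω) u n).1

noncomputable def lo (ω : ℤ → ℕ → ℝ) (X : ℕ → ℤ) : ℤ → ℕ → ℝ :=
  if Tendsto (fun m => |X m|) atTop atTop then fun x n => ω x (n + Nat.card {m : ℕ // X m = x})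
  else fun _ _ => 1 / 2

lemma measurable_wk {α : Type} [MeasurableSpace α] {e : α → ℤ → ℕ → ℝ} {u : α → ℕ → ℝ}
    (he : Measurable e) (hu : Measurable u) : Measurable fun a => wk (e a) (u a) := by
  have : Measurable sh := measurable_pi_lambda _ fun y => measurable_pi_lambda _ fun i =>
    (measurable_pi_apply _).comp (measurable_pi_apply y)
  exact measurable_path.comp ((this.comp he).prodMk hu)

lemma measurable_lo {α : Type} [MeasurableSpace α] {e : α → ℤ → ℕ → ℝ} {X : α → ℕ → ℤ}
    (he : Measurable e) (hX : Measurable X) : Measurable fun a => lo (e a) (X a) := by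
  unfold lo
  refine Measurable.ite (hX measurableSet_trans) ?_ measurable_const
  refine measurable_pi_lambda _ fun x => measurable_pi_lambda _ fun n => ?_
  refine measurable_ev he measurable_const (Measurable.const_add ?_ n)
  have h1 : Measurable fun a => {m : ℕ | X a m = x} :=
    measurable_set_iff.2 fun m => ((measurable_pi_apply m).comp hX).eq_const x
  exact measurable_ncard.comp h1

variable (e0 : ℤ → ℕ → ℝ)

noncomputable def envR : ℕ → (ℕ → ℕ → ℝ) → ℤ → ℕ → ℝ
  | 0, _ => e0
  | j + 1, θ => lo (envR j θ) (wk (envR j θ) (θ j))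

noncomputable def XR (j : ℕ) (θ : ℕ → ℕ → ℝ) : ℕ → ℤ := wk (envR e0 j θ) (θ j)

noncomputable def envG : ℕ → (ℕ → ℕ → ℤ) → ℤ → ℕ → ℝ
  | 0, _ => e0
  | j + 1, Y => lo (envG j Y) (Y j)

lemma measurable_envR (j : ℕ) : Measurable (envR e0 j) := by
  induction j with
  | zero => exact measurable_const
  | succ j ih => exact measurable_lo ih (measurable_wk ih (measurable_pi_apply j))

lemma measurable_XR (j : ℕ) : Measurable (XR e0 j) :=
  measurable_wk (measurable_envR e0 j) (measurable_pi_apply j)

lemma measurable_envG (j : ℕ) : Measurable (envG e0 j) := by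
  induction j with
  | zero => exact measurable_const
  | succ j ih => exact measurable_lo ih (measurable_pi_apply j)

lemma envR_eq (θ : ℕ → ℕ → ℝ) (Y : ℕ → ℕ → ℤ) (j : ℕ) (h : ∀ i < j, Y i = XR e0 i θ) :
    envR e0 j θ = envG e0 j Y := by
  induction j with
  | zero => rfl
  | succ j ih =>
    rw [envR, envG, h j (by omega), ← ih fun i hi => h i (by omega)]; rfl

lemma envR_update (θ : ℕ → ℕ → ℝ) (j : ℕ) (v : ℕ → ℝ) (i : ℕ) (hi : i ≤ j) :
    envR e0 i (Function.update θ j v) = envR e0 i θ := by
  induction i with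
  | zero => rfl
  | succ i ih => rw [envR, envR, ih (by omega), Function.update_of_ne (by omega)]

lemma st_update (e : ℤ → ℕ → ℝ) (u : ℕ → ℝ) (n : ℕ) (a : ℝ) (k : ℕ) (hk : k ≤ n) :
    st e (Function.update u n a) k = st e u k := by
  induction k with
  | zero => rfl
  | succ k ih => rw [st_succ, st_succ, ih (by omega), Function.update_of_ne (by omega)]

lemma envR_mem (h0 : ∀ x n, 0 ≤ e0 x n ∧ e0 x n ≤ 1) (j : ℕ) (θ : ℕ → ℕ → ℝ) :
    ∀ x n, 0 ≤ envR e0 j θ x n ∧ envR e0 j θ x n ≤ 1 := by
  induction j with
  | zero => exact h0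
  | succ j ih =>
    intro x n
    rw [envR, lo]
    split_ifs
    · exact ih _ _
    · norm_num

lemma wk_step (ω : ℤ → ℕ → ℝ) (u : ℕ → ℝ) (n : ℕ) :
    wk ω u (n + 1) = wk ω u n + if u n < ω (wk ω u n)
      ((Finset.range n).filter fun m => wk ω u m = wk ω u n).card then 1 else -1 := by
  simp only [wk]
  rw [← st_dep, st_succ]
  simp only [pr, sh, Nat.add_sub_cancel]
  split_ifs <;> rfl

noncomputable def muT : Measure (ℕ → ℕ → ℝ) := Measure.infinitePi fun _ : ℕ => iidU

instance : IsProbabilityMeasure muT := by unfold muT; infer_instance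

theorem cond_step (h0 : ∀ x n, 0 ≤ e0 x n ∧ e0 x n ≤ 1) (j n : ℕ) :
    condExp (MeasurableSpace.comap
        (fun θ => (e0, (fun i : Fin j => XR e0 (i : ℕ) θ), (fun m : Fin (n + 1) => XR e0 j θ (m : ℕ))))
        inferInstance) muT
      (Set.indicator {θ | XR e0 j θ (n + 1) = XR e0 j θ n + 1} (fun _ => (1 : ℝ)))
    =ᵐ[muT] fun θ => envR e0 j θ (XR e0 j θ n)
      ((Finset.range n).filter (fun m => XR e0 j θ m = XR e0 j θ n)).card := by
  set G : (ℕ → ℕ → ℝ) → (ℤ → ℕ → ℝ) × (Fin j → ℕ → ℤ) × (Fin (n + 1) → ℤ) := fun θ =>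
    (e0, (fun i : Fin j => XR e0 (i : ℕ) θ), (fun m : Fin (n + 1) => XR e0 j θ (m : ℕ))) with hG
  set g : (ℕ → ℕ → ℝ) → ℝ := fun θ => envR e0 j θ (XR e0 j θ n)
      ((Finset.range n).filter (fun m => XR e0 j θ m = XR e0 j θ n)).card with hg
  have mG : Measurable G := measurable_const.prodMk
    ((measurable_pi_lambda _ fun i => measurable_XR e0 _).prodMk
      (measurable_pi_lambda _ fun m => (measurable_pi_apply _).comp (measurable_XR e0 j)))
  set F : (ℤ → ℕ → ℝ) × (Fin j → ℕ → ℤ) × (Fin (n + 1) → ℤ) → ℝ := fun q =>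
    envG e0 j (fun i => if h : i < j then q.2.1 ⟨i, h⟩ else 0) (q.2.2 (Fin.last n))
      ((Finset.range n).filter (fun m => (if h : m < n + 1 then q.2.2 ⟨m, h⟩ else 0) =
        q.2.2 (Fin.last n))).card with hF
  have mF : Measurable F := by
    refine measurable_ev ((measurable_envG e0 j).comp (measurable_pi_lambda _ fun i => ?_))
      ((measurable_pi_apply _).comp measurable_snd.snd)
      ((Measurable.of_discrete (f := fun Z : Fin (n + 1) → ℤ => ((Finset.range n).filter
        (fun m => (if h : m < n + 1 then Z ⟨m, h⟩ else 0) = Z (Fin.last n))).card)).comp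
        measurable_snd.snd)
    by_cases h : i < j
    · simp only [dif_pos h]; exact (measurable_pi_apply _).comp measurable_snd.fst
    · simp only [dif_neg h]; exact measurable_const
  have gF : g = F ∘ G := by
    funext θ
    simp only [hg, hF, hG, Function.comp, Fin.val_last]
    rw [← envR_eq e0 θ _ j fun i hi => by rw [dif_pos hi]]
    congr 2
    exact Finset.filter_congr fun m hm => by
      rw [dif_pos (show m < n + 1 by have := Finset.mem_range.1 hm; omega)]
  have mg : Measurable g := gF ▸ mF.comp mG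
  have g01 : ∀ θ, 0 ≤ g θ ∧ g θ ≤ 1 := fun θ => envR_mem e0 h0 j θ _ _
  have hB : {θ | XR e0 j θ (n + 1) = XR e0 j θ n + 1} = {θ | θ j n < g θ} := by
    ext θ
    simp only [mem_ofPred_eq, hg, XR, wk_step]
    split_ifs with h
    · simp [h]
    · simp [h]
  have mB : MeasurableSet {θ : ℕ → ℕ → ℝ | θ j n < g θ} :=
    measurableSet_lt ((measurable_pi_apply n).comp (measurable_pi_apply j)) mg
  have Gu : ∀ θ u a, G (Function.update θ j (Function.update u n a)) = G (Function.update θ j u) := by
    intro θ u a
    simp only [hG, XR, wk, Function.update_self, envR_update e0 _ j _ j le_rfl]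
    congr 2
    · funext i
      rw [envR_update e0 _ j _ i i.2.le, envR_update e0 _ j _ i i.2.le,
        Function.update_of_ne i.2.ne, Function.update_of_ne i.2.ne]
    · funext m
      rw [st_update _ _ _ _ _ (by omega)]
  have ig : Integrable g muT :=
    Integrable.of_bound mg.aestronglyMeasurable 1 (Eventually.of_forall fun θ => by
      rw [Real.norm_of_nonneg (g01 θ).1]; exact (g01 θ).2)
  rw [hB]
  refine (ae_eq_condExp_of_forall_setIntegral_eq mG.comap_le ((integrable_const 1).indicator mB)
    (fun s _ _ => ig.integrableOn) (fun s hs _ => ?_) ?_).symm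
  · obtain ⟨t, ht, rfl⟩ := hs
    have ms := mG ht
    rw [integral_indicator_const _ mB, integral_eq_lintegral_of_nonneg_ae
      (Eventually.of_forall fun θ => (g01 θ).1) mg.aestronglyMeasurable, smul_eq_mul, mul_one,
      measureReal_def, Measure.restrict_apply mB, ← lintegral_indicator ms,
      ← lintegral_indicator_one (mB.inter ms)]
    congr 1
    rw [muT, lintegral_update iidU j _ (mg.ennreal_ofReal.indicator ms),
      lintegral_update iidU j _ (measurable_one.indicator (mB.inter ms))]
    refine lintegral_congr fun θ => ?_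
    have m2 : Measurable fun u => ({θ : ℕ → ℕ → ℝ | θ j n < g θ} ∩ G ⁻¹' t).indicator
        (1 : (ℕ → ℕ → ℝ) → ℝ≥0∞) (Function.update θ j u) :=
      (measurable_one.indicator (mB.inter ms)).comp (measurable_update θ)
    rw [iidU, lintegral_update unif n _ m2]
    refine lintegral_congr fun u => ?_
    have e1 : ∀ a, g (Function.update θ j (Function.update u n a)) = g (Function.update θ j u) :=
      fun a => by simp only [gF, Function.comp, Gu]
    by_cases hm : G (Function.update θ j u) ∈ t
    · rw [indicator_of_mem (show _ ∈ G ⁻¹' t from hm), ← unif_Iio _ (g01 _).1 (g01 _).2,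
        ← lintegral_indicator_one measurableSet_Iio]
      refine lintegral_congr fun a => ?_
      simp only [indicator, mem_inter_iff, mem_ofPred_eq, mem_preimage, e1, Gu, hm,
        Function.update_self, and_true, mem_Iio, Pi.one_apply]
    · rw [indicator_of_notMem (show _ ∉ G ⁻¹' t from hm)]
      simp only [indicator, mem_inter_iff, mem_preimage, Gu, hm, and_false, if_false, lintegral_zero]
  · rw [gF]
    exact (mF.comp (comap_measurable G)).aestronglyMeasurable

end Pool.Agent.H45.ERW
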