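import Pool.Agent.H45.ERWEnv
import Pool.Agent.H45.ERWGen

/-! Almost sure transience in the odometer environment. -/

set_option maxHeartbeats 400000

open MeasureTheory Set Filter
open scoped ENNReal Classical Topology

namespace Pool.Agent.H45.ERW

open Coin

lemma bound_z' (x : Od) (z : ℕ) (hx : TT 0 ≤ z) (hz : 1 ≤ z) (hE : EE (x + (z : ℤ))) :
    ∃ i, TT i ≤ z ∧ ∏ y ∈ Finset.Ico (1 : ℤ) z, ca z y ^ dd (x + y) ≤ gg i z := by
  have hex : ∃ i, (z : ℤ) ≤ 2 ^ KK i := ⟨z, by
    have : z < 2 ^ KK z := lt_of_lt_of_le Nat.lt_two_pow_self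
      (Nat.pow_le_pow_right (by norm_num) (by unfold KK; omega))
    exact_mod_cast this.le⟩
  set i0 := Nat.find hex with hi0
  have hz1 : (z : ℤ) ≤ 2 ^ KK i0 := Nat.find_spec hex
  have hT : TT i0 ≤ z := by
    rcases h : i0 with _ | j
    · exact hx
    · have := Nat.find_min hex (show j < Nat.find hex by omega)
      rw [pow_KK] at this
      have a := NN_ge j
      have : (1 : ℤ) * NN j ≤ 2 ^ (2 * j + 7) * (NN j : ℤ) :=
        mul_le_mul_of_nonneg_right (one_le_pow₀ (by norm_num)) (by positivity)
      omega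
  refine ⟨i0, hT, ?_⟩
  obtain ⟨I, hI, hb⟩ := combine z hz (fun n y => MA n (x + y)) (fun n y => MB n (x + y))
    (fun i j y h1 h2 => cls_uniq (cls_A h1) (cls_A h2)) (i0 + 1)
  refine hb.trans ?_
  obtain ⟨I, rfl⟩ := Nat.exists_eq_succ_of_ne_zero (show I ≠ 0 by omega)
  have hzr : (0 : ℝ) < z := by exact_mod_cast hz
  rw [gg, Real.rpow_def_of_pos hzr, ← Real.exp_add]
  apply Real.exp_le_exp.2
  rw [Finset.sum_range_succ']
  have b0 := base z (r 2 x) (by have := hE.1; rwa [r_add] at this)
  have lev : ∀ i, ∑ y ∈ (Finset.Ico (1 : ℤ) z).filter (fun y : ℤ => MB (i + 1) (x + y)), cw z y -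
      ∑ y ∈ (Finset.Ico (1 : ℤ) z).filter (fun y : ℤ => MA (i + 1) (x + y)), cw z y ≤
      1 / 2 / 2 ^ i - if i = i0 then
        (Real.log z - Real.log (2 ^ (2 * i0 + 7))) / 2 ^ (2 * i0 + 7) else 0 := by
    intro i
    have eB : (Finset.Ico (1 : ℤ) z).filter (fun y : ℤ => MB (i + 1) (x + y)) =
        (Finset.Ico (1 : ℤ) z).filter
          (Bs (r (KK i) x) (2 ^ (2 * i + 7)) (2 ^ (i + 2)) (NN i) (2 ^ (i + 1))) :=
      Finset.filter_congr fun y _ => by simp only [MB, Bs, r_add, pow_KK]
    have eA : (Finset.Ico (1 : ℤ) z).filter (fun y : ℤ => MA (i + 1) (x + y)) =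
        (Finset.Ico (1 : ℤ) z).filter
          (fun y => (r (KK i) x + y) % 2 ^ (2 * i + 7) = 2 ^ (i + 1)) :=
      Finset.filter_congr fun y _ => by
        simp only [MA, r_add, pow_KK]
        rw [Int.emod_emod_of_dvd _ (Dvd.intro _ rfl)]
    have hN : (0 : ℤ) < NN i := by have := NN_ge i; omega
    have hZ := hE.2 i
    rw [ZZ, r_add, pow_KK, not_lt] at hZ
    have hqm : (2 : ℤ) ^ (i + 2) ≤ 2 ^ (2 * i + 7) := pow_le_pow_right₀ (by norm_num) (by omega)
    have hq : (1 : ℝ) / ((2 ^ (i + 2) : ℤ) : ℝ) ≤ 1 / 2 / 2 ^ i := by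
      push_cast
      rw [div_div, pow_add]
      apply one_div_le_one_div_of_le (by positivity)
      have : (0 : ℝ) < 2 ^ i := by positivity
      linarith
    rw [eA, eB]
    split_ifs with h
    · subst h
      have l1 := level_le' z _ _ _ _ (2 ^ (i0 + 1)) (by positivity) hqm hN hZ (by rwa [← pow_KK])
      have l2 := gain z (r (KK i0) x) (2 ^ (2 * i0 + 7)) (2 ^ (i0 + 1)) (by positivity) (by positivity)
        (pow_lt_pow_right₀ (by norm_num) (by omega)) (by
          have := (exists_T i0).choose_spec.1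
          exact_mod_cast this.trans hT)
      push_cast at l2
      linarith
    · have l1 := level_le z _ _ _ _ (2 ^ (i + 1)) (by positivity) hqm hN (by positivity)
        (pow_lt_pow_right₀ (by norm_num) (by omega)) hZ
      linarith
  have s1 := Finset.sum_le_sum fun i (_ : i ∈ Finset.range I) => lev i
  rw [Finset.sum_sub_distrib (f := fun i => (1 : ℝ) / 2 / 2 ^ i), Finset.sum_ite_eq',
    if_pos (Finset.mem_range.2 (by omega))] at s1
  have s2 : ∑ i ∈ Finset.range I, (1 : ℝ) / 2 / 2 ^ i ≤ 1 := by
    have := (hasSum_geometric_two' 1).summable.sum_le_tsum (Finset.range I) fun i _ => by positivity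
    rwa [(hasSum_geometric_two' 1).tsum_eq] at this
  simp only [MA, MB, r_add] at s1 b0 ⊢
  norm_num at s1 b0 ⊢
  have e : (Real.log z - (2 * i0 + 7) * Real.log 2) / 2 ^ (2 * i0 + 7) =
      Real.log z * (2 ^ (2 * i0 + 7))⁻¹ - (2 * i0 + 7) * Real.log 2 / 2 ^ (2 * i0 + 7) := by ring
  norm_num at s2
  linarith

lemma gc_eq_corr (E : ℤ → Prop) (d : ℤ → ℕ) (hd : ∀ y, d y ≤ 2) (z y : ℤ) (h1 : 1 ≤ y)
    (h2 : y < z) (k : ℕ) :
    gc (env E d) (ca z) (fun y => if y = 0 then 1 else cb z y) y k = corr E d z y k := by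
  induction k with
  | zero => simp [gc, corr]
  | succ k ih =>
    rw [gc, Finset.prod_range_succ, ← gc, ih, ← corr_step E d z hd h2 k, nz, if_neg (by omega)]
    have := corr_step E d z hd h2 k
    have h3 : env E d y (k + 1) * ca z y + (1 - env E d y (k + 1)) * cb z y ≠ 0 := by
      intro h; rw [h, zero_mul] at this
      exact (corr_pos E d z h2 k).ne this
    field_simp

theorem transient_two (E : ℤ → Prop) (d : ℤ → ℕ) (hd : ∀ y, d y ≤ 2) (hEd : ∀ y, E y → d y = 0)
    (hs : Summable fun z : ℕ => if E z then ∏ y ∈ Finset.Ico (1 : ℤ) z, ca z y ^ d y else 0) :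
    ∀ᵐ u ∂iidU, Tendsto (fun n => |(st (env E d) u n).1|) atTop atTop := by
  have he : ∀ y i, 0 ≤ env E d y i ∧ env E d y i ≤ 1 := fun y i => ck_mem _ _ (hd y) i
  refine transient_tilt (env E d) he (fun y i hi => ?_) E (fun y hy => by simp [env, ck, hy])
    (fun z => ca z) (fun z y => if y = 0 then 1 else cb z y) _ (fun z => ?_) hs
    (fun z y hy => ca_nonneg z hy) (fun z => by simp [ca]) (fun z => by simp) (fun z => ?_)
    (fun z y h1 h2 => by simp only [if_neg (show y ≠ 0 by omega)]; exact ca_mul_cb z h2)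
    (fun z y i hE h1 h2 => ?_) fun z dep hE hq => ?_
  · have : env E d y i = 1 / 2 := by
      simp [env, ck, show i ≠ 1 by omega, show i ≠ 2 by omega]
    rw [this]; norm_num
  · split_ifs
    · exact Finset.prod_nonneg fun y hy => pow_nonneg (ca_nonneg z (by simp at hy; omega)) _
    · exact le_rfl
  · simp only [ca, Int.cast_zero, sub_zero, Int.cast_natCast]
    rw [div_lt_one (by positivity)]; linarith
  · have hb : (1 : ℝ) ≤ if y = 0 then 1 else cb z y := by
      split_ifs
      · exact le_rfl
      · exact cb_ge z h2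
    have := he y (i + 1)
    rw [nz]
    rcases h2.lt_or_eq with h | h
    · have := ca_pos z h
      rcases (he y (i + 1)).2.lt_or_eq with h' | h'
      · nlinarith
      · rw [h']; simpa
    · have : env E d y (i + 1) = 1 / 2 := by simp [env, ck, h, hE]
      have := ca_nonneg z h2
      nlinarith
  · rw [if_pos hE]
    have e1 : ∏ y ∈ Finset.Icc (1 : ℤ) z,
        gc (env E d) (ca z) (fun y => if y = 0 then 1 else cb z y) y (dep y) =
        ∏ y ∈ Finset.Ico (1 : ℤ) z, corr E d z y 2 := by
      rw [← Finset.prod_subset Finset.Ico_subset_Icc_self]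
      · refine Finset.prod_congr rfl fun y hy => ?_
        simp only [Finset.mem_Ico] at hy
        rw [gc_eq_corr E d hd z y hy.1 hy.2, corr_ge E d z _ (hq y hy.1 hy.2)]
      · intro y h1 h2
        simp only [Finset.mem_Icc, Finset.mem_Ico] at h1 h2
        have hy : y = z := by omega
        refine Finset.prod_eq_one fun i _ => ?_
        have : env E d y (i + 1) = 1 / 2 := by simp [env, ck, hy, hE]
        have h3 := ca_add_cb z h1.2
        rw [nz, this, if_neg (by omega), inv_eq_one]
        linarith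
    have e2 : eps E d z * ∏ y ∈ Finset.Ico (1 : ℤ) z, corr E d z y 2 = 1 := by
      rw [eps, ← Finset.prod_mul_distrib]
      exact Finset.prod_eq_one fun y hy =>
        inv_mul_cancel₀ (corr_pos E d z (by simp at hy; omega) _).ne'
    rw [e1, ← e2]
    exact mul_le_mul_of_nonneg_right (eps_le E d z hd hEd)
      (Finset.prod_nonneg fun y hy => (corr_pos E d z (by simp at hy; omega) _).le)

theorem transient_od (x : Od) : ∀ᵐ u ∂iidU, Tendsto (fun n =>
    |(st (env (fun y : ℤ => EE (x + y)) fun y : ℤ => dd (x + y)) u n).1|) atTop atTop := by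
  refine transient_two _ _ (fun y => dr_le _ _) (fun y h => EE_dd h) ?_
  rw [← summable_nat_add_iff (TT 0 + 1)]
  set f : ℕ → ℝ := fun z : ℕ => if EE (x + (z : ℤ)) then
    ∏ y ∈ Finset.Ico (1 : ℤ) z, ca z y ^ dd (x + y) else 0 with hf
  have h0 : ∀ z, 0 ≤ f z := fun z => by
    simp only [hf]
    split_ifs
    · exact Finset.prod_nonneg fun y hy => pow_nonneg (ca_nonneg z (by simp at hy; omega)) _
    · exact le_rfl
  have h1 : ∑' z, ENNReal.ofReal (f (z + (TT 0 + 1))) ≠ ∞ := by
    refine ne_top_of_le_ne_top (b := ∑' i : ℕ, 2⁻¹ ^ (i + 2)) ?_ ?_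
    · simp only [pow_add, ENNReal.tsum_mul_right, ENNReal.tsum_geometric,
        ENNReal.one_sub_inv_two, inv_inv]
      finiteness
    calc _ ≤ ∑' z : ℕ, ∑' i, (if TT i ≤ z + (TT 0 + 1) then
          ENNReal.ofReal (gg i (z + (TT 0 + 1))) else 0) := by
          refine ENNReal.tsum_le_tsum fun z => ?_
          simp only [hf]
          split_ifs with h
          · obtain ⟨i, h1, h2⟩ := bound_z' x (z + (TT 0 + 1)) (by omega) (by omega) h
            refine le_trans ?_ (ENNReal.le_tsum i)
            rw [if_pos h1]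
            exact ENNReal.ofReal_le_ofReal h2
          · simp
      _ ≤ ∑' z : ℕ, ∑' i, (if TT i ≤ z then ENNReal.ofReal (gg i z) else 0) :=
          ENNReal.tsum_comp_le_tsum_of_injective (add_left_injective (TT 0 + 1))
            fun z => ∑' i, (if TT i ≤ z then ENNReal.ofReal (gg i z) else 0)
      _ ≤ _ := by
          rw [ENNReal.tsum_comm]
          exact ENNReal.tsum_le_tsum fun i => (exists_T i).choose_spec.2
  have := ENNReal.summable_toReal h1
  simpa only [ENNReal.toReal_ofReal (h0 _)] using this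

lemma st_unique (e : ℤ → ℕ → ℝ) (u : ℕ → ℝ) (X : ℕ → ℤ) (h0 : X 0 = 0)
    (h : ∀ n, X (n + 1) = X n + if u n < e (X n)
      ((Finset.range (n + 1)).filter fun m => X m = X n).card then (1 : ℤ) else -1) (n : ℕ) :
    X n = (st e u n).1 := by
  induction n using Nat.strong_induction_on with
  | _ n ih =>
    cases n with
    | zero => exact h0
    | succ n =>
      rw [h, st_pos_succ, ih n (by omega)]
      have : ((Finset.range (n + 1)).filter fun m => X m = (st e u n).1) =
          (Finset.range (n + 1)).filter fun m => (st e u m).1 = (st e u n).1 :=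
        Finset.filter_congr fun m hm => by rw [ih m (Finset.mem_range.1 hm)]
      rw [this]

noncomputable def stack (x : Od) (i : ℕ) : ℝ := ck (EE x) (dd x) i

noncomputable def envO (x : Od) (y : ℤ) (i : ℕ) : ℝ := stack (x + y) i

lemma measurable_dd : Measurable dd := by
  classical
  have hA : MeasurableSet {x | ∃ i, MA i x} := by
    rw [ofPred_exists]; exact MeasurableSet.iUnion ms_A
  have hB : MeasurableSet {x | ∃ i, MB i x} := by
    rw [ofPred_exists]; exact MeasurableSet.iUnion ms_B
  unfold dd dr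
  exact Measurable.ite hA (Measurable.ite hB measurable_const measurable_const)
    (Measurable.ite hB measurable_const measurable_const)

lemma measurable_stack (i : ℕ) : Measurable fun x => stack x i := by
  classical
  unfold stack ck
  refine Measurable.ite ms_E measurable_const ?_
  have : Measurable fun x => (dd x : ℝ) := (measurable_from_top (f := fun n : ℕ => (n : ℝ))).comp measurable_dd
  split_ifs
  · exact measurable_const
  · exact this.div_const 2
  · exact measurable_const

lemma measurable_envO : Measurable envO :=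
  measurable_pi_lambda _ fun y => measurable_pi_lambda _ fun i =>
    (measurable_stack i).comp (measurable_add_const _)

lemma tsum_stack (x : Od) : ∑' i : ℕ, (2 * stack x (i + 1) - 1) = dd x := by
  rw [tsum_eq_sum (s := Finset.range 2) fun i hi => ?_]
  · by_cases h : EE x
    · simp [Finset.sum_range_succ, stack, ck, h, EE_dd h]
    · simp [Finset.sum_range_succ, stack, ck, h]; ring
  · have h1 : i ≠ 0 := by simp at hi; omega
    have h2 : i ≠ 1 := by simp at hi; omega
    simp [stack, ck, h1, h2]

lemma integral_dd : ∫ x, (dd x : ℝ) ∂mu = 1 := by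
  classical
  have hA : MeasurableSet {x | ∃ i, MA i x} := by
    rw [ofPred_exists]; exact MeasurableSet.iUnion ms_A
  have hB : MeasurableSet {x | ∃ i, MB i x} := by
    rw [ofPred_exists]; exact MeasurableSet.iUnion ms_B
  have e : (fun x => (dd x : ℝ)) = fun x => (1 + {x | ∃ i, MA i x}.indicator 1 x) -
      {x | ∃ i, MB i x}.indicator 1 x := by
    funext x
    simp only [dd, dr_cast, indicator, mem_ofPred_eq, Pi.one_apply]
  have iA : Integrable ({x | ∃ i, MA i x}.indicator (1 : Od → ℝ)) mu :=
    (integrable_const 1).indicator hA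
  have iB : Integrable ({x | ∃ i, MB i x}.indicator (1 : Od → ℝ)) mu :=
    (integrable_const 1).indicator hB
  have iC : Integrable (fun x => 1 + {x | ∃ i, MA i x}.indicator (1 : Od → ℝ) x) mu :=
    (integrable_const 1).add iA
  rw [e, integral_sub iC iB, integral_add (integrable_const 1) iA,
    integral_indicator_one hA, integral_indicator_one hB, measureReal_def, measureReal_def, mu_union]
  simp

lemma ergodic_mu : Ergodic (fun x : Od => (1 : Od) + x) mu := by
  refine ergodic_add_left_of_denseRange_zsmul ?_ mu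
  have : (fun n : ℤ => n • (1 : Od)) = (Int.cast : ℤ → ℤ_[2]) := by
    funext n; simp; rfl
  rw [this]
  exact PadicInt.denseRange_intCast

end Pool.Agent.H45.ERW
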