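import Mathlib

set_option maxHeartbeats 400000

open MeasureTheory ProbabilityTheory Matrix Finset
open scoped NNReal ENNReal

namespace Pool.Agent.H45.Gap

variable {m n : ℕ}

/-- eigenvalues and eigenvectors of `A Aᵀ` -/
noncomputable def ev (A : Matrix (Fin m) (Fin n) ℝ) : Fin m → ℝ :=
  (isHermitian_mul_conjTranspose_self A).eigenvalues
noncomputable def w (A : Matrix (Fin m) (Fin n) ℝ) (l : Fin m) : Fin m → ℝ :=
  ((isHermitian_mul_conjTranspose_self A).eigenvectorBasis l).ofLp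

lemma w_eig (A : Matrix (Fin m) (Fin n) ℝ) (l) (p : Fin m → ℝ) :
    (p ᵥ* A) ⬝ᵥ (w A l ᵥ* A) = ev A l * (p ⬝ᵥ w A l) := by
  have := congrArg (p ⬝ᵥ ·) ((isHermitian_mul_conjTranspose_self A).mulVec_eigenvectorBasis l)
  simp only [conjTranspose_eq_transpose_of_trivial, ← mulVec_mulVec, mulVec_transpose,
    dotProduct_mulVec, dotProduct_smul, smul_eq_mul] at this
  exact this

lemma w_dot (A : Matrix (Fin m) (Fin n) ℝ) (l l') :
    w A l ⬝ᵥ w A l' = if l = l' then 1 else 0 := by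
  have := orthonormal_iff_ite.1
    (isHermitian_mul_conjTranspose_self A).eigenvectorBasis.orthonormal l' l
  rw [EuclideanSpace.inner_eq_star_dotProduct] at this
  simpa [eq_comm, w] using this

lemma parseval (A : Matrix (Fin m) (Fin n) ℝ) (z : Fin m → ℝ) :
    ∑ l, (z ⬝ᵥ w A l) ^ 2 = z ⬝ᵥ z := by
  have := (isHermitian_mul_conjTranspose_self A).eigenvectorBasis.sum_sq_inner_right
    (WithLp.toLp 2 z)
  rw [← real_inner_self_eq_norm_sq] at this
  simp only [EuclideanSpace.inner_eq_star_dotProduct, star_trivial] at this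
  exact this

/-- The closed condition. -/
def Q (x R : ℝ) (i : Fin m) (A : Matrix (Fin m) (Fin n) ℝ) (u v : Fin m → ℝ) : Prop :=
  u ⬝ᵥ u = 1 ∧ v ⬝ᵥ v = 1 ∧ u ⬝ᵥ v = 0 ∧
  (∀ p, (p ᵥ* A) ⬝ᵥ (u ᵥ* A) = ((u ᵥ* A) ⬝ᵥ (u ᵥ* A)) * (p ⬝ᵥ u)) ∧
  (∀ p, (p ᵥ* A) ⬝ᵥ (v ᵥ* A) = ((v ᵥ* A) ⬝ᵥ (v ᵥ* A)) * (p ⬝ᵥ v)) ∧
  |(v ᵥ* A) ⬝ᵥ (v ᵥ* A) - (u ᵥ* A) ⬝ᵥ (u ᵥ* A)| * x ≤ 3 * ((u ᵥ* A) ⬝ᵥ (u ᵥ* A)) ∧
  1 ≤ n * |u i| ∧ (u ᵥ* A) ⬝ᵥ (u ᵥ* A) ≤ R ^ 2

lemma exists_ker (hmn : m ≤ n) (B : Matrix (Fin m) (Fin n) ℝ) (i : Fin m) (hB : B i = 0) :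
    ∃ z ≠ 0, B *ᵥ z = 0 := by
  have := ((LinearMap.funLeft ℝ ℝ (Subtype.val : {r // r ≠ i} → Fin m)) ∘ₗ
    B.mulVecLin).ker_ne_bot_of_finrank_lt (by
      have := i.pos
      simp [Fintype.card_subtype_compl]; omega)
  obtain ⟨z, hz, hz0⟩ := Submodule.exists_mem_ne_zero_of_ne_bot this
  refine ⟨z, hz0, funext fun r => ?_⟩
  by_cases h : r = i
  · simp [h, mulVec, hB]
  · exact congrFun hz ⟨r, h⟩

lemma dot_le (y : Fin n → ℝ) : y ⬝ᵥ y ≤ (n * ‖y‖) ^ 2 := by
  have h : y ⬝ᵥ y ≤ n * ‖y‖ ^ 2 := by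
    refine (sum_le_card_nsmul _ _ (‖y‖ ^ 2) fun j _ => ?_).trans (by simp)
    rw [← sq, ← sq_abs]
    exact pow_le_pow_left₀ (abs_nonneg _) (norm_le_pi_norm y j) 2
  have : (n : ℝ) ≤ n ^ 2 := by exact_mod_cast Nat.le_self_pow two_ne_zero n
  nlinarith [sq_nonneg ‖y‖]

lemma sect {x R : ℝ} (hx : 6 ≤ x) (hR : 0 ≤ R) (i : Fin m) (B : Matrix (Fin m) (Fin n) ℝ)
    (hB : B i = 0) {z : Fin n → ℝ} (hz : B *ᵥ z = 0) (a : Fin n → ℝ) {u v : Fin m → ℝ}
    (h : Q x R i (B.updateRow i a) u v) : z ⬝ᵥ a = 0 ∨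
      ∃ l, w B l ᵥ* B ≠ 0 ∧ |(w B l ᵥ* B) ⬝ᵥ a| ≤ 6 * n ^ 2 * R / x * ‖w B l ᵥ* B‖ := by
  obtain ⟨hu, hv, huv, eu, ev', hgap, hi, hRl⟩ := h
  set A := B.updateRow i a with hA
  have key : ∀ p, p ᵥ* A = p ᵥ* B + p i • a := fun p => by
    funext j
    simp only [vecMul, dotProduct, hA, updateRow_apply, Pi.add_apply, Pi.smul_apply, smul_eq_mul]
    rw [← add_sum_erase _ _ (mem_univ i), ← add_sum_erase _ _ (mem_univ i), if_pos rfl, hB,
      sum_congr rfl fun r hr => by rw [if_neg (mem_erase.1 hr).1]]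
    simp [add_comm]
  set lam := (u ᵥ* A) ⬝ᵥ (u ᵥ* A) with hlam
  set lam' := (v ᵥ* A) ⬝ᵥ (v ᵥ* A)
  have hui : u i ≠ 0 := fun h => by norm_num [h] at hi
  have hl0 : 0 ≤ lam := sum_nonneg fun _ _ => mul_self_nonneg _
  rcases hl0.eq_or_lt with h0 | h0
  · left
    have h1 : u ᵥ* A = 0 := dotProduct_self_eq_zero.1 h0.symm
    have h2 := congrArg (· ⬝ᵥ z) (key u)
    simp only [h1, zero_dotProduct, add_dotProduct, ← dotProduct_mulVec, hz, dotProduct_zero,
      zero_add, smul_dotProduct, smul_eq_mul] at h2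
    rw [dotProduct_comm]
    exact (mul_eq_zero.1 h2.symm).resolve_left hui
  right
  set v0 := v i • u - u i • v with hv0
  set v' := Function.update v i 0 with hv'
  have hv0i : v0 i = 0 := by simp [hv0, mul_comm]
  have hc : ∀ l, (ev B l - lam) * (v0 ⬝ᵥ w B l) = -(u i * (lam' - lam)) * (v' ⬝ᵥ w B l) := by
    intro l
    set p := w B l - w B l i • Pi.single i 1 with hp
    have h1 : p ᵥ* A = w B l ᵥ* B := by
      rw [key, hp, sub_vecMul, smul_vecMul, single_one_vecMul]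
      simp [Matrix.row, hB]
    have h2 : v0 ᵥ* A = v0 ᵥ* B := by rw [key, hv0i]; simp
    have h3 := w_eig B l v0
    rw [← h1, ← h2, dotProduct_comm, hv0, sub_vecMul (x := v i • u), smul_vecMul, smul_vecMul, dotProduct_sub,
      dotProduct_smul, dotProduct_smul, eu, ev'] at h3
    have h4 : p ⬝ᵥ v = v' ⬝ᵥ w B l := by
      have : v' = v - v i • Pi.single i 1 := by
        funext r; by_cases h : r = i <;> simp [hv', h]
      simp [this, hp, dotProduct_comm, mul_comm]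
    have h5 : p ⬝ᵥ u = u ⬝ᵥ w B l - w B l i * u i := by simp [hp, dotProduct_comm]
    have h6 : p ⬝ᵥ v = v ⬝ᵥ w B l - w B l i * v i := by simp [hp, dotProduct_comm]
    rw [← h4]
    simp only [hv0, sub_dotProduct, smul_dotProduct, smul_eq_mul] at h3 ⊢
    rw [h5] at h3
    rw [h6] at h3 ⊢
    linear_combination -h3
  have hv0n : v0 ⬝ᵥ v0 = v i ^ 2 + u i ^ 2 := by
    simp only [hv0, sub_dotProduct, dotProduct_sub, smul_dotProduct, dotProduct_smul, hu, hv, huv,
      dotProduct_comm v u, smul_eq_mul]; ring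
  have hv'n : v' ⬝ᵥ v' ≤ 1 := by
    rw [← hv]
    refine sum_le_sum fun r _ => ?_
    by_cases h : r = i <;> simp [hv', h, mul_self_nonneg]
  obtain ⟨l, hl⟩ : ∃ l, (ev B l - lam) ^ 2 ≤ (lam' - lam) ^ 2 := by
    by_contra hcon
    push Not at hcon
    have hu2 : 0 < u i ^ 2 := by positivity
    obtain ⟨l, -, hl⟩ := exists_ne_zero_of_sum_ne_zero (s := univ)
      (f := fun l => (v0 ⬝ᵥ w B l) ^ 2) (by rw [parseval, hv0n]; positivity)
    have h1 := sum_lt_sum (s := univ) (f := fun l => (lam' - lam) ^ 2 * (v0 ⬝ᵥ w B l) ^ 2)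
      (g := fun l => (ev B l - lam) ^ 2 * (v0 ⬝ᵥ w B l) ^ 2)
      (fun l _ => mul_le_mul_of_nonneg_right (hcon l).le (sq_nonneg _))
      ⟨l, mem_univ _, mul_lt_mul_of_pos_right (hcon l) ((sq_nonneg _).lt_of_ne' hl)⟩
    simp only [← mul_pow, hc] at h1
    simp only [mul_pow, ← mul_sum, parseval, hv0n, neg_sq] at h1
    nlinarith [mul_nonneg (sq_nonneg (lam' - lam)) (sq_nonneg (v i)),
      mul_le_mul_of_nonneg_left hv'n (mul_nonneg hu2.le (sq_nonneg (lam' - lam)))]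
  have hl' : |ev B l - lam| ≤ |lam' - lam| := sq_le_sq.1 hl
  have hD : |lam' - lam| ≤ 3 * lam / x := by rw [le_div_iff₀ (by linarith)]; exact hgap
  have hD2 : 3 * lam / x ≤ lam / 2 := by
    rw [div_le_div_iff₀ (by linarith) two_pos]; nlinarith
  have hμ : lam / 2 ≤ ev B l := by linarith [(abs_le.1 hl').1]
  have hwi : w B l i = 0 := by
    have := w_eig B l (Pi.single i 1)
    rw [single_one_vecMul] at this
    simp only [Matrix.row, hB, zero_dotProduct, single_dotProduct, one_mul] at this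
    exact (mul_eq_zero.1 this.symm).resolve_left (by linarith)
  set y := w B l ᵥ* B with hy
  have hyy : y ⬝ᵥ y = ev B l := by rw [hy, w_eig, w_dot]; simp
  have hn : (0 : ℝ) ≤ n := Nat.cast_nonneg _
  have h1 : u i * (y ⬝ᵥ a) = (lam - ev B l) * (u ⬝ᵥ w B l) := by
    have h2 := eu (w B l)
    rw [key (w B l), hwi, zero_smul, add_zero, key u, dotProduct_add, dotProduct_comm, w_eig,
      dotProduct_smul, dotProduct_comm (w B l) u, smul_eq_mul] at h2
    linear_combination h2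
  have h2 : |u ⬝ᵥ w B l| ≤ 1 := by
    rw [← sq_le_one_iff_abs_le_one, ← hu, ← parseval B]
    exact single_le_sum (f := fun l => (u ⬝ᵥ w B l) ^ 2) (fun _ _ => sq_nonneg _) (mem_univ l)
  have h3 : |y ⬝ᵥ a| ≤ n * (3 * lam / x) := by
    have : |u i| * |y ⬝ᵥ a| ≤ 3 * lam / x := by
      rw [← abs_mul, h1, abs_mul, abs_sub_comm]
      nlinarith [abs_nonneg (ev B l - lam), abs_nonneg (u ⬝ᵥ w B l)]
    nlinarith [abs_nonneg (y ⬝ᵥ a)]
  refine ⟨l, fun h => by rw [← hy] at h; rw [h] at hyy; simp at hyy; linarith, h3.trans ?_⟩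
  have h4 : lam ≤ R * (2 * (n * ‖y‖)) := by
    have h5 := dot_le y
    have h6 : lam ≤ (2 * (n * ‖y‖)) ^ 2 := by nlinarith
    refine (pow_le_pow_iff_left₀ h0.le (by positivity) two_ne_zero).1 ?_
    rw [sq, mul_pow]
    exact mul_le_mul hRl h6 h0.le (sq_nonneg _)
  rw [← hy, ← mul_div_assoc, div_mul_eq_mul_div]
  refine div_le_div_of_nonneg_right ?_ (by linarith)
  nlinarith

lemma pi_le {ι α : Type} [Fintype ι] [DecidableEq ι] [MeasurableSpace α] (ν : Measure α)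
    [IsProbabilityMeasure ν] {S : Set (ι → α)} (hS : MeasurableSet S) (i : ι) (c : ℝ≥0∞)
    (h : ∀ G, ν {a | Function.update G i a ∈ S} ≤ c) : Measure.pi (fun _ : ι => ν) S ≤ c := by
  rw [← lintegral_indicator_one hS]
  refine (lintegral_le_of_lmarginal_le {i} (measurable_one.indicator hS) (g := fun _ => c)
    measurable_const fun G => ?_).trans (by simp)
  simp only [lmarginal_singleton, lintegral_const, measure_univ, mul_one]
  refine le_trans (le_of_eq ?_) (h G)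
  exact lintegral_indicator_one (hS.preimage (measurable_update G))

lemma gauss_Icc {σ : ℝ≥0} (hσ : 0 < σ) (c η : ℝ) :
    gaussianReal 0 (σ ^ 2) {t | |c + t| ≤ η} ≤ ENNReal.ofReal (η / σ) := by
  have hs : {t | |c + t| ≤ η} = Set.Icc (-η - c) (η - c) := by
    ext t; simp only [Set.mem_ofPred_eq, abs_le, Set.mem_Icc]
    constructor <;> rintro ⟨h1, h2⟩ <;> constructor <;> linarith
  have hσ' : (0 : ℝ) < σ := hσ
  rw [gaussianReal_apply _ (by positivity), hs]
  refine (setLIntegral_mono' (g := fun _ => ENNReal.ofReal (1 / (2 * σ))) measurableSet_Icc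
    fun t _ => ENNReal.ofReal_le_ofReal ?_).trans ?_
  · rw [gaussianPDFReal, one_div]
    refine (mul_le_of_le_one_right (by positivity) (Real.exp_le_one_iff.2 ?_)).trans ?_
    · exact div_nonpos_of_nonpos_of_nonneg (neg_nonpos.2 (sq_nonneg _)) (by positivity)
    · refine inv_anti₀ (by positivity) (Real.le_sqrt_of_sq_le ?_)
      push_cast; nlinarith [Real.pi_gt_three, sq_nonneg (σ : ℝ)]
  · rw [setLIntegral_const, Real.volume_Icc, ← ENNReal.ofReal_mul (by positivity)]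
    refine le_of_eq (congrArg _ ?_)
    field_simp; ring

lemma small_ball {σ : ℝ≥0} (hσ : 0 < σ) (a y : Fin n → ℝ) (hy : y ≠ 0) (η : ℝ) :
    Measure.pi (fun _ : Fin n => gaussianReal 0 (σ ^ 2)) {g | |y ⬝ᵥ (a + g)| ≤ η * ‖y‖} ≤
      ENNReal.ofReal (η / σ) := by
  have hn : Nonempty (Fin n) := by
    by_contra h; exact hy (funext fun j => (h ⟨j⟩).elim)
  obtain ⟨r, hr⟩ : ∃ r, ‖y r‖ = ‖y‖ := by
    obtain ⟨r, hr⟩ := Finite.exists_max fun r => ‖y r‖
    exact ⟨r, le_antisymm (norm_le_pi_norm y r) ((pi_norm_le_iff_of_nonneg (norm_nonneg _)).2 hr)⟩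
  have h0 : 0 < |y r| := by rw [← Real.norm_eq_abs, hr]; exact norm_pos_iff.2 hy
  refine pi_le _ (measurableSet_le (by fun_prop) measurable_const) r _ fun G => ?_
  refine le_trans (measure_mono fun t ht => ?_)
    (gauss_Icc hσ ((y ⬝ᵥ (a + Function.update G r 0)) / y r) η)
  have : Function.update G r t = Function.update G r 0 + Pi.single r t := by
    funext j; by_cases h : j = r <;> simp [h]
  simp only [Set.mem_ofPred_eq, this, ← add_assoc] at ht ⊢
  rw [dotProduct_add, dotProduct_single, ← hr, Real.norm_eq_abs, ← div_le_iff₀ h0, ← abs_div, add_div,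
    mul_div_cancel_left₀ _ (abs_pos.1 h0)] at ht
  exact ht

def F (x R : ℝ) (i : Fin m) (Abar : Matrix (Fin m) (Fin n) ℝ) : Set (Fin m → Fin n → ℝ) :=
  {G | ∃ u v, Q x R i (Abar + Matrix.of G) u v}

lemma norm_le {u : Fin m → ℝ} (h : u ⬝ᵥ u = 1) : u ∈ Metric.closedBall (0 : Fin m → ℝ) 1 := by
  rw [mem_closedBall_zero_iff, pi_norm_le_iff_of_nonneg zero_le_one]
  intro r
  rw [Real.norm_eq_abs, ← sq_le_one_iff_abs_le_one, ← h, sq]
  exact single_le_sum (f := fun r => u r * u r) (fun _ _ => mul_self_nonneg _) (mem_univ r)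

lemma F_closed (x R : ℝ) (i : Fin m) (Abar : Matrix (Fin m) (Fin n) ℝ) :
    IsClosed (F x R i Abar) := by
  let K := Metric.closedBall (0 : Fin m → ℝ) 1
  have : F x R i Abar = Prod.fst '' {q : (Fin m → Fin n → ℝ) × (K × K) |
      Q x R i (Abar + Matrix.of q.1) q.2.1 q.2.2} := by
    ext G
    exact ⟨fun ⟨u, v, h⟩ => ⟨(G, ⟨u, norm_le h.1⟩, ⟨v, norm_le h.2.1⟩), h, rfl⟩,
      fun ⟨q, h, e⟩ => by subst e; exact ⟨_, _, h⟩⟩
  rw [this]
  refine isClosedMap_fst_of_compactSpace _ ?_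
  have hA : Continuous fun q : (Fin m → Fin n → ℝ) × (K × K) => Abar + Matrix.of q.1 :=
    continuous_const.add continuous_fst
  have hu : Continuous fun q : (Fin m → Fin n → ℝ) × (K × K) => q.2.1.1 := by fun_prop
  have hv : Continuous fun q : (Fin m → Fin n → ℝ) × (K × K) => q.2.2.1 := by fun_prop
  have hu' := hu.matrix_vecMul hA
  have hv' := hv.matrix_vecMul hA
  simp only [Q, Set.ofPred_and, Set.ofPred_forall]
  refine (isClosed_eq (hu.dotProduct hu) continuous_const).inter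
    ((isClosed_eq (hv.dotProduct hv) continuous_const).inter
    ((isClosed_eq (hu.dotProduct hv) continuous_const).inter
    ((isClosed_iInter fun p => isClosed_eq ((continuous_const.matrix_vecMul hA).dotProduct hu')
      ((hu'.dotProduct hu').mul (continuous_const.dotProduct hu))).inter
    ((isClosed_iInter fun p => isClosed_eq ((continuous_const.matrix_vecMul hA).dotProduct hv')
      ((hv'.dotProduct hv').mul (continuous_const.dotProduct hv))).inter
    ((isClosed_le (((hv'.dotProduct hv').sub (hu'.dotProduct hu')).abs.mul continuous_const)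
      (continuous_const.mul (hu'.dotProduct hu'))).inter
    ((isClosed_le continuous_const
      (continuous_const.mul ((continuous_apply i).comp hu).abs)).inter
      (isClosed_le (hu'.dotProduct hu') continuous_const)))))))

lemma F_le (hmn : m ≤ n) {σ : ℝ≥0} (hσ : 0 < σ) {x R : ℝ} (hx : 6 ≤ x) (hR : 0 ≤ R) (i : Fin m)
    (Abar : Matrix (Fin m) (Fin n) ℝ) :
    Measure.pi (fun _ : Fin m => Measure.pi fun _ : Fin n => gaussianReal 0 (σ ^ 2))
      (F x R i Abar) ≤ m * ENNReal.ofReal (6 * n ^ 2 * R / x / σ) := by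
  refine pi_le _ (F_closed x R i Abar).measurableSet i _ fun G => ?_
  set B := (Abar + Matrix.of G).updateRow i 0 with hB
  have hBi : B i = 0 := by simp [hB]
  obtain ⟨z, hz0, hz⟩ := exists_ker hmn B i hBi
  have hsub : {a | Function.update G i a ∈ F x R i Abar} ⊆
      {g | |z ⬝ᵥ (Abar i + g)| ≤ 0 * ‖z‖} ∪ ⋃ l ∈ univ.filter (fun l => w B l ᵥ* B ≠ 0),
        {g | |(w B l ᵥ* B) ⬝ᵥ (Abar i + g)| ≤ 6 * n ^ 2 * R / x * ‖w B l ᵥ* B‖} := by
    rintro g ⟨u, v, h⟩
    have : Abar + Matrix.of (Function.update G i g) = B.updateRow i (Abar i + g) := by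
      ext r j; by_cases h : r = i <;> simp [hB, h, updateRow_apply]
    rcases sect hx hR i B hBi hz _ (this ▸ h) with h | ⟨l, h1, h2⟩
    · left; simp only [Set.mem_ofPred_eq, h]; simp
    · right; exact Set.mem_biUnion (mem_filter.2 ⟨mem_univ l, h1⟩) h2
  refine (measure_mono hsub).trans ((measure_union_le _ _).trans ?_)
  refine (add_le_add (small_ball hσ _ _ hz0 0) ((measure_biUnion_finset_le _ _).trans
    (sum_le_card_nsmul _ _ _ fun l hl => small_ball hσ _ _ (mem_filter.1 hl).2 _))).trans ?_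
  rw [zero_div, ENNReal.ofReal_zero, zero_add, nsmul_eq_mul]
  gcongr
  exact (card_filter_le _ _).trans (by simp)

lemma entry_le {σ : ℝ≥0} (hσ : σ ≤ 1) {T : ℝ} (hT : 0 < T) (i : Fin m) (j : Fin n) :
    Measure.pi (fun _ : Fin m => Measure.pi fun _ : Fin n => gaussianReal 0 (σ ^ 2))
      {G | T ≤ |G i j|} ≤ ENNReal.ofReal (1 / T ^ 2) := by
  refine pi_le _ (measurableSet_le measurable_const (by fun_prop)) i _ fun G => ?_
  simp only [Set.mem_ofPred_eq, Function.update_self]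
  refine pi_le _ (measurableSet_le measurable_const (by fun_prop)) j _ fun G => ?_
  simp only [Set.mem_ofPred_eq, Function.update_self]
  have := meas_ge_le_variance_div_sq (memLp_id_gaussianReal (μ := 0) (v := σ ^ 2) 2) hT
  simp only [id, integral_id_gaussianReal, sub_zero, variance_id_gaussianReal] at this
  refine this.trans (ENNReal.ofReal_le_ofReal ?_)
  have h : (σ : ℝ) ≤ 1 := hσ
  gcongr
  push_cast; nlinarith [σ.2]

lemma cover (hmn : m ≤ n) (Abar : Matrix (Fin m) (Fin n) ℝ) (hA : ∑ i, ∑ j, Abar i j ^ 2 ≤ 1)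
    {x T : ℝ} (hx : 1 ≤ x) (hT : 1 ≤ T) (G : Fin m → Fin n → ℝ) (hG : ∀ i j, |G i j| < T)
    {j k : Fin m} (hjk : j ≠ k)
    (h1 : √(ev (Abar + Matrix.of G) k) ≤ √(ev (Abar + Matrix.of G) j))
    (h2 : √(ev (Abar + Matrix.of G) j) - √(ev (Abar + Matrix.of G) k) ≤
      √(ev (Abar + Matrix.of G) k) / x) : ∃ i, G ∈ F x (2 * n * T) i Abar := by
  set A := Abar + Matrix.of G with hAd
  have he : ∀ l, (w A l ᵥ* A) ⬝ᵥ (w A l ᵥ* A) = ev A l := fun l => by rw [w_eig, w_dot]; simp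
  have h0 : ∀ l, 0 ≤ ev A l := fun l => he l ▸ sum_nonneg fun _ _ => mul_self_nonneg _
  have hkk : w A k ⬝ᵥ w A k = 1 := by simp [w_dot]
  have hm : (1 : ℝ) ≤ m := by exact_mod_cast k.pos
  have hn : (m : ℝ) ≤ n := by exact_mod_cast hmn
  obtain ⟨i, hi⟩ : ∃ i, 1 ≤ n * |w A k i| := by
    by_contra hc
    push Not at hc
    have := sum_lt_sum_of_nonempty (s := univ) ⟨k, mem_univ _⟩
      (f := fun i => (n : ℝ) ^ 2 * (w A k i * w A k i)) (g := fun _ => 1) fun i _ => by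
        rw [← sq, ← sq_abs (w A k i), ← mul_pow]
        exact pow_lt_one₀ (by positivity) (hc i) two_ne_zero
    rw [← mul_sum, show ∑ i, w A k i * w A k i = 1 from hkk] at this
    simp at this
    nlinarith
  refine ⟨i, w A k, w A j, hkk, by simp [w_dot], by simp [w_dot, hjk.symm],
    fun p => by rw [he, w_eig], fun p => by rw [he, w_eig], ?_, hi, ?_⟩
  · rw [he, he, ← Real.sq_sqrt (h0 j), ← Real.sq_sqrt (h0 k)]
    have := Real.sqrt_nonneg (ev A k)
    generalize √(ev A j) = s at *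
    generalize √(ev A k) = t at *
    rw [le_div_iff₀ (by linarith)] at h2
    rw [abs_of_nonneg (by nlinarith)]
    have : s - t ≤ t := by nlinarith
    nlinarith
  · have hb : ∀ r c, A r c ^ 2 ≤ (2 * T) ^ 2 := fun r c => by
      have h3 : Abar r c ^ 2 ≤ 1 := le_trans ((single_le_sum (f := fun c => Abar r c ^ 2)
        (fun _ _ => sq_nonneg _) (mem_univ c)).trans (single_le_sum
        (f := fun r => ∑ c, Abar r c ^ 2) (fun _ _ => sum_nonneg fun _ _ => sq_nonneg _)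
        (mem_univ r))) hA
      have h4 := abs_le.1 (sq_le_one_iff_abs_le_one _ |>.1 h3)
      have h5 := abs_lt.1 (hG r c)
      refine sq_le_sq' ?_ ?_ <;> simp only [hAd, Matrix.add_apply, of_apply] <;> linarith
    refine (sum_le_card_nsmul _ _ (n * (2 * T) ^ 2) fun c _ => ?_).trans (by simp; nlinarith)
    rw [← sq]
    refine (sum_mul_sq_le_sq_mul_sq univ (w A k) fun r => A r c).trans ?_
    rw [show ∑ r, w A k r ^ 2 = 1 by simpa [sq, dotProduct] using hkk, one_mul]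
    refine (sum_le_card_nsmul _ _ _ fun r _ => hb r c).trans ?_
    simp only [card_univ, Fintype.card_fin, nsmul_eq_mul]
    gcongr

end Pool.Agent.H45.Gap
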