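import Mathlib

/-! Basic estimates for Mathlib's binomial random graph. -/

open MeasureTheory Measure ProbabilityTheory unitInterval
open scoped ENNReal

namespace Pool.Agent.H45.Gnp

variable {V : Type*} [Fintype V] [DecidableEq V]

/-- Probability that the neighbourhood of `v` is exactly `S`. -/
lemma nbr_le (p : I) (v : V) (S : Finset V) (hv : v ∉ S) :
    SimpleGraph.binomialRandom V p {G | ∀ w, G.Adj v w ↔ w ∈ S} ≤
      ENNReal.ofReal ((p : ℝ) ^ S.card * (1 - p : ℝ) ^ (Fintype.card V - 1 - S.card)) := by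
  classical
  rw [SimpleGraph.binomialRandom_apply]
  set T : Finset (Sym2 V) := (Finset.univ.erase v).image (fun w => s(v, w)) with hT
  set t : Sym2 V → Set Prop := fun e => {P | P ↔ ∃ w ∈ S, e = s(v, w)} with ht
  have hsub : ((fun (G : SimpleGraph V) e ↦ e ∈ G.edgeSet) '' {G | ∀ w, G.Adj v w ↔ w ∈ S}) ⊆
      Set.pi (T : Set (Sym2 V)) t := by
    rintro _ ⟨G, hG, rfl⟩ e he
    obtain ⟨w, -, rfl⟩ := Finset.mem_image.1 (Finset.mem_coe.1 he)
    simp only [ht, Set.mem_ofPred_eq, SimpleGraph.mem_edgeSet]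
    rw [hG w]
    constructor
    · intro h; exact ⟨w, h, rfl⟩
    · rintro ⟨w', hw', h⟩
      rwa [Sym2.congr_right.1 h]
  refine (measure_mono hsub).trans ?_
  rw [infinitePi_pi _ (fun _ _ => (Set.toFinite _).measurableSet), hT,
    Finset.prod_image (fun a _ b _ h => Sym2.congr_right.1 h)]
  have hterm : ∀ w ∈ Finset.univ.erase v,
      ((toNNReal p • (dirac (¬ (s(v, w)).IsDiag) : Measure Prop) +
        toNNReal (σ p) • (dirac False : Measure Prop)) (t s(v, w))) =
        if w ∈ S then ENNReal.ofReal p else ENNReal.ofReal (1 - p) := by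
    intro w hw
    have hwv : w ≠ v := (Finset.mem_erase.1 hw).1
    have hd : ¬ (s(v, w)).IsDiag := by simp [Ne.symm hwv]
    have hex : (∃ w' ∈ S, s(v, w) = s(v, w')) ↔ w ∈ S := by
      constructor
      · rintro ⟨w', hw', h⟩; rwa [Sym2.congr_right.1 h]
      · intro h; exact ⟨w, h, rfl⟩
    simp only [Measure.add_apply, Measure.smul_apply, dirac_apply, ht, hex]
    by_cases h : w ∈ S
    · simp [h, hd, Set.indicator, ENNReal.smul_def, ENNReal.ofReal, toNNReal, Real.toNNReal, p.2.1]
      rfl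
    · have := p.2.2
      simp [h, hd, Set.indicator, ENNReal.smul_def, ENNReal.ofReal, toNNReal, Real.toNNReal, this]
      rfl
  rw [Finset.prod_congr rfl hterm, Finset.prod_ite, Finset.prod_const, Finset.prod_const]
  have h1 : ((Finset.univ.erase v).filter (· ∈ S)) = S := by
    ext w; simp only [Finset.mem_filter, Finset.mem_erase, Finset.mem_univ, and_true]
    exact ⟨fun h => h.2, fun h => ⟨fun e => hv (e ▸ h), h⟩⟩
  have h2 : ((Finset.univ.erase v).filter (· ∉ S)).card = Fintype.card V - 1 - S.card := by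
    have := Finset.card_filter_add_card_filter_not (s := Finset.univ.erase v) (· ∈ S)
    rw [h1, Finset.card_erase_of_mem (Finset.mem_univ _), Finset.card_univ] at this
    omega
  rw [h1, h2, ENNReal.ofReal_mul (pow_nonneg p.2.1 _), ENNReal.ofReal_pow p.2.1,
    ENNReal.ofReal_pow (sub_nonneg.2 p.2.2)]

/-- Probability that some vertex has at most two neighbours. -/
lemma lowdeg_le (p : I) (hn : 3 ≤ Fintype.card V) :
    SimpleGraph.binomialRandom V p {G | ∃ v, (G.neighborSet v).ncard ≤ 2} ≤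
      ENNReal.ofReal (Fintype.card V * ((1 + Fintype.card V * (p : ℝ) + (Fintype.card V * (p : ℝ)) ^ 2) *
        (1 - p : ℝ) ^ (Fintype.card V - 3))) := by
  classical
  set n := Fintype.card V with hnd
  have hp0 := p.2.1
  have hp1 : 0 ≤ 1 - (p : ℝ) := sub_nonneg.2 p.2.2
  have hp2 : 1 - (p : ℝ) ≤ 1 := by linarith
  have hsub : {G : SimpleGraph V | ∃ v, (G.neighborSet v).ncard ≤ 2} ⊆
      ⋃ v ∈ (Finset.univ : Finset V), ⋃ j ∈ Finset.range 3,
        ⋃ S ∈ (Finset.univ.erase v).powersetCard j, {G | ∀ w, G.Adj v w ↔ w ∈ S} := by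
    rintro G ⟨v, hv⟩
    simp only [Set.mem_iUnion]
    refine ⟨v, Finset.mem_univ _, (G.neighborFinset v).card, ?_, G.neighborFinset v, ?_, ?_⟩
    · rw [Finset.mem_range]
      have : (G.neighborSet v).ncard = (G.neighborFinset v).card := by
        rw [← Set.ncard_coe_finset, SimpleGraph.coe_neighborFinset]
      omega
    · rw [Finset.mem_powersetCard]
      refine ⟨fun w hw => ?_, rfl⟩
      rw [SimpleGraph.mem_neighborFinset] at hw
      simp [hw.ne']
    · intro w; simp
  refine (measure_mono hsub).trans ((measure_biUnion_finset_le _ _).trans ?_)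
  have hv : ∀ v ∈ (Finset.univ : Finset V), SimpleGraph.binomialRandom V p
      (⋃ j ∈ Finset.range 3,
        ⋃ S ∈ (Finset.univ.erase v).powersetCard j, {G | ∀ w, G.Adj v w ↔ w ∈ S}) ≤
      ENNReal.ofReal ((1 + n * (p : ℝ) + (n * (p : ℝ)) ^ 2) * (1 - p : ℝ) ^ (n - 3)) := by
    intro v _
    refine (measure_biUnion_finset_le _ _).trans ?_
    have hj : ∀ j ∈ Finset.range 3, SimpleGraph.binomialRandom V p
        (⋃ S ∈ (Finset.univ.erase v).powersetCard j, {G | ∀ w, G.Adj v w ↔ w ∈ S}) ≤
        ENNReal.ofReal ((n * (p : ℝ)) ^ j * (1 - p : ℝ) ^ (n - 3)) := by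
      intro j hj
      rw [Finset.mem_range] at hj
      refine (measure_biUnion_finset_le _ _).trans ?_
      have hS : ∀ S ∈ (Finset.univ.erase v).powersetCard j,
          SimpleGraph.binomialRandom V p {G | ∀ w, G.Adj v w ↔ w ∈ S} ≤
          ENNReal.ofReal ((p : ℝ) ^ j * (1 - p : ℝ) ^ (n - 3)) := by
        intro S hS
        rw [Finset.mem_powersetCard] at hS
        refine (nbr_le p v S (fun h => by simpa using hS.1 h)).trans ?_
        rw [hS.2]
        refine ENNReal.ofReal_le_ofReal (mul_le_mul_of_nonneg_left ?_ (pow_nonneg hp0 _))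
        exact pow_le_pow_of_le_one hp1 hp2 (by omega)
      refine (Finset.sum_le_card_nsmul _ _ _ hS).trans ?_
      rw [Finset.card_powersetCard, Finset.card_erase_of_mem (Finset.mem_univ _), Finset.card_univ,
        nsmul_eq_mul, ← ENNReal.ofReal_natCast, ← ENNReal.ofReal_mul (Nat.cast_nonneg _)]
      refine ENNReal.ofReal_le_ofReal ?_
      rw [← mul_assoc, mul_pow]
      refine mul_le_mul_of_nonneg_right (mul_le_mul_of_nonneg_right ?_ (pow_nonneg hp0 _))
        (pow_nonneg hp1 _)
      have : (n - 1).choose j ≤ n ^ j :=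
        (Nat.choose_le_pow _ _).trans (Nat.pow_le_pow_left (Nat.sub_le _ _) _)
      exact_mod_cast this
    refine (Finset.sum_le_sum hj).trans ?_
    rw [← ENNReal.ofReal_sum_of_nonneg (fun j _ => by positivity)]
    refine ENNReal.ofReal_le_ofReal (le_of_eq ?_)
    simp [Finset.sum_range_succ]; ring
  refine (Finset.sum_le_card_nsmul _ _ _ hv).trans ?_
  rw [Finset.card_univ, nsmul_eq_mul, ← ENNReal.ofReal_natCast,
    ← ENNReal.ofReal_mul (Nat.cast_nonneg _)]

end Pool.Agent.H45.Gnp
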