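import Mathlib

open Complex Filter Topology Set

namespace Pool.Agent.H45.Greedy

/-- passing from the rotating frame to the original walk -/
lemma frame (α : ℝ) (u : ℕ → ℂ) (ε : ℕ → ℝ) (h1 : ∀ n, ε n = 1 ∨ ε n = -1)
    (h2 : ∀ n, u (n + 1) = exp (-(2 * Real.pi * α * I)) * (u n + ε n)) (h3 : ∀ n, ε n * (u n).re < 0) :
    ∃ z : ℕ → ℂ, ∀ n, (ε n = 1 ∨ ε n = -1) ∧ z (n + 1) = z n + ε n * exp (2 * Real.pi * I * α * n) ∧
      ‖z n + ε n * exp (2 * Real.pi * I * α * n)‖ < ‖z n - ε n * exp (2 * Real.pi * I * α * n)‖ := by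
  refine ⟨fun n => u n * exp (2 * Real.pi * I * α * n), fun n => ⟨h1 n, ?_, ?_⟩⟩
  · simp only [h2]
    rw [← add_mul, mul_right_comm, ← exp_add, mul_comm]; push_cast; ring_nf
  · simp only [← add_mul, ← sub_mul, norm_mul]
    refine mul_lt_mul_of_pos_right ?_ (norm_pos_iff.2 (exp_ne_zero _))
    rw [← sq_lt_sq₀ (norm_nonneg _) (norm_nonneg _), Complex.sq_norm, Complex.sq_norm]
    simp [normSq_apply]
    nlinarith [h3 n]

/-- the special angle -/
noncomputable def a0 : ℝ := Real.arccos (-2 / 3) / (2 * Real.pi)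

lemma a0_eq : 2 * Real.pi * a0 = Real.arccos (-2 / 3) := by unfold a0; field_simp

lemma a0_cos : Real.cos (2 * Real.pi * a0) = -2 / 3 := by rw [a0_eq, Real.cos_arccos] <;> norm_num

lemma a0_sin : Real.sin (2 * Real.pi * a0) = √5 / 3 := by
  rw [a0_eq, Real.sin_arccos, show (1 : ℝ) - (-2 / 3) ^ 2 = 5 / 3 ^ 2 by norm_num, Real.sqrt_div' _ (by norm_num),
    Real.sqrt_sq (by norm_num)]

lemma a0_pos : 0 < a0 := div_pos (Real.arccos_pos.2 (by norm_num)) (by positivity)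

lemma a0_irr : Irrational a0 := fun ⟨q, h⟩ => by
  have := niven (θ := 2 * Real.pi * a0) ⟨2 * q, by rw [← h]; push_cast; ring⟩ ⟨-2 / 3, by rw [a0_cos]; norm_num⟩
  rw [a0_cos] at this
  norm_num at this

lemma approx {α : ℝ} (h : Irrational α) (θ : ℝ) {η : ℝ} (η0 : 0 < η) (M : ℕ) :
    ∃ m ≥ M, ∃ k : ℤ, |m * α - θ - k| < η := by
  have d : DenseRange (· • (α : AddCircle (1 : ℝ)) : ℤ → _) := AddCircle.denseRange_zsmul_coe_iff.2 (by simpa)
  have := ((mapClusterPt_atTop_nsmul_tfae (θ : AddCircle (1 : ℝ)) α).out 3 0).1 (d _)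
  obtain ⟨m, hm, e⟩ := frequently_atTop.1 (this.frequently (Metric.ball_mem_nhds _ η0)) M
  refine ⟨m, hm, round (m * α - θ), ?_⟩
  rw [dist_eq_norm, ← AddCircle.coe_nsmul, ← AddCircle.coe_sub, UnitAddCircle.norm_eq, nsmul_eq_mul] at e
  exact e

end Pool.Agent.H45.Greedy
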