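import Pool.Agent.H45.Kolm

set_option maxHeartbeats 400000

open Classical MeasureTheory ProbabilityTheory

namespace Pool.Agent.H45.Kolm

section
variable {K : Type} [Fintype K]

omit [Fintype K] in
lemma dep_cons {n : ℕ} {A : Set (Fin (n + 1))} {f : (Fin (n + 1) → K) → ℝ} (hf : DependsOn f A)
    (a : K) : DependsOn (fun x : Fin n → K => f (Fin.cons a x)) (Fin.succ ⁻¹' A) :=
  fun _ _ h => hf fun i hi => by cases i using Fin.cases; exacts [rfl, h _ hi]

omit [Fintype K] in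
lemma dep_cons' {n : ℕ} {A : Set (Fin (n + 1))} {f : (Fin (n + 1) → K) → ℝ} (hf : DependsOn f A)
    (h : 0 ∉ A) (a₀ a : K) (x : Fin n → K) : f (Fin.cons a x) = f (Fin.cons a₀ x) :=
  hf fun i hi => by cases i using Fin.cases; exacts [absurd hi h, rfl]

variable {P : List K → ℝ} (hP : Cons P)
  (h1 : ∀ u v, ∑ a, ∑ b, P (u ++ a :: b :: v) = P u * P v) (a₀ : K)

include hP h1 a₀ in
lemma path_ind2 (N : ℕ) : ∀ (A B : Set (Fin N)) (f g : (Fin N → K) → ℝ) (u : List K),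
    (∀ a ∈ A, ∀ b ∈ B, 2 < |(a.1 : ℤ) - b.1|) → DependsOn f A → DependsOn g B →
    (∀ i ∈ B, 2 ≤ i.1) → ∑ x, P (u ++ List.ofFn x) * (f x * g x) =
      (∑ x, P (u ++ List.ofFn x) * f x) * ∑ x, P (List.ofFn x) * g x := by
  induction N using Nat.strong_induction_on with
  | _ N ih =>
  intro A B f g u hs hf hg hB
  have sh : ∀ {n : ℕ} {A B : Set (Fin (n + 1))}, (∀ a ∈ A, ∀ b ∈ B, 2 < |(a.1 : ℤ) - b.1|) →
      ∀ a ∈ Fin.succ ⁻¹' A, ∀ b ∈ Fin.succ ⁻¹' B, 2 < |(a.1 : ℤ) - b.1| :=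
    fun hs a ha b hb => by simpa using hs _ ha _ hb
  rcases N with _ | N
  · simp [hP.nil, mul_assoc]
  have hB' : 0 ∉ B := fun h => by simpa using hB 0 h
  simp only [sum_cons, List.ofFn_cons, dep_cons' hg hB' a₀]
  rw [Finset.sum_comm (f := fun a x => P (a :: _) * _)]
  simp only [← Finset.sum_mul, hP.left]
  by_cases h3 : ∀ i ∈ B, 3 ≤ i.1
  · rw [Finset.sum_mul]
    refine Finset.sum_congr rfl fun a _ => ?_
    simpa using ih N (by omega) _ _ _ _ (u ++ [a]) (sh hs) (dep_cons hf a) (dep_cons hg a₀)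
      fun i hi => by simpa using h3 _ hi
  push Not at h3
  obtain ⟨j, hj, hj3⟩ := h3
  have hj2 := hB j hj
  have hA : ∀ i ∈ A, 5 ≤ i.1 := fun i hi => by
    have := hs i hi j hj
    rw [lt_abs] at this; omega
  rcases N with _ | N
  · omega
  have hA0 : 0 ∉ A := fun h => by simpa using hA 0 h
  have hA1 : 0 ∉ Fin.succ ⁻¹' A := fun h => by simpa using hA _ h
  have hB1 : 0 ∉ Fin.succ ⁻¹' B := fun h => by simpa using hB _ h
  simp only [dep_cons' hf hA0 a₀]
  simp only [sum_cons, List.ofFn_cons, dep_cons' (dep_cons hf a₀) hA1 a₀,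
    dep_cons' (dep_cons hg a₀) hB1 a₀]
  rw [Finset.sum_comm (f := fun a x => P (a :: _) * _)]
  have e : ∀ F : (Fin N → K) → ℝ, ∑ a, ∑ b, ∑ x, P (u ++ a :: b :: List.ofFn x) * F x =
      P u * ∑ x, P (List.ofFn x) * F x := fun F => by
    simp only [Finset.mul_sum, ← mul_assoc, ← h1, Finset.sum_mul]
    exact ((Finset.sum_comm).trans (Finset.sum_congr rfl fun a _ => Finset.sum_comm)).symm
  simp only [← Finset.sum_mul, hP.left, e, mul_assoc]
  congr 1
  have := ih N (by omega) _ _ _ _ [] (fun b hb a ha => by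
    rw [abs_sub_comm]; exact sh (sh hs) a ha b hb)
    (dep_cons (dep_cons hg a₀) a₀) (dep_cons (dep_cons hf a₀) a₀) fun i hi => by
      have := hA _ hi; simp at this; omega
  simpa [mul_comm] using this

include hP h1 a₀ in
lemma path_ind2' (N : ℕ) (A B : Set (Fin N)) (f g : (Fin N → K) → ℝ)
    (hs : ∀ a ∈ A, ∀ b ∈ B, 2 < |(a.1 : ℤ) - b.1|) (hf : DependsOn f A) (hg : DependsOn g B) :
    ∑ x, P (List.ofFn x) * (f x * g x) =
      (∑ x, P (List.ofFn x) * f x) * ∑ x, P (List.ofFn x) * g x := by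
  by_cases h : ∀ i ∈ B, 2 ≤ i.1
  · exact path_ind2 hP h1 a₀ N A B f g [] hs hf hg h
  push Not at h
  obtain ⟨j, hj, hj2⟩ := h
  have := path_ind2 hP h1 a₀ N B A g f [] (fun b hb a ha => by
    rw [abs_sub_comm]; exact hs a ha b hb) hg hf fun i hi => by
      have := hs i hi j hj
      rw [lt_abs] at this; omega
  simpa [mul_comm] using this
end

noncomputable def step (a : Bool) (x : ℝ × ℝ × ℝ) : ℝ × ℝ × ℝ :=
  if a then (0, 71 / 200 * x.1 + 91 / 200 * x.2.2, 0)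
  else (x.1 + x.2.2, -(71 / 200 * x.1 + 91 / 200 * x.2.2), x.2.1)

noncomputable def ev : List Bool → ℝ × ℝ × ℝ → ℝ
  | [], x => x.1 + x.2.1 + x.2.2
  | a :: v, x => ev v (step a x)

lemma ev_lin (v : List Bool) : ∃ a b c : ℝ, ∀ x, ev v x = a * x.1 + b * x.2.1 + c * x.2.2 := by
  induction v with
  | nil => exact ⟨1, 1, 1, fun x => by simp [ev]⟩
  | cons d v ih =>
    obtain ⟨a, b, c, h⟩ := ih
    cases d
    · exact ⟨a - 71 / 200 * b, c, a - 91 / 200 * b, fun x => by simp [ev, h, step]; ring⟩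
    · exact ⟨71 / 200 * b, 0, 91 / 200 * b, fun x => by simp [ev, h, step]; ring⟩

lemma ev_app (u w : List Bool) (x) : ev (u ++ w) x = ev w (u.foldl (fun x a => step a x) x) := by
  induction u generalizing x with
  | nil => rfl
  | cons a u ih => exact ih _

def Good (x : ℝ × ℝ × ℝ) : Prop :=
  0 ≤ 71 / 200 * x.1 + 91 / 200 * x.2.2 ∧
  0 ≤ 71 / 200 * x.1 + 91 / 200 * x.2.1 + 71 / 200 * x.2.2 ∧
  0 ≤ 7739 / 40000 * x.1 + 71 / 200 * x.2.1 + 5919 / 40000 * x.2.2 ∧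
  0 ≤ 1349 / 20000 * x.1 + 5919 / 40000 * x.2.1 + 639 / 20000 * x.2.2 ∧
  0 ≤ 119351 / 8000000 * x.1 + 639 / 20000 * x.2.1 + 971 / 8000000 * x.2.2 ∧
  0 ≤ 28613 / 8000000 * x.1 + 971 / 8000000 * x.2.1 + 3053 / 8000000 * x.2.2

lemma ev_nonneg (v : List Bool) : ∀ x, Good x → 0 ≤ ev v x := by
  induction v with
  | nil => rintro x ⟨h0, h1, h2, h3, h4, h5⟩; simp only [ev]; linarith
  | cons d v ih =>
    rintro x ⟨h0, h1, h2, h3, h4, h5⟩
    refine ih _ ?_
    cases d <;> simp only [step, Good, Bool.false_eq_true, if_true, if_false] <;>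
      refine ⟨?_, ?_, ?_, ?_, ?_, ?_⟩ <;> linarith

noncomputable def P (l : List Bool) : ℝ := ev l (1, 0, 0)

lemma P_cons : Cons P where
  nil := by simp [P, ev]
  nonneg l := ev_nonneg l _ (by norm_num [Good])
  left l := by
    obtain ⟨a, b, c, h⟩ := ev_lin l
    simp [P, ev, h, step]
  right l := by
    have := ev_app l [] (1, 0, 0)
    simp only [List.append_nil] at this
    simp [P, ev_app, this, ev, step]; ring

lemma P_two (u v : List Bool) : ∑ a, ∑ b, P (u ++ a :: b :: v) = P u * P v := by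
  obtain ⟨a, b, c, h⟩ := ev_lin v
  have := ev_app u [] (1, 0, 0)
  simp only [List.append_nil] at this
  simp [P, ev_app, this, ev, step, h]; ring

end Pool.Agent.H45.Kolm
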