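import Pool.Agent.H45.HaarDefs

open MeasureTheory Filter Topology Complex
open scoped ComplexConjugate

namespace Pool.Agent.H45.Haar

instance (n : ℕ) : IsProbabilityMeasure (haar n) :=
  ⟨by simpa [haar] using Measure.haarMeasure_self (K₀ := (⊤ : TopologicalSpace.PositiveCompacts (U n)))⟩

instance (n : ℕ) : (haar n).IsMulLeftInvariant := by unfold haar; infer_instance

lemma integrable_of_cont {n : ℕ} {F : U n → ℂ} (h : Continuous F) : Integrable F (haar n) :=
  h.integrable_of_hasCompactSupport (HasCompactSupport.of_compactSpace _)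

lemma hasDerivAt_int {n : ℕ} (F F' : ℂ → U n → ℂ) (hF : ∀ z, Continuous (F z))
    (hF' : Continuous fun p : ℂ × U n => F' p.1 p.2)
    (h : ∀ z V, HasDerivAt (fun z => F z V) (F' z V) z) (z₀ : ℂ) :
    HasDerivAt (fun z => ∫ V, F z V ∂haar n) (∫ V, F' z₀ V ∂haar n) z₀ := by
  obtain ⟨C, hC⟩ := ((isCompact_closedBall z₀ 1).prod (isCompact_univ (X := U n))).exists_bound_of_continuousOn hF'.continuousOn
  refine (hasDerivAt_integral_of_dominated_loc_of_deriv_le (bound := fun _ => C)
    (Metric.closedBall_mem_nhds z₀ one_pos)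
    (Eventually.of_forall fun z => (hF z).aestronglyMeasurable) (integrable_of_cont (hF _))
    (hF'.comp (Continuous.prodMk_right z₀)).aestronglyMeasurable
    (Eventually.of_forall fun V z hz => hC (z, V) ⟨hz, trivial⟩) (integrable_const _)
    (Eventually.of_forall fun V z _ => h z V)).2

@[fun_prop] lemma cont_entry {n : ℕ} {X : Type} [TopologicalSpace X] {g : X → U n}
    (hg : Continuous g) (i j : Fin n) : Continuous fun x => (g x).1 i j :=
  (continuous_subtype_val.comp hg).matrix_elem i j

/-- Householder reflection. -/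
noncomputable def house {n : ℕ} (w : Fin n → ℂ) (hw : star w ⬝ᵥ w = 1) : U n :=
  ⟨1 - (2 : ℂ) • Matrix.vecMulVec w (star w), by
    rw [Matrix.mem_unitaryGroup_iff]
    have h1 : star (1 - (2 : ℂ) • Matrix.vecMulVec w (star w)) =
        1 - (2 : ℂ) • Matrix.vecMulVec w (star w) := by
      simp [Matrix.star_eq_conjTranspose, Matrix.conjTranspose_vecMulVec]
    rw [h1]
    simp only [sub_mul, mul_sub, one_mul, mul_one, smul_mul_assoc, mul_smul_comm,
      Matrix.vecMulVec_mul_vecMulVec, hw, one_smul]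
    module⟩

lemma house_mul {n : ℕ} (w : Fin n → ℂ) (hw : star w ⬝ᵥ w = 1) (V : U n) (i k : Fin n) :
    (house w hw * V).1 i k = V.1 i k - 2 * w i * ∑ l, conj (w l) * V.1 l k := by
  change ((1 - (2 : ℂ) • Matrix.vecMulVec w (star w)) * V.1) i k = _
  rw [sub_mul, one_mul]
  simp [Matrix.mul_apply, Matrix.vecMulVec_apply, Finset.mul_sum, mul_assoc]

variable {N : ℕ}

/-- `|U₀₀|²` as a complex number. -/
noncomputable def A (V : U (N + 1)) : ℂ := V.1 0 0 * conj (V.1 0 0)

@[fun_prop] lemma cont_A : Continuous (A (N := N)) := by unfold A; fun_prop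

lemma rot (j : Fin N) (ω : ℂ) (hω : ω * conj ω = 1) (w : ℂ) :
    ∫ V : U (N + 1), (ω * (V.1 j.succ 0 * conj (V.1 j.succ 0) - A V +
      w * A V * (V.1 j.succ 0 * conj (V.1 j.succ 0))) +
      w * conj ω * (conj (V.1 0 0) * V.1 j.succ 0) ^ 2) * exp (w * A V) ∂haar (N + 1) = 0 := by
  set x : ℂ → U (N + 1) → ℂ := fun r V =>
    cos (2 * r) * V.1 0 0 - sin (2 * r) * conj ω * V.1 j.succ 0 with hx
  set x' : ℂ → U (N + 1) → ℂ := fun r V =>
    -sin (2 * r) * 2 * V.1 0 0 - cos (2 * r) * 2 * conj ω * V.1 j.succ 0 with hx'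
  set b : ℂ → U (N + 1) → ℂ := fun r V =>
    cos (2 * r) * conj (V.1 0 0) - sin (2 * r) * ω * conj (V.1 j.succ 0) with hb
  set b' : ℂ → U (N + 1) → ℂ := fun r V =>
    -sin (2 * r) * 2 * conj (V.1 0 0) - cos (2 * r) * 2 * ω * conj (V.1 j.succ 0) with hb'
  set y : ℂ → U (N + 1) → ℂ := fun r V =>
    -(sin (2 * r) * ω * V.1 0 0) - cos (2 * r) * V.1 j.succ 0 with hy
  set y' : ℂ → U (N + 1) → ℂ := fun r V =>
    -(cos (2 * r) * 2 * ω * V.1 0 0) - -sin (2 * r) * 2 * V.1 j.succ 0 with hy'
  have hc : ∀ r : ℂ, HasDerivAt (fun r => cos (2 * r)) (-sin (2 * r) * 2) r := fun r => by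
    simpa using ((hasDerivAt_id r).const_mul 2).ccos
  have hs : ∀ r : ℂ, HasDerivAt (fun r => sin (2 * r)) (cos (2 * r) * 2) r := fun r => by
    simpa using ((hasDerivAt_id r).const_mul 2).csin
  have hd := hasDerivAt_int (fun r V => b r V * y r V * exp (w * (x r V * b r V)))
    (fun r V => (b' r V * y r V + b r V * y' r V) * exp (w * (x r V * b r V)) +
      b r V * y r V * (exp (w * (x r V * b r V)) * (w * (x' r V * b r V + x r V * b' r V))))
    (fun r => by simp only [hx, hb, hy]; fun_prop)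
    (by
      have c1 : Continuous fun p : ℂ × U (N + 1) => x p.1 p.2 := by simp only [hx]; fun_prop
      have c2 : Continuous fun p : ℂ × U (N + 1) => x' p.1 p.2 := by simp only [hx']; fun_prop
      have c3 : Continuous fun p : ℂ × U (N + 1) => b p.1 p.2 := by simp only [hb]; fun_prop
      have c4 : Continuous fun p : ℂ × U (N + 1) => b' p.1 p.2 := by simp only [hb']; fun_prop
      have c5 : Continuous fun p : ℂ × U (N + 1) => y p.1 p.2 := by simp only [hy]; fun_prop
      have c6 : Continuous fun p : ℂ × U (N + 1) => y' p.1 p.2 := by simp only [hy']; fun_prop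
      have c7 := (continuous_const (y := w).mul (c1.mul c3)).cexp
      exact (((c4.mul c5).add (c3.mul c6)).mul c7).add ((c3.mul c5).mul (c7.mul
        (continuous_const.mul ((c2.mul c3).add (c1.mul c4))))))
    (fun r V => by
      have h1 : HasDerivAt (fun r => x r V) (x' r V) r :=
        ((hc r).mul_const _).sub (((hs r).mul_const _).mul_const _)
      have h2 : HasDerivAt (fun r => b r V) (b' r V) r :=
        ((hc r).mul_const _).sub (((hs r).mul_const _).mul_const _)
      have h3 : HasDerivAt (fun r => y r V) (y' r V) r :=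
        (((hs r).mul_const _).mul_const _).neg.sub ((hc r).mul_const _)
      exact (h2.mul h3).mul ((h1.mul h2).const_mul w).cexp) 0
  have hconst : ∀ r : ℝ, ∫ V, b r V * y r V * exp (w * (x r V * b r V)) ∂haar (N + 1) =
      ∫ V : U (N + 1), conj (V.1 0 0) * V.1 j.succ 0 * exp (w * A V) ∂haar (N + 1) := by
    intro r
    set v : Fin (N + 1) → ℂ := Pi.single 0 (sin r) + Pi.single j.succ (cos r * ω) with hv
    have hv0 : v 0 = sin r := by simp [hv, (Fin.succ_ne_zero j).symm]
    have hvj : v j.succ = cos r * ω := by simp [hv]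
    have hsum : ∀ g : Fin (N + 1) → ℂ, ∑ l, conj (v l) * g l =
        sin r * g 0 + cos r * conj ω * g j.succ := fun g => by
      simp only [hv, Pi.add_apply, map_add, add_mul, Finset.sum_add_distrib, Pi.single_apply,
        apply_ite conj, map_zero, ite_mul, zero_mul, Finset.sum_ite_eq', Finset.mem_univ, if_true,
        map_mul, ← ofReal_sin, ← ofReal_cos, conj_ofReal]
    have hw : star v ⬝ᵥ v = 1 := by
      change ∑ l, conj (v l) * v l = 1
      rw [hsum, hv0, hvj]
      linear_combination (sin_sq_add_cos_sq (r : ℂ)) + cos (r : ℂ) ^ 2 * hω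
    symm
    rw [← integral_mul_left_eq_self _ (house v hw)]
    refine integral_congr_ae (Eventually.of_forall fun V => ?_)
    have e1 : (house v hw * V).1 0 0 = x r V := by
      rw [house_mul, hsum, hv0, hx]
      simp only [cos_two_mul, sin_two_mul]
      linear_combination (-2 * V.1 0 0) * (sin_sq_add_cos_sq (r : ℂ))
    have e2 : (house v hw * V).1 j.succ 0 = y r V := by
      rw [house_mul, hsum, hvj, hy]
      simp only [cos_two_mul, sin_two_mul]
      linear_combination (-2 * cos (r : ℂ) ^ 2 * V.1 j.succ 0) * hω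
    have e3 : conj (x r V) = b r V := by
      simp only [hx, hb, map_sub, map_mul, conj_conj, ← cos_conj, ← sin_conj, conj_ofReal, map_ofNat]
    simp only [A, e1, e2, e3]
  have h0 : HasDerivAt (fun r : ℝ => ∫ V, b r V * y r V * exp (w * (x r V * b r V)) ∂haar (N + 1))
      _ 0 := HasDerivAt.comp_ofReal (z := 0) (by simpa using hd)
  simp only [hconst] at h0
  have h1 := h0.unique (hasDerivAt_const _ _)
  rw [← mul_right_inj' (two_ne_zero' ℂ), mul_zero, ← integral_const_mul, ← h1]
  refine integral_congr_ae (Eventually.of_forall fun V => ?_)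
  simp [hx, hb, hy, hx', hb', hy', A]
  ring

lemma col (V : U (N + 1)) : ∑ j : Fin N, V.1 j.succ 0 * conj (V.1 j.succ 0) = 1 - A V := by
  have := congrFun (congrFun (Matrix.mem_unitaryGroup_iff'.1 V.2) 0) 0
  simp only [Matrix.mul_apply, Matrix.star_apply, Fin.sum_univ_succ, Matrix.one_apply_eq,
    RCLike.star_def] at this
  rw [A, ← this]
  simp [mul_comm]

/-- `φ_k(w) = E[A^k e^{wA}]`. -/
noncomputable def φ (N k : ℕ) (w : ℂ) : ℂ := ∫ V : U (N + 1), A V ^ k * exp (w * A V) ∂haar (N + 1)

lemma φ_deriv (k : ℕ) (w : ℂ) : HasDerivAt (φ N k) (φ N (k + 1) w) w :=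
  hasDerivAt_int (fun w V => A V ^ k * exp (w * A V)) (fun w V => A V ^ (k + 1) * exp (w * A V))
    (fun _ => by fun_prop) (by fun_prop) (fun w V => by
      refine ((((hasDerivAt_id w).mul_const (A V)).cexp).const_mul (A V ^ k)).congr_deriv ?_
      simp; ring) w

lemma ode (w : ℂ) : φ N 0 w - (N + 1) * φ N 1 w + w * φ N 1 w - w * φ N 2 w = 0 := by
  have h : ∀ j : Fin N, ∫ V : U (N + 1), (V.1 j.succ 0 * conj (V.1 j.succ 0) - A V +
      w * A V * (V.1 j.succ 0 * conj (V.1 j.succ 0))) * exp (w * A V) ∂haar (N + 1) = 0 := by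
    intro j
    have h1 := rot j 1 (by simp) w
    have h2 := rot j I (by simp) w
    have h3 : (2 : ℂ) * ∫ V : U (N + 1), (V.1 j.succ 0 * conj (V.1 j.succ 0) - A V +
      w * A V * (V.1 j.succ 0 * conj (V.1 j.succ 0))) * exp (w * A V) ∂haar (N + 1) = 0 - I * 0 := by
      conv_rhs => rw [← h1]; arg 2; arg 2; rw [h1, ← h2]
      rw [← integral_const_mul, ← integral_const_mul, ← integral_sub
        (integrable_of_cont (by fun_prop)) (integrable_of_cont (by fun_prop))]
      refine integral_congr_ae (Eventually.of_forall fun V => ?_)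
      simp only [conj_I, map_one]
      linear_combination (exp (w * A V) * ((V.1 j.succ 0 * conj (V.1 j.succ 0) - A V +
        w * A V * (V.1 j.succ 0 * conj (V.1 j.succ 0))) -
          w * (conj (V.1 0 0) * V.1 j.succ 0) ^ 2)) * I_mul_I
    simpa using h3
  have h2 := Finset.sum_eq_zero (s := Finset.univ) fun j _ => h j
  rw [← integral_finsetSum _ (fun j _ => integrable_of_cont (by fun_prop))] at h2
  rw [← h2]
  simp only [φ, ← integral_const_mul]
  rw [← integral_sub, ← integral_add, ← integral_sub]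
  · refine integral_congr_ae (Eventually.of_forall fun V => ?_)
    simp only [← Finset.sum_mul, Finset.sum_add_distrib, Finset.sum_sub_distrib, ← Finset.mul_sum,
      col, Finset.sum_const, Finset.card_univ, Fintype.card_fin, nsmul_eq_mul]
    ring
  all_goals exact integrable_of_cont (by fun_prop)

lemma ode1 (w : ℂ) : w * φ N 1 w + (N - w) * φ N 0 w = N := by
  have h : ∀ w, HasDerivAt (fun w => w * φ N 1 w + (N - w) * φ N 0 w) 0 w := fun w => by
    refine (((hasDerivAt_id w).mul (φ_deriv 1 w)).add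
      (((hasDerivAt_id w).const_sub (N : ℂ)).mul (φ_deriv 0 w))).congr_deriv ?_
    simp only [id]
    linear_combination -ode (N := N) w
  have := is_const_of_deriv_eq_zero (fun w => (h w).differentiableAt) (fun w => (h w).deriv) w 0
  simpa [φ] using this

/-- Truncated exponential series. -/
noncomputable def T (N : ℕ) (w : ℂ) : ℂ := ∑ k ∈ Finset.range N, w ^ k / k.factorial

lemma T_deriv (M : ℕ) (w : ℂ) : HasDerivAt (T (M + 1)) (T M w) w := by
  induction M with
  | zero =>
    have : T 1 = fun _ => 1 := by funext w; simp [T]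
    rw [this]; simpa [T] using hasDerivAt_const w (1 : ℂ)
  | succ M ih =>
    have : T (M + 2) = fun w => T (M + 1) w + w ^ (M + 1) / (M + 1).factorial := by
      funext w; rw [T, Finset.sum_range_succ]; rfl
    rw [this]
    refine (ih.add ((hasDerivAt_pow (M + 1) w).div_const ((M + 1).factorial : ℂ))).congr_deriv ?_
    rw [T, T, Finset.sum_range_succ, Nat.factorial_succ]
    have : ((M : ℂ) + 1) ≠ 0 := by exact_mod_cast M.succ_ne_zero
    have : (M.factorial : ℂ) ≠ 0 := by exact_mod_cast M.factorial_ne_zero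
    congr 1
    push_cast; field_simp

lemma closed (M : ℕ) (w : ℂ) :
    w ^ (M + 1) * φ (M + 1) 0 w = (M + 1).factorial * (exp w - T (M + 1) w) := by
  have h : ∀ w, HasDerivAt (fun w => exp (-w) * (w ^ (M + 1) * φ (M + 1) 0 w +
      (M + 1).factorial * T (M + 1) w)) 0 w := fun w => by
    refine ((hasDerivAt_neg w).cexp.mul (((hasDerivAt_pow (M + 1) w).mul (φ_deriv 0 w)).add
      ((T_deriv M w).const_mul ((M + 1).factorial : ℂ)))).congr_deriv ?_
    have h1 := ode1 (N := M + 1) w
    have h2 : T (M + 1) w = T M w + w ^ M / M.factorial := by rw [T, Finset.sum_range_succ]; rfl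
    have h3 : (M.factorial : ℂ) ≠ 0 := by exact_mod_cast M.factorial_ne_zero
    have h4 : ((M + 1).factorial : ℂ) * (w ^ M / M.factorial) = (M + 1) * w ^ M := by
      rw [Nat.factorial_succ]; push_cast; field_simp
    simp only [Pi.add_apply, Pi.mul_apply, h2, mul_add ((M + 1).factorial : ℂ), h4,
      Nat.add_sub_cancel]
    push_cast at h1 ⊢
    linear_combination (exp (-w) * w ^ M) * h1
  have := is_const_of_deriv_eq_zero (fun w => (h w).differentiableAt) (fun w => (h w).deriv) w 0
  have hT : T (M + 1) 0 = 1 := by simp [T, Finset.sum_range_succ']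
  simp only [neg_zero, exp_zero, hT, ne_eq, Nat.add_eq_zero_iff, one_ne_zero, and_false,
    not_false_eq_true, zero_pow, zero_mul, zero_add, mul_one, one_mul] at this
  have h5 : exp w * exp (-w) = 1 := by rw [← exp_add]; simp
  linear_combination exp w * this - (w ^ (M + 1) * φ (M + 1) 0 w +
      (M + 1).factorial * T (M + 1) w) * h5

lemma φ_big (M : ℕ) (w : ℂ) (h1 : 10 * (M + 2 : ℝ) ≤ w.re) (h2 : ‖w‖ ≤ 11 * (M + 2 : ℝ)) :
    (M : ℝ) + 2 ≤ ‖φ (M + 1) 0 w‖ := by
  have hM : (0 : ℝ) ≤ M := Nat.cast_nonneg _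
  have hf : (0 : ℝ) < (M + 1).factorial := by exact_mod_cast (M + 1).factorial_pos
  set B : ℝ := 11 ^ (M + 1) * Real.exp (M + 2) with hB
  have hk : ∀ k ≤ M + 1, ‖w‖ ^ k / k.factorial ≤ 11 ^ (M + 1) * ((M + 2 : ℝ) ^ k / k.factorial) := by
    intro k hk
    rw [← mul_div_assoc]
    refine div_le_div_of_nonneg_right ?_ (Nat.cast_nonneg _)
    refine (pow_le_pow_left₀ (norm_nonneg _) h2 k).trans ?_
    rw [mul_pow]
    exact mul_le_mul_of_nonneg_right (pow_le_pow_right₀ (by norm_num) hk) (by positivity)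
  have hT : ‖T (M + 1) w‖ ≤ B := by
    refine (norm_sum_le _ _).trans ?_
    refine le_trans (Finset.sum_le_sum fun k h => ?_) (le_trans (Finset.mul_sum _ _ _).ge
      (mul_le_mul_of_nonneg_left (Real.sum_le_exp_of_nonneg (by positivity) (M + 1)) (by positivity)))
    rw [norm_div, norm_pow, Complex.norm_natCast]
    exact hk k (Finset.mem_range.1 h).le
  have hw : ‖w‖ ^ (M + 1) ≤ (M + 1).factorial * B := by
    have := (hk (M + 1) le_rfl).trans (mul_le_mul_of_nonneg_left
      (Real.pow_div_factorial_le_exp _ (by positivity) (M + 1)) (by positivity))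
    rwa [div_le_iff₀' hf] at this
  have hBpos : 0 < B := by positivity
  have he : B * (M + 3) ≤ ‖exp w‖ := by
    rw [norm_exp]
    have e1 : (11 : ℝ) ^ (M + 1) ≤ Real.exp (8 * (M + 2)) := by
      have : (11 : ℝ) ≤ Real.exp 8 := by
        have := Real.add_one_le_exp (4 : ℝ)
        rw [show (8 : ℝ) = 4 + 4 by norm_num, Real.exp_add]; nlinarith
      refine (pow_le_pow_left₀ (by norm_num) this _).trans ?_
      rw [← Real.exp_nat_mul, Real.exp_le_exp]; push_cast; linarith
    have e2 : (M + 3 : ℝ) ≤ Real.exp (M + 2) := by linarith [Real.add_one_le_exp (M + 2 : ℝ)]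
    calc B * (M + 3) ≤ Real.exp (8 * (M + 2)) * Real.exp (M + 2) * Real.exp (M + 2) := by
          rw [hB]; gcongr
      _ ≤ _ := by rw [← Real.exp_add, ← Real.exp_add, Real.exp_le_exp]; linarith
  have h3 := congrArg norm (closed M w)
  rw [norm_mul, norm_mul, norm_pow, Complex.norm_natCast] at h3
  have h4 := norm_sub_norm_le (exp w) (T (M + 1) w)
  have h5 : (M + 1).factorial * B * (M + 2) ≤ (M + 1).factorial * B * ‖φ (M + 1) 0 w‖ := by
    calc _ = (M + 1).factorial * (B * (M + 2)) := by ring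
      _ ≤ (M + 1).factorial * ‖exp w - T (M + 1) w‖ := by gcongr; linarith
      _ ≤ _ := by rw [← h3]; gcongr
  exact le_of_mul_le_mul_left h5 (by positivity)

end Pool.Agent.H45.Haar
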