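import Mathlib

/-! Haar probability measure on `U(n)`, spherical integrals, R-transform. -/

open MeasureTheory Filter Topology

namespace Pool.Agent.H45.Haar

/-- The unitary group `U(n)`. -/
abbrev U (n : ℕ) := Matrix.unitaryGroup (Fin n) ℂ

noncomputable instance (n : ℕ) : MeasurableSpace (U n) := borel _
instance (n : ℕ) : BorelSpace (U n) := ⟨rfl⟩

instance (n : ℕ) : CompactSpace (U n) := by
  refine isCompact_iff_compactSpace.1 (IsCompact.of_isClosed_subset
    (isCompact_univ_pi fun _ : Fin n => isCompact_univ_pi fun _ : Fin n =>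
      isCompact_closedBall (0 : ℂ) 1) isClosed_unitary fun A hA i _ j _ => ?_)
  simpa using entry_norm_bound_of_unitary hA i j

/-- The Haar probability measure `m_n` on `U(n)` (total mass one). -/
noncomputable def haar (n : ℕ) : Measure (U n) := Measure.haarMeasure ⊤

/-- `D_n = diag(z,0,…,0)`. -/
noncomputable def D (n : ℕ) (z : ℂ) : Matrix (Fin n) (Fin n) ℂ :=
  Matrix.diagonal fun i => if i.val = 0 then z else 0

/-- The spherical integral `I_n(z,E)`. -/
noncomputable def sph (n : ℕ) (E : Matrix (Fin n) (Fin n) ℂ) (z : ℂ) : ℂ :=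
  ∫ V : U n, Complex.exp (n * (V.1 * D n z * star V.1 * E).trace) ∂haar n

/-- `f_n(z) = ∂_z I_n(z,E) / (n I_n(z,E))`. -/
noncomputable def f (n : ℕ) (E : Matrix (Fin n) (Fin n) ℂ) (z : ℂ) : ℂ :=
  deriv (sph n E) z / (n * sph n E z)

/-- A compactly supported probability measure on `ℝ`. -/
def CompactProb (μ : Measure ℝ) : Prop :=
  IsProbabilityMeasure μ ∧ ∃ C : ℝ, μ (Set.Icc (-C) C)ᶜ = 0

/-- `R` is the R-transform of `μ` near `0`: analytic with `G_μ(R(z)+1/z) = z`. -/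
def IsR (μ : Measure ℝ) (R : ℂ → ℂ) : Prop :=
  AnalyticAt ℂ R 0 ∧ ∀ᶠ z in 𝓝[≠] (0 : ℂ), ∫ x : ℝ, (R z + 1 / z - x)⁻¹ ∂μ = z

/-- `⊞`-infinite divisibility: for each `k ≥ 1` some `ν` has `ν^{⊞k} = μ`, i.e. `R_μ = k R_ν`. -/
def FreeID (μ : Measure ℝ) : Prop :=
  ∀ k : ℕ, 1 ≤ k → ∃ (ν : Measure ℝ) (S : ℂ → ℂ), CompactProb ν ∧ IsR ν S ∧
    IsR μ fun z => k * S z

end Pool.Agent.H45.Haar
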