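import Mathlib

open Set Finset Pointwise

namespace Pool.Agent.H45.Hide

variable {V : Type*} [AddCommGroup V] [Module ℝ V] {p : V → ℝ}

/-- Mazur–Orlicz -/
lemma mo (h1 : ∀ c : ℝ, 0 ≤ c → ∀ x, p (c • x) = c * p x) (h2 : ∀ x y, p (x + y) ≤ p x + p y) {K : Set V}
    (hK : Convex ℝ K) (K0 : K.Nonempty) (h : ∀ k ∈ K, 1 ≤ p k) :
    ∃ l : V →ₗ[ℝ] ℝ, (∀ x, l x ≤ p x) ∧ ∀ k ∈ K, 1 ≤ l k := by
  let A : V → Set ℝ := fun x => {r | ∃ t, 0 ≤ t ∧ ∃ w ∈ t • K, p (x + w) - t ≤ r}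
  obtain ⟨k0, hk⟩ := K0
  have p0 : p 0 = 0 := by simpa using h1 0 le_rfl 0
  have a0 : ∀ x, p x ∈ A x := fun x => ⟨0, le_rfl, _, smul_mem_smul_set hk, by simp⟩
  have lb : ∀ x, -p (-x) ∈ lowerBounds (A x) := fun x r ⟨t, t0, _, ⟨k, hk, rfl⟩, e⟩ => by
    have := h2 (x + t • k) (-x)
    rw [add_neg_cancel_comm, h1 t t0] at this
    simp only at e
    nlinarith [h k hk]
  have hom : ∀ c : ℝ, 0 < c → ∀ x, sInf (A (c • x)) ≤ c * sInf (A x) := fun c c0 x => by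
    rw [← div_le_iff₀' c0]
    refine le_csInf ⟨_, a0 x⟩ fun r ⟨t, t0, _, ⟨k, hk, rfl⟩, e⟩ => (div_le_iff₀' c0).2 (csInf_le ⟨_, lb _⟩
      ⟨c * t, by positivity, _, smul_mem_smul_set hk, ?_⟩)
    rw [mul_smul, ← smul_add, h1 c c0.le]
    simp only at e
    nlinarith
  obtain ⟨l, -, hl⟩ := exists_extension_of_le_sublinear ⟨⊥, 0⟩ (fun x => sInf (A x)) (fun c c0 x => (hom c c0 x).antisymm
    (by have := hom c⁻¹ (inv_pos.2 c0) (c • x); rwa [inv_smul_smul₀ c0.ne', le_inv_mul_iff₀ c0] at this))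
    (fun x y => by
      rw [← sub_le_iff_le_add]
      refine le_csInf ⟨_, a0 x⟩ fun r ⟨t, t0, w, hw, e⟩ => ?_
      rw [sub_le_comm]
      refine le_csInf ⟨_, a0 y⟩ fun r' ⟨t', t0', w', hw', e'⟩ => sub_le_iff_le_add.2 (csInf_le ⟨_, lb _⟩
        ⟨t + t', by positivity, w + w', by rw [hK.add_smul t0 t0']; exact Set.add_mem_add hw hw', ?_⟩)
      have := h2 (x + w) (y + w')
      rw [add_add_add_comm] at this
      linarith)
    fun ⟨x, hx⟩ => by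
      obtain rfl : x = 0 := hx
      simpa [p0] using le_csInf ⟨_, a0 0⟩ (lb 0)
  refine ⟨l, fun x => (hl x).trans (csInf_le ⟨_, lb x⟩ (a0 x)), fun k hk => ?_⟩
  have := (hl (-k)).trans (csInf_le ⟨_, lb _⟩ (⟨1, zero_le_one, k, by simpa, by simp [p0]⟩ : (-1 : ℝ) ∈ A (-k)))
  simpa using this

/-- `y'` cuts a smaller slice of the dual ball than `y` -/
def Lt (p : V → ℝ) (D : Set V) (y' y : V) : Prop :=
  (y' ∈ D ∧ 1 < p y') ∧ ∀ l : V →ₗ[ℝ] ℝ, (∀ x, l x ≤ p x) → 1 ≤ l y' → 1 < l y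

lemma narrow (h0 : ∀ x, 0 ≤ p x) (h1 : ∀ c : ℝ, 0 ≤ c → ∀ x, p (c • x) = c * p x) (h2 : ∀ x y, p (x + y) ≤ p x + p y)
    {D : Set V} (hD : Convex ℝ D) (hC : ∀ c, p c < 1 → c ∈ D) {y : V} (hy : y ∈ D ∧ 1 < p y) (w : V) {ε : ℝ}
    (hε : 0 < ε) : ∃ y', Lt p D y' y ∧ ∀ l l' : V →ₗ[ℝ] ℝ, (∀ x, l x ≤ p x) → (∀ x, l' x ≤ p x) →
      1 ≤ l y' → 1 ≤ l' y' → l w - l' w ≤ ε := by
  set κ := (p y - 1) / 4 with hκ
  have κ0 : 0 < κ := by linarith [hy.2]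
  set M := p w + p (-w) + 1 with hM
  have M0 : 0 < M := by linarith [h0 w, h0 (-w)]
  obtain ⟨n, hn⟩ := exists_nat_gt (2 * M / ε)
  have n0 : (0 : ℝ) < n := lt_trans (by positivity) hn
  set h := κ / (n * M) with hh
  have hp : 0 < h := by positivity
  let φ : ℕ → ℝ := fun k => p (y + (k * h) • w)
  have up : ∀ k, φ (k + 1) - φ k ≤ h * p w := fun k => by
    have := h2 (y + (k * h) • w) (h • w)
    rw [h1 h hp.le, add_assoc, ← add_smul] at this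
    simp only [φ]; push_cast; rw [add_mul, one_mul]; linarith
  have dn : φ 0 - φ 1 ≤ h * p (-w) := by
    have := h2 (y + h • w) (h • -w)
    rw [h1 h hp.le] at this
    simp only [φ]; simp at this ⊢; linarith
  obtain ⟨k, hk, e⟩ := exists_le_of_sum_le (s := range n) (f := fun k => (φ (k + 1 + 1) - φ (k + 1)) - (φ (k + 1) - φ k))
    (g := fun _ => h * M / n) (nonempty_range_iff.2 (by exact_mod_cast n0.ne')) (by
      rw [sum_range_sub fun k => φ (k + 1) - φ k, sum_const, card_range, nsmul_eq_mul, mul_div_cancel₀ _ n0.ne']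
      nlinarith [up n])
  set τ := ((k + 1 : ℕ) : ℝ) * h with hτ
  have τ0 : 0 < τ := by positivity
  have τM : τ * M ≤ κ := by
    have : ((k + 1 : ℕ) : ℝ) ≤ n := by exact_mod_cast mem_range.1 hk
    calc τ * M ≤ n * h * M := by rw [hτ]; gcongr
      _ = κ := by rw [hh]; field_simp
  set z := y + τ • w with hz
  have a1 : τ * p w ≤ κ := by nlinarith [h0 (-w)]
  have a2 : 1 + 3 * κ ≤ p z := by
    have := h2 z (τ • -w)
    rw [h1 τ τ0.le, hz, smul_neg, add_neg_cancel_right] at this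
    nlinarith [h0 w]
  obtain ⟨η, η0, η1, η2⟩ : ∃ η, 0 < η ∧ η ≤ κ ∧ η ≤ h * ε / 4 :=
    ⟨min _ _, lt_min κ0 (by positivity), min_le_left _ _, min_le_right _ _⟩
  set ρ := p z - η with hρ
  have ρ1 : 1 < ρ := by linarith
  have lz : ∀ l : V →ₗ[ℝ] ℝ, 1 ≤ l (ρ⁻¹ • z) → ρ ≤ l z := fun l h => by
    rwa [map_smul, smul_eq_mul, le_inv_mul_iff₀ (by linarith), mul_one] at h
  refine ⟨ρ⁻¹ • z, ⟨⟨?_, ?_⟩, fun l hl h => ?_⟩, fun l l' hl hl' b b' => ?_⟩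
  · have := hD hy.1 (hC ((τ / (ρ - 1)) • w) (by
      rw [h1 _ (div_nonneg τ0.le (by linarith)), div_mul_eq_mul_div, div_lt_one (by linarith)]; linarith))
      (inv_nonneg.2 (by linarith)) (sub_nonneg.2 (inv_le_one_of_one_le₀ ρ1.le)) (add_sub_cancel _ _)
    convert this using 1
    rw [hz, smul_add, smul_smul, smul_smul]
    congr 2
    have : ρ - 1 ≠ 0 := by linarith
    field_simp
  · rw [h1 _ (inv_nonneg.2 (by linarith)), lt_inv_mul_iff₀ (by linarith)]; linarith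
  · have := lz l h
    rw [hz, map_add, map_smul, smul_eq_mul] at this
    nlinarith [hl w]
  · have c := hl (z + h • w)
    have c' := hl' (z - h • w)
    have e1 : p (z + h • w) = φ (k + 1 + 1) := by
      simp only [φ, hz, hτ]; congr 1; push_cast; module
    have e2 : p (z - h • w) = φ k := by
      simp only [φ, hz, hτ]; congr 1; push_cast; module
    have e3 : p z = φ (k + 1) := rfl
    rw [map_add, map_smul, smul_eq_mul] at c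
    rw [map_sub, map_smul, smul_eq_mul] at c'
    have e4 : h * M / n ≤ h * ε / 2 := by
      rw [div_lt_iff₀ hε] at hn
      rw [div_le_iff₀ n0]; nlinarith
    refine le_of_mul_le_mul_left ?_ hp
    linarith [lz l b, lz l' b']

/-- finitely many functionals below `p` are `≥ 1` somewhere at each point of `S` -/
def Pierce (p : V → ℝ) (S : Set V) : Prop :=
  ∃ L : Finset (V →ₗ[ℝ] ℝ), (∀ l ∈ L, ∀ x, l x ≤ p x) ∧ ∀ y ∈ S, ∃ l ∈ L, 1 ≤ l y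

lemma step (h0 : ∀ x, 0 ≤ p x) (h1 : ∀ c : ℝ, 0 ≤ c → ∀ x, p (c • x) = c * p x) (h2 : ∀ x y, p (x + y) ≤ p x + p y)
    {D : Set V} (hD : Convex ℝ D) (hC : ∀ c, p c < 1 → c ∈ D) {S : Set V} (s1 : ∀ y ∈ S, y ∈ D ∧ 1 < p y)
    (s2 : ∀ y ∈ S, ∀ y', Lt p D y' y → y' ∈ S) (s3 : ¬ Pierce p S) :
    ∃ a ∈ S, ¬ Pierce p {y ∈ S | ∀ l : V →ₗ[ℝ] ℝ, (∀ x, l x ≤ p x) → 1 ≤ l a → l y < 1} := by
  classical
  have : ∃ a ∈ S, ∃ b ∈ S, ∃ w, ∃ ε > 0, ∀ l l' : V →ₗ[ℝ] ℝ, (∀ x, l x ≤ p x) → (∀ x, l' x ≤ p x) →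
      1 ≤ l a → 1 ≤ l' b → l w + ε < l' w := by
    by_contra! H
    obtain ⟨a0, ha⟩ := S.eq_empty_or_nonempty.resolve_left fun e => s3 ⟨∅, by simp, by simp [e]⟩
    have fin : ∀ T : Finset V, ↑T ⊆ S → ∃ a ∈ S, ∀ b ∈ T, ∀ l : V →ₗ[ℝ] ℝ, (∀ x, l x ≤ p x) → 1 ≤ l a → 1 ≤ l b := by
      intro T
      induction T using Finset.induction_on with
      | empty => exact fun _ => ⟨a0, ha, by simp⟩
      | insert b T _ ih =>
        intro hT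
        obtain ⟨a, ha, e⟩ := ih (by grind)
        have hb := hT (by simp : b ∈ _)
        have b1 := (s1 b hb).2
        set ρ := (1 + p b) / 2 with hρ
        have ρ1 : 1 < ρ := by linarith
        have lz : ∀ l : V →ₗ[ℝ] ℝ, 1 ≤ l (ρ⁻¹ • b) → ρ ≤ l b := fun l h => by
          rwa [map_smul, smul_eq_mul, le_inv_mul_iff₀ (by linarith), mul_one] at h
        obtain ⟨a', g1, g2⟩ := narrow h0 h1 h2 hD hC (s1 a ha) b (ε := (ρ - 1) / 2) (by linarith)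
        obtain ⟨l1, l', g3, g4, g5, g6, g7⟩ := H a' (s2 a ha a' g1) (ρ⁻¹ • b) (s2 b hb _ ⟨⟨hD.smul_mem_of_zero_mem
          (hC 0 (by simpa using (h1 0 le_rfl 0).trans_lt (by simp))) (s1 b hb).1 ⟨inv_nonneg.2 (by linarith),
          inv_le_one_of_one_le₀ ρ1.le⟩, by rw [h1 _ (inv_nonneg.2 (by linarith)), lt_inv_mul_iff₀ (by linarith)]; linarith⟩,
          fun l _ h => ρ1.trans_le (lz l h)⟩) b ((ρ - 1) / 2) (by linarith)
        refine ⟨a', s2 a ha a' g1, fun c hc l hl h => ?_⟩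
        rcases mem_insert.1 hc with rfl | hc
        · linarith [g2 l1 l g3 hl g5 h, lz l' g6]
        · exact e c hc l hl (g1.2 l hl h).le
    obtain ⟨l, g1, g2⟩ := mo h1 h2 (convex_convexHull ℝ S) ⟨a0, subset_convexHull _ _ ha⟩ fun k hk => by
      rw [convexHull_eq_union_convexHull_finite_subsets] at hk
      simp only [mem_iUnion] at hk
      obtain ⟨T, hT, hk⟩ := hk
      obtain ⟨a, ha, e⟩ := fin T hT
      obtain ⟨l, g1, g2⟩ := mo h1 h2 (convex_singleton a) ⟨a, rfl⟩ (by simpa using (s1 a ha).2.le)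
      exact le_trans (convexHull_min (fun b hb => e b hb l g1 (g2 a rfl)) (convex_halfSpace_ge l.isLinear 1) hk) (g1 k)
    exact s3 ⟨{l}, by simpa, fun y hy => ⟨l, by simp, g2 y (subset_convexHull _ _ hy)⟩⟩
  obtain ⟨a, ha, b, hb, w, ε, ε0, H⟩ := this
  by_contra! G
  obtain ⟨La, a1, a2⟩ := G a ha
  obtain ⟨Lb, b1, b2⟩ := G b hb
  refine s3 ⟨La ∪ Lb, fun l h => (mem_union.1 h).elim (a1 l) (b1 l), fun y hy => ?_⟩
  obtain ⟨y', g1, g2⟩ := narrow h0 h1 h2 hD hC (s1 y hy) w ε0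
  by_cases c : ∀ l : V →ₗ[ℝ] ℝ, (∀ x, l x ≤ p x) → 1 ≤ l a → l y' < 1
  · obtain ⟨l, h, e⟩ := a2 y' ⟨s2 y hy y' g1, c⟩
    exact ⟨l, mem_union_left _ h, (g1.2 l (a1 l h) e).le⟩
  push Not at c
  obtain ⟨l, c1, c2, c3⟩ := c
  obtain ⟨l, h, e⟩ := b2 y' ⟨s2 y hy y' g1, fun l' d1 d2 => by
    by_contra! d3
    linarith [H l l' c1 d1 c2 d2, g2 l' l d1 c1 d3 c3]⟩
  exact ⟨l, mem_union_right _ h, (g1.2 l (b1 l h) e).le⟩

theorem alg (h0 : ∀ x, 0 ≤ p x) (h1 : ∀ c : ℝ, 0 ≤ c → ∀ x, p (c • x) = c * p x) (h2 : ∀ x y, p (x + y) ≤ p x + p y)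
    {D : Set V} (hD : Convex ℝ D) (hC : ∀ c, p c < 1 → c ∈ D) :
    (∃ L : Finset (V →ₗ[ℝ] ℝ), (∀ l ∈ L, ∀ x, l x ≤ p x) ∧ ∀ y ∈ D, 1 < p y → ∃ l ∈ L, 1 < l y) ∨
      ∃ a : ℕ → V, (∀ n, a n ∈ D ∧ 1 < p (a n)) ∧ ∀ m n, m < n → ∃ z ∈ segment ℝ (a m) (a n), p z < 1 := by
  by_cases H : Pierce p {y | y ∈ D ∧ 1 < p y}
  · obtain ⟨L, g1, g2⟩ := H
    refine .inl ⟨L, g1, fun y hy hy' => ?_⟩
    obtain ⟨y', e, -⟩ := narrow h0 h1 h2 hD hC ⟨hy, hy'⟩ 0 one_pos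
    obtain ⟨l, hl, e'⟩ := g2 y' e.1
    exact ⟨l, hl, e.2 l (g1 l hl) e'⟩
  right
  let σ := {S : Set V // (∀ y ∈ S, y ∈ D ∧ 1 < p y) ∧ (∀ y ∈ S, ∀ y', Lt p D y' y → y' ∈ S) ∧ ¬ Pierce p S}
  choose f f1 f2 using fun S : σ => step h0 h1 h2 hD hC S.2.1 S.2.2.1 S.2.2.2
  let g : σ → σ := fun S => ⟨{y ∈ S.1 | ∀ l : V →ₗ[ℝ] ℝ, (∀ x, l x ≤ p x) → 1 ≤ l (f S) → l y < 1},
    fun y hy => S.2.1 y hy.1, fun y hy y' e => ⟨S.2.2.1 y hy.1 y' e, fun l hl a => by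
    by_contra! b
    linarith [e.2 l hl b, hy.2 l hl a]⟩, f2 S⟩
  let s : ℕ → σ := fun n => g^[n] ⟨_, fun _ h => h, fun _ _ _ e => e.1, H⟩
  have e : ∀ n, s (n + 1) = g (s n) := fun n => Function.iterate_succ_apply' _ _ _
  have an : Antitone fun n => (s n).1 := antitone_nat_of_succ_le fun n y hy => by rw [e] at hy; exact hy.1
  refine ⟨fun n => f (s n), fun n => (s n).2.1 _ (f1 _), fun m n h => ?_⟩
  by_contra! G
  obtain ⟨l, g1, g2⟩ := mo h1 h2 (convex_segment _ _) ⟨_, left_mem_segment _ _ _⟩ G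
  have := an (Nat.succ_le_of_lt h) (f1 (s n))
  simp only [Nat.succ_eq_add_one, e] at this
  linarith [this.2 l g1 (g2 _ (left_mem_segment _ _ _)), g2 _ (right_mem_segment _ _ _)]

end Pool.Agent.H45.Hide
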