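import Pool.Agent.H45.ChainDefs

set_option autoImplicit false

namespace Pool.Agent.H45.Chain

open MeasureTheory ProbabilityTheory
open scoped ENNReal

/-- First time `t ≥ 0` at which the path `x` is at `v` (infinite if there is none). -/
noncomputable def hit {V : Type} (v : V) (x : ℕ → V) : ℝ≥0∞ :=
  ⨅ (t : ℕ) (_ : x t = v), (t : ℝ≥0∞)

/-- Expected hitting time `h(u,v)` of `v` for the chain started at `u`. -/
noncomputable def hitTime {V : Type} [MeasurableSpace V] (K : Kernel V V) [IsMarkovKernel K]
    (u v : V) : ℝ≥0∞ :=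
  ∫⁻ x, hit v x ∂pathLaw K u

/-- Expected joint hitting time `h({u_1,...,u_k},v)`: expectation of the minimum of the hitting
times of `v` of `k` independent copies of the chain started at `us 0, ..., us (k-1)`. -/
noncomputable def jointHitTime {V : Type} [MeasurableSpace V] (K : Kernel V V) [IsMarkovKernel K]
    {k : ℕ} (us : Fin k → V) (v : V) : ℝ≥0∞ :=
  ∫⁻ xs, ⨅ i, hit v (xs i) ∂Measure.pi (fun i => pathLaw K (us i))

end Pool.Agent.H45.Chain
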