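import Pool.Agent.H45.Chain
import Pool.Agent.H45.HitDefs

set_option autoImplicit false

namespace Pool.Agent.H45.Chain

open MeasureTheory ProbabilityTheory Finset
open scoped ENNReal

open Classical in
lemma iInf_eq_tsum (p : ℕ → Prop) :
    ⨅ (t : ℕ) (_ : p t), (t : ℝ≥0∞) = ∑' t, if ∀ s ≤ t, ¬ p s then 1 else 0 := by
  by_cases h : ∃ t, p t
  · have e1 : ⨅ (t : ℕ) (_ : p t), (t : ℝ≥0∞) = Nat.find h := by
      refine le_antisymm (iInf₂_le _ (Nat.find_spec h)) (le_iInf₂ fun t ht => ?_)
      exact_mod_cast Nat.find_min' h ht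
    rw [e1, tsum_eq_sum (s := range (Nat.find h))]
    · rw [sum_congr rfl (g := fun _ => 1)]
      · simp
      · intro t ht
        rw [if_pos]
        intro s hs
        exact Nat.find_min h (lt_of_le_of_lt hs (mem_range.1 ht))
    · intro t ht
      rw [if_neg]
      intro hh
      exact hh _ (by simpa using ht) (Nat.find_spec h)
  · push Not at h
    simp [h]

variable {V : Type} [MeasurableSpace V]

/-- the path avoids `v` up to time `t` -/
def avoid (v : V) (t : ℕ) : Set (ℕ → V) := {x | ∀ s ≤ t, x s ≠ v}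

lemma measurableSet_avoid [MeasurableSingletonClass V] (v : V) (t : ℕ) :
    MeasurableSet (avoid v t) := by
  have : avoid v t = ⋂ s ∈ Set.Iic t, (fun x : ℕ → V => x s) ⁻¹' {v}ᶜ := by
    ext x; simp [avoid]
  rw [this]
  exact MeasurableSet.biInter (Set.to_countable _) fun s _ =>
    measurable_pi_apply s (measurableSet_singleton v).compl

omit [MeasurableSpace V] in
lemma hit_eq_tsum (v : V) (x : ℕ → V) : hit v x = ∑' t, (avoid v t).indicator 1 x := by
  classical
  rw [hit, iInf_eq_tsum]
  refine tsum_congr fun t => ?_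
  simp only [Set.indicator, avoid, Set.mem_ofPred_eq, Pi.one_apply]

lemma hitTime_eq [MeasurableSingletonClass V] (K : Kernel V V) [IsMarkovKernel K] (u v : V) :
    hitTime K u v = ∑' t, pathLaw K u (avoid v t) := by
  simp only [hitTime, hit_eq_tsum]
  rw [lintegral_tsum fun t =>
    (measurable_one.indicator (measurableSet_avoid v t)).aemeasurable]
  exact tsum_congr fun t => lintegral_indicator_one (measurableSet_avoid v t)

lemma jointHitTime_eq [MeasurableSingletonClass V] (K : Kernel V V) [IsMarkovKernel K] {k : ℕ}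
    (us : Fin k → V) (v : V) :
    jointHitTime K us v = ∑' t, ∏ i, pathLaw K (us i) (avoid v t) := by
  classical
  have e : ∀ xs : Fin k → ℕ → V, ⨅ i, hit v (xs i) =
      ∑' t, (Set.pi Set.univ fun _ : Fin k => avoid v t).indicator 1 xs := by
    intro xs
    have : ⨅ i, hit v (xs i) = ⨅ (t : ℕ) (_ : ∃ i, xs i t = v), (t : ℝ≥0∞) := by
      simp only [hit, iInf_exists]
      rw [iInf_comm]
    rw [this, iInf_eq_tsum]
    refine tsum_congr fun t => ?_
    simp only [Set.indicator, avoid, Set.mem_ofPred_eq, Pi.one_apply, Set.mem_pi, Set.mem_univ,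
      forall_true_left, not_exists]
    congr 1
    exact propext ⟨fun h i s hs => h s hs i, fun h s hs i => h i s hs⟩
  have hm : ∀ t, MeasurableSet (Set.pi Set.univ fun _ : Fin k => avoid v t) := fun t =>
    MeasurableSet.univ_pi fun _ => measurableSet_avoid v t
  simp only [jointHitTime, e]
  rw [lintegral_tsum fun t => (measurable_one.indicator (hm t)).aemeasurable]
  exact tsum_congr fun t => by rw [lintegral_indicator_one (hm t), Measure.pi_pi]

lemma avoid_self [Countable V] [MeasurableSingletonClass V] (K : Kernel V V) [IsMarkovKernel K]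
    (v : V) (t : ℕ) : pathLaw K v (avoid v t) = 0 := by
  rw [measure_first_step K v _ (measurableSet_avoid v t)]
  have : cons v ⁻¹' avoid v t = ∅ := by
    ext x
    simp only [avoid, Set.mem_preimage, Set.mem_ofPred_eq, Set.mem_empty_iff_false, iff_false]
    exact fun h => h 0 (Nat.zero_le _) rfl
  simp [this]

lemma avoid_zero [Countable V] [MeasurableSingletonClass V] (K : Kernel V V) [IsMarkovKernel K]
    (u v : V) (h : u ≠ v) : pathLaw K u (avoid v 0) = 1 := by
  rw [measure_first_step K u _ (measurableSet_avoid v 0)]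
  have : cons u ⁻¹' avoid v 0 = Set.univ := by
    ext x
    simp [avoid, h]
  simp [this, tsum_kernel]

lemma avoid_succ [Countable V] [MeasurableSingletonClass V] (K : Kernel V V) [IsMarkovKernel K]
    (u v : V) (h : u ≠ v) (t : ℕ) :
    pathLaw K u (avoid v (t + 1)) = ∑' w, K u {w} * pathLaw K w (avoid v t) := by
  rw [measure_first_step K u _ (measurableSet_avoid v _)]
  have : cons u ⁻¹' avoid v (t + 1) = avoid v t := by
    ext x
    simp only [avoid, Set.mem_preimage, Set.mem_ofPred_eq]
    constructor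
    · intro hh s hs
      exact hh (s + 1) (by omega)
    · intro hh s hs
      cases s with
      | zero => exact h
      | succ s => exact hh s (by omega)
  rw [this]

lemma tail_le [Countable V] [MeasurableSingletonClass V] (K : Kernel V V) [IsMarkovKernel K]
    (v : V) (m : ℕ) (μ : ℝ≥0∞) (hμ : ∀ u, ∑ r ∈ range m, pathLaw K u (avoid v r) ≤ μ) (t : ℕ)
    (u : V) : ∑ r ∈ range m, pathLaw K u (avoid v (t + r)) ≤ μ * pathLaw K u (avoid v t) := by
  induction t generalizing u with
  | zero =>
    by_cases h : u = v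
    · subst h; simp [avoid_self]
    · simpa [avoid_zero K u v h] using hμ u
  | succ t ih =>
    by_cases h : u = v
    · subst h; simp [avoid_self]
    · simp only [Nat.add_right_comm t 1, avoid_succ K u v h]
      rw [← Summable.tsum_finsetSum (fun _ _ => ENNReal.summable), ← ENNReal.tsum_mul_left]
      refine ENNReal.tsum_le_tsum fun w => ?_
      rw [← mul_sum, mul_left_comm]
      gcongr
      exact ih w

lemma real_key (a : ℕ → ℝ) (ha : ∀ t, 0 ≤ a t) (T k : ℕ) (μ : ℝ)
    (H : ∀ m ≤ T, ∀ t, ∑ r ∈ range m, a (t + r) ≤ μ * a t) :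
    ∀ m ≤ T, ∀ t, (∑ r ∈ range m, a (t + r)) ^ (k + 1) ≤
      (k + 1) * μ ^ k * ∑ r ∈ range m, a (t + r) ^ (k + 1) := by
  intro m
  induction m with
  | zero => intro _ t; simp
  | succ m ih =>
    intro hm t
    have h1 := H (m + 1) hm t
    have h2 := ih (by omega) (t + 1)
    rw [sum_range_succ'] at h1 ⊢
    rw [sum_range_succ']
    simp only [add_zero, ← add_assoc, Nat.add_right_comm t _ 1] at h1 ⊢
    set y := ∑ r ∈ range m, a (t + 1 + r) with hy
    have hy0 : 0 ≤ y := sum_nonneg fun r _ => ha _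
    have hx0 : 0 ≤ y + a t := add_nonneg hy0 (ha t)
    have h3 := abs_pow_sub_pow_le (y + a t) y (k + 1)
    rw [add_sub_cancel_left, abs_of_nonneg (ha t), abs_of_nonneg hx0, abs_of_nonneg hy0,
      max_eq_left (by linarith [ha t]), Nat.add_sub_cancel] at h3
    have h4 : (y + a t) ^ k ≤ (μ * a t) ^ k := pow_le_pow_left₀ hx0 h1 k
    have h5 : a t * ((k + 1 : ℕ) : ℝ) * (y + a t) ^ k ≤ a t * ((k + 1 : ℕ) : ℝ) * (μ * a t) ^ k :=
      mul_le_mul_of_nonneg_left h4 (mul_nonneg (ha t) (by positivity))
    have h6 := le_abs_self ((y + a t) ^ (k + 1) - y ^ (k + 1))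
    have h7 : a t * ((k + 1 : ℕ) : ℝ) * (μ * a t) ^ k = (k + 1) * μ ^ k * a t ^ (k + 1) := by
      push_cast; ring
    rw [mul_add]
    linarith

theorem hitTime_le [Fintype V] [MeasurableSingletonClass V] (K : Kernel V V) [IsMarkovKernel K]
    (k : ℕ) (u v : V) :
    hitTime K u v ≤ (k + 1 : ℕ) * ⨆ w : V, jointHitTime K (fun _ : Fin (k + 1) => w) v := by
  rw [hitTime_eq, ENNReal.tsum_eq_iSup_nat]
  refine iSup_le fun T => ?_
  obtain ⟨w, -, hw⟩ := exists_max_image univ
    (fun w => ∑ r ∈ range T, pathLaw K w (avoid v r)) ⟨u, mem_univ u⟩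
  refine (hw u (mem_univ u)).trans ?_
  refine le_trans ?_ (mul_le_mul_right (le_iSup _ w) _)
  rw [jointHitTime_eq]
  refine le_trans ?_ (mul_le_mul_right (ENNReal.sum_le_tsum (range T)) _)
  set μ := ∑ r ∈ range T, pathLaw K w (avoid v r) with hμ
  have hμt : μ ≠ ⊤ := ENNReal.sum_ne_top.2 fun r _ => measure_ne_top _ _
  have H : ∀ m ≤ T, ∀ t, ∑ r ∈ range m, (pathLaw K w (avoid v (t + r))).toReal ≤
      μ.toReal * (pathLaw K w (avoid v t)).toReal := by
    intro m hm t
    rw [← ENNReal.toReal_sum (fun r _ => measure_ne_top _ _), ← ENNReal.toReal_mul]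
    refine ENNReal.toReal_mono (ENNReal.mul_ne_top hμt (measure_ne_top _ _)) ?_
    refine tail_le K v m μ (fun u' => le_trans ?_ (hw u' (mem_univ _))) t w
    exact sum_le_sum_of_subset (range_mono hm)
  have key := real_key (fun t => (pathLaw K w (avoid v t)).toReal)
    (fun _ => ENNReal.toReal_nonneg) T k μ.toReal H T le_rfl 0
  simp only [zero_add] at key
  rw [← ENNReal.toReal_sum (fun r _ => measure_ne_top _ _), ← hμ] at key
  simp only [prod_const, card_univ, Fintype.card_fin]
  rcases eq_or_ne μ 0 with h0 | h0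
  · simp [h0]
  have hpos : 0 < μ.toReal := ENNReal.toReal_pos h0 hμt
  have key2 : μ.toReal ≤ (k + 1) * ∑ r ∈ range T, (pathLaw K w (avoid v r)).toReal ^ (k + 1) := by
    have := pow_pos hpos k
    rw [pow_succ'] at key
    nlinarith
  have hfin : ∀ r ∈ range T, pathLaw K w (avoid v r) ^ (k + 1) ≠ ⊤ :=
    fun r _ => ENNReal.pow_ne_top (measure_ne_top _ _)
  rw [← ENNReal.toReal_le_toReal hμt (ENNReal.mul_ne_top (by simp) (ENNReal.sum_ne_top.2 hfin)),
    ENNReal.toReal_mul, ENNReal.toReal_sum hfin, ENNReal.toReal_natCast]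
  simpa using key2

end Pool.Agent.H45.Chain
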