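import Mathlib

set_option maxHeartbeats 400000

open Classical MeasureTheory ProbabilityTheory Filter Topology

namespace Pool.Agent.H45.Kolm

variable {K : Type} [Fintype K]

lemma sum_cons {n : ℕ} (F : (Fin (n + 1) → K) → ℝ) :
    ∑ x, F x = ∑ a, ∑ x : Fin n → K, F (Fin.cons a x) := by
  rw [← (Fin.consEquiv fun _ => K).sum_comp, Fintype.sum_prod_type]; rfl

lemma sum_snoc {n : ℕ} (F : (Fin (n + 1) → K) → ℝ) :
    ∑ x, F x = ∑ a, ∑ x : Fin n → K, F (Fin.snoc x a) := by
  rw [← (Fin.snocEquiv fun _ => K).sum_comp, Fintype.sum_prod_type]; rfl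

def win (a : ℤ) (n : ℕ) (x : ℤ → K) : Fin n → K := fun i => x (a + i)

noncomputable def ext (a₀ : K) (a : ℤ) {n : ℕ} (y : Fin n → K) : ℤ → K := fun i =>
  if h : a ≤ i ∧ i < a + n then y ⟨(i - a).toNat, by omega⟩ else a₀

structure Cons (P : List K → ℝ) : Prop where
  nil : P [] = 1
  nonneg : ∀ l, 0 ≤ P l
  left : ∀ l, ∑ a, P (a :: l) = P l
  right : ∀ l, ∑ a, P (l ++ [a]) = P l

variable {P : List K → ℝ}

lemma Cons.sub (hP : Cons P) {n : ℕ} (F : (Fin n → K) → ℝ) : ∀ (N m : ℕ) (h : m + n ≤ N),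
    ∑ y : Fin N → K, P (List.ofFn y) * F (fun i => y ⟨m + i, by omega⟩) =
      ∑ y, P (List.ofFn y) * F y := by
  intro N
  induction N with
  | zero =>
    intro m h
    obtain rfl : n = 0 := by omega
    exact Finset.sum_congr rfl fun y _ => by congr 2; exact Subsingleton.elim _ _
  | succ N ih =>
    intro m h
    by_cases h1 : m + n ≤ N
    · rw [← ih m h1, sum_snoc, Finset.sum_comm]
      refine Finset.sum_congr rfl fun y _ => ?_
      rw [← hP.right, Finset.sum_mul]
      refine Finset.sum_congr rfl fun a _ => ?_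
      congr 2
      · rw [List.ofFn_succ_last]; simp
      · funext i
        exact Fin.snoc_castSucc (α := fun _ => K) a y ⟨m + i, by omega⟩
    rcases m with _ | m
    · obtain rfl : n = N + 1 := by omega
      simp
    · rw [← ih m (by omega), sum_cons, Finset.sum_comm]
      refine Finset.sum_congr rfl fun y _ => ?_
      rw [← hP.left, Finset.sum_mul]
      refine Finset.sum_congr rfl fun a _ => ?_
      congr 2
      · simp
      · funext i
        rw [← Fin.cons_succ (α := fun _ => K) a y ⟨m + i, by omega⟩]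
        congr 1
        exact Fin.ext (by simp; omega)

variable [MeasurableSpace K] [DiscreteMeasurableSpace K]

noncomputable def nu (P : List K → ℝ) (n : ℕ) : Measure (Fin n → K) :=
  ∑ y, ENNReal.ofReal (P (List.ofFn y)) • Measure.dirac y

omit [Fintype K] [MeasurableSpace K] [DiscreteMeasurableSpace K] in
lemma Cons.nn (hP : ∀ l, 0 ≤ P l) {n : ℕ} (t : Set (Fin n → K)) (y : Fin n → K) :
    0 ≤ P (List.ofFn y) * t.indicator 1 y :=
  mul_nonneg (hP _) (Set.indicator_apply_nonneg fun _ => zero_le_one)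

lemma Cons.nu_apply (hP : Cons P) (n : ℕ) (t : Set (Fin n → K)) :
    nu P n t = ENNReal.ofReal (∑ y, P (List.ofFn y) * t.indicator 1 y) := by
  rw [ENNReal.ofReal_sum_of_nonneg fun y _ => Cons.nn hP.nonneg t y]
  simp only [nu, Measure.coe_finsetSum, Finset.sum_apply, Measure.smul_apply, smul_eq_mul,
    Measure.dirac_apply]
  refine Finset.sum_congr rfl fun y _ => ?_
  by_cases h : y ∈ t <;> simp [h]

lemma Cons.prob (hP : Cons P) (n : ℕ) : IsProbabilityMeasure (nu P n) := ⟨by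
  have := hP.sub (n := 0) (fun _ => 1) n 0 (by omega)
  simp only [hP.nu_apply, Set.indicator_univ, Pi.one_apply, this]
  simp [hP.nil]⟩

omit [Fintype K] [DiscreteMeasurableSpace K] in
lemma meas_win (a : ℤ) (n : ℕ) : Measurable (win (K := K) a n) :=
  measurable_pi_lambda _ fun _ => measurable_pi_apply _

theorem Cons.exists_measure (hP : Cons P) (a₀ : K) : ∃ μ : Measure (ℤ → K),
    IsProbabilityMeasure μ ∧ ∀ a n, μ.map (win a n) = nu P n := by
  let : TopologicalSpace K := ⊥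
  have : DiscreteTopology K := ⟨rfl⟩
  have : BorelSpace K := ⟨by
    rw [borel_eq_top_of_discrete]; exact MeasurableSpace.ext fun s => by simp [MeasurableSet.of_discrete]⟩
  have := hP.prob
  let M : ℕ → ProbabilityMeasure (ℤ → K) := fun N =>
    ⟨(nu P (2 * N)).map (ext a₀ (-N)), Measure.isProbabilityMeasure_map .of_discrete⟩
  obtain ⟨μ, hμ⟩ := exists_clusterPt_of_compactSpace (map M atTop)
  refine ⟨μ, μ.2, fun a n => ?_⟩
  have hc : Continuous (win (K := K) a n) := continuous_pi fun _ => continuous_apply _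
  have h1 := (show MapClusterPt μ atTop M from hμ).continuousAt_comp
    (ProbabilityMeasure.continuous_map hc).continuousAt
  let ν : ProbabilityMeasure (Fin n → K) := ⟨nu P n, this n⟩
  have h2 : Tendsto ((fun ν : ProbabilityMeasure (ℤ → K) =>
      ν.map hc.measurable.aemeasurable) ∘ M) atTop (𝓝 ν) := by
    refine tendsto_const_nhds.congr' ((eventually_ge_atTop (a.natAbs + n)).mono fun N hN => ?_)
    refine Subtype.ext ?_
    change _ = ((nu P (2 * N)).map (ext a₀ (-N))).map (win a n)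
    rw [Measure.map_map (meas_win a n) .of_discrete]
    ext t ht
    rw [Measure.map_apply .of_discrete ht, hP.nu_apply, hP.nu_apply,
      ← hP.sub _ (2 * N) (a + N).toNat (by omega)]
    congr 1
    refine Finset.sum_congr rfl fun y _ => ?_
    have : (win a n ∘ ext a₀ (-N)) y = fun i : Fin n => y ⟨(a + N).toNat + i, by omega⟩ := by
      funext i
      simp only [Function.comp, win, ext]
      rw [dif_pos (by omega)]
      congr 2; omega
    rw [← this]; rfl
  have h3 : _ = ν := eq_of_nhds_neBot (h1.clusterPt.mono h2)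
  exact congrArg Subtype.val h3

lemma cover (I : Finset ℤ) : ∃ (a : ℤ) (n : ℕ), ∀ i ∈ I, a ≤ i ∧ i < a + n :=
  ⟨-(I.sup Int.natAbs : ℕ), 2 * I.sup Int.natAbs + 1, fun i hi => by
    have := Finset.le_sup (f := Int.natAbs) hi
    omega⟩

omit [Fintype K] [MeasurableSpace K] [DiscreteMeasurableSpace K] in
lemma ext_win (a₀ : K) {a : ℤ} {n : ℕ} (x : ℤ → K) {i : ℤ} (h : a ≤ i ∧ i < a + n) :
    ext a₀ a (win a n x) i = x i := by
  simp only [ext, win, dif_pos h]
  congr 1; omega

lemma unique (a₀ : K) {μ ν : Measure (ℤ → K)} [IsFiniteMeasure μ]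
    (h : ∀ a n, μ.map (win a n) = ν.map (win a n)) : μ = ν := by
  refine IsProjectiveLimit.unique (P := fun I => μ.map I.restrict) (fun _ => rfl) fun I => ?_
  obtain ⟨a, n, H⟩ := cover I
  have : I.restrict (π := fun _ => K) = (I.restrict ∘ ext a₀ a) ∘ win a n :=
    funext fun x => funext fun i => (ext_win a₀ x (H i i.2)).symm
  change _ = μ.map _
  rw [this, ← Measure.map_map .of_discrete (meas_win a n),
    ← Measure.map_map .of_discrete (meas_win a n), h]

lemma stationary (a₀ : K) {μ : Measure (ℤ → K)} [IsFiniteMeasure μ]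
    (h : ∀ a n, μ.map (win a n) = nu P n) : μ.map (fun x i => x (i + 1)) = μ := by
  have hm : Measurable fun (x : ℤ → K) i => x (i + 1) :=
    measurable_pi_lambda _ fun _ => measurable_pi_apply _
  refine unique a₀ fun a n => ?_
  rw [Measure.map_map (meas_win a n) hm, h, ← h (a + 1)]
  congr 1
  funext x i
  simp only [Function.comp, win]
  congr 1; ring

def D (K : Type) (A : Set ℤ) : Set (Set (ℤ → K)) :=
  {s | ∃ I : Finset ℤ, ↑I ⊆ A ∧ ∀ x y : ℤ → K, (∀ i ∈ I, x i = y i) → x ∈ s → y ∈ s}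

omit [Fintype K] [MeasurableSpace K] [DiscreteMeasurableSpace K] in
lemma D_pi (A : Set ℤ) : IsPiSystem (D K A) := by
  rintro s ⟨I, hI, hs⟩ t ⟨J, hJ, ht⟩ -
  exact ⟨I ∪ J, by simp [hI, hJ], fun x y h hx =>
    ⟨hs x y (fun i hi => h i (by simp [hi])) hx.1, ht x y (fun i hi => h i (by simp [hi])) hx.2⟩⟩

omit [Fintype K] [MeasurableSpace K] [DiscreteMeasurableSpace K] in
lemma D_eq (a₀ : K) {s : Set (ℤ → K)} {I : Finset ℤ} {a : ℤ} {n : ℕ}
    (hs : ∀ x y : ℤ → K, (∀ i ∈ I, x i = y i) → x ∈ s → y ∈ s)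
    (H : ∀ i ∈ I, a ≤ i ∧ i < a + n) : s = win a n ⁻¹' (ext a₀ a ⁻¹' s) :=
  Set.ext fun x => ⟨hs _ _ fun i hi => (ext_win a₀ x (H i hi)).symm,
    hs _ _ fun i hi => ext_win a₀ x (H i hi)⟩

lemma D_meas (a₀ : K) {A : Set ℤ} (s : Set (ℤ → K)) (h : s ∈ D K A) : MeasurableSet s := by
  obtain ⟨I, -, hs⟩ := h
  obtain ⟨a, n, H⟩ := cover I
  rw [D_eq a₀ hs H]
  exact meas_win a n .of_discrete

omit [Fintype K] [DiscreteMeasurableSpace K] in
lemma D_le (A : Set ℤ) : MeasurableSpace.comap (fun (x : ℤ → K) (i : A) => x i) inferInstance ≤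
    .generateFrom (D K A) := by
  refine Measurable.comap_le (@measurable_pi_lambda _ _ _ (.generateFrom (D K A)) _ _ fun i t _ => ?_)
  refine MeasurableSpace.measurableSet_generateFrom ⟨{i.1}, by simp, fun x y h hx => ?_⟩
  simpa [← h i (by simp)] using hx

theorem Cons.indep (hP : Cons P) (a₀ : K) {μ : Measure (ℤ → K)} [IsProbabilityMeasure μ]
    (h : ∀ a n, μ.map (win a n) = nu P n) {k : ℤ}
    (H : ∀ (N : ℕ) (A B : Set (Fin N)) (f g : (Fin N → K) → ℝ),
      (∀ a ∈ A, ∀ b ∈ B, k < |(a.1 : ℤ) - b.1|) → DependsOn f A → DependsOn g B →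
      ∑ x, P (List.ofFn x) * (f x * g x) =
        (∑ x, P (List.ofFn x) * f x) * ∑ x, P (List.ofFn x) * g x)
    (A B : Set ℤ) (hAB : ∀ a ∈ A, ∀ b ∈ B, k < |a - b|) :
    IndepFun (fun (x : ℤ → K) (i : A) => x i) (fun (x : ℤ → K) (i : B) => x i) μ := by
  rw [IndepFun_iff_Indep]
  refine indep_of_indep_of_le (IndepSets.indep' (D_meas a₀) (D_meas a₀) (D_pi A) (D_pi B) ?_)
    (D_le A) (D_le B)
  rw [IndepSets_iff]
  rintro s t ⟨I, hI, hs⟩ ⟨J, hJ, ht⟩
  obtain ⟨a, n, hc⟩ := cover (I ∪ J)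
  have key : ∀ {s : Set (ℤ → K)} {I : Finset ℤ}, (∀ x y : ℤ → K, (∀ i ∈ I, x i = y i) → x ∈ s → y ∈ s) →
      DependsOn (fun y : Fin n → K => (ext a₀ a ⁻¹' s).indicator (1 : (Fin n → K) → ℝ) y)
        {i | a + i ∈ I} := by
    intro s I hs x y hxy
    have : ∀ i ∈ I, ext a₀ a x i = ext a₀ a y i := fun i hi => by
      unfold ext
      split_ifs with h
      · exact hxy _ (by simpa [h.1] using hi)
      · rfl
    have : x ∈ ext a₀ a ⁻¹' s ↔ y ∈ ext a₀ a ⁻¹' s :=
      ⟨hs _ _ this, hs _ _ fun i hi => (this i hi).symm⟩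
    simp only [Set.indicator_apply, this, Pi.one_apply]
  rw [D_eq a₀ hs fun i hi => hc i (by simp [hi]), D_eq a₀ ht fun i hi => hc i (by simp [hi]),
    ← Set.preimage_inter]
  simp only [← Measure.map_apply (meas_win a n) .of_discrete, h, hP.nu_apply,
    Set.inter_indicator_one, Pi.mul_apply]
  rw [H n _ _ _ _ (fun i hi j hj => by simpa using hAB _ (hI hi) _ (hJ hj)) (key hs) (key ht),
    ENNReal.ofReal_mul (Finset.sum_nonneg fun y _ => Cons.nn hP.nonneg _ y)]

end Pool.Agent.H45.Kolm
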