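import Pool.Agent.H45.Chain

set_option maxHeartbeats 400000

open MeasureTheory ProbabilityTheory Filter Topology Set
open scoped ENNReal

namespace Pool.Agent.H45.Chain

variable {V : Type} [MeasurableSpace V] [Countable V] [MeasurableSingletonClass V]

theorem lyap (K : Kernel V V) [IsMarkovKernel K] (f : V → ℝ) 
    (h : ∀ u, ∫⁻ w, ENNReal.ofReal (f w) ∂K u ≤ ENNReal.ofReal (f u)) (u : V) :
    ∀ᵐ x ∂pathLaw K u, ∃ B : ℝ, ∃ᶠ k in atTop, f (x k) ≤ B := by
  have m : ∀ k, Measurable fun x : ℕ → V => ENNReal.ofReal (f (x k)) := fun k =>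
    (Measurable.of_discrete (f := fun u => ENNReal.ofReal (f u))).comp (measurable_pi_apply k)
  have key : ∀ k u, ∫⁻ x, ENNReal.ofReal (f (x k)) ∂pathLaw K u ≤ ENNReal.ofReal (f u) := by
    intro k
    induction k with
    | zero => intro u; simp [lintegral_first_step _ _ _ (m 0), ENNReal.tsum_mul_right, tsum_kernel]
    | succ k ih =>
      intro u
      rw [lintegral_first_step _ _ _ (m _)]
      refine le_trans ?_ (h u)
      rw [lintegral_countable']
      exact ENNReal.tsum_le_tsum fun w => by rw [mul_comm]; gcongr; exact ih w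
  have h1 := (lintegral_liminf_le (μ := pathLaw K u) (u := atTop) m).trans
    (liminf_le_of_frequently_le' (.of_forall fun k => key k u))
  filter_upwards [ae_lt_top (.liminf m) (h1.trans_lt ENNReal.ofReal_lt_top).ne] with x hx
  obtain ⟨b, hb, hb'⟩ := exists_between hx
  refine ⟨b.toReal, (frequently_lt_of_liminf_lt (by isBoundedDefault) hb).mono fun k hk => ?_⟩
  exact (ENNReal.ofReal_le_iff_le_toReal hb'.ne).1 hk.le

instance : IsProbabilityMeasure (expMeasure 1) := isProbabilityMeasure_expMeasure one_pos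

theorem exp_io {p : ℕ → Prop} (hp : ∃ᶠ k in atTop, p k) :
    ∀ᵐ e ∂Measure.infinitePi fun _ : ℕ => expMeasure 1,
      (∀ k, 0 ≤ e k) ∧ ∃ᶠ k in atTop, p k ∧ 1 ≤ e k := by
  classical
  set ν := Measure.infinitePi fun _ : ℕ => expMeasure 1
  have ev : ∀ k s, MeasurableSet s → ν ((fun e => e k) ⁻¹' s) = expMeasure 1 s := fun k s hs =>
    (measurePreserving_eval_infinitePi _ k).measure_preimage hs.nullMeasurableSet
  let S : ℕ → Set ℝ := fun k => if p k then Ici 1 else ∅
  have mS : ∀ k, MeasurableSet (S k) := fun k => by unfold S; split_ifs <;> simp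
  have ms : ∀ k, MeasurableSet ((fun e : ℕ → ℝ => e k) ⁻¹' S k) := fun k =>
    measurable_pi_apply k (mS k)
  have hi : iIndepFun (fun k (e : ℕ → ℝ) => e k) ν :=
    iIndepFun_infinitePi (X := fun _ => id) fun _ => measurable_id
  have c0 : 0 < expMeasure 1 (Ici 1) := by
    refine lt_of_lt_of_le ?_ (measure_mono Ioi_subset_Ici_self)
    rw [← compl_Iic, prob_compl_eq_one_sub measurableSet_Iic, ← ofReal_cdf, cdf_expMeasure_eq one_pos]
    simp [Real.exp_pos]
  have := measure_limsup_eq_one (μ := ν) ms ((iIndepSet_iff_meas_biInter ms).2 fun F =>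
    hi.measure_inter_preimage_eq_mul F fun k _ => mS k) (by
      by_contra H
      obtain ⟨k, h1, h2⟩ := (hp.and_eventually ((ENNReal.tendsto_atTop_zero_of_tsum_ne_top H).eventually
        (gt_mem_nhds c0))).exists
      simp [ev _ _ measurableSet_Ici, S, h1] at h2)
  refine (ae_all_iff.2 fun k => ?_).and ?_
  · refine (measurePreserving_eval_infinitePi (fun _ : ℕ => expMeasure 1) k).quasiMeasurePreserving.ae
      (p := fun t : ℝ => 0 ≤ t) ?_
    rw [ae_iff]
    simp only [not_le]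
    refine measure_mono_null (t := Iic 0) Iio_subset_Iic_self ?_
    rw [← ofReal_cdf, cdf_expMeasure_eq one_pos]; simp
  · filter_upwards [(mem_ae_iff_prob_eq_one (MeasurableSet.measurableSet_limsup ms)).2 this] with e he
    refine (mem_limsup_iff_frequently_mem.1 he).mono fun k hk => ?_
    by_cases h : p k <;> simp_all [S]

/-- a continuous-time chain whose jump chain returns to a bounded-rate region does not escape -/
theorem no_escape (K : Kernel V V) [IsMarkovKernel K] (u : V) (N q : V → ℝ) (hq : ∀ v, 0 < q v)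
    (hb : ∀ B, ∃ C, ∀ v, N v ≤ B → q v ≤ C)
    (h : ∀ᵐ x ∂pathLaw K u, ∃ B : ℝ, ∃ᶠ k in atTop, N (x k) ≤ B) :
    ((pathLaw K u).prod (Measure.infinitePi fun _ : ℕ => expMeasure 1))
      {ω | ∀ B, ∃ t₀, ∀ t ≥ t₀, ∀ k, ∑ j ∈ Finset.range k, ω.2 j / q (ω.1 j) ≤ t →
        t < ∑ j ∈ Finset.range (k + 1), ω.2 j / q (ω.1 j) → B ≤ N (ω.1 k)} = 0 := by
  have hN : Measurable N := .of_discrete
  refine measure_mono_null (t := {ω | (∀ k, 0 ≤ ω.2 k) ∧ ∃ B : ℕ, ∀ a, ∃ k ≥ a,
    N (ω.1 k) ≤ B ∧ 1 ≤ ω.2 k}ᶜ) ?_ ((Measure.measure_prod_null (by measurability)).2 ?_)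
  · rintro ⟨x, e⟩ H ⟨h0, B, hB⟩
    obtain ⟨t₀, ht⟩ := H (B + 1)
    obtain ⟨C, hC⟩ := hb B
    simp only at ht h0 hB
    set T := fun k => ∑ j ∈ Finset.range k, e j / q (x j)
    have mT : Monotone T := monotone_nat_of_le_succ fun k => by
      simp only [T, Finset.sum_range_succ]; linarith [div_nonneg (h0 k) (hq (x k)).le]
    have st : ∀ k, N (x k) ≤ B → 1 ≤ e k → T k + 1 / C ≤ T (k + 1) := fun k h1 h2 => by
      simp only [T, Finset.sum_range_succ]
      gcongr
      exacts [hq _, hC _ h1]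
    obtain ⟨k, -, h1, -⟩ := hB 0
    have hC0 : 0 < 1 / C := one_div_pos.2 ((hq _).trans_le (hC _ h1))
    have un : ∀ n : ℕ, ∃ k, n * (1 / C) ≤ T k := fun n => by
      induction n with
      | zero => exact ⟨0, by simp [T]⟩
      | succ n ih =>
        obtain ⟨k, hk⟩ := ih
        obtain ⟨l, hl, h1, h2⟩ := hB k
        exact ⟨l + 1, by push_cast; linarith [st l h1 h2, mT hl]⟩
    obtain ⟨n, hn⟩ := exists_nat_ge (t₀ / (1 / C))
    obtain ⟨k, hk⟩ := un n
    obtain ⟨l, hl, h1, h2⟩ := hB k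
    rw [div_le_iff₀ hC0] at hn
    have := ht (T l) (by linarith [mT hl]) l le_rfl (by linarith [st l h1 h2])
    linarith
  · filter_upwards [h] with x ⟨B, hB⟩
    obtain ⟨n, hn⟩ := exists_nat_ge B
    refine measure_eq_zero_iff_ae_notMem.2 ((exp_io hB).mono fun e he H => H ⟨he.1, n, fun a => ?_⟩)
    obtain ⟨k, hk, h1, h2⟩ := frequently_atTop.1 he.2 a
    exact ⟨k, hk, h1.trans hn, h2⟩

end Pool.Agent.H45.Chain
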