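import Mathlib

open Filter Topology Finset

namespace Pool.Agent.H45.MErg

variable {B : Type} [NormedRing B] [NormedAlgebra ℝ B]

noncomputable def a (j : ℕ) : ℝ := 1 - (1 / 4) ^ (j + 1)
noncomputable def c (j : ℕ) : ℝ := (1 / 2) ^ (j + 3)

lemma a_mem (j : ℕ) : 0 < a j ∧ a j < 1 := by
  have : (1 / 4 : ℝ) ^ (j + 1) < 1 := pow_lt_one₀ (by norm_num) (by norm_num) (by simp)
  have : 0 < (1 / 4 : ℝ) ^ (j + 1) := by positivity
  unfold a; constructor <;> linarith

lemma bern (j n : ℕ) : 1 - n * (1 - a j) ≤ a j ^ n := by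
  simpa [sub_eq_add_neg, mul_add, add_comm] using
    one_add_mul_le_pow (a := a j - 1) (by linarith [(a_mem j).1]) n

lemma hs : HasSum (fun j => (1 - a j) * 2 + c j * 4) (5 / 3) := by
  convert ((hasSum_geometric_of_lt_one (r := 1 / 4) (by norm_num) (by norm_num)).mul_left (1 / 2)).add
    (hasSum_geometric_two.mul_left (1 / 2)) using 1
  · rfl
  · ext j; simp only [a, c]; ring
  · norm_num

lemma bd {x y : B} (hx : ‖x‖ ≤ 2) (hy : ‖y‖ ≤ 4) (j : ℕ) {s t : ℝ} (h : |s| ≤ 1 - a j)
    (h' : |t| ≤ c j) : ‖s • x + t • y‖ ≤ (1 - a j) * 2 + c j * 4 := by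
  grw [norm_add_le, norm_smul, norm_smul, Real.norm_eq_abs, Real.norm_eq_abs, hx, hy, h, h']

theorem core [CompleteSpace B] (P N : ℕ → B) (PP : ∀ i j, P i * P j = if j = i then P i else 0)
    (PN : ∀ i j, P i * N j = if j = i then N i else 0)
    (NP : ∀ i j, N i * P j = if j = i then N i else 0) (NN : ∀ i j, N i * N j = 0)
    (hP : ∀ j, ‖P j‖ ≤ 2) (hN : ∀ j, ‖N j‖ ≤ 4) (hN' : ∀ j, 1 ≤ ‖N j‖) (U : B)
    (hU : HasSum (fun j => (a j - 1) • P j + (c j * a j) • N j) (U - 1)) :
    Tendsto (fun n : ℕ => (n : ℝ)⁻¹ • ∑ k ∈ range n, (-U) ^ k) atTop (𝓝 0) ∧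
      ¬ BddAbove (Set.range fun n : ℕ => ‖(-U) ^ n‖) := by
  have c0 : ∀ j, 0 < c j := fun j => by unfold c; positivity
  have PU : ∀ i, P i * U = a i • P i + (c i * a i) • N i := fun i => by
    have := (hU.mul_left (P i)).unique (hasSum_single i fun j hj => by simp [mul_add, PP, PN, hj])
    simp only [mul_sub, mul_add, mul_smul_comm, PP, PN, if_true, mul_one, sub_eq_iff_eq_add] at this
    rw [this]; module
  have NU : ∀ i, N i * U = a i • N i := fun i => by
    have := (hU.mul_left (N i)).unique (hasSum_single i fun j hj => by simp [mul_add, NP, NN, hj])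
    simp only [mul_sub, mul_add, mul_smul_comm, NP, NN, if_true, mul_one, sub_eq_iff_eq_add] at this
    rw [this]; module
  have pw : ∀ n : ℕ, HasSum (fun j => (a j ^ n - 1) • P j + (n * c j * a j ^ n) • N j) (U ^ n - 1) := by
    intro n
    induction n with
    | zero => simp
    | succ n ih =>
      convert (ih.mul_right U).add hU using 1
      · rfl
      · ext j
        simp only [add_mul, smul_mul_assoc, PU, NU]
        push_cast; module
      · rw [pow_succ]; noncomm_ring
  have sg : ∀ n, ‖(-U) ^ n‖ = ‖U ^ n‖ := fun n => by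
    rcases neg_one_pow_eq_or B n with h | h <;> simp [neg_pow U, h]
  constructor
  · have n1 : ‖(1 / 2 : ℝ) • (1 - U)‖ < 1 := by
      have := hU.norm_le_of_bounded hs fun j => bd (hP j) (hN j) j (by rw [abs_sub_comm, abs_of_pos (by linarith [(a_mem j).2])])
        (by rw [abs_of_pos (mul_pos (c0 j) (a_mem j).1)]; nlinarith [c0 j, (a_mem j).2])
      rw [norm_smul, norm_sub_rev]; norm_num; linarith
    obtain ⟨V, hV⟩ := (isUnit_one_sub_of_norm_lt_one n1).exists_left_inv
    have lim : Tendsto (fun n : ℕ => (n : ℝ)⁻¹ • (U ^ n - 1)) atTop (𝓝 0) := by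
      have := tendsto_tsum_of_dominated_convergence (𝓕 := atTop) (g := fun _ => 0)
        (f := fun (n : ℕ) j => ((n : ℝ)⁻¹ * (a j ^ n - 1)) • P j + (c j * a j ^ n) • N j) hs.summable
        (fun j => by
          have t := tendsto_pow_atTop_nhds_zero_of_lt_one (a_mem j).1.le (a_mem j).2
          simpa using ((tendsto_inv_atTop_nhds_zero_nat.mul (t.sub_const 1)).smul_const (P j)).add
            ((t.const_mul (c j)).smul_const (N j)))
        ((eventually_gt_atTop 0).mono fun n hn j => by
          have p := pow_le_one₀ (n := n) (a_mem j).1.le (a_mem j).2.le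
          have q := pow_pos (a_mem j).1 n
          refine bd (hP j) (hN j) j ?_ (by rw [abs_of_pos (mul_pos (c0 j) q)]; nlinarith [c0 j])
          rw [abs_mul, abs_of_pos (by positivity), abs_sub_comm, abs_of_nonneg (by linarith),
            inv_mul_le_iff₀ (by positivity)]
          linarith [bern j n])
      rw [tsum_zero] at this
      refine this.congr' ((eventually_gt_atTop 0).mono fun n hn => HasSum.tsum_eq ?_)
      convert (pw n).const_smul (n : ℝ)⁻¹ using 2 with j
      rw [smul_add, smul_smul, smul_smul]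
      congr 2; field_simp
    have one := (tendsto_inv_atTop_nhds_zero_nat (𝕜 := ℝ)).smul_const (1 : B)
    have l2 : Tendsto (fun n : ℕ => (n : ℝ)⁻¹ • (-U) ^ n) atTop (𝓝 0) := by
      have := (lim.add one).norm
      refine tendsto_zero_iff_norm_tendsto_zero.2 ?_
      simpa [← smul_add, norm_smul, sg] using this
    have := ((one.sub l2).const_mul V).const_smul (1 / 2 : ℝ)
    simp only [zero_smul, sub_self, mul_zero, smul_zero] at this
    refine this.congr fun n => ?_
    rw [← smul_sub, ← mul_neg_geom_sum, mul_smul_comm, smul_comm, ← mul_assoc, ← smul_mul_assoc (1 / 2 : ℝ),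
      ← mul_smul_comm (1 / 2 : ℝ) V, show (1 / 2 : ℝ) • (1 - -U) = 1 - (1 / 2 : ℝ) • (1 - U) by module, hV, one_mul]
  · rintro ⟨M, hM⟩
    obtain ⟨j, hj⟩ := pow_unbounded_of_one_lt (16 * M + 16) (one_lt_two (α := ℝ))
    have h1 := hM ⟨2 * 4 ^ j, rfl⟩
    have h2 := ((pw (2 * 4 ^ j)).mul_left (P j)).unique
      (hasSum_single j fun i hi => by simp [mul_add, PP, PN, hi])
    have h3 := bern j (2 * 4 ^ j)
    simp only [sg] at h1
    generalize U ^ (2 * 4 ^ j) = W at *
    generalize a j ^ (2 * 4 ^ j) = x at *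
    simp only [mul_sub, mul_add, mul_smul_comm, PP, PN, if_true, mul_one] at h2
    have e4 : (4 : ℝ) ^ j = 2 ^ j * 2 ^ j := by rw [← mul_pow]; norm_num
    have e1 : ((2 * 4 ^ j : ℕ) : ℝ) * (1 - a j) = 1 / 2 := by simp [a, pow_succ]; field_simp; norm_num
    have e2 : ((2 * 4 ^ j : ℕ) : ℝ) * c j = 2 ^ j / 4 := by simp [c, e4, pow_succ]; field_simp; norm_num
    rw [e1] at h3
    rw [e2] at h2
    have h4 : (2 ^ j / 4 * x) • N j = P j * W - x • P j := by
      rw [sub_eq_iff_eq_add.1 h2]; module
    have h5 := congrArg norm h4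
    have x0 : 0 < x := by linarith
    have h6 := norm_sub_le (P j * W) (x • P j)
    rw [← h5, norm_smul, norm_smul, Real.norm_of_nonneg x0.le, Real.norm_of_nonneg (by positivity)] at h6
    have h7 := (norm_mul_le (P j) W).trans (mul_le_mul (hP j) h1 (norm_nonneg _) zero_le_two)
    have h8 := mul_le_mul_of_nonneg_left (hN' j) (show 0 ≤ 2 ^ j / 4 * x by positivity)
    have h9 := mul_le_mul_of_nonneg_left (hP j) x0.le
    nlinarith [norm_nonneg W]

lemma low {x y r : B} (hr : ‖r‖ ≤ 1) (hy : 1 ≤ ‖y‖)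
    (h : (x + r * x * (r * r) + r * r * x * r) * (r - r * r) = (-9 : ℝ) • y) : 1 ≤ ‖x‖ := by
  have h2 : ‖r * r‖ ≤ 1 := (norm_mul_le _ _).trans (mul_le_one₀ hr (norm_nonneg _) hr)
  have := (congrArg norm h).ge
  grw [norm_smul, ← hy, norm_mul_le, norm_add₃_le, norm_sub_le, norm_mul_le (r * x),
    norm_mul_le (r * r * x), norm_mul_le (r * r), norm_mul_le r x, h2, hr] at this
  norm_num at this
  nlinarith [norm_nonneg x]

variable (R S : ℕ → B)

noncomputable def e (j : ℕ) : B := (1 / 3 : ℝ) • (1 + R j + R j * R j)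
noncomputable def E : ℕ → B
  | 0 => 1
  | j + 1 => e R j * E j
def n (j : ℕ) : B := (1 + S j) * (R j - R j * R j)

lemma E_succ (x : B) (j : ℕ) : x * E R (j + 1) =
    (1 / 3 : ℝ) • (x * E R j + x * R j * E R j + x * (R j * R j) * E R j) := by
  simp [E, e, mul_add, add_mul, mul_assoc]

theorem alg (h3 : ∀ j, R j * (R j * R j) = 1) (h2 : ∀ j, S j * S j = 1)
    (h : ∀ j, R j * S j = S j * (R j * R j)) (cR : ∀ i j, Commute (R i) (R j))
    (cS : ∀ i j, i ≠ j → Commute (R i) (S j)) (P N : ℕ → B) (hP : ∀ j, P j = E R j - E R (j + 1))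
    (hN : ∀ j, N j = n R S j * E R j) :
    (∀ i j, P i * P j = if j = i then P i else 0) ∧ (∀ i j, P i * N j = if j = i then N i else 0) ∧
    (∀ i j, N i * P j = if j = i then N i else 0) ∧ (∀ i j, N i * N j = 0) ∧
    ∀ j, (N j + R j * N j * (R j * R j) + R j * R j * N j * R j) * (R j - R j * R j) = (-9 : ℝ) • P j := by
  have h3' : ∀ j x, R j * (R j * (R j * x)) = x := fun j x => by
    rw [← mul_assoc (R j) (R j) x, ← mul_assoc, h3, one_mul]
  have h2' : ∀ j x, S j * (S j * x) = x := fun j x => by rw [← mul_assoc, h2, one_mul]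
  have h' : ∀ j x, R j * (S j * x) = S j * (R j * (R j * x)) := fun j x => by
    simp only [← mul_assoc, h]
  have ce : ∀ i x, Commute (R i) x → Commute (e R i) x := fun i x hx =>
    (((Commute.one_left x).add_left hx).add_left (hx.mul_left hx)).smul_left _
  have ceS : ∀ i j, Commute (e R i) (S j) := fun i j => by
    by_cases hij : i = j
    · subst hij
      simp only [Commute, SemiconjBy, e, mul_add, add_mul, smul_mul_assoc, mul_smul_comm, mul_assoc, h,
        h', h3', one_mul, mul_one]
      module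
    · exact ce _ _ (cS _ _ hij)
  have cE : ∀ x, (∀ i, Commute (e R i) x) → ∀ i, Commute (E R i) x := fun x hx i => by
    induction i with
    | zero => exact .one_left x
    | succ i ih => exact (hx i).mul_left ih
  have cER := fun j => cE _ fun i => ce i _ (cR i j)
  have cEn : ∀ i j, Commute (E R i) (n R S j) := fun i j =>
    ((Commute.one_right _).add_right (cE _ (ceS · j) i)).mul_right
      ((cER j i).sub_right ((cER j i).mul_right (cER j i)))
  replace hN : ∀ j, N j = E R j * n R S j := fun j => (hN j).trans (cEn j j).eq.symm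
  have cEe : ∀ i j, Commute (E R i) (e R j) := fun i j => (ce _ _ (cER j i).symm).symm
  have loc : ∀ j, e R j * e R j = e R j ∧ e R j * n R S j = 0 ∧ n R S j * n R S j = 0 ∧
      (n R S j + R j * n R S j * (R j * R j) + R j * R j * n R S j * R j) * (R j - R j * R j) =
        (-9 : ℝ) • (1 - e R j) := fun j => by
    simp only [e, n, mul_add, add_mul, mul_sub, sub_mul, smul_mul_assoc, mul_smul_comm, mul_assoc, h,
      h', h3, h2, h2', one_mul, mul_one]
    refine ⟨?_, ?_, ?_, ?_⟩ <;> module
  have EE' : ∀ j, ∀ i ≤ j, E R i * E R j = E R j := fun j => by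
    induction j with
    | zero => simp [E]
    | succ j ih =>
      have : ∀ i ≤ j, E R i * E R (j + 1) = E R (j + 1) := fun i hi => by
        rw [E, ← mul_assoc, (cEe i j).eq, mul_assoc, ih i hi]
      intro i hi
      rcases hi.eq_or_lt with rfl | hi
      · conv_lhs => lhs; rw [E]
        rw [mul_assoc, this j le_rfl, E, ← mul_assoc, (loc j).1]
      · exact this i (by omega)
  have EE : ∀ i j, E R i * E R j = E R (max i j) := fun i j => by
    rcases le_total i j with hij | hij
    · rw [max_eq_right hij, EE' _ _ hij]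
    · rw [max_eq_left hij, (cE _ (fun k => (cEe j k).symm) i).eq, EE' _ _ hij]
  have En : ∀ i j, i < j → E R j * n R S i = 0 := fun i j hij => by
    rw [← max_eq_left (Nat.succ_le_of_lt hij), ← EE, E, ← (cEe i i).eq, mul_assoc, mul_assoc,
      (loc i).2.1, mul_zero, mul_zero]
  have PN : ∀ i j, P i * N j = if j = i then N i else 0 := fun i j => by
    simp only [hP, hN, sub_mul, ← mul_assoc, EE]
    rcases lt_trichotomy i j with hij | rfl | hij
    · rw [max_eq_right hij.le, max_eq_right (by omega), if_neg (by omega), sub_self]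
    · simp [En]
    · rw [En _ _ (by omega), En _ _ (by omega), if_neg (by omega), sub_self]
  refine ⟨fun i j => ?_, PN, fun i j => ?_, fun i j => ?_, fun j => ?_⟩
  · simp only [hP, sub_mul, mul_sub, EE]
    rcases lt_trichotomy i j with hij | rfl | hij
    · rw [if_neg (by omega), max_eq_right hij.le, max_eq_right (by omega), max_eq_right (by omega),
        max_eq_right (by omega)]; simp
    · simp
    · rw [if_neg (by omega), max_eq_left hij.le, max_eq_left (by omega), max_eq_left (by omega),
        max_eq_left (by omega)]; simp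
  · have : N i * P j = P j * N i := by
      simp only [hP, hN, sub_mul, mul_sub, mul_assoc, ← (cEn _ i).eq]
      simp only [← mul_assoc, EE, max_comm]
    rw [this, PN]; by_cases hij : i = j <;> simp [hij, eq_comm]
  · rw [hN, hN, mul_assoc, ← mul_assoc (n R S i), ← (cEn j i).eq, ← mul_assoc, ← mul_assoc, EE]
    rcases lt_trichotomy i j with hij | rfl | hij
    · rw [En _ _ (by omega), zero_mul]
    · rw [mul_assoc, (loc i).2.2.1, mul_zero]
    · rw [(cEn _ i).eq, mul_assoc, En _ _ (by omega), mul_zero]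
  · have := congrArg (E R j * ·) (loc j).2.2.2
    simp only [mul_smul_comm, mul_sub (E R j), mul_one, (cEe j j).eq] at this
    rw [hP, E, ← this, hN]
    simp only [← mul_assoc, mul_add, ← (cER j j).eq, mul_assoc (R j) (R j) (E R j)]

end Pool.Agent.H45.MErg
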