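import Mathlib

set_option maxHeartbeats 400000

open MeasureTheory Set ProbabilityTheory

namespace Pool.Agent.H45.Mst

noncomputable abbrev ν : Measure ℝ := volume.restrict (Icc 0 1)

instance : IsProbabilityMeasure ν := ⟨by simp⟩

lemma pi_cons {n : ℕ} {C : Set (Fin (n + 1) → ℝ)} (hC : MeasurableSet C) :
    Measure.pi (fun _ => ν) C = ∫⁻ a, Measure.pi (fun _ : Fin n => ν) {y | Fin.cons a y ∈ C} ∂ν := by
  rw [← (measurePreserving_piFinSuccAbove (fun _ : Fin (n + 1) => ν) 0).symm.measure_preimage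
    hC.nullMeasurableSet, Measure.prod_apply (MeasurableEquiv.measurable _ hC)]
  congr! with a
  ext y
  simp [MeasurableEquiv.piFinSuccAbove, Fin.consEquiv]

lemma lint {f : ℝ → ℝ} (hf : Continuous f) (h0 : ∀ x ∈ Icc (0 : ℝ) 1, 0 ≤ f x) {g : ℝ → ENNReal}
    (hg : ∀ x ∈ Icc (0 : ℝ) 1, g x = ENNReal.ofReal (f x)) :
    ∫⁻ x, g x ∂ν = ENNReal.ofReal (∫ x in (0 : ℝ)..1, f x) := by
  rw [setLIntegral_congr_fun measurableSet_Icc hg, intervalIntegral.integral_of_le zero_le_one,
    ← integral_Icc_eq_integral_Ioc, ofReal_integral_eq_lintegral_ofReal hf.integrableOn_Icc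
      ((ae_restrict_iff' measurableSet_Icc).2 (.of_forall h0))]

lemma split {F : ℝ → ℝ → ℝ} (hF : Continuous F.uncurry) {m : ℝ} (hm : m ∈ Icc (0 : ℝ) 1) :
    ∫ x in (0 : ℝ)..1, F x (min m x) = (∫ x in (0 : ℝ)..m, F x x) + ∫ x in m..1, F x m := by
  have : Continuous fun x => F x (min m x) := hF.comp (f := fun x => (x, min m x)) (by fun_prop)
  rw [← intervalIntegral.integral_add_adjacent_intervals (b := m) (this.intervalIntegrable _ _)
    (this.intervalIntegrable _ _)]
  congr 1
  · refine intervalIntegral.integral_congr fun x hx => ?_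
    rw [uIcc_of_le hm.1] at hx
    simp [min_eq_right hx.2]
  · refine intervalIntegral.integral_congr fun x hx => ?_
    rw [uIcc_of_le hm.2] at hx
    simp [min_eq_left hx.1]

def b (a r c : ℝ) : Fin 7 → ℝ := ![a, a, c, c, min a r, min a r, min (min a r) c]

def C : Set (Fin 10 → ℝ) := {x | ∀ i : Fin 7, x i.succ.succ.succ ≤ b (x 0) (x 1) (x 2) i}

lemma mC : MeasurableSet C := by
  simp only [C, ofPred_forall]
  refine MeasurableSet.iInter fun i => measurableSet_le (by fun_prop) ?_
  fin_cases i <;> simp [b] <;> fun_prop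

lemma ν_Iic {t : ℝ} (h : t ∈ Icc (0 : ℝ) 1) : ν (Iic t) = ENNReal.ofReal t := by
  rw [Measure.restrict_apply measurableSet_Iic,
    show Iic t ∩ Icc 0 1 = Icc 0 t from by ext; simp; grind]
  simp

theorem vol_C : Measure.pi (fun _ => ν) C = ENNReal.ofReal (67 / 3780) := by
  have m1 : ∀ {n} {C : Set (Fin (n + 1) → ℝ)}, MeasurableSet C → ∀ a,
      MeasurableSet {y : Fin n → ℝ | Fin.cons a y ∈ C} := fun hC a =>
    (measurable_pi_lambda _ fun i => by cases i using Fin.cases <;> (simp; try fun_prop) :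
      Measurable fun y : Fin _ → ℝ => (Fin.cons a y : _ → ℝ)) hC
  rw [pi_cons mC, lint (f := fun a => a ^ 2 * (a ^ 4 / 12 - a ^ 7 / 84 +
    (1 - a) * (a ^ 3 / 3 - a ^ 6 / 12))) (by fun_prop)]
  · congr 1
    ring_nf
    simp (disch := apply Continuous.intervalIntegrable; fun_prop) only
      [intervalIntegral.integral_add, intervalIntegral.integral_mul_const, integral_pow]
    norm_num
  · intro a ha
    have h1 : a ^ 7 ≤ a ^ 4 := pow_le_pow_of_le_one ha.1 ha.2 (by omega)
    have h2 : a ^ 6 ≤ a ^ 3 := pow_le_pow_of_le_one ha.1 ha.2 (by omega)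
    have := pow_nonneg ha.1 4
    have := pow_nonneg ha.1 3
    exact mul_nonneg (by positivity) (add_nonneg (by linarith) (mul_nonneg (by linarith [ha.2])
      (by linarith)))
  intro a ha
  rw [pi_cons (m1 mC a), lint (f := fun r => a ^ 2 * (min a r ^ 3 / 3 - min a r ^ 6 / 12))
    (by fun_prop)]
  · congr 1
    rw [split (F := fun _ m => a ^ 2 * (m ^ 3 / 3 - m ^ 6 / 12)) (by fun_prop) ha]
    simp (disch := apply Continuous.intervalIntegrable; fun_prop) only
      [intervalIntegral.integral_const_mul, intervalIntegral.integral_sub,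
        intervalIntegral.integral_div, integral_pow, intervalIntegral.integral_const, smul_eq_mul]
    ring
  · intro r hr
    have h0 := le_min ha.1 hr.1
    have h2 : min a r ^ 6 ≤ min a r ^ 3 := pow_le_pow_of_le_one h0 (min_le_of_left_le ha.2) (by omega)
    have := pow_nonneg h0 3
    exact mul_nonneg (by positivity) (by linarith)
  intro r hr
  have hm : min a r ∈ Icc (0 : ℝ) 1 := ⟨le_min ha.1 hr.1, min_le_of_left_le ha.2⟩
  rw [pi_cons (m1 (m1 mC a) r), lint (f := fun c => a ^ 2 * min a r ^ 2 * (c ^ 2 * min (min a r) c))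
    (by fun_prop)]
  · congr 1
    rw [split (F := fun c m => a ^ 2 * min a r ^ 2 * (c ^ 2 * m)) (by fun_prop) hm]
    simp only [← pow_succ, intervalIntegral.integral_const_mul, intervalIntegral.integral_mul_const,
      integral_pow]
    ring
  · intro c hc
    have := le_min hm.1 hc.1
    positivity
  intro c hc
  have : {y : Fin 7 → ℝ | (Fin.cons c y : Fin 8 → ℝ) ∈ {y : Fin 8 → ℝ | (Fin.cons r y : Fin 9 → ℝ) ∈
      {y : Fin 9 → ℝ | (Fin.cons a y : Fin 10 → ℝ) ∈ C}}} = univ.pi fun i => Iic (b a r c i) := by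
    ext y; simp only [C, mem_ofPred_eq, Fin.cons_succ, mem_univ_pi, mem_Iic]; rfl
  have hm' : min (min a r) c ∈ Icc (0 : ℝ) 1 := ⟨le_min hm.1 hc.1, min_le_of_left_le hm.2⟩
  rw [this, Measure.pi_pi]
  simp only [Fin.prod_univ_seven, b, Matrix.cons_val, ν_Iic ha, ν_Iic hc, ν_Iic hm, ν_Iic hm']
  have := ha.1; have := hc.1; have := hm.1
  simp (disch := positivity) only [← ENNReal.ofReal_mul]
  congr 1; ring

theorem vol_comp {ι : Type} [Fintype ι] {f : Fin 10 → ι} (hf : f.Injective) :
    Measure.pi (fun _ : ι => ν) {w | w ∘ f ∈ C} = ENNReal.ofReal (67 / 3780) := by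
  have h1 := (iIndepFun_pi (μ := fun _ : ι => ν) (X := fun _ => id) fun _ => aemeasurable_id).precomp hf
  rw [iIndepFun_iff_map_fun_eq_pi_map fun _ => by exact (measurable_pi_apply _).aemeasurable] at h1
  simp only [id, (measurePreserving_eval (fun _ : ι => ν) _).map_eq] at h1
  rw [← vol_C, ← h1, Measure.map_apply (by fun_prop) mC]
  rfl

end Pool.Agent.H45.Mst
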