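import Mathlib

set_option maxHeartbeats 400000

open Set Filter Topology Nat

namespace Pool.Agent.H45.Pam

noncomputable def S (c : ℕ → ℝ) (t : ℝ) : ℝ := ∑' k, c k * (t ^ k / k !)

lemma summ {c : ℕ → ℝ} {C l : ℝ} (h : ∀ k, |c k| ≤ C * l ^ k) (t : ℝ) :
    Summable fun k => c k * (t ^ k / k !) := by
  refine .of_norm_bounded ((Real.summable_pow_div_factorial (l * |t|)).mul_left C) fun k => ?_
  rw [Real.norm_eq_abs, abs_mul, abs_div, abs_pow, Nat.abs_cast, mul_pow, mul_div_assoc, ← mul_assoc]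
  gcongr; exact h k

lemma S_exp (C l t : ℝ) : S (fun k => C * l ^ k) t = C * Real.exp (l * t) := by
  simp only [S, Real.exp_eq_exp_ℝ, NormedSpace.exp_eq_tsum_div, ← tsum_mul_left, mul_pow]
  exact tsum_congr fun k => by ring

lemma S_deriv {c : ℕ → ℝ} {C l : ℝ} (hl : 0 ≤ l) (h : ∀ k, |c k| ≤ C * l ^ k) (t : ℝ) :
    HasDerivAt (S c) (S (fun k => c (k + 1)) t) t := by
  have : S c = fun t => c 0 + ∑' k, c (k + 1) * (t ^ (k + 1) / (k + 1)!) := funext fun t => by
    rw [S, (summ h t).tsum_eq_zero_add]; simp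
  rw [this]
  have hC : 0 ≤ C := by simpa using (abs_nonneg _).trans (h 0)
  refine (hasDerivAt_tsum_of_isPreconnected (t := Ioo (-(|t| + 1)) (|t| + 1)) (y₀ := 0)
    (g := fun k t => c (k + 1) * (t ^ (k + 1) / (k + 1)!))
    (g' := fun k t => c (k + 1) * (t ^ k / k !))
    ((Real.summable_pow_div_factorial (l * (|t| + 1))).mul_left (C * l)) isOpen_Ioo
    isPreconnected_Ioo (fun k y _ => ?_) (fun k y hy => ?_) ⟨by linarith [abs_nonneg t], by positivity⟩
    (by simp [summable_zero]) (abs_lt.1 (by linarith))).const_add _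
  · refine (((hasDerivAt_pow (k + 1) y).div_const ((k + 1)! : ℝ)).const_mul (c (k + 1))).congr_deriv ?_
    rw [factorial_succ]; push_cast; field_simp
  · rw [Real.norm_eq_abs, abs_mul, abs_div, abs_pow, Nat.abs_cast, mul_pow, mul_div_assoc,
      ← mul_assoc, mul_assoc C, ← _root_.pow_succ']
    have := (abs_lt.2 hy).le
    gcongr; exact h _

lemma S_shift {c : ℕ → ℝ} {C l : ℝ} (h : ∀ k, |c k| ≤ C * l ^ k) (t : ℝ) :
    HasSum (fun k : ℕ => (k : ℝ) * (c k * (t ^ k / k !))) (t * S (fun k => c (k + 1)) t) := by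
  have h' : ∀ k, |c (k + 1)| ≤ C * l * l ^ k := fun k => (h _).trans_eq (by ring)
  rw [← hasSum_nat_add_iff' 1]
  simp only [Finset.range_one, Finset.sum_singleton, cast_zero, zero_mul, sub_zero]
  have : ∀ k : ℕ, ((k + 1 : ℕ) : ℝ) * (c (k + 1) * (t ^ (k + 1) / (k + 1)!)) =
      t * (c (k + 1) * (t ^ k / k !)) := fun k => by rw [factorial_succ]; push_cast; field_simp; ring
  simp only [this]
  exact (summ h' t).hasSum.mul_left t

/-- the key growth lemma -/
theorem grow {C l : ℝ} (hl : 1 < l) : ∃ ρ < l, 1 < ρ ∧ ∀ c : ℕ → ℝ, (∀ k, 0 ≤ c k) → (∀ k, c k ≤ C * l ^ k) →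
    (∃ δ > 0, ∃ D, ∀ k, δ * ρ ^ k - D ≤ c k) → ∀ᶠ t in atTop, S c t < S (fun k => c (k + 1)) t := by
  obtain ⟨s, hs0, hs1, hs⟩ : ∃ s, 0 < s ∧ s < 1 ∧ 1 < s * l :=
    ⟨(1 + l) / (2 * l), by positivity, by rw [div_lt_one (by positivity)]; linarith,
      by field_simp; linarith⟩
  obtain ⟨κ, hκ, hκ'⟩ := exists_between hs
  have hr : s * l - κ * Real.log s < l := by
    have h1 := Real.one_sub_inv_le_log_of_pos hs0
    have h2 : κ * (s⁻¹ - 1) < l * (1 - s) := by
      have : s⁻¹ - 1 = (1 - s) / s := by field_simp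
      rw [this, ← mul_div_assoc, div_lt_iff₀ hs0]; nlinarith
    nlinarith
  obtain ⟨ρ, h1, h2⟩ := exists_between (max_lt hr hl)
  rw [max_lt_iff] at h1
  refine ⟨ρ, h2, h1.2, fun c h0 hc ⟨δ, hδ, D, hD⟩ => ?_⟩
  have ha : ∀ k, |c k| ≤ C * l ^ k := fun k => by rw [abs_of_nonneg (h0 k)]; exact hc k
  have hC : 0 ≤ C := by simpa using (h0 0).trans (hc 0)
  have T : ∀ a < ρ, Tendsto (fun t => Real.exp ((a - ρ) * t)) atTop (𝓝 0) := fun a ha =>
    Real.tendsto_exp_atBot.comp (tendsto_id.const_mul_atTop_of_neg (by linarith))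
  have := ((T _ h1.2).const_mul ((κ - 1) * D)).add ((T _ h1.1).const_mul (κ * C))
  filter_upwards [this.eventually (gt_mem_nhds (show _ < (κ - 1) * δ by
    simp only [mul_zero, add_zero]; exact mul_pos (by linarith) hδ)), eventually_gt_atTop 0] with t h ht
  have b1 : ∀ (C l : ℝ) k, |C * l ^ k| ≤ |C| * |l| ^ k := fun C l k => by rw [abs_mul, abs_pow]
  have l1 : δ * Real.exp (ρ * t) - D * Real.exp (1 * t) ≤ S c t := by
    rw [← S_exp, ← S_exp, S, S, ← (summ (b1 _ _) t).tsum_sub (summ (b1 _ _) t)]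
    refine ((summ (b1 _ _) t).sub (summ (b1 _ _) t)).tsum_le_tsum (fun k => ?_) (summ ha t)
    rw [← sub_mul, one_pow, mul_one]; gcongr; exact hD k
  have l2 : κ * t * S c t - κ * t * Real.exp (-κ * Real.log s * t) * (C * Real.exp (s * l * t)) ≤
      t * S (fun k => c (k + 1)) t := by
    rw [← S_exp C]
    refine hasSum_le (fun k => ?_) (((summ ha t).hasSum.mul_left _).sub
      ((summ (b1 _ _) t).hasSum.mul_left _)) (S_shift ha t)
    have p : 0 ≤ t ^ k / k ! := by positivity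
    have := h0 k
    by_cases hk : κ * t ≤ k
    · have : 0 ≤ κ * t * Real.exp (-κ * Real.log s * t) * (C * (s * l) ^ k * (t ^ k / k !)) := by
        have : 0 < κ := by linarith
        have : 0 < l := by linarith
        positivity
      nlinarith [mul_nonneg (h0 k) p]
    · have e : 1 ≤ Real.exp (-κ * Real.log s * t) * s ^ k := by
        rw [← Real.exp_log (pow_pos hs0 k), ← Real.exp_add, Real.log_pow]
        refine Real.one_le_exp ?_
        nlinarith [Real.log_neg hs0 hs1]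
      have e2 : c k ≤ Real.exp (-κ * Real.log s * t) * s ^ k * (C * l ^ k) :=
        (hc k).trans (le_mul_of_one_le_left ((h0 k).trans (hc k)) e)
      have : 0 < κ * t := mul_pos (by linarith) ht
      have e3 := mul_le_mul_of_nonneg_left (mul_le_mul_of_nonneg_right e2 p) this.le
      rw [mul_pow]
      nlinarith [mul_nonneg (cast_nonneg k) (mul_nonneg (h0 k) p)]
  have l3 : κ * S c t - κ * C * Real.exp ((s * l - κ * Real.log s) * t) ≤
      S (fun k => c (k + 1)) t := by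
    refine le_of_mul_le_mul_left (le_of_eq_of_le ?_ l2) ht
    rw [show (s * l - κ * Real.log s) * t = -κ * Real.log s * t + s * l * t by ring, Real.exp_add]
    ring
  have h4 := mul_lt_mul_of_pos_right h (Real.exp_pos (ρ * t))
  simp only [add_mul, mul_assoc, ← Real.exp_add, sub_mul, sub_add_cancel] at h4
  simp only [sub_mul, mul_assoc] at l3
  nlinarith

noncomputable def A (ξ : ℤ → ℝ) (f : ℤ → ℝ) (y : ℤ) : ℝ := (f (y + 1) + f (y - 1)) / 2 + ξ y * f y

variable {ξ : ℤ → ℝ} {m M : ℝ} (hm : 0 < m) (h : ∀ y, m ≤ ξ y ∧ ξ y ≤ M)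
include hm h

lemma A_mono {f g : ℤ → ℝ} (hf : f ≤ g) (k : ℕ) : (A ξ)^[k] f ≤ (A ξ)^[k] g := by
  refine Monotone.iterate (fun f g hf y => ?_) k hf
  have := hm.le.trans (h y).1
  unfold A; gcongr <;> exact hf _

omit hm h in
lemma A_smul (a : ℝ) (f : ℤ → ℝ) (k : ℕ) : (A ξ)^[k] (a • f) = a • (A ξ)^[k] f :=
  (Function.Commute.iterate_right (f := (a • ·)) (fun f => by
    funext y; simp only [A, Pi.smul_apply, smul_eq_mul]; ring) k f).symm

lemma A_nonneg {f : ℤ → ℝ} (hf : 0 ≤ f) (k : ℕ) : 0 ≤ (A ξ)^[k] f := by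
  have := A_smul (ξ := ξ) 0 0 k
  simp only [zero_smul] at this
  exact this ▸ A_mono hm h hf k

lemma A_le {f : ℤ → ℝ} {C : ℝ} (hC : 0 ≤ C) (hf : ∀ y, f y ≤ C) (k : ℕ) (y : ℤ) :
    (A ξ)^[k] f y ≤ C * (1 + M) ^ k := by
  refine (A_mono hm h (g := fun _ => C) hf k y).trans ?_
  have hM := (hm.le.trans (h 0).1).trans (h 0).2
  induction k generalizing y with
  | zero => simp
  | succ k ih =>
    rw [Function.iterate_succ_apply', A]
    have := mul_le_mul (h y).2 (ih y) (A_nonneg hm h (fun _ => hC) k y) hM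
    have := ih (y + 1); have := ih (y - 1)
    rw [_root_.pow_succ]; linarith

lemma A_pos {f : ℤ → ℝ} (hf : 0 ≤ f) {x : ℤ} (hx : 0 < f x) (k : ℕ) :
    ∀ y, |y - x| ≤ k → 0 < (A ξ)^[k] f y := by
  induction k with
  | zero => intro y hy; simp_all [sub_eq_zero]
  | succ k ih =>
    intro y hy
    rw [Function.iterate_succ_apply', A]
    have h1 := A_nonneg hm h hf k
    have h2 := hm.trans_le (h y).1
    have h3 := mul_nonneg h2.le (h1 y)
    have := h1 (y + 1); have := h1 (y - 1)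
    simp only [Pi.zero_apply] at *
    rw [abs_le] at hy
    rcases lt_trichotomy y x with h | h | h
    · linarith [ih (y + 1) (abs_le.2 (by omega))]
    · linarith [mul_pos h2 (ih y (abs_le.2 (by omega)))]
    · linarith [ih (y - 1) (abs_le.2 (by omega))]

lemma A_low {f : ℤ → ℝ} (hf : 0 ≤ f) (h0 : 0 < f 0) {ρ a : ℝ} (hρ : 1 ≤ ρ) {L : ℕ} (hL : 0 < L)
    (hl : 1 ≤ L * (1 + a - ρ)) {b : ℤ} (hb : ∀ j : ℕ, j < L → a < ξ (b + j)) (x : ℤ) :
    ∃ δ > 0, ∃ D, ∀ k, δ * ρ ^ k - D ≤ (A ξ)^[k] f x := by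
  let ψ : ℤ → ℝ := fun y => max 0 ((y - b + 1) * (b + L - y))
  have p0 : 0 ≤ ψ := fun y => le_max_left _ _
  have p1 : ∀ y, ψ y = 0 ∨ (b ≤ y ∧ y < b + L) := fun y => by
    by_contra! H
    refine H.1 (max_eq_left ?_)
    have : (y - b + 1) * (b + L - y) ≤ 0 := by
      rcases lt_or_ge y b with h | h
      · exact mul_nonpos_of_nonpos_of_nonneg (by omega) (by omega)
      · exact mul_nonpos_of_nonneg_of_nonpos (by omega) (by have := H.2 h; omega)
    exact_mod_cast this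
  have p2 : ρ • ψ ≤ A ξ ψ := fun y => by
    rcases p1 y with h1 | h1
    · simp only [Pi.smul_apply, h1, smul_zero]; exact A_nonneg hm h p0 1 y
    have e : (L : ℝ) ≤ (y - b + 1) * (b + L - y) := by
      have : (L : ℤ) ≤ (y - b + 1) * (b + L - y) := by nlinarith
      exact_mod_cast this
    have e0 : ψ y = (y - b + 1) * (b + L - y) := max_eq_right (by linarith [Nat.cast_nonneg (α := ℝ) L])
    have e1 : _ ≤ ψ (y + 1) := le_max_right _ _
    have e2 : _ ≤ ψ (y - 1) := le_max_right _ _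
    have e3 := hb (y - b).toNat (by omega)
    rw [show b + ((y - b).toNat : ℤ) = y by omega] at e3
    have hL' : (0 : ℝ) < L := by exact_mod_cast hL
    have e4 : 0 < 1 + a - ρ := by
      by_contra! H; nlinarith
    push_cast at e1 e2
    simp only [Pi.smul_apply, smul_eq_mul, A]
    nlinarith [mul_le_mul_of_nonneg_right e3.le (p0 y), mul_le_mul_of_nonneg_right e e4.le]
  have p3 : ∀ k, ρ ^ k • ψ ≤ (A ξ)^[k] ψ := fun k => by
    induction k with
    | zero => simp
    | succ k ih =>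
      rw [Function.iterate_succ_apply, _root_.pow_succ', mul_smul]
      refine le_trans ?_ (A_mono hm h p2 k)
      rw [A_smul]
      exact smul_le_smul_of_nonneg_left ih (by linarith)
  set n := b.natAbs + L
  obtain ⟨ε, hε, p4⟩ : ∃ ε > (0 : ℝ), ε • ψ ≤ (A ξ)^[n] f := by
    have : ∀ y ∈ Finset.Ico b (b + L), ∀ᶠ ε in 𝓝[>] (0 : ℝ), ε * ψ y < (A ξ)^[n] f y := fun y hy =>
      nhdsWithin_le_nhds (((continuous_mul_const (ψ y)).tendsto 0).eventually (gt_mem_nhds (by
        rw [zero_mul]; simp only [Finset.mem_Ico] at hy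
        exact A_pos hm h hf h0 n y (abs_le.2 (by omega)))))
    obtain ⟨ε, h1, h2⟩ := (((eventually_all_finset _).2 this).and self_mem_nhdsWithin).exists
    refine ⟨ε, h2, fun y => ?_⟩
    rcases p1 y with h3 | h3
    · simpa [h3] using A_nonneg hm h hf n y
    · exact (h1 y (Finset.mem_Ico.2 h3)).le
  set n' := (x - b).natAbs
  have p5 : 0 < (A ξ)^[n'] ψ x := A_pos hm h p0 (x := b) (by simp [ψ, hL]) _ _ (by simp [n'])
  have hρ0 : 0 < ρ := by linarith
  refine ⟨ε * (A ξ)^[n'] ψ x / ρ ^ (n' + n), by positivity, ε * (A ξ)^[n'] ψ x, fun k => ?_⟩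
  rcases le_total k (n' + n) with hk | hk
  · refine le_trans (sub_nonpos.2 ?_) (A_nonneg hm h hf k x)
    rw [div_mul_eq_mul_div, div_le_iff₀ (by positivity)]
    gcongr
  obtain ⟨j, rfl⟩ : ∃ j, k = n' + j + n := ⟨k - (n' + n), by omega⟩
  have := A_mono hm h (((smul_le_smul_of_nonneg_left (p3 j) hε.le).trans_eq
    (A_smul _ _ _).symm).trans (A_mono hm h p4 j)) n' x
  rw [A_smul, A_smul] at this
  rw [Function.iterate_add_apply, Function.iterate_add_apply]
  refine le_trans ?_ this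
  have e : ε * (A ξ)^[n'] ψ x / ρ ^ (n' + n) * ρ ^ (n' + j + n) = ε * (ρ ^ j * (A ξ)^[n'] ψ x) := by
    simp only [pow_add]; field_simp
  simp only [e, Pi.smul_apply, smul_eq_mul]
  linarith [mul_pos hε p5]

end Pool.Agent.H45.Pam
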