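import Pool.Agent.H45.Dep

open MeasureTheory ProbabilityTheory Filter Topology Finset Pool.Agent.H45.Dep
open scoped ENNReal

namespace Pool.Agent.H45.Penney

variable {n : ℕ}

/-- fair coin tossing -/
noncomputable def coin : Measure (ℕ → Bool) := Measure.infinitePi fun _ => uniformOn Set.univ

/-- the string `A` appears at position `t` -/
def occ (A : Fin n → Bool) (t : ℕ) : Set (ℕ → Bool) := {X | ∀ i : Fin n, X (t + i) = A i}

/-- `B` appears before `A` -/
def win (B A : Fin n → Bool) : Set (ℕ → Bool) := {X | ∃ t, X ∈ occ B t ∧ ∀ s ≤ t, X ∉ occ A s}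

instance : IsProbabilityMeasure coin := by unfold coin; infer_instance

def F (W V : Fin n → Bool) (s : ℕ) : Set (ℕ → Bool) :=
  {X | X ∈ occ W s ∧ ∀ s' < s, X ∉ occ W s' ∧ X ∉ occ V s'}
def ov (W Z : Fin n → Bool) (r : ℕ) : Prop := ∀ i j : Fin n, (j : ℕ) = r + i → W j = Z i
def ext (Z : Fin n → Bool) (k : ℕ) : Bool := if h : k < n then Z ⟨k, h⟩ else false

lemma cyl {A : Set (ℕ → Bool)} {t : ℕ} (h : Dep (range t) A) (k : ℕ) (f : ℕ → Bool) :
    coin (A ∩ {X | ∀ j ∈ Ico t (t + k), X j = f j}) = coin A * 2⁻¹ ^ k := by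
  rw [coin, h.inter _ (T := Ico t (t + k)) (B := {X | ∀ j ∈ Ico t (t + k), X j = f j}) (fun X Y e H j hj => (e j hj).symm.trans (H j hj))
    (by simp [disjoint_left]; omega), show {X : ℕ → Bool | ∀ j ∈ Ico t (t + k), X j = f j} =
      Set.pi (Ico t (t + k) : Finset ℕ) fun j => {f j} by ext; simp, Measure.infinitePi_pi _ (by simp)]
  simp only [uniformOn_univ]
  simp

lemma occ_iff {Z : Fin n → Bool} {t X} : X ∈ occ Z t ↔ ∀ j ∈ Ico t (t + n), X j = ext Z (j - t) :=
  ⟨fun h j hj => by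
    have := mem_Ico.1 hj
    rw [ext, dif_pos (by omega), ← h]; congr; simp; omega,
  fun h i => by simpa [ext] using h (t + i) (by simp)⟩

lemma dep_occ {Z : Fin n → Bool} {s t : ℕ} (h : s + n ≤ t) {X Y : ℕ → Bool} (e : ∀ i ∈ range t, X i = Y i) :
    X ∈ occ Z s ↔ Y ∈ occ Z s := forall_congr' fun i => by rw [e _ (by simp; omega)]

lemma depF (W V : Fin n → Bool) (s : ℕ) : Dep (range (s + n)) (F W V s) := fun _ _ e h =>
  ⟨(dep_occ le_rfl e).1 h.1, fun s' hs => by
    rw [← dep_occ (by omega) e, ← dep_occ (by omega) e]; exact h.2 s' hs⟩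

open Classical in
lemma F_occ (W V Z : Fin n → Bool) (s r : ℕ) (hr : r < n) :
    coin (F W V s ∩ occ Z (s + r)) = coin (F W V s) * if ov W Z r then 2⁻¹ ^ r else 0 := by
  split_ifs with h
  · rw [← cyl (depF W V s) r fun j => ext Z (j - (s + r))]
    congr 1; ext X
    refine and_congr_right fun H => ⟨fun h j hj => occ_iff.1 h j (by simp at *; omega), fun h' i => ?_⟩
    by_cases e : r + i < n
    · rw [← h i ⟨_, e⟩ rfl, ← H.1, add_assoc]
    · simpa [ext] using h' (s + r + i) (by simp; omega)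
  · rw [mul_zero, Set.eq_empty_of_forall_notMem (s := F W V s ∩ occ Z (s + r)) fun X H => h fun i j e => by
      rw [← H.1.1, ← H.2, e, add_assoc], measure_empty]

lemma win_eq {W V : Fin n → Bool} (h : W ≠ V) : coin (win W V) = ∑' s, coin (F W V s) := by
  classical
  rw [← measure_iUnion (fun s t e => Set.disjoint_left.2 fun X a b => by
    rcases lt_or_gt_of_ne e with e | e
    exacts [(b.2 s e).1 a.1, (a.2 t e).1 b.1]) fun s => (depF W V s).meas]
  congr 1; ext X
  refine ⟨fun ⟨t, a, b⟩ => Set.mem_iUnion.2 ⟨Nat.find ⟨t, a⟩, Nat.find_spec (⟨t, a⟩ : ∃ t, X ∈ occ W t),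
    fun s hs => ⟨Nat.find_min _ hs, b s (hs.le.trans (Nat.find_min' _ a))⟩⟩, fun H => ?_⟩
  obtain ⟨s, a, b⟩ := Set.mem_iUnion.1 H
  refine ⟨s, a, fun t ht c => ?_⟩
  rcases ht.eq_or_lt with rfl | ht
  exacts [h (funext fun i => (a i).symm.trans (c i)), (b t ht).2 c]

open Classical in
noncomputable def c (W Z : Fin n → Bool) : ℝ≥0∞ := ∑ r ∈ range n, if ov W Z r then 2⁻¹ ^ r else 0

def N (A B : Fin n → Bool) (t : ℕ) : Set (ℕ → Bool) := {X | ∀ s, s + n ≤ t → X ∉ occ A s ∧ X ∉ occ B s}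

lemma conway {A B Z : Fin n → Bool} (h : A ≠ B) (hZ : Z = A ∨ Z = B) :
    (∑' t, coin (N A B t)) * 2⁻¹ ^ n = coin (win A B) * c A Z + coin (win B A) * c B Z := by
  classical
  have mo : ∀ t, MeasurableSet (occ Z t) := fun t =>
    Dep.meas (S := range (t + n)) fun _ _ e => (dep_occ le_rfl e).1
  have : ∀ t, coin (N A B t) * 2⁻¹ ^ n = ∑' s, if t ∈ Ico s (s + n) then
      coin (F A B s ∩ occ Z t) + coin (F B A s ∩ occ Z t) else 0 := fun t => by
    rw [← cyl (t := t) (A := N A B t) (fun _ _ e h s hs => by rw [← dep_occ hs e, ← dep_occ hs e]; exact h s hs) n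
      fun j => ext Z (j - t), show N A B t ∩ _ = ⋃ s, if t ∈ Ico s (s + n) then
        (F A B s ∩ occ Z t) ∪ (F B A s ∩ occ Z t) else ∅ from ?_, measure_iUnion]
    · refine tsum_congr fun s => ?_
      split_ifs
      · exact measure_union (Set.disjoint_left.2 fun X a b => h (funext fun i =>
          (a.1.1 i).symm.trans (b.1.1 i))) ((depF _ _ s).meas.inter (mo t))
      · simp
    · refine fun s s' e => Set.disjoint_left.2 fun X a b => ?_
      simp only [F, Set.mem_union, Set.mem_inter_iff, Set.mem_ofPred_eq, Set.mem_ite_empty_right] at a b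
      rcases lt_or_gt_of_ne e with e | e <;> grind
    · intro s
      split_ifs
      exacts [((depF _ _ s).meas.inter (mo t)).union ((depF _ _ s).meas.inter (mo t)), .empty]
    · ext X
      rw [Set.mem_inter_iff, Set.mem_ofPred_eq, ← occ_iff]
      simp only [Set.mem_iUnion, Set.mem_inter_iff, Set.mem_ofPred_eq, Set.mem_ite_empty_right,
        Set.mem_union, F, N, mem_Ico]
      refine ⟨fun ⟨a, b⟩ => ?_, fun ⟨s, a, b⟩ => by grind⟩
      have ex : ∃ s, X ∈ occ A s ∨ X ∈ occ B s := ⟨t, by grind⟩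
      have h1 := Nat.find_spec ex
      have h2 := fun s => Nat.find_min ex (m := s)
      exact ⟨Nat.find ex, by grind, by grind⟩
  rw [← ENNReal.tsum_mul_right, tsum_congr this, ENNReal.tsum_comm, win_eq h, win_eq h.symm,
    ← ENNReal.tsum_mul_right, ← ENNReal.tsum_mul_right, ← ENNReal.tsum_add]
  refine tsum_congr fun s => ?_
  rw [tsum_eq_sum (s := Ico s (s + n)) fun t ht => if_neg ht, sum_congr rfl fun t ht => if_pos ht,
    sum_Ico_eq_sum_range, add_tsub_cancel_left, c, c, mul_sum, mul_sum, ← sum_add_distrib]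
  exact sum_congr rfl fun r hr => by rw [F_occ _ _ _ _ _ (mem_range.1 hr), F_occ _ _ _ _ _ (mem_range.1 hr)]

open Classical in
noncomputable def cr (W Z : Fin n → Bool) : ℝ := ∑ r ∈ range n, if ov W Z r then (1 / 2) ^ r else 0

theorem odds {A B : Fin n → Bool} (h : A ≠ B) : coin.real (win A B) + coin.real (win B A) = 1 ∧
    coin.real (win A B) * cr A A + coin.real (win B A) * cr B A =
      coin.real (win A B) * cr A B + coin.real (win B A) * cr B B := by
  classical
  have fin : ∀ W Z : Fin n → Bool, c W Z ≠ ⊤ ∧ (c W Z).toReal = cr W Z := fun W Z => by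
    have : ∀ r ∈ range n, (if ov W Z r then 2⁻¹ ^ r else 0 : ℝ≥0∞) ≠ ⊤ := fun r _ => by
      split_ifs <;> finiteness
    refine ⟨ENNReal.sum_ne_top.2 this, (ENNReal.toReal_sum this).trans (sum_congr rfl fun r _ => ?_)⟩
    split_ifs <;> simp
  have f2 : ∀ W V Z : Fin n → Bool, coin (win W V) * c W Z ≠ ⊤ := fun W V Z =>
    ENNReal.mul_ne_top (by simp) (fin W Z).1
  constructor
  · have m : ∀ W V : Fin n → Bool, MeasurableSet (win W V) := fun W V => by
      unfold win occ; measurability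
    have : coin (win A B ∪ win B A)ᶜ = 0 := by
      have := ENNReal.tendsto_atTop_zero_of_tsum_ne_top (f := fun t => coin (N A B t)) fun e => by
        have := conway h (.inl rfl)
        rw [e, ENNReal.top_mul (by simp)] at this
        exact ENNReal.add_ne_top.2 ⟨f2 _ _ _, f2 _ _ _⟩ this.symm
      refine nonpos_iff_eq_zero.1 (ge_of_tendsto' this fun t => measure_mono fun X H s _ => ?_)
      by_contra e
      have ex : ∃ s, X ∈ occ A s ∨ X ∈ occ B s := ⟨s, by tauto⟩
      have h2 := fun s => Nat.find_min ex (m := s)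
      have h3 : ∀ s, X ∈ occ A s → X ∉ occ B s := fun s a b => h (funext fun i => (a i).symm.trans (b i))
      rcases Nat.find_spec ex with h1 | h1
      · exact H (.inl ⟨_, h1, by grind⟩)
      · exact H (.inr ⟨_, h1, by grind⟩)
    rw [← measureReal_union (μ := coin) (s₁ := win A B) (s₂ := win B A) (Set.disjoint_left.2 fun X ⟨s, a, b⟩ ⟨t, a', b'⟩ =>
      (le_total s t).elim (fun e => b' s e a) fun e => b t e a') (m _ _), measureReal_def,
      (prob_compl_eq_zero_iff ((m _ _).union (m _ _))).1 this, ENNReal.toReal_one]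
  · have := congrArg ENNReal.toReal ((conway h (.inl rfl)).symm.trans (conway h (.inr rfl)))
    simpa only [ENNReal.toReal_add (f2 _ _ _) (f2 _ _ _), ENNReal.toReal_mul, (fin _ _).2, measureReal_def]
      using this

open Classical in
/-- sum of the overlap terms with shift at least `k` -/
noncomputable def tl (k : ℕ) (W Z : Fin n → Bool) : ℝ :=
  ∑ r ∈ Ico k n, if ov W Z r then (1 / 2) ^ r else 0

lemma tl_nonneg (k : ℕ) (W Z : Fin n → Bool) : 0 ≤ tl k W Z := sum_nonneg fun _ _ => by positivity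

lemma cr_self (hn : 0 < n) (W : Fin n → Bool) : cr W W = 1 + tl 1 W W := by
  rw [cr, range_eq_Ico, sum_eq_sum_Ico_succ_bot hn, if_pos (show ov W W 0 from fun i j e => by
    rw [Fin.ext (e.trans (zero_add _))])]
  simp [tl]

lemma cr_ne (hn : 0 < n) {W Z : Fin n → Bool} (h : W ≠ Z) : cr W Z = tl 1 W Z := by
  rw [cr, range_eq_Ico, sum_eq_sum_Ico_succ_bot hn, if_neg fun e => h (funext fun i => e i i (by simp))]
  simp [tl]

open Classical in
lemma tl_one (hn : 1 < n) (W Z : Fin n → Bool) : tl 1 W Z = (if ov W Z 1 then 1 / 2 else 0) + tl 2 W Z := by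
  rw [tl, sum_eq_sum_Ico_succ_bot hn, pow_one]; rfl

lemma tl_two (W Z : Fin n → Bool) : tl 2 W Z ≤ 1 / 2 := by
  refine (sum_le_sum fun r _ => ?_).trans ((geom_sum_Ico_le_of_lt_one (x := (1 / 2 : ℝ)) (by norm_num)
    (by norm_num)).trans (by norm_num))
  split_ifs <;> simp

lemma count (S : Finset (Fin n → Bool)) (a : ℕ) (h : ∀ A ∈ S, ∀ B ∈ S, ∀ j : Fin n, a ≤ j → j + 1 < n →
    (∀ i < j, A i = B i) → A j = B j) : #S ≤ 2 ^ a * 2 := by
  refine (card_le_card_of_injOn (t := univ) (fun A => (fun i : Fin a => ext A i, ext A (n - 1))) (by simp)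
    fun A hA B hB e => funext fun j => ?_).trans (by simp)
  induction j using WellFoundedLT.induction with
  | ind j ih =>
    by_cases hj : a ≤ j
    · by_cases hj' : j + 1 < n
      · exact h A hA B hB j hj hj' ih
      · simpa [ext, show n - 1 = j by omega] using congrArg Prod.snd e
    · simpa [ext] using congrFun (congrArg Prod.fst e) ⟨j, not_le.1 hj⟩

lemma sum_tl {k : ℕ} (W Z : (Fin n → Bool) → Fin n → Bool)
    (h : ∀ r ≥ k, ∀ A B, ov (W A) (Z A) r → ov (W B) (Z B) r → ∀ j : Fin n, r ≤ j → j + 1 < n →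
      (∀ i < j, A i = B i) → A j = B j) : ∑ A, tl k (W A) (Z A) ≤ 2 * n := by
  classical
  simp only [tl]
  rw [sum_comm]
  refine (sum_le_card_nsmul _ _ 2 fun r hr => ?_).trans (by simp [mul_comm])
  have := count {A | ov (W A) (Z A) r} r fun A hA B hB =>
    h r (mem_Ico.1 hr).1 A B (mem_filter.1 hA).2 (mem_filter.1 hB).2
  rw [← sum_filter, sum_const, nsmul_eq_mul, one_div_pow, mul_one_div, div_le_iff₀ (by positivity)]
  exact_mod_cast this.trans_eq (by ring)

end Pool.Agent.H45.Penney
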