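import Mathlib

open MeasureTheory Filter Topology Finset
open scoped ENNReal

namespace Pool.Agent.H45.Per

variable {T W : Type} [Fintype T] [Fintype W] [DecidableEq T] [DecidableEq W] (q : T → W → ℕ)

/-- product of the other moduli -/
def co (a : T × W) : ℕ := ∏ b ∈ univ.erase a, q b.1 b.2

lemma co_mul (a : T × W) : q a.1 a.2 * co q a = ∏ t, ∏ l, q t l := by
  rw [co, mul_prod_erase univ (fun b : T × W => q b.1 b.2) (mem_univ a), Fintype.prod_prod_type]

noncomputable def Φ (x : ℝ) (t : T) (l : W) : ZMod (q t l) :=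
  (co q (t, l) : ZMod (q t l))⁻¹ * (⌊(∏ t, ∏ l, q t l : ℕ) * x⌋ : ℤ)

variable {q} (hq : Pairwise fun a b : T × W => (q a.1 a.2).Coprime (q b.1 b.2)) [∀ t l, NeZero (q t l)]
include hq

omit [∀ t l, NeZero (q t l)] in
lemma cop (a : T × W) : (co q a).Coprime (q a.1 a.2) :=
  Nat.Coprime.prod_left fun _ hb => hq (ne_of_mem_erase hb)

lemma shift (x : ℝ) (t : T) (i : W) : Φ q (x + 1 / q t i) t i = Φ q x t i + 1 ∧
    ∀ l ≠ i, Φ q (x + 1 / q t i) t l = Φ q x t l := by
  have h0 : (q t i : ℝ) ≠ 0 := NeZero.ne _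
  have : ⌊(∏ t, ∏ l, q t l : ℕ) * (x + 1 / q t i)⌋ = ⌊(∏ t, ∏ l, q t l : ℕ) * x⌋ + co q (t, i) := by
    rw [← Int.floor_add_natCast, mul_add, ← co_mul q (t, i)]
    congr 2; push_cast; field_simp
  simp only [Φ, this]
  simp only [Int.cast_add, mul_add, Int.cast_natCast]
  refine ⟨by rw [ZMod.inv_mul_of_unit _ ((ZMod.isUnit_iff_coprime _ _).2 (cop hq (t, i)))], fun l hl => ?_⟩
  rw [(ZMod.natCast_eq_zero_iff (co q (t, i)) _).2
    (dvd_prod_of_mem (fun b : T × W => q b.1 b.2) (a := (t, l)) (by simpa)), mul_zero, add_zero]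

lemma law (S : Finset (∀ t l, ZMod (q t l))) :
    volume {x ∈ Set.Ico (0 : ℝ) 1 | Φ q x ∈ S} ≤ ENNReal.ofReal (#S / ∏ t, ∏ l, (q t l : ℝ)) := by
  set M := ∏ t, ∏ l, q t l with hM
  have M0 : (0 : ℝ) < M := by
    exact_mod_cast prod_pos fun t _ => prod_pos fun l _ => NeZero.pos (q t l)
  have : {x ∈ Set.Ico (0 : ℝ) 1 | Φ q x ∈ S} = ⋃ γ ∈ S, {x ∈ Set.Ico (0 : ℝ) 1 | Φ q x = γ} := by
    ext; simp
  rw [this, show ∏ t, ∏ l, (q t l : ℝ) = M by simp [hM], div_eq_mul_inv,
    ENNReal.ofReal_mul (by positivity), ENNReal.ofReal_natCast, ← nsmul_eq_mul]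
  refine (measure_biUnion_finset_le _ _).trans (sum_le_card_nsmul _ _ _ fun γ _ => ?_)
  rcases Set.eq_empty_or_nonempty {x ∈ Set.Ico (0 : ℝ) 1 | Φ q x = γ} with h | ⟨y, hy, rfl⟩
  · rw [h]; simp
  refine (measure_mono (t := Set.Ico (⌊M * y⌋ / M : ℝ) ((⌊M * y⌋ + 1) / M)) ?_).trans
    (by simp [add_div])
  rintro x ⟨hx, h⟩
  have : (M : ℤ) ∣ ⌊M * x⌋ - ⌊M * y⌋ := by
    rw [hM, ← Fintype.prod_prod_type', Nat.cast_prod, Fintype.prod_prod_type', ← hM]
    refine Finset.prod_dvd_of_coprime (fun a _ b _ h => Nat.isCoprime_iff_coprime.2 (hq h)) fun a _ => ?_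
    have := congrArg ((co q a : ZMod (q a.1 a.2)) * ·) (congrFun₂ h a.1 a.2)
    simp only [Φ, ← mul_assoc, ZMod.coe_mul_inv_eq_one _ (cop hq a), one_mul] at this
    exact (ZMod.intCast_eq_intCast_iff_dvd_sub _ _ _).1 this.symm
  have b : ∀ z ∈ Set.Ico (0 : ℝ) 1, 0 ≤ ⌊M * z⌋ ∧ ⌊M * z⌋ < M := fun z hz =>
    ⟨Int.floor_nonneg.2 (mul_nonneg M0.le hz.1), Int.floor_lt.2 (by simpa using mul_lt_of_lt_one_right M0 hz.2)⟩
  have e := Int.eq_zero_of_abs_lt_dvd this (abs_lt.2 ⟨by linarith [b x hx, b y hy], by linarith [b x hx, b y hy]⟩)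
  rw [← sub_eq_zero.1 e, Set.mem_Ico, div_le_iff₀ M0, lt_div_iff₀ M0, mul_comm x]
  exact ⟨Int.floor_le _, Int.lt_floor_add_one _⟩

omit hq
def J (n : ℕ) [NeZero n] : Finset (ZMod n) := {j | j.val < n / 2}
def K (n : ℕ) [NeZero n] : Finset (ZMod n) := {j | 5 * n ≤ 8 * j.val ∧ 4 * j.val < 3 * n}

lemma card_val (n : ℕ) [NeZero n] (a b : ℕ) (h : b ≤ n) : #{j : ZMod n | a ≤ j.val ∧ j.val < b} = b - a := by
  rw [← Nat.card_Ico]
  refine card_bij (fun j _ => j.val) (by simp) (fun _ _ _ _ h => ZMod.val_injective n h) fun k hk => ?_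
  have := ZMod.val_cast_of_lt ((mem_Ico.1 hk).2.trans_le h)
  exact ⟨k, by simpa [this] using hk, this⟩

lemma cJ (n : ℕ) [NeZero n] : #(J n) = n / 2 := by simpa [J] using card_val n 0 (n / 2) (by omega)

lemma cK (n : ℕ) [NeZero n] (h : 64 ≤ n) : n ≤ 16 * #(K n) := by
  have := card_le_card (show ({j : ZMod n | 5 * n / 8 + 1 ≤ j.val ∧ j.val < 3 * n / 4} : Finset _) ⊆ K n from
    fun j => by simp only [K, mem_filter, mem_univ, true_and]; omega)
  rw [card_val _ _ _ (by omega)] at this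
  omega

lemma tribe (r : W → ℕ) [∀ l, NeZero (r l)] (h : ∀ l, 64 ≤ r l ∧ 2 * Fintype.card W ≤ r l) :
    (#(Fintype.piFinset fun l => J (r l)) / ∏ l, (r l : ℝ) ≤ (1 / 2) ^ Fintype.card W) ∧
    Fintype.card W / 16 * (1 / 2) ^ Fintype.card W ≤
      #(univ.biUnion fun i => Fintype.piFinset (Function.update (fun l => J (r l)) i (K (r i)))) /
        ∏ l, (r l : ℝ) := by
  have r0 : ∀ l, (0 : ℝ) < r l := fun l => by exact_mod_cast NeZero.pos _
  constructor
  · rw [Fintype.card_piFinset, Nat.cast_prod, ← prod_div_distrib, ← card_univ, ← prod_const]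
    refine prod_le_prod (fun _ _ => by positivity) fun l _ => ?_
    rw [cJ, div_le_iff₀ (r0 l)]
    linarith [Nat.cast_div_le (α := ℝ) (m := r l) (n := 2)]
  rw [card_biUnion fun i _ j _ hij => disjoint_left.2 fun γ h1 h2 => by
    have a := Fintype.mem_piFinset.1 h1 i
    have b := Fintype.mem_piFinset.1 h2 i
    simp only [Function.update_self, Function.update_of_ne hij, J, K, mem_filter] at a b
    omega, Nat.cast_sum, sum_div, div_eq_mul_inv, mul_assoc, ← nsmul_eq_mul]
  refine card_nsmul_le_sum _ _ _ fun i _ => ?_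
  set w := Fintype.card W with hw
  have w0 : (1 : ℝ) ≤ w := by exact_mod_cast Fintype.card_pos_iff.2 ⟨i⟩
  have a0 : (1 : ℝ) / (2 * w) ≤ 1 / 2 := by gcongr; linarith
  have a1 : (0 : ℝ) ≤ 1 / (2 * w) := by positivity
  rw [Fintype.card_piFinset, Nat.cast_prod, ← prod_div_distrib]
  refine le_trans ?_ (prod_le_prod (f := fun l => (if l = i then 1 / 8 else 1) *
    (1 / 2 * (1 + -(1 / (2 * w))) : ℝ)) (fun l _ => by split_ifs <;> nlinarith) fun l _ => ?_)
  · rw [prod_mul_distrib, prod_ite_eq', if_pos (mem_univ _), prod_const, card_univ, ← hw, mul_pow]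
    have := one_add_mul_le_pow (a := -(1 / (2 * w) : ℝ)) (by linarith) w
    rw [show 1 + w * -(1 / (2 * w) : ℝ) = 1 / 2 by field_simp; ring] at this
    nlinarith [mul_le_mul_of_nonneg_left this (show (0 : ℝ) ≤ (1 / 2) ^ w by positivity)]
  rw [le_div_iff₀ (r0 l)]
  split_ifs with e
  · subst e
    have : (r l : ℝ) ≤ 16 * #(K (r l)) := by exact_mod_cast cK _ (h l).1
    rw [Function.update_self]
    nlinarith [mul_nonneg a1 (r0 l).le]
  · have : (r l : ℝ) ≤ 2 * (r l / 2 : ℕ) + 1 := by exact_mod_cast (by omega : r l ≤ 2 * (r l / 2) + 1)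
    have h2 : (2 * w : ℝ) ≤ r l := by exact_mod_cast (h l).2
    have h3 : 1 ≤ 1 / (2 * w) * (r l : ℝ) := by
      rw [div_mul_eq_mul_div, le_div_iff₀ (by positivity)]; linarith
    rw [Function.update_of_ne e, cJ]
    nlinarith

theorem block (m : ℕ) : ∃ (B : ℕ) (E : ℕ → Set ℝ), (∀ n, MeasurableSet (E n)) ∧
    (∀ n x, x + 1 / (n : ℝ) ∈ E n ↔ x ∈ E n) ∧ (∀ n, ∀ x ∈ E n, m ≤ n ∧ n ≤ B) ∧
    volume ((⋃ n, E n) ∩ Set.Ico 0 (1 / 8)) ≤ 2⁻¹ ^ m ∧
    ENNReal.ofReal (1 / 16) ≤ volume ((⋃ n, E n) ∩ Set.Ico 0 1) := by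
  obtain ⟨d, hd⟩ : ∃ d, 256 * 2 ^ m = m + d := Nat.exists_eq_add_of_le (by linarith [m.lt_two_pow_self])
  set w := 256 * 2 ^ m with hw
  let q : Fin (2 ^ d) → Fin w → ℕ := fun t l => Nat.nth Nat.Prime (2 * w + Encodable.encode (t, l))
  have pr : ∀ t l, (q t l).Prime := fun t l => Nat.prime_nth_prime _
  have := fun t l => NeZero.mk (pr t l).ne_zero
  have hq : Pairwise fun a b : Fin (2 ^ d) × Fin w => (q a.1 a.2).Coprime (q b.1 b.2) := fun a b h =>
    (Nat.coprime_primes (pr _ _) (pr _ _)).2 fun e => h (Encodable.encode_injective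
      (add_left_cancel (Nat.nth_injective Nat.infinite_setOfPred_prime e)))
  have w1 : 256 ≤ w := Nat.le_mul_of_pos_right _ (by positivity)
  have big : ∀ t l, 2 * w ≤ q t l := fun t l => by
    have := Nat.add_two_le_nth_prime (2 * w + Encodable.encode (t, l))
    simp only [q]; omega
  have q0 : ∀ t l, (0 : ℝ) < q t l := fun t l => by exact_mod_cast (pr t l).pos
  let E : Fin (2 ^ d) → Fin w → Set ℝ := fun t i => {x | (∀ l, l ≠ i → (Φ q x t l).val < q t l / 2) ∧
    Int.fract ((Φ q x t i).val / q t i - x : ℝ) < 1 / 4}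
  have tr := fun t => tribe (q t) fun l => ⟨by linarith [big t l], by simpa using big t l⟩
  have pr' : ∀ S : ∀ t, Finset (∀ l, ZMod (q t l)), (#(Fintype.piFinset fun t => (S t)ᶜ) /
      ∏ t, ∏ l, (q t l : ℝ)) = ∏ t, (1 - #(S t) / ∏ l, (q t l : ℝ)) := fun S => by
    rw [Fintype.card_piFinset, Nat.cast_prod, ← prod_div_distrib]
    refine prod_congr rfl fun t _ => ?_
    rw [card_compl, Nat.cast_sub (card_le_univ _), sub_div, Fintype.card_pi]
    simp [div_self (prod_pos fun l _ => q0 t l).ne']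
  have e2 : (2 : ℝ) ^ d * (1 / 2) ^ w = (1 / 2) ^ m := by rw [hd, pow_add]; field_simp; simp
  simp only [Fintype.card_fin] at tr
  refine ⟨univ.sup fun a : _ × _ => q a.1 a.2, fun n => ⋃ (t) (i) (_ : q t i = n), E t i,
    fun n => ?_, fun n x => ?_, fun n x hx => ?_, ?_, ?_⟩
  · have : ∀ t l, Measurable fun x => (Φ q x t l).val := fun t l =>
      (measurable_of_countable fun k : ℤ => ((co q (t, l) : ZMod (q t l))⁻¹ * k).val).comp
        (Int.measurable_floor.comp (measurable_const_mul _))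
    simp only [E]
    measurability
  · simp only [Set.mem_iUnion]
    refine exists₃_congr fun t i h => and_congr (forall₂_congr fun l hl => ?_) ?_
    · rw [← h, (shift hq x t i).2 l hl]
    · rw [← h, (shift hq x t i).1, Int.fract_eq_fract.2 ⟨-(((Φ q x t i).val + 1) / q t i : ℕ), ?_⟩]
      have := Fact.mk (pr t i).one_lt
      have e := congrArg (Nat.cast (R := ℝ)) (Nat.mod_add_div ((Φ q x t i).val + 1) (q t i))
      rw [ZMod.val_add, ZMod.val_one]
      have := q0 t i
      generalize ((Φ q x t i).val + 1) / q t i = k at e ⊢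
      push_cast at e ⊢
      field_simp; linarith
  · simp only [Set.mem_iUnion] at hx
    obtain ⟨t, i, rfl, -⟩ := hx
    exact ⟨by linarith [big t i], le_sup (f := fun a : _ × _ => q a.1 a.2) (mem_univ (t, i))⟩
  · refine (measure_mono ?_).trans ((law hq (Fintype.piFinset fun t =>
      (Fintype.piFinset fun l => J (q t l))ᶜ)ᶜ).trans ?_)
    · simp only [Set.subset_def, Set.mem_inter_iff, Set.mem_iUnion]
      rintro x ⟨⟨_, t, i, -, h1, h2⟩, h3, h4⟩
      refine ⟨⟨h3, by linarith⟩, ?_⟩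
      simp only [mem_compl, Fintype.mem_piFinset, J, mem_filter, mem_univ, true_and, not_forall]
      refine ⟨t, fun H => ?_⟩
      obtain ⟨l, H⟩ := H
      refine H ?_
      by_cases hl : l = i
      · subst hl
        have a : ((Φ q x t l).val / q t l : ℝ) < 1 := (div_lt_one (q0 t l)).2 (by exact_mod_cast ZMod.val_lt _)
        have b : ((Φ q x t l).val / q t l : ℝ) < 3 / 8 := by
          by_contra! H
          rw [Int.fract_eq_self.2 ⟨by linarith, by linarith⟩] at h2; linarith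
        rw [div_lt_div_iff₀ (q0 t l) (by norm_num)] at b
        have : (Φ q x t l).val * 8 < 3 * q t l := by exact_mod_cast b
        have := big t l
        omega
      · exact h1 l hl
    · rw [card_compl, Nat.cast_sub (card_le_univ _), sub_div, pr', Fintype.card_pi]
      simp only [Fintype.card_pi, ZMod.card, Nat.cast_prod]
      rw [div_self (prod_pos fun t _ => prod_pos fun l _ => q0 t l).ne']
      have a : (1 / 2 : ℝ) ^ w ≤ 1 := pow_le_one₀ (by norm_num) (by norm_num)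
      have := prod_le_prod (s := univ) (f := fun _ : Fin (2 ^ d) => 1 - (1 / 2 : ℝ) ^ w)
        (fun _ _ => by linarith) fun t _ => sub_le_sub_left (tr t).1 1
      rw [prod_const, card_univ, Fintype.card_fin, sub_eq_add_neg] at this
      have b := one_add_mul_le_pow (a := -(1 / 2 : ℝ) ^ w) (by linarith) (2 ^ d)
      refine ENNReal.ofReal_le_of_le_toReal ?_
      rw [Nat.cast_pow, Nat.cast_two] at b
      rw [ENNReal.toReal_pow, ENNReal.toReal_inv, ENNReal.toReal_ofNat, ← one_div]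
      linarith
  · let G := fun t => univ.biUnion fun i =>
      Fintype.piFinset (Function.update (fun l => J (q t l)) i (K (q t i)))
    have h1 := law hq (Fintype.piFinset fun t => (G t)ᶜ)
    have h2 : ∏ t, (1 - #(G t) / ∏ l, (q t l : ℝ)) ≤ 1 / 16 := by
      have := prod_le_prod (s := univ) (f := fun t => 1 - #(G t) / ∏ l, (q t l : ℝ))
        (g := fun t => Real.exp (-(w / 16 * (1 / 2) ^ w))) (fun t _ => by
          rw [sub_nonneg, div_le_one (prod_pos fun l _ => q0 t l)]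
          exact_mod_cast (card_le_univ _).trans (by simp)) fun t _ =>
            (sub_le_sub_left (tr t).2 1).trans (Real.one_sub_le_exp_neg _)
      rw [prod_const, card_univ, Fintype.card_fin, ← Real.exp_nat_mul, show (2 ^ d : ℕ) *
        -(w / 16 * (1 / 2) ^ w : ℝ) = -16 by
          rw [mul_neg, mul_left_comm, Nat.cast_pow, Nat.cast_two, e2, hw]; push_cast
          rw [one_div_pow]; field_simp; norm_num, Real.exp_neg] at this
      exact this.trans (by rw [one_div]; gcongr; linarith [Real.add_one_le_exp 16])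
    rw [pr'] at h1
    have h3 : Set.Ico (1 / 2 : ℝ) (5 / 8) ⊆ _ ∪ _ := fun x hx => (em (Φ q x ∈ Fintype.piFinset fun t =>
      (G t)ᶜ)).imp (fun h => (⟨⟨by linarith [hx.1], by linarith [hx.2]⟩, h⟩ :
        x ∈ {x ∈ Set.Ico (0 : ℝ) 1 | Φ q x ∈ Fintype.piFinset fun t => (G t)ᶜ})) fun h =>
          show x ∈ (⋃ n, ⋃ (t) (i) (_ : q t i = n), E t i) ∩ Set.Ico 0 1 by
      simp only [mem_compl, Fintype.mem_piFinset, not_forall, not_not, G, mem_biUnion] at h
      obtain ⟨t, i, -, h⟩ := h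
      simp only [Set.mem_inter_iff, Set.mem_iUnion]
      refine ⟨⟨_, t, i, rfl, fun l hl => by simpa [hl, J] using h l, ?_⟩, by linarith [hx.1],
        by linarith [hx.2]⟩
      have := h i
      simp only [Function.update_self, K, mem_filter] at this
      have a : 5 / 8 ≤ ((Φ q x t i).val / q t i : ℝ) := by
        rw [div_le_div_iff₀ (by norm_num) (q0 t i), mul_comm _ 8]; exact_mod_cast this.2.1
      have b : ((Φ q x t i).val / q t i : ℝ) < 3 / 4 := by
        rw [div_lt_div_iff₀ (q0 t i) (by norm_num), mul_comm _ 4]; exact_mod_cast this.2.2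
      rw [Int.fract_eq_self.2 ⟨by linarith [hx.2], by linarith [hx.1]⟩]; linarith [hx.1]
    have := (measure_mono h3).trans ((measure_union_le (μ := volume) _ _).trans
      (add_le_add_left (h1.trans (ENNReal.ofReal_le_ofReal h2)) _))
    rw [Real.volume_Ico, show (5 / 8 - 1 / 2 : ℝ) = 1 / 16 + 1 / 16 by norm_num,
      ENNReal.ofReal_add (by norm_num) (by norm_num)] at this
    exact (ENNReal.add_le_add_iff_left ENNReal.ofReal_ne_top).1 this

end Pool.Agent.H45.Per
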