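import Pool.Agent.H45.PlanchDefs

set_option autoImplicit false
set_option maxHeartbeats 400000

namespace Pool.Agent.H45.Planch

open scoped ENNReal

lemma le_syt (μ : YoungDiagram) (T : List (List (ℕ × ℕ))) (h1 : T.Nodup)
    (h2 : ∀ L ∈ T, L.Nodup ∧ L.toFinset = μ.cells ∧ L.Pairwise fun a b => ¬ b ≤ a) :
    T.length ≤ syt μ := by
  rw [← List.toFinset_card_of_nodup h1, ← Set.ncard_coe_finset]
  refine Set.ncard_le_ncard (fun L hL => h2 L (by simpa using hL)) ?_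
  refine (μ.cells.toList.permutations.finite_toSet).subset fun L hL => ?_
  simp only [Set.mem_ofPred_eq, List.mem_permutations]
  refine List.perm_of_nodup_nodup_toFinset_eq hL.1 μ.cells.nodup_toList ?_
  rw [hL.2.1, Finset.toList_toFinset]

def tabA : List (List (ℕ × ℕ)) :=
  [[(0, 0), (0, 1), (1, 0), (1, 1), (2, 0), (2, 1), (3, 0), (4, 0), (5, 0)],
   [(0, 0), (0, 1), (1, 0), (1, 1), (2, 0), (3, 0), (2, 1), (4, 0), (5, 0)],
   [(0, 0), (0, 1), (1, 0), (1, 1), (2, 0), (3, 0), (4, 0), (2, 1), (5, 0)],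
   [(0, 0), (0, 1), (1, 0), (1, 1), (2, 0), (3, 0), (4, 0), (5, 0), (2, 1)],
   [(0, 0), (0, 1), (1, 0), (2, 0), (1, 1), (2, 1), (3, 0), (4, 0), (5, 0)],
   [(0, 0), (0, 1), (1, 0), (2, 0), (1, 1), (3, 0), (2, 1), (4, 0), (5, 0)],
   [(0, 0), (0, 1), (1, 0), (2, 0), (1, 1), (3, 0), (4, 0), (2, 1), (5, 0)],
   [(0, 0), (0, 1), (1, 0), (2, 0), (1, 1), (3, 0), (4, 0), (5, 0), (2, 1)],
   [(0, 0), (0, 1), (1, 0), (2, 0), (3, 0), (1, 1), (2, 1), (4, 0), (5, 0)],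
   [(0, 0), (0, 1), (1, 0), (2, 0), (3, 0), (1, 1), (4, 0), (2, 1), (5, 0)],
   [(0, 0), (0, 1), (1, 0), (2, 0), (3, 0), (1, 1), (4, 0), (5, 0), (2, 1)],
   [(0, 0), (0, 1), (1, 0), (2, 0), (3, 0), (4, 0), (1, 1), (2, 1), (5, 0)],
   [(0, 0), (0, 1), (1, 0), (2, 0), (3, 0), (4, 0), (1, 1), (5, 0), (2, 1)],
   [(0, 0), (0, 1), (1, 0), (2, 0), (3, 0), (4, 0), (5, 0), (1, 1), (2, 1)],
   [(0, 0), (1, 0), (0, 1), (1, 1), (2, 0), (2, 1), (3, 0), (4, 0), (5, 0)],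
   [(0, 0), (1, 0), (0, 1), (1, 1), (2, 0), (3, 0), (2, 1), (4, 0), (5, 0)],
   [(0, 0), (1, 0), (0, 1), (1, 1), (2, 0), (3, 0), (4, 0), (2, 1), (5, 0)],
   [(0, 0), (1, 0), (0, 1), (1, 1), (2, 0), (3, 0), (4, 0), (5, 0), (2, 1)],
   [(0, 0), (1, 0), (0, 1), (2, 0), (1, 1), (2, 1), (3, 0), (4, 0), (5, 0)],
   [(0, 0), (1, 0), (0, 1), (2, 0), (1, 1), (3, 0), (2, 1), (4, 0), (5, 0)],
   [(0, 0), (1, 0), (0, 1), (2, 0), (1, 1), (3, 0), (4, 0), (2, 1), (5, 0)],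
   [(0, 0), (1, 0), (0, 1), (2, 0), (1, 1), (3, 0), (4, 0), (5, 0), (2, 1)],
   [(0, 0), (1, 0), (0, 1), (2, 0), (3, 0), (1, 1), (2, 1), (4, 0), (5, 0)],
   [(0, 0), (1, 0), (0, 1), (2, 0), (3, 0), (1, 1), (4, 0), (2, 1), (5, 0)],
   [(0, 0), (1, 0), (0, 1), (2, 0), (3, 0), (1, 1), (4, 0), (5, 0), (2, 1)],
   [(0, 0), (1, 0), (0, 1), (2, 0), (3, 0), (4, 0), (1, 1), (2, 1), (5, 0)],
   [(0, 0), (1, 0), (0, 1), (2, 0), (3, 0), (4, 0), (1, 1), (5, 0), (2, 1)],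
   [(0, 0), (1, 0), (0, 1), (2, 0), (3, 0), (4, 0), (5, 0), (1, 1), (2, 1)],
   [(0, 0), (1, 0), (2, 0), (0, 1), (1, 1), (2, 1), (3, 0), (4, 0), (5, 0)],
   [(0, 0), (1, 0), (2, 0), (0, 1), (1, 1), (3, 0), (2, 1), (4, 0), (5, 0)],
   [(0, 0), (1, 0), (2, 0), (0, 1), (1, 1), (3, 0), (4, 0), (2, 1), (5, 0)],
   [(0, 0), (1, 0), (2, 0), (0, 1), (1, 1), (3, 0), (4, 0), (5, 0), (2, 1)],
   [(0, 0), (1, 0), (2, 0), (0, 1), (3, 0), (1, 1), (2, 1), (4, 0), (5, 0)],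
   [(0, 0), (1, 0), (2, 0), (0, 1), (3, 0), (1, 1), (4, 0), (2, 1), (5, 0)],
   [(0, 0), (1, 0), (2, 0), (0, 1), (3, 0), (1, 1), (4, 0), (5, 0), (2, 1)],
   [(0, 0), (1, 0), (2, 0), (0, 1), (3, 0), (4, 0), (1, 1), (2, 1), (5, 0)],
   [(0, 0), (1, 0), (2, 0), (0, 1), (3, 0), (4, 0), (1, 1), (5, 0), (2, 1)],
   [(0, 0), (1, 0), (2, 0), (0, 1), (3, 0), (4, 0), (5, 0), (1, 1), (2, 1)],
   [(0, 0), (1, 0), (2, 0), (3, 0), (0, 1), (1, 1), (2, 1), (4, 0), (5, 0)],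
   [(0, 0), (1, 0), (2, 0), (3, 0), (0, 1), (1, 1), (4, 0), (2, 1), (5, 0)],
   [(0, 0), (1, 0), (2, 0), (3, 0), (0, 1), (1, 1), (4, 0), (5, 0), (2, 1)],
   [(0, 0), (1, 0), (2, 0), (3, 0), (0, 1), (4, 0), (1, 1), (2, 1), (5, 0)],
   [(0, 0), (1, 0), (2, 0), (3, 0), (0, 1), (4, 0), (1, 1), (5, 0), (2, 1)],
   [(0, 0), (1, 0), (2, 0), (3, 0), (0, 1), (4, 0), (5, 0), (1, 1), (2, 1)],
   [(0, 0), (1, 0), (2, 0), (3, 0), (4, 0), (0, 1), (1, 1), (2, 1), (5, 0)],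
   [(0, 0), (1, 0), (2, 0), (3, 0), (4, 0), (0, 1), (1, 1), (5, 0), (2, 1)],
   [(0, 0), (1, 0), (2, 0), (3, 0), (4, 0), (0, 1), (5, 0), (1, 1), (2, 1)],
   [(0, 0), (1, 0), (2, 0), (3, 0), (4, 0), (5, 0), (0, 1), (1, 1), (2, 1)]]

def tabB : List (List (ℕ × ℕ)) :=
  [[(0, 0), (0, 1), (1, 0), (1, 1), (2, 0), (2, 1), (3, 0), (3, 1), (4, 0)],
   [(0, 0), (0, 1), (1, 0), (1, 1), (2, 0), (2, 1), (3, 0), (4, 0), (3, 1)],
   [(0, 0), (0, 1), (1, 0), (1, 1), (2, 0), (3, 0), (2, 1), (3, 1), (4, 0)],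
   [(0, 0), (0, 1), (1, 0), (1, 1), (2, 0), (3, 0), (2, 1), (4, 0), (3, 1)],
   [(0, 0), (0, 1), (1, 0), (1, 1), (2, 0), (3, 0), (4, 0), (2, 1), (3, 1)],
   [(0, 0), (0, 1), (1, 0), (2, 0), (1, 1), (2, 1), (3, 0), (3, 1), (4, 0)],
   [(0, 0), (0, 1), (1, 0), (2, 0), (1, 1), (2, 1), (3, 0), (4, 0), (3, 1)],
   [(0, 0), (0, 1), (1, 0), (2, 0), (1, 1), (3, 0), (2, 1), (3, 1), (4, 0)],
   [(0, 0), (0, 1), (1, 0), (2, 0), (1, 1), (3, 0), (2, 1), (4, 0), (3, 1)],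
   [(0, 0), (0, 1), (1, 0), (2, 0), (1, 1), (3, 0), (4, 0), (2, 1), (3, 1)],
   [(0, 0), (0, 1), (1, 0), (2, 0), (3, 0), (1, 1), (2, 1), (3, 1), (4, 0)],
   [(0, 0), (0, 1), (1, 0), (2, 0), (3, 0), (1, 1), (2, 1), (4, 0), (3, 1)],
   [(0, 0), (0, 1), (1, 0), (2, 0), (3, 0), (1, 1), (4, 0), (2, 1), (3, 1)],
   [(0, 0), (0, 1), (1, 0), (2, 0), (3, 0), (4, 0), (1, 1), (2, 1), (3, 1)],
   [(0, 0), (1, 0), (0, 1), (1, 1), (2, 0), (2, 1), (3, 0), (3, 1), (4, 0)],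
   [(0, 0), (1, 0), (0, 1), (1, 1), (2, 0), (2, 1), (3, 0), (4, 0), (3, 1)],
   [(0, 0), (1, 0), (0, 1), (1, 1), (2, 0), (3, 0), (2, 1), (3, 1), (4, 0)],
   [(0, 0), (1, 0), (0, 1), (1, 1), (2, 0), (3, 0), (2, 1), (4, 0), (3, 1)],
   [(0, 0), (1, 0), (0, 1), (1, 1), (2, 0), (3, 0), (4, 0), (2, 1), (3, 1)],
   [(0, 0), (1, 0), (0, 1), (2, 0), (1, 1), (2, 1), (3, 0), (3, 1), (4, 0)],
   [(0, 0), (1, 0), (0, 1), (2, 0), (1, 1), (2, 1), (3, 0), (4, 0), (3, 1)],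
   [(0, 0), (1, 0), (0, 1), (2, 0), (1, 1), (3, 0), (2, 1), (3, 1), (4, 0)],
   [(0, 0), (1, 0), (0, 1), (2, 0), (1, 1), (3, 0), (2, 1), (4, 0), (3, 1)],
   [(0, 0), (1, 0), (0, 1), (2, 0), (1, 1), (3, 0), (4, 0), (2, 1), (3, 1)],
   [(0, 0), (1, 0), (0, 1), (2, 0), (3, 0), (1, 1), (2, 1), (3, 1), (4, 0)],
   [(0, 0), (1, 0), (0, 1), (2, 0), (3, 0), (1, 1), (2, 1), (4, 0), (3, 1)],
   [(0, 0), (1, 0), (0, 1), (2, 0), (3, 0), (1, 1), (4, 0), (2, 1), (3, 1)],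
   [(0, 0), (1, 0), (0, 1), (2, 0), (3, 0), (4, 0), (1, 1), (2, 1), (3, 1)],
   [(0, 0), (1, 0), (2, 0), (0, 1), (1, 1), (2, 1), (3, 0), (3, 1), (4, 0)],
   [(0, 0), (1, 0), (2, 0), (0, 1), (1, 1), (2, 1), (3, 0), (4, 0), (3, 1)],
   [(0, 0), (1, 0), (2, 0), (0, 1), (1, 1), (3, 0), (2, 1), (3, 1), (4, 0)],
   [(0, 0), (1, 0), (2, 0), (0, 1), (1, 1), (3, 0), (2, 1), (4, 0), (3, 1)],
   [(0, 0), (1, 0), (2, 0), (0, 1), (1, 1), (3, 0), (4, 0), (2, 1), (3, 1)],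
   [(0, 0), (1, 0), (2, 0), (0, 1), (3, 0), (1, 1), (2, 1), (3, 1), (4, 0)],
   [(0, 0), (1, 0), (2, 0), (0, 1), (3, 0), (1, 1), (2, 1), (4, 0), (3, 1)],
   [(0, 0), (1, 0), (2, 0), (0, 1), (3, 0), (1, 1), (4, 0), (2, 1), (3, 1)],
   [(0, 0), (1, 0), (2, 0), (0, 1), (3, 0), (4, 0), (1, 1), (2, 1), (3, 1)],
   [(0, 0), (1, 0), (2, 0), (3, 0), (0, 1), (1, 1), (2, 1), (3, 1), (4, 0)],
   [(0, 0), (1, 0), (2, 0), (3, 0), (0, 1), (1, 1), (2, 1), (4, 0), (3, 1)],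
   [(0, 0), (1, 0), (2, 0), (3, 0), (0, 1), (1, 1), (4, 0), (2, 1), (3, 1)],
   [(0, 0), (1, 0), (2, 0), (3, 0), (0, 1), (4, 0), (1, 1), (2, 1), (3, 1)],
   [(0, 0), (1, 0), (2, 0), (3, 0), (4, 0), (0, 1), (1, 1), (2, 1), (3, 1)]]

def tabC : List (List (ℕ × ℕ)) :=
  [[(0, 0), (0, 1), (0, 2), (1, 0), (2, 0), (3, 0), (4, 0), (5, 0), (6, 0)],
   [(0, 0), (0, 1), (1, 0), (0, 2), (2, 0), (3, 0), (4, 0), (5, 0), (6, 0)],
   [(0, 0), (0, 1), (1, 0), (2, 0), (0, 2), (3, 0), (4, 0), (5, 0), (6, 0)],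
   [(0, 0), (0, 1), (1, 0), (2, 0), (3, 0), (0, 2), (4, 0), (5, 0), (6, 0)],
   [(0, 0), (0, 1), (1, 0), (2, 0), (3, 0), (4, 0), (0, 2), (5, 0), (6, 0)],
   [(0, 0), (0, 1), (1, 0), (2, 0), (3, 0), (4, 0), (5, 0), (0, 2), (6, 0)],
   [(0, 0), (0, 1), (1, 0), (2, 0), (3, 0), (4, 0), (5, 0), (6, 0), (0, 2)],
   [(0, 0), (1, 0), (0, 1), (0, 2), (2, 0), (3, 0), (4, 0), (5, 0), (6, 0)],
   [(0, 0), (1, 0), (0, 1), (2, 0), (0, 2), (3, 0), (4, 0), (5, 0), (6, 0)],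
   [(0, 0), (1, 0), (0, 1), (2, 0), (3, 0), (0, 2), (4, 0), (5, 0), (6, 0)],
   [(0, 0), (1, 0), (0, 1), (2, 0), (3, 0), (4, 0), (0, 2), (5, 0), (6, 0)],
   [(0, 0), (1, 0), (0, 1), (2, 0), (3, 0), (4, 0), (5, 0), (0, 2), (6, 0)],
   [(0, 0), (1, 0), (0, 1), (2, 0), (3, 0), (4, 0), (5, 0), (6, 0), (0, 2)],
   [(0, 0), (1, 0), (2, 0), (0, 1), (0, 2), (3, 0), (4, 0), (5, 0), (6, 0)],
   [(0, 0), (1, 0), (2, 0), (0, 1), (3, 0), (0, 2), (4, 0), (5, 0), (6, 0)],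
   [(0, 0), (1, 0), (2, 0), (0, 1), (3, 0), (4, 0), (0, 2), (5, 0), (6, 0)],
   [(0, 0), (1, 0), (2, 0), (0, 1), (3, 0), (4, 0), (5, 0), (0, 2), (6, 0)],
   [(0, 0), (1, 0), (2, 0), (0, 1), (3, 0), (4, 0), (5, 0), (6, 0), (0, 2)],
   [(0, 0), (1, 0), (2, 0), (3, 0), (0, 1), (0, 2), (4, 0), (5, 0), (6, 0)],
   [(0, 0), (1, 0), (2, 0), (3, 0), (0, 1), (4, 0), (0, 2), (5, 0), (6, 0)],
   [(0, 0), (1, 0), (2, 0), (3, 0), (0, 1), (4, 0), (5, 0), (0, 2), (6, 0)],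
   [(0, 0), (1, 0), (2, 0), (3, 0), (0, 1), (4, 0), (5, 0), (6, 0), (0, 2)],
   [(0, 0), (1, 0), (2, 0), (3, 0), (4, 0), (0, 1), (0, 2), (5, 0), (6, 0)],
   [(0, 0), (1, 0), (2, 0), (3, 0), (4, 0), (0, 1), (5, 0), (0, 2), (6, 0)],
   [(0, 0), (1, 0), (2, 0), (3, 0), (4, 0), (0, 1), (5, 0), (6, 0), (0, 2)],
   [(0, 0), (1, 0), (2, 0), (3, 0), (4, 0), (5, 0), (0, 1), (0, 2), (6, 0)],
   [(0, 0), (1, 0), (2, 0), (3, 0), (4, 0), (5, 0), (0, 1), (6, 0), (0, 2)],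
   [(0, 0), (1, 0), (2, 0), (3, 0), (4, 0), (5, 0), (6, 0), (0, 1), (0, 2)]]

def mA : YoungDiagram := YoungDiagram.ofRowLens [2, 2, 2, 1, 1, 1] (by decide)
def mB : YoungDiagram := YoungDiagram.ofRowLens [2, 2, 2, 2, 1] (by decide)
def mC : YoungDiagram := YoungDiagram.ofRowLens [3, 1, 1, 1, 1, 1, 1] (by decide)
def mD : YoungDiagram := YoungDiagram.ofRowLens [1, 1, 1, 1, 1, 1, 1, 1, 1] (by decide)
def mE : YoungDiagram := YoungDiagram.ofRowLens [2, 1, 1, 1, 1, 1, 1, 1] (by decide)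

lemma sA : 48 ≤ syt mA := le_syt mA tabA (by decide +kernel) (by decide +kernel)
lemma sB : 42 ≤ syt mB := le_syt mB tabB (by decide +kernel) (by decide +kernel)
lemma sC : 28 ≤ syt mC := le_syt mC tabC (by decide +kernel) (by decide +kernel)
lemma sD : 1 ≤ syt mD := le_syt mD [(List.range 9).map fun i => (i, 0)] (by decide +kernel)
  (by decide +kernel)

def col : List (ℕ × ℕ) := (List.range 8).map fun i => (i, 0)

lemma sE : syt mE ≤ 8 := by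
  refine le_trans (Set.ncard_le_ncard (t := ((Finset.Icc 1 8).image fun k =>
    col.take k ++ (0, 1) :: col.drop k : Finset _)) ?_ (Finset.finite_toSet _)) ?_
  · rintro L ⟨h1, h2, h3⟩
    have hp : L.Perm ((0, 1) :: col) :=
      List.perm_of_nodup_nodup_toFinset_eq h1 (by decide +kernel) (by rw [h2]; decide +kernel)
    obtain ⟨L1, L2, rfl⟩ := List.append_of_mem (hp.symm.subset List.mem_cons_self)
    have hq : (L1 ++ L2).Perm col := (List.perm_middle.symm.trans hp).cons_inv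
    have hs : (L1 ++ L2).Pairwise fun a b => ¬ b ≤ a :=
      h3.sublist (List.Sublist.append_left (List.sublist_cons_self _ _) _)
    have he : L1 ++ L2 = col := by
      refine List.Perm.eq_of_pairwise (fun a b ha hb h4 h5 => ?_) hs (by decide +kernel) hq
      have : ∀ a ∈ col, ∀ b ∈ col, ¬ b ≤ a → ¬ a ≤ b → a = b := by decide +kernel
      exact this a (hq.subset ha) b hb h4 h5
    simp only [Finset.coe_image, Finset.coe_Icc, Set.mem_image, Set.mem_Icc]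
    refine ⟨L1.length, ⟨?_, ?_⟩, by rw [← he]; simp⟩
    · rcases L1 with _ | ⟨a, L1⟩
      · simp only [List.nil_append] at he h3
        subst he
        exact absurd h3 (by decide +kernel)
      · simp
    · have := congrArg List.length he
      simp [col] at this
      omega
  · rw [Set.ncard_coe_finset]
    exact Finset.card_image_le.trans (by simp)

lemma eq_mE (μ : YoungDiagram) (h1 : μ.card = 9) (h2 : μ.rowLen 0 + μ.rowLen 1 = 3) : μ = mE := by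
  have h3 := μ.rowLen_anti 0 1 (by omega)
  have hr : ∀ i, 1 ≤ i → μ.rowLen i ≤ μ.rowLen 1 := fun i hi => μ.rowLen_anti 1 i hi
  have h4 : μ.rowLen 1 = 1 := by
    by_contra hc
    have : μ.cells ⊆ {0} ×ˢ Finset.range 3 := by
      rintro ⟨i, j⟩ h
      have h5 := YoungDiagram.mem_iff_lt_rowLen.1 h
      rcases Nat.eq_zero_or_pos i with rfl | hi
      · simp; omega
      · have := hr i hi; omega
    have := Finset.card_le_card this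
    simp [YoungDiagram.card] at h1 this
    omega
  have h5 : μ.cells = insert (0, 1) (Finset.range (μ.colLen 0) ×ˢ {0}) := by
    ext ⟨i, j⟩
    simp only [YoungDiagram.mem_cells, Finset.mem_insert, Prod.mk.injEq, Finset.mem_product,
      Finset.mem_range, Finset.mem_singleton, ← YoungDiagram.mem_iff_lt_colLen,
      YoungDiagram.mem_iff_lt_rowLen]
    rcases Nat.eq_zero_or_pos i with rfl | hi
    · omega
    · have := hr i hi; omega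
  have h6 : μ.colLen 0 = 8 := by
    rw [YoungDiagram.card, h5, Finset.card_insert_of_notMem (by simp)] at h1
    simpa using h1
  apply YoungDiagram.ext
  rw [h5, h6]
  decide +kernel

lemma rowLen_eq (w : List ℕ) (hw : w.SortedGE) (i : ℕ) (hi : i < w.length) :
    (YoungDiagram.ofRowLens w hw).rowLen i = w[i] :=
  YoungDiagram.rowLen_ofRowLens ⟨i, hi⟩

theorem not_logconcave : rowSumProb 9 2 3 ^ 2 < rowSumProb 9 2 2 * rowSumProb 9 2 4 := by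
  have e : ∀ μ : YoungDiagram, ∑ i ∈ Finset.range 2, μ.rowLen i = μ.rowLen 0 + μ.rowLen 1 :=
    fun μ => by simp [Finset.sum_range_succ]
  have h1 : rowSumProb 9 2 3 ≤ (64 : ℕ) / (Nat.factorial 9 : ℝ≥0∞) := by
    rw [rowSumProb, tsum_eq_single mE fun μ hμ => if_neg fun h => hμ (eq_mE μ h.1 (e μ ▸ h.2))]
    split_ifs
    · gcongr
      have := Nat.pow_le_pow_left sE 2
      exact_mod_cast this
    · exact zero_le
  have h2 : (1 : ℕ) / (Nat.factorial 9 : ℝ≥0∞) ≤ rowSumProb 9 2 2 := by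
    refine le_trans ?_ (ENNReal.le_tsum mD)
    rw [if_pos ⟨by decide +kernel, by
      rw [e, mD, rowLen_eq _ _ 0 (by simp), rowLen_eq _ _ 1 (by simp)]; rfl⟩]
    gcongr
    have := Nat.pow_le_pow_left sD 2
    exact_mod_cast this
  have h3 : (4852 : ℕ) / (Nat.factorial 9 : ℝ≥0∞) ≤ rowSumProb 9 2 4 := by
    classical
    refine le_trans ?_ (ENNReal.sum_le_tsum {mA, mB, mC})
    have n1 : mA ≠ mB := fun h => absurd (congrArg YoungDiagram.cells h) (by decide +kernel)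
    have n2 : mA ≠ mC := fun h => absurd (congrArg YoungDiagram.cells h) (by decide +kernel)
    have n3 : mB ≠ mC := fun h => absurd (congrArg YoungDiagram.cells h) (by decide +kernel)
    rw [Finset.sum_insert (by simp [n1, n2]), Finset.sum_pair n3,
      if_pos ⟨by decide +kernel, by
        rw [e, mA, rowLen_eq _ _ 0 (by simp), rowLen_eq _ _ 1 (by simp)]; rfl⟩,
      if_pos ⟨by decide +kernel, by
        rw [e, mB, rowLen_eq _ _ 0 (by simp), rowLen_eq _ _ 1 (by simp)]; rfl⟩,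
      if_pos ⟨by decide +kernel, by
        rw [e, mC, rowLen_eq _ _ 0 (by simp), rowLen_eq _ _ 1 (by simp)]; rfl⟩,
      ← ENNReal.add_div, ← ENNReal.add_div]
    gcongr
    have a := Nat.pow_le_pow_left sA 2
    have b := Nat.pow_le_pow_left sB 2
    have c := Nat.pow_le_pow_left sC 2
    exact_mod_cast (by omega : 4852 ≤ syt mA ^ 2 + (syt mB ^ 2 + syt mC ^ 2))
  refine lt_of_le_of_lt (pow_le_pow_left' h1 2) (lt_of_lt_of_le ?_ (mul_le_mul' h2 h3))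
  rw [← ENNReal.toReal_lt_toReal (by finiteness) (by finiteness)]
  norm_num [Nat.factorial]

end Pool.Agent.H45.Planch
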