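import Mathlib

set_option autoImplicit false

namespace Pool.Agent.H45.Planch

open scoped ENNReal

/-- Number of standard Young tableaux of shape `μ`. A tableau is recorded as the list of the cells
of `μ` in the order of their entries `1, 2, ..., n`; entries increase along rows and columns, so
a cell listed later is never weakly north-west of a cell listed earlier. -/
noncomputable def syt (μ : YoungDiagram) : ℕ :=
  Set.ncard {L : List (ℕ × ℕ) | L.Nodup ∧ L.toFinset = μ.cells ∧ L.Pairwise fun a b => ¬ b ≤ a}

/-- Plancherel probability that the first `r` rows of a diagram with `n` cells have `j` cells. -/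
noncomputable def rowSumProb (n r j : ℕ) : ℝ≥0∞ :=
  ∑' μ : YoungDiagram,
    if μ.card = n ∧ ∑ i ∈ Finset.range r, μ.rowLen i = j then
      (syt μ : ℝ≥0∞) ^ 2 / (n.factorial : ℝ≥0∞) else 0

end Pool.Agent.H45.Planch
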