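import Mathlib

open MeasureTheory ProbabilityTheory Filter Topology Set Metric
open scoped Pointwise BoundedContinuousFunction

namespace Pool.Agent.H45.RSet

variable {X : Type} [NormedAddCommGroup X] [NormedSpace ℝ X]

/-- `f` is the support function of `A` on the dual unit sphere -/
def IsR (A : Set X) (f : sphere (0 : StrongDual ℝ X) 1 →ᵇ ℝ) : Prop :=
  ∀ y, IsLUB (y.1 '' A) (f y)

lemma exR {A : Set X} (hA : IsCompact A) (h0 : A.Nonempty) : ∃ f, IsR A f := by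
  obtain ⟨r, hr⟩ := hA.isBounded.exists_norm_le
  have h : ∀ y : sphere (0 : StrongDual ℝ X) 1, IsLUB (y.1 '' A) (sSup (y.1 '' A)) := fun y =>
    (hA.image y.1.continuous).isLUB_sSup (h0.image _)
  refine ⟨.ofNormedAddCommGroup (fun y => sSup (y.1 '' A)) (hA.continuous_sSup
    (f := fun (y : sphere (0 : StrongDual ℝ X) 1) x => y.1 x) (by fun_prop)) r fun y => ?_, h⟩
  obtain ⟨x, hx, e⟩ := (hA.image y.1.continuous).sSup_mem (h0.image _)
  grw [← e, y.1.le_opNorm, norm_eq_of_mem_sphere y, one_mul, hr x hx]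

lemma IsR.add {A B : Set X} {f g} (hf : IsR A f) (hg : IsR B g) : IsR (A + B) (f + g) := fun y => by
  rw [image_add y.1]; exact (hf y).add (hg y)

lemma IsR.sum {ι : Type} {A : ι → Set X} {f : ι → _} (hf : ∀ i, IsR (A i) (f i)) (s : Finset ι) :
    IsR (∑ i ∈ s, A i) (∑ i ∈ s, f i) := by
  classical
  induction s using Finset.induction_on with
  | empty => intro y; simp [← singleton_zero]
  | insert i s h ih => rw [Finset.sum_insert h, Finset.sum_insert h]; exact (hf i).add ih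

lemma IsR.smul {A : Set X} {f} (hf : IsR A f) {c : ℝ} (hc : 0 ≤ c) : IsR (c • A) (c • f) := fun y => by
  have := (hf y).mul_left hc
  rw [image_image] at this
  rw [← image_smul, image_image]; simpa using this

/-- infinite Minkowski sum -/
def T (C : ℕ → Set X) : Set X := (fun c => ∑' i, c i) '' univ.pi C

lemma T_spec [CompleteSpace X] {C : ℕ → Set X} {r : ℕ → ℝ} {s : ℝ} (hr : HasSum r s)
    (h : ∀ i, IsCompact (C i) ∧ Convex ℝ (C i) ∧ 0 ∈ C i ∧ ∀ x ∈ C i, ‖x‖ ≤ r i) :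
    (IsCompact (T C) ∧ Convex ℝ (T C) ∧ 0 ∈ T C ∧ ∀ x ∈ T C, ‖x‖ ≤ s) ∧
      ∀ i, T C = C i + T (Function.update C i {0}) := by
  have b := fun c (hc : c ∈ univ.pi C) i => (h i).2.2.2 _ (hc i trivial)
  have sm := fun c (hc : c ∈ univ.pi C) => Summable.of_norm_bounded hr.summable (b c hc)
  refine ⟨⟨(isCompact_univ_pi fun i => (h i).1).image_of_continuousOn (continuousOn_tsum
    (fun i => (continuous_apply i).continuousOn) hr.summable fun i c hc => b c hc i), ?_,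
    ⟨0, fun i _ => (h i).2.2.1, by simp⟩, ?_⟩, fun i => ?_⟩
  · rintro _ ⟨c, hc, rfl⟩ _ ⟨d, hd, rfl⟩ a a' ha ha' e
    refine ⟨_, convex_pi (fun i _ => (h i).2.1) hc hd ha ha' e, ?_⟩
    simp [((sm c hc).const_smul a).tsum_add ((sm d hd).const_smul a'), tsum_const_smul'']
  · rintro _ ⟨c, hc, rfl⟩
    exact tsum_of_norm_bounded hr (b c hc)
  · ext x
    constructor
    · rintro ⟨c, hc, rfl⟩
      refine ⟨_, hc i trivial, _, ⟨Function.update c i 0, fun l _ => ?_, rfl⟩, ?_⟩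
      · by_cases e : l = i <;> simp [e, hc l trivial]
      · simp [(sm c hc).tsum_eq_add_tsum_ite i, Function.update_apply]
    · rintro ⟨x, hx, _, ⟨c, hc, rfl⟩, rfl⟩
      have : Function.update c i x ∈ univ.pi C := fun l _ => by
        by_cases e : l = i
        · simpa [e]
        · simpa [e] using hc l trivial
      refine ⟨_, this, ?_⟩
      simp only [(sm _ this).tsum_eq_add_tsum_ite i, Function.update_self]
      congr 2 with l
      by_cases e : l = i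
      · simpa [e, eq_comm] using hc i trivial
      · simp [e]

def m (i : ℕ) : ℕ := 4 ^ (i + 3)
instance (i : ℕ) : NeZero (m i) := ⟨by simp [m]⟩
abbrev Γ := Σ n : ℕ, ∀ l : Fin (2 * n), Fin (m l)
abbrev H := lp (fun _ : Γ => ℝ) 2

open Classical in
noncomputable def e (γ : Γ) : H := lp.single 2 γ 1

def S (i : ℕ) (j : Fin (m i)) : Set Γ := {γ | γ.1 ≤ i ∧ ∃ h : i < 2 * γ.1, γ.2 ⟨i, h⟩ = j}

def K (i : ℕ) (j : Fin (m i)) : Set H := convexHull ℝ (insert 0 (e '' S i j))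

lemma K_spec (i : ℕ) (j : Fin (m i)) : IsCompact (K i j) ∧ Convex ℝ (K i j) ∧ 0 ∈ K i j ∧
    ∀ x ∈ K i j, ‖x‖ ≤ 1 ∧ ∀ γ ∉ S i j, x γ = 0 := by
  refine ⟨(((((Finset.range (i + 1)).sigma fun _ => Finset.univ).finite_toSet.subset fun γ h => by
    simpa [Nat.lt_succ_iff] using h.1).image _).insert _).isCompact_convexHull _, convex_convexHull _ _,
    subset_convexHull _ _ (.inl rfl), convexHull_min ?_ fun x hx y hy a b ha hb e => ⟨?_, fun γ h => ?_⟩⟩
  · rintro _ (rfl | ⟨γ, h, rfl⟩)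
    · exact ⟨by simp, by simp⟩
    · exact ⟨by simp [e], fun γ' h' => by
        simp [e, lp.single_apply, Pi.single_eq_of_ne (show γ' ≠ γ from fun e => h' (e ▸ h))]⟩
  · grw [norm_add_le, norm_smul, norm_smul, hx.1, hy.1]; simp [abs_of_nonneg, *]
  · simp [hx.2 γ h, hy.2 γ h]

noncomputable def A (i : ℕ) : Set H := (m i : ℝ)⁻¹ • ∑ j, K i j

lemma A_spec (i : ℕ) : IsCompact (A i) ∧ Convex ℝ (A i) ∧ 0 ∈ A i ∧ ∀ x ∈ A i, ‖x‖ ≤ 1 / 8 * (1 / 2) ^ i := by
  refine ⟨.smul _ (Finset.sum_induction _ _ (fun _ _ => IsCompact.add) isCompact_singleton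
    fun j _ => (K_spec i j).1), .smul (convex_sum _ fun j _ => (K_spec i j).2.1) _,
    ⟨0, by simpa using finsetSum_mem_finsetSum .univ _ (fun _ => 0) fun j _ => (K_spec i j).2.2.1,
      smul_zero _⟩, ?_⟩
  rintro _ ⟨x, hx, rfl⟩
  obtain ⟨k, hk, rfl⟩ := (mem_finsetSum _ _ _).1 hx
  have h := fun j => (K_spec i j).2.2.2 _ (hk (Finset.mem_univ j))
  have : ‖∑ j, k j‖ ^ 2 ≤ m i := by
    rw [← real_inner_self_eq_norm_sq, sum_inner]
    refine (Finset.sum_le_card_nsmul _ _ 1 fun j _ => ?_).trans (by simp)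
    rw [inner_sum, Finset.sum_eq_single j (fun j' _ hj => ?_) (by simp), real_inner_self_eq_norm_sq]
    · exact pow_le_one₀ (norm_nonneg _) (h j).1
    · rw [lp.inner_eq_tsum]
      convert tsum_zero with γ
      by_cases e : γ ∈ S i j
      · simp [(h j').2 γ fun e' => hj (e'.2.2.symm.trans e.2.2)]
      · simp [(h j).2 γ e]
  have e : (m i : ℝ) = (2 ^ (i + 3)) ^ 2 := by rw [← pow_mul, mul_comm, pow_mul]; norm_num [m]
  rw [e] at this
  simp only [norm_smul, e]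
  grw [(pow_le_pow_iff_left₀ (norm_nonneg _) (by positivity) two_ne_zero).1 this]
  simp; field_simp; ring_nf; simp

/-- a Banach space is B-convex -/
def BConvex (X : Type) [NormedAddCommGroup X] [NormedSpace ℝ X] : Prop :=
  ∃ (k : ℕ) (ε : ℝ), 2 ≤ k ∧ 0 < ε ∧ ∀ x : Fin k → X, (∀ i, ‖x i‖ ≤ 1) →
    ∃ s : Fin k → ℝ, (∀ i, s i = 1 ∨ s i = -1) ∧ ‖∑ i, s i • x i‖ ≤ k * (1 - ε)

lemma bconvex : BConvex H := ⟨2, 1 / 4, le_rfl, by norm_num, fun x hx => by
  have := parallelogram_law_with_norm ℝ (x 0) (x 1)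
  have a := fun i => mul_le_one₀ (hx i) (norm_nonneg _) (hx i)
  by_cases h : ‖x 0 + x 1‖ ≤ 3 / 2
  · exact ⟨1, fun _ => .inl rfl, by norm_num; linarith⟩
  · refine ⟨![1, -1], fun i => by fin_cases i <;> simp, ?_⟩
    norm_num [← sub_eq_add_neg]
    nlinarith [a 0, a 1, norm_nonneg (x 0 - x 1)]⟩

/-- `Ψ` is a uniformly bounded independent sequence of random sets with common expectation `U` -/
def Seq {Ω : Type} [MeasurableSpace Ω] (μ : Measure Ω) (Ψ : ℕ → Ω → Set X) (U : Set X) : Prop :=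
  (∃ r, ∀ n ω, (Ψ n ω).Nonempty ∧ Convex ℝ (Ψ n ω) ∧ Ψ n ω ⊆ closedBall 0 r) ∧
  U.Nonempty ∧ Convex ℝ U ∧ Bornology.IsBounded U ∧
  ∃ (R : ℕ → Ω → sphere (0 : StrongDual ℝ X) 1 →ᵇ ℝ) (u : sphere (0 : StrongDual ℝ X) 1 →ᵇ ℝ),
    (∀ n ω, IsR (Ψ n ω) (R n ω)) ∧ IsR U u ∧ (∀ n, @Measurable _ _ _ (borel _) (R n)) ∧
    iIndepFun (m := fun _ => borel _) R μ ∧ ∀ n, Integrable (R n) μ ∧ ∫ ω, R n ω ∂μ = u

theorem main : ∃ (Ω : Type) (_ : MeasurableSpace Ω) (μ : Measure Ω) (_ : IsProbabilityMeasure μ)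
    (Ψ : ℕ → Ω → Set H) (U : Set H), Seq μ Ψ U ∧ IsCompact U ∧ ∀ ω n, 1 ≤ n →
      1 / 4 ≤ hausdorffDist (((2 * n : ℕ) : ℝ)⁻¹ • ∑ i ∈ Finset.range (2 * n), Ψ i ω) U := by
  have hs : HasSum (fun i => 1 / 8 * (1 / 2 : ℝ) ^ i) (1 / 4) := by
    rw [show (1 / 4 : ℝ) = 1 / 8 * 2 by norm_num]; exact hasSum_geometric_two.mul_left _
  obtain ⟨hU, e1⟩ := T_spec hs A_spec
  have hW := fun i => (T_spec (C := Function.update A i {0}) hs fun l => by
    by_cases e : l = i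
    · simp [e]
    · simpa only [Function.update_of_ne e] using A_spec l).1
  choose f hf using fun i j => exR (K_spec i j).1 ⟨0, (K_spec i j).2.2.1⟩
  choose g hg using fun i => exR (hW i).1 ⟨0, (hW i).2.2.1⟩
  obtain ⟨u, hu⟩ := exR hU.1 ⟨0, hU.2.2.1⟩
  let ν := fun i => uniformOn (univ : Set (Fin (m i)))
  let Ψ := fun i (ω : ∀ i, Fin (m i)) => K i (ω i) + T (Function.update A i {0})
  have z : ∀ i ω, 0 ∈ Ψ i ω := fun i ω => ⟨0, (K_spec i _).2.2.1, 0, (hW i).2.2.1, add_zero _⟩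
  have cp : ∀ i ω, IsCompact (Ψ i ω) := fun i ω => (K_spec i _).1.add (hW i).1
  borelize (sphere (0 : StrongDual ℝ H) 1 →ᵇ ℝ)
  refine ⟨_, inferInstance, Measure.infinitePi ν, inferInstance, Ψ, T A, ⟨⟨1 + 1 / 4, fun i ω =>
    ⟨⟨0, z i ω⟩, (K_spec i _).2.1.add (hW i).2.1, ?_⟩⟩, ⟨0, hU.2.2.1⟩, hU.2.1, hU.1.isBounded,
    fun i ω => f i (ω i) + g i, u, fun i ω => (hf i _).add (hg i), hu,
    fun i => (measurable_of_countable fun j => f i j + g i).comp (measurable_pi_apply i),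
    iIndepFun_infinitePi (X := fun i j => f i j + g i) fun i => measurable_of_countable _,
    fun i => ?_⟩, hU.1, fun ω n hn => ?_⟩
  · rintro _ ⟨x, hx, y, hy, rfl⟩
    grw [mem_closedBall_zero_iff, norm_add_le, ((K_spec i _).2.2.2 x hx).1, (hW i).2.2.2 y hy]
  · have mp := measurePreserving_eval_infinitePi ν i
    refine ⟨mp.integrable_comp_of_integrable (g := fun j => f i j + g i) .of_finite, ?_⟩
    rw [← integral_map (f := fun j => f i j + g i) mp.aemeasurable (by fun_prop), mp.map_eq,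
      integral_add .of_finite .of_finite, integral_const, integral_fintype .of_finite]
    ext y
    refine IsLUB.unique ?_ (hu y)
    rw [e1 i]
    convert ((IsR.sum (hf i) .univ).smul (c := (m i : ℝ)⁻¹) (by positivity)).add (hg i) y using 2
    · rfl
    · rfl
    simp [ν, Finset.smul_sum, measureReal_def, uniformOn_univ]
  · let γ : Γ := ⟨n, fun l => ω l⟩
    have hx : ((2 * n : ℕ) : ℝ)⁻¹ • ∑ i ∈ Finset.range (2 * n), (if n ≤ i then e γ else 0) ∈
        ((2 * n : ℕ) : ℝ)⁻¹ • ∑ i ∈ Finset.range (2 * n), Ψ i ω :=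
      smul_mem_smul_set (finsetSum_mem_finsetSum _ _ _ fun i hi => by
        split_ifs with h
        · exact ⟨_, subset_convexHull _ _ (.inr ⟨γ, ⟨h, by simpa using hi, rfl⟩, rfl⟩), 0, (hW i).2.2.1,
            add_zero _⟩
        · exact z i ω)
    refine le_trans ?_ (infDist_le_hausdorffDist_of_mem hx (hausdorffEDist_ne_top_of_nonempty_of_bounded
      ⟨_, hx⟩ ⟨0, hU.2.2.1⟩ (IsCompact.smul _ (Finset.sum_induction _ _ (fun _ _ => IsCompact.add)
        isCompact_singleton fun i _ => cp i ω)).isBounded hU.1.isBounded))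
    refine (le_infDist ⟨0, hU.2.2.1⟩).2 fun y hy => ?_
    rw [← Finset.sum_filter, Finset.sum_const, show (Finset.range (2 * n)).filter (n ≤ ·) =
      Finset.Ico n (2 * n) by ext; simp [and_comm], Nat.card_Ico, show 2 * n - n = n by omega,
      ← Nat.cast_smul_eq_nsmul ℝ, smul_smul, dist_eq_norm]
    grw [← norm_sub_norm_le, hU.2.2.2 y hy]
    have : (n : ℝ) ≠ 0 := by positivity
    simp [norm_smul, e]; field_simp; norm_num

end Pool.Agent.H45.RSet
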