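import Mathlib

set_option maxHeartbeats 400000

open MeasureTheory Set Filter Topology
open scoped ENNReal NNReal

namespace Pool.Agent.H45.Rdv

noncomputable def sl (σ : ℕ → Bool) (j : ℕ) : ℝ := if σ j then 1 else -1

noncomputable def P (σ : ℕ → Bool) (t : ℝ) : ℝ := ∫ s in (0 : ℝ)..t, sl σ ⌊4 * s⌋₊

lemma sl_le (σ j) : ‖sl σ j‖ ≤ 1 := by unfold sl; split_ifs <;> simp

lemma ii (σ) (a b : ℝ) : IntervalIntegrable (fun s => sl σ ⌊4 * s⌋₊) volume a b := by
  refine intervalIntegrable_const (c := (1 : ℝ)).mono_fun ?_ (.of_forall fun s => by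
    simpa using sl_le σ _)
  exact ((measurable_from_top (f := sl σ)).comp (by fun_prop)).aestronglyMeasurable

lemma P_sub (σ) (a b : ℝ) : P σ b - P σ a = ∫ s in a..b, sl σ ⌊4 * s⌋₊ :=
  intervalIntegral.integral_interval_sub_left (ii σ _ _) (ii σ _ _)

lemma P_lip (σ) : LipschitzWith 1 (P σ) := LipschitzWith.of_dist_le_mul fun a b => by
  rw [Real.dist_eq, P_sub, Real.dist_eq]
  simpa using intervalIntegral.norm_integral_le_of_norm_le_const (a := b) (b := a) (C := 1)
    (f := fun s => sl σ ⌊4 * s⌋₊) fun s _ => sl_le σ _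

lemma P_step (σ) (k : ℕ) {r : ℝ} (h0 : 0 ≤ r) (h1 : r ≤ 1 / 4) :
    P σ (k / 4 + r) = P σ (k / 4) + sl σ k * r := by
  rw [← sub_eq_iff_eq_add', P_sub, intervalIntegral.integral_congr_ae (g := fun _ => sl σ k)]
  · simp [mul_comm]
  · filter_upwards [(countable_singleton ((k : ℝ) / 4 + r)).ae_notMem volume] with s hs hs'
    rw [uIoc_of_le (by linarith)] at hs'
    have : s < k / 4 + r := lt_of_le_of_ne hs'.2 hs
    rw [(Nat.floor_eq_iff (by linarith [hs'.1, Nat.cast_nonneg (α := ℝ) k])).2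
      ⟨by linarith [hs'.1], by linarith⟩]

lemma lip_coe : LipschitzWith 1 (fun x : ℝ => (x : UnitAddCircle)) :=
  LipschitzWith.of_dist_le_mul fun a b => by
    rw [dist_eq_norm, dist_eq_norm, ← AddCircle.coe_sub]
    exact (QuotientAddGroup.norm_mk_le_norm (m := a - b)).trans (by simp)

lemma path_lip (σ) : LipschitzWith 1 fun t : ℝ≥0 => (P σ t : UnitAddCircle) := by
  refine LipschitzWith.of_dist_le_mul fun a b => (lip_coe.dist_le_mul _ _).trans ?_
  rw [NNReal.dist_eq, ← Real.dist_eq]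
  simpa using (P_lip σ).dist_le_mul a b

noncomputable def path (σ : ℕ → Bool) : C(ℝ≥0, UnitAddCircle) := ⟨_, (path_lip σ).continuous⟩

lemma path_cont : Continuous path := by
  refine ContinuousMap.continuous_of_continuous_uncurry _ (continuous_iff_continuousAt.2 ?_)
  rintro ⟨σ₀, t₀⟩
  refine ((path σ₀).continuous.comp continuous_snd).continuousAt.congr ?_
  have h1 : ∀ᶠ σ in 𝓝 σ₀, ∀ j ∈ Finset.range (⌊4 * ((t₀ : ℝ) + 1)⌋₊ + 1), σ j = σ₀ j :=
    (Finset.eventually_all _).2 fun j _ =>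
      ((continuous_apply j).tendsto σ₀).eventually (p := (· = σ₀ j)) (by simp)
  have h2 : ∀ᶠ t in 𝓝 t₀, t < t₀ + 1 := eventually_lt_nhds (lt_add_one _)
  filter_upwards [h1.prod_nhds h2] with ⟨σ, t⟩ ⟨h1, h2⟩
  change ((P σ₀ t : ℝ) : UnitAddCircle) = P σ t
  congr 1
  refine intervalIntegral.integral_congr fun s hs => ?_
  rw [uIcc_of_le (NNReal.coe_nonneg t)] at hs
  have : (t : ℝ) < t₀ + 1 := h2
  simp only [sl]
  rw [show σ ⌊4 * s⌋₊ = σ₀ ⌊4 * s⌋₊ from
    h1 _ (Finset.mem_range.2 (Nat.lt_succ_of_le (Nat.floor_le_floor (by linarith [hs.2]))))]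

lemma lin (p q α β : ℝ) (h : p ≤ q) (h0 : ∀ x ∈ Ioc p q, 0 ≤ α + β * x) :
    ∫⁻ x in Ioc p q, ENNReal.ofReal (α + β * x) =
      ENNReal.ofReal (α * (q - p) + β * ((q ^ 2 - p ^ 2) / 2)) := by
  rw [← ofReal_integral_eq_lintegral_ofReal ((by fun_prop : Continuous fun x : ℝ =>
    α + β * x).integrableOn_Ioc) ((ae_restrict_iff' measurableSet_Ioc).2 (.of_forall h0)),
    ← intervalIntegral.integral_of_le h, intervalIntegral.integral_add (by simp)
      ((by fun_prop : Continuous fun x : ℝ => β * x).intervalIntegrable _ _),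
    intervalIntegral.integral_const_mul]
  simp [mul_comm]

def d (σ σ' : ℕ → Bool) : ℕ → ℤ
  | 0 => 0
  | k + 1 => d σ σ' k + if σ' k = σ k then 0 else if σ' k then 1 else -1

lemma P_grid (σ σ') : ∀ k : ℕ, P σ' (k / 4) - P σ (k / 4) = d σ σ' k / 2
  | 0 => by simp [P, d]
  | k + 1 => by
    have := P_grid σ σ' k
    rw [show ((k + 1 : ℕ) : ℝ) / 4 = k / 4 + 1 / 4 by push_cast; ring,
      P_step _ _ (by norm_num) le_rfl, P_step _ _ (by norm_num) le_rfl, d]
    cases h : σ k <;> cases h' : σ' k <;> simp [sl, h, h'] <;> linarith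

def Sw (σ σ' : ℕ → Bool) (b : ℤ) (k : ℕ) : Prop :=
  σ' k ≠ σ k ∧ 2 ∣ (if σ' k then d σ σ' k else d σ σ' k - 1) - b

instance (σ σ' b k) : Decidable (Sw σ σ' b k) := by unfold Sw; infer_instance

noncomputable def T (f g : C(ℝ≥0, UnitAddCircle)) (a : UnitAddCircle) : ℝ≥0∞ :=
  ⨅ (τ : ℝ≥0) (_ : a + f τ = g τ), (τ : ℝ≥0∞)

lemma T_le {σ σ'} (k : ℕ) {x r : ℝ} (h0 : 0 ≤ r) (h1 : r ≤ 1 / 4) (z : ℤ)
    (h : d σ σ' k / 2 + (sl σ' k - sl σ k) * r = x + z) :
    T (path σ) (path σ') x ≤ ENNReal.ofReal (k / 4 + r) := by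
  refine iInf₂_le_of_le ⟨k / 4 + r, by positivity⟩ ?_ (le_of_eq ?_)
  · change (x : UnitAddCircle) + (P σ (k / 4 + r) : ℝ) = (P σ' (k / 4 + r) : ℝ)
    have : P σ' (k / 4 + r) = x + P σ (k / 4 + r) + z := by
      rw [P_step _ _ h0 h1, P_step _ _ h0 h1]; linarith [P_grid σ σ' k]
    rw [this, AddCircle.coe_add, AddCircle.coe_add,
      (AddCircle.coe_eq_zero_iff (p := (1 : ℝ)) (x := (z : ℝ))).2 ⟨z, by simp⟩, add_zero]
  · exact (ENNReal.ofReal_eq_coe_nnreal _).symm

lemma half_le {σ σ' b k} (h : Sw σ σ' b k) :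
    ∫⁻ x in Ioc (b / 2 : ℝ) (b / 2 + 1 / 2), T (path σ) (path σ') x ≤
      ENNReal.ofReal (k / 8 + 1 / 16) := by
  obtain ⟨h1, z, hz⟩ := h
  have hk : (0 : ℝ) ≤ k := Nat.cast_nonneg _
  cases h' : σ' k
  · have h2 : σ k = true := by simpa [h'] using h1
    have hz' : (d σ σ' k : ℝ) - 1 - b = 2 * z := by simp [h'] at hz; exact_mod_cast hz
    refine (setLIntegral_mono' (g := fun x => ENNReal.ofReal ((k / 4 + 1 / 4 + b / 4) +
      (-1 / 2) * x)) measurableSet_Ioc fun x hx => ?_).trans (le_of_eq ?_)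
    · refine (T_le k (r := 1 / 4 + b / 4 - x / 2) (by linarith [hx.2]) (by linarith [hx.1]) z
        (by simp [sl, h', h2]; linarith)).trans (le_of_eq (congrArg _ (by ring)))
    · rw [lin _ _ _ _ (by linarith) fun x hx => by linarith [hx.2]]; congr 1; ring
  · have h2 : σ k = false := by simpa [h'] using h1
    have hz' : (d σ σ' k : ℝ) - b = 2 * z := by simp [h'] at hz; exact_mod_cast hz
    refine (setLIntegral_mono' (g := fun x => ENNReal.ofReal ((k / 4 - b / 4) +
      (1 / 2) * x)) measurableSet_Ioc fun x hx => ?_).trans (le_of_eq ?_)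
    · refine (T_le k (r := x / 2 - b / 4) (by linarith [hx.1]) (by linarith [hx.2]) z
        (by simp [sl, h', h2]; linarith)).trans (le_of_eq (congrArg _ (by ring)))
    · rw [lin _ _ _ _ (by linarith) fun x hx => by linarith [hx.1]]; congr 1; ring

lemma both_le {σ σ' k k'} (h : Sw σ σ' 0 k) (h' : Sw σ σ' 1 k') :
    ∫⁻ a, T (path σ) (path σ') a ≤ ((k + k' + 1 : ℕ) : ℝ≥0∞) / 8 := by
  have h1 := half_le h
  have h2 := half_le h'
  rw [← UnitAddCircle.lintegral_preimage 0, ← Ioc_union_Ioc_eq_Ioc (b := 1 / 2) (by norm_num)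
    (by norm_num), zero_add]
  norm_num at h1 h2
  refine (lintegral_union_le _ _ _).trans ((add_le_add h1 h2).trans (le_of_eq ?_))
  rw [← ENNReal.ofReal_add (by positivity) (by positivity), show (k / 8 + 1 / 16 + (k' / 8 + 1 / 16)
    : ℝ) = (k + k' + 1) / 8 by ring, ENNReal.ofReal_div_of_pos (by norm_num),
    ENNReal.ofReal_add (by positivity) (by positivity),
    ENNReal.ofReal_add (by positivity) (by positivity)]
  simp

def tab : Fin 10 → List Bool :=
  ![[true, true, true, true, true, true], [true, true, true, false, false, false],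
    [true, true, false, false, true, true], [true, false, true, true, false, true],
    [true, false, false, false, false, true], [false, false, false, false, false, false],
    [false, false, false, true, true, true], [false, false, true, true, false, false],
    [false, true, false, false, true, false], [false, true, true, true, true, false]]

def σ (i : Fin 10) (ω : ℕ → Bool) (j : ℕ) : Bool :=
  if j < 6 then (tab i).getD j true else ω ((j - 6) / 2)

def kf (b : ℤ) (i i' : Fin 10) : ℕ :=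
  ((List.range 6).find? fun k => decide (Sw (σ i fun _ => true) (σ i' fun _ => true) b k)).getD 0

lemma kf_spec : ∀ i i', i ≠ i' → ∀ b ∈ [0, 1], kf b i i' < 6 ∧
    Sw (σ i fun _ => true) (σ i' fun _ => true) b (kf b i i') := by decide +kernel

lemma kf_sum : ∑ i, ∑ i', (if i = i' then 18 else kf 0 i i' + kf 1 i i' + 1) = 598 := by
  decide +kernel

lemma d_congr {σ σ' τ τ' : ℕ → Bool} : ∀ k, (∀ j < k, σ j = τ j ∧ σ' j = τ' j) →
    d σ σ' k = d τ τ' k
  | 0, _ => rfl
  | k + 1, h => by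
    rw [d, d, d_congr k fun j hj => h j (by omega), (h k (by omega)).1, (h k (by omega)).2]

lemma d_zero {σ σ' : ℕ → Bool} : ∀ k, (∀ j < k, σ' j = σ j) → d σ σ' k = 0
  | 0, _ => rfl
  | k + 1, h => by rw [d, d_zero k fun j hj => h j (by omega), if_pos (h k (by omega))]; rfl

lemma ne_le {i i'} (h : i ≠ i') (ω ω') : ∫⁻ a, T (path (σ i ω)) (path (σ i' ω')) a ≤
    ((kf 0 i i' + kf 1 i i' + 1 : ℕ) : ℝ≥0∞) / 8 := by
  have : ∀ b ∈ [0, 1], Sw (σ i ω) (σ i' ω') b (kf b i i') := fun b hb => by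
    obtain ⟨h1, h2⟩ := kf_spec i i' h b hb
    have e : ∀ i ω j, j < 6 → σ i ω j = σ i (fun _ => true) j := fun i ω j hj => by simp [σ, hj]
    rwa [Sw, e i ω _ h1, e i' ω' _ h1,
      d_congr _ fun j hj => ⟨e _ _ _ (hj.trans h1), e _ _ _ (hj.trans h1)⟩]
  exact both_le (this 0 (by simp)) (this 1 (by simp))

noncomputable abbrev coin := Measure.infinitePi fun _ : ℕ => (PMF.uniformOfFintype Bool).toMeasure

def E (ω : ℕ → Bool) (m : ℕ) : Set (ℕ → Bool) := Set.pi (Finset.range (m + 1)) fun j => {ω j}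

lemma E_meas (ω m) : MeasurableSet (E ω m) :=
  MeasurableSet.pi (to_countable _) fun _ _ => measurableSet_singleton _

lemma coin_E (ω m) : coin (E ω m) = 2⁻¹ ^ (m + 1) := by
  rw [E, Measure.infinitePi_pi _ fun _ _ => measurableSet_singleton _]
  simp

lemma mem_E {ω ω' m} : ω' ∈ E ω m ↔ ∀ j ≤ m, ω' j = ω j := by simp [E]

lemma eq_le (i ω) : ∫⁻ ω', ∫⁻ a, T (path (σ i ω)) (path (σ i ω')) a ∂volume ∂coin ≤ 18 / 8 := by
  calc _ ≤ ∫⁻ ω', (14 / 8 + ∑' m, (E ω m).indicator (fun _ => (4 / 8 : ℝ≥0∞)) ω') ∂coin := by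
        refine lintegral_mono fun ω' => ?_
        by_cases hex : ∃ K, ω' K ≠ ω K
        · classical
          have hK := Nat.find_spec hex
          have hK' : ∀ j < Nat.find hex, ω' j = ω j := fun j hj => by
            simpa using Nat.find_min hex hj
          set K := Nat.find hex
          have h0 : d (σ i ω) (σ i ω') (6 + 2 * K) = 0 := d_zero _ fun j hj => by
            unfold σ; split_ifs; exacts [rfl, hK' _ (by omega)]
          have e1 : ∀ ω, σ i ω (6 + 2 * K) = ω K := fun ω => by simp [σ]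
          have e2 : ∀ ω, σ i ω (6 + 2 * K + 1) = ω K := fun ω => by
            rw [σ, if_neg (by omega)]; congr 1; omega
          have : ∫⁻ a, T (path (σ i ω)) (path (σ i ω')) a ≤ ((14 + 4 * K : ℕ) : ℝ≥0∞) / 8 := by
            cases h : ω' K
            · have h2 : ω K = true := by simpa [h] using hK
              exact (both_le (k := 6 + 2 * K + 1) (k' := 6 + 2 * K) (by simp [Sw, d, e1, e2, h0, h, h2])
                (by simp [Sw, e1, h0, h, h2])).trans (le_of_eq (by congr 2; omega))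
            · have h2 : ω K = false := by simpa [h] using hK
              exact (both_le (k := 6 + 2 * K) (k' := 6 + 2 * K + 1) (by simp [Sw, e1, h0, h, h2])
                (by simp [Sw, d, e1, e2, h0, h, h2])).trans (le_of_eq (by congr 2; omega))
          refine this.trans (le_trans (le_of_eq ?_) (add_le_add_right
            (ENNReal.sum_le_tsum (Finset.range K)) _))
          rw [Finset.sum_congr rfl (g := fun _ => 4 / 8) fun m hm => indicator_of_mem
            (mem_E.2 fun j hj => hK' j (by simp at hm; omega)) _]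
          simp [div_eq_mul_inv, add_mul]; ring
        · push Not at hex
          rw [tsum_congr fun k => indicator_of_mem (mem_E.2 fun j _ => hex j) _]
          simp
    _ = _ := by
        rw [lintegral_add_left measurable_const,
          lintegral_tsum fun k => (measurable_const.indicator (E_meas ω k)).aemeasurable]
        simp only [lintegral_indicator_const (E_meas _ _), coin_E, ENNReal.tsum_mul_left,
          ENNReal.tsum_geometric_add_one]
        simp [ENNReal.inv_mul_cancel, ← ENNReal.add_div]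
        norm_num

noncomputable instance : MeasurableSpace C(ℝ≥0, UnitAddCircle) := borel _
instance : BorelSpace C(ℝ≥0, UnitAddCircle) := ⟨rfl⟩

lemma meas (i) : Measurable fun ω => path (σ i ω) := by
  refine (path_cont.comp (continuous_pi fun j => ?_)).measurable
  unfold σ; split_ifs; exacts [continuous_const, continuous_apply _]

noncomputable def μ : Measure C(ℝ≥0, UnitAddCircle) :=
  ∑ i, (10⁻¹ : ℝ≥0∞) • coin.map fun ω => path (σ i ω)

instance : IsProbabilityMeasure μ := ⟨by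
  simp [μ, Measure.map_apply (meas _) MeasurableSet.univ, ENNReal.mul_inv_cancel]⟩

lemma μ_ae : ∀ᵐ (f : C(ℝ≥0, UnitAddCircle)) ∂μ, LipschitzWith 1 (⇑f) ∧ f 0 = 0 := by
  have hm : MeasurableSet {f : C(ℝ≥0, UnitAddCircle) | LipschitzWith 1 (⇑f) ∧ f 0 = 0} := by
    refine IsClosed.measurableSet (IsClosed.inter ?_ (isClosed_eq (by fun_prop) continuous_const))
    exact (isClosed_setOfPred_lipschitzWith 1).preimage continuous_coeFun
  rw [μ, ae_iff, Measure.finsetSum_apply]
  refine Finset.sum_eq_zero fun i _ => ?_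
  rw [Measure.smul_apply, (ae_iff.1 ((ae_map_iff (meas i).aemeasurable hm).2
    (.of_forall fun ω => ⟨path_lip _, by simp [path, P]⟩))), smul_zero]

lemma μ_le (F : C(ℝ≥0, UnitAddCircle) → ℝ≥0∞) (c : Fin 10 → ℝ≥0∞)
    (h : ∀ i, ∫⁻ ω, F (path (σ i ω)) ∂coin ≤ c i) : ∫⁻ f, F f ∂μ ≤ 10⁻¹ * ∑ i, c i := by
  rw [μ, lintegral_finsetSum_measure, Finset.mul_sum]
  refine Finset.sum_le_sum fun i _ => ?_
  rw [lintegral_smul_measure]
  exact mul_le_mul_right ((lintegral_map_le _ _).trans (h i)) _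

lemma upper : ∫⁻ f, ∫⁻ g, ∫⁻ a, T f g a ∂volume ∂μ ∂μ ≤ ENNReal.ofReal (598 / 800) := by
  refine (μ_le _ (fun i => 10⁻¹ * ∑ i', ((if i = i' then 18 else kf 0 i i' + kf 1 i i' + 1 : ℕ) :
    ℝ≥0∞) / 8) fun i => ?_).trans (le_of_eq ?_)
  · refine (lintegral_mono fun ω => μ_le _ (fun i' => ((if i = i' then 18 else
      kf 0 i i' + kf 1 i i' + 1 : ℕ) : ℝ≥0∞) / 8) fun i' => ?_).trans (by simp)
    split_ifs with h
    · subst h; exact eq_le i ω
    · exact (lintegral_mono fun ω' => ne_le h ω ω').trans (by simp)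
  · simp only [div_eq_mul_inv, ← Finset.sum_mul, ← Finset.mul_sum, ← Nat.cast_sum, kf_sum]
    rw [ENNReal.ofReal_mul (by norm_num), ENNReal.ofReal_inv_of_pos (by norm_num)]
    simp only [ENNReal.ofReal_ofNat, Nat.cast_ofNat]
    rw [show (800 : ℝ≥0∞) = 10 * (10 * 8) by norm_num, ENNReal.mul_inv (by simp) (by simp),
      ENNReal.mul_inv (by simp) (by simp)]
    ring

noncomputable def c (ω : ℕ → Bool) (τ : ℝ) : ℝ :=
  (∑ j ∈ Finset.range ⌊2 * τ⌋₊, (if ω j then (1 / 2 : ℝ) else -1 / 2)) +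
    (if ω ⌊2 * τ⌋₊ then (1 : ℝ) else -1) * (τ - (⌊2 * τ⌋₊ : ℝ) / 2)

lemma LB {ω ω' : ℕ → Bool} {m : ℕ} (h : ∀ j < m, ω' j = ω j) :
    ENNReal.ofReal (m / 2 + 1 / 4) ≤ ∫⁻ a : UnitAddCircle,
      ⨅ (τ : ℝ≥0) (_ : a + (c ω τ : ℝ) = (c ω' τ : ℝ)), (τ : ℝ≥0∞) := by
  have hm : (0 : ℝ) ≤ m := Nat.cast_nonneg _
  have key : ∀ x ∈ Ioo (0 : ℝ) 1, ∀ τ : ℝ≥0, (x : UnitAddCircle) + (c ω τ : ℝ) = (c ω' τ : ℝ) →
      m / 2 + (if ω' m then x / 2 else (1 - x) / 2) ≤ (τ : ℝ) := by
    intro x hx τ he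
    have h1 := Nat.floor_le (show 0 ≤ 2 * (τ : ℝ) by positivity)
    have h2 := Nat.lt_floor_add_one (2 * (τ : ℝ))
    by_cases hk : m < ⌊2 * (τ : ℝ)⌋₊
    · have : (m : ℝ) + 1 ≤ ⌊2 * (τ : ℝ)⌋₊ := by exact_mod_cast hk
      split_ifs <;> linarith [hx.1, hx.2]
    rw [← AddCircle.coe_add, ← sub_eq_zero, ← AddCircle.coe_sub, AddCircle.coe_eq_zero_iff] at he
    obtain ⟨z, hz⟩ := he
    have e : ∑ j ∈ Finset.range ⌊2 * (τ : ℝ)⌋₊, (if ω j then (1 / 2 : ℝ) else -1 / 2) =
        ∑ j ∈ Finset.range ⌊2 * (τ : ℝ)⌋₊, (if ω' j then (1 / 2 : ℝ) else -1 / 2) :=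
      Finset.sum_congr rfl fun j hj => by rw [h j (by simp at hj; omega)]
    rw [c, c, e] at hz
    simp only [zsmul_eq_mul, mul_one] at hz
    have hz0 : ∀ y : ℝ, (z : ℝ) = y → 0 < y → 1 ≤ y := fun y e h => by
      have : 0 < z := by exact_mod_cast e ▸ h
      exact e ▸ by exact_mod_cast this
    have hz1 : ∀ y : ℝ, (z : ℝ) = y → y < 1 → y ≤ 0 := fun y e h => by
      have : z < 1 := by exact_mod_cast e ▸ h
      exact e ▸ by exact_mod_cast Int.lt_add_one_iff.1 this
    by_cases he : ω' ⌊2 * (τ : ℝ)⌋₊ = ω ⌊2 * (τ : ℝ)⌋₊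
    · rw [he] at hz
      linarith [hz0 x (by linarith) hx.1, hx.2]
    have hm' : ⌊2 * (τ : ℝ)⌋₊ = m := by
      by_contra hc; exact he (h _ (by omega))
    rw [hm'] at hz he h1 h2
    cases h' : ω' m
    · have h3 : ω m = true := by simpa [h'] using he
      simp only [h', h3, if_true, Bool.false_eq_true, if_false] at hz ⊢
      linarith [hz0 (x + 2 * (τ - m / 2)) (by linarith) (by linarith [hx.1])]
    · have h3 : ω m = false := by simpa [h'] using he
      simp only [h', h3, if_true, Bool.false_eq_true, if_false] at hz ⊢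
      linarith [hz1 (x - 2 * (τ - m / 2)) (by linarith) (by linarith [hx.2])]
  rw [← UnitAddCircle.lintegral_preimage 0, zero_add, ← setLIntegral_congr Ioo_ae_eq_Ioc]
  refine le_trans ?_ (setLIntegral_mono' (f := fun x => ENNReal.ofReal (m / 2 +
    (if ω' m then x / 2 else (1 - x) / 2))) measurableSet_Ioo fun x hx => le_iInf₂ fun τ hτ =>
      (ENNReal.ofReal_le_ofReal (key x hx τ hτ)).trans (by simp))
  rw [setLIntegral_congr Ioo_ae_eq_Ioc]
  cases ω' m
  · have := lin 0 1 (m / 2 + 1 / 2) (-1 / 2) zero_le_one fun x hx => by linarith [hx.2]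
    refine le_of_eq (Eq.trans (congrArg _ (by ring)) (this.symm.trans ?_))
    exact lintegral_congr fun x => congrArg _ (by simp; ring)
  · have := lin 0 1 (m / 2) (1 / 2) zero_le_one fun x hx => by linarith [hx.1]
    refine le_of_eq (Eq.trans (congrArg _ (by ring)) (this.symm.trans ?_))
    exact lintegral_congr fun x => congrArg _ (by simp; ring)

lemma exM (ω ω' : ℕ → Bool) : ∀ N, ∃ M : ℕ, (∀ j < M, ω' j = ω j) ∧
    ∑ m ∈ Finset.range N, (E ω m).indicator (fun _ => (2⁻¹ : ℝ≥0∞)) ω' ≤ M * 2⁻¹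
  | 0 => ⟨0, by simp, by simp⟩
  | N + 1 => by
    by_cases h : ω' ∈ E ω N
    · refine ⟨N + 1, fun j hj => mem_E.1 h j (by omega), (Finset.sum_le_card_nsmul _ _ _
        fun m _ => indicator_le_self _ _ _).trans (by simp)⟩
    · rw [Finset.sum_range_succ, indicator_of_notMem h, add_zero]; exact exM ω ω' N

lemma lower (ω : ℕ → Bool) : ENNReal.ofReal (383 / 512) ≤ ∫⁻ ω', ∫⁻ a : UnitAddCircle,
    ⨅ (τ : ℝ≥0) (_ : a + (c ω τ : ℝ) = (c ω' τ : ℝ)), (τ : ℝ≥0∞) ∂volume ∂coin := by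
  refine le_trans (le_of_eq ?_) (lintegral_mono (f := fun ω' => 4⁻¹ + ∑ m ∈ Finset.range 8,
    (E ω m).indicator (fun _ => (2⁻¹ : ℝ≥0∞)) ω') fun ω' => ?_)
  · rw [lintegral_add_left measurable_const,
      lintegral_finsetSum _ fun m _ => measurable_const.indicator (E_meas ω m)]
    simp only [lintegral_indicator_const (E_meas _ _), coin_E, lintegral_const, measure_univ]
    refine (ENNReal.toReal_eq_toReal_iff' (by simp) (by simp [ENNReal.mul_eq_top])).1 ?_
    rw [ENNReal.toReal_ofReal (by norm_num), ENNReal.toReal_add (by simp)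
      (by simp [ENNReal.mul_eq_top]), ENNReal.toReal_sum (by simp [ENNReal.mul_eq_top])]
    simp [Finset.sum_range_succ]; norm_num
  · obtain ⟨M, h1, h2⟩ := exM ω ω' 8
    refine le_trans ((add_le_add_right h2 _).trans (le_of_eq ?_)) (LB h1)
    rw [ENNReal.ofReal_add (by positivity) (by positivity), ENNReal.ofReal_div_of_pos two_pos,
      ENNReal.ofReal_div_of_pos four_pos]
    simp [div_eq_mul_inv, add_comm]

end Pool.Agent.H45.Rdv
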