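import Pool.Agent.H45.SRWDefs

set_option autoImplicit false

namespace Pool.Agent.H45.Chain

open MeasureTheory
open scoped ENNReal

/-- The `k`-th power of a graph: distinct vertices at distance at most `k` are adjacent. -/
def graphPow {V : Type} (G : SimpleGraph V) (k : ℕ) : SimpleGraph V :=
  SimpleGraph.fromRel fun x y => G.edist x y ≤ k

/-- Probability that simple random walk on `G` started at `v` returns to `v`. -/
noncomputable def returnProb {V : Type} [MeasurableSpace V] [Countable V]
    [MeasurableSingletonClass V] (G : SimpleGraph V) (v : V) : ℝ≥0∞ :=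
  pathLaw (srw G) v {x | ∃ t, 1 ≤ t ∧ x t = v}

/-- The graph `G` rooted at a random vertex of law `μ` satisfies the mass-transport principle for
every nonnegative function of doubly rooted graphs that is invariant under isomorphism. -/
def Unimodular {V : Type} (G : SimpleGraph V) (μ : PMF V) : Prop :=
  ∀ f : (W : Type) → SimpleGraph W → W → W → ℝ≥0∞,
    (∀ (W W' : Type) (H : SimpleGraph W) (H' : SimpleGraph W') (φ : H ≃g H') (x y : W),
      f W' H' (φ x) (φ y) = f W H x y) →
    ∑' x, μ x * ∑' y, f V G x y = ∑' x, μ x * ∑' y, f V G y x

end Pool.Agent.H45.Chain
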