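import Pool.Agent.H45.Cover
import Pool.Agent.H45.UnimodDefs

set_option autoImplicit false
set_option maxHeartbeats 400000

namespace Pool.Agent.H45.Chain

open MeasureTheory ProbabilityTheory Finset Filter Topology
open scoped ENNReal

variable {V : Type} [MeasurableSpace V] [Countable V] [MeasurableSingletonClass V] [DecidableEq V]

lemma srw_step (G : SimpleGraph V) (v : V) [Fintype (G.neighborSet v)] (h : 0 < G.degree v)
    (g : V → ℝ≥0∞) (hg : ∀ w, g w ≠ ⊤) :
    (∑' w, srw G v {w} * g w).toReal * G.degree v = ∑ w ∈ G.neighborFinset v, (g w).toReal := by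
  rw [tsum_eq_sum (s := G.neighborFinset v) fun w hw => by rw [srw_apply G v h, if_neg hw, zero_mul],
    ENNReal.toReal_sum fun w _ => ENNReal.mul_ne_top (measure_ne_top _ _) (hg w), sum_mul]
  refine sum_congr rfl fun w hw => ?_
  rw [srw_apply G v h, if_pos hw, ENNReal.toReal_mul, ENNReal.toReal_inv, ENNReal.toReal_natCast]
  have : (G.degree v : ℝ) ≠ 0 := by positivity
  field_simp

def never (v : V) : Set (ℕ → V) := {x | ∀ t, x t ≠ v}

omit [Countable V] [DecidableEq V] in
lemma measurableSet_never (v : V) : MeasurableSet (never v) := by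
  have : never v = ⋂ t, (fun x : ℕ → V => x t) ⁻¹' {v}ᶜ := by ext x; simp [never]
  rw [this]
  exact MeasurableSet.iInter fun t => measurable_pi_apply t (measurableSet_singleton v).compl

omit [Countable V] [DecidableEq V] in
lemma measurableSet_ret (v : V) : MeasurableSet {x : ℕ → V | ∃ t, 1 ≤ t ∧ x t = v} := by
  have : {x : ℕ → V | ∃ t, 1 ≤ t ∧ x t = v} =
      ⋃ t, ⋃ _ : 1 ≤ t, (fun x : ℕ → V => x t) ⁻¹' {v} := by ext x; simp
  rw [this]
  exact MeasurableSet.iUnion fun t => MeasurableSet.iUnion fun _ =>
    measurable_pi_apply t (measurableSet_singleton v)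

omit [DecidableEq V] in
lemma no_return (K : Kernel V V) [IsMarkovKernel K] (v : V) :
    pathLaw K v {x | ∃ t, 1 ≤ t ∧ x t = v}ᶜ = ∑' w, K v {w} * pathLaw K w (never v) := by
  rw [measure_first_step K v _ (measurableSet_ret v).compl]
  have : cons v ⁻¹' {x | ∃ t, 1 ≤ t ∧ x t = v}ᶜ = never v := by
    ext x
    simp only [never, Set.mem_preimage, Set.mem_compl_iff, Set.mem_ofPred_eq, not_exists, not_and]
    refine ⟨fun h t => h (t + 1) (by omega), fun h t ht => ?_⟩
    obtain ⟨s, rfl⟩ : ∃ s, t = s + 1 := ⟨t - 1, by omega⟩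
    exact h s
  rw [this]

omit [DecidableEq V] in
lemma never_self (K : Kernel V V) [IsMarkovKernel K] (v : V) : pathLaw K v (never v) = 0 := by
  rw [measure_first_step K v _ (measurableSet_never v)]
  have : cons v ⁻¹' never v = ∅ := Set.eq_empty_of_forall_notMem fun x h => h 0 rfl
  simp [this]

omit [DecidableEq V] in
lemma never_step (K : Kernel V V) [IsMarkovKernel K] (u v : V) (h : u ≠ v) :
    pathLaw K u (never v) = ∑' w, K u {w} * pathLaw K w (never v) := by
  rw [measure_first_step K u _ (measurableSet_never v)]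
  have : cons u ⁻¹' never v = never v := by
    ext x
    refine ⟨fun hh t => hh (t + 1), fun hh t => ?_⟩
    cases t with
    | zero => exact h
    | succ t => exact hh t
  rw [this]

/-- a one-ended tree given by a parent map is recurrent -/
theorem recurrent_of_parent (G : SimpleGraph V) (par : V → V) (ρ : V → ℕ)
    (hρ : ∀ v, ρ v < ρ (par v)) (hadj : ∀ y z, G.Adj y z ↔ par y = z ∨ par z = y)
    (hfin : ∀ v, (G.neighborSet v).Finite) (x : V) : returnProb G x = 1 := by
  have : ∀ v, Fintype (G.neighborSet v) := fun v => (hfin v).fintype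
  have hp : ∀ v, par v ∈ G.neighborFinset v := fun v => by simp [hadj]
  have hdeg : ∀ v, 0 < G.degree v := fun v => card_pos.2 ⟨_, hp v⟩
  set h : V → ℝ := fun y => (pathLaw (srw G) y (never x)).toReal with hh
  have hx : h x = 0 := by simp [hh, never_self]
  have harm : ∀ y, y ≠ x → ∑ w ∈ G.neighborFinset y, (h w - h y) = 0 := by
    intro y hy
    rw [sum_sub_distrib, ← srw_step G y (hdeg y) _ fun _ => measure_ne_top _ _,
      ← never_step _ _ _ hy, sum_const, nsmul_eq_mul, mul_comm]
    exact sub_self _
  have hch : ∀ v w, w ∈ (G.neighborFinset v).erase (par v) → par w = v := by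
    intro v w hw
    have := (hadj v w).1 (by simpa using mem_of_mem_erase hw)
    exact this.resolve_left (ne_of_mem_erase hw).symm
  have hmono : StrictMono fun k => ρ (par^[k] x) := strictMono_nat_of_lt_succ fun k => by
    rw [Function.iterate_succ_apply']; exact hρ _
  have h1 : ∀ (r : ℕ) v, ρ v < r → (∀ k, par^[k] x ≠ v) → h (par v) = h v := by
    intro r
    induction r with
    | zero => intro v hv; omega
    | succ r ih =>
      intro v hv hk
      have := harm v (hk 0).symm
      rw [← add_sum_erase _ _ (hp v), sum_eq_zero fun w hw => ?_] at this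
      · linarith
      · have e := hch v w hw
        rw [← ih w (by have := hρ w; rw [e] at this; omega) fun k hk' => hk (k + 1) (by
          rw [Function.iterate_succ_apply', hk', e]), e, sub_self]
  have h2 : ∀ k w, par w = par^[k] x → (∀ j, j + 1 = k → w ≠ par^[j] x) →
      h w = h (par^[k] x) := by
    intro k w e hw
    rw [← e, h1 _ w (Nat.lt_succ_self _) fun j hj => hw j ?_ hj.symm]
    apply hmono.injective
    simp only
    rw [Function.iterate_succ_apply', hj, e]
  have h3 : ∀ k, h (par^[k + 1] x) - h (par^[k] x) = h (par x) := by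
    intro k
    induction k with
    | zero => simp [hx]
    | succ k ih =>
      have hne : par^[k + 1] x ≠ x := fun e => by
        have := hmono (Nat.succ_pos k)
        simp only [Function.iterate_zero, id] at this
        rw [e] at this
        exact lt_irrefl _ this
      have := harm _ hne
      have hm : par^[k] x ∈ (G.neighborFinset (par^[k + 1] x)).erase (par (par^[k + 1] x)) := by
        refine mem_erase.2 ⟨fun e => ?_, by
          rw [SimpleGraph.mem_neighborFinset, hadj]
          exact Or.inr (Function.iterate_succ_apply' par k x).symm⟩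
        rw [← Function.iterate_succ_apply' par] at e
        have := hmono.injective (congrArg ρ e)
        omega
      rw [← add_sum_erase _ _ (hp _), ← add_sum_erase _ _ hm, sum_eq_zero fun w hw => ?_,
        ← Function.iterate_succ_apply' par (k + 1)] at this
      · linarith
      · rw [h2 (k + 1) w (hch _ w (mem_of_mem_erase hw)) fun j hj => by
          obtain rfl : j = k := by omega
          exact ne_of_mem_erase hw, sub_self]
  have h4 : ∀ k : ℕ, h (par^[k] x) = k * h (par x) := by
    intro k
    induction k with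
    | zero => simp [hx]
    | succ k ih => have := h3 k; push_cast; linarith
  have h5 : h (par x) = 0 := by
    refine le_antisymm (not_lt.1 fun hpos => ?_) ENNReal.toReal_nonneg
    obtain ⟨k, hk⟩ := exists_nat_gt (1 / h (par x))
    rw [div_lt_iff₀ hpos, ← h4] at hk
    exact absurd hk (not_lt.2 measureReal_le_one)
  rw [returnProb, ← prob_compl_eq_zero_iff (measurableSet_ret x), no_return, ENNReal.tsum_eq_zero]
  intro w
  rw [srw_apply G x (hdeg x)]
  split_ifs with hw
  · have : h w = 0 := by
      by_cases e : w = par x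
      · rw [e, h5]
      · rw [h2 0 w (hch x w (mem_erase.2 ⟨e, hw⟩)) (by omega)]; exact hx
    rw [(ENNReal.toReal_eq_zero_iff _).1 this |>.resolve_right (measure_ne_top _ _), mul_zero]
  · rw [zero_mul]

/-- recurrence gives finitely supported test functions of small Dirichlet energy -/
theorem energy_small (G : SimpleGraph V) (hfin : ∀ v, (G.neighborSet v).Finite)
    (hne : ∀ v, ∃ w, G.Adj v w) (x : V) (hrec : returnProb G x = 1) (ε : ℝ) (hε : 0 < ε) :
    ∃ (w : V → ℝ) (B : Finset V), w x = 1 ∧ (∀ y ∉ B, w y = 0) ∧
      ∀ F : Finset (V × V), (∀ p ∈ F, G.Adj p.1 p.2) → ∑ p ∈ F, (w p.1 - w p.2) ^ 2 ≤ ε := by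
  classical
  have : ∀ v, Fintype (G.neighborSet v) := fun v => (hfin v).fintype
  have hdeg : ∀ v, 0 < G.degree v := fun v => (G.degree_pos_iff_exists_adj v).2 (hne v)
  set a : ℕ → V → ℝ := fun n y => (pathLaw (srw G) y (avoid x n)).toReal with ha
  have astep : ∀ n y, y ≠ x → ∑ z ∈ G.neighborFinset y, a n z = a (n + 1) y * G.degree y := by
    intro n y hy
    rw [← srw_step G y (hdeg y) _ fun _ => measure_ne_top _ _, ← avoid_succ _ _ _ hy]
  have anti : ∀ n y, a (n + 1) y ≤ a n y := fun n y =>
    ENNReal.toReal_mono (measure_ne_top _ _) (measure_mono (avoid_anti x (Nat.le_succ n)))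
  have a1 : ∀ n y, a n y ≤ 1 := fun n y => measureReal_le_one
  have ax : ∀ n, a n x = 0 := fun n => by simp [ha, avoid_self]
  have hB : ∀ n, ∃ B : Finset V, x ∈ B ∧ ∀ y ∉ B, a n y = 1 := by
    intro n
    induction n with
    | zero => exact ⟨{x}, by simp, fun y hy => by simp [ha, avoid_zero _ y x (by simpa using hy)]⟩
    | succ n ih =>
      obtain ⟨B, h1, h2⟩ := ih
      refine ⟨B ∪ B.biUnion fun y => G.neighborFinset y, by simp [h1], fun y hy => ?_⟩
      simp only [mem_union, mem_biUnion, SimpleGraph.mem_neighborFinset, not_or, not_exists,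
        not_and] at hy
      have := astep n y (by rintro rfl; exact hy.1 h1)
      rw [sum_congr rfl (g := fun _ => 1) fun z hz => h2 z fun hz' => hy.2 z hz'
        (by simpa using (G.mem_neighborFinset y z).1 hz |>.symm), sum_const, nsmul_eq_mul,
        mul_one, SimpleGraph.card_neighborFinset_eq_degree] at this
      have h3 : (0 : ℝ) < G.degree y := by exact_mod_cast hdeg y
      exact (mul_eq_right₀ h3.ne').1 this.symm
  have hlim : Tendsto (fun n => ∑ z ∈ G.neighborFinset x, a n z) atTop (𝓝 0) := by
    have h0 : ∀ z ∈ G.neighborFinset x, pathLaw (srw G) z (never x) = 0 := by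
      intro z hz
      rw [returnProb, ← prob_compl_eq_zero_iff (measurableSet_ret x), no_return,
        ENNReal.tsum_eq_zero] at hrec
      have := hrec z
      rw [srw_apply G x (hdeg x), if_pos hz] at this
      simpa using this
    have := tendsto_finsetSum (G.neighborFinset x) (f := fun z n => a n z) (a := fun _ => 0)
      (x := atTop) fun z hz => by
        have e : never x = ⋂ n, avoid x n := by
          ext p
          simp only [never, avoid, Set.mem_iInter, Set.mem_ofPred_eq]
          exact ⟨fun h n s _ => h s, fun h t => h t t le_rfl⟩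
        have := tendsto_measure_iInter_atTop (μ := pathLaw (srw G) z)
          (fun n => (measurableSet_avoid x n).nullMeasurableSet)
          (fun m n h => avoid_anti x h) ⟨0, measure_ne_top _ _⟩
        rw [← e, h0 z hz] at this
        exact (ENNReal.tendsto_toReal ENNReal.zero_ne_top).comp this
    simpa using this
  obtain ⟨n, hn⟩ := (hlim.eventually_lt_const (half_pos hε)).exists
  obtain ⟨B, hxB, hB⟩ := hB n
  set w : V → ℝ := fun y => 1 - a n y with hw
  refine ⟨w, B, by simp [hw, ax], fun y hy => by simp [hw, hB y hy], fun F hF => ?_⟩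
  set B' := (B ∪ B.biUnion fun y => G.neighborFinset y) ∪ (F.image Prod.fst ∪ F.image Prod.snd)
    with hB'
  have e1 : ∑ p ∈ F, (w p.1 - w p.2) ^ 2 ≤
      ∑ y ∈ B', ∑ z ∈ B', if G.Adj y z then (w y - w z) ^ 2 else 0 := by
    rw [← sum_product' (f := fun y z => if G.Adj y z then (w y - w z) ^ 2 else 0), ← sum_filter]
    refine sum_le_sum_of_subset_of_nonneg (fun p hp => ?_) fun _ _ _ => sq_nonneg _
    simp only [mem_filter, mem_product, hB', mem_union, mem_image]
    exact ⟨⟨Or.inr (Or.inl ⟨p, hp, rfl⟩), Or.inr (Or.inr ⟨p, hp, rfl⟩)⟩, hF p hp⟩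
  have e2 : ∑ y ∈ B', ∑ z ∈ B', (if G.Adj y z then (w y - w z) ^ 2 else 0) =
      2 * ∑ y ∈ B', ∑ z ∈ B', if G.Adj y z then w y * (w y - w z) else 0 := by
    rw [two_mul]
    nth_rewrite 3 [sum_comm]
    rw [← sum_add_distrib]
    refine sum_congr rfl fun y _ => ?_
    rw [← sum_add_distrib]
    refine sum_congr rfl fun z _ => ?_
    by_cases h : G.Adj y z
    · rw [if_pos h, if_pos h, if_pos h.symm]; ring
    · rw [if_neg h, if_neg h, if_neg fun h' => h h'.symm, add_zero]
  have e3 : ∀ y ∈ B', ∑ z ∈ B', (if G.Adj y z then w y * (w y - w z) else 0) ≤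
      if y = x then ε / 2 else 0 := by
    intro y _
    by_cases hy : y ∈ B
    · rw [← sum_filter, show B'.filter (G.Adj y) = G.neighborFinset y by
        ext z
        simp only [mem_filter, SimpleGraph.mem_neighborFinset, and_iff_right_iff_imp, hB',
          mem_union, mem_biUnion]
        exact fun h => Or.inl (Or.inr ⟨y, hy, h⟩), ← mul_sum]
      simp only [hw, sub_sub_sub_cancel_left, sum_sub_distrib, sum_const, nsmul_eq_mul,
        SimpleGraph.card_neighborFinset_eq_degree]
      split_ifs with h
      · subst h; simp [ax, hn.le]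
      · rw [astep n y h]
        refine mul_nonpos_of_nonneg_of_nonpos (sub_nonneg.2 (a1 n y)) ?_
        have : (0 : ℝ) ≤ G.degree y := by positivity
        nlinarith [anti n y]
    · have : w y = 0 := by simp [hw, hB y hy]
      simp only [this, zero_mul, ite_self, sum_const_zero]
      positivity
  have e4 := sum_le_sum e3
  rw [sum_ite_eq'] at e4
  split_ifs at e4 <;> linarith

omit [MeasurableSpace V] [Countable V] [MeasurableSingletonClass V] [DecidableEq V] in
lemma finite_ball (G : SimpleGraph V) (hfin : ∀ v, (G.neighborSet v).Finite) (k : ℕ) :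
    ∀ x, Set.Finite {y | ∃ p : G.Walk x y, p.length ≤ k} := by
  induction k with
  | zero =>
    intro x
    refine (Set.finite_singleton x).subset ?_
    rintro y ⟨p, hp⟩
    exact (SimpleGraph.Walk.eq_of_length_eq_zero (Nat.le_zero.1 hp)).symm
  | succ k ih =>
    intro x
    refine (((hfin x).biUnion fun z _ => ih z).insert x).subset ?_
    rintro y ⟨p, hp⟩
    cases p with
    | nil => left; rfl
    | cons h q =>
      right
      exact Set.mem_biUnion h ⟨q, by simpa using hp⟩

omit [MeasurableSpace V] [Countable V] [MeasurableSingletonClass V] [DecidableEq V] in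
lemma finite_pow (G : SimpleGraph V) (hfin : ∀ v, (G.neighborSet v).Finite) (k : ℕ) (x : V) :
    ((graphPow G k).neighborSet x).Finite := by
  refine (finite_ball G hfin k x).subset fun y hy => ?_
  have h : G.edist x y ≤ k := by
    rcases ((SimpleGraph.fromRel_adj (fun x y => G.edist x y ≤ k) x y).1 hy).2 with h | h
    · exact h
    · rwa [SimpleGraph.edist_comm]
  obtain ⟨p, hp⟩ := SimpleGraph.exists_walk_of_edist_ne_top
    (ne_top_of_le_ne_top (ENat.natCast_ne_top k) h)
  exact ⟨p, by rw [← hp] at h; exact_mod_cast h⟩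

end Pool.Agent.H45.Chain
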