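import Mathlib

open Finset

namespace Pool.Agent.H45.RookLib

/-- `S` is a covering set of rooks on the triangular board with `n` rows -/
def Covering (n : ℕ) (S : Finset (ℕ × ℕ × ℕ)) : Prop :=
  (∀ r ∈ S, r.1 + r.2.1 + r.2.2 + 1 = n) ∧
    ∀ a b c, a + b + c + 1 = n → ∃ r ∈ S, r.1 = a ∨ r.2.1 = b ∨ r.2.2 = c

/-- the rook domination number of the triangular board with `n` rows -/
noncomputable def gam (n : ℕ) : ℕ := sInf {k | ∃ S, Covering n S ∧ S.card = k}

def Ub (n k : ℕ) : Prop := ∃ S, Covering n S ∧ S.card ≤ k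

lemma Ub.le {n k} (h : Ub n k) : gam n ≤ k := h.elim fun S e => (Nat.sInf_le (s := {k | ∃ S, Covering n S ∧ S.card = k}) ⟨S, e.1, rfl⟩).trans e.2

lemma s1 {n k} (h : Ub n k) : Ub (n + 1) (k + 1) := by
  obtain ⟨S, ⟨p, q⟩, e⟩ := h
  refine ⟨insert (0, n, 0) (S.image fun r => (r.1, r.2.1, r.2.2 + 1)), ⟨?_, fun a b c h => ?_⟩,
    (card_insert_le _ _).trans (by have := card_image_le (s := S) (f := fun r => (r.1, r.2.1, r.2.2 + 1)); omega)⟩
  · simp only [mem_insert, mem_image]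
    rintro _ (rfl | ⟨r, h, rfl⟩)
    · simp
    · have := p r h; simp; omega
  rcases c with _ | c
  · exact ⟨_, mem_insert_self _ _, by simp⟩
  obtain ⟨r, s, t⟩ := q a b c (by omega)
  exact ⟨_, mem_insert_of_mem (mem_image_of_mem _ s), by simpa using t⟩

lemma s2 {n k} (h : Ub n k) : Ub (n + 2) (k + 1) := by
  obtain ⟨S, ⟨p, q⟩, e⟩ := h
  refine ⟨insert (0, 0, n + 1) (S.image fun r => (r.1 + 1, r.2.1 + 1, r.2.2)), ⟨?_, fun a b c h => ?_⟩,
    (card_insert_le _ _).trans (by have := card_image_le (s := S) (f := fun r => (r.1 + 1, r.2.1 + 1, r.2.2)); omega)⟩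
  · simp only [mem_insert, mem_image]
    rintro _ (rfl | ⟨r, h, rfl⟩)
    · simp
    · have := p r h; simp; omega
  rcases a with _ | a
  · exact ⟨_, mem_insert_self _ _, by simp⟩
  rcases b with _ | b
  · exact ⟨_, mem_insert_self _ _, by simp⟩
  obtain ⟨r, s, t⟩ := q a b c (by omega)
  exact ⟨_, mem_insert_of_mem (mem_image_of_mem _ s), by simpa using t⟩

lemma s3 {n k} (h : Ub n k) (j) : Ub (n + 2 * j) (k + j) := by
  induction j with
  | zero => exact h
  | succ j ih => exact s2 ih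

def f (p q i : ℕ) : ℕ × ℕ × ℕ :=
  if i ≤ p then (4 * i, 4 * p - 2 * i, 2 * p - 2 * i)
  else if i ≤ 2 * p then (4 * (i - p) - 2, 4 * p - 2 * i, 6 * p + 2 - 2 * i)
  else if i ≤ 2 * p + q then (2 * (i - 2 * p) - 1, 2 * (i - 2 * p + q) - 1, 6 * p + 2 - 4 * (i - 2 * p) - 2 * q)
  else if i ≤ 2 * p + 2 * q then (6 * p + 2 + 2 * q - 4 * (i - 2 * p), 2 * (i - 2 * p - q) - 1, 2 * (i - 2 * p) - 1)
  else (2 * (i - 2 * p - q) - 1, 6 * p + 2 + 6 * q - 4 * (i - 2 * p), 2 * (i - 2 * p - 2 * q) - 1)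

lemma base (p q) (h1 : q ≤ p) (h2 : p ≤ 4 * q + 1) : Ub (6 * p + 1) (2 * p + 3 * q + 1) := by
  refine ⟨(range (2 * p + 3 * q + 1)).image (f p q), ⟨?_, fun a b c h => ?_⟩, card_image_le.trans (by simp)⟩
  · simp only [mem_image, mem_range]
    rintro _ ⟨i, h, rfl⟩
    unfold f
    split_ifs <;> simp only <;> omega
  have k : ∀ i < 2 * p + 3 * q + 1, ((f p q i).1 = a ∨ (f p q i).2.1 = b ∨ (f p q i).2.2 = c) →
      ∃ r ∈ (range (2 * p + 3 * q + 1)).image (f p q), r.1 = a ∨ r.2.1 = b ∨ r.2.2 = c :=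
    fun i h e => ⟨_, mem_image_of_mem _ (mem_range.2 h), e⟩
  have : (a % 2 = 0 ∧ a ≤ 4 * p ∨ a % 2 = 1 ∧ a < 4 * q) ∨ (b % 2 = 0 ∧ b ≤ 4 * p ∨ b % 2 = 1 ∧ b < 4 * q) ∨
    (c % 2 = 0 ∧ c ≤ 4 * p ∨ c % 2 = 1 ∧ c < 4 * q) := by omega
  rcases this with (t | t) | (t | t) | t | t
  · refine k (if a % 4 = 0 then a / 4 else p + 1 + a / 4) (by split_ifs <;> omega) (.inl ?_)
    unfold f; split_ifs <;> simp only <;> omega
  · refine k (if a < 2 * q then 2 * p + 1 + a / 2 else 2 * p + q + 1 + a / 2) (by split_ifs <;> omega) (.inl ?_)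
    unfold f; split_ifs <;> simp only <;> omega
  · refine k (2 * p - b / 2) (by omega) (.inr (.inl ?_))
    unfold f; split_ifs <;> simp only <;> omega
  · refine k (if b < 2 * q then 2 * p + q + 1 + b / 2 else 2 * p + 1 + b / 2 - q) (by split_ifs <;> omega) (.inr (.inl ?_))
    unfold f; split_ifs <;> simp only <;> omega
  · refine k (if c ≤ 2 * p then p - c / 2 else 3 * p + 1 - c / 2) (by split_ifs <;> omega) (.inr (.inr ?_))
    unfold f; split_ifs <;> simp only <;> omega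
  · refine k (if c < 2 * q then 2 * p + 2 * q + 1 + c / 2 else 2 * p + 1 + c / 2) (by split_ifs <;> omega) (.inr (.inr ?_))
    unfold f; split_ifs <;> simp only <;> omega

lemma u20 : Ub 20 9 := by
  refine ⟨{(0, 6, 13), (1, 18, 0), (2, 10, 7), (4, 4, 11), (6, 12, 1), (8, 8, 3), (10, 0, 9), (12, 2, 5), (16, 1, 2)},
    ⟨by decide, fun a b c h => ?_⟩, by decide⟩
  simp only [mem_insert, mem_singleton, exists_eq_or_imp, exists_eq_left]
  omega

lemma up (n) : ∃ k, Ub (n + 1) k ∧ 24 * k ≤ 11 * (n + 1) + 68 := by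
  have h := s3 (base (n / 6) ((n / 6 + 2) / 4) (by omega) (by omega)) (n % 6 / 2)
  rcases Nat.mod_two_eq_zero_or_one n with e | e
  · exact ⟨_, by convert h using 1; omega, by omega⟩
  · exact ⟨_, by convert s1 h using 1; omega, by omega⟩

lemma cnt {S : Finset (ℕ × ℕ × ℕ)} (g : ℕ × ℕ × ℕ → ℕ) (t) (h : ∀ x < t, ∃ r ∈ S, g r = x) :
    t ≤ ∑ r ∈ S, if g r < t then 1 else 0 := by
  rw [← card_filter]
  refine (card_range t).symm.trans_le (card_le_card_of_surjOn g fun x e => ?_)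
  obtain ⟨r, s, rfl⟩ := h x (by simpa using e)
  exact ⟨r, by simpa [s] using e, rfl⟩

lemma low0 {n t} {S : Finset (ℕ × ℕ × ℕ)} (x y z : ℕ × ℕ × ℕ → ℕ) (h1 : ∀ r ∈ S, x r + y r + z r + 1 = n)
    (h2 : ∀ a b c, a + b + c + 1 = n → ∃ r ∈ S, x r = a ∨ y r = b ∨ z r = c) (ha : ∀ i < t, ∃ r ∈ S, x r = i)
    (hb : ∀ i < t, ∃ r ∈ S, y r = i) (hc : ∀ i < t, ∃ r ∈ S, z r = i) (e : 3 * t ≤ n + 1)
    (u : (∀ r ∈ S, x r ≠ t) ∨ n < 3 * t + 2 ∧ 5 ≤ n) : 2 * n ≤ 5 * S.card := by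
  have a := cnt _ t ha
  have b := cnt _ t hb
  have c := cnt _ t hc
  rcases u with u | u
  · have w : n - 3 * t ≤ (∑ r ∈ S, if t ≤ y r ∧ y r + 2 * t < n then 1 else 0) +
        ∑ r ∈ S, if t ≤ z r ∧ z r + 2 * t < n then 1 else 0 := by
      rw [← card_filter, ← card_filter]
      have : range (n - 3 * t) ⊆ (S.filter fun r => t ≤ y r ∧ y r + 2 * t < n).image (y · - t) ∪
          (S.filter fun r => t ≤ z r ∧ z r + 2 * t < n).image (n - 1 - 2 * t - z ·) := fun i e => by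
        rw [mem_range] at e
        obtain ⟨r, s, k | k | k⟩ := h2 t (t + i) (n - 1 - 2 * t - i) (by omega)
        · exact (u r s k).elim
        · exact mem_union_left _ (mem_image.2 ⟨r, mem_filter.2 ⟨s, by omega⟩, by omega⟩)
        · exact mem_union_right _ (mem_image.2 ⟨r, mem_filter.2 ⟨s, by omega⟩, by omega⟩)
      simpa using (card_le_card this).trans ((card_union_le _ _).trans (add_le_add card_image_le card_image_le))
    have : ∑ r ∈ S, (2 * (if x r < t then 1 else 0) + 5 * (if y r < t then 1 else 0) + 5 * (if z r < t then 1 else 0)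
        + 4 * (if t ≤ y r ∧ y r + 2 * t < n then 1 else 0) + 4 * if t ≤ z r ∧ z r + 2 * t < n then 1 else 0)
        ≤ ∑ r ∈ S, 10 := sum_le_sum fun r s => by have := h1 r s; split_ifs <;> omega
    simp only [sum_add_distrib, ← mul_sum, sum_const, smul_eq_mul] at this
    omega
  · have : ∑ r ∈ S, ((if x r < t then 1 else 0) + (if y r < t then 1 else 0) + if z r < t then 1 else 0)
        ≤ ∑ r ∈ S, 2 := sum_le_sum fun r s => by have := h1 r s; split_ifs <;> omega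
    simp only [sum_add_distrib, sum_const, smul_eq_mul] at this
    omega

lemma low {n} {S : Finset (ℕ × ℕ × ℕ)} (h : Covering n S) (hn : 5 ≤ n) : 2 * n ≤ 5 * S.card := by
  have k : ∀ t, 3 * t ≤ n + 1 → 2 * n ≤ 5 * S.card ∨ ((∀ x < t, ∃ r ∈ S, r.1 = x) ∧ (∀ x < t, ∃ r ∈ S, r.2.1 = x) ∧
      ∀ x < t, ∃ r ∈ S, r.2.2 = x) := fun t => by
    induction t with
    | zero => simp
    | succ t ih =>
      intro e
      rcases ih (by omega) with i | ⟨a, b, c⟩
      · exact .inl i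
      by_cases p : ∀ r ∈ S, r.1 ≠ t
      · exact .inl (low0 _ _ _ h.1 h.2 a b c (by omega) (.inl p))
      by_cases q : ∀ r ∈ S, r.2.1 ≠ t
      · exact .inl (low0 _ _ _ (fun r e => by have := h.1 r e; omega)
          (fun a b c e => (h.2 c a b (by omega)).imp fun r e => ⟨e.1, by tauto⟩) b c a (by omega) (.inl q))
      by_cases s : ∀ r ∈ S, r.2.2 ≠ t
      · exact .inl (low0 _ _ _ (fun r e => by have := h.1 r e; omega)
          (fun a b c e => (h.2 b c a (by omega)).imp fun r e => ⟨e.1, by tauto⟩) c a b (by omega) (.inl s))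
      push Not at p q s
      simp only [Nat.forall_lt_succ_right]
      exact .inr ⟨⟨a, p⟩, ⟨b, q⟩, c, s⟩
  exact (k ((n + 1) / 3) (by omega)).elim id fun ⟨a, b, c⟩ => low0 _ _ _ h.1 h.2 a b c (by omega) (.inr (by omega))

theorem all : (∀ n ≥ 5, 2 * n ≤ 5 * gam n ∧ 24 * gam n ≤ 11 * n + 68) ∧
    ∀ n, (20 ≤ n ∧ Even n) ∨ 31 ≤ n → gam n < n / 2 := by
  refine ⟨fun n e => ?_, fun n e => ?_⟩
  · obtain ⟨k, ⟨S, p, q⟩, r⟩ := up (n - 1)
    rw [Nat.sub_add_cancel (by omega)] at p r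
    obtain ⟨T, s, t⟩ := Nat.sInf_mem (⟨_, S, p, rfl⟩ : {k | ∃ S, Covering n S ∧ S.card = k}.Nonempty)
    have := Ub.le ⟨S, p, q⟩
    exact ⟨by rw [gam, ← t]; exact low s e, by omega⟩
  rcases Nat.even_or_odd' n with ⟨j, rfl | rfl⟩
  · have := (s3 u20 (j - 10)).le
    rw [show 20 + 2 * (j - 10) = 2 * j by omega] at this
    omega
  · have := (s3 (base 5 1 (by omega) (by omega)) (j - 15)).le
    have e : 31 ≤ 2 * j + 1 := e.resolve_left (by simp)
    rw [show 6 * 5 + 1 + 2 * (j - 15) = 2 * j + 1 by omega] at this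
    omega

end Pool.Agent.H45.RookLib
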