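import Mathlib

set_option autoImplicit false

namespace Pool.Agent.H45.Rotor

open Finset

def dir : Fin 5 → ℤ × ℤ := ![(0, 1), (0, 1), (1, 0), (0, -1), (-1, 0)]

def step (s : (ℤ × ℤ) × (ℤ × ℤ → Fin 5)) : (ℤ × ℤ) × (ℤ × ℤ → Fin 5) :=
  (s.1 + dir (s.2 s.1 + 1), Function.update s.2 s.1 (s.2 s.1 + 1))

/-- rotor position after `j` turns -/
def adv (r : Fin 5) : ℕ → Fin 5
  | 0 => r
  | j + 1 => adv r j + 1

/-- number of exits in direction `d` among the first `j` exits -/
def cnt (r : Fin 5) (d : ℤ × ℤ) : ℕ → ℕ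
  | 0 => 0
  | j + 1 => cnt r d j + if dir (adv r j + 1) = d then 1 else 0

lemma cnt_mono (r : Fin 5) (d : ℤ × ℤ) : Monotone (cnt r d) :=
  monotone_nat_of_le_succ fun j => by simp [cnt]

lemma adv_add (r : Fin 5) (j k : ℕ) : adv r (j + k) = adv (adv r j) k := by
  induction k with
  | zero => rfl
  | succ k ih => rw [← add_assoc, adv, ih, adv]

lemma cnt_add (r : Fin 5) (d : ℤ × ℤ) (j k : ℕ) :
    cnt r d (j + k) = cnt r d j + cnt (adv r j) d k := by
  induction k with
  | zero => rfl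
  | succ k ih => rw [← add_assoc, cnt, ih, cnt, adv_add, add_assoc]

lemma cnt5 (r : Fin 5) : cnt r (0, 1) 5 = 2 ∧ cnt r (1, 0) 5 = 1 ∧ cnt r (0, -1) 5 = 1 ∧
    cnt r (-1, 0) 5 = 1 := by
  revert r; decide

/-- number of arrivals at `x` produced by the exit counts `u` -/
def inflow (r : ℤ × ℤ → Fin 5) (u : ℤ × ℤ → ℕ) (x : ℤ × ℤ) : ℕ :=
  cnt (r (x - (0, 1))) (0, 1) (u (x - (0, 1))) + cnt (r (x - (1, 0))) (1, 0) (u (x - (1, 0))) +
  cnt (r (x - (0, -1))) (0, -1) (u (x - (0, -1))) + cnt (r (x - (-1, 0))) (-1, 0) (u (x - (-1, 0)))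

lemma inflow_mono (r : ℤ × ℤ → Fin 5) {u v : ℤ × ℤ → ℕ} (h : ∀ x, u x ≤ v x) (x : ℤ × ℤ) :
    inflow r u x ≤ inflow r v x := by
  unfold inflow
  gcongr <;> exact cnt_mono _ _ (h _)

def pos (r : ℤ × ℤ → Fin 5) (n : ℕ) : ℤ × ℤ := (step^[n] ((0, 0), r)).1

def exits (r : ℤ × ℤ → Fin 5) (n : ℕ) (x : ℤ × ℤ) : ℕ :=
  ((range n).filter fun m => pos r m = x).card

lemma exits_succ (r : ℤ × ℤ → Fin 5) (n : ℕ) (x : ℤ × ℤ) :
    exits r (n + 1) x = exits r n x + if pos r n = x then 1 else 0 := by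
  simp only [exits, card_filter, sum_range_succ]

lemma rot_eq (r : ℤ × ℤ → Fin 5) (n : ℕ) (x : ℤ × ℤ) :
    (step^[n] ((0, 0), r)).2 x = adv (r x) (exits r n x) := by
  induction n generalizing x with
  | zero => simp [exits, adv]
  | succ n ih =>
    rw [Function.iterate_succ_apply', exits_succ, step]
    by_cases h : pos r n = x
    · subst h
      simp only [if_true, adv, ← ih]
      exact Function.update_self ..
    · simp only [h, if_false, add_zero, ← ih]
      exact Function.update_of_ne (Ne.symm h) ..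

lemma pos_succ (r : ℤ × ℤ → Fin 5) (n : ℕ) :
    pos r (n + 1) = pos r n + dir (adv (r (pos r n)) (exits r n (pos r n)) + 1) := by
  rw [← rot_eq]
  simp only [pos]
  rw [Function.iterate_succ_apply', step]

lemma cnt_step (r : ℤ × ℤ → Fin 5) (n : ℕ) (x d : ℤ × ℤ) :
    cnt (r (x - d)) d (exits r (n + 1) (x - d)) = cnt (r (x - d)) d (exits r n (x - d)) +
      if pos r (n + 1) = x ∧ dir (adv (r (pos r n)) (exits r n (pos r n)) + 1) = d
        then 1 else 0 := by
  rw [exits_succ]
  by_cases h : pos r n = x - d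
  · rw [if_pos h, cnt, ← h]
    congr 1
    refine if_congr ⟨fun e => ⟨?_, e⟩, fun e => e.2⟩ rfl rfl
    rw [pos_succ, e, h]; abel
  · rw [if_neg h, add_zero, if_neg, add_zero]
    rintro ⟨h1, h2⟩
    apply h
    rw [← h1, pos_succ, h2]; abel

lemma invariant (r : ℤ × ℤ → Fin 5) (n : ℕ) (x : ℤ × ℤ) :
    exits r n x + (if pos r n = x then 1 else 0) =
      (if x = (0, 0) then 1 else 0) + inflow r (exits r n) x := by
  induction n with
  | zero => simp [exits, inflow, cnt, pos, eq_comm]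
  | succ n ih =>
    rw [exits_succ, ih]
    simp only [inflow, cnt_step]
    have : ∀ i : Fin 5, dir i = (0, 1) ∨ dir i = (1, 0) ∨ dir i = (0, -1) ∨ dir i = (-1, 0) := by
      decide
    by_cases h : pos r (n + 1) = x
    · rcases this (adv (r (pos r n)) (exits r n (pos r n)) + 1) with e | e | e | e <;>
        simp [h, e] <;> omega
    · simp [h]

lemma least_action (r : ℤ × ℤ → Fin 5) (u : ℤ × ℤ → ℕ) (S : Finset (ℤ × ℤ))
    (hS : ∀ x, x ∉ S → u x = 0) (hu : ∀ x, inflow r u x = u x) :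
    ∃ n, u (0, 0) ≤ exits r n (0, 0) := by
  by_contra hcon
  push Not at hcon
  have h1 : ∀ n x, exits r n x ≤ u x := by
    intro n
    induction n with
    | zero => intro x; simp [exits]
    | succ n ih =>
      intro x
      rw [exits_succ]
      split_ifs with h
      · have i1 := invariant r n x
        have i2 := inflow_mono r ih x
        rw [hu] at i2
        rw [if_pos h] at i1
        split_ifs at i1 with h0
        · subst h0; exact hcon n
        · omega
      · exact ih x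
  have h2 : ∀ n, ∑ x ∈ S, exits r n x = n := by
    intro n
    induction n with
    | zero => simp [exits]
    | succ n ih =>
      have : pos r n ∈ S := by
        by_contra hn
        have := h1 (n + 1) (pos r n)
        rw [hS _ hn, exits_succ] at this
        simp at this
      simp [exits_succ, sum_add_distrib, ih, this]
  have h3 := h2 (∑ x ∈ S, u x + 1)
  have h4 : ∑ x ∈ S, exits r (∑ x ∈ S, u x + 1) x ≤ ∑ x ∈ S, u x := sum_le_sum fun x _ => h1 _ x
  omega

end Pool.Agent.H45.Rotor
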