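import Pool.Agent.H45.Rotor

set_option autoImplicit false
set_option maxHeartbeats 400000

namespace Pool.Agent.H45.Rotor

open Finset

/-- distance to the axis of symmetry -/
def ab (a : ℤ) : ℤ := if 1 ≤ a then a else 1 - a

def PN (R A b : ℤ) : Prop := (1 ≤ b ∧ A + b = R + 2) ∨ (b = A - R - 2 ∧ A ≤ R + 1)
def PO (R A b : ℤ) : Prop := 2 ≤ b ∧ b ≤ R + 2 ∧ R + 3 - b ≤ A ∧ A < R + b
def PS (R A b : ℤ) : Prop := R + 2 ≤ A ∧ A ≤ 2 * R + 2 ∧ R + 1 - A < b ∧ b ≤ A - R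
def PI (R A b : ℤ) : Prop := -R - 1 ≤ b ∧ b ≤ -1 ∧ b + R + 2 < A ∧ A ≤ R + 1 - b
def D (R a b : ℤ) : Prop := ab a + ab b ≤ R + 2
def PE (R a b : ℤ) : Prop := (1 ≤ a ∧ PO R a b) ∨ (a ≤ 0 ∧ PI R (1 - a) b)
def PW (R a b : ℤ) : Prop := (1 ≤ a ∧ PI R a b) ∨ (a ≤ 0 ∧ PO R (1 - a) b)

open Classical in
noncomputable def ind (p : Prop) : ℕ := if p then 1 else 0

lemma ind_pos {p : Prop} (h : p) : ind p = 1 := if_pos h
lemma ind_neg {p : Prop} (h : ¬ p) : ind p = 0 := if_neg h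
@[simp] lemma ind_true : ind True = 1 := ind_pos trivial
@[simp] lemma ind_false : ind False = 0 := ind_neg id

lemma ind_or {p q : Prop} (h : ¬ (p ∧ q)) : ind p + ind q = ind (p ∨ q) := by
  by_cases hp : p <;> by_cases hq : q <;> simp_all

noncomputable def oN (R a b : ℤ) : ℕ := 2 * ind (D R a b ∧ D R a (b + 1)) + ind (PN R (ab a) b)
noncomputable def oS (R a b : ℤ) : ℕ := ind (D R a b ∧ D R a (b - 1)) + ind (PS R (ab a) b)
noncomputable def oE (R a b : ℤ) : ℕ := ind (D R a b ∧ D R (a + 1) b) + ind (PE R a b)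
noncomputable def oW (R a b : ℤ) : ℕ := ind (D R a b ∧ D R (a - 1) b) + ind (PW R a b)

lemma ab_spec (a : ℤ) : (1 ≤ a ∧ ab a = a) ∨ (a ≤ 0 ∧ ab a = 1 - a) := by
  unfold ab; split_ifs <;> omega

lemma edge_balance (R A b : ℤ) :
    ind (A + ab b ≤ R + 2 ∧ A + ab (b - 1) ≤ R + 2) + ind (b ≤ 0 ∧ A - b = R + 1) =
    ind (A + ab b ≤ R + 2 ∧ A + ab (b + 1) ≤ R + 2) + ind (1 ≤ b ∧ A + b = R + 2) := by
  have h1 := ab_spec b
  have h2 := ab_spec (b - 1)
  have h3 := ab_spec (b + 1)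
  rw [ind_or (by omega), ind_or (by omega)]
  congr 1
  exact propext ⟨fun h => by omega, fun h => by omega⟩

lemma path_balance (R A b : ℤ) (hA : 1 ≤ A) :
    ind (PN R A (b - 1)) + ind (PS R A (b + 1)) + ind (2 ≤ A ∧ PO R (A - 1) b) +
      ind (PI R (A + 1) b) + ind (1 ≤ b ∧ A + b = R + 2) =
    ind (PN R A b) + ind (PS R A b) + ind (PO R A b) + ind (PI R A b) +
      ind (b ≤ 0 ∧ A - b = R + 1) := by
  simp only [PN, PS, PO, PI]
  rw [ind_or (by omega), ind_or (by omega), ind_or (by omega), ind_or (by omega),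
    ind_or (by omega), ind_or (by omega), ind_or (by omega), ind_or (by omega)]
  congr 1
  refine propext ⟨fun h => ?_, fun h => ?_⟩
  · rcases h with ((((h | h) | h) | h) | h) | h <;> omega
  · rcases h with ((((h | h) | h) | h) | h) | h <;> omega

lemma balance (R a b : ℤ) :
    oN R a (b - 1) + oE R (a - 1) b + oS R a (b + 1) + oW R (a + 1) b =
      oN R a b + oE R a b + oS R a b + oW R a b := by
  have key := path_balance R (ab a) b (by have := ab_spec a; omega)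
  have key2 : ind (D R a b ∧ D R a (b - 1)) + _ = ind (D R a b ∧ D R a (b + 1)) + _ :=
    edge_balance R (ab a) b
  simp only [oN, oE, oS, oW, sub_add_cancel, add_sub_cancel_right]
  rw [@and_comm (D R (a - 1) b), @and_comm (D R (a + 1) b), @and_comm (D R a (b - 1)),
    @and_comm (D R a (b + 1))]
  rcases ab_spec a with ⟨h, e⟩ | ⟨h, e⟩
  · have f1 : PE R (a - 1) b ↔ (2 ≤ ab a ∧ PO R (ab a - 1) b) := by
      simp only [PE, PO, PI]; omega
    have f2 : PW R (a + 1) b ↔ PI R (ab a + 1) b := by simp only [PW, PO, PI]; omega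
    have f3 : PE R a b ↔ PO R (ab a) b := by simp only [PE, PO, PI]; omega
    have f4 : PW R a b ↔ PI R (ab a) b := by simp only [PW, PO, PI]; omega
    rw [f1, f2, f3, f4]
    omega
  · have f1 : PE R (a - 1) b ↔ PI R (ab a + 1) b := by simp only [PE, PO, PI]; omega
    have f2 : PW R (a + 1) b ↔ (2 ≤ ab a ∧ PO R (ab a - 1) b) := by
      simp only [PW, PO, PI]; omega
    have f3 : PE R a b ↔ PI R (ab a) b := by simp only [PE, PO, PI]; omega
    have f4 : PW R a b ↔ PO R (ab a) b := by simp only [PW, PO, PI]; omega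
    rw [f1, f2, f3, f4]
    omega

open Classical in
/-- initial rotor and number of exits outside the diamond of radius `R` -/
noncomputable def pat (R a b : ℤ) : Fin 5 × ℕ :=
  if D R a b then
    (if 1 ≤ a then (if 1 ≤ b then (2, 3) else (3, 3)) else (if 1 ≤ b then (0, 3) else (4, 3)))
  else if PN R (ab a) b then (4, 1)
  else if PS R (ab a) b then (2, 1)
  else if PE R a b then (1, 1)
  else if PW R a b then (3, 1)
  else (0, 0)

lemma cnt_vals :
    (cnt 2 (0, 1) 3 = 1 ∧ cnt 2 (1, 0) 3 = 0 ∧ cnt 2 (0, -1) 3 = 1 ∧ cnt 2 (-1, 0) 3 = 1) ∧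
    (cnt 3 (0, 1) 3 = 2 ∧ cnt 3 (1, 0) 3 = 0 ∧ cnt 3 (0, -1) 3 = 0 ∧ cnt 3 (-1, 0) 3 = 1) ∧
    (cnt 0 (0, 1) 3 = 1 ∧ cnt 0 (1, 0) 3 = 1 ∧ cnt 0 (0, -1) 3 = 1 ∧ cnt 0 (-1, 0) 3 = 0) ∧
    (cnt 4 (0, 1) 3 = 2 ∧ cnt 4 (1, 0) 3 = 1 ∧ cnt 4 (0, -1) 3 = 0 ∧ cnt 4 (-1, 0) 3 = 0) ∧
    (cnt 4 (0, 1) 1 = 1 ∧ cnt 4 (1, 0) 1 = 0 ∧ cnt 4 (0, -1) 1 = 0 ∧ cnt 4 (-1, 0) 1 = 0) ∧
    (cnt 2 (0, 1) 1 = 0 ∧ cnt 2 (1, 0) 1 = 0 ∧ cnt 2 (0, -1) 1 = 1 ∧ cnt 2 (-1, 0) 1 = 0) ∧
    (cnt 1 (0, 1) 1 = 0 ∧ cnt 1 (1, 0) 1 = 1 ∧ cnt 1 (0, -1) 1 = 0 ∧ cnt 1 (-1, 0) 1 = 0) ∧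
    (cnt 3 (0, 1) 1 = 0 ∧ cnt 3 (1, 0) 1 = 0 ∧ cnt 3 (0, -1) 1 = 0 ∧ cnt 3 (-1, 0) 1 = 1) ∧
    (cnt 0 (0, 1) 0 = 0 ∧ cnt 0 (1, 0) 0 = 0 ∧ cnt 0 (0, -1) 0 = 0 ∧ cnt 0 (-1, 0) 0 = 0) := by
  decide

lemma pat_spec (R a b : ℤ) (h : R + 1 < ab a + ab b) :
    cnt (pat R a b).1 (0, 1) (pat R a b).2 = oN R a b ∧
    cnt (pat R a b).1 (1, 0) (pat R a b).2 = oE R a b ∧
    cnt (pat R a b).1 (0, -1) (pat R a b).2 = oS R a b ∧
    cnt (pat R a b).1 (-1, 0) (pat R a b).2 = oW R a b ∧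
    (pat R a b).2 = oN R a b + oE R a b + oS R a b + oW R a b := by
  have h1 := ab_spec a
  have h4 := ab_spec b
  by_cases hD : D R a b
  · have g1 : D R a (b + 1) ↔ ¬ 1 ≤ b := by
      have := ab_spec (b + 1); simp only [D] at hD ⊢; omega
    have g2 : D R a (b - 1) ↔ 1 ≤ b := by
      have := ab_spec (b - 1); simp only [D] at hD ⊢; omega
    have g3 : D R (a + 1) b ↔ ¬ 1 ≤ a := by
      have := ab_spec (a + 1); simp only [D] at hD ⊢; omega
    have g4 : D R (a - 1) b ↔ 1 ≤ a := by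
      have := ab_spec (a - 1); simp only [D] at hD ⊢; omega
    have g5 : PN R (ab a) b ↔ 1 ≤ b := by simp only [D, PN] at hD ⊢; omega
    have g6 : ¬ PS R (ab a) b := by simp only [D, PS] at hD ⊢; omega
    have g7 : ¬ PE R a b := by simp only [D, PE, PO, PI] at hD ⊢; omega
    have g8 : ¬ PW R a b := by simp only [D, PW, PO, PI] at hD ⊢; omega
    simp only [pat, oN, oE, oS, oW, hD, g1, g2, g3, g4, g5, g6, g7, g8, if_true, true_and]
    by_cases ha : 1 ≤ a <;> by_cases hb : 1 ≤ b <;> simp [ha, hb, cnt_vals]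
  · have g1 : ¬ (PN R (ab a) b ∧ PS R (ab a) b) := by simp only [PN, PS]; omega
    have g2 : ¬ (PN R (ab a) b ∧ PE R a b) := by simp only [PN, PE, PO, PI]; omega
    have g3 : ¬ (PN R (ab a) b ∧ PW R a b) := by simp only [PN, PW, PO, PI]; omega
    have g4 : ¬ (PS R (ab a) b ∧ PE R a b) := by simp only [PS, PE, PO, PI]; omega
    have g5 : ¬ (PS R (ab a) b ∧ PW R a b) := by simp only [PS, PW, PO, PI]; omega
    have g6 : ¬ (PE R a b ∧ PW R a b) := by simp only [PE, PW, PO, PI]; omega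
    simp only [pat, oN, oE, oS, oW, hD, if_false, false_and]
    by_cases c1 : PN R (ab a) b <;> by_cases c2 : PS R (ab a) b <;> by_cases c3 : PE R a b <;>
      by_cases c4 : PW R a b <;> simp_all [cnt_vals]

lemma in_spec (R a b : ℤ) (h : ab a + ab b ≤ R + 1) :
    oN R a b = 2 ∧ oE R a b = 1 ∧ oS R a b = 1 ∧ oW R a b = 1 := by
  have h1 := ab_spec a
  have h4 := ab_spec b
  have hD : D R a b := by simp only [D]; omega
  have g1 : D R a (b + 1) := by have := ab_spec (b + 1); simp only [D]; omega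
  have g2 : D R a (b - 1) := by have := ab_spec (b - 1); simp only [D]; omega
  have g3 : D R (a + 1) b := by have := ab_spec (a + 1); simp only [D]; omega
  have g4 : D R (a - 1) b := by have := ab_spec (a - 1); simp only [D]; omega
  have g5 : ¬ PN R (ab a) b := by simp only [PN]; omega
  have g6 : ¬ PS R (ab a) b := by simp only [PS]; omega
  have g7 : ¬ PE R a b := by simp only [PE, PO, PI]; omega
  have g8 : ¬ PW R a b := by simp only [PW, PO, PI]; omega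
  simp [oN, oE, oS, oW, hD, g1, g2, g3, g4, g5, g6, g7, g8]

lemma pat_far (R a b : ℤ) (hR : 0 ≤ R) (h : 3 * R + 3 + 1 < ab a + ab b) :
    (pat R a b).2 = 0 := by
  have h1 := ab_spec a
  have h4 := ab_spec b
  have hD : ¬ D R a b := by simp only [D]; omega
  have g5 : ¬ PN R (ab a) b := by simp only [PN]; omega
  have g6 : ¬ PS R (ab a) b := by simp only [PS]; omega
  have g7 : ¬ PE R a b := by simp only [PE, PO, PI]; omega
  have g8 : ¬ PW R a b := by simp only [PW, PO, PI]; omega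
  simp [pat, hD, g5, g6, g7, g8]

def rad : ℕ → ℤ
  | 0 => 0
  | k + 1 => 3 * rad k + 3

lemma rad_ge (k : ℕ) : (k : ℤ) ≤ rad k := by
  induction k with
  | zero => simp [rad]
  | succ k ih => simp only [rad]; push_cast; omega

lemma rad_mono : Monotone rad :=
  monotone_nat_of_le_succ fun k => by have := rad_ge k; simp only [rad]; omega

lemma exists_level (x : ℤ × ℤ) : ∃ k, ab x.1 + ab x.2 ≤ rad (k + 1) + 1 :=
  ⟨(ab x.1 + ab x.2).toNat, by have := rad_ge ((ab x.1 + ab x.2).toNat + 1); omega⟩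

noncomputable def conf (x : ℤ × ℤ) : Fin 5 := (pat (rad (Nat.find (exists_level x))) x.1 x.2).1

lemma conf_eq (x : ℤ × ℤ) (k : ℕ) (h1 : rad k + 1 < ab x.1 + ab x.2)
    (h2 : ab x.1 + ab x.2 ≤ rad (k + 1) + 1) : conf x = (pat (rad k) x.1 x.2).1 := by
  have : Nat.find (exists_level x) = k := by
    rw [Nat.find_eq_iff]
    refine ⟨h2, fun j hj => ?_⟩
    have := rad_mono (show j + 1 ≤ k from hj)
    omega
  rw [conf, this]

noncomputable def odo : ℕ → ℤ × ℤ → ℕ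
  | 0, _ => 0
  | k + 1, x => if ab x.1 + ab x.2 ≤ rad k + 1 then odo k x + 5 else (pat (rad k) x.1 x.2).2

lemma odo_far (k : ℕ) (x : ℤ × ℤ) (h : rad k + 1 < ab x.1 + ab x.2) : odo k x = 0 := by
  cases k with
  | zero => rfl
  | succ k =>
    have := rad_ge k
    simp only [rad] at h
    rw [odo, if_neg (by omega)]
    exact pat_far _ _ _ (by omega) h

lemma odo_step (k : ℕ) (x : ℤ × ℤ) :
    cnt (conf x) (0, 1) (odo (k + 1) x) = cnt (conf x) (0, 1) (odo k x) + oN (rad k) x.1 x.2 ∧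
    cnt (conf x) (1, 0) (odo (k + 1) x) = cnt (conf x) (1, 0) (odo k x) + oE (rad k) x.1 x.2 ∧
    cnt (conf x) (0, -1) (odo (k + 1) x) = cnt (conf x) (0, -1) (odo k x) + oS (rad k) x.1 x.2 ∧
    cnt (conf x) (-1, 0) (odo (k + 1) x) = cnt (conf x) (-1, 0) (odo k x) + oW (rad k) x.1 x.2 ∧
    odo (k + 1) x = odo k x + (oN (rad k) x.1 x.2 + oE (rad k) x.1 x.2 + oS (rad k) x.1 x.2 +
      oW (rad k) x.1 x.2) := by
  rw [odo]
  split_ifs with h
  · simp only [cnt_add, cnt5, in_spec _ _ _ h, and_self]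
  · have hs := pat_spec (rad k) x.1 x.2 (by omega)
    rw [odo_far k x (by omega)]
    simp only [cnt, zero_add]
    by_cases h2 : ab x.1 + ab x.2 ≤ rad (k + 1) + 1
    · rw [conf_eq x k (by omega) h2]
      exact hs
    · have h0 := pat_far (rad k) x.1 x.2 (by have := rad_ge k; omega)
        (by simp only [rad] at h2; omega)
      rw [h0] at hs ⊢
      simpa only [cnt] using hs

lemma odo_balanced (k : ℕ) (x : ℤ × ℤ) : inflow conf (odo k) x = odo k x := by
  induction k with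
  | zero => simp [inflow, odo, cnt]
  | succ k ih =>
    have hb := balance (rad k) x.1 x.2
    unfold inflow at ih ⊢
    rw [(odo_step k _).1, (odo_step k _).2.1, (odo_step k _).2.2.1, (odo_step k _).2.2.2.1,
      (odo_step k _).2.2.2.2]
    simp only [Prod.fst_sub, Prod.snd_sub, sub_zero, sub_neg_eq_add]
    omega

lemma odo_origin (k : ℕ) : k ≤ odo (k + 1) (0, 0) := by
  induction k with
  | zero => simp
  | succ k ih =>
    have := rad_ge (k + 1)
    rw [odo, if_pos (by simp only [ab]; push_cast at this; norm_num; omega)]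
    omega

theorem recurrent : ¬ Set.Finite {n : ℕ | pos conf n = (0, 0)} := by
  intro hfin
  obtain ⟨n, hn⟩ := least_action conf (odo (hfin.toFinset.card + 1 + 1))
    (Icc (-rad (hfin.toFinset.card + 1 + 1) - 1) (rad (hfin.toFinset.card + 1 + 1) + 1) ×ˢ
      Icc (-rad (hfin.toFinset.card + 1 + 1) - 1) (rad (hfin.toFinset.card + 1 + 1) + 1))
    (fun x hx => odo_far _ x (by
      have h1 := ab_spec x.1
      have h2 := ab_spec x.2
      simp only [mem_product, mem_Icc] at hx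
      omega)) (odo_balanced _)
  have h1 := odo_origin (hfin.toFinset.card + 1)
  have h2 : exits conf n (0, 0) ≤ hfin.toFinset.card :=
    card_le_card fun m hm => by simpa using (mem_filter.1 hm).2
  omega

end Pool.Agent.H45.Rotor
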