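import Pool.Agent.H45.SBMDefs

open Filter Topology Finset

namespace Pool.Agent.H45.SBM

variable {k n : ℕ} {M : Matrix (Fin k) (Fin k) ℝ} {π : Fin k → ℝ}

lemma q_nonneg (hM : ∀ i j, 0 ≤ M i j) (i j) : 0 ≤ q M n i j :=
  le_min zero_le_one (div_nonneg (hM i j) (Nat.cast_nonneg _))

lemma q_le_one (i j) : q M n i j ≤ 1 := min_le_left _ _

lemma q_le (i j) : q M n i j ≤ M i j / n := min_le_right _ _

lemma fac_nonneg (hM : ∀ i j, 0 ≤ M i j) (b : Bool) (i j) :
    0 ≤ (if b then q M n i j else 1 - q M n i j) := by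
  split_ifs
  exacts [q_nonneg hM _ _, sub_nonneg.2 (q_le_one _ _)]

lemma lik_nonneg (hM : ∀ i j, 0 ≤ M i j) (σ : Fin n → Fin k) (G) : 0 ≤ lik M σ G :=
  prod_nonneg fun _ _ => fac_nonneg hM _ _ _

lemma sum_lik_mul (σ : Fin n → Fin k) (g : Pair n → Bool → ℝ) :
    ∑ G : Graph n, lik M σ G * ∏ e, g e (G e) =
      ∏ e : Pair n, (q M n (σ e.1.1) (σ e.1.2) * g e true +
        (1 - q M n (σ e.1.1) (σ e.1.2)) * g e false) := by
  have := Finset.prod_univ_sum (fun _ : Pair n => (univ : Finset Bool))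
    (fun e b => (if b then q M n (σ e.1.1) (σ e.1.2) else 1 - q M n (σ e.1.1) (σ e.1.2)) * g e b)
  rw [Fintype.piFinset_univ] at this
  simp only [lik, ← prod_mul_distrib]
  rw [← this]
  simp

lemma sum_lik (σ : Fin n → Fin k) : ∑ G : Graph n, lik M σ G = 1 := by
  simpa using sum_lik_mul (M := M) σ (fun _ _ => 1)

lemma sum_pi_mul (g : Fin k → ℝ) :
    ∑ σ : Fin n → Fin k, (∏ v, π (σ v)) * ∏ v, g (σ v) = (∑ i, π i * g i) ^ n := by
  have := Finset.prod_univ_sum (fun _ : Fin n => (univ : Finset (Fin k))) (fun _ i => π i * g i)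
  rw [Fintype.piFinset_univ] at this
  simp only [← prod_mul_distrib]
  rw [← this]; simp

lemma sum_pi (h1 : ∑ i, π i = 1) : ∑ σ : Fin n → Fin k, (∏ v, π (σ v)) = 1 := by
  simpa [h1] using sum_pi_mul (n := n) (π := π) (fun _ => 1)

lemma prob_le (hπ : ∀ i, 0 ≤ π i) (hM : ∀ i j, 0 ≤ M i j) {E : (Fin n → Fin k) → Graph n → Prop}
    (F : (Fin n → Fin k) → Graph n → ℝ) (hF : ∀ σ G, 0 ≤ F σ G) (hE : ∀ σ G, E σ G → 1 ≤ F σ G) :
    prob π M n E ≤ ∑ σ : Fin n → Fin k, (∏ v, π (σ v)) * ∑ G : Graph n, lik M σ G * F σ G := by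
  refine sum_le_sum fun σ _ => ?_
  rw [mul_sum]
  refine sum_le_sum fun G _ => ?_
  have hw : 0 ≤ (∏ v, π (σ v)) * lik M σ G :=
    mul_nonneg (prod_nonneg fun _ _ => hπ _) (lik_nonneg hM _ _)
  rw [← mul_assoc]
  split_ifs with h
  · exact le_mul_of_one_le_right hw (hE _ _ h)
  · exact mul_nonneg hw (hF _ _)

lemma prob_le' (hπ : ∀ i, 0 ≤ π i) (h1 : ∑ i, π i = 1) (hM : ∀ i j, 0 ≤ M i j)
    {E : (Fin n → Fin k) → Graph n → Prop}
    (F : (Fin n → Fin k) → Graph n → ℝ) (hF : ∀ σ G, 0 ≤ F σ G) (hE : ∀ σ G, E σ G → 1 ≤ F σ G)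
    (C : ℝ) (hC : ∀ σ, ∑ G : Graph n, lik M σ G * F σ G ≤ C) : prob π M n E ≤ C := by
  refine (prob_le hπ hM F hF hE).trans ?_
  calc _ ≤ ∑ σ : Fin n → Fin k, (∏ v, π (σ v)) * C :=
        sum_le_sum fun σ _ => mul_le_mul_of_nonneg_left (hC σ) (prod_nonneg fun _ _ => hπ _)
    _ = C := by rw [← sum_mul, sum_pi h1, one_mul]

lemma prob_nonneg (hπ : ∀ i, 0 ≤ π i) (hM : ∀ i j, 0 ≤ M i j)
    (E : (Fin n → Fin k) → Graph n → Prop) : 0 ≤ prob π M n E :=
  sum_nonneg fun σ _ => sum_nonneg fun G _ => by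
    split_ifs
    exacts [mul_nonneg (prod_nonneg fun _ _ => hπ _) (lik_nonneg hM _ _), le_rfl]

lemma prob_add_compl (h1 : ∑ i, π i = 1) (E : (Fin n → Fin k) → Graph n → Prop) :
    prob π M n E + prob π M n (fun σ G => ¬ E σ G) = 1 := by
  unfold prob
  rw [← sum_add_distrib, ← sum_pi (n := n) h1]
  refine sum_congr rfl fun σ _ => ?_
  rw [← sum_add_distrib]
  calc _ = ∑ G : Graph n, (∏ v, π (σ v)) * lik M σ G :=
        sum_congr rfl fun G _ => by by_cases h : E σ G <;> simp [h]
    _ = _ := by rw [← mul_sum, sum_lik, mul_one]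

lemma prob_le_three (hπ : ∀ i, 0 ≤ π i) (hM : ∀ i j, 0 ≤ M i j)
    {E A B C : (Fin n → Fin k) → Graph n → Prop}
    (h : ∀ σ G, 0 < lik M σ G → E σ G → A σ G ∨ B σ G ∨ C σ G) :
    prob π M n E ≤ prob π M n A + prob π M n B + prob π M n C := by
  unfold prob
  rw [← sum_add_distrib, ← sum_add_distrib]
  refine sum_le_sum fun σ _ => ?_
  rw [← sum_add_distrib, ← sum_add_distrib]
  refine sum_le_sum fun G _ => ?_
  have hw : 0 ≤ (∏ v, π (σ v)) * lik M σ G :=
    mul_nonneg (prod_nonneg fun _ _ => hπ _) (lik_nonneg hM _ _)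
  rcases (lik_nonneg hM σ G).eq_or_lt with h0 | h0
  · simp [← h0]
  · have := h σ G h0
    split_ifs <;> first | linarith | tauto

lemma exp_card {α : Type*} [Fintype α] (P : α → Prop) [DecidablePred P] :
    Real.exp ((univ.filter P).card) = ∏ a, if P a then Real.exp 1 else 1 := by
  rw [prod_ite, prod_const, prod_const_one, mul_one, ← Real.exp_nat_mul, mul_one]

lemma e_le : Real.exp 1 ≤ 3 := Real.exp_one_lt_d9.le.trans (by norm_num)

lemma label_le (hπ : ∀ i, 0 ≤ π i) (h1 : ∑ i, π i = 1) (hM : ∀ i j, 0 ≤ M i j)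
    (P : Fin k → Prop) [DecidablePred P] (c : ℝ) :
    prob π M n (fun σ _ => c ≤ (univ.filter fun v => P (σ v)).card) ≤
      Real.exp (2 * (∑ i, if P i then π i else 0) * n - c) := by
  refine (prob_le hπ hM (fun σ _ => Real.exp ((univ.filter fun v => P (σ v)).card - c))
    (fun _ _ => (Real.exp_pos _).le) (fun σ G h => Real.one_le_exp (by linarith))).trans ?_
  simp only [← sum_mul, sum_lik, one_mul, Real.exp_sub, exp_card, ← mul_div_assoc, ← sum_div]
  rw [sum_pi_mul (fun i => if P i then Real.exp 1 else 1)]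
  gcongr
  rw [mul_comm _ (n : ℝ), Real.exp_nat_mul]
  refine pow_le_pow_left₀ (sum_nonneg fun i _ => mul_nonneg (hπ i) (by split_ifs <;> positivity))
    ?_ _
  refine le_trans ?_ (Real.add_one_le_exp _)
  refine le_trans ?_ (add_le_add_right h1.le _)
  rw [mul_sum, ← sum_add_distrib]
  refine sum_le_sum fun i _ => ?_
  have := hπ i
  have := e_le
  split_ifs <;> nlinarith

lemma card_pair_le : (Fintype.card (Pair n) : ℝ) ≤ (n : ℝ) ^ 2 / 2 := by
  have : Fintype.card (Pair n) = n.choose 2 := by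
    rw [Fintype.card_subtype]
    simpa using Fintype.card_product_filter_lt (α := Fin n)
  rw [this, Nat.cast_choose_two]
  have : (0 : ℝ) ≤ n := Nat.cast_nonneg _
  nlinarith

/-- Edges inside the class `i`. -/
def inner (i : Fin k) (σ : Fin n → Fin k) (G : Graph n) : Finset (Pair n) :=
  univ.filter fun e => G e = true ∧ σ e.1.1 = i ∧ σ e.1.2 = i

lemma inner_le (hπ : ∀ i, 0 ≤ π i) (h1 : ∑ i, π i = 1) (hM : ∀ i j, 0 ≤ M i j) (i : Fin k)
    (c : ℝ) : prob π M n (fun σ G => c ≤ (inner i σ G).card) ≤ Real.exp (M i i * n - c) := by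
  refine prob_le' hπ h1 hM (fun σ G => Real.exp ((inner i σ G).card - c))
    (fun _ _ => (Real.exp_pos _).le) (fun σ G h => Real.one_le_exp (by linarith)) _ fun σ => ?_
  simp only [Real.exp_sub, inner, exp_card, ← mul_div_assoc, ← sum_div]
  rw [sum_lik_mul σ (fun e b => if b = true ∧ σ e.1.1 = i ∧ σ e.1.2 = i then Real.exp 1 else 1)]
  gcongr
  calc _ ≤ ∏ _e : Pair n, Real.exp (2 * (M i i / n)) := by
        refine prod_le_prod (fun e _ => ?_) fun e _ => ?_
        · have := q_nonneg (n := n) hM (σ e.1.1) (σ e.1.2)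
          have := q_le_one (n := n) (M := M) (σ e.1.1) (σ e.1.2)
          refine add_nonneg (mul_nonneg ‹_› ?_) (mul_nonneg (by linarith) ?_) <;>
            split_ifs <;> positivity
        · refine le_trans ?_ (Real.add_one_le_exp _)
          have h0 : 0 ≤ M i i / n := div_nonneg (hM i i) (Nat.cast_nonneg _)
          by_cases h : σ e.1.1 = i ∧ σ e.1.2 = i
          · have h2 := q_le (n := n) (M := M) i i
            have h3 := q_nonneg (n := n) hM i i
            have := e_le
            simp only [h.1, h.2, and_self, if_true, Bool.false_eq_true, false_and, if_false]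
            nlinarith
          · simp only [h, and_false, if_false]; linarith
    _ ≤ _ := by
        rw [prod_const, ← Real.exp_nat_mul, Real.exp_le_exp, card_univ]
        rcases Nat.eq_zero_or_pos n with rfl | hn
        · simp
        · have : (0 : ℝ) < n := by exact_mod_cast hn
          calc _ ≤ (n : ℝ) ^ 2 / 2 * (2 * (M i i / n)) :=
                mul_le_mul_of_nonneg_right card_pair_le (by have := hM i i; positivity)
            _ = _ := by field_simp

/-- `v` is isolated. -/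
def iso (G : Graph n) (v : Fin n) : Prop := ∀ e : Pair n, e.1.1 = v ∨ e.1.2 = v → G e = false

instance (G : Graph n) : DecidablePred (iso G) := fun v => by unfold iso; infer_instance

lemma iso_le (hπ : ∀ i, 0 ≤ π i) (h1 : ∑ i, π i = 1) (hM : ∀ i j, 0 ≤ M i j) (i : Fin k)
    (m : ℕ) : prob π M n (fun σ G => m ≤ (univ.filter fun v => σ v = i ∧ iso G v).card) ≤
      2 ^ n * (1 - q M n i i) ^ m.choose 2 := by
  have hq0 := q_nonneg (n := n) hM i i
  have hq1 := q_le_one (n := n) (M := M) i i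
  refine prob_le' hπ h1 hM (fun σ G => ∑ S ∈ (univ : Finset (Finset (Fin n))).filter
      (fun S => m ≤ S.card ∧ ∀ v ∈ S, σ v = i),
      ∏ e : Pair n, if (e.1.1 ∈ S ∧ e.1.2 ∈ S) ∧ G e = true then 0 else 1)
    (fun _ _ => sum_nonneg fun _ _ => prod_nonneg fun _ _ => by split_ifs <;> norm_num)
    (fun σ G h => ?_) _ fun σ => ?_
  · refine le_trans ?_ (single_le_sum (a := univ.filter fun v => σ v = i ∧ iso G v)
      (fun _ _ => prod_nonneg fun _ _ => by split_ifs <;> norm_num) ?_)
    · refine (prod_eq_one fun e _ => if_neg ?_).ge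
      rintro ⟨⟨h2, -⟩, h3⟩
      simp [(mem_filter.1 h2).2.2 e (Or.inl rfl)] at h3
    · exact mem_filter.2 ⟨mem_univ _, h, fun v hv => (mem_filter.1 hv).2.1⟩
  · simp only [mul_sum]
    rw [sum_comm]
    refine (sum_le_card_nsmul _ _ ((1 - q M n i i) ^ m.choose 2) fun S hS => ?_).trans ?_
    · obtain ⟨-, hm, hS⟩ := mem_filter.1 hS
      rw [sum_lik_mul σ (fun e b => if (e.1.1 ∈ S ∧ e.1.2 ∈ S) ∧ b = true then 0 else 1)]
      have : ∀ e : Pair n, q M n (σ e.1.1) (σ e.1.2) *
          (if (e.1.1 ∈ S ∧ e.1.2 ∈ S) ∧ true = true then (0 : ℝ) else 1) +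
          (1 - q M n (σ e.1.1) (σ e.1.2)) *
          (if (e.1.1 ∈ S ∧ e.1.2 ∈ S) ∧ false = true then (0 : ℝ) else 1) =
          if e.1.1 ∈ S ∧ e.1.2 ∈ S then 1 - q M n i i else 1 := by
        intro e
        by_cases h : e.1.1 ∈ S ∧ e.1.2 ∈ S
        · simp [h.1, h.2, hS _ h.1, hS _ h.2]
        · simp [h]
      rw [prod_congr rfl fun e _ => this e, prod_ite, prod_const, prod_const_one, mul_one]
      refine pow_le_pow_of_le_one (by linarith) (by linarith) ?_
      refine (Nat.choose_le_choose 2 hm).trans (le_of_eq ?_)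
      rw [← Finset.card_product_filter_lt]
      refine card_bij (fun e he => ⟨e, (mem_filter.1 he).2⟩) ?_ ?_ ?_
      · intro e he; simpa using (mem_filter.1 he).1
      · intro a _ b _ h; exact congrArg Subtype.val h
      · intro e he
        exact ⟨e.1, mem_filter.2 ⟨mem_product.2 (mem_filter.1 he).2, e.2⟩, rfl⟩
    · rw [nsmul_eq_mul]
      refine mul_le_mul_of_nonneg_right ?_ (pow_nonneg (by linarith) _)
      have := card_filter_le (univ : Finset (Finset (Fin n))) (fun S => m ≤ S.card ∧ ∀ v ∈ S, σ v = i)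
      rw [card_univ, Fintype.card_finset, Fintype.card_fin] at this
      exact_mod_cast this

lemma noniso_le (hd : ∀ i j, i ≠ j → M i j = 0) (i : Fin k)
    {σ : Fin n → Fin k} {G : Graph n} (h : 0 < lik M σ G) :
    (univ.filter fun v => σ v = i ∧ ¬ iso G v).card ≤ 2 * (inner i σ G).card := by
  have hsub : (univ.filter fun v => σ v = i ∧ ¬ iso G v) ⊆
      (inner i σ G).image (fun e => e.1.1) ∪ (inner i σ G).image (fun e => e.1.2) := by
    intro v hv
    obtain ⟨-, hvi, hv⟩ := mem_filter.1 hv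
    unfold iso at hv
    push Not at hv
    obtain ⟨e, he, hG⟩ := hv
    have hG' : G e = true := by simpa using hG
    have hne := prod_ne_zero_iff.1 h.ne' e (mem_univ _)
    have heq : σ e.1.1 = σ e.1.2 := by
      by_contra hc
      simp [hG', q, hd _ _ hc] at hne
    have hin : e ∈ inner i σ G := by
      refine mem_filter.2 ⟨mem_univ _, hG', ?_⟩
      rcases he with he | he
      · exact ⟨he ▸ hvi, heq ▸ he ▸ hvi⟩
      · exact ⟨heq ▸ he ▸ hvi, he ▸ hvi⟩
    rcases he with he | he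
    · exact mem_union_left _ (mem_image.2 ⟨e, hin, he⟩)
    · exact mem_union_right _ (mem_image.2 ⟨e, hin, he⟩)
  refine (card_le_card hsub).trans ((card_union_le _ _).trans ?_)
  have := card_image_le (s := inner i σ G) (f := fun e => e.1.1)
  have := card_image_le (s := inner i σ G) (f := fun e => e.1.2)
  omega

lemma prod_at (v : Fin n) (h : Fin n → Fin n → ℝ) (hs : ∀ u w, h u w = h w u) :
    ∏ e ∈ univ.filter (fun e : Pair n => e.1.1 = v ∨ e.1.2 = v), h e.1.1 e.1.2 =
      ∏ w ∈ univ.erase v, h v w := by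
  refine prod_bij (fun e _ => if e.1.1 = v then e.1.2 else e.1.1) ?_ ?_ ?_ ?_
  · intro e _
    have := e.2
    split_ifs with h1
    · simp [← h1, this.ne']
    · simp [h1]
  · rintro ⟨⟨a, b⟩, hab⟩ h1 ⟨⟨c, d⟩, hcd⟩ h2 h3
    simp only [mem_filter, mem_univ, true_and] at h1 h2 h3 hab hcd
    simp only [Subtype.mk.injEq, Prod.mk.injEq]
    split_ifs at h3 <;> omega
  · intro w hw
    have hw := (mem_erase.1 hw).1
    rcases lt_or_gt_of_ne hw with h1 | h1
    · exact ⟨⟨(w, v), h1⟩, by simp, by simp [hw]⟩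
    · exact ⟨⟨(v, w), h1⟩, by simp, by simp⟩
  · intro e he
    have := (mem_filter.1 he).2
    split_ifs with h1
    · rw [h1]
    · rw [this.resolve_left h1, hs]

lemma lik_iso (hd : ∀ i j, i ≠ j → M i j = 0) (s : Fin n → Fin k) {G : Graph n} {v : Fin n}
    (hv : iso G v) : lik M s G =
      (1 - q M n (s v) (s v)) ^ ((univ.erase v).filter fun w => s w = s v).card *
      ∏ e ∈ univ.filter (fun e : Pair n => ¬ (e.1.1 = v ∨ e.1.2 = v)),
        if G e then q M n (s e.1.1) (s e.1.2) else 1 - q M n (s e.1.1) (s e.1.2) := by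
  have hq : ∀ i j, i ≠ j → q M n i j = 0 := fun i j h => by simp [q, hd i j h]
  rw [lik, ← prod_filter_mul_prod_filter_not univ (fun e : Pair n => e.1.1 = v ∨ e.1.2 = v)]
  congr 1
  rw [prod_congr rfl (g := fun e => 1 - q M n (s e.1.1) (s e.1.2))
    (fun e he => by simp [hv e (mem_filter.1 he).2]),
    prod_at v (fun u w => 1 - q M n (s u) (s w)) fun u w => ?_]
  · rw [← prod_const, prod_filter]
    refine prod_congr rfl fun w _ => ?_
    split_ifs with h
    · rw [h]
    · rw [hq _ _ (Ne.symm h), sub_zero]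
  · by_cases h : s u = s w
    · rw [h]
    · rw [hq _ _ h, hq _ _ (Ne.symm h)]

lemma pos_of_mul_pos_of_le' {a b : ℝ} (h : 0 < a * b) (ha : 0 ≤ a) : 0 < b := by
  by_contra hb
  nlinarith

lemma balance (hd : ∀ i j, i ≠ j → M i j = 0) {s : Fin n → Fin k}
    {G : Graph n} (hmax : ∀ s', lik M s' G ≤ lik M s G) (hpos : 0 < lik M s G) {i j : Fin k}
    (hij : j ≠ i) (h0 : 0 < q M n j j) (h1 : q M n j j < 1) (h2 : q M n j j ≤ q M n i i) :
    2 * (univ.filter fun v => iso G v ∧ s v = i).card ≤ n + 1 := by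
  rcases (univ.filter fun v => iso G v ∧ s v = i).eq_empty_or_nonempty with h | ⟨v, hv⟩
  · simp [h]
  obtain ⟨-, hv, hvi⟩ := mem_filter.1 hv
  have hm := hmax (Function.update s v j)
  rw [lik_iso hd _ hv] at hm
  rw [lik_iso hd s hv] at hm hpos
  have hR : (∏ e ∈ univ.filter (fun e : Pair n => ¬ (e.1.1 = v ∨ e.1.2 = v)),
      if G e then q M n (Function.update s v j e.1.1) (Function.update s v j e.1.2)
      else 1 - q M n (Function.update s v j e.1.1) (Function.update s v j e.1.2)) =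
      ∏ e ∈ univ.filter (fun e : Pair n => ¬ (e.1.1 = v ∨ e.1.2 = v)),
        if G e then q M n (s e.1.1) (s e.1.2) else 1 - q M n (s e.1.1) (s e.1.2) := by
    refine prod_congr rfl fun e he => ?_
    have := not_or.1 (mem_filter.1 he).2
    rw [Function.update_of_ne this.1, Function.update_of_ne this.2]
  have hF : ((univ.erase v).filter fun w => Function.update s v j w = Function.update s v j v) =
      (univ.erase v).filter fun w => s w = j :=
    filter_congr fun w hw => by rw [Function.update_of_ne (mem_erase.1 hw).1, Function.update_self]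
  rw [hR, hF, Function.update_self, hvi] at hm
  have hRpos := pos_of_mul_pos_of_le' hpos (pow_nonneg (sub_nonneg.2 (q_le_one _ _)) _)
  have h3 := (le_of_mul_le_mul_right hm hRpos).trans
    (pow_le_pow_left₀ (sub_nonneg.2 (q_le_one _ _)) (sub_le_sub_left h2 1) _)
  rw [pow_le_pow_iff_right_of_lt_one₀ (by linarith) (by linarith)] at h3
  have h4 : ((univ.erase v).filter fun w => s w = i).card +
      ((univ.erase v).filter fun w => s w = j).card ≤ n - 1 := by
    have hdis : Disjoint ((univ.erase v).filter fun w => s w = i)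
        ((univ.erase v).filter fun w => s w = j) :=
      disjoint_filter.2 fun w _ h h' => hij (h'.symm.trans h)
    rw [← card_union_of_disjoint hdis]
    refine (card_le_card (union_subset (filter_subset _ _) (filter_subset _ _))).trans ?_
    simp
  have h5 : (univ.filter fun v => iso G v ∧ s v = i).card ≤
      ((univ.erase v).filter fun w => s w = i).card + 1 := by
    refine le_trans (card_le_card fun w hw => ?_) (card_insert_le v _)
    by_cases h : w = v
    · simp [h]
    · simp [h, (mem_filter.1 hw).2.2]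
  have := v.pos
  omega

end Pool.Agent.H45.SBM
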