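import Mathlib

/-! The sparse stochastic block model as a finite probability space. -/

open Filter Topology

namespace Pool.Agent.H45.SBM

/-- Unordered pairs of distinct vertices of `[n]`, written `u < v`. -/
abbrev Pair (n : ℕ) := {e : Fin n × Fin n // e.1 < e.2}

/-- A graph on `[n]`: each pair is an edge (`true`) or not. -/
abbrev Graph (n : ℕ) := Pair n → Bool

variable {k n : ℕ}

/-- Edge probability `min(1, M_{ij}/n)`. -/
noncomputable def q (M : Matrix (Fin k) (Fin k) ℝ) (n : ℕ) (i j : Fin k) : ℝ := min 1 (M i j / n)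

/-- The likelihood `P(G | σ)`. -/
noncomputable def lik (M : Matrix (Fin k) (Fin k) ℝ) (σ : Fin n → Fin k) (G : Graph n) : ℝ :=
  ∏ e : Pair n, if G e then q M n (σ e.1.1) (σ e.1.2) else 1 - q M n (σ e.1.1) (σ e.1.2)

open Classical in
/-- Probability of an event about (hidden labels, graph) under `SBM(n,k,π,M)`. -/
noncomputable def prob (π : Fin k → ℝ) (M : Matrix (Fin k) (Fin k) ℝ) (n : ℕ)
    (E : (Fin n → Fin k) → Graph n → Prop) : ℝ :=
  ∑ σ : Fin n → Fin k, ∑ G : Graph n, if E σ G then (∏ v, π (σ v)) * lik M σ G else 0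

/-- Overlap of an estimated labelling `s` with the truth `σ`. -/
noncomputable def ov (s σ : Fin n → Fin k) : ℝ :=
  ⨆ τ : Equiv.Perm (Fin k), ((Finset.univ.filter fun v => τ (s v) = σ v).card : ℝ) / n

/-- The estimator achieves non-trivial correlation at `(k,π,M)`. -/
def Achieves (π : Fin k → ℝ) (M : Matrix (Fin k) (Fin k) ℝ)
    (est : ∀ n, Graph n → Fin n → Fin k) : Prop :=
  ∃ ε > 0, Tendsto (fun n => prob π M n fun σ G => (⨆ i, π i) + ε ≤ ov (est n G) σ) atTop (𝓝 1)

/-- `est` always outputs a maximiser of the likelihood (any tie-breaking). -/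
def IsML (M : Matrix (Fin k) (Fin k) ℝ) (est : ∀ n, Graph n → Fin n → Fin k) : Prop :=
  ∀ n (G : Graph n) (s : Fin n → Fin k), lik M s G ≤ lik M (est n G) G

end Pool.Agent.H45.SBM
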