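import Pool.Agent.H45.SearchDefs

set_option autoImplicit false
set_option maxHeartbeats 400000

namespace Pool.Agent.H45.Search

open Filter Topology
open scoped NNReal ENNReal

lemma mem_visitStarts (S : ℝ≥0 → ℝ) (H : ℝ) (hfin : ∀ T, Set.Finite {t | t ≤ T ∧ S t = H})
    (t : ℝ≥0) (ht : S t = H) : t ∈ visitStarts S H := by
  refine ⟨ht, fun s hs => ?_⟩
  by_contra hlt
  push Not at hlt
  have h1 : Set.Icc s t ⊆ connectedComponentIn (S ⁻¹' {H}) t :=
    isPreconnected_connectedComponentIn.Icc_subset hs (mem_connectedComponentIn ht)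
  refine Set.Icc_infinite hlt ((hfin t).subset fun r hr => ⟨hr.2, ?_⟩)
  exact connectedComponentIn_subset (S ⁻¹' {H}) t (h1 hr)

lemma captureTime_le (p : ℝ) (hp0 : 0 ≤ p) (hp1 : p ≤ 1) (S : ℝ → ℝ) (H : ℝ)
    (hfin : ∀ T : ℝ≥0, Set.Finite {t : ℝ≥0 | t ≤ T ∧ S t = H}) (τ : ℕ → ℝ) (h0 : 0 ≤ τ 0)
    (hmono : ∀ j, τ j < τ (j + 1)) (hS : ∀ j, S (τ j) = H) (E : ℝ)
    (hE : HasSum (fun j => (1 - p) ^ j * p * τ j) E) :
    captureTime p (fun t => S t) H ≤ ENNReal.ofReal E := by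
  have hpos : ∀ j, 0 ≤ τ j := fun j => h0.trans ((strictMono_nat_of_lt_succ hmono).monotone
    (Nat.zero_le j))
  have hmem : ∀ j, (NNReal.mk (τ j) (hpos j)) ∈ visitStarts (fun t : ℝ≥0 => S t) H := fun j =>
    mem_visitStarts _ H hfin _ (hS j)
  have h1 : ∀ j, visitTime (fun t : ℝ≥0 => S t) H j ≤ ((NNReal.mk (τ j) (hpos j)) : ℝ≥0∞) := by
    intro j
    induction j with
    | zero => exact iInf₂_le _ (hmem 0)
    | succ j ih =>
      refine iInf₂_le (f := fun (t : ℝ≥0) (_ : t ∈ {t ∈ visitStarts (fun t : ℝ≥0 => S t) H |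
        visitTime (fun t : ℝ≥0 => S t) H j < t}) => (t : ℝ≥0∞)) _ ⟨hmem (j + 1), ih.trans_lt ?_⟩
      exact ENNReal.coe_lt_coe.2 (hmono j)
  have hq : 0 ≤ 1 - p := by linarith
  rw [← hE.tsum_eq, ENNReal.ofReal_tsum_of_nonneg
    (fun j => mul_nonneg (by positivity) (hpos j)) hE.summable]
  refine ENNReal.tsum_le_tsum fun j => ?_
  rw [ENNReal.ofReal_mul (by positivity : 0 ≤ (1 - p) ^ j * p)]
  refine mul_le_mul_right ((h1 j).trans (le_of_eq ?_)) _
  rw [ENNReal.ofReal_eq_coe_nnreal (hpos j)]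

structure Par where
  a : ℝ
  δ : ℝ
  ha : 1 < a
  hδ : 0 < δ
  hδa : 1 + δ < a ^ 2

namespace Par
variable (P : Par)

noncomputable def x : ℝ := (P.a ^ 2)⁻¹
noncomputable def L : ℝ := 2 + 2 * P.δ * P.x
noncomputable def c : ℝ := P.L / (P.a - 1)

lemma a_pos : 0 < P.a := by linarith [P.ha]
lemma x_pos : 0 < P.x := by have := P.a_pos; unfold x; positivity
lemma x_lt : (1 + P.δ) * P.x < 1 := by
  have := P.a_pos
  rw [x, ← div_eq_mul_inv, div_lt_one (by positivity)]; exact P.hδa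
lemma δx_pos : 0 < P.δ * P.x := mul_pos P.hδ P.x_pos
lemma L_pos : 0 < P.L := by have := P.δx_pos; unfold L; linarith
lemma c_pos : 0 < P.c := div_pos P.L_pos (by linarith [P.ha])
lemma c_mul : P.c * P.a = P.c + P.L := by
  have : P.a - 1 ≠ 0 := by linarith [P.ha]
  unfold c; field_simp; ring

noncomputable def φ (s : ℝ) : ℝ :=
  min (P.L - s) (max (min s (2 * (1 + P.δ) * P.x - s)) (s - 2 * P.δ * P.x))

lemma φ_lip (s t : ℝ) : |P.φ s - P.φ t| ≤ |s - t| := by
  have h1 := le_abs_self (s - t)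
  have h2 := neg_abs_le (s - t)
  rw [abs_le]
  unfold φ
  simp only [min_def, max_def]
  constructor <;> split_ifs <;> linarith

lemma φ_zero : P.φ 0 = 0 := by
  have := P.δx_pos; have := P.x_pos; have := P.L_pos
  unfold φ
  simp only [min_def, max_def]
  split_ifs <;> nlinarith

lemma φ_L : P.φ P.L = 0 := by
  have := P.δx_pos; have := P.x_pos
  unfold φ L
  simp only [min_def, max_def]
  split_ifs <;> nlinarith

lemma φ_le (s : ℝ) : P.φ s ≤ 1 := by
  have := P.δx_pos; have := P.x_pos; have := P.x_lt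
  unfold φ L
  simp only [min_def, max_def]
  split_ifs <;> nlinarith

lemma φ_cases (s : ℝ) : s = P.L - P.φ s ∨ s = P.φ s ∨ s = 2 * (1 + P.δ) * P.x - P.φ s ∨
    s = P.φ s + 2 * P.δ * P.x := by
  unfold φ
  simp only [min_def, max_def]
  split_ifs <;> simp

noncomputable def idx (t : ℝ) : ℤ :=
  if h : 0 < t then (exists_mem_Ico_zpow (div_pos h P.c_pos) P.ha).choose else 0

lemma idx_spec (t : ℝ) (h : 0 < t) : P.c * P.a ^ P.idx t ≤ t ∧ t < P.c * P.a ^ (P.idx t + 1) := by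
  have := (exists_mem_Ico_zpow (div_pos h P.c_pos) P.ha).choose_spec
  rw [idx, dif_pos h]
  exact ⟨(le_div_iff₀' P.c_pos).1 this.1, (div_lt_iff₀' P.c_pos).1 this.2⟩

noncomputable def S (t : ℝ) : ℝ :=
  if 0 < t then (-1) ^ P.idx t * (P.a ^ P.idx t * P.φ (t / P.a ^ P.idx t - P.c)) else 0

lemma S_eq (k : ℤ) (s : ℝ) (h0 : 0 ≤ s) (h1 : s < P.L) :
    P.S (P.a ^ k * (P.c + s)) = (-1) ^ k * (P.a ^ k * P.φ s) := by
  have hk := zpow_pos P.a_pos k
  have hc := P.c_pos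
  have ht : 0 < P.a ^ k * (P.c + s) := by positivity
  have hi : P.idx (P.a ^ k * (P.c + s)) = k := by
    obtain ⟨h2, h3⟩ := P.idx_spec _ ht
    set i := P.idx (P.a ^ k * (P.c + s))
    have h4 : P.a ^ i < P.a ^ (k + 1) := by
      refine lt_of_mul_lt_mul_left (h2.trans_lt ?_) hc.le
      rw [zpow_add_one₀ P.a_pos.ne', mul_left_comm, P.c_mul]
      gcongr
    have h5 : P.a ^ k < P.a ^ (i + 1) := by
      refine lt_of_mul_lt_mul_left (lt_of_le_of_lt ?_ h3) hc.le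
      nlinarith
    rw [zpow_lt_zpow_iff_right₀ P.ha] at h4 h5
    omega
  rw [S, if_pos ht, hi, mul_div_cancel_left₀ _ hk.ne', add_sub_cancel_left]

lemma exists_rep (t : ℝ) (h : 0 < t) : ∃ (k : ℤ) (s : ℝ), 0 ≤ s ∧ s < P.L ∧
    t = P.a ^ k * (P.c + s) := by
  obtain ⟨h2, h3⟩ := P.idx_spec t h
  have hk := zpow_pos P.a_pos (P.idx t)
  refine ⟨P.idx t, t / P.a ^ P.idx t - P.c, ?_, ?_, by field_simp; ring⟩
  · rw [sub_nonneg, le_div_iff₀ hk]; exact h2
  · rw [sub_lt_iff_lt_add', div_lt_iff₀ hk, ← P.c_mul, mul_assoc, mul_comm P.a,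
      ← zpow_add_one₀ P.a_pos.ne']
    exact h3

lemma abs_sign (k : ℤ) (y : ℝ) : |(-1 : ℝ) ^ k * y| = |y| := by
  rw [abs_mul, abs_zpow, abs_neg, abs_one, one_zpow, one_mul]

lemma S_lip_le (t t' : ℝ) (h0 : 0 ≤ t) (h : t ≤ t') : |P.S t - P.S t'| ≤ t' - t := by
  have hc := P.c_pos
  rcases (h0.trans h).eq_or_lt with h1 | h1
  · have : t = t' := by linarith
    simp [this]
  obtain ⟨k', s', h2, h3, rfl⟩ := P.exists_rep t' h1
  have hk' := zpow_pos P.a_pos k'
  have b1 : |P.φ s'| ≤ s' := by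
    have := P.φ_lip s' 0
    rwa [P.φ_zero, sub_zero, sub_zero, abs_of_nonneg h2] at this
  rw [P.S_eq k' s' h2 h3]
  rcases h0.eq_or_lt with rfl | h4
  · rw [S, if_neg (lt_irrefl _), zero_sub, abs_neg, abs_sign, abs_mul, abs_of_pos hk', sub_zero]
    gcongr
    linarith
  obtain ⟨k, s, h5, h6, rfl⟩ := P.exists_rep t h4
  have hk := zpow_pos P.a_pos k
  rw [P.S_eq k s h5 h6]
  rcases lt_trichotomy k k' with e | rfl | e
  · have b2 : |P.φ s| ≤ P.L - s := by
      have := P.φ_lip s P.L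
      rwa [P.φ_L, sub_zero, abs_sub_comm, abs_of_nonneg (by linarith : 0 ≤ P.L - s)] at this
    have b3 : P.a ^ (k + 1) ≤ P.a ^ k' := zpow_le_zpow_right₀ P.ha.le (by omega)
    rw [zpow_add_one₀ P.a_pos.ne'] at b3
    refine (abs_sub _ _).trans ?_
    rw [abs_sign, abs_sign, abs_mul, abs_mul, abs_of_pos hk, abs_of_pos hk']
    have b4 := mul_le_mul_of_nonneg_left b1 hk'.le
    have b5 := mul_le_mul_of_nonneg_left b2 hk.le
    have b6 := mul_le_mul_of_nonneg_left b3 hc.le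
    have b7 : P.c * (P.a ^ k * P.a) = P.a ^ k * (P.c + P.L) := by rw [← P.c_mul]; ring
    nlinarith
  · rw [← mul_sub, abs_sign, ← mul_sub, abs_mul, abs_of_pos hk, ← mul_sub]
    have : s ≤ s' := by
      have := le_of_mul_le_mul_left h hk
      linarith
    have b2 := P.φ_lip s s'
    rw [abs_sub_comm s, abs_of_nonneg (by linarith : 0 ≤ s' - s)] at b2
    gcongr
    linarith
  · exfalso
    have b3 : P.a ^ (k' + 1) ≤ P.a ^ k := zpow_le_zpow_right₀ P.ha.le (by omega)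
    rw [zpow_add_one₀ P.a_pos.ne'] at b3
    have b6 := mul_le_mul_of_nonneg_left b3 hc.le
    have b7 : P.c * (P.a ^ k' * P.a) = P.a ^ k' * (P.c + P.L) := by rw [← P.c_mul]; ring
    nlinarith

lemma finite_pre (H : ℝ) (hH : H ≠ 0) (T : ℝ≥0) : Set.Finite {t : ℝ≥0 | t ≤ T ∧ P.S t = H} := by
  have hc := P.c_pos
  obtain ⟨m, hm, -⟩ := exists_mem_Ico_zpow (abs_pos.2 hH) P.ha
  obtain ⟨n, -, hn⟩ := exists_mem_Ico_zpow (show 0 < ((T : ℝ) + 1) / P.c by positivity) P.ha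
  refine Set.Finite.of_finite_image (f := fun t : ℝ≥0 => (t : ℝ)) ?_ NNReal.coe_injective.injOn
  refine ((Set.finite_Icc m (n + 1)).biUnion (t := fun k =>
    let y := (-1) ^ k * H / P.a ^ k
    ({P.a ^ k * (P.c + (P.L - y)), P.a ^ k * (P.c + y),
      P.a ^ k * (P.c + (2 * (1 + P.δ) * P.x - y)), P.a ^ k * (P.c + (y + 2 * P.δ * P.x))} : Set ℝ))
    fun k _ => Set.toFinite _).subset ?_
  rintro _ ⟨t, ⟨h1, h2⟩, rfl⟩
  have ht : (0 : ℝ) < t := by
    by_contra h
    rw [S, if_neg h] at h2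
    exact hH h2.symm
  obtain ⟨k, s, h3, h4, e⟩ := P.exists_rep t ht
  have hk := zpow_pos P.a_pos k
  rw [e, P.S_eq k s h3 h4] at h2
  have hy : (-1) ^ k * H / P.a ^ k = P.φ s := by
    rw [← h2, ← mul_assoc, ← mul_zpow]
    simp [hk.ne']
  simp only [Set.mem_iUnion, Set.mem_Icc, exists_prop]
  refine ⟨k, ⟨?_, ?_⟩, ?_⟩
  · rw [← zpow_le_zpow_iff_right₀ P.ha]
    refine hm.trans ?_
    have b1 : 0 ≤ P.φ s := by
      have := P.δx_pos; have := P.x_pos
      unfold φ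
      simp only [min_def, max_def]
      split_ifs <;> nlinarith
    rw [← h2, abs_sign, abs_of_nonneg (by positivity)]
    exact mul_le_of_le_one_right hk.le (P.φ_le s)
  · rw [← zpow_le_zpow_iff_right₀ P.ha]
    refine le_trans ?_ hn.le
    rw [le_div_iff₀ hc]
    have : (t : ℝ) ≤ T := h1
    nlinarith
  · simp only [hy, e, Set.mem_insert_iff, Set.mem_singleton_iff]
    rcases P.φ_cases s with h | h | h | h
    · left; rw [← h]
    · right; left; rw [← h]
    · right; right; left; rw [← h]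
    · right; right; right; rw [← h]

lemma isTrajectory : IsTrajectory fun t => P.S t := by
  refine ⟨by simp [S], fun t t' => ?_, fun H hH T => ?_⟩
  · rcases le_total t t' with h | h
    · rw [abs_sub_comm (t : ℝ), abs_of_nonneg (sub_nonneg.2 (NNReal.coe_le_coe.2 h))]
      exact P.S_lip_le t t' t.2 h
    · rw [abs_sub_comm, abs_of_nonneg (sub_nonneg.2 (NNReal.coe_le_coe.2 h))]
      exact P.S_lip_le t' t t'.2 h
  · refine ((P.finite_pre H hH T).image
      (connectedComponentIn ((fun t : ℝ≥0 => P.S t) ⁻¹' {H}))).subset ?_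
    rintro C ⟨t, h1, h2, rfl⟩
    exact ⟨t, ⟨h1, h2⟩, rfl⟩

lemma S_val (k : ℤ) (z t s : ℝ) (ht : t = P.a ^ k * (P.c + s)) (h0 : 0 ≤ s) (h1 : s < P.L)
    (h2 : P.φ s = z / P.a ^ k) : P.S t = (-1) ^ k * z := by
  have hk := zpow_pos P.a_pos k
  rw [ht, P.S_eq k s h0 h1, h2, mul_div_cancel₀ _ hk.ne']

lemma up1 (k : ℤ) (z : ℝ) (h0 : 0 ≤ z) (h1 : z ≤ (1 + P.δ) * P.x * P.a ^ k) :
    P.S (P.c * P.a ^ k + z) = (-1) ^ k * z := by
  have hk := zpow_pos P.a_pos k
  have := P.δx_pos; have := P.x_pos; have := P.x_lt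
  rw [← div_le_iff₀ hk] at h1
  have h2 : 0 ≤ z / P.a ^ k := by positivity
  refine P.S_val k z _ (z / P.a ^ k) (by field_simp) h2 (by unfold L; linarith) ?_
  unfold φ L
  simp only [min_def, max_def]
  split_ifs <;> linarith

lemma down1 (k : ℤ) (z : ℝ) (h0 : P.x * P.a ^ k ≤ z) (h1 : z ≤ (1 + P.δ) * P.x * P.a ^ k) :
    P.S (P.c * P.a ^ k + 2 * (1 + P.δ) * P.x * P.a ^ k - z) = (-1) ^ k * z := by
  have hk := zpow_pos P.a_pos k
  have := P.δx_pos; have := P.x_pos; have := P.x_lt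
  rw [← div_le_iff₀ hk] at h1
  rw [← le_div_iff₀ hk] at h0
  refine P.S_val k z _ (2 * (1 + P.δ) * P.x - z / P.a ^ k) (by field_simp; ring) (by linarith)
    (by unfold L; linarith) ?_
  unfold φ L
  simp only [min_def, max_def]
  split_ifs <;> linarith

lemma up2 (k : ℤ) (z : ℝ) (h0 : P.x * P.a ^ k ≤ z) (h1 : z ≤ P.a ^ k) :
    P.S (P.c * P.a ^ k + 2 * P.δ * P.x * P.a ^ k + z) = (-1) ^ k * z := by
  have hk := zpow_pos P.a_pos k
  have := P.δx_pos; have := P.x_pos; have := P.x_lt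
  rw [← div_le_one hk] at h1
  rw [← le_div_iff₀ hk] at h0
  refine P.S_val k z _ (2 * P.δ * P.x + z / P.a ^ k) (by field_simp; ring) (by linarith)
    (by unfold L; linarith) ?_
  unfold φ L
  simp only [min_def, max_def]
  split_ifs <;> linarith

lemma down2 (k : ℤ) (z : ℝ) (h0 : 0 < z) (h1 : z ≤ P.a ^ k) :
    P.S (P.c * P.a ^ (k + 1) - z) = (-1) ^ k * z := by
  have hk := zpow_pos P.a_pos k
  have := P.δx_pos; have := P.x_pos; have := P.x_lt
  rw [← div_le_one hk] at h1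
  have h2 : 0 < z / P.a ^ k := by positivity
  refine P.S_val k z _ (P.L - z / P.a ^ k) ?_ (by unfold L; linarith) (by linarith) ?_
  · rw [zpow_add_one₀ P.a_pos.ne', mul_left_comm, P.c_mul]; field_simp; ring
  unfold φ L
  simp only [min_def, max_def]
  split_ifs <;> linarith

/-- the later visits -/
noncomputable def u (i : ℤ) (h : ℝ) (j : ℕ) : ℝ := P.c * P.a ^ i * P.a * P.a ^ j - (-1) ^ j * h

lemma S_u (i : ℤ) (h : ℝ) (h0 : 0 < h) (h1 : h ≤ P.a ^ i) (j : ℕ) :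
    P.S (P.u i h j) = (-1) ^ i * h := by
  have ha := P.a_pos
  have e : ∀ m : ℕ, (-1 : ℝ) ^ (i + 2 * m) = (-1) ^ i := fun m => by
    rw [zpow_add₀ (by norm_num), zpow_mul]; norm_num
  rcases Nat.even_or_odd' j with ⟨m, rfl | rfl⟩
  · rw [← e m, ← P.down2 (i + 2 * m) h h0 (h1.trans (zpow_le_zpow_right₀ P.ha.le (by omega)))]
    congr 1
    rw [u, zpow_add_one₀ ha.ne', zpow_add₀ ha.ne', pow_mul (-1 : ℝ)]
    norm_cast
    norm_num
    ring
  · have h2 : h ≤ (1 + P.δ) * P.x * P.a ^ (i + 2 * (m + 1 : ℕ)) := by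
      have h3 : P.a ^ (i + 2) ≤ P.a ^ (i + 2 * (m + 1 : ℕ)) :=
        zpow_le_zpow_right₀ P.ha.le (by push_cast; omega)
      have h4 : P.x * P.a ^ (i + 2) = P.a ^ i := by
        rw [zpow_add₀ ha.ne', x]; norm_cast; field_simp
      have h5 := mul_le_mul_of_nonneg_left h3 P.x_pos.le
      have h6 := mul_pos P.δx_pos (zpow_pos ha (i + 2 * (m + 1 : ℕ)))
      nlinarith
    rw [← e (m + 1), ← P.up1 _ h h0.le h2]
    congr 1
    rw [u, zpow_add₀ ha.ne', pow_succ (-1 : ℝ), pow_mul (-1 : ℝ)]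
    norm_cast
    norm_num
    ring

lemma u_mono (i : ℤ) (h : ℝ) (h0 : 0 < h) (h1 : h ≤ P.a ^ i) (j : ℕ) :
    P.u i h j < P.u i h (j + 1) := by
  have hk := zpow_pos P.a_pos i
  have h2 : (1 : ℝ) ≤ P.a ^ j := one_le_pow₀ P.ha.le
  have h3 : P.c * P.a ^ i * P.a * P.a ^ (j + 1) =
      P.c * P.a ^ i * P.a * P.a ^ j + P.L * (P.a ^ i * (P.a * P.a ^ j)) := by
    rw [pow_succ, show P.c * P.a ^ i * P.a * (P.a ^ j * P.a) =
      (P.c * P.a) * (P.a ^ i * (P.a * P.a ^ j)) by ring, P.c_mul]; ring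
  have h4 : 1 < P.a * P.a ^ j := by nlinarith [P.ha]
  have h5 : h < P.a ^ i * (P.a * P.a ^ j) := by nlinarith
  have h6 : 2 < P.L := by have := P.δx_pos; unfold L; linarith
  unfold u
  rw [h3, pow_succ (-1 : ℝ)]
  rcases neg_one_pow_eq_or ℝ j with e | e <;> rw [e] <;> nlinarith

lemma hasSum_u (p : ℝ) (hp0 : 0 < p) (hp1 : p < 1) (hqa : (1 - p) * P.a < 1) (i : ℤ) (h : ℝ) :
    HasSum (fun j => (1 - p) ^ j * p * P.u i h j)
      (p * (P.c * P.a ^ i * P.a) * (1 - (1 - p) * P.a)⁻¹ - p * h * (1 - -(1 - p))⁻¹) := by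
  have h1 := (hasSum_geometric_of_lt_one (mul_nonneg (by linarith) P.a_pos.le) hqa).mul_left
    (p * (P.c * P.a ^ i * P.a))
  have h2 := (hasSum_geometric_of_abs_lt_one (r := -(1 - p))
    (by rw [abs_neg, abs_of_pos (by linarith)]; linarith)).mul_left (p * h)
  have := h1.sub h2
  rw [show (fun j => (1 - p) ^ j * p * P.u i h j) = fun j : ℕ =>
    p * (P.c * P.a ^ i * P.a) * ((1 - p) * P.a) ^ j - p * h * (-(1 - p)) ^ j from
    funext fun j => by rw [u, mul_pow, neg_pow (1 - p)]; ring]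
  exact this

end Par

def cons (v : ℝ) (τ : ℕ → ℝ) : ℕ → ℝ
  | 0 => v
  | j + 1 => τ j

lemma hasSum_cons (p v : ℝ) (τ : ℕ → ℝ) (E : ℝ) (hE : HasSum (fun j => (1 - p) ^ j * p * τ j) E) :
    HasSum (fun j => (1 - p) ^ j * p * cons v τ j) (p * v + (1 - p) * E) := by
  rw [← hasSum_nat_add_iff' 1]
  have := hE.mul_left (1 - p)
  simp only [Finset.range_one, Finset.sum_singleton, pow_zero, one_mul, cons, add_sub_cancel_left]
  rw [show (fun n : ℕ => (1 - p) ^ (n + 1) * p * τ n) = fun n => (1 - p) * ((1 - p) ^ n * p * τ n)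
    from funext fun n => by ring]
  exact this

lemma cons_mono (v : ℝ) (τ : ℕ → ℝ) (h : v < τ 0) (hτ : ∀ j, τ j < τ (j + 1)) :
    ∀ j, cons v τ j < cons v τ (j + 1)
  | 0 => h
  | j + 1 => hτ j

lemma cons_all (v : ℝ) (τ : ℕ → ℝ) (Q : ℝ → Prop) (h : Q v) (hτ : ∀ j, Q (τ j)) :
    ∀ j, Q (cons v τ j)
  | 0 => h
  | j + 1 => hτ j

theorem beats (p : ℝ) (hp0 : 0 < p) (hp1 : p < 1) : ∃ S : ℝ≥0 → ℝ, IsTrajectory S ∧
    cost p S < ENNReal.ofReal (p / (2 - p) + 8 / p) := by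
  have h2p : 0 < 2 - p := by linarith
  set a := 2 / (2 - p) with ha
  set r := p / (2 - p) with hr
  have hr0 : 0 < r := by positivity
  have har : a = 1 + r := by rw [ha, hr]; field_simp; ring
  let g : ℝ → ℝ := fun δ => p * (1 + (1 - p) + (1 - p) ^ 2) * ((2 * a ^ 2 + 2 * δ) / r + 1 + 3 * δ)
    + (1 - p) ^ 3 * (2 * ((2 * a ^ 2 + 2 * δ) / r) - r)
  have hg : g 0 < r + 8 / p := by
    have e : r + 8 / p - g 0 = (1 - p) * (2 - p) * p * (2 * a ^ 2 / r - a) := by
      simp only [g, ha, hr]; field_simp; ring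
    have : 0 < 2 * a ^ 2 / r - a := by
      rw [sub_pos, lt_div_iff₀ hr0, har]; nlinarith
    have : 0 < (1 - p) * (2 - p) * p * (2 * a ^ 2 / r - a) := by
      have : 0 < 1 - p := by linarith
      positivity
    linarith
  obtain ⟨δ, hδ, hδ1, hδ2⟩ : ∃ δ, 0 < δ ∧ g δ < r + 8 / p ∧ 1 + δ < a ^ 2 := by
    have c1 : ∀ᶠ δ in 𝓝 (0 : ℝ), g δ < r + 8 / p :=
      (show ContinuousAt g 0 by fun_prop).eventually_lt continuousAt_const hg
    have c2 : ∀ᶠ δ in 𝓝 (0 : ℝ), 1 + δ < a ^ 2 :=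
      (show ContinuousAt (fun δ : ℝ => 1 + δ) 0 by fun_prop).eventually_lt continuousAt_const
        (by rw [har]; nlinarith)
    exact (eventually_mem_nhdsWithin.and ((c1.and c2).filter_mono nhdsWithin_le_nhds)).exists
      (f := 𝓝[>] 0)
  let P : Par := ⟨a, δ, by linarith, hδ, hδ2⟩
  have hPa : P.a = a := rfl
  have hPδ : P.δ = δ := rfl
  set κ := 2 * (2 - p) ^ 2 / p + 2 * p with hκ
  have hκ8 : κ < 8 / p := by
    rw [hκ, div_add' _ _ _ hp0.ne', div_lt_div_iff_of_pos_right hp0]; nlinarith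
  set VB := r + (8 / p + δ * κ) / (1 + δ) with hVB
  have hVB2 : VB < r + 8 / p := by
    rw [hVB, add_lt_add_iff_left, div_lt_iff₀ (by linarith)]; nlinarith
  refine ⟨fun t => P.S t, P.isTrajectory, lt_of_le_of_lt (iSup₂_le fun H hH => ?_)
    ((ENNReal.ofReal_lt_ofReal_iff (by positivity)).2 (max_lt hδ1 hVB2))⟩
  have hh : 0 < |H| := abs_pos.2 hH
  rw [ENNReal.div_le_iff (by simpa using hH) ENNReal.ofReal_ne_top,
    ← ENNReal.ofReal_mul' hh.le]
  obtain ⟨i, hi1, hi2, hi3⟩ : ∃ i : ℤ, P.x * P.a ^ i ≤ |H| ∧ |H| < P.a ^ i ∧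
      (-1) ^ i * |H| = H := by
    obtain ⟨n, h1, h2⟩ := exists_mem_Ico_zpow hh P.ha
    have h4 : ∀ k : ℤ, P.x * P.a ^ (k + 2) = P.a ^ k := fun k => by
      have := P.a_pos
      rw [zpow_add₀ P.a_pos.ne', Par.x]; norm_cast; field_simp
    by_cases e : (-1) ^ (n + 1) * |H| = H
    · refine ⟨n + 1, ?_, h2, e⟩
      rw [show n + 1 = n - 1 + 2 by ring, h4]
      exact (zpow_le_zpow_right₀ P.ha.le (by omega)).trans h1
    · refine ⟨n + 2, by rw [h4]; exact h1,
        h2.trans_le (zpow_le_zpow_right₀ P.ha.le (by omega)), ?_⟩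
      rw [show n + 2 = n + 1 + 1 by ring, zpow_add_one₀ (by norm_num)]
      have := Par.abs_sign (n + 1) |H|
      rw [abs_abs, abs_eq_abs] at this
      rcases this with h | h
      · exact absurd h e
      · linarith
  set h := |H| with hdef
  set A := P.a ^ i with hA
  set y := P.x * A with hy
  have hA0 : 0 < A := zpow_pos P.a_pos i
  have hy0 : 0 < y := mul_pos P.x_pos hA0
  have hAy : A = a ^ 2 * y := by
    have : 0 < a := P.a_pos
    rw [hy, Par.x, hPa]; field_simp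
  have hc : P.c * A = (2 * a ^ 2 + 2 * δ) / r * y := by
    have : 0 < a := P.a_pos
    rw [hAy, Par.c, Par.L, Par.x, hPa, hPδ, show a - 1 = r by linarith]; field_simp
  have hqa : 1 - (1 - p) * P.a = r := by rw [hPa, ha, hr]; field_simp; ring
  have hU := P.hasSum_u p hp0 hp1 (by linarith) i h
  have hUe : p * (P.c * P.a ^ i * P.a) * (1 - (1 - p) * P.a)⁻¹ - p * h * (1 - -(1 - p))⁻¹ =
      2 * (P.c * A) - r * h := by
    rw [hqa, ← hA, hPa, ha, hr, show 1 - -(1 - p) = 2 - p by ring]; field_simp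
  rw [hUe] at hU
  have hfin := P.finite_pre H hH
  have hcA : 0 < P.c * A := mul_pos P.c_pos hA0
  have hδy : 0 < δ * y := mul_pos hδ hy0
  have hv2 : P.S (P.c * A + 2 * δ * y + h) = H := by
    rw [← hi3, ← P.up2 i h hi1 hi2.le]; congr 1; rw [hy, hPδ]; ring
  have hv2u : P.c * A + 2 * δ * y + h < P.u i h 0 := by
    have e : P.u i h 0 = P.c * A + 2 * A + 2 * δ * y - h := by
      rw [Par.u, ← hA, mul_right_comm P.c A, P.c_mul, Par.L, hy, hPδ]; ring
    rw [e]; linarith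
  have hSu : ∀ j, P.S (P.u i h j) = H := fun j => (P.S_u i h hh hi2.le j).trans hi3
  have hum := P.u_mono i h hh hi2.le
  by_cases hcase : (1 + δ) * y ≤ h
  · refine (captureTime_le p hp0.le hp1.le P.S H hfin _ ?_ (cons_mono _ _ hv2u hum)
      (cons_all _ _ (fun t => P.S t = H) hv2 hSu) _ (hasSum_cons p _ _ _ hU)).trans
      (ENNReal.ofReal_le_ofReal ?_)
    · simp only [cons]; positivity
    · refine le_trans ?_ (mul_le_mul_of_nonneg_right (le_max_right _ _) hh.le)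
      have e : p * (P.c * A + 2 * δ * y + h) + (1 - p) * (2 * (P.c * A) - r * h) =
          r * h + (8 / p + δ * κ) * y := by
        rw [hc, hκ, ha, hr]; field_simp; ring
      have hκ0 : 0 < κ := by positivity
      have : (8 / p + δ * κ) * y ≤ (8 / p + δ * κ) / (1 + δ) * h := by
        rw [div_mul_eq_mul_div, le_div_iff₀ (by linarith), mul_assoc]
        gcongr
        linarith
      rw [e, hVB]
      linarith
  · push Not at hcase
    obtain ⟨v0, v1, b0, b1, b2, b3, b4⟩ : ∃ v0 v1, 0 ≤ v0 ∧ v0 < v1 ∧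
        v1 < P.c * A + 2 * δ * y + h ∧ P.S v0 = H ∧ P.S v1 = H := by
      have hup : P.S (P.c * A + h) = H := by
        rw [← hi3, ← P.up1 i h hh.le (by rw [mul_assoc]; exact hcase.le)]
      rcases hi1.eq_or_lt with e | e
      · have h4 : P.a ^ (i - 2) = y := by
          have := P.a_pos
          rw [hy, hA, zpow_sub₀ P.a_pos.ne', Par.x]; norm_cast; field_simp
        have h5 := P.down2 (i - 2) h hh (by rw [h4, e])
        refine ⟨P.c * P.a ^ (i - 2 + 1) - h, P.c * A + h, ?_, ?_, by linarith, ?_, hup⟩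
        · rw [zpow_add_one₀ P.a_pos.ne', h4, mul_left_comm, P.c_mul, ← e]
          have := P.c_pos
          have := P.δx_pos
          unfold Par.L
          nlinarith
        · have : P.a ^ (i - 2 + 1) ≤ A := zpow_le_zpow_right₀ P.ha.le (by omega)
          have := mul_le_mul_of_nonneg_left this P.c_pos.le
          linarith
        · rw [h5, ← hi3, zpow_sub₀ (by norm_num)]; norm_num
      · refine ⟨P.c * A + h, P.c * A + 2 * (1 + δ) * y - h, by positivity, by linarith,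
          by linarith, hup, ?_⟩
        rw [← hi3, ← P.down1 i h hi1 (by rw [mul_assoc]; exact hcase.le)]
        congr 1; rw [hy, hPδ]; ring
    refine (captureTime_le p hp0.le hp1.le P.S H hfin _ b0
      (cons_mono v0 _ b1 (cons_mono v1 _ b2 (cons_mono _ _ hv2u hum)))
      (cons_all _ _ (fun t => P.S t = H) b3 (cons_all _ _ (fun t => P.S t = H) b4
        (cons_all _ _ (fun t => P.S t = H) hv2 hSu))) _
      (hasSum_cons p _ _ _ (hasSum_cons p _ _ _ (hasSum_cons p _ _ _ hU)))).trans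
      (ENNReal.ofReal_le_ofReal ?_)
    have hq : 0 < 1 - p := by linarith
    have hg0 : g δ * y = p * (1 + (1 - p) + (1 - p) ^ 2) * (P.c * A + y + 3 * δ * y)
        + (1 - p) ^ 3 * (2 * (P.c * A) - r * y) := by
      rw [hc]; simp only [g]; ring
    have hg1 : g δ * y ≤ max (g δ) VB * h := by
      have : 0 < VB := by have : 0 < κ := by positivity
                          positivity
      exact mul_le_mul (le_max_left _ _) hi1 hy0.le (le_max_of_le_right this.le)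
    refine le_trans ?_ hg1
    rw [hg0]
    have m0 : p * v0 ≤ p * (P.c * A + y + 3 * δ * y) :=
      mul_le_mul_of_nonneg_left (by linarith) hp0.le
    have m1 : p * (1 - p) * v1 ≤ p * (1 - p) * (P.c * A + y + 3 * δ * y) :=
      mul_le_mul_of_nonneg_left (by linarith) (by positivity)
    have m2 : p * (1 - p) ^ 2 * (P.c * A + 2 * δ * y + h) ≤
        p * (1 - p) ^ 2 * (P.c * A + y + 3 * δ * y) :=
      mul_le_mul_of_nonneg_left (by linarith) (by positivity)
    have m3 : (1 - p) ^ 3 * (2 * (P.c * A) - r * h) ≤ (1 - p) ^ 3 * (2 * (P.c * A) - r * y) :=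
      mul_le_mul_of_nonneg_left (by nlinarith) (by positivity)
    linarith

end Pool.Agent.H45.Search
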