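import Mathlib

set_option autoImplicit false

namespace Pool.Agent.H45.Search

open scoped NNReal ENNReal

/-- Left endpoints of the connected components of `S⁻¹(H)`. -/
def visitStarts (S : ℝ≥0 → ℝ) (H : ℝ) : Set ℝ≥0 :=
  {t | S t = H ∧ ∀ s ∈ connectedComponentIn (S ⁻¹' {H}) t, t ≤ s}

/-- `visitTime S H i` is the time of visit number `i + 1`, infinite if there is no such visit. -/
noncomputable def visitTime (S : ℝ≥0 → ℝ) (H : ℝ) : ℕ → ℝ≥0∞
  | 0 => ⨅ t ∈ visitStarts S H, (t : ℝ≥0∞)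
  | i + 1 => ⨅ t ∈ {t ∈ visitStarts S H | visitTime S H i < t}, (t : ℝ≥0∞)

/-- Expected capture time when each visit detects the hider with probability `p`. -/
noncomputable def captureTime (p : ℝ) (S : ℝ≥0 → ℝ) (H : ℝ) : ℝ≥0∞ :=
  ∑' i : ℕ, ENNReal.ofReal ((1 - p) ^ i * p) * visitTime S H i

/-- Guaranteed normalized cost of the trajectory `S`. -/
noncomputable def cost (p : ℝ) (S : ℝ≥0 → ℝ) : ℝ≥0∞ :=
  ⨆ (H : ℝ) (_ : H ≠ 0), captureTime p S H / ENNReal.ofReal |H|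

/-- Admitted trajectories: start at the origin, speed at most one, and for every hider position
each bounded time interval meets finitely many components of `S⁻¹(H)`. -/
def IsTrajectory (S : ℝ≥0 → ℝ) : Prop :=
  S 0 = 0 ∧ (∀ t t' : ℝ≥0, |S t - S t'| ≤ |(t : ℝ) - t'|) ∧
    ∀ H : ℝ, H ≠ 0 → ∀ T : ℝ≥0,
      Set.Finite {C : Set ℝ≥0 | ∃ t ≤ T, S t = H ∧ C = connectedComponentIn (S ⁻¹' {H}) t}

end Pool.Agent.H45.Search
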