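import Pool.Agent.H45.Cover

set_option autoImplicit false
set_option maxHeartbeats 400000

namespace Pool.Agent.H45.Chain

open MeasureTheory ProbabilityTheory Finset Filter Topology Sum
open scoped ENNReal

abbrev SV (m n : ℕ) : Type := Option (Fin m) ⊕ Option (Fin n)

instance (m n : ℕ) : MeasurableSpace (SV m n) := ⊤
instance (m n : ℕ) : DiscreteMeasurableSpace (SV m n) := ⟨fun _ => trivial⟩

def adj {m n : ℕ} : SV m n → SV m n → Bool
  | inl none, inl (some _) => true
  | inl (some _), inl none => true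
  | inl none, inr none => true
  | inr none, inl none => true
  | inr a, inr b => a ≠ b
  | _, _ => false

/-- a star whose centre is joined to one vertex of a clique -/
def SG (m n : ℕ) : SimpleGraph (SV m n) where
  Adj a b := adj a b = true
  symm := ⟨by rintro ((_ | a) | (_ | a)) ((_ | b) | (_ | b)) <;> simp [adj, ne_comm]⟩
  loopless := ⟨by rintro ((_ | a) | (_ | a)) <;> simp [adj]⟩

instance (m n : ℕ) : DecidableRel (SG m n).Adj := fun a b => inferInstanceAs (Decidable (adj a b = true))

variable {m n : ℕ}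

lemma SG_connected : (SG m n).Connected := by
  have h : ∀ v, (SG m n).Reachable (inl none) v := by
    rintro ((_ | a) | (_ | a))
    · rfl
    · exact SimpleGraph.Adj.reachable (by simp [SG, adj])
    · exact SimpleGraph.Adj.reachable (by simp [SG, adj])
    · exact (SimpleGraph.Adj.reachable (v := inr none) (by simp [SG, adj])).trans
        (SimpleGraph.Adj.reachable (by simp [SG, adj]))
  exact ⟨fun u v => (h u).symm.trans (h v)⟩

lemma degree_eq (v : SV m n) : (SG m n).degree v =
    ((if adj v (inl none) then 1 else 0) + ∑ i, if adj v (inl (some i)) then 1 else 0) +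
    ((if adj v (inr none) then 1 else 0) + ∑ j, if adj v (inr (some j)) then 1 else 0) := by
  rw [← SimpleGraph.card_neighborFinset_eq_degree, SimpleGraph.neighborFinset_eq_filter,
    card_filter, Fintype.sum_sum_type, Fintype.sum_option, Fintype.sum_option]
  rfl

lemma Pr_leaf (f : SV m n → ℝ) (i : Fin m) : Pr (srw (SG m n)) f (inl (some i)) = f (inl none) := by
  have : (SG m n).degree (inl (some i)) = 1 := by simp [degree_eq, adj]
  rw [Pr_srw _ _ (by omega), this]
  simp [SG, adj]

lemma Pr_centre (f : SV m n → ℝ) : Pr (srw (SG m n)) f (inl none) =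
    (f (inr none) + ∑ i, f (inl (some i))) / (m + 1) := by
  have : (SG m n).degree (inl none) = m + 1 := by simp [degree_eq, adj]
  rw [Pr_srw _ _ (by omega), this]
  simp [SG, adj, add_comm]

lemma Pr_z (f : SV m n → ℝ) : Pr (srw (SG m n)) f (inr none) =
    (f (inl none) + ∑ j, f (inr (some j))) / (n + 1) := by
  have : (SG m n).degree (inr none) = n + 1 := by simp [degree_eq, adj, add_comm]
  rw [Pr_srw _ _ (by omega), this]
  simp [SG, adj]

lemma Pr_y (f : SV m n → ℝ) (j : Fin n) : Pr (srw (SG m n)) f (inr (some j)) =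
    (f (inr none) + ∑ j', f (inr (some j')) - f (inr (some j))) / n := by
  have e : ∀ g : Fin n → ℝ, ∑ x, (if j = x then 0 else g x) = ∑ x, g x - g j := by
    intro g
    rw [← add_sum_erase _ _ (mem_univ j), ← add_sum_erase _ g (mem_univ j), if_pos rfl,
      sum_congr rfl fun x hx => if_neg (ne_of_mem_erase hx).symm]
    ring
  have : (SG m n).degree (inr (some j)) = n := by
    have h := e fun _ => 1
    have : (((SG m n).degree (inr (some j)) : ℕ) : ℝ) = n := by
      rw [degree_eq]; push_cast
      simp only [adj, ne_eq, Option.some.injEq, decide_not, Bool.not_eq_eq_eq_not, Bool.not_true,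
        decide_eq_false_iff_not, ite_not, h]
      simp
    exact_mod_cast this
  rw [Pr_srw _ _ (by have := j.2; omega), this]
  simp [SG, adj, e, add_sub_assoc]

lemma sum_ite_ne {k : ℕ} (i : Fin k) (c : ℝ) :
    ∑ x : Fin k, (if x = i then 0 else c) = (k - 1) * c := by
  rw [← add_sum_erase _ _ (mem_univ i), if_pos rfl,
    sum_congr rfl fun x hx => if_neg (ne_of_mem_erase hx), sum_const, card_erase_of_mem (mem_univ _),
    card_univ, Fintype.card_fin, nsmul_eq_mul, Nat.cast_sub (by have := i.2; omega)]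
  simp

lemma hit_clique (hn : 2 ≤ n) (hm : m ≤ n) (b : Option (Fin n)) (w : SV m n) :
    hitTime (srw (SG m n)) w (inr b) ≤ ENNReal.ofReal (8 * n) := by
  have hn' : (2 : ℝ) ≤ n := by exact_mod_cast hn
  have hm' : (m : ℝ) ≤ n := by exact_mod_cast hm
  have hm0 : (0 : ℝ) ≤ m := by positivity
  let f : SV m n → ℝ
    | inl none => 4 * n + 2 * m + 1
    | inl (some _) => 4 * n + 2 * m + 2
    | inr a => if a = b then 0 else 4 * n
  refine (hitTime_le_of _ _ f ?_ ?_ w).trans (ENNReal.ofReal_le_ofReal ?_)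
  · rintro ((_ | a) | a) <;> simp only [f] <;> positivity
  · rintro ((_ | a) | (_ | a)) h
    · rw [Pr_centre, ← le_sub_iff_add_le', div_le_iff₀ (by positivity)]
      simp only [f, sum_const, card_univ, Fintype.card_fin, nsmul_eq_mul]
      split_ifs <;> nlinarith
    · rw [Pr_leaf]; simp only [f]; linarith
    · obtain ⟨j, rfl⟩ : ∃ j, b = some j := by
        cases b with
        | none => exact absurd rfl h
        | some j => exact ⟨j, rfl⟩
      rw [Pr_z, ← le_sub_iff_add_le', div_le_iff₀ (by positivity)]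
      simp only [f, Option.some.injEq, sum_ite_ne, reduceCtorEq, if_false]
      nlinarith
    · have hab : some a ≠ b := fun e => h (by rw [e])
      rw [Pr_y, ← le_sub_iff_add_le', div_le_iff₀ (by positivity)]
      cases b with
      | none =>
        simp only [f, reduceCtorEq, if_true, if_false, sum_const, card_univ, Fintype.card_fin,
          nsmul_eq_mul]
        nlinarith
      | some j =>
        simp only [f, Option.some.injEq, sum_ite_ne, reduceCtorEq, if_false] at hab ⊢
        rw [if_neg (by simpa using hab)]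
        nlinarith
  · rcases w with ((_ | a) | a) <;> simp only [f]
    · linarith
    · linarith
    · split_ifs <;> linarith

lemma hit_star (hn : 4 ≤ n) (hm : m ≤ n) (b : Option (Fin m)) (w : SV m n) :
    hitTime (srw (SG m n)) w (inl b) ≤ ENNReal.ofReal (4 * n ^ 2) := by
  have hn' : (4 : ℝ) ≤ n := by exact_mod_cast hn
  have hm' : (m : ℝ) ≤ n := by exact_mod_cast hm
  have hm0 : (0 : ℝ) ≤ m := by positivity
  set U : ℝ := 2 * m + n ^ 2 + n + 1 with hU
  let f : SV m n → ℝ
    | inl none => U
    | inl (some i) => if some i = b then 0 else U + 1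
    | inr none => U + n ^ 2 + n + 1
    | inr (some _) => U + n ^ 2 + 2 * n + 1
  refine (hitTime_le_of _ _ f ?_ ?_ w).trans (ENNReal.ofReal_le_ofReal ?_)
  · rintro ((_ | a) | (_ | a)) <;> simp only [f] <;> positivity
  · rintro ((_ | a) | (_ | a)) h
    · obtain ⟨j, rfl⟩ : ∃ j, b = some j := by
        cases b with
        | none => exact absurd rfl h
        | some j => exact ⟨j, rfl⟩
      rw [Pr_centre, ← le_sub_iff_add_le', div_le_iff₀ (by positivity)]
      simp only [f, Option.some.injEq, sum_ite_ne]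
      nlinarith
    · rw [Pr_leaf]; simp only [f]
      rw [if_neg (fun e => h (by rw [e]))]; linarith
    · rw [Pr_z, ← le_sub_iff_add_le', div_le_iff₀ (by positivity)]
      simp only [f, sum_const, card_univ, Fintype.card_fin, nsmul_eq_mul]
      nlinarith
    · rw [Pr_y, ← le_sub_iff_add_le', div_le_iff₀ (by positivity)]
      simp only [f, sum_const, card_univ, Fintype.card_fin, nsmul_eq_mul]
      nlinarith
  · rcases w with ((_ | a) | (_ | a)) <;> simp only [f]
    · nlinarith
    · split_ifs <;> nlinarith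
    · nlinarith
    · nlinarith

lemma maxHit_le (hn : 4 ≤ n) (hm : m ≤ n) : maxHit (srw (SG m n)) ≤ ENNReal.ofReal (4 * n ^ 2) := by
  refine iSup₂_le fun u v => ?_
  rcases v with b | b
  · exact hit_star hn hm b u
  · refine (hit_clique (by omega) hm b u).trans (ENNReal.ofReal_le_ofReal ?_)
    have hn' : (4 : ℝ) ≤ n := by exact_mod_cast hn
    nlinarith

def leaves (A : Finset (SV m n)) : Finset (Fin m) := univ.filter fun i => inl (some i) ∈ A

lemma leaves_erase_leaf (A : Finset (SV m n)) (i : Fin m) :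
    leaves (A.erase (inl (some i))) = (leaves A).erase i := by
  ext j; simp [leaves]

lemma le_maxCover_SG (hn : 1 ≤ n) :
    ENNReal.ofReal ((n : ℝ) ^ 2 * harmonic m) ≤ maxCover (srw (SG m n)) := by
  have hn' : (1 : ℝ) ≤ n := by exact_mod_cast hn
  let bonus : SV m n → ℝ
    | inl _ => 0
    | inr none => n ^ 2
    | inr (some _) => n ^ 2 + n
  let ψ : SV m n → ℕ → ℝ := fun w j => n ^ 2 * harmonic j + if j = 0 then 0 else bonus w
  have e1 : ∀ A : Finset (SV m n), leaves (A.erase (inl none)) = leaves A := fun A => by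
    ext j; simp [leaves]
  have e2 : ∀ (A : Finset (SV m n)) b, leaves (A.erase (inr b)) = leaves A := fun A b => by
    ext j; simp [leaves]
  have hH : ∀ j, (0 : ℝ) ≤ harmonic j := fun j => by
    have : (0 : ℚ) ≤ harmonic j := sum_nonneg fun _ _ => by positivity
    exact_mod_cast this
  have := le_maxCover (srw (SG m n)) (fun w A => ψ w (leaves (A.erase w)).card)
    (fun w A h => by simp [h, leaves, ψ]) (fun w A => ?_) (inl none)
  · simpa [ψ, bonus, e1, leaves] using this
  rcases w with ((_ | a) | (_ | a))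
  · rw [Pr_centre, ← sub_le_iff_le_add', le_div_iff₀ (by positivity)]
    simp only [e1, e2, leaves_erase_leaf]
    set L := leaves A
    rcases Nat.eq_zero_or_eq_succ_pred L.card with h | h
    · have : L = ∅ := card_eq_zero.1 h
      have h3 : (0 : ℝ) ≤ m := by positivity
      simp [this, ψ]
      linarith
    · set j := L.card.pred
      have h1 : ∑ i, ψ (inl (some i)) (L.erase i).card =
          (j + 1) * (n ^ 2 * harmonic j) + (m - (j + 1)) * (n ^ 2 * harmonic (j + 1)) := by
        rw [← sum_add_sum_compl L,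
          sum_congr rfl (g := fun _ => (n : ℝ) ^ 2 * harmonic j) fun i hi => by
            simp [ψ, bonus, card_erase_of_mem hi, h],
          sum_congr (s₂ := Lᶜ) rfl (g := fun _ => (n : ℝ) ^ 2 * harmonic (j + 1)) fun i hi => by
            simp [ψ, bonus, erase_eq_of_notMem (mem_compl.1 hi), h],
          sum_const, sum_const, card_compl, nsmul_eq_mul, nsmul_eq_mul,
          Nat.cast_sub (card_le_univ _), h]
        simp
      rw [h1, h]
      simp only [ψ, bonus, Nat.succ_eq_add_one, Nat.add_one_ne_zero, if_false, harmonic_succ]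
      push_cast
      have h2 : ((j : ℝ) + 1) * ((j : ℝ) + 1)⁻¹ = 1 := mul_inv_cancel₀ (by positivity)
      have h3 : (0 : ℝ) ≤ m := by positivity
      have h4 : (n : ℝ) ^ 2 * (((j : ℝ) + 1) * ((j : ℝ) + 1)⁻¹) = n ^ 2 := by rw [h2, mul_one]
      nlinarith
  · rw [Pr_leaf]
    simp [e1, ψ, bonus]
  · rw [Pr_z, ← sub_le_iff_le_add', le_div_iff₀ (by positivity)]
    simp only [e1, e2, ψ, bonus, sum_const, card_univ, Fintype.card_fin, nsmul_eq_mul]
    split_ifs <;> nlinarith
  · rw [Pr_y, ← sub_le_iff_le_add', le_div_iff₀ (by positivity)]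
    simp only [e2, ψ, bonus, sum_const, card_univ, Fintype.card_fin, nsmul_eq_mul]
    split_ifs <;> nlinarith

lemma avoid_leaf (i : Fin m) (j : ℕ) :
    (pathLaw (srw (SG m n)) (inl none) (avoid (inl (some i)) (2 * j))).toReal ≤
      1 / 2 + 1 / 2 * (((m : ℝ) - 1) / (m + 1)) ^ j := by
  have hm : (1 : ℝ) ≤ m := by have := i.2; exact_mod_cast (by omega : 1 ≤ m)
  induction j with
  | zero => norm_num; exact measureReal_le_one
  | succ j ih =>
    rw [show 2 * (j + 1) = 2 * j + 1 + 1 by ring, avoid_succ _ _ _ (by simp),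
      toReal_step _ _ _ fun _ => measure_ne_top _ _, Pr_centre, div_le_iff₀ (by positivity)]
    have h1 : ∑ i', (pathLaw (srw (SG m n)) (inl (some i'))
        (avoid (inl (some i)) (2 * j + 1))).toReal = (m - 1) *
          (pathLaw (srw (SG m n)) (inl none) (avoid (inl (some i)) (2 * j))).toReal := by
      rw [← sum_ite_ne i]
      refine sum_congr rfl fun i' _ => ?_
      split_ifs with h
      · rw [h, avoid_self]; rfl
      · rw [avoid_succ _ _ _ (by simpa using h), toReal_step _ _ _ fun _ => measure_ne_top _ _,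
          Pr_leaf]
    have h2 : (pathLaw (srw (SG m n)) (inr none) (avoid (inl (some i)) (2 * j + 1))).toReal ≤ 1 :=
      measureReal_le_one
    rw [h1, pow_succ]
    have h3 := mul_le_mul_of_nonneg_left ih (show (0 : ℝ) ≤ m - 1 by linarith)
    have h4 : ((m : ℝ) - 1) / (m + 1) * (m + 1) = m - 1 := by field_simp
    have h5 : (1 / 2 + 1 / 2 * ((((m : ℝ) - 1) / (m + 1)) ^ j * ((m - 1) / (m + 1)))) * (m + 1) =
        (m + 1) / 2 + 1 / 2 * (((m : ℝ) - 1) / (m + 1)) ^ j * (m - 1) := by
      field_simp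
    rw [h5]
    nlinarith

lemma avoid_leaf' (i : Fin m) (t : ℕ) (ht : 2 * m ≤ t) :
    pathLaw (srw (SG m n)) (inl none) (avoid (inl (some i)) t) ≤ ENNReal.ofReal (3 / 4) := by
  have hm : (1 : ℝ) ≤ m := by have := i.2; exact_mod_cast (by omega : 1 ≤ m)
  refine (measure_mono (avoid_anti _ ht)).trans ?_
  rw [← ofReal_measureReal]
  refine ENNReal.ofReal_le_ofReal ((avoid_leaf i m).trans ?_)
  have h1 : 1 + m * (2 / ((m : ℝ) + 1)) ≤ (1 + 2 / ((m : ℝ) + 1)) ^ m :=
    one_add_mul_le_pow (by have : 0 < 2 / ((m : ℝ) + 1) := by positivity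
                           linarith) _
  have h2 : (1 : ℝ) ≤ m * (2 / ((m : ℝ) + 1)) := by
    rw [← mul_div_assoc, le_div_iff₀ (by positivity)]; linarith
  have h3 : (((m : ℝ) - 1) / (m + 1)) ^ m * (1 + 2 / ((m : ℝ) + 1)) ^ m ≤ 1 := by
    rw [← mul_pow]
    refine pow_le_one₀ (mul_nonneg (div_nonneg (by linarith) (by positivity)) (by positivity)) ?_
    rw [show 1 + 2 / ((m : ℝ) + 1) = (m + 3) / (m + 1) by field_simp; ring, div_mul_div_comm,
      div_le_one (by positivity)]
    nlinarith
  have h4 : 0 ≤ (((m : ℝ) - 1) / (m + 1)) ^ m :=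
    pow_nonneg (div_nonneg (by linarith) (by positivity)) _
  nlinarith

lemma jointCover_SG (hn : 4 ≤ n) (hm : m ≤ n) (k s : ℕ) (hs : 2 ≤ s) :
    jointCover (srw (SG m n)) (fun _ : Fin (k + 2) => inl none) ≤
      ENNReal.ofReal (s * n + m * (3 / 4) ^ (k + 1) * (4 * n ^ 2) + (n + 1) * (8 / s * (8 * n))) := by
  have hn' : (4 : ℝ) ≤ n := by exact_mod_cast hn
  have hs' : (2 : ℝ) ≤ s := by exact_mod_cast hs
  refine (jointCover_le _ (k + 1) _ (s * n)).trans ?_
  rw [ENNReal.ofReal_add (by positivity) (by positivity),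
    ENNReal.ofReal_add (by positivity) (by positivity), add_assoc, Fintype.sum_sum_type,
    Fintype.sum_option]
  refine add_le_add (by rw [← Nat.cast_mul, ENNReal.ofReal_natCast]) (add_le_add ?_ ?_)
  · rw [avoid_self, zero_pow (by omega), zero_mul, zero_add]
    refine (sum_le_card_nsmul _ _ (ENNReal.ofReal ((3 / 4) ^ (k + 1) * (4 * n ^ 2)))
      fun i _ => ?_).trans (le_of_eq ?_)
    · rw [ENNReal.ofReal_mul (by positivity), ENNReal.ofReal_pow (by positivity)]
      gcongr
      · exact avoid_leaf' i _ (by nlinarith)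
      · exact hit_star hn hm _ _
    · rw [card_univ, Fintype.card_fin, nsmul_eq_mul, mul_assoc (m : ℝ),
        ENNReal.ofReal_mul (p := m) (by positivity), ENNReal.ofReal_natCast]
  · refine (sum_le_card_nsmul _ _ (ENNReal.ofReal (8 / s * (8 * n))) fun b _ => ?_).trans
      (le_of_eq ?_)
    · rw [ENNReal.ofReal_mul (by positivity)]
      have h1 := hit_clique (by omega) hm b (inl none)
      refine mul_le_mul' ((pow_le_of_le_one zero_le prob_le_one (by omega)).trans ?_) h1
      have h2 := (markov_avoid _ _ _ (s * n)).trans h1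
      rw [← ofReal_measureReal, ← ENNReal.ofReal_natCast, ← ENNReal.ofReal_mul (by positivity),
        ENNReal.ofReal_le_ofReal_iff (by positivity)] at h2
      rw [← ofReal_measureReal]
      refine ENNReal.ofReal_le_ofReal ?_
      rw [le_div_iff₀ (by positivity)]
      push_cast at h2
      nlinarith
    · rw [card_univ, Fintype.card_option, Fintype.card_fin, nsmul_eq_mul,
        ENNReal.ofReal_mul (p := n + 1) (by positivity), ← ENNReal.ofReal_natCast]
      push_cast
      rfl

lemma maxHit_pos : 1 ≤ maxHit (srw (SG m n)) := by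
  refine le_iSup₂_of_le (inl none) (inr none) ?_
  rw [hitTime_eq, ← avoid_zero (srw (SG m n)) (inl none) (inr none) (by simp)]
  exact ENNReal.le_tsum 0

theorem superlinear (α c H₀ : ℝ) (hα : 0 < α) (hc : 0 < c) : ∃ m n k : ℕ,
    maxCover (srw (SG m n)) ≠ ⊤ ∧ maxHit (srw (SG m n)) ≠ ⊤ ∧
    H₀ ≤ (maxCover (srw (SG m n)) / maxHit (srw (SG m n))).toReal ∧
    ((k + 2 : ℕ) : ℝ) ≤ Real.exp (α * (maxCover (srw (SG m n)) / maxHit (srw (SG m n))).toReal) ∧
    ENNReal.ofReal c * (k + 2 : ℕ) * jointCover (srw (SG m n)) (fun _ : Fin (k + 2) => inl none) <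
      maxCover (srw (SG m n)) := by
  obtain ⟨p, hp⟩ := exists_nat_ge (4 / α + 1)
  have hp1 : (1 : ℝ) ≤ p := by have : 0 < 4 / α := by positivity
                               linarith
  obtain ⟨k, hk1, hk2⟩ : ∃ k : ℕ, 4 * H₀ ≤ Real.log (k + 2 : ℕ) ∧
      ((k + 2 : ℕ) : ℝ) ^ (p + 1) * (3 / 4) ^ (k + 2) < 1 / (32 * c) := by
    have t1 := (Real.tendsto_log_atTop.comp tendsto_natCast_atTop_atTop).comp
      (tendsto_add_atTop_nat 2)
    have t2 := (tendsto_pow_const_mul_const_pow_of_abs_lt_one (p + 1) (r := 3 / 4)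
      (by rw [abs_lt]; constructor <;> norm_num)).comp (tendsto_add_atTop_nat 2)
    exact ((t1.eventually_ge_atTop _).and (t2.eventually_lt_const (by positivity))).exists
  set K : ℝ := ((k + 2 : ℕ) : ℝ) with hK
  have hK2 : (2 : ℝ) ≤ K := by rw [hK]; push_cast; linarith [Nat.cast_nonneg (α := ℝ) k]
  set m := (k + 2) ^ p with hm
  obtain ⟨s, hs⟩ := exists_nat_ge (2 + 512 * c * K)
  obtain ⟨n, hn⟩ := exists_nat_ge (4 + m + 4 * c * K * s)
  have hcK : 0 < c * K := by positivity
  have hm0 : (0 : ℝ) ≤ m := by positivity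
  have hs0 : (2 : ℝ) ≤ s := by nlinarith
  have hcKs : 0 ≤ 4 * c * K * s := by positivity
  have hn4 : 4 ≤ n := by exact_mod_cast (by linarith : (4 : ℝ) ≤ n)
  have hn4' : (4 : ℝ) ≤ n := by linarith
  have hmn : m ≤ n := by exact_mod_cast (by linarith : (m : ℝ) ≤ n)
  have h1 := maxHit_le hn4 hmn
  have h2 : maxHit (srw (SG m n)) ≠ ⊤ := ne_top_of_le_ne_top ENNReal.ofReal_ne_top h1
  have h3 := maxCover_ne_top _ h2
  have h4 := le_maxCover_SG (m := m) (n := n) (by omega)
  have hlog : p * Real.log K ≤ harmonic m := by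
    refine le_trans ?_ (log_add_one_le_harmonic m)
    rw [← Real.log_pow]
    refine Real.log_le_log (by positivity) ?_
    rw [hK, hm]; push_cast; linarith
  have hlogK : 0 < Real.log K := Real.log_pos (by linarith)
  have h5 : p * Real.log K / 4 ≤ (maxCover (srw (SG m n)) / maxHit (srw (SG m n))).toReal := by
    rw [ENNReal.toReal_div, le_div_iff₀ (ENNReal.toReal_pos
      (lt_of_lt_of_le zero_lt_one maxHit_pos).ne' h2)]
    have a1 := ENNReal.toReal_le_of_le_ofReal (by positivity) h1
    have a2 := (ENNReal.ofReal_le_iff_le_toReal h3).1 h4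
    have a3 : 0 ≤ p * Real.log K / 4 := by positivity
    have a4 := mul_le_mul_of_nonneg_left a1 a3
    nlinarith [sq_nonneg (n : ℝ)]
  refine ⟨m, n, k, h3, h2, by nlinarith, ?_, ?_⟩
  · rw [← Real.log_le_iff_le_exp (by positivity)]
    have a1 : 4 ≤ p * α := by
      have : 4 / α ≤ p := by linarith
      rwa [div_le_iff₀ hα] at this
    nlinarith
  · refine lt_of_le_of_lt (mul_le_mul_right (jointCover_SG hn4 hmn k s
      (by exact_mod_cast hs0)) _) (lt_of_lt_of_le ?_ h4)
    have hH : (1 : ℝ) / 2 ≤ harmonic m := by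
      have := Real.log_two_gt_d9
      have := Real.log_le_log (by norm_num) hK2
      nlinarith
    have hH1 : (1 : ℝ) ≤ harmonic m := by
      have : harmonic 1 ≤ harmonic m := by
        unfold harmonic
        exact sum_le_sum_of_subset_of_nonneg (range_mono (Nat.one_le_pow _ _ (by omega)))
          fun _ _ _ => by positivity
      simpa using (show ((harmonic 1 : ℚ) : ℝ) ≤ harmonic m by exact_mod_cast this)
    rw [← ENNReal.ofReal_natCast, ← ENNReal.ofReal_mul hc.le, ← ENNReal.ofReal_mul hcK.le,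
      ENNReal.ofReal_lt_ofReal_iff (by positivity)]
    have b1 : c * K * (s * n) ≤ n ^ 2 / 4 := by nlinarith
    have b2 : c * K * (m * (3 / 4) ^ (k + 1) * (4 * n ^ 2)) ≤ n ^ 2 / 4 := by
      have e : (m : ℝ) = K ^ p := by rw [hm, hK]; push_cast; rfl
      rw [lt_div_iff₀ (by positivity), pow_succ K, pow_succ (3 / 4 : ℝ) (k + 1), ← e] at hk2
      have : c * K * (m * (3 / 4) ^ (k + 1)) ≤ 1 / 16 := by nlinarith
      nlinarith [sq_nonneg (n : ℝ)]
    have b3 : c * K * ((n + 1) * (8 / s * (8 * n))) ≤ n ^ 2 / 4 := by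
      have : c * K * (8 / s) ≤ 1 / 64 := by
        rw [← mul_div_assoc, div_le_iff₀ (by positivity)]; linarith
      have e : c * K * ((n + 1) * (8 / s * (8 * n))) = c * K * (8 / s) * (8 * n * (n + 1)) := by
        ring
      rw [e]
      have := mul_le_mul_of_nonneg_right this (show (0 : ℝ) ≤ 8 * n * (n + 1) by positivity)
      nlinarith
    have b4 : (n : ℝ) ^ 2 ≤ n ^ 2 * harmonic m := le_mul_of_one_le_right (by positivity) hH1
    have b5 : (0 : ℝ) < n ^ 2 := by positivity
    rw [mul_add, mul_add]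
    linarith

end Pool.Agent.H45.Chain
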