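import Mathlib

/-! Sharpness for oriented site percolation by Swart's harmonic-function argument (dual form). -/

open Finset Filter Topology Pointwise

namespace Pool.Agent.H45.Swart

variable {G : Type*} [DecidableEq G]

/-- thinning: each point is deleted with probability `θ` -/
noncomputable def Th (θ : ℝ) (g : Finset G → ℝ) (A : Finset G) : ℝ :=
  ∑ B ∈ A.powerset, θ ^ (A \ B).card * (1 - θ) ^ B.card * g B

@[simp] lemma Th_empty (θ : ℝ) (g : Finset G → ℝ) : Th θ g ∅ = g ∅ := by simp [Th]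

lemma Th_insert (θ : ℝ) (g : Finset G → ℝ) {z : G} {A : Finset G} (h : z ∉ A) :
    Th θ g (insert z A) = θ * Th θ g A + (1 - θ) * Th θ (fun B => g (insert z B)) A := by
  simp only [Th, sum_powerset_insert h, mul_sum]
  congr 1 <;> refine sum_congr rfl fun B hB => ?_ <;> have hz : z ∉ B := fun e => h (mem_powerset.1 hB e)
  · rw [insert_sdiff_of_notMem _ hz, card_insert_of_notMem (by simp [h])]; ring
  · rw [insert_sdiff_insert, sdiff_insert_of_notMem h, card_insert_of_notMem hz]; ring

lemma Th_mono {θ : ℝ} (h : θ ∈ Set.Icc (0 : ℝ) 1) {f g : Finset G → ℝ} (e : f ≤ g) : Th θ f ≤ Th θ g :=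
  fun _ => sum_le_sum fun B _ => mul_le_mul_of_nonneg_left (e B)
    (mul_nonneg (pow_nonneg h.1 _) (pow_nonneg (sub_nonneg.2 h.2) _))

lemma Th_const (θ c : ℝ) (A : Finset G) : Th θ (fun _ => c) A = c := by
  induction A using Finset.induction with
  | empty => simp
  | insert z A h ih => rw [Th_insert _ _ h, ih]; ring

lemma Th_add (θ : ℝ) (f g : Finset G → ℝ) (A : Finset G) : Th θ (fun B => f B + g B) A = Th θ f A + Th θ g A := by
  simp only [Th, mul_add, sum_add_distrib]

lemma Th_inter (θ : ℝ) (g : Finset G → ℝ) (A U : Finset G) : Th θ (fun B => g (A ∩ B)) U = Th θ g (A ∩ U) := by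
  induction U using Finset.induction generalizing g with
  | empty => simp
  | insert z U h ih =>
    rw [Th_insert _ _ h]
    by_cases e : z ∈ A
    · simp only [inter_insert_of_mem e]
      rw [Th_insert _ _ (by simp [h]), ih, ih fun B => g (insert z B)]
    · simp only [inter_insert_of_notMem e]
      rw [ih]; ring

lemma Th_image (θ : ℝ) (g : Finset G → ℝ) {φ : G → G} (hφ : φ.Injective) (A : Finset G) :
    Th θ g (A.image φ) = Th θ (fun B => g (B.image φ)) A := by
  induction A using Finset.induction generalizing g with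
  | empty => simp
  | insert z A h ih =>
    rw [image_insert, Th_insert _ _ (by simpa [hφ.eq_iff] using h), Th_insert _ _ h, ih, ih]
    simp only [image_insert]

lemma Th_exp {θ θ' ε c : ℝ} (h : θ ∈ Set.Icc (0 : ℝ) 1) (h' : θ' ∈ Set.Icc (0 : ℝ) 1) (e0 : 0 ≤ ε)
    (e1 : ε * c ≤ θ' - θ) (A : Finset G) (g : Finset G → ℝ) (g1 : Monotone g) (g2 : ∀ z B, g (insert z B) ≤ g B + c) :
    Th θ (fun B => Real.exp (-(ε * g B))) A ≤ Real.exp (-(ε * Th θ' g A)) := by
  induction A using Finset.induction generalizing g with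
  | empty => simp
  | insert z A hz ih =>
    rw [Th_insert _ _ hz, Th_insert _ _ hz]
    have i1 := ih g g1 g2
    have i2 := ih (fun B => g (insert z B)) (fun _ _ e => g1 (insert_subset_insert _ e)) fun y B => by
      rw [insert_comm]; exact g2 _ _
    have a1 := Th_mono h' (f := g) (g := fun B => g (insert z B)) (fun B => g1 (subset_insert _ _)) A
    have a2 := Th_mono h' (f := fun B => g (insert z B)) (g := fun B => g B + c) (fun B => g2 _ _) A
    rw [Th_add, Th_const] at a2
    generalize Th θ' (fun B => g (insert z B)) A = b at *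
    generalize Th θ' g A = a at *
    obtain ⟨x, hx⟩ : ∃ x, x = ε * (b - a) := ⟨_, rfl⟩
    have x0 : 0 ≤ x := by rw [hx]; exact mul_nonneg e0 (by linarith)
    have x1 : x ≤ θ' - θ := by rw [hx]; nlinarith
    have k1 : Real.exp (-x) ≤ 1 - x + x ^ 2 := by
      rw [Real.exp_neg, inv_le_iff_one_le_mul₀ (Real.exp_pos _)]
      nlinarith [Real.add_one_le_exp x, mul_nonneg x0 (mul_nonneg x0 x0), sq_nonneg (x - 1 / 2)]
    have k2 := Real.add_one_le_exp (-((1 - θ') * x))
    have k3 : θ + (1 - θ) * Real.exp (-x) ≤ Real.exp (-((1 - θ') * x)) := by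
      nlinarith [h.1, h.2, mul_le_mul_of_nonneg_left k1 (sub_nonneg.2 h.2), mul_nonneg h.1 (sq_nonneg x)]
    rw [show -(ε * b) = -(ε * a) + -x by rw [hx]; ring, Real.exp_add] at i2
    rw [show -(ε * (θ' * a + (1 - θ') * b)) = -(ε * a) + -((1 - θ') * x) by rw [hx]; ring, Real.exp_add]
    nlinarith [mul_le_mul_of_nonneg_left i1 h.1, mul_le_mul_of_nonneg_left i2 (sub_nonneg.2 h.2),
      mul_le_mul_of_nonneg_left k3 (Real.exp_pos (-(ε * a))).le]

variable [AddCommGroup G] (V : Finset G)

/-- one step of the dual chain -/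
noncomputable def K (θ : ℝ) : Module.End ℝ (Finset G → ℝ) where
  toFun f := Th θ fun B => f (B + V)
  map_add' f g := funext fun A => Th_add _ _ _ A
  map_smul' c f := funext fun A => by simp [Th, mul_sum, mul_left_comm]

variable {V} {θ θ' : ℝ}

lemma K_mono (h : θ ∈ Set.Icc (0 : ℝ) 1) (t : ℕ) {f g : Finset G → ℝ} (e : f ≤ g) : (K V θ ^ t) f ≤ (K V θ ^ t) g := by
  induction t with
  | zero => exact e
  | succ t ih => rw [pow_succ']; exact Th_mono h fun B => ih _

lemma K_const (t : ℕ) (c : ℝ) : (K V θ ^ t) (fun _ => c) = fun _ => c := by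
  induction t with
  | zero => rfl
  | succ t ih => rw [pow_succ', Module.End.mul_apply, ih]; exact funext fun A => Th_const _ _ A

/-- monotone, subadditive, translation invariant -/
structure Nice (f : Finset G → ℝ) : Prop where
  mono : Monotone f
  sub : ∀ A B, f (A ∪ B) ≤ f A + f B
  zero : f ∅ = 0
  inv : ∀ s A, f ({s} + A) = f A

lemma Nice.le {f : Finset G → ℝ} (h : Nice f) (A : Finset G) : f A ≤ f {0} * A.card := by
  induction A using Finset.induction with
  | empty => simp [h.zero]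
  | insert z A hz ih =>
    have := h.inv z {0}
    rw [card_insert_of_notMem hz, insert_eq]
    simp at this ⊢
    have := h.sub {z} A
    simp at this
    linarith

lemma Nice.nn {f : Finset G → ℝ} (h : Nice f) (A : Finset G) : 0 ≤ f A := h.zero ▸ h.mono (empty_subset A)

lemma Nice.K {f : Finset G → ℝ} (hf : Nice f) (h : θ ∈ Set.Icc (0 : ℝ) 1) : Nice (K V θ f) := by
  refine ⟨fun A B e => ?_, fun A B => ?_, by simp [Swart.K, hf.zero], fun s A => ?_⟩
  · have := Th_inter θ (fun B => f (B + V)) A B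
    rw [inter_eq_left.2 e] at this
    exact this.symm.trans_le (Th_mono h (fun C => hf.mono (add_subset_add_right inter_subset_right)) B)
  · have a := Th_inter θ (fun B => f (B + V)) A (A ∪ B)
    have b := Th_inter θ (fun B => f (B + V)) B (A ∪ B)
    have c := Th_inter θ (fun B => f (B + V)) (A ∪ B) (A ∪ B)
    rw [inter_eq_left.2 (by simp)] at a b c
    show Th _ _ _ ≤ Th _ _ _ + Th _ _ _
    rw [← a, ← b, ← c, ← Th_add]
    exact Th_mono h (fun C => by simp only [union_inter_distrib_right, union_add]; exact hf.sub _ _) _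
  · show Th _ _ _ = Th _ _ _
    have e : ∀ B : Finset G, {s} + B = B.image (s + ·) := fun B => by rw [singleton_add]; rfl
    rw [e, Th_image _ _ (add_right_injective s)]
    simp only [← e, add_assoc, hf.inv]

lemma Nice.exp {f : Finset G → ℝ} (hf : Nice f) (h : θ ∈ Set.Icc (0 : ℝ) 1) (h' : θ' ∈ Set.Icc (0 : ℝ) 1) {ε : ℝ}
    (e0 : 0 ≤ ε) (e1 : ε * (f {0} * V.card) ≤ θ' - θ) :
    Swart.K V θ (fun B => Real.exp (-(ε * f B))) ≤ fun A => Real.exp (-(ε * Swart.K V θ' f A)) := fun A =>
  Th_exp h h' e0 e1 A (fun B => f (B + V)) (fun _ _ e => hf.mono (add_subset_add_right e)) fun z B => by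
    have := hf.sub ({z} + V) (B + V)
    rw [← union_add, ← insert_eq, hf.inv] at this
    linarith [hf.le V]

variable (V θ) in
/-- expected size of the dual chain at time `t` -/
noncomputable def m (t : ℕ) : Finset G → ℝ := (K V θ ^ t) fun A => A.card

variable (V θ) in
/-- generating function of the dual chain at time `t` -/
noncomputable def gf (t : ℕ) (p : ℝ) : Finset G → ℝ := (K V θ ^ t) fun A => p ^ A.card

lemma m_succ (t : ℕ) : m V θ (t + 1) = K V θ (m V θ t) := by rw [m, pow_succ']; rfl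

lemma m_nice (h : θ ∈ Set.Icc (0 : ℝ) 1) (t : ℕ) : Nice (m V θ t) := by
  induction t with
  | zero => exact ⟨fun A B e => Nat.cast_le.2 (card_le_card e), fun A B => by simpa [m] using mod_cast card_union_le A B,
      by simp [m], fun s A => by simp [m]⟩
  | succ t ih => rw [m_succ]; exact ih.K h

lemma m_add (h : θ ∈ Set.Icc (0 : ℝ) 1) (s t : ℕ) : m V θ (s + t) {0} ≤ m V θ t {0} * m V θ s {0} := by
  have := K_mono (V := V) h s (f := m V θ t) (g := m V θ t {0} • fun A => A.card) ((m_nice h t).le) {0}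
  rw [map_smul] at this
  rw [m, pow_add]; exact this

lemma m_lim (h : θ ∈ Set.Icc (0 : ℝ) 1) {T : ℕ} (e : m V θ T {0} < 1) : Tendsto (m V θ · {0}) atTop (𝓝 0) := by
  have T0 : 0 < T := Nat.pos_of_ne_zero fun e' => by simp [e', m] at e
  have nn := fun t => (m_nice (V := V) h t).nn {0}
  have b : ∀ k r, m V θ (T * k + r) {0} ≤ m V θ T {0} ^ k * m V θ r {0} := fun k r => by
    induction k with
    | zero => simp
    | succ k ih =>
      rw [show T * (k + 1) + r = T * k + r + T by ring, pow_succ', mul_assoc]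
      exact (m_add h _ _).trans (mul_le_mul_of_nonneg_left ih (nn _))
  refine squeeze_zero nn (g := fun t => m V θ T {0} ^ (t / T) * ∑ r ∈ range T, m V θ r {0}) (fun t => ?_) ?_
  · conv_lhs => rw [← Nat.div_add_mod t T]
    exact (b _ _).trans (mul_le_mul_of_nonneg_left (single_le_sum (fun r _ => nn r)
      (mem_range.2 (Nat.mod_lt _ T0))) (pow_nonneg (nn _) _))
  · simpa using ((tendsto_pow_atTop_nhds_zero_of_lt_one (nn _) e).comp (Nat.tendsto_div_const_atTop T0.ne')).mul_const _

lemma gf_ge (h : θ ∈ Set.Icc (0 : ℝ) 1) (t : ℕ) {p : ℝ} (hp : 0 ≤ p) (A : Finset G) :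
    1 - (1 - p) * m V θ t A ≤ gf V θ t p A := by
  have := K_mono (V := V) h t (f := (fun _ => 1) - (1 - p) • fun A => A.card) (g := fun A => p ^ A.card)
    (fun A => by simpa [mul_comm, sub_eq_add_neg, mul_add, add_assoc] using
      one_add_mul_le_pow (a := p - 1) (by linarith) A.card) A
  rwa [map_sub, map_smul, K_const] at this

lemma gf_mono (h : θ ∈ Set.Icc (0 : ℝ) 1) (t : ℕ) {p q : ℝ} (hp : 0 ≤ p) (e : p ≤ q) : gf V θ t p ≤ gf V θ t q :=
  K_mono h t fun _ => pow_le_pow_left₀ hp e _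

lemma gf_mem (h : θ ∈ Set.Icc (0 : ℝ) 1) (t : ℕ) {p : ℝ} (hp : p ∈ Set.Icc (0 : ℝ) 1) (A : Finset G) :
    gf V θ t p A ∈ Set.Icc (0 : ℝ) 1 :=
  ⟨(congrFun (K_const t 0) A).symm.trans_le (K_mono h t (fun _ => pow_nonneg hp.1 _) A),
    (K_mono h t (fun _ => pow_le_one₀ hp.1 hp.2) A).trans_eq (congrFun (K_const t 1) A)⟩

/-- a subcritical chaos iteration forces mean offspring `< 1` at any larger parameter -/
lemma fix (h : θ ∈ Set.Icc (0 : ℝ) 1) (h' : θ' ∈ Set.Icc (0 : ℝ) 1) (l : θ < θ') {T : ℕ} (e : 1 ≤ m V θ' T {0}) :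
    ∃ q ∈ Set.Ico (0 : ℝ) 1, gf V θ T q {0} ≤ q := by
  have nn := fun t => (m_nice (V := V) h' t).nn {0}
  set C := ∑ r ∈ range T, m V θ' r {0} * V.card + 1
  have C0 : 0 < C := add_pos_of_nonneg_of_pos (sum_nonneg fun r _ => mul_nonneg (nn r) (Nat.cast_nonneg _)) one_pos
  set ε := (θ' - θ) / C
  have e0 : 0 < ε := div_pos (sub_pos.2 l) C0
  have : ∀ t ≤ T, gf V θ t (Real.exp (-ε)) ≤ fun A => Real.exp (-(ε * m V θ' t A)) := fun t ht => by
    induction t with
    | zero => exact fun A => by simp [gf, m, ← Real.exp_nat_mul, mul_comm]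
    | succ t ih =>
      rw [m_succ, gf, pow_succ']
      refine (K_mono h 1 (ih (by omega))).trans ((m_nice h' t).exp h h' e0.le ?_)
      rw [div_mul_eq_mul_div, div_le_iff₀ C0]
      exact mul_le_mul_of_nonneg_left ((single_le_sum (f := fun r => m V θ' r {0} * V.card) (fun r _ => mul_nonneg (nn r) (Nat.cast_nonneg _))
          (mem_range.2 ht)).trans (by simp [C])) (by linarith)
  exact ⟨_, ⟨(Real.exp_pos _).le, Real.exp_lt_one_iff.2 (by linarith)⟩,
    (this T le_rfl {0}).trans (Real.exp_le_exp.2 (by nlinarith))⟩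

/-- sharpness -/
lemma sharp (h : θ ∈ Set.Icc (0 : ℝ) 1) (h' : θ' ∈ Set.Icc (0 : ℝ) 1) (l : θ < θ') (e : ∀ t, 1 ≤ m V θ' t {0}) :
    ∃ q < 1, ∀ t, gf V θ t 0 {0} ≤ q := by
  set ε := (θ' - θ) / (V.card + 1)
  have e0 : 0 < ε := div_pos (sub_pos.2 l) (by positivity)
  refine ⟨Real.exp (-ε), Real.exp_lt_one_iff.2 (by linarith), fun T => ?_⟩
  refine ge_of_tendsto (by simpa using (tendsto_const_div_atTop_nhds_zero_nat
    (ε * ∑ t ∈ range T, m V θ t {0})).const_add (Real.exp (-ε))) ((eventually_gt_atTop 0).mono fun N N0 => ?_)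
  have N1 : (0 : ℝ) < N := Nat.cast_pos.2 N0
  set Z := ∑ t ∈ range N, m V θ' t {0} with hZ
  have Z1 : N ≤ Z := by simpa using sum_le_sum fun t (_ : t ∈ range N) => e t
  set H : Finset G → ℝ := Z⁻¹ • ∑ t ∈ range N, m V θ' t with hH
  have Z0 : 0 ≤ Z⁻¹ := inv_nonneg.2 (by linarith)
  have n := m_nice (V := V) h'
  have H1 : Nice H := by
    refine ⟨fun A B e => ?_, fun A B => ?_, ?_, fun s A => ?_⟩ <;> simp only [hH, Pi.smul_apply, Finset.sum_apply, smul_eq_mul]
    · exact mul_le_mul_of_nonneg_left (sum_le_sum fun t _ => (n t).mono e) Z0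
    · rw [← mul_add, ← sum_add_distrib]; exact mul_le_mul_of_nonneg_left (sum_le_sum fun t _ => (n t).sub _ _) Z0
    · simp [(n _).zero]
    · simp [(n _).inv]
  have H0 : H {0} = 1 := by simp only [hH, Pi.smul_apply, Finset.sum_apply, smul_eq_mul]; exact inv_mul_cancel₀ (by linarith)
  have H2 : ∀ A, H A - A.card / N ≤ K V θ' H A := fun A => by
    have := sum_range_succ' (fun t => m V θ' t A) N
    rw [sum_range_succ] at this
    simp only [hH, map_smul, map_sum, ← m_succ, Pi.smul_apply, Finset.sum_apply, smul_eq_mul]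
    have k : Z⁻¹ * A.card ≤ A.card / N := by rw [div_eq_inv_mul]; gcongr
    have : m V θ' 0 A = A.card := rfl
    nlinarith [mul_nonneg Z0 ((n N).nn A)]
  set f : Finset G → ℝ := fun A => Real.exp (-(ε * H A))
  have f1 : K V θ f ≤ f + (ε / N) • fun A => A.card := fun A => by
    refine (H1.exp h h' e0.le (by rw [H0, div_mul_eq_mul_div, div_le_iff₀ (by positivity)]; nlinarith) A).trans ?_
    have a := mul_le_mul_of_nonneg_left (H2 A) e0.le
    have b := mul_nonneg e0.le ((H1.K (V := V) h').nn A)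
    have c := Real.add_one_le_exp (ε * K V θ' H A - ε * H A)
    have d := Real.exp_le_one_iff.2 (neg_nonpos.2 b)
    have g : f A = Real.exp (-(ε * K V θ' H A)) * Real.exp (ε * K V θ' H A - ε * H A) := by
      rw [← Real.exp_add]; exact congrArg Real.exp (by ring)
    have i : 0 ≤ ε * (A.card / N) := by positivity
    simp only [Pi.add_apply, Pi.smul_apply, smul_eq_mul, g]
    rw [show ε / N * A.card = ε * (A.card / N) by ring]
    nlinarith [Real.exp_pos (-(ε * K V θ' H A))]
  have f2 : ∀ t, (K V θ ^ t) f ≤ f + (ε / N) • ∑ r ∈ range t, m V θ r := fun t => by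
    induction t with
    | zero => simp
    | succ t ih =>
      rw [pow_succ, sum_range_succ, smul_add, ← add_assoc]
      refine (K_mono h t f1).trans ?_
      rw [map_add, map_smul]; exact add_le_add_left ih _
  refine ((K_mono h T (g := f) (fun A => ?_) {0}).trans (f2 T {0})).trans_eq ?_
  · rcases A.eq_empty_or_nonempty with rfl | a
    · simp [f, H1.zero]
    · simp [f, a.card_ne_zero, (Real.exp_pos _).le]
  · simp [f, H0, Finset.sum_apply]; ring

end Pool.Agent.H45.Swart
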