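import Mathlib

open Finset Matrix Real Equiv

namespace Pool.Agent.H45.TP

/-- the minor of a kernel -/
noncomputable def mn {α β : Type*} {n : ℕ} (K : α → β → ℝ) (x : Fin n → α) (y : Fin n → β) : ℝ :=
  (Matrix.of fun i j => K (x i) (y j)).det

lemma permR {α β : Type*} {n : ℕ} (K : α → β → ℝ) (x : Fin n → α) (y : Fin n → β) (σ : Perm (Fin n)) :
    mn K x (y ∘ σ) = Perm.sign σ * mn K x y := det_permute' σ (Matrix.of fun i j => K (x i) (y j))

lemma permL {α β : Type*} {n : ℕ} (K : α → β → ℝ) (x : Fin n → α) (y : Fin n → β) (σ : Perm (Fin n)) :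
    mn K (x ∘ σ) y = Perm.sign σ * mn K x y := det_permute σ (Matrix.of fun i j => K (x i) (y j))

/-- Cauchy–Binet, symmetrised -/
lemma cb {α β ι : Type*} [Fintype ι] {n : ℕ} (P : α → ι → ℝ) (Q : ι → β → ℝ) (x : Fin n → α) (y : Fin n → β) :
    n.factorial * mn (fun a b => ∑ k, P a k * Q k b) x y = ∑ f : Fin n → ι, mn P x f * mn Q f y := by
  classical
  have e1 : mn (fun a b => ∑ k, P a k * Q k b) x y = ∑ f : Fin n → ι, mn P x f * ∏ i, Q (f i) (y i) := by
    simp only [mn, det_apply', of_apply, prod_univ_sum, mul_sum, Fintype.piFinset_univ, sum_mul]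
    rw [sum_comm]
    simp only [prod_mul_distrib, mul_assoc]
  have e2 : ∀ τ : Perm (Fin n), mn (fun a b => ∑ k, P a k * Q k b) x y =
      ∑ f : Fin n → ι, mn P x f * (Perm.sign τ * ∏ i, Q (f (τ i)) (y i)) := fun τ => by
    rw [e1]
    refine (Fintype.sum_equiv (Equiv.arrowCongr τ.symm (Equiv.refl ι)) _ _ fun f => ?_).symm
    rw [show (Equiv.arrowCongr τ.symm (Equiv.refl ι)) f = f ∘ τ from rfl, permR]
    simp only [Function.comp]; ring
  have := sum_congr (rfl : (univ : Finset (Perm (Fin n))) = univ) fun τ _ => e2 τ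
  rw [sum_const, card_univ, Fintype.card_perm, Fintype.card_fin, nsmul_eq_mul] at this
  rw [this, sum_comm]
  simp only [← mul_sum, mn, det_apply', of_apply]

lemma cb_le {α β : Type*} {n : ℕ} (S : Finset ℝ) (P : α → ℝ → ℝ) (Q : ℝ → β → ℝ) (x : Fin n → α) (y : Fin n → β)
    (h : ∀ f : Fin n → ℝ, StrictMono f → (∀ i, f i ∈ S) → 0 ≤ mn P x f * mn Q f y) :
    0 ≤ mn (fun a b => ∑ k ∈ S, P a k * Q k b) x y ∧ ∀ f : Fin n → ℝ, (∀ i, f i ∈ S) →
      mn P x f * mn Q f y ≤ n.factorial * mn (fun a b => ∑ k ∈ S, P a k * Q k b) x y := by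
  have e := cb (fun a (k : S) => P a k) (fun (k : S) b => Q k b) x y
  rw [show (fun a b => ∑ k : S, P a k * Q k b) = fun a b => ∑ k ∈ S, P a k * Q k b from
    funext₂ fun a b => sum_coe_sort S fun k => P a k * Q k b] at e
  have p : ∀ f : Fin n → S, 0 ≤ mn (fun a (k : S) => P a k) x f * mn (fun (k : S) b => Q k b) f y := fun f => by
    by_cases hf : Function.Injective f
    · have := h (fun i => f (Tuple.sort f i)) (fun i j hij => ((Tuple.monotone_sort f).strictMono_of_injective
        (hf.comp (Tuple.sort f).injective)) hij) fun i => (f _).2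
      change 0 ≤ mn (fun a (k : S) => P a k) x (f ∘ Tuple.sort f) *
        mn (fun (k : S) b => Q k b) (f ∘ Tuple.sort f) y at this
      rw [permR, permL] at this
      rcases Int.units_eq_one_or (Perm.sign (Tuple.sort f)) with s | s <;> simpa [s] using this
    · simp only [Function.Injective, not_forall] at hf
      obtain ⟨i, j, e, ne⟩ := hf
      rw [mn, det_zero_of_column_eq ne fun k => by simp [e], zero_mul]
  refine ⟨nonneg_of_mul_nonneg_right (e ▸ sum_nonneg fun f _ => p f) (by positivity), fun f hf => ?_⟩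
  rw [e]
  exact single_le_sum (fun f _ => p f) (mem_univ fun i => (⟨f i, hf i⟩ : S))

lemma scale {α β : Type*} {n : ℕ} (K : α → β → ℝ) (a : α → ℝ) (b : β → ℝ) (x : Fin n → α) (y : Fin n → β) :
    mn (fun s t => a s * K s t * b t) x y = (∏ i, a (x i)) * (∏ i, b (y i)) * mn K x y := by
  simp only [mn, det_apply', of_apply, prod_mul_distrib, mul_sum]
  exact sum_congr rfl fun σ _ => by rw [Equiv.prod_comp σ fun i => a (x i)]; ring

lemma zeros : ∀ (n : ℕ) (c x y : Fin n → ℝ), StrictMono x → Function.Injective y →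
    (∀ i, ∑ j, exp (x i * y j) * c j = 0) → c = 0
  | 0, _, _, _, _, _, _ => Subsingleton.elim _ _
  | n + 1, c, x, y, hx, hy, h => by
    let F : ℝ → ℝ := fun t => ∑ j, exp (t * (y j - y 0)) * c j
    have F0 : ∀ i, F (x i) = 0 := fun i => by
      have := congrArg (exp (-(x i * y 0)) * ·) (h i)
      simp only [mul_sum, mul_zero, ← mul_assoc, ← exp_add] at this
      rw [← this]; exact sum_congr rfl fun j _ => by ring_nf
    have D : ∀ t, HasDerivAt F (∑ j, exp (t * (y j - y 0)) * (y j - y 0) * c j) t := fun t =>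
      HasDerivAt.fun_sum fun j _ => by
        simpa using (((hasDerivAt_id t).mul_const (y j - y 0)).exp).mul_const (c j)
    choose ξ h1 h2 using fun i : Fin n => exists_hasDerivAt_eq_zero (hx (Fin.castSucc_lt_succ (i := i)))
      (fun t _ => (D t).continuousAt.continuousWithinAt) ((F0 _).trans (F0 _).symm) fun t _ => D t
    have := zeros n (fun j => (y j.succ - y 0) * c j.succ) ξ (fun j => y j.succ - y 0)
      (fun i j hij => (h1 i).2.trans_le ((hx.monotone (Fin.succ_le_castSucc_iff.2 (by simpa))).trans (h1 j).1.le))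
      (fun i j e => Fin.succ_injective _ (hy (by simpa using e))) fun i => by
        simpa [Fin.sum_univ_succ, mul_assoc] using h2 i
    have c1 : ∀ j : Fin n, c j.succ = 0 := fun j =>
      (mul_eq_zero.1 (congrFun this j)).resolve_left (sub_ne_zero.2 (hy.ne (Fin.succ_ne_zero j)))
    ext j
    refine Fin.cases ?_ c1 j
    simpa [Fin.sum_univ_succ, c1] using h 0

/-- the kernel `exp (x y)` is totally positive -/
lemma exp_tp {n : ℕ} (x y : Fin n → ℝ) (hx : StrictMono x) (hy : StrictMono y) :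
    0 < mn (fun s t => exp (s * t)) x y := by
  let g : ℝ → ℝ := fun t => mn (fun s t => exp (s * t)) x fun j => (1 - t) * y j + t * j
  have gc : Continuous g := Continuous.matrix_det (continuous_matrix fun i j => by simp only [of_apply]; fun_prop)
  have g1 : 0 < g 1 := by
    have : g 1 = (vandermonde fun i => exp (x i)).det := by
      simp only [g, mn]; congr 1; ext i j; simp [← exp_nat_mul, mul_comm]
    rw [this, det_vandermonde]
    exact prod_pos fun i _ => prod_pos fun j hj => sub_pos.2 (exp_lt_exp.2 (hx (mem_Ioi.1 hj)))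
  by_contra! h
  obtain ⟨t, ht, e⟩ := intermediate_value_Icc zero_le_one gc.continuousOn
    (⟨by simpa [g] using h, g1.le⟩ : (0 : ℝ) ∈ Set.Icc (g 0) (g 1))
  obtain ⟨c, c0, hc⟩ := Matrix.exists_mulVec_eq_zero_iff.2 e
  refine c0 (zeros n c x _ hx (StrictMono.injective fun i j hij => ?_) fun i => congrFun hc i)
  have := hy hij
  have : (i : ℝ) < j := by exact_mod_cast hij
  rcases ht.1.eq_or_lt with e | e
  · simpa [← e]
  · nlinarith [ht.2]

/-- the Gaussian kernel is totally positive -/
lemma gauss_tp {n : ℕ} {κ : ℝ} (hκ : 0 < κ) (x y : Fin n → ℝ) (hx : StrictMono x) (hy : StrictMono y) :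
    0 < mn (fun s t => exp (-(κ * (s - t) ^ 2))) x y := by
  have := exp_tp (fun i => 2 * κ * x i) y (hx.const_mul (by linarith)) hy
  rw [show (fun s t => exp (-(κ * (s - t) ^ 2))) = fun s t =>
    exp (-(κ * s ^ 2)) * exp (2 * κ * s * t) * exp (-(κ * t ^ 2)) by
      ext; simp only [← exp_add]; ring_nf, scale]
  exact mul_pos (by positivity) this

/-- adding a diagonal tail beyond `R` keeps total nonnegativity -/
lemma tail (K : ℝ → ℝ → ℝ) (R : ℝ) (c : ℝ → ℝ) (c0 : ∀ s, 0 ≤ c s) (X Y : Set ℝ)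
    (h : ∀ (n : ℕ) (x y : Fin n → ℝ), StrictMono x → StrictMono y → (∀ i, x i ∈ X) → (∀ i, y i ∈ Y) →
      0 ≤ mn K x y) : ∀ (n : ℕ) (x y : Fin n → ℝ), StrictMono x → StrictMono y → (∀ i, x i ≤ R → x i ∈ X) →
      (∀ i, y i ≤ R → y i ∈ Y) → 0 ≤ mn (fun s t => if s ≤ R ∧ t ≤ R then K s t else if s = t then c s else 0) x y
  | 0, _, _, _, _, _, _ => by simp [mn]
  | n + 1, x, y, hx, hy, h1, h2 => by
    have xl := fun i => hx.monotone (Fin.le_last i)
    have yl := fun i => hy.monotone (Fin.le_last i)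
    by_cases H : x (.last n) ≤ R ∧ y (.last n) ≤ R
    · convert h _ x y hx hy (fun i => h1 i ((xl i).trans H.1)) fun i => h2 i ((yl i).trans H.2) using 1
      simp only [mn, (xl _).trans H.1, (yl _).trans H.2, and_self, if_true]
    rcases lt_trichotomy (x (.last n)) (y (.last n)) with l | l | l
    · exact (det_eq_zero_of_column_eq_zero (.last n) fun i => by
        rw [of_apply]; exact (if_neg fun a => H ⟨l.le.trans a.2, a.2⟩).trans (if_neg ((xl i).trans_lt l).ne)).ge
    · rw [mn, det_succ_row _ (.last n), Fin.sum_univ_castSucc, sum_eq_zero fun j _ => by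
        rw [of_apply, if_neg fun a => H ⟨a.1, l ▸ a.1⟩, if_neg (l ▸ (hy (Fin.castSucc_lt_last j)).ne'), mul_zero,
          zero_mul], zero_add, of_apply, if_neg H, if_pos l, ← two_mul, pow_mul, neg_one_sq, one_pow, one_mul,
        Fin.succAbove_last]
      exact mul_nonneg (c0 _) (tail K R c c0 X Y h n (x ∘ Fin.castSucc) (y ∘ Fin.castSucc)
        (hx.comp Fin.strictMono_castSucc) (hy.comp Fin.strictMono_castSucc) (fun _ => h1 _) fun _ => h2 _)
    · exact (det_eq_zero_of_row_eq_zero (.last n) fun i => by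
        rw [of_apply]; exact (if_neg fun a => H ⟨a.1, l.le.trans a.1⟩).trans (if_neg ((yl i).trans_lt l).ne')).ge

end Pool.Agent.H45.TP
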