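import Mathlib

namespace Pool.Agent.H45.TrCore

abbrev P := ℤ × ℤ × ℤ

def Box (n m lo hi : ℤ) (p : P) : Prop :=
  (0 ≤ p.1 ∧ p.1 ≤ n) ∧ (0 ≤ p.2.1 ∧ p.2.1 ≤ m) ∧ lo ≤ p.2.2 ∧ p.2.2 ≤ hi

structure Good (n m lo hi : ℤ) (W L : P → Prop) : Prop where
  tot : ∀ p, Box n m lo hi p → W p ∨ L p
  bW : ∀ p, W p → Box n m lo hi p
  bL : ∀ p, L p → Box n m lo hi p
  h1 : ∀ p r, W p → L r → p.1 = r.1 → p.2.1 = r.2.1 → r.2.2 < p.2.2
  h2 : ∀ p q r s, W p → W q → L r → L s → p.1 + q.1 = r.1 + s.1 →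
    p.2.1 + q.2.1 = r.2.1 + s.2.1 → r.2.2 + s.2.2 < p.2.2 + q.2.2
  h3 : ∀ p q u r s t, W p → W q → W u → L r → L s → L t → p.1 + q.1 + u.1 = r.1 + s.1 + t.1 →
    p.2.1 + q.2.1 + u.2.1 = r.2.1 + s.2.1 + t.2.1 →
    r.2.2 + s.2.2 + t.2.2 < p.2.2 + q.2.2 + u.2.2

def fl (p : P) : P := (p.1, p.2.1, -p.2.2)

variable {n m lo hi : ℤ} {W L : P → Prop}

lemma Good.flip (g : Good n m lo hi W L) :
    Good n m (-hi) (-lo) (fun p => L (fl p)) fun p => W (fl p) where
  tot p h := (g.tot (fl p) (by simp only [Box, fl] at *; omega)).symm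
  bW p h := by have := g.bL _ h; simp only [Box, fl] at *; omega
  bL p h := by have := g.bW _ h; simp only [Box, fl] at *; omega
  h1 p r a b c d := by have := g.h1 _ _ b a c.symm d.symm; simp only [fl] at *; omega
  h2 p q r s a b c d e f := by
    have := g.h2 _ _ _ _ c d a b e.symm f.symm; simp only [fl] at *; omega
  h3 p q u r s t a b c d e f x y := by
    have := g.h3 _ _ _ _ _ _ d e f a b c x.symm y.symm; simp only [fl] at *; omega

lemma fl_fl (p : P) : fl (fl p) = p := by simp [fl]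

lemma lb {N a b c y p q r k : ℤ} (N0 : 0 < N) (a0 : 0 ≤ a) (b0 : 0 ≤ b) (c0 : 0 ≤ c)
    (s : a + b + c = N) (h : a * p + b * q + c * r ≤ N * y) (x : k ≤ p) (u : k ≤ q) (v : k ≤ r) :
    k ≤ y := by
  subst s
  refine le_of_mul_le_mul_left ?_ N0
  nlinarith [mul_le_mul_of_nonneg_left x a0, mul_le_mul_of_nonneg_left u b0,
    mul_le_mul_of_nonneg_left v c0]

lemma ub {N a b c y p q r k : ℤ} (N0 : 0 < N) (a0 : 0 ≤ a) (b0 : 0 ≤ b) (c0 : 0 ≤ c)
    (s : a + b + c = N) (h : N * y ≤ a * p + b * q + c * r) (x : p ≤ k) (u : q ≤ k) (v : r ≤ k) :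
    y ≤ k := by
  subst s
  refine le_of_mul_le_mul_left ?_ N0
  nlinarith [mul_le_mul_of_nonneg_left x a0, mul_le_mul_of_nonneg_left u b0,
    mul_le_mul_of_nonneg_left v c0]

/-- No two-against-two certificate of total weight `k`. -/
def NA (k : ℤ) : Prop := ∀ n m lo hi W L, Good n m lo hi W L → ∀ (p q r s : P) (a b c d : ℤ),
  W p → W q → L r → L s → 0 ≤ a → 0 ≤ b → 0 ≤ c → 0 ≤ d → a + b = k → c + d = k →
  a * p.1 + b * q.1 = c * r.1 + d * s.1 → a * p.2.1 + b * q.2.1 = c * r.2.1 + d * s.2.1 →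
  c * r.2.2 + d * s.2.2 < a * p.2.2 + b * q.2.2

lemma stepA {k : ℤ} (k0 : 0 < k) (ih : ∀ j, 0 < j → j < k → NA j) (g : Good n m lo hi W L)
    {p q r s : P} {a b c d : ℤ} (wp : W p) (wq : W q) (lr : L r) (ls : L s) (b0 : 0 ≤ b)
    (ba : b ≤ a) (ac : a ≤ c) (d0 : 0 ≤ d) (e1 : a + b = k) (e2 : c + d = k)
    (ex : a * p.1 + b * q.1 = c * r.1 + d * s.1)
    (ey : a * p.2.1 + b * q.2.1 = c * r.2.1 + d * s.2.1) :
    c * r.2.2 + d * s.2.2 < a * p.2.2 + b * q.2.2 := by
  rcases b0.eq_or_lt with rfl | b1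
  · obtain rfl : d = 0 := by omega
    obtain rfl : a = c := by omega
    have a0 : 0 < a := by omega
    have := g.h1 p r wp lr (mul_left_cancel₀ a0.ne' (by linarith))
      (mul_left_cancel₀ a0.ne' (by linarith))
    nlinarith
  by_contra! ez
  obtain ⟨⟨p1, p2⟩, ⟨p3, p4⟩, p5, p6⟩ := g.bW p wp
  obtain ⟨⟨q1, q2⟩, ⟨q3, q4⟩, q5, q6⟩ := g.bW q wq
  obtain ⟨⟨r1, r2⟩, ⟨r3, r4⟩, r5, r6⟩ := g.bL r lr
  obtain ⟨⟨s1, s2⟩, ⟨s3, s4⟩, s5, s6⟩ := g.bL s ls
  have c0 : 0 < c := by omega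
  have u : 0 ≤ c - a := by omega
  have v : 0 ≤ c - b := by omega
  have t : c - a + (c - b) + d = c := by omega
  have := ub (y := p.2.2 + q.2.2 - r.2.2) c0 u v d0 t (by linarith) p6 q6 s6
  rcases g.tot (p.1 + q.1 - r.1, p.2.1 + q.2.1 - r.2.1, max (p.2.2 + q.2.2 - r.2.2) lo)
    ⟨⟨lb c0 u v d0 t (by dsimp only; linarith) p1 q1 s1,
      ub c0 u v d0 t (by dsimp only; linarith) p2 q2 s2⟩,
    ⟨lb c0 u v d0 t (by dsimp only; linarith) p3 q3 s3,
      ub c0 u v d0 t (by dsimp only; linarith) p4 q4 s4⟩, by dsimp only; omega⟩ with h | h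
  · have := ih a (by omega) (by omega) _ _ _ _ _ _ g _ _ _ _ b (a - b) (c - b) d h wp lr ls
      b0 (by omega) v d0 (by omega) (by omega) (by dsimp only; linarith) (by dsimp only; linarith)
    dsimp only at this
    rcases max_choice (p.2.2 + q.2.2 - r.2.2) lo with z | z <;> rw [z] at this
    · linarith
    obtain rfl : d = a + b - c := by omega
    nlinarith [mul_nonneg v (sub_nonneg.2 ez), mul_nonneg (mul_nonneg v b0) (sub_nonneg.2 q5),
      mul_nonneg (mul_nonneg b0 d0) (sub_nonneg.2 s5),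
      mul_nonneg (mul_nonneg b0 u) (sub_nonneg.2 p5), mul_pos c0 (sub_pos.2 this)]
  · have := g.h2 _ _ _ _ wp wq lr h (by dsimp only; ring) (by dsimp only; ring)
    dsimp only at this
    omega

lemma allA (k : ℕ) : 0 < k → NA k := by
  induction k using Nat.strong_induction_on with
  | _ k ih =>
    intro k0 n m lo hi W L g p q r s a b c d wp wq lr ls a0 b0 c0 d0 e1 e2 ex ey
    have ih : ∀ j : ℤ, 0 < j → j < k → NA j := fun j u v => by
      have := ih j.toNat (by omega) (by omega)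
      rwa [Int.toNat_of_nonneg u.le] at this
    have k0 : (0 : ℤ) < k := by omega
    have F : ∀ {p q r s : P} {a b c d : ℤ}, W p → W q → L r → L s → 0 ≤ d → d ≤ c → c ≤ a →
        0 ≤ b → a + b = k → c + d = k → a * p.1 + b * q.1 = c * r.1 + d * s.1 →
        a * p.2.1 + b * q.2.1 = c * r.2.1 + d * s.2.1 →
        c * r.2.2 + d * s.2.2 < a * p.2.2 + b * q.2.2 :=
      fun {p q r s a b c d} wp wq lr ls d0 dc ca b0 e1 e2 ex ey => by
        have := stepA (p := fl r) (q := fl s) (r := fl p) (s := fl q) k0 ih g.flip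
          (by rwa [fl_fl]) (by rwa [fl_fl]) (by rwa [fl_fl]) (by rwa [fl_fl]) d0 dc ca b0 e2 e1
          ex.symm ey.symm
        simp only [fl] at this
        linarith
    rcases le_total a b with x | x <;> rcases le_total c d with y | y
    · rcases le_total b d with z | z
      · linarith [stepA k0 ih g wq wp ls lr a0 x z c0 (by omega) (by omega) (by linarith)
          (by linarith)]
      · linarith [F wq wp ls lr c0 y z a0 (by omega) (by omega) (by linarith) (by linarith)]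
    · rcases le_total b c with z | z
      · linarith [stepA k0 ih g wq wp lr ls a0 x z d0 (by omega) (by omega) (by linarith)
          (by linarith)]
      · linarith [F wq wp lr ls d0 y z a0 (by omega) (by omega) (by linarith) (by linarith)]
    · rcases le_total a d with z | z
      · linarith [stepA k0 ih g wp wq ls lr b0 x z c0 (by omega) (by omega) (by linarith)
          (by linarith)]
      · linarith [F wp wq ls lr c0 y z b0 (by omega) (by omega) (by linarith) (by linarith)]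
    · rcases le_total a c with z | z
      · exact stepA k0 ih g wp wq lr ls b0 x z d0 e1 e2 ex ey
      · exact F wp wq lr ls d0 y z b0 e1 e2 ex ey

theorem cA (g : Good n m lo hi W L) {p q r s : P} {a b c d : ℤ}
    (wp : W p) (wq : W q) (lr : L r) (ls : L s) (a0 : 0 ≤ a) (b0 : 0 ≤ b) (c0 : 0 ≤ c) (d0 : 0 ≤ d)
    (k0 : 0 < a + b) (e : a + b = c + d) (ex : a * p.1 + b * q.1 = c * r.1 + d * s.1)
    (ey : a * p.2.1 + b * q.2.1 = c * r.2.1 + d * s.2.1) :
    c * r.2.2 + d * s.2.2 < a * p.2.2 + b * q.2.2 :=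
  allA (a + b).toNat (by omega) _ _ _ _ _ _ g _ _ _ _ _ _ _ _ wp wq lr ls a0 b0 c0 d0 (by omega)
    (by omega) ex ey

/-- `w` lies under the triangle `p q r` with weights `a b c`. -/
def Und (N : ℤ) (p q r w : P) (a b c : ℤ) : Prop := 0 ≤ a ∧ 0 ≤ b ∧ 0 ≤ c ∧ a + b + c = N ∧
  N * w.1 = a * p.1 + b * q.1 + c * r.1 ∧ N * w.2.1 = a * p.2.1 + b * q.2.1 + c * r.2.1 ∧
  N * w.2.2 ≤ a * p.2.2 + b * q.2.2 + c * r.2.2

lemma Und.rot {N p q r w a b c} (h : Und N p q r w a b c) : Und N q r p w b c a := by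
  obtain ⟨_, _, _, _, _, _, _⟩ := h
  refine ⟨?_, ?_, ?_, ?_, ?_, ?_, ?_⟩ <;> linarith

lemma addB (g : Good n m lo hi W L) {N : ℤ} (N0 : 0 < N) {p q r w v : P} {a b c a' b' c' : ℤ}
    (lp : L p) (lq : L q) (lr : L r) (ww : W w) (wv : W v) (h : Und N p q r w a b c)
    (h' : Und N p q r v a' b' c') (t : N ≤ a + a') :
    ∃ y, W y ∧ Und N p q r y (a + a' - N) (b + b') (c + c') := by
  obtain ⟨a0, b0, c0, e, ex, ey, ez⟩ := h
  obtain ⟨a1, b1, c1, e', ex', ey', ez'⟩ := h'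
  obtain ⟨⟨p1, p2⟩, ⟨p3, p4⟩, p5, p6⟩ := g.bL p lp
  obtain ⟨⟨q1, q2⟩, ⟨q3, q4⟩, q5, q6⟩ := g.bL q lq
  obtain ⟨⟨r1, r2⟩, ⟨r3, r4⟩, r5, r6⟩ := g.bL r lr
  have u : 0 ≤ a + a' - N := by omega
  have v' : 0 ≤ b + b' := by omega
  have x : 0 ≤ c + c' := by omega
  have t : a + a' - N + (b + b') + (c + c') = N := by omega
  have := ub (y := w.2.2 + v.2.2 - p.2.2) N0 u v' x t (by linarith) p6 q6 r6
  rcases g.tot (w.1 + v.1 - p.1, w.2.1 + v.2.1 - p.2.1, max (w.2.2 + v.2.2 - p.2.2) lo)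
    ⟨⟨lb N0 u v' x t (by dsimp only; linarith) p1 q1 r1,
      ub N0 u v' x t (by dsimp only; linarith) p2 q2 r2⟩,
    ⟨lb N0 u v' x t (by dsimp only; linarith) p3 q3 r3,
      ub N0 u v' x t (by dsimp only; linarith) p4 q4 r4⟩, by dsimp only; omega⟩ with h | h
  · refine ⟨_, h, u, v', x, t, by dsimp only; linarith, by dsimp only; linarith, ?_⟩
    dsimp only
    rcases max_choice (w.2.2 + v.2.2 - p.2.2) lo with z | z <;> rw [z]
    · linarith
    · linarith [mul_le_mul_of_nonneg_left p5 u, mul_le_mul_of_nonneg_left q5 v',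
        mul_le_mul_of_nonneg_left r5 x, congrArg (· * lo) t]
  · have := g.h2 _ _ _ _ ww wv lp h (by dsimp only; ring) (by dsimp only; ring)
    dsimp only at this
    omega

lemma aboveB (g : Good n m lo hi W L) {N : ℤ} (N0 : 0 < N) {p q r w : P} {a b c : ℤ}
    (lp : L p) (lq : L q) (lr : L r) (ww : W w) (h : Und N p q r w a b c) :
    ∃ y d e f, L y ∧ 0 < d ∧ 0 < e ∧ 0 < f ∧ Und N (fl p) (fl q) (fl r) (fl y) d e f := by
  by_contra H
  have K : ∀ k : ℕ, ∃ v a' b' c', W v ∧ Und N p q r v a' b' c' ∧ N ∣ a' - (k + 1) * a ∧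
      N ∣ b' - (k + 1) * b ∧ N ∣ c' - (k + 1) * c := fun k => by
    induction k with
    | zero => exact ⟨w, a, b, c, ww, h, by simp, by simp, by simp⟩
    | succ k ih =>
      obtain ⟨v, a', b', c', wv, h', ⟨i, hi'⟩, ⟨j, hj⟩, ⟨l, hl⟩⟩ := ih
      by_cases t1 : N ≤ a + a'
      · obtain ⟨y, u, z⟩ := addB g N0 lp lq lr ww wv h h' t1
        exact ⟨y, _, _, _, u, z, ⟨i - 1, by push_cast; linarith⟩, ⟨j, by push_cast; linarith⟩,
          ⟨l, by push_cast; linarith⟩⟩
      by_cases t2 : N ≤ b + b'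
      · obtain ⟨y, u, z⟩ := addB g N0 lq lr lp ww wv h.rot h'.rot t2
        exact ⟨y, _, _, _, u, z.rot.rot, ⟨i, by push_cast; linarith⟩,
          ⟨j - 1, by push_cast; linarith⟩, ⟨l, by push_cast; linarith⟩⟩
      by_cases t3 : N ≤ c + c'
      · obtain ⟨y, u, z⟩ := addB g N0 lr lp lq ww wv h.rot.rot h'.rot.rot t3
        exact ⟨y, _, _, _, u, z.rot, ⟨i, by push_cast; linarith⟩,
          ⟨j, by push_cast; linarith⟩, ⟨l - 1, by push_cast; linarith⟩⟩
      exfalso
      obtain ⟨a0, b0, c0, e, ex, ey, ez⟩ := h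
      obtain ⟨a1, b1, c1, e', ex', ey', ez'⟩ := h'
      obtain ⟨⟨p1, p2⟩, ⟨p3, p4⟩, p5, p6⟩ := g.bL p lp
      obtain ⟨⟨q1, q2⟩, ⟨q3, q4⟩, q5, q6⟩ := g.bL q lq
      obtain ⟨⟨r1, r2⟩, ⟨r3, r4⟩, r5, r6⟩ := g.bL r lr
      have u : 0 < N - a - a' := by omega
      have v' : 0 < N - b - b' := by omega
      have x : 0 < N - c - c' := by omega
      have t : N - a - a' + (N - b - b') + (N - c - c') = N := by omega
      have := lb (y := p.2.2 + q.2.2 + r.2.2 - w.2.2 - v.2.2) N0 u.le v'.le x.le t (by linarith)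
        p5 q5 r5
      rcases g.tot (p.1 + q.1 + r.1 - w.1 - v.1, p.2.1 + q.2.1 + r.2.1 - w.2.1 - v.2.1,
        min (p.2.2 + q.2.2 + r.2.2 - w.2.2 - v.2.2) hi)
        ⟨⟨lb N0 u.le v'.le x.le t (by dsimp only; linarith) p1 q1 r1,
          ub N0 u.le v'.le x.le t (by dsimp only; linarith) p2 q2 r2⟩,
        ⟨lb N0 u.le v'.le x.le t (by dsimp only; linarith) p3 q3 r3,
          ub N0 u.le v'.le x.le t (by dsimp only; linarith) p4 q4 r4⟩, by dsimp only; omega⟩
        with h | h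
      · have := g.h3 _ _ _ _ _ _ ww wv h lp lq lr (by dsimp only; ring) (by dsimp only; ring)
        dsimp only at this
        omega
      refine H ⟨_, _, _, _, h, u, v', x, u.le, v'.le, x.le, t, by dsimp only [fl]; linarith,
        by dsimp only [fl]; linarith, ?_⟩
      dsimp only [fl]
      rcases min_choice (p.2.2 + q.2.2 + r.2.2 - w.2.2 - v.2.2) hi with z | z <;> rw [z]
      · linarith
      · linarith [mul_le_mul_of_nonneg_left p6 u.le, mul_le_mul_of_nonneg_left q6 v'.le,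
          mul_le_mul_of_nonneg_left r6 x.le, congrArg (· * hi) t]
  obtain ⟨v, a', b', c', wv, h', ha, hb, hc⟩ := K (N - 1).toNat
  rw [show (((N - 1).toNat : ℤ) + 1) = N by omega] at ha hb hc
  have Z : ∀ {p q r : P} {a' b' c' : ℤ}, L p → Und N p q r v a' b' c' → N ≤ a' → False :=
    fun {p q r a' b' c'} lp ⟨a1, b1, c1, e', ex', ey', ez'⟩ t => by
      obtain rfl : b' = 0 := by omega
      obtain rfl : c' = 0 := by omega
      obtain rfl : a' = N := by omega
      have := g.h1 v p wv lp (mul_left_cancel₀ N0.ne' (by linarith))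
        (mul_left_cancel₀ N0.ne' (by linarith))
      nlinarith
  have D : ∀ {x y : ℤ}, N ∣ x - N * y → 0 < x → N ≤ x := fun {x y} h t =>
    Int.le_of_dvd t (by have := h.add (dvd_mul_right N y); rwa [sub_add_cancel] at this)
  have := h'.2.2.2.1
  rcases h'.1.eq_or_lt with u | u
  · rcases h'.2.1.eq_or_lt with t | t
    exacts [Z lr h'.rot.rot (by omega), Z lq h'.rot (D hb t)]
  · exact Z lp h' (D ha u)

lemma pivot (a d : Fin 3 → ℤ) (a0 : ∀ i, 0 ≤ a i) (h : ∃ i, d i < 0) :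
    ∃ j, d j < 0 ∧ ∀ i, 0 ≤ a j * d i - d j * a i := by
  obtain ⟨j, u, v⟩ := Finset.exists_min_image (Finset.univ.filter (d · < 0))
    (fun i => (a i : ℚ) / (-d i : ℤ)) (by simpa [Finset.Nonempty] using h)
  have u := (Finset.mem_filter.1 u).2
  refine ⟨j, u, fun i => ?_⟩
  by_cases t : d i < 0
  · have := v i (by simpa using t)
    rw [div_le_div_iff₀ (by exact_mod_cast neg_pos.2 u) (by exact_mod_cast neg_pos.2 t)] at this
    have : a j * -d i ≤ a i * -d j := by exact_mod_cast this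
    linarith
  · nlinarith [mul_nonneg (a0 j) (not_lt.1 t), mul_nonneg (a0 i) (neg_pos.2 u).le]

lemma pivot' {a b c d e f : ℤ} (a0 : 0 ≤ a) (b0 : 0 ≤ b) (c0 : 0 ≤ c) (h : d < 0 ∨ e < 0 ∨ f < 0) :
    (d < 0 ∧ 0 ≤ a * e - d * b ∧ 0 ≤ a * f - d * c) ∨
    (e < 0 ∧ 0 ≤ b * f - e * c ∧ 0 ≤ b * d - e * a) ∨
    (f < 0 ∧ 0 ≤ c * d - f * a ∧ 0 ≤ c * e - f * b) := by
  obtain ⟨j, u, v⟩ := pivot ![a, b, c] ![d, e, f] (fun i => by fin_cases i <;> simpa) (by
    rcases h with h | h | h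
    exacts [⟨0, h⟩, ⟨1, h⟩, ⟨2, h⟩])
  fin_cases j
  exacts [.inl ⟨u, v 1, v 2⟩, .inr (.inl ⟨u, v 2, v 0⟩), .inr (.inr ⟨u, v 0, v 1⟩)]

def det (p q r : P) : ℤ := (q.1 - p.1) * (r.2.1 - p.2.1) - (r.1 - p.1) * (q.2.1 - p.2.1)

lemma det_rot (p q r : P) : det q r p = det p q r := by unfold det; ring

lemma degB (g : Good n m lo hi W L) {N : ℤ} (N0 : 0 < N) {p q r w : P} {a b c : ℤ}
    (lp : L p) (lq : L q) (lr : L r) (ww : W w) (h : Und N p q r w a b c) (z : det p q r = 0) :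
    False := by
  have S : ∀ {p q r : P} {a b c d e f : ℤ}, L q → L r → Und N p q r w a b c → d + e + f = 0 →
      d * p.1 + e * q.1 + f * r.1 = 0 → d * p.2.1 + e * q.2.1 + f * r.2.1 = 0 →
      0 ≤ d * p.2.2 + e * q.2.2 + f * r.2.2 → d < 0 ∧ 0 ≤ a * e - d * b ∧ 0 ≤ a * f - d * c →
      False := fun {p q r a b c d e f} lq lr ⟨a0, b0, c0, s, ex, ey, ez⟩ t x y u ⟨i, j, k⟩ => by
    have := mul_pos (neg_pos.2 i) N0
    have := cA (a := -d * N) (b := 0) g ww ww lq lr this.le le_rfl j k (by linarith)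
      (by linear_combination d * s - a * t) (by linear_combination -d * ex - a * x)
      (by linear_combination -d * ey - a * y)
    nlinarith [mul_le_mul_of_nonneg_left ez (neg_pos.2 i).le, mul_nonneg a0 u]
  have T : ∀ d e f : ℤ, d + e + f = 0 → d * p.1 + e * q.1 + f * r.1 = 0 →
      d * p.2.1 + e * q.2.1 + f * r.2.1 = 0 → 0 ≤ d * p.2.2 + e * q.2.2 + f * r.2.2 →
      d = 0 ∧ e = 0 := fun d e f t x y u => by
    by_contra o
    rcases pivot' h.1 h.2.1 h.2.2.1 (show d < 0 ∨ e < 0 ∨ f < 0 by omega) with v | v | v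
    · exact S lq lr h t x y u v
    · exact S lr lp h.rot (by linarith) (by linarith) (by linarith) (by linarith) v
    · exact S lp lq h.rot.rot (by linarith) (by linarith) (by linarith) (by linarith) v
  have T' : ∀ d e f : ℤ, d + e + f = 0 → d * p.1 + e * q.1 + f * r.1 = 0 →
      d * p.2.1 + e * q.2.1 + f * r.2.1 = 0 → d = 0 ∧ e = 0 := fun d e f t x y => by
    rcases le_total 0 (d * p.2.2 + e * q.2.2 + f * r.2.2) with u | u
    · exact T d e f t x y u
    · have := T (-d) (-e) (-f) (by linarith) (by linarith) (by linarith) (by linarith)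
      omega
  unfold det at z
  have := T' (q.1 - r.1) (r.1 - p.1) (p.1 - q.1) (by ring) (by ring) (by linarith)
  have := T' (q.2.1 - r.2.1) (r.2.1 - p.2.1) (p.2.1 - q.2.1) (by ring) (by linarith) (by ring)
  have := T' 1 (-1) 0 (by ring) (by omega) (by omega)
  omega

theorem cB (g : Good n m lo hi W L) {w : P} (ww : W w) (D : ℕ) : ∀ {N : ℤ} {p q r : P} {a b c : ℤ},
    0 < N → L p → L q → L r → Und N p q r w a b c → (det p q r).natAbs = D → False := by
  induction D using Nat.strong_induction_on with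
  | _ D ih =>
    intro N p q r a b c N0 lp lq lr h hD
    by_cases z : det p q r = 0
    · exact degB g N0 lp lq lr ww h z
    obtain ⟨y, d, e, f, ly, d0, e0, f0, u⟩ := aboveB g N0 lp lq lr ww h
    have S : ∀ {p q r : P} {a b c d e f : ℤ}, L q → L r → Und N p q r w a b c →
        Und N (fl p) (fl q) (fl r) (fl y) d e f → 0 < d → d < N → det p q r ≠ 0 →
        (det p q r).natAbs = D → 0 ≤ a * -e - -d * b ∧ 0 ≤ a * -f - -d * c → False :=
      fun {p q r a b c d e f} lq lr ⟨a0, b0, c0, s, ex, ey, ez⟩ ⟨_, _, _, t, x, v, u⟩ d0 d1 z hD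
        ⟨j, k⟩ => by
      simp only [fl] at x v u
      have E : N * det y q r = d * det p q r := by
        unfold det
        subst t
        linear_combination (q.2.1 - r.2.1) * x + (r.1 - q.1) * v
      refine ih (det y q r).natAbs ?_ (mul_pos d0 N0) ly lq lr ⟨mul_nonneg a0 N0.le, j, k,
        by linear_combination d * s - a * t, by linear_combination d * ex - a * x,
        by linear_combination d * ey - a * v, ?_⟩ rfl
      · have := congrArg (|·|) E
        simp only [abs_mul, abs_of_pos N0, abs_of_pos d0] at this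
        have i := abs_pos.2 z
        have : |det y q r| < |det p q r| := lt_of_mul_lt_mul_left (a := N) (by nlinarith) N0.le
        rw [← hD]
        zify
        exact this
      · nlinarith [mul_le_mul_of_nonneg_left ez d0.le, mul_le_mul_of_nonneg_left u a0]
    have := u.2.2.2.1
    rcases pivot' (d := -d) (e := -e) (f := -f) h.1 h.2.1 h.2.2.1 (by omega) with v | v | v
    · exact S lq lr h u d0 (by omega) z hD v.2
    · exact S lr lp h.rot u.rot e0 (by omega) (by rwa [det_rot]) (by rwa [det_rot]) v.2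
    · exact S lp lq h.rot.rot u.rot.rot f0 (by omega) (by rwa [← det_rot]) (by rwa [← det_rot]) v.2

end Pool.Agent.H45.TrCore
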