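import Mathlib

open Finset Filter Topology

namespace Pool.Agent.H45.TrFar

/-- Theorem of the alternative with a support bound. -/
theorem far {ι : Type} [DecidableEq ι] (s : Finset ι) : ∀ (n : ℕ) (U : Submodule ℚ (Fin 3 → ℚ))
    (A : ι → Fin 3 → ℚ) (β : ι → ℚ), Module.finrank ℚ U ≤ n → (∀ i ∈ s, A i ∈ U) →
    (¬∃ u, ∀ i ∈ s, β i < A i ⬝ᵥ u) → ∃ t ⊆ s, #t ≤ n + 1 ∧ ∃ c : ι → ℚ, (∀ i, 0 ≤ c i) ∧
      0 < ∑ i ∈ t, c i ∧ ∑ i ∈ t, c i • A i = 0 ∧ 0 ≤ ∑ i ∈ t, c i * β i := by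
  induction s using Finset.induction_on with
  | empty => exact fun n U A β _ _ h => absurd ⟨0, by simp⟩ h
  | insert m s hm ih =>
    intro n U A β hU hA h
    by_cases f : ∃ u, ∀ i ∈ s, β i < A i ⬝ᵥ u
    swap
    · obtain ⟨t, a, b⟩ := ih n U A β hU (fun i q => hA i (mem_insert_of_mem q)) f
      exact ⟨t, a.trans (subset_insert _ _), b⟩
    obtain ⟨u₀, f⟩ := f
    have e : A m ⬝ᵥ u₀ ≤ β m := not_lt.1 fun q => h ⟨u₀, by simpa [q] using f⟩
    by_cases z : A m = 0
    · exact ⟨{m}, by simp, by simp, 1, by simp, by simp, by simp [z], by simpa [z] using e⟩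
    obtain ⟨v, hv⟩ : ∃ v, A m ⬝ᵥ v = 1 := by
      obtain ⟨k, hk⟩ := Function.ne_iff.1 z
      exact ⟨Pi.single k (A m k)⁻¹, by simp [mul_inv_cancel₀ hk]⟩
    let φ : (Fin 3 → ℚ) →ₗ[ℚ] ℚ :=
      { toFun := (· ⬝ᵥ v), map_add' := fun _ _ => add_dotProduct _ _ _,
        map_smul' := fun _ _ => smul_dotProduct _ _ _ }
    have lt : U ⊓ LinearMap.ker φ < U := lt_of_le_of_ne inf_le_left fun q => by
      have : A m ∈ U ⊓ LinearMap.ker φ := by rw [q]; exact hA m (mem_insert_self _ _)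
      have : A m ⬝ᵥ v = 0 := this.2
      linarith
    have := Submodule.finrank_lt_finrank_of_lt lt
    obtain ⟨t, ts, tc, c, c0, c1, c2, c3⟩ := ih (n - 1) (U ⊓ LinearMap.ker φ)
      (fun i => A i - (A i ⬝ᵥ v) • A m) (fun i => β i - (A i ⬝ᵥ v) * β m) (by omega)
      (fun i q => ⟨U.sub_mem (hA i (mem_insert_of_mem q))
        (U.smul_mem _ (hA m (mem_insert_self _ _))), show _ ⬝ᵥ v = 0 by simp [hv]⟩) (by
      rintro ⟨u, q⟩
      have : ∀ᶠ ε in 𝓝[>] (0 : ℚ), ∀ i ∈ s, β i - (A i ⬝ᵥ v) * β m <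
          (A i - (A i ⬝ᵥ v) • A m) ⬝ᵥ u + ε * (A i ⬝ᵥ v) :=
        (eventually_all_finset s).2 fun i r => nhdsWithin_le_nhds
          (ContinuousAt.eventually_lt (f := fun _ => _) (by fun_prop) (by fun_prop)
            (by simpa using q i r))
      obtain ⟨ε, a, b⟩ := (this.and self_mem_nhdsWithin).exists
      refine h ⟨u + (β m - A m ⬝ᵥ u + ε) • v, forall_mem_insert _ _ _ |>.2 ⟨?_, fun i r => ?_⟩⟩
      · have : 0 < ε := b
        simp only [dotProduct_add, dotProduct_smul, smul_eq_mul, hv]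
        linarith
      · have := a i r
        simp only [sub_dotProduct, smul_dotProduct, dotProduct_add, dotProduct_smul,
          smul_eq_mul] at this ⊢
        linarith)
    set ρ := ∑ i ∈ t, c i * (A i ⬝ᵥ v) with hρ
    have d2 : ∑ i ∈ t, c i • A i = ρ • A m := by
      simpa [smul_sub, sub_eq_zero, hρ, sum_smul, smul_smul] using c2
    have d3 : ρ * β m ≤ ∑ i ∈ t, c i * β i := by
      simpa [mul_sub, hρ, sum_mul, mul_assoc] using c3
    have d4 : ∑ i ∈ t, c i * β i < ρ * (A m ⬝ᵥ u₀) := by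
      rw [← smul_eq_mul, ← smul_dotProduct, ← d2, sum_dotProduct]
      obtain ⟨j, a, b⟩ := exists_lt_of_sum_lt (s := t) (f := fun _ => (0 : ℚ)) (g := c)
        (by simpa using c1)
      simp only [smul_dotProduct, smul_eq_mul]
      exact sum_lt_sum (fun i q => mul_le_mul_of_nonneg_left (f i (ts q)).le (c0 i))
        ⟨j, a, mul_lt_mul_of_pos_left (f j (ts a)) b⟩
    have r0 : ρ < 0 := by nlinarith
    have mt : m ∉ t := fun q => hm (ts q)
    have up : ∀ i ∈ t, Function.update c m (-ρ) i = c i := fun i q =>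
      Function.update_of_ne (ne_of_mem_of_not_mem q mt) _ _
    refine ⟨insert m t, insert_subset_insert _ ts, by rw [card_insert_of_notMem mt]; omega,
      Function.update c m (-ρ), fun i => ?_, ?_, ?_, ?_⟩
    · rw [Function.update_apply]; split_ifs
      exacts [by linarith, c0 i]
    · rw [sum_insert mt, sum_congr rfl up]; simp; linarith
    · rw [sum_insert mt, sum_congr rfl fun i q => by rw [up i q], d2]; simp
    · rw [sum_insert mt, sum_congr rfl fun i q => by rw [up i q]]; simp; linarith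

theorem clear {ι : Type} [DecidableEq ι] (t : Finset ι) (c : ι → ℚ) :
    ∃ (D : ℚ) (k : ι → ℤ), 0 < D ∧ ∀ i ∈ t, (k i : ℚ) = D * c i :=
  ⟨∏ i ∈ t, (c i).den, fun i => (c i).num * ∏ j ∈ t.erase i, (c j).den,
    prod_pos fun i _ => by exact_mod_cast (c i).den_pos, fun i h => by
    rw [← mul_prod_erase t _ h]
    push_cast
    rw [← Rat.mul_den_eq_num]
    ring⟩

end Pool.Agent.H45.TrFar
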