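import Pool.Agent.H45.TrCore
import Pool.Agent.H45.TrFar

open Finset

namespace Pool.Agent.H45.TrCore

lemma ext3 (t : Finset P) (k : P → ℤ) (k0 : ∀ i ∈ t, 0 ≤ k i) (h : 0 < #t) (h3 : #t ≤ 3) :
    ∃ p ∈ t, ∃ q ∈ t, ∃ r ∈ t, ∃ a b c : ℤ, 0 ≤ a ∧ 0 ≤ b ∧ 0 ≤ c ∧ (#t ≤ 2 → c = 0) ∧
      (#t ≤ 1 → b = 0) ∧ ∀ f : P → ℤ, ∑ i ∈ t, k i * f i = a * f p + b * f q + c * f r := by
  obtain e | e | e : #t = 1 ∨ #t = 2 ∨ #t = 3 := by omega
  · obtain ⟨p, rfl⟩ := card_eq_one.1 e
    exact ⟨p, by simp, p, by simp, p, by simp, k p, 0, 0, k0 p (by simp), le_rfl, le_rfl,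
      by simp, by simp, by simp⟩
  · obtain ⟨p, q, n, rfl⟩ := card_eq_two.1 e
    exact ⟨p, by simp, q, by simp, p, by simp, k p, k q, 0, k0 p (by simp), k0 q (by simp), le_rfl,
      by simp, by omega, fun f => by simp [sum_pair n]⟩
  · obtain ⟨p, q, r, n, n', n'', rfl⟩ := card_eq_three.1 e
    exact ⟨p, by simp, q, by simp, r, by simp, k p, k q, k r, k0 p (by simp), k0 q (by simp),
      k0 r (by simp), by omega, by omega, fun f => by
        rw [sum_insert (by simp [n, n']), sum_pair n'']; ring⟩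

theorem sep {n m lo hi : ℤ} {W L : P → Prop} (g : Good n m lo hi W L) : ∃ a b q : ℚ, ∀ p : P,
    (W p → a * p.1 + b * p.2.1 + q < p.2.2) ∧ (L p → p.2.2 < a * p.1 + b * p.2.1 + q) := by
  classical
  by_contra H
  have M : ∀ p : P, p ∈ Icc 0 n ×ˢ Icc 0 m ×ˢ Icc lo hi ↔ Box n m lo hi p := fun p => by
    simp [Box]
  obtain ⟨t, ts, tc, c, c0, c1, c2, c3⟩ := TrFar.far (Icc 0 n ×ˢ Icc 0 m ×ˢ Icc lo hi) 3 ⊤
    (fun p : P => if W p then -![(p.1 : ℚ), p.2.1, 1] else ![(p.1 : ℚ), p.2.1, 1])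
    (fun p => if W p then -p.2.2 else p.2.2) (by simp) (by simp) fun ⟨u, h⟩ =>
      H ⟨u 0, u 1, u 2, fun p => ⟨fun w => by
        have := h p ((M p).2 (g.bW p w))
        simp [w, dotProduct, Fin.sum_univ_three] at this
        linarith, fun l => by
        have := h p ((M p).2 (g.bL p l))
        have w : ¬W p := fun w => (g.h1 p p w l rfl rfl).false
        simp [w, dotProduct, Fin.sum_univ_three] at this
        linarith⟩⟩
  obtain ⟨D, k, D0, hk⟩ := TrFar.clear t c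
  have k0 : ∀ i ∈ t, 0 ≤ k i := fun i q => by
    have := mul_nonneg D0.le (c0 i)
    rw [← hk i q] at this
    exact_mod_cast this
  have S : ∀ f : P → ℤ, ((∑ i ∈ t with ¬W i, k i * f i - ∑ i ∈ t with W i, k i * f i : ℤ) : ℚ) =
      D * ∑ i ∈ t, c i * if W i then -(f i : ℚ) else f i := fun f => by
    push_cast
    rw [sum_filter, sum_filter, ← sum_sub_distrib, mul_sum]
    refine sum_congr rfl fun i q => ?_
    rw [hk i q]
    split_ifs <;> ring
  have C : ∀ (j : Fin 3) (f : P → ℤ), (∀ p : P, ![(p.1 : ℚ), p.2.1, 1] j = f p) →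
      ∑ i ∈ t with W i, k i * f i = ∑ i ∈ t with ¬W i, k i * f i := fun j f e => by
    have := congrFun c2 j
    rw [Finset.sum_apply, sum_congr rfl (g := fun i => c i * if W i then -(f i : ℚ) else f i)
      fun i _ => by rw [← e i]; split_ifs <;> rfl] at this
    have z := S f
    rw [this, Pi.zero_apply, mul_zero] at z
    have : ∑ i ∈ t with ¬W i, k i * f i - ∑ i ∈ t with W i, k i * f i = 0 := by exact_mod_cast z
    linarith
  have e1 := C 0 (·.1) fun _ => rfl
  have e2 := C 1 (·.2.1) fun _ => rfl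
  have e3 := C 2 (fun _ => 1) fun _ => by simp
  have e4 : 0 ≤ ∑ i ∈ t with ¬W i, k i * i.2.2 - ∑ i ∈ t with W i, k i * i.2.2 := by
    have := mul_nonneg D0.le c3
    rw [← S (·.2.2)] at this
    exact_mod_cast this
  have e5 : 0 < ∑ i ∈ t with W i, k i * 1 + ∑ i ∈ t with ¬W i, k i * 1 := by
    rw [sum_filter_add_sum_filter_not]
    have := mul_pos D0 c1
    rw [mul_sum, ← sum_congr rfl hk] at this
    simp only [mul_one]
    exact_mod_cast this
  have e6 : #{i ∈ t | W i} + #{i ∈ t | ¬W i} = #t := by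
    convert card_filter_add_card_filter_not (s := t) W
  have w0 : 0 < #{i ∈ t | W i} := card_pos.2
    (nonempty_of_sum_ne_zero (f := fun i => k i * 1) (ne_of_gt (by linarith)))
  have l0 : 0 < #{i ∈ t | ¬W i} := card_pos.2
    (nonempty_of_sum_ne_zero (f := fun i => k i * 1) (ne_of_gt (by linarith)))
  obtain ⟨p, hp, q, hq, r, hr, a, b, c, a0, b0, c0, x2, x1, x⟩ := ext3 _ k
    (fun i q => k0 i (mem_filter.1 q).1) w0 (by omega)
  obtain ⟨p', hp', q', hq', r', hr', a', b', c', a1, b1, c1, y2, y1, y⟩ := ext3 _ k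
    (fun i q => k0 i (mem_filter.1 q).1) l0 (by omega)
  have l : ∀ {p}, p ∈ {i ∈ t | ¬W i} → L p := fun q =>
    (g.tot _ ((M _).1 (ts (mem_filter.1 q).1))).resolve_left (mem_filter.1 q).2
  have w : ∀ {p}, p ∈ {i ∈ t | W i} → W p := fun q => (mem_filter.1 q).2
  rw [x, y] at e1 e2 e3 e5
  rw [x (·.2.2), y (·.2.2)] at e4
  by_cases u : #{i ∈ t | W i} ≤ 1
  · obtain rfl := x1 u
    obtain rfl := x2 (by omega)
    exact cB g (w hp) _ (N := a) (by linarith) (l hp') (l hq') (l hr')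
      ⟨a1, b1, c1, by linarith, by linarith, by linarith, by linarith⟩ rfl
  by_cases v : #{i ∈ t | ¬W i} ≤ 1
  · obtain rfl := y1 v
    obtain rfl := y2 (by omega)
    exact cB g.flip (w := fl p') (by rw [fl_fl]; exact l hp') _ (N := a') (p := fl p) (q := fl q)
      (r := fl r) (by linarith) (by rw [fl_fl]; exact w hp) (by rw [fl_fl]; exact w hq)
      (by rw [fl_fl]; exact w hr) ⟨a0, b0, c0, by linarith, by simp only [fl]; linarith,
        by simp only [fl]; linarith, by simp only [fl]; linarith⟩ rfl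
  obtain rfl := x2 (by omega)
  obtain rfl := y2 (by omega)
  linarith [cA g (w hp) (w hq) (l hp') (l hq') a0 b0 a1 b1 (by linarith) (by linarith)
    (by linarith) (by linarith)]

end Pool.Agent.H45.TrCore
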