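import Mathlib
import Pool.Agent.H45.TrSep

open Finset Pool.Agent.H45.TrCore

namespace Pool.Agent.H45.TrGame

variable {N : Type} [Fintype N] [DecidableEq N]

/-- Desirability `i ≽ j`. -/
def Des (W : Set (Finset N)) (i j : N) : Prop :=
  ∀ S : Finset N, i ∉ S → j ∉ S → insert j S ∈ W → insert i S ∈ W

/-- `m`-trade robustness. -/
def Robust (W : Set (Finset N)) (m : ℕ) : Prop :=
  ∀ j, 1 ≤ j → j ≤ m → ∀ X Y : Fin j → Finset N, (∀ p, #{k | p ∈ X k} = #{k | p ∈ Y k}) →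
    (∀ k, X k ∈ W) → ∃ k, Y k ∈ W

/-- Weighted games. -/
def IsWeighted (W : Set (Finset N)) : Prop :=
  ∃ (w : N → ℝ) (q : ℝ), (∀ p, 0 ≤ w p) ∧ ∀ S, S ∈ W ↔ q ≤ ∑ p ∈ S, w p

omit [Fintype N] in
lemma swap {W : Set (Finset N)} (up : ∀ S T, S ∈ W → S ⊆ T → T ∈ W) {τ : N → Fin 3}
    (h : ∀ i j, τ i = τ j → Des W i j) (T : Finset N) (d : ℕ) : ∀ S : Finset N, #(S \ T) = d →
    (∀ k, #{v ∈ S | τ v = k} = #{v ∈ T | τ v = k}) → S ∈ W → T ∈ W := by
  induction d with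
  | zero => exact fun S e _ w => up S T w (sdiff_eq_empty_iff_subset.1 (card_eq_zero.1 e))
  | succ d ih =>
    intro S e c w
    obtain ⟨i, hi⟩ := card_pos.1 (show 0 < #(S \ T) by omega)
    obtain ⟨iS, iT⟩ := mem_sdiff.1 hi
    obtain ⟨j, hj, jS⟩ := exists_mem_notMem_of_card_lt_card (s := {v ∈ S | τ v = τ i}.erase i)
      (t := {v ∈ T | τ v = τ i}) (c _ ▸ card_erase_lt_of_mem (by simp [iS]))
    obtain ⟨jT, ji⟩ := mem_filter.1 hj
    have n : j ≠ i := fun q => iT (q ▸ jT)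
    have jS : j ∉ S := by simpa [n, ji] using jS
    have jA : j ∉ S.erase i := by simp [jS]
    refine ih (insert j (S.erase i)) ?_ (fun k => ?_)
      (h j i ji _ jA (by simp) (by rwa [insert_erase iS]))
    · rw [insert_sdiff_of_mem _ jT, erase_sdiff_comm, card_erase_of_mem hi, e]; rfl
    · rw [← c k]
      conv_rhs => rw [← insert_erase iS]
      rw [filter_insert, filter_insert, ji]
      split_ifs
      · rw [card_insert_of_notMem (by simp [jS]), card_insert_of_notMem (by simp)]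
      · rfl

omit [Fintype N] in
lemma idx (s : Finset N) : ∃ f : N → ℕ, (∀ v ∈ s, f v < #s) ∧
    ∀ g : ℕ → ℤ, ∑ v ∈ s, g (f v) = ∑ p ∈ range #s, g p := by
  induction s using Finset.induction_on with
  | empty => simp
  | insert a s n ih =>
    obtain ⟨f, u, v⟩ := ih
    have e : ∀ x ∈ s, Function.update f a #s x = f x := fun x q =>
      Function.update_of_ne (ne_of_mem_of_not_mem q n) _ _
    refine ⟨Function.update f a #s, fun x q => ?_, fun g => ?_⟩
    · rw [card_insert_of_notMem n]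
      rcases mem_insert.1 q with rfl | q
      · simp
      · have := u x q
        rw [e x q]; omega
    · rw [card_insert_of_notMem n, sum_insert n, sum_range_succ, ← v,
        sum_congr rfl fun x q => by rw [e x q]]
      simp [add_comm]

abbrev I (n s a p : ℤ) : Prop :=
  (s ≤ p ∧ p < s + a) ∨ (s - n ≤ p ∧ p < s + a - n) ∨ (s - 2 * n ≤ p ∧ p < s + a - 2 * n)

lemma sumI (u v : ℤ) (n : ℕ) :
    ∑ p ∈ range n, (if u ≤ (p : ℤ) ∧ (p : ℤ) < v then 1 else 0 : ℤ) = max 0 (min (n : ℤ) v - max 0 u) := by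
  induction n with
  | zero => simp only [range_zero, sum_empty]; omega
  | succ n ih => rw [sum_range_succ, ih]; split_ifs <;> omega

lemma cntI {n : ℕ} {s a : ℤ} (s0 : 0 ≤ s) (a0 : 0 ≤ a) (a1 : a ≤ n) (h : s + a ≤ 3 * n) :
    ∑ p ∈ range n, (if I n s a p then 1 else 0 : ℤ) = a := by
  rw [sum_congr rfl (g := fun p : ℕ => (if s ≤ p ∧ p < s + a then 1 else 0 : ℤ) +
    (if s - n ≤ p ∧ p < s + a - n then 1 else 0) +
    if s - 2 * n ≤ p ∧ p < s + a - 2 * n then 1 else 0) fun p q => by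
      have := mem_range.1 q
      split_ifs <;> omega, sum_add_distrib, sum_add_distrib, sumI, sumI, sumI]
  omega

lemma mul3 {n p a b c : ℤ} (p0 : 0 ≤ p) (p1 : p < n) (h : (0 ≤ a ∧ a ≤ n) ∧ (0 ≤ b ∧ b ≤ n) ∧
    0 ≤ c ∧ c ≤ n) : ((if I n 0 a p then 1 else 0) + (if I n a b p then 1 else 0) +
    if I n (a + b) c p then 1 else 0 : ℕ) = (if p < a + b + c then 1 else 0) +
    (if p + n < a + b + c then 1 else 0) + if p + 2 * n < a + b + c then 1 else 0 := by
  split_ifs <;> omega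

lemma mul2 {n p a b : ℤ} (p0 : 0 ≤ p) (p1 : p < n) (h : (0 ≤ a ∧ a ≤ n) ∧ 0 ≤ b ∧ b ≤ n) :
    ((if I n 0 a p then 1 else 0) + if I n a b p then 1 else 0 : ℕ) =
    (if p < a + b then 1 else 0) + if p + n < a + b then 1 else 0 := by
  split_ifs <;> omega

theorem three (W : Set (Finset N)) (up : ∀ S T, S ∈ W → S ⊆ T → T ∈ W) (τ : N → Fin 3)
    (types : ∀ i j, τ i = τ j → Des W i j) (rob : Robust W 3) : IsWeighted W := by
  classical
  choose f f1 f2 using fun k => idx ({v | τ v = k} : Finset N)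
  set n : Fin 3 → ℕ := fun k => #{v | τ v = k} with hn
  have f1 : ∀ v, ((f (τ v) v : ℕ) : ℤ) < n (τ v) := fun v => by
    exact_mod_cast f1 (τ v) v (by simp)
  let C : (Fin 3 → ℤ) → (Fin 3 → ℤ) → Finset N := fun s a =>
    {v | I (n (τ v)) (s (τ v)) (a (τ v)) (f (τ v) v)}
  let B : (Fin 3 → ℤ) → Prop := fun a => ∀ k, 0 ≤ a k ∧ a k ≤ n k
  have c1 : ∀ s a, B a → (∀ k, 0 ≤ s k ∧ s k ≤ 2 * (n k : ℤ)) → ∀ k,
      (#{v ∈ C s a | τ v = k} : ℤ) = a k := fun s a h t k => by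
    rw [← cntI (t k).1 (h k).1 (h k).2 (by have := h k; have := t k; omega), ← f2 k
      fun p => if I (n k) (s k) (a k) p then 1 else 0, filter_comm, card_filter]
    push_cast
    refine sum_congr rfl fun v q => ?_
    rw [(mem_filter.1 q).2]
  have c2 : ∀ S a, B a → (∀ k, (#{v ∈ S | τ v = k} : ℤ) = a k) → (S ∈ W ↔ C 0 a ∈ W) :=
    fun S a h t => by
      have : ∀ k, #{v ∈ S | τ v = k} = #{v ∈ C 0 a | τ v = k} := fun k => by
        have := c1 0 a h (by simp) k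
        have := t k
        omega
      exact ⟨swap up types _ _ _ rfl this, swap up types _ _ _ rfl fun k => (this k).symm⟩
  have c3 : ∀ s a, B a → (∀ k, 0 ≤ s k ∧ s k ≤ 2 * (n k : ℤ)) → (C s a ∈ W ↔ C 0 a ∈ W) :=
    fun s a h t => c2 _ a h (c1 s a h t)
  have t2 : ∀ a b c d, B a → B b → B c → B d → a + b = c + d → C 0 a ∈ W → C 0 b ∈ W →
      C 0 c ∈ W ∨ C 0 d ∈ W := fun a b c d ha hb hc hd e x y => by
    obtain ⟨k, z⟩ := rob 2 (by simp) (by simp) ![C 0 a, C a b] ![C 0 c, C c d] (fun v => by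
      have := congrFun e (τ v)
      simp only [card_filter, Fin.sum_univ_two, Matrix.cons_val_zero, Matrix.cons_val_one, C,
        mem_filter, mem_univ, true_and, Pi.zero_apply, Pi.add_apply] at this ⊢
      rw [mul2 (by simp) (f1 v) ⟨ha _, hb _⟩, mul2 (by simp) (f1 v) ⟨hc _, hd _⟩, this])
      fun k => by
        fin_cases k
        exacts [x, (c3 a b hb fun k => by have := ha k; omega).2 y]
    fin_cases k
    exacts [.inl z, .inr ((c3 c d hd fun k => by have := hc k; omega).1 z)]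
  have t3 : ∀ a b u c d w, B a → B b → B u → B c → B d → B w → a + b + u = c + d + w →
      C 0 a ∈ W → C 0 b ∈ W → C 0 u ∈ W → C 0 c ∈ W ∨ C 0 d ∈ W ∨ C 0 w ∈ W :=
    fun a b u c d w ha hb hu hc hd hw e x y r => by
    obtain ⟨k, z⟩ := rob 3 (by simp) (by simp) ![C 0 a, C a b, C (a + b) u]
      ![C 0 c, C c d, C (c + d) w] (fun v => by
      have := congrFun e (τ v)
      simp only [card_filter, Fin.sum_univ_three, Matrix.cons_val_zero, Matrix.cons_val_one, C,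
        Matrix.cons_val, mem_filter, mem_univ, true_and, Pi.zero_apply, Pi.add_apply] at this ⊢
      rw [mul3 (by simp) (f1 v) ⟨ha _, hb _, hu _⟩, mul3 (by simp) (f1 v) ⟨hc _, hd _, hw _⟩, this])
      fun k => by
        fin_cases k
        exacts [x, (c3 a b hb fun k => by have := ha k; omega).2 y, (c3 (a + b) u hu fun k => by
          have := ha k; have := hb k; rw [Pi.add_apply]; omega).2 r]
    fin_cases k
    exacts [.inl z, .inr (.inl ((c3 c d hd fun k => by have := hc k; omega).1 z)),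
      .inr (.inr ((c3 (c + d) w hw fun k => by
        have := hc k; have := hd k; rw [Pi.add_apply]; omega).1 z))]
  let V : P → Fin 3 → ℤ := fun p => ![p.1, p.2.1, p.2.2]
  have bV : ∀ p, Box (n 0) (n 1) 0 (n 2) p → B (V p) := fun p h k => by
    fin_cases k
    exacts [h.1, h.2.1, h.2.2]
  have mo : ∀ (p : P) z, p.2.2 ≤ z → C 0 (V p) ∈ W → C 0 (V (p.1, p.2.1, z)) ∈ W :=
    fun p z h w => up _ _ w fun v q => by
      have : V p (τ v) ≤ V (p.1, p.2.1, z) (τ v) := by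
        generalize τ v = k
        fin_cases k
        exacts [le_rfl, le_rfl, h]
      simp only [C, mem_filter, mem_univ, true_and, Pi.zero_apply] at q ⊢
      omega
  obtain ⟨a, b, q, h⟩ := sep (n := n 0) (m := n 1) (lo := 0) (hi := n 2)
    (W := fun p => Box (n 0) (n 1) 0 (n 2) p ∧ C 0 (V p) ∈ W)
    (L := fun p => Box (n 0) (n 1) 0 (n 2) p ∧ C 0 (V p) ∉ W)
    ⟨fun p h => by tauto, fun _ h => h.1, fun _ h => h.1, fun p r x y e e' => not_le.1 fun z =>
      y.2 (by have := mo p _ z x.2; rwa [e, e'] at this),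
    fun p q r s ⟨p1, p2⟩ ⟨q1, q2⟩ ⟨r1, r2⟩ ⟨s1, s2⟩ e e' => not_le.1 fun z => by
      obtain ⟨x, y, u⟩ : ∃ x y : ℤ, p.2.2 ≤ x ∧ q.2.2 ≤ y ∧ x ≤ n 2 ∧ y ≤ n 2 ∧
          x + y = r.2.2 + s.2.2 :=
        ⟨min (n 2) (r.2.2 + s.2.2 - q.2.2), r.2.2 + s.2.2 - min (n 2 : ℤ) (r.2.2 + s.2.2 - q.2.2),
          by unfold Box at *; omega⟩
      have := t2 _ _ _ _ (bV (p.1, p.2.1, x) (by unfold Box at *; dsimp only; omega))
        (bV (q.1, q.2.1, y) (by unfold Box at *; dsimp only; omega)) (bV r r1) (bV s s1) (by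
          funext k
          fin_cases k
          exacts [e, e', u.2.2.2.2]) (mo p x u.1 p2) (mo q y u.2.1 q2)
      tauto,
    fun p q o r s t ⟨p1, p2⟩ ⟨q1, q2⟩ ⟨o1, o2⟩ ⟨r1, r2⟩ ⟨s1, s2⟩ ⟨t1, t2⟩ e e' =>
      not_le.1 fun z => by
      obtain ⟨x, y, w, u⟩ : ∃ x y w : ℤ, p.2.2 ≤ x ∧ q.2.2 ≤ y ∧ o.2.2 ≤ w ∧ x ≤ n 2 ∧ y ≤ n 2 ∧
          w ≤ n 2 ∧ x + y + w = r.2.2 + s.2.2 + t.2.2 := by
        obtain ⟨x, hx⟩ : ∃ x, x = min (n 2 : ℤ) (r.2.2 + s.2.2 + t.2.2 - q.2.2 - o.2.2) := ⟨_, rfl⟩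
        obtain ⟨y, hy⟩ : ∃ y, y = min (n 2 : ℤ) (r.2.2 + s.2.2 + t.2.2 - x - o.2.2) := ⟨_, rfl⟩
        exact ⟨x, y, r.2.2 + s.2.2 + t.2.2 - x - y, by unfold Box at *; omega⟩
      have := t3 _ _ _ _ _ _ (bV (p.1, p.2.1, x) (by unfold Box at *; dsimp only; omega))
        (bV (q.1, q.2.1, y) (by unfold Box at *; dsimp only; omega))
        (bV (o.1, o.2.1, w) (by unfold Box at *; dsimp only; omega)) (bV r r1) (bV s s1)
        (bV t t1) (by
          funext k
          fin_cases k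
          exacts [e, e', u.2.2.2.2.2.2]) (mo p x u.1 p2) (mo q y u.2.1 q2) (mo o w u.2.2.1 o2)
      tauto⟩
  have K : ∀ S : Finset N, S ∈ W ↔ (q : ℝ) ≤ ∑ v ∈ S, ![-(a : ℝ), -b, 1] (τ v) := fun S => by
    let p : P := (#{v ∈ S | τ v = 0}, #{v ∈ S | τ v = 1}, #{v ∈ S | τ v = 2})
    have l : ∀ k, (#{v ∈ S | τ v = k} : ℤ) ≤ n k := fun k => by
      exact_mod_cast card_le_card (filter_subset_filter _ (subset_univ S))
    have bp : Box (n 0) (n 1) 0 (n 2) p :=
      ⟨⟨by simp [p], l 0⟩, ⟨by simp [p], l 1⟩, by simp [p], l 2⟩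
    rw [c2 S (V p) (bV p bp) fun k => by fin_cases k <;> rfl, ← sum_fiberwise S τ,
      sum_congr rfl fun k _ => sum_congr rfl (g := fun _ => ![-(a : ℝ), -b, 1] k) fun v q => by
        rw [(mem_filter.1 q).2]]
    simp only [sum_const, nsmul_eq_mul, Fin.sum_univ_three, Matrix.cons_val]
    by_cases w : C 0 (V p) ∈ W
    · have := (Rat.cast_lt (K := ℝ)).2 ((h p).1 ⟨bp, w⟩)
      simp only [p] at this
      push_cast at this
      exact iff_of_true w (by linarith)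
    · have := (Rat.cast_lt (K := ℝ)).2 ((h p).2 ⟨bp, w⟩)
      simp only [p] at this
      push_cast at this
      exact iff_of_false w (by linarith)
  refine ⟨fun v => max (![-(a : ℝ), -b, 1] (τ v)) 0, q, fun _ => le_max_right _ _, fun S =>
    ⟨fun w => ((K S).1 w).trans (sum_le_sum fun _ _ => le_max_left _ _), fun w =>
      up _ _ ((K {v ∈ S | 0 ≤ ![-(a : ℝ), -b, 1] (τ v)}).2 (w.trans_eq ?_)) (filter_subset _ _)⟩⟩
  rw [sum_filter]
  exact sum_congr rfl fun v _ => max_def' _ _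

end Pool.Agent.H45.TrGame
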