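import Mathlib

namespace Pool.Agent.H45.Trial

open scoped Classical

/-- indices of the successes (`u i < p i`) occurring before the `x`-th failure -/
def succSet (p : ℕ → ℝ) (x : ℕ) (u : ℕ → ℝ) : Set ℕ :=
  {i | u i < p i ∧ ((Finset.range i).filter fun j => ¬u j < p j).card < x}

end Pool.Agent.H45.Trial
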