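import Pool.Agent.H45.ERWDet
import Pool.Agent.H45.TrialDefs

/-! Moments of the number of successes before the `x`-th failure. -/

set_option maxHeartbeats 400000

open MeasureTheory Set Filter
open scoped ENNReal Classical Topology

namespace Pool.Agent.H45.Trial

open Coin ERW

section Gen

variable {S : Type} (p : S → ℝ) (R L : S → S)

lemma meas_bdd (n : ℕ) : ∀ (s : S) (f : S → ℝ),
    (Measurable fun u => f (run p R L s u n)) ∧ ∃ C, ∀ u, |f (run p R L s u n)| ≤ C := by
  induction n with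
  | zero => intro s f; exact ⟨(measurable_const : Measurable fun _ : ℕ → ℝ => f s), |f s|,
      fun _ => le_rfl⟩
  | succ n ih =>
    intro s f
    have e : ∀ u : ℕ → ℝ, f (run p R L s u (n + 1)) =
        if u 0 < p s then f (run p R L (R s) (fun k => u (k + 1)) n)
        else f (run p R L (L s) (fun k => u (k + 1)) n) := by
      intro u
      conv_lhs => rw [cons_eta u, run_cons]
      split_ifs <;> rfl
    simp only [e]
    have hs : Measurable fun (u : ℕ → ℝ) (k : ℕ) => u (k + 1) :=
      measurable_pi_lambda _ fun k => measurable_pi_apply _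
    obtain ⟨m1, C1, h1⟩ := ih (R s) f
    obtain ⟨m2, C2, h2⟩ := ih (L s) f
    refine ⟨Measurable.ite (measurableSet_lt (measurable_pi_apply 0) measurable_const)
      (m1.comp hs) (m2.comp hs), max C1 C2, fun u => ?_⟩
    split_ifs
    · exact (h1 _).trans (le_max_left _ _)
    · exact (h2 _).trans (le_max_right _ _)

lemma integrable_run (n : ℕ) (s : S) (f : S → ℝ) :
    Integrable (fun u => f (run p R L s u n)) iidU := by
  obtain ⟨m, C, h⟩ := meas_bdd p R L n s f
  exact Integrable.of_bound m.aestronglyMeasurable C (Eventually.of_forall h)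

lemma integral_first (hp : ∀ s, 0 ≤ p s ∧ p s ≤ 1) (s : S) (f : S → ℝ) (n : ℕ) :
    ∫ u, f (run p R L s u (n + 1)) ∂iidU = p s * ∫ u, f (run p R L (R s) u n) ∂iidU +
      (1 - p s) * ∫ u, f (run p R L (L s) u n) ∂iidU := by
  have hi := integrable_run p R L (n + 1) s f
  have hm := (meas_bdd p R L (n + 1) s f).1
  conv_lhs => rw [← map_cons]
  rw [← map_cons] at hi
  rw [integral_map measurable_cons.aemeasurable hm.aestronglyMeasurable, integral_prod
    (fun z : ℝ × (ℕ → ℝ) => f (run p R L s (cons z.1 z.2) (n + 1)))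
    ((integrable_map_measure hm.aestronglyMeasurable measurable_cons.aemeasurable).1 hi)]
  simp only [run_cons]
  have e : (fun a => ∫ u, f (run p R L (if a < p s then R s else L s) u n) ∂iidU) = fun a =>
      (Iio (p s)).indicator (fun _ => ∫ u, f (run p R L (R s) u n) ∂iidU) a +
      (Iio (p s))ᶜ.indicator (fun _ => ∫ u, f (run p R L (L s) u n) ∂iidU) a := by
    funext a
    by_cases h : a < p s
    · simp [h, indicator, not_le.2 h]
    · simp [h, indicator]
  rw [e, integral_add ((integrable_const _).indicator measurableSet_Iio)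
    ((integrable_const _).indicator measurableSet_Iio.compl),
    integral_indicator_const _ measurableSet_Iio, integral_indicator_const _ measurableSet_Iio.compl,
    measureReal_def, measureReal_def, unif_Iio _ (hp s).1 (hp s).2, unif_Ici _ (hp s).1 (hp s).2,
    ENNReal.toReal_ofReal (hp s).1, ENNReal.toReal_ofReal (by linarith [(hp s).2])]
  rfl

lemma integral_last (hp : ∀ s, 0 ≤ p s ∧ p s ≤ 1) (f : S → ℝ) (n : ℕ) : ∀ s : S,
    ∫ u, f (run p R L s u (n + 1)) ∂iidU =
      ∫ u, (fun t => p t * f (R t) + (1 - p t) * f (L t)) (run p R L s u n) ∂iidU := by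
  induction n with
  | zero => intro s; rw [integral_first p R L hp]; simp [run]
  | succ n ih =>
    intro s
    rw [integral_first p R L hp, ih, ih,
      integral_first p R L hp s (fun t => p t * f (R t) + (1 - p t) * f (L t))]

end Gen

variable (x : ℕ)

abbrev T3 := ℕ × ℕ × ℕ

noncomputable def q (s : T3) : ℝ := pp (s.1 + 1)
def Rs (s : T3) : T3 := (s.1 + 1, s.2.1, s.2.2 + if s.2.1 < x then 1 else 0)
def Ls (s : T3) : T3 := (s.1 + 1, s.2.1 + 1, s.2.2)
noncomputable def Z (u : ℕ → ℝ) (n : ℕ) : T3 := run q (Rs x) Ls (0, 0, 0) u n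

lemma hq (s : T3) : 0 ≤ q s ∧ q s ≤ 1 := by
  have := pp_mem (s.1 + 1); unfold q; constructor <;> linarith

lemma Z_eq (u : ℕ → ℝ) (n : ℕ) : Z x u n = (n, ((Finset.range n).filter fun j => ¬u j < pp (j + 1)).card,
    ((Finset.range n).filter fun i => i ∈ succSet (fun i => pp (i + 1)) x u).card) := by
  induction n with
  | zero => rfl
  | succ n ih =>
    rw [Z, run, ← Z, ih]
    simp only [q, Rs, Ls, Finset.range_add_one, Finset.filter_insert, succSet, mem_ofPred_eq]
    by_cases h : u n < pp (n + 1)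
    · simp only [h, if_true, not_true, if_false, true_and]
      split_ifs with h2
      · rw [Finset.card_insert_of_notMem (by simp)]
      · rfl
    · simp only [h, if_false, not_false_iff, if_true, false_and]
      rw [Finset.card_insert_of_notMem (by simp)]

noncomputable def Ex (f : T3 → ℝ) (n : ℕ) : ℝ := ∫ u, f (Z x u n) ∂iidU

lemma Ex_succ (f g : T3 → ℝ) (n : ℕ)
    (h : ∀ a c, pp (n + 1) * f (Rs x (n, a, c)) + (1 - pp (n + 1)) * f (Ls (n, a, c)) = g (n, a, c)) :
    Ex x f (n + 1) = Ex x g n := by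
  rw [Ex, Ex]
  refine (integral_last q (Rs x) Ls hq f n _).trans (integral_congr_ae (Eventually.of_forall fun u => ?_))
  have := Z_eq x u n
  simp only [Z] at this ⊢
  rw [this]
  exact h _ _

lemma intZ (f : T3 → ℝ) (n : ℕ) : Integrable (fun u => f (Z x u n)) iidU :=
  integrable_run q (Rs x) Ls n _ f

lemma Ex_lin (f g : T3 → ℝ) (c : ℝ) (n : ℕ) :
    Ex x (fun s => f s + c * g s) n = Ex x f n + c * Ex x g n := by
  rw [Ex, integral_add (intZ x f n) ((intZ x g n).const_mul c), integral_const_mul]; rfl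

lemma Ex_mono {f g : T3 → ℝ} (n : ℕ) (h : ∀ a c, a ≤ n → f (n, a, c) ≤ g (n, a, c)) :
    Ex x f n ≤ Ex x g n :=
  integral_mono (intZ x f n) (intZ x g n) fun u => by
    simp only [Z_eq]
    exact h _ _ ((Finset.card_filter_le _ _).trans (by simp))

lemma Ex_const (c : ℝ) (n : ℕ) : Ex x (fun _ => c) n = c := by simp [Ex]

noncomputable def A (s : T3) : ℝ := if s.2.1 < x then 1 else 0
noncomputable def V (s : T3) : ℝ := (min s.2.1 x : ℕ)
noncomputable def Y (s : T3) : ℝ := s.2.2 - V x s
noncomputable def gam (n : ℕ) : ℝ := 2 * pp (n + 1) - 1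

lemma V_R (s : T3) : V x (Rs x s) = V x s := rfl
lemma V_L (s : T3) : V x (Ls s) = V x s + A x s := by
  simp only [V, Ls, A]
  split_ifs with h
  · rw [min_eq_left h, min_eq_left h.le]; simp
  · rw [min_eq_right (by omega), min_eq_right (by omega)]; simp
lemma Y_R (s : T3) : Y x (Rs x s) = Y x s + A x s := by
  simp only [Y, V_R]; simp only [Rs, A]; split_ifs <;> push_cast <;> ring
lemma Y_L (s : T3) : Y x (Ls s) = Y x s - A x s := by
  simp only [Y, V_L]; simp only [Ls]; ring
lemma A_sq (s : T3) : A x s * A x s = A x s := by unfold A; split_ifs <;> simp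

lemma a_mem (n : ℕ) : 0 ≤ Ex x (A x) n ∧ Ex x (A x) n ≤ 1 :=
  ⟨(Ex_const x 0 n).ge.trans (Ex_mono x n fun _ _ _ => by unfold A; split_ifs <;> simp),
   (Ex_mono x n fun _ _ _ => by unfold A; split_ifs <;> simp).trans (Ex_const x 1 n).le⟩

lemma a_one {n : ℕ} (h : n < x) : Ex x (A x) n = 1 :=
  le_antisymm (a_mem x n).2 ((Ex_const x 1 n).ge.trans (Ex_mono x n fun _ _ ha => by
    simp only [A]; rw [if_pos (by omega)]))

lemma EY_succ (n : ℕ) : Ex x (Y x) (n + 1) = Ex x (Y x) n + gam n * Ex x (A x) n := by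
  rw [← Ex_lin]
  exact Ex_succ x _ _ n fun a c => by rw [Y_R, Y_L, gam]; ring

lemma sum_a (n : ℕ) : ∑ i ∈ Finset.range n, Ex x (A x) i = Ex x (Y x) n + 2 * Ex x (V x) n := by
  induction n with
  | zero => simp [Ex, Z, run, Y, V]
  | succ n ih =>
    have : Ex x (V x) (n + 1) = Ex x (V x) n + (1 - pp (n + 1)) * Ex x (A x) n := by
      rw [← Ex_lin]
      exact Ex_succ x _ _ n fun a c => by rw [V_R, V_L]; ring
    rw [Finset.sum_range_succ, ih, EY_succ, this, gam]; ring

lemma EW (n : ℕ) : Ex x (fun s => Y x s ^ 2) n = ∑ i ∈ Finset.range n, Ex x (A x) i +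
    ∑ i ∈ Finset.range n, gam i * (2 * Ex x (fun s => Y x s * A x s) i) := by
  induction n with
  | zero => simp [Ex, Z, run, Y, V]
  | succ n ih =>
    have : Ex x (fun s => Y x s ^ 2) (n + 1) = (Ex x (fun s => Y x s ^ 2) n + 1 * Ex x (A x) n) +
        (2 * gam n) * Ex x (fun s => Y x s * A x s) n := by
      rw [← Ex_lin, ← Ex_lin]
      exact Ex_succ x _ _ n fun a c => by
        rw [Y_R, Y_L, gam]; linear_combination A_sq x (n, a, c)
    rw [this, ih, Finset.sum_range_succ, Finset.sum_range_succ]; ring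

lemma gam_nonpos {n : ℕ} (h : 2 ≤ n) : gam n ≤ 0 := by
  rw [gam, pp_succ, SS_ge h, SS_ge (by omega)]
  have := tau_anti (Nat.le_succ n)
  linarith

lemma EY_mem (hx : 2 ≤ x) (n : ℕ) : SS n ≤ Ex x (Y x) n ∧ Ex x (Y x) n ≤ SS (min n x) := by
  induction n with
  | zero => simp [Ex, Z, run, Y, V, SS]
  | succ n ih =>
    have e : gam n = SS (n + 1) - SS n := pp_succ n
    rw [EY_succ]
    by_cases h : n < x
    · rw [a_one x h, min_eq_left h]
      rw [min_eq_left h.le] at ih
      constructor <;> linarith [ih.1, ih.2]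
    · rw [min_eq_right (by omega)] at ih ⊢
      have := gam_nonpos (show 2 ≤ n by omega)
      have := a_mem x n
      constructor <;> nlinarith [ih.1, ih.2]

lemma SS_le (n : ℕ) : SS n ≤ 3 / 2 := by
  have := tau_le n
  have := tau_le 2
  unfold SS; split_ifs <;> linarith

lemma sum_abs_gam (n : ℕ) : ∑ i ∈ Finset.range n, |gam i| ≤ 2 := by
  have key : ∀ k, ∑ i ∈ Finset.range (k + 2), |gam i| = 2 * SS 2 - SS (k + 2) := by
    intro k
    induction k with
    | zero =>
      have a := tau_pos 2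
      have e0 : gam 0 = (1 + tau 2) / 2 := by rw [gam, pp_succ]; simp [SS]
      have e1 : gam 1 = (1 + tau 2) / 2 := by rw [gam, pp_succ]; simp [SS]; ring
      rw [Finset.sum_range_succ, Finset.sum_range_one, e0, e1, abs_of_pos (by linarith),
        SS_ge le_rfl]
      ring
    | succ k ih =>
      rw [show k + 1 + 2 = (k + 2) + 1 by ring, Finset.sum_range_succ, ih,
        abs_of_nonpos (gam_nonpos (by omega)), gam, pp_succ]
      ring
  refine le_trans (Finset.sum_le_sum_of_subset_of_nonneg (Finset.range_mono (Nat.le_add_right n 2))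
    fun _ _ _ => abs_nonneg _) ?_
  rw [key, SS_ge le_rfl, SS_ge (by omega)]
  linarith [tau_le 2, tau_pos (n + 2)]

lemma EV_le (n : ℕ) : Ex x (V x) n ≤ x :=
  (Ex_mono x n fun _ _ _ => by simp [V]).trans (Ex_const x x n).le

lemma cross_le (s B : ℝ) (hs : 0 < s) (hB0 : 0 ≤ B) (n : ℕ)
    (h : ∀ i < n, Ex x (fun s => Y x s ^ 2) i ≤ B) :
    |∑ i ∈ Finset.range n, gam i * (2 * Ex x (fun s => Y x s * A x s) i)| ≤ 2 * (B / s + s) := by
  have hB : ∀ i < n, |2 * Ex x (fun s => Y x s * A x s) i| ≤ B / s + s := by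
    intro i hi
    have pt : ∀ t : T3, 2 * |Y x t * A x t| ≤ s + 1 / s * Y x t ^ 2 := fun t => by
      have h1 : |Y x t * A x t| ≤ |Y x t| := by unfold A; split_ifs <;> simp
      have h2 : 2 * |Y x t| ≤ s + 1 / s * Y x t ^ 2 := by
        rw [← sq_abs, ← sub_nonneg, show s + 1 / s * |Y x t| ^ 2 - 2 * |Y x t| =
          (|Y x t| - s) ^ 2 / s by field_simp; ring]
        positivity
      linarith
    have e := Ex_lin x (fun _ => s) (fun t => Y x t ^ 2) (1 / s) i
    rw [Ex_const] at e
    have b : 1 / s * Ex x (fun t => Y x t ^ 2) i ≤ B / s := by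
      rw [one_div_mul_eq_div]; exact div_le_div_of_nonneg_right (h i hi) hs.le
    have u1 := Ex_lin x (fun _ => 0) (fun t => Y x t * A x t) 2 i
    have u2 := Ex_lin x (fun _ => 0) (fun t => Y x t * A x t) (-2) i
    rw [Ex_const] at u1 u2
    have v1 : Ex x (fun t => 0 + 2 * (Y x t * A x t)) i ≤ Ex x (fun t => s + 1 / s * Y x t ^ 2) i :=
      Ex_mono x i fun a c _ => by
        linarith [pt (i, a, c), le_abs_self (Y x (i, a, c) * A x (i, a, c))]
    have v2 : Ex x (fun t => 0 + -2 * (Y x t * A x t)) i ≤ Ex x (fun t => s + 1 / s * Y x t ^ 2) i :=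
      Ex_mono x i fun a c _ => by
        linarith [pt (i, a, c), neg_abs_le (Y x (i, a, c) * A x (i, a, c))]
    rw [abs_le]; constructor <;> linarith
  have h0 : 0 ≤ B / s + s := by positivity
  calc _ ≤ ∑ i ∈ Finset.range n, |gam i| * (B / s + s) := by
        refine (Finset.abs_sum_le_sum_abs _ _).trans (Finset.sum_le_sum fun i hi => ?_)
        rw [abs_mul]
        exact mul_le_mul_of_nonneg_left (hB i (Finset.mem_range.1 hi)) (abs_nonneg _)
    _ ≤ _ := by rw [← Finset.sum_mul]; exact mul_le_mul_of_nonneg_right (sum_abs_gam n) h0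

lemma EY_le (n : ℕ) : Ex x (Y x) n ≤ 2 := by
  refine le_trans ?_ (sum_abs_gam n)
  induction n with
  | zero => simp [Ex, Z, run, Y, V]
  | succ n ih =>
    rw [EY_succ, Finset.sum_range_succ]
    have := a_mem x n
    nlinarith [le_abs_self (gam n), abs_nonneg (gam n)]

lemma W_le (s : ℝ) (hs : 4 ≤ s) (n : ℕ) :
    Ex x (fun s => Y x s ^ 2) n ≤ 4 * x + 4 + 4 * s := by
  induction n using Nat.strong_induction_on with
  | _ n ih =>
    have hB : (0 : ℝ) ≤ 4 * x + 4 + 4 * s := by positivity
    have h1 := (abs_le.1 (cross_le x s _ (by linarith) hB n ih)).2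
    have h2 : (4 * x + 4 + 4 * s) / s ≤ (4 * x + 4 + 4 * s) / 4 :=
      div_le_div_of_nonneg_left hB (by norm_num) hs
    rw [EW, sum_a]
    linarith [EY_le x n, EV_le x n]

noncomputable def U (u : ℕ → ℝ) : ℝ := ((succSet (fun i => pp (i + 1)) x u).ncard : ℕ)

lemma card_le_U {u : ℕ → ℝ} (h : (succSet (fun i => pp (i + 1)) x u).Finite) (n : ℕ) :
    (Z x u n).2.2 ≤ (succSet (fun i => pp (i + 1)) x u).ncard := by
  rw [Z_eq]
  simp only
  rw [← Set.ncard_coe_finset]
  exact Set.ncard_le_ncard (fun i hi => (Finset.mem_filter.1 (Finset.mem_coe.1 hi)).2) h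

lemma ev_eq {u : ℕ → ℝ} (h : (succSet (fun i => pp (i + 1)) x u).Finite) :
    ∀ᶠ n in atTop, Y x (Z x u n) = U x u - x ∧ V x (Z x u n) = x := by
  obtain ⟨N, hN⟩ := h.bddAbove
  have h1 : ∃ M, x ≤ ((Finset.range M).filter fun j => ¬u j < pp (j + 1)).card := by
    by_contra hc'
    have hc : ∀ M, ((Finset.range M).filter fun j => ¬u j < pp (j + 1)).card < x :=
      fun M => not_le.1 fun h => hc' ⟨M, h⟩
    set M := (succSet (fun i => pp (i + 1)) x u).ncard + x with hM
    have a := card_le_U x h M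
    have b := Finset.card_filter_add_card_filter_not (s := Finset.range M) fun j => u j < pp (j + 1)
    have c := hc M
    rw [Z_eq] at a
    have : ((Finset.range M).filter fun i => i ∈ succSet (fun i => pp (i + 1)) x u) =
        (Finset.range M).filter fun j => u j < pp (j + 1) :=
      Finset.filter_congr fun i _ => ⟨fun h => h.1, fun h => ⟨h, hc i⟩⟩
    simp only [this] at a
    simp only [Finset.card_range] at b
    omega
  obtain ⟨M, hM⟩ := h1
  filter_upwards [eventually_gt_atTop N, eventually_ge_atTop M] with n h1 h2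
  have e1 : V x (Z x u n) = x := by
    rw [V, Z_eq, min_eq_right]
    exact hM.trans (Finset.card_le_card (Finset.filter_subset_filter _ (Finset.range_mono h2)))
  refine ⟨?_, e1⟩
  rw [Y, e1, Z_eq, U]
  simp only
  rw [← Set.ncard_coe_finset]
  congr 3
  ext i
  simp only [Finset.coe_filter, Finset.mem_range, mem_ofPred_eq, and_iff_right_iff_imp]
  exact fun hi => (hN hi).trans_lt h1

lemma V_mem (s : T3) : 0 ≤ V x s ∧ V x s ≤ x := ⟨by unfold V; positivity, by simp [V]⟩

lemma G_lt : ∫⁻ u, ⨆ n, ENNReal.ofReal (((Z x u n).2.2 : ℝ) ^ 2) ∂iidU < ∞ := by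
  have hm : Monotone fun n u => ENNReal.ofReal (((Z x u n).2.2 : ℝ) ^ 2) := by
    intro a b hab u
    refine ENNReal.ofReal_le_ofReal (pow_le_pow_left₀ (by positivity) ?_ 2)
    simp only [Z_eq, Nat.cast_le]
    exact Finset.card_le_card (Finset.filter_subset_filter _ (Finset.range_mono hab))
  rw [lintegral_iSup (f := fun n u => ENNReal.ofReal (((Z x u n).2.2 : ℝ) ^ 2))
    (fun n => measurable_run q (Rs x) Ls n _ fun s => ENNReal.ofReal ((s.2.2 : ℝ) ^ 2)) hm]
  · refine lt_of_le_of_lt (iSup_le fun n => ?_)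
      (ENNReal.ofReal_lt_top (r := 2 * x ^ 2 + 2 * (4 * x + 4 + 4 * 4)))
    rw [← ofReal_integral_eq_lintegral_ofReal (intZ x (fun s => (s.2.2 : ℝ) ^ 2) n)
      (Eventually.of_forall fun u => by positivity)]
    refine ENNReal.ofReal_le_ofReal ?_
    have e := Ex_lin x (fun _ => 2 * x ^ 2) (fun t => Y x t ^ 2) 2 n
    rw [Ex_const] at e
    have : Ex x (fun s => (s.2.2 : ℝ) ^ 2) n ≤ Ex x (fun t => 2 * x ^ 2 + 2 * Y x t ^ 2) n :=
      Ex_mono x n fun a c _ => by
        have := V_mem x (n, a, c)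
        simp only [Y]
        nlinarith [sq_nonneg ((c : ℝ) - 2 * V x (n, a, c))]
    have h3 := W_le x 4 le_rfl n
    exact this.trans (by linarith)

lemma ae_fin : ∀ᵐ u ∂iidU, (succSet (fun i => pp (i + 1)) x u).Finite := by
  filter_upwards [ae_lt_top (Measurable.iSup fun n => measurable_run q (Rs x) Ls n _
    fun s => ENNReal.ofReal ((s.2.2 : ℝ) ^ 2)) (G_lt x).ne] with u hu
  by_contra hinf
  obtain ⟨k, hk⟩ := ENNReal.exists_nat_gt hu.ne
  obtain ⟨t, ht, hc⟩ := Set.Infinite.exists_subset_card_eq hinf k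
  have : k ≤ (Z x u (t.sup id + 1)).2.2 := by
    rw [Z_eq, ← hc]
    exact Finset.card_le_card fun i hi => Finset.mem_filter.2
      ⟨Finset.mem_range.2 (Nat.lt_succ_of_le (Finset.le_sup (f := id) hi)), ht hi⟩
  refine absurd hk (not_lt.2 (le_trans ?_ (le_iSup _ (t.sup id + 1))))
  rw [← ENNReal.ofReal_natCast]
  refine ENNReal.ofReal_le_ofReal ?_
  change (k : ℝ) ≤ ((Z x u (t.sup id + 1)).2.2 : ℝ) ^ 2
  exact_mod_cast this.trans (Nat.le_self_pow (by norm_num) _)

lemma memLp_U : MemLp (U x) 2 iidU := by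
  have hm : AEStronglyMeasurable (U x) iidU := by
    refine aestronglyMeasurable_of_tendsto_ae atTop (f := fun n u => Y x (Z x u n) + x)
      (fun n => (intZ x (fun s => Y x s + x) n).1) ?_
    filter_upwards [ae_fin x] with u hu
    refine tendsto_const_nhds.congr' ?_
    filter_upwards [ev_eq x hu] with n hn
    rw [hn.1]; ring
  rw [memLp_two_iff_integrable_sq hm]
  refine ⟨hm.pow 2, (hasFiniteIntegral_iff_ofReal (Eventually.of_forall fun u => by positivity)).2
    (lt_of_le_of_lt (lintegral_mono_ae ?_) (G_lt x))⟩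
  filter_upwards [ae_fin x] with u hu
  obtain ⟨n, hn⟩ := (ev_eq x hu).exists
  refine le_trans (le_of_eq ?_) (le_iSup _ n)
  rw [Y, hn.2] at hn
  rw [show U x u = (Z x u n).2.2 by linarith [hn.1]]

lemma limits : Tendsto (Ex x (Y x)) atTop (𝓝 (∫ u, (U x u - x) ∂iidU)) ∧
    Tendsto (Ex x fun s => Y x s ^ 2) atTop (𝓝 (∫ u, (U x u - x) ^ 2 ∂iidU)) ∧
    Tendsto (Ex x (V x)) atTop (𝓝 x) := by
  have hb : ∀ n, ∀ᵐ u ∂iidU, |Y x (Z x u n)| ≤ U x u + x := fun n => by
    filter_upwards [ae_fin x] with u hu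
    have a : ((Z x u n).2.2 : ℝ) ≤ U x u := by unfold U; exact_mod_cast card_le_U x hu n
    have b := V_mem x (Z x u n)
    have c : (0 : ℝ) ≤ (Z x u n).2.2 := by positivity
    rw [Y, abs_le]; constructor <;> linarith
  have h2 : MemLp (fun u => U x u + x) 2 iidU := (memLp_U x).add (memLp_const _)
  refine ⟨tendsto_integral_of_dominated_convergence _ (fun n => (intZ x _ n).1)
      (h2.integrable (by norm_num)) hb ?_,
    tendsto_integral_of_dominated_convergence _ (fun n => (intZ x (fun s => Y x s ^ 2) n).1)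
      h2.integrable_sq (fun n => ?_) ?_, ?_⟩
  · filter_upwards [ae_fin x] with u hu
    exact tendsto_const_nhds.congr' ((ev_eq x hu).mono fun n hn => hn.1.symm)
  · filter_upwards [hb n] with u hu
    rw [norm_pow]
    exact pow_le_pow_left₀ (norm_nonneg _) hu 2
  · filter_upwards [ae_fin x] with u hu
    exact tendsto_const_nhds.congr' ((ev_eq x hu).mono fun n hn => by simp only [hn.1])
  · have := tendsto_integral_of_dominated_convergence (μ := iidU) (F := fun n u => V x (Z x u n))
      (f := fun _ => (x : ℝ)) (fun _ => (x : ℝ)) (fun n => (intZ x _ n).1) (integrable_const _)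
      (fun n => Eventually.of_forall fun u => by
        rw [Real.norm_of_nonneg (V_mem x _).1]; exact (V_mem x _).2) (by
        filter_upwards [ae_fin x] with u hu
        exact tendsto_const_nhds.congr' ((ev_eq x hu).mono fun n hn => hn.2.symm))
    rw [integral_const, probReal_univ, one_smul] at this
    exact this

lemma rho_mem (hx : 2 ≤ x) : 1 ≤ ∫ u, (U x u - x) ∂iidU ∧ ∫ u, (U x u - x) ∂iidU ≤ SS x :=
  ⟨le_of_tendsto_of_tendsto' SS_tendsto (limits x).1 fun n => (EY_mem x hx n).1,
    le_of_tendsto (limits x).1 ((eventually_ge_atTop x).mono fun n hn => by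
      have := (EY_mem x hx n).2
      rwa [min_eq_right hn] at this)⟩

lemma nu_mem (hx : 16 ≤ x) :
    |∫ u, (U x u - x) ^ 2 ∂iidU - (∫ u, (U x u - x) ∂iidU + 2 * x)| ≤ 13 * √x := by
  have hx' : (16 : ℝ) ≤ x := by exact_mod_cast hx
  have hs : (4 : ℝ) ≤ √x := Real.le_sqrt_of_sq_le (by linarith)
  have hsq : √x * √x = x := Real.mul_self_sqrt (by linarith)
  refine le_of_tendsto' (((limits x).2.1.sub ((limits x).1.add ((limits x).2.2.const_mul 2))).abs)
    fun n => ?_
  have := cross_le x √x (4 * x + 4 + 4 * √x) (by linarith) (by positivity) n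
    fun i _ => W_le x _ hs i
  rw [EW, sum_a, add_sub_cancel_left]
  refine this.trans ?_
  have : (4 * x + 4 + 4 * √x) / √x ≤ 11 / 2 * √x := by
    rw [div_le_iff₀ (by linarith)]; nlinarith
  linarith

lemma rho_lim : Tendsto (fun x : ℕ => ∫ u, (U x u - x) ∂iidU) atTop (𝓝 1) :=
  tendsto_of_tendsto_of_tendsto_of_le_of_le' tendsto_const_nhds SS_tendsto
    ((eventually_ge_atTop 2).mono fun x hx => (rho_mem x hx).1)
    ((eventually_ge_atTop 2).mono fun x hx => (rho_mem x hx).2)

lemma mu_lim : Tendsto (fun x : ℕ => (∫ u, U x u ∂iidU) / x) atTop (𝓝 1) := by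
  have := (rho_lim.div_atTop tendsto_natCast_atTop_atTop).add_const 1
  rw [zero_add] at this
  refine this.congr' ((eventually_gt_atTop 0).mono fun x hx => ?_)
  have : (x : ℝ) ≠ 0 := by positivity
  simp only
  rw [integral_sub ((memLp_U x).integrable (by norm_num)) (integrable_const _)]
  simp; field_simp; ring

lemma nu_lim : Tendsto (fun x : ℕ => (∫ u, (U x u - x) ^ 2 ∂iidU) / x) atTop (𝓝 2) := by
  have h1 : Tendsto (fun x : ℕ => (∫ u, (U x u - x) ^ 2 ∂iidU -
      (∫ u, (U x u - x) ∂iidU + 2 * x)) / x) atTop (𝓝 0) := by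
    have h := (Real.tendsto_sqrt_atTop.comp tendsto_natCast_atTop_atTop).const_div_atTop 13
    refine squeeze_zero_norm' ((eventually_ge_atTop 16).mono fun x hx => ?_) h
    have hx' : (16 : ℝ) ≤ x := by exact_mod_cast hx
    have hs : (4 : ℝ) ≤ √x := Real.le_sqrt_of_sq_le (by linarith)
    have hsq : √x * √x = x := Real.mul_self_sqrt (by linarith)
    rw [norm_div, Real.norm_natCast, Function.comp, div_le_div_iff₀ (by linarith) (by linarith)]
    have := nu_mem x hx
    rw [Real.norm_eq_abs]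
    nlinarith
  have := (h1.add (rho_lim.div_atTop tendsto_natCast_atTop_atTop)).add_const 2
  rw [zero_add, zero_add] at this
  refine this.congr' ((eventually_gt_atTop 0).mono fun x hx => ?_)
  have : (x : ℝ) ≠ 0 := by positivity
  simp only
  field_simp; ring

end Pool.Agent.H45.Trial
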