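import Pool.Agent.H45.ChainDefs

set_option autoImplicit false

namespace Pool.Agent.H45.Urn

open MeasureTheory ProbabilityTheory Filter
open scoped NNReal

/-- total number of black balls; urn `i` holds `(s i).1` black and `(s i).2` red balls -/
def black {d : ℕ} (s : Fin d → ℕ × ℕ) : ℕ := ∑ i, (s i).1

/-- total number of red balls -/
def red {d : ℕ} (s : Fin d → ℕ × ℕ) : ℕ := ∑ i, (s i).2

/-- probability `W(B*) / (W(B*) + W(R*))` that a given urn receives a black ball -/
noncomputable def probBlack {d : ℕ} (W : ℕ → ℝ≥0) (s : Fin d → ℕ × ℕ) : unitInterval :=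
  ⟨(W (black s) : ℝ) / (W (black s) + W (red s)), by positivity,
    div_le_one_of_le₀ (le_add_of_nonneg_right (by positivity)) (by positivity)⟩

/-- urn `i` receives a black ball if `c i = true` and a red ball otherwise -/
def addBalls {d : ℕ} (s : Fin d → ℕ × ℕ) (c : Fin d → Bool) : Fin d → ℕ × ℕ :=
  fun i => if c i then ((s i).1 + 1, (s i).2) else ((s i).1, (s i).2 + 1)

/-- one step of the interacting urn mechanism with interaction parameter one -/
noncomputable def urnKernel (d : ℕ) (W : ℕ → ℝ≥0) : Kernel (Fin d → ℕ × ℕ) (Fin d → ℕ × ℕ) :=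
  Kernel.ofFunOfCountable fun s =>
    (Measure.pi fun _ : Fin d => bernoulliMeasure true false (probBlack W s)).map (addBalls s)

instance (d : ℕ) (W : ℕ → ℝ≥0) : IsMarkovKernel (urnKernel d W) :=
  ⟨fun _ => Measure.isProbabilityMeasure_map Measurable.of_discrete.aemeasurable⟩

/-- from some time on only balls of one colour are added -/
def monopoly (d : ℕ) : Set (ℕ → Fin d → ℕ × ℕ) :=
  {x | (∀ᶠ n in atTop, red (x (n + 1)) = red (x n)) ∨
    (∀ᶠ n in atTop, black (x (n + 1)) = black (x n))}

end Pool.Agent.H45.Urn
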