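import Pool.Agent.H45.Chain
import Pool.Agent.H45.UrnDefs

set_option autoImplicit false
set_option maxHeartbeats 400000

namespace Pool.Agent.H45.Urn

open MeasureTheory ProbabilityTheory Filter Finset Pool.Agent.H45.Chain
open scoped NNReal ENNReal

def Wt (n : ℕ) : ℝ≥0 := if n % 2 = n.sqrt % 2 then 2 ^ n.sqrt else 2 ^ (n.sqrt ^ 2)

lemma Wt_ge (n : ℕ) : (2 : ℝ) ^ n.sqrt ≤ Wt n := by
  unfold Wt
  split_ifs
  · simp
  · push_cast
    exact pow_le_pow_right₀ (by norm_num) (Nat.le_self_pow (by norm_num) _)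

lemma Wt_pos (n : ℕ) : 0 < Wt n := by
  have := Wt_ge n
  have h : (0 : ℝ) < Wt n := lt_of_lt_of_le (by positivity) this
  exact_mod_cast h

lemma pow_four_le (j : ℕ) : (j + 1) ^ 4 ≤ 41 * 2 ^ j := by
  rcases le_or_gt 5 j with h | h
  · induction j, h using Nat.le_induction with
    | base => norm_num
    | succ j hj ih =>
      obtain ⟨k, rfl⟩ := Nat.exists_eq_add_of_le hj
      have : (5 + k + 1 + 1) ^ 4 ≤ 2 * (5 + k + 1) ^ 4 := by
        nlinarith [Nat.zero_le (k ^ 2), Nat.zero_le (k ^ 3), Nat.zero_le (k ^ 4)]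
      rw [pow_succ 2]
      omega
  · interval_cases j <;> norm_num

lemma Wt_summable : Summable fun n : ℕ => 1 / (Wt (n + 1) : ℝ) := by
  have hs : Summable fun n : ℕ => 41 * (1 / ((n + 1 : ℕ) : ℝ) ^ 2) :=
    ((summable_nat_add_iff 1).2 (Real.summable_one_div_nat_pow.2 (by norm_num))).mul_left 41
  refine Summable.of_nonneg_of_le (fun n => by positivity) (fun n => ?_) hs
  have h1 := Wt_ge (n + 1)
  have h2 : (n + 1) ^ 2 ≤ 41 * 2 ^ (n + 1).sqrt := by
    have h3 := Nat.lt_succ_sqrt' (n + 1)
    have h4 := pow_four_le (n + 1).sqrt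
    calc (n + 1) ^ 2 ≤ (((n + 1).sqrt + 1) ^ 2) ^ 2 := Nat.pow_le_pow_left h3.le 2
      _ = ((n + 1).sqrt + 1) ^ 4 := by ring
      _ ≤ _ := h4
  have h3 : (((n + 1 : ℕ) : ℝ)) ^ 2 ≤ 41 * 2 ^ (n + 1).sqrt := by exact_mod_cast h2
  have h4 : (0 : ℝ) < Wt (n + 1) := by exact_mod_cast Wt_pos _
  rw [mul_one_div, div_le_div_iff₀ h4 (by positivity)]
  linarith

lemma sqrt_eq (j r : ℕ) (h : r ≤ 2 * j) : (j ^ 2 + r).sqrt = j := by
  symm
  rw [Nat.eq_sqrt']
  constructor <;> nlinarith

lemma Wt_trap (j a : ℕ) (h : a ≤ j) : (Wt (j ^ 2 + 2 * a) : ℝ) = 2 ^ j := by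
  rw [Wt, sqrt_eq j _ (by omega), if_pos]
  · simp
  · rcases Nat.even_or_odd' j with ⟨k, rfl | rfl⟩
    · rw [show (2 * k) ^ 2 + 2 * a = 2 * (2 * k ^ 2 + a) by ring]; omega
    · rw [show (2 * k + 1) ^ 2 + 2 * a = 2 * (2 * k ^ 2 + 2 * k + a) + 1 by ring]; omega

lemma Wt_fast (j a : ℕ) (h : a < j) : (Wt (j ^ 2 + 2 * a + 1) : ℝ) = 2 ^ (j ^ 2) := by
  rw [Wt, add_assoc, sqrt_eq j _ (by omega), if_neg]
  · simp
  · rcases Nat.even_or_odd' j with ⟨k, rfl | rfl⟩
    · rw [show (2 * k) ^ 2 + (2 * a + 1) = 2 * (2 * k ^ 2 + a) + 1 by ring]; omega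
    · rw [show (2 * k + 1) ^ 2 + (2 * a + 1) = 2 * (2 * k ^ 2 + 2 * k + a + 1) by ring]; omega

abbrev St := Fin 2 → ℕ × ℕ

def Good (s : St) : Prop := ∃ j, j ^ 2 ≤ red s ∧ black s ≤ (j + 2) ^ 2 ∧ red s ≤ black s

def A (c n : ℕ) : Set (ℕ → St) := {x | ∀ t ≤ n, Good (x t) ∧ black (x t) + red (x t) = c + 2 * t}

lemma measurableSet_A (c n : ℕ) : MeasurableSet (A c n) := by
  have : A c n = ⋂ t ∈ Set.Iic n,
      (fun x : ℕ → St => x t) ⁻¹' {s | Good s ∧ black s + red s = c + 2 * t} := by
    ext x; simp [A]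
  rw [this]
  exact MeasurableSet.biInter (Set.to_countable _) fun s _ => measurable_pi_apply s .of_discrete

/-- failure probability -/
noncomputable def F (s : St) (n : ℕ) : ℝ :=
  (pathLaw (urnKernel 2 Wt) s).real (A (black s + red s) n)ᶜ

lemma F_le_one (s : St) (n : ℕ) : F s n ≤ 1 := measureReal_le_one

lemma F_nonneg (s : St) (n : ℕ) : 0 ≤ F s n := measureReal_nonneg

lemma F_zero (s : St) (h : Good s) : F s 0 = 0 := by
  rw [F, Measure.real, measure_first_step _ _ _ (measurableSet_A _ _).compl]
  have : cons s ⁻¹' (A (black s + red s) 0)ᶜ = ∅ := by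
    ext x; simp [A, h]
  simp [this]

lemma black_add (s : St) (b c : Bool) :
    black (addBalls s ![b, c]) = black s + (if b then 1 else 0) + (if c then 1 else 0) := by
  cases b <;> cases c <;> simp [black, addBalls, Fin.sum_univ_two] <;> ring

lemma red_add (s : St) (b c : Bool) :
    red (addBalls s ![b, c]) = red s + (if b then 0 else 1) + (if c then 0 else 1) := by
  cases b <;> cases c <;> simp [red, addBalls, Fin.sum_univ_two] <;> ring

lemma F_succ (s : St) (h : Good s) (n : ℕ) (q : ℝ) (hq : q = probBlack Wt s) :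
    F s (n + 1) = q * q * F (addBalls s ![true, true]) n +
      q * (1 - q) * F (addBalls s ![true, false]) n +
      (1 - q) * q * F (addBalls s ![false, true]) n +
      (1 - q) * (1 - q) * F (addBalls s ![false, false]) n := by
  have e : cons s ⁻¹' (A (black s + red s) (n + 1))ᶜ = (A (black s + red s + 2) n)ᶜ := by
    rw [Set.preimage_compl]
    congr 1
    ext x
    simp only [A, Set.mem_preimage, Set.mem_ofPred_eq]
    constructor
    · intro hh t ht
      have := hh (t + 1) (by omega)
      simp only [cons_succ] at this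
      exact ⟨this.1, by omega⟩
    · intro hh t ht
      cases t with
      | zero => exact ⟨h, rfl⟩
      | succ t =>
        have := hh t (by omega)
        exact ⟨this.1, by simp only [cons_succ]; omega⟩
  have e2 : ∀ b c, F (addBalls s ![b, c]) n =
      (pathLaw (urnKernel 2 Wt) (addBalls s ![b, c]) (A (black s + red s + 2) n)ᶜ).toReal := by
    intro b c
    rw [F, black_add, red_add]
    congr 3
    cases b <;> cases c <;> simp <;> ring
  rw [F, Measure.real, measure_first_step _ _ _ (measurableSet_A _ _).compl, e]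
  simp only [mul_comm ((urnKernel 2 Wt) s _)]
  have hK : urnKernel 2 Wt s = (Measure.pi fun _ : Fin 2 =>
      bernoulliMeasure true false (probBlack Wt s)).map (addBalls s) := rfl
  rw [← lintegral_countable', hK,
    lintegral_map .of_discrete .of_discrete, lintegral_fintype,
    ← (finTwoArrowEquiv Bool).symm.sum_comp, Fintype.sum_prod_type]
  simp only [e2, Fintype.sum_bool, finTwoArrowEquiv_symm_apply, Measure.pi_singleton,
    Fin.prod_univ_two, Matrix.cons_val_zero, Matrix.cons_val_one]
  have b1 : (bernoulliMeasure true false (probBlack Wt s) {true}).toReal = q := by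
    simp [bernoulliMeasure_def, hq]
  have b2 : (bernoulliMeasure true false (probBlack Wt s) {false}).toReal = 1 - q := by
    simp [bernoulliMeasure_def, hq]
  rw [ENNReal.toReal_add (by finiteness) (by finiteness),
    ENNReal.toReal_add (by finiteness) (by finiteness),
    ENNReal.toReal_add (by finiteness) (by finiteness)]
  simp only [ENNReal.toReal_mul, b1, b2]
  ring

lemma key (n : ℕ) : ∀ j, 4 ≤ j →
    (∀ a b (s : St), a + b < j → red s = j ^ 2 + 2 * a → black s = (j + 1) ^ 2 + 2 * b →
      F s n ≤ (5 / 9) ^ (j - (a + b)) + 6 * (5 / 9) ^ j) ∧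
    (∀ a b (s : St), a < j → b ≤ j → red s = j ^ 2 + 2 * a + 1 →
      black s = (j + 1) ^ 2 + 2 * b + 1 →
      F s n ≤ (2 * j + 1 - b) * (1 / 4) ^ j + 7 * (5 / 9) ^ (j + 1)) ∧
    (∀ a (s : St), a < j → red s = j ^ 2 + 2 * a + 1 → black s = (j + 2) ^ 2 →
      F s n ≤ (j - a) * (1 / 4) ^ j + 7 * (5 / 9) ^ (j + 1)) := by
  induction n with
  | zero =>
    intro j hj
    refine ⟨fun a b s h1 h2 h3 => ?_, fun a b s h1 h2 h3 h4 => ?_, fun a s h1 h2 h3 => ?_⟩
    · rw [F_zero s ⟨j, by omega, by nlinarith, by nlinarith⟩]; positivity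
    · rw [F_zero s ⟨j, by omega, by nlinarith, by nlinarith⟩]
      have : (b : ℝ) ≤ j := by exact_mod_cast h2
      have : (0 : ℝ) ≤ 2 * j + 1 - b := by linarith
      positivity
    · rw [F_zero s ⟨j, by omega, by nlinarith, by nlinarith⟩]
      have : (a : ℝ) ≤ j := by exact_mod_cast h1.le
      have : (0 : ℝ) ≤ j - a := by linarith
      positivity
  | succ n ih =>
    intro j hj
    obtain ⟨ih1, ih2, ih3⟩ := ih j hj
    refine ⟨fun a b s h1 h2 h3 => ?_, fun a b s h1 h2 h3 h4 => ?_, fun a s h1 h2 h3 => ?_⟩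
    · have hq : (2 / 3 : ℝ) = probBlack Wt s := by
        simp only [probBlack]
        rw [h2, h3, Wt_trap j a (by omega), Wt_trap (j + 1) b (by omega), pow_succ]
        field_simp
        norm_num
      rw [F_succ s ⟨j, by omega, by nlinarith, by nlinarith⟩ n _ hq]
      have hE : ∀ s' : St, red s' = j ^ 2 + 2 * a + 1 → black s' = (j + 1) ^ 2 + 2 * b + 1 →
          F s' n ≤ 6 * (5 / 9) ^ j := by
        intro s' h4 h5
        refine (ih2 a b s' (by omega) (by omega) h4 h5).trans ?_
        have h6 : ((2 * j + 1 : ℕ) : ℝ) ≤ 2 * 2 ^ j := by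
          have : j < 2 ^ j := Nat.lt_two_pow_self
          exact_mod_cast (by omega : 2 * j + 1 ≤ 2 * 2 ^ j)
        have h7 : (2 : ℝ) ^ j * (1 / 4) ^ j ≤ (5 / 9) ^ j := by
          rw [← mul_pow]; exact pow_le_pow_left₀ (by norm_num) (by norm_num) j
        have h8 : (0 : ℝ) ≤ b := by positivity
        have h9 : (0 : ℝ) < (1 / 4) ^ j := by positivity
        have h10 : (0 : ℝ) < (5 / 9) ^ j := by positivity
        push_cast at h6
        rw [pow_succ]
        nlinarith
      have hT : ∀ (s' : St) (a' b' : ℕ), a' + b' = a + b + 1 → red s' = j ^ 2 + 2 * a' →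
          black s' = (j + 1) ^ 2 + 2 * b' →
          F s' n ≤ (5 / 9) ^ (j - (a + b + 1)) + 6 * (5 / 9) ^ j := by
        intro s' a' b' h4 h5 h6
        by_cases h7 : a' + b' < j
        · rw [← h4]; exact ih1 a' b' s' h7 h5 h6
        · rw [show j - (a + b + 1) = 0 by omega, pow_zero]
          have := F_le_one s' n
          have : (0 : ℝ) < (5 / 9) ^ j := by positivity
          linarith
      have g1 := hT (addBalls s ![true, true]) a (b + 1) (by omega) (by simp [red_add, h2])
        (by simp [black_add, h3]; ring)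
      have g2 := hE (addBalls s ![true, false]) (by simp [red_add, h2]) (by simp [black_add, h3])
      have g3 := hE (addBalls s ![false, true]) (by simp [red_add, h2]) (by simp [black_add, h3])
      have g4 := hT (addBalls s ![false, false]) (a + 1) b (by omega)
        (by simp [red_add, h2]; ring) (by simp [black_add, h3])
      rw [show j - (a + b) = j - (a + b + 1) + 1 by omega, pow_succ]
      linarith
    · set q : ℝ := (probBlack Wt s : ℝ) with hq
      have hq0 : 0 ≤ q := (probBlack Wt s).2.1
      have hq1 : q ≤ 1 := (probBlack Wt s).2.2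
      have hq2 : 2 * (1 - q) ≤ (1 / 4) ^ j := by
        simp only [hq, probBlack]
        rw [h3, h4, Wt_fast j a h1, Wt_fast (j + 1) b (by omega),
          show (j + 1) ^ 2 = j ^ 2 + (j + j + 1) by ring, pow_add, pow_succ, pow_add,
          show (1 / 4 : ℝ) = (1 / 2) * (1 / 2) by norm_num, mul_pow, one_div, inv_pow]
        have : (0 : ℝ) < 2 ^ j := by positivity
        have : (0 : ℝ) < 2 ^ (j ^ 2) := by positivity
        field_simp
        rw [pow_add]
        nlinarith
      rw [F_succ s ⟨j, by omega, by nlinarith, by nlinarith⟩ n _ hq]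
      have g1 : F (addBalls s ![true, true]) n ≤
          (2 * j + 1 - (b + 1 : ℕ)) * (1 / 4) ^ j + 7 * (5 / 9) ^ (j + 1) := by
        rcases h2.lt_or_eq with h5 | rfl
        · exact ih2 a (b + 1) _ h1 h5 (by simp [red_add, h3]) (by simp [black_add, h4]; ring)
        · refine (ih3 a _ h1 (by simp [red_add, h3]) (by simp [black_add, h4]; ring)).trans ?_
          have : (0 : ℝ) ≤ a := by positivity
          have : (0 : ℝ) < (1 / 4) ^ b := by positivity
          push_cast
          nlinarith
      have g2 := F_le_one (addBalls s ![true, false]) n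
      have g3 := F_le_one (addBalls s ![false, true]) n
      have g4 := F_le_one (addBalls s ![false, false]) n
      have g5 := F_nonneg (addBalls s ![true, true]) n
      push_cast at g1
      have g6 : q * q * F (addBalls s ![true, true]) n ≤ F (addBalls s ![true, true]) n := by
        have : q * q ≤ 1 := by nlinarith
        nlinarith
      have g7 := mul_le_mul_of_nonneg_left g2 (show 0 ≤ q * (1 - q) by nlinarith)
      have g8 := mul_le_mul_of_nonneg_left g3 (show 0 ≤ (1 - q) * q by nlinarith)
      have g9 := mul_le_mul_of_nonneg_left g4 (show 0 ≤ (1 - q) * (1 - q) by nlinarith)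
      nlinarith
    · set q : ℝ := (probBlack Wt s : ℝ) with hq
      have hq0 : 0 ≤ q := (probBlack Wt s).2.1
      have hq1 : q ≤ 1 := (probBlack Wt s).2.2
      have hq2 : 2 * q ≤ (1 / 4) ^ j := by
        simp only [hq, probBlack]
        have e := Wt_trap (j + 2) 0 (by omega)
        rw [mul_zero, add_zero] at e
        rw [h2, h3, Wt_fast j a h1, e]
        have h4 : (2 : ℝ) ^ (3 * j + 3) ≤ 2 ^ (j ^ 2) :=
          pow_le_pow_right₀ (by norm_num) (by nlinarith)
        rw [show 3 * j + 3 = j + j + j + 3 by ring, pow_add, pow_add, pow_add] at h4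
        rw [show (1 / 4 : ℝ) = (1 / 2) * (1 / 2) by norm_num, mul_pow, one_div, inv_pow, pow_add]
        have : (0 : ℝ) < 2 ^ j := by positivity
        have : (0 : ℝ) < 2 ^ (j ^ 2) := by positivity
        field_simp
        nlinarith
      rw [F_succ s ⟨j, by omega, by nlinarith, by nlinarith⟩ n _ hq]
      have g1 : F (addBalls s ![false, false]) n ≤
          (j - (a + 1 : ℕ)) * (1 / 4) ^ j + 7 * (5 / 9) ^ (j + 1) := by
        rcases (show a + 1 < j ∨ a + 1 = j by omega) with h5 | h5
        · exact ih3 (a + 1) _ h5 (by simp [red_add, h2]; ring) (by simp [black_add, h3])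
        · have := (ih (j + 1) (by omega)).1 0 0 (addBalls s ![false, false]) (by omega)
            (by simp [red_add, h2]; rw [← h5]; ring) (by simp [black_add, h3])
          rw [h5, sub_self]
          simp only [add_zero, Nat.sub_zero] at this
          linarith
      have g2 := F_le_one (addBalls s ![true, false]) n
      have g3 := F_le_one (addBalls s ![false, true]) n
      have g4 := F_le_one (addBalls s ![true, true]) n
      have g5 := F_nonneg (addBalls s ![false, false]) n
      push_cast at g1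
      have g6 : (1 - q) * (1 - q) * F (addBalls s ![false, false]) n ≤
          F (addBalls s ![false, false]) n := by
        have : (1 - q) * (1 - q) ≤ 1 := by nlinarith
        nlinarith
      have g7 := mul_le_mul_of_nonneg_left g2 (show 0 ≤ q * (1 - q) by nlinarith)
      have g8 := mul_le_mul_of_nonneg_left g3 (show 0 ≤ (1 - q) * q by nlinarith)
      have g9 := mul_le_mul_of_nonneg_left g4 (show 0 ≤ q * q by nlinarith)
      nlinarith

def s0 : St := ![(25, 16), (0, 0)]

theorem no_monopoly : pathLaw (urnKernel 2 Wt) s0 (monopoly 2) < 1 := by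
  have hb : black s0 = 25 := by simp [black, s0]
  have hr : red s0 = 16 := by simp [red, s0]
  have hsub : monopoly 2 ⊆ ⋃ n, (A 41 n)ᶜ := by
    intro x hx
    by_contra hc
    simp only [Set.mem_iUnion, Set.mem_compl_iff, not_exists, not_not] at hc
    have h1 : ∀ t, Good (x t) ∧ black (x t) + red (x t) = 41 + 2 * t := fun t => hc t t le_rfl
    rcases hx with h | h
    · obtain ⟨N, hN⟩ := eventually_atTop.1 h
      have h2 : ∀ t, N ≤ t → red (x t) = red (x N) := fun t ht => by
        induction t, ht using Nat.le_induction with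
        | base => rfl
        | succ t ht ih => rw [hN t ht, ih]
      set r := red (x N)
      obtain ⟨⟨j, h3, h4, -⟩, h5⟩ := h1 (N + r + (r + 2) ^ 2)
      rw [h2 _ (by omega)] at h3 h5
      have h6 : j ≤ r := (Nat.le_self_pow (by norm_num) j).trans h3
      have h7 : (j + 2) ^ 2 ≤ (r + 2) ^ 2 := by gcongr
      omega
    · obtain ⟨N, hN⟩ := eventually_atTop.1 h
      have h2 : ∀ t, N ≤ t → black (x t) = black (x N) := fun t ht => by
        induction t, ht using Nat.le_induction with
        | base => rfl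
        | succ t ht ih => rw [hN t ht, ih]
      obtain ⟨⟨j, -, -, h3⟩, h5⟩ := h1 (N + black (x N))
      have h6 := h2 (N + black (x N)) (by omega)
      omega
  refine (measure_mono hsub).trans_lt ?_
  have hmono : Monotone fun n => (A 41 n)ᶜ := fun m n hmn =>
    Set.compl_subset_compl.2 fun x hx t ht => hx t (ht.trans hmn)
  rw [hmono.measure_iUnion]
  refine lt_of_le_of_lt (iSup_le fun n => ?_) (show ENNReal.ofReal (7 / 10) < 1 by
    rw [ENNReal.ofReal_lt_one]; norm_num)
  have := (key n 4 le_rfl).1 0 0 s0 (by norm_num) (by simp [hr]) (by simp [hb])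
  rw [F, hb, hr] at this
  rw [← ofReal_measureReal]
  exact ENNReal.ofReal_le_ofReal (this.trans (by norm_num))

end Pool.Agent.H45.Urn
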